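import Mathlib

-- merged part: Pool.Agent.Work.MP_677830_co.G.Sel
section
-- merged part: Pool.Agent.Work.MP_677830_co.G.Defs
section
/-!
# Definitions for the hyperbolicity theorem on families with meromorphic distances
The paper proof is in the team store, file h25_677830.md.
-/

namespace Pool.Agent.Work.MP_677830_co.G

open Filter Topology Polynomial Matrix MeasureTheory
open scoped ComplexConjugate

/-! ### Scales -/

/-- A filter with a positive function tending to zero along it. -/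
structure Scale (T : Type) where
  F : Filter T
  τ : T → ℝ
  pos : ∀ᶠ t in F, 0 < τ t
  lim : Tendsto τ F (𝓝 0)

/-- `f` has order at least `κ`. -/
def Scale.Ge {T E : Type} [Norm E] (S : Scale T) (κ : ℝ) (f : T → E) : Prop :=
  ∀ κ' < κ, ∀ᶠ t in S.F, ‖f t‖ ≤ S.τ t ^ κ'

/-- `exp φ` has order at least `κ`. -/
def Scale.LogLe {T : Type} (S : Scale T) (κ : ℝ) (φ : T → ℝ) : Prop :=
  ∀ κ' < κ, ∀ᶠ t in S.F, φ t ≤ κ' * Real.log (S.τ t)

/-! ### Trees -/

/-- An ultrametric rank function. -/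
structure Tree (ι : Type) where
  μ : ι → ι → ℕ
  symm : ∀ i k, μ i k = μ k i
  ultra : ∀ i j k, i ≠ j → j ≠ k → i ≠ k → min (μ i j) (μ j k) ≤ μ i k

section
variable {ι : Type} [Fintype ι] [DecidableEq ι]

/-- The cluster of `i` inside `A` at level `s`. -/
def Tree.cl (R : Tree ι) (A : Finset ι) (s : ℕ) (i : ι) : Finset ι :=
  A.filter fun k => k = i ∨ s ≤ R.μ i k

/-- The clusters of `A` at level `s`. -/
def Tree.parts (R : Tree ι) (A : Finset ι) (s : ℕ) : Finset (Finset ι) := A.image (R.cl A s)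

/-- A bound for all levels. -/
def Tree.top (R : Tree ι) : ℕ := Finset.univ.sup fun x : ι × ι => R.μ x.1 x.2

/-- The rank truncated at level `s` (infinite on the diagonal). -/
def Tree.mn (R : Tree ι) (s : ℕ) (i m : ι) : ℕ := if m = i then s else min s (R.μ i m)

/-- A cluster with at least two points living on one level only. -/
def Tree.Bad (R : Tree ι) (A : Finset ι) (s : ℕ) (B : Finset ι) : Prop :=
  2 ≤ B.card ∧ B ∉ R.parts A (s + 1) ∧ (s = 1 ∨ B ∉ R.parts A (s - 1))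

instance (R : Tree ι) (A : Finset ι) (s : ℕ) (B : Finset ι) : Decidable (R.Bad A s B) := by
  unfold Tree.Bad; infer_instance

/-- Level-one clusters have at most half of the points. -/
def Tree.Bal (R : Tree ι) : Prop := ∀ i, 2 * (R.cl Finset.univ 1 i).card ≤ Fintype.card ι

/-- Weighted sum over the unit edges of the tree of `A`. -/
noncomputable def Tree.usum (R : Tree ι) (σ : ℕ → ℝ) (A : Finset ι) (g : Finset ι → ℝ) : ℝ :=
  ∑ s ∈ Finset.Icc 1 R.top, (σ s - σ (s - 1)) * ∑ C ∈ R.parts A s, g C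

/-- Number of bad unit edges. -/
noncomputable def Tree.nbad (R : Tree ι) (A : Finset ι) : ℝ :=
  ∑ s ∈ Finset.Icc 1 R.top, ∑ C ∈ R.parts A s, if R.Bad A s C then (1 : ℝ) else 0

/-- Total mass. -/
noncomputable def Tree.mass (R : Tree ι) (σ : ℕ → ℝ) (A : Finset ι) : ℝ :=
  ∑ x ∈ A.offDiag, σ (R.μ x.1 x.2)

/-- Small clusters living on one level are clusters of the other tree. -/
def Com (q : ℕ) (R R' : Tree ι) : Prop :=
  ∀ s, 1 ≤ s → ∀ C ∈ R.parts Finset.univ s, C.card ≤ q → R.Bad Finset.univ s C →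
    ∃ s', 1 ≤ s' ∧ C ∈ R'.parts Finset.univ s'

/-- A family of disjoint small common clusters. -/
def Fam (q : ℕ) (R R' : Tree ι) (M : Finset (Finset ι)) : Prop :=
  (∀ C ∈ M, ∀ C' ∈ M, C ≠ C' → Disjoint C C') ∧
    ∀ C ∈ M, 2 ≤ C.card ∧ C.card ≤ q ∧ (∃ s, 1 ≤ s ∧ C ∈ R.parts Finset.univ s) ∧
      ∃ s', 1 ≤ s' ∧ C ∈ R'.parts Finset.univ s'

/-- Level weights. -/
def Lev (σ : ℕ → ℝ) (ϑ : ℝ) : Prop :=
  σ 0 = 0 ∧ StrictMono σ ∧ 0 ≤ ϑ ∧ ∀ s, ϑ ≤ σ (s + 1) - σ s

/-- Points whose mutual distances follow the tree. -/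
def Cfg {T : Type} (S : Scale T) (R : Tree ι) (σ : ℕ → ℝ) (y : ι → T → ℂ) : Prop :=
  (∀ i, S.Ge 0 (y i)) ∧ ∀ i k, i ≠ k → S.Ge (σ (R.μ i k)) (fun t => y i t - y k t) ∧
    S.Ge (-σ (R.μ i k)) (fun t => (y i t - y k t)⁻¹) ∧ ∀ᶠ t in S.F, y i t ≠ y k t

/-- Velocities adapted to the tree. -/
def Vel {T : Type} (S : Scale T) (R : Tree ι) (σ : ℕ → ℝ) (ϑ : ℝ) (y u : ι → T → ℂ)
    (D : ℕ → T → ℂ) : Prop :=
  (∀ t, D 0 t = 0) ∧ (∀ s, S.Ge (-ϑ) (D s)) ∧ ∀ i k, i ≠ k → ∀ s ≤ R.μ i k,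
    S.Ge (σ s) (fun t => u i t - u k t - D s t * (y i t - y k t))

/-- The tropical condition for the product of the linear factors indexed by `Sb`. -/
def Trop (R : Tree ι) (σ : ℕ → ℝ) (ν : ℝ) (A Sb : Finset ι) (e : ℝ) : Prop :=
  Sb ⊆ A ∧ ∀ i ∈ A, ∀ s, e ≤ σ s + ∑ m ∈ A, ((if m ∈ Sb then 1 else 0) - ν) * σ (R.mn s i m)

/-! ### Numerical functions -/

/-- Volume loss of a cluster. -/
noncomputable def loss (ν : ℝ) (b : ℕ) : ℝ := ∑ k ∈ Finset.range b, max 0 (ν * b - 1 - k)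

/-- Fractional part of a quarter. -/
noncomputable def fr (b : ℕ) : ℝ := Int.fract ((b : ℝ) / 4)

/-- Net gain of a unit edge. -/
noncomputable def g2 (n b : ℕ) : ℝ :=
  if 2 ≤ b then 3 / 16 * ((b : ℝ) * (n - b)) / (n - 1) - fr b * (1 - fr b) - |1 - 2 * fr b| / 2
  else 0

/-- Pole cost. -/
noncomputable def cost (R : Tree ι) (σ : ℕ → ℝ) (ϑ : ℝ) (A : Finset ι) : ℝ :=
  R.usum σ A (fun C => if 2 ≤ C.card then |1 - 2 * fr C.card| / 2 else 0) + ϑ * R.nbad A

/-- Local exponent of the Hodge inequality. -/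
noncomputable def loc (R : Tree ι) (σ : ℕ → ℝ) (ϑ : ℝ) (A : Finset ι) : ℝ :=
  R.usum σ A (fun C => g2 A.card C.card) - ϑ * R.nbad A

/-- Forced vanishing for a cluster. -/
noncomputable def phi (q a : ℕ) : ℝ := if q < a then (a : ℝ) ^ 2 / (2 * q) - a else 0

noncomputable def cn (n : ℕ) : ℝ := (5 * (n : ℝ) / 8 - 1) / (n - 1)

noncomputable def rho2 (q : ℕ) : ℝ := 24 * (q : ℝ) * (24 * q - 1) / ((q : ℝ) ^ 2 * (q ^ 2 - 1))

noncomputable def lam (q : ℕ) : ℝ := rho2 q * q / 4000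

noncomputable def c1 (q : ℕ) : ℝ := 1 / (8000 * (q : ℝ) ^ 8)

/-! ### Pointwise Hodge data -/

/-- The weight. -/
noncomputable def wt (ν : ℝ) (A : Finset ι) (z : ι → ℂ) (x : ℂ) : ℝ :=
  ‖∏ i ∈ A, (x - z i)‖ ^ (-(2 * ν))

/-- Polynomial function with a coefficient vector. -/
noncomputable def pv {j : ℕ} (c : Fin j → ℂ) (x : ℂ) : ℂ := ∑ l, c l * x ^ (l : ℕ)

/-- Gram matrix of the monomials. -/
noncomputable def gramM (ν : ℝ) (A : Finset ι) (z : ι → ℂ) (j : ℕ) : Matrix (Fin j) (Fin j) ℂ :=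
  Matrix.of fun k l => ∫ x : ℂ, x ^ (k : ℕ) * conj (x ^ (l : ℕ)) * (wt ν A z x : ℂ)

/-- The Kodaira-Spencer pairing on monomials. -/
noncomputable def thetaM (A : Finset ι) (z v : ι → ℂ) (j₁ j₂ : ℕ) : Matrix (Fin j₁) (Fin j₂) ℂ :=
  Matrix.of fun k l => ∑ i ∈ A, z i ^ (k : ℕ) * z i ^ (l : ℕ) * v i * Lagrange.nodalWeight A z i

/-- The Kodaira-Spencer pairing on polynomials. -/
noncomputable def th (A : Finset ι) (z v : ι → ℂ) (P Q : ℂ[X]) : ℂ :=
  ∑ i ∈ A, P.eval (z i) * Q.eval (z i) * v i * Lagrange.nodalWeight A z i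

/-- Product of linear factors. -/
noncomputable def bp (Sb : Finset ι) (z : ι → ℂ) : ℂ[X] := ∏ m ∈ Sb, (X - C (z m))

/-- Residue sum over a cluster. -/
noncomputable def res (A B : Finset ι) (z : ι → ℂ) (c : ℂ) (m : ℕ) (P : ℂ[X]) : ℂ :=
  ∑ i ∈ B, (z i - c) ^ m * P.eval (z i) * Lagrange.nodalWeight A z i

/-- Weighted sum of all minors. -/
noncomputable def msum {j₁ j₂ : ℕ} (M : Matrix (Fin j₁) (Fin j₂) ℂ) (nb : Fin j₁ → ℝ)
    (nb' : Fin j₂ → ℝ) : ℝ :=
  ∑ r ∈ Finset.range (j₁ + 1), ∑ f : Fin r ↪ Fin j₁, ∑ g : Fin r ↪ Fin j₂,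
    ‖(M.submatrix f g).det‖ *
      ((∏ l ∈ (Finset.univ.map f)ᶜ, nb l) * ∏ l ∈ (Finset.univ.map g)ᶜ, nb' l)

/-- The matrix form of the Hodge bound. -/
def HBm {j₁ j₂ : ℕ} (H₁ : Matrix (Fin j₁) (Fin j₁) ℂ) (H₂ : Matrix (Fin j₂) (Fin j₂) ℂ)
    (T : Matrix (Fin j₁) (Fin j₂) ℂ) (Φ : ℝ) : Prop :=
  ∀ (B : Matrix (Fin j₁) (Fin j₁) ℂ) (B' : Matrix (Fin j₂) (Fin j₂) ℂ) (nb : Fin j₁ → ℝ)
    (nb' : Fin j₂ → ℝ), B.det ≠ 0 → B'.det ≠ 0 → (∀ k, 0 ≤ nb k) → (∀ k, 0 ≤ nb' k) →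
    (∀ k l, ‖(B * H₁ * Bᴴ) k l‖ ≤ nb k * nb l) → (∀ k l, ‖(B' * H₂ * B'ᴴ) k l‖ ≤ nb' k * nb' l) →
    Real.exp Φ * (‖B.det‖ * ‖B'.det‖) ^ 2 ≤
      (((j₁ : ℝ) + 1) ^ j₁ * ((j₂ : ℝ) + 1) ^ j₂ * msum (B * T * B'ᵀ) nb nb') ^ 2

/-- The Hodge bound for `4 p` points with velocities `v`. -/
def HB (p : ℕ) (A : Finset ι) (z v : ι → ℂ) (Φ : ℝ) : Prop :=
  HBm (gramM (1 / 4) A z (p - 1)) (gramM (3 / 4) A z (3 * p - 1))
    (thetaM A z v (p - 1) (3 * p - 1)) Φ

/-- Logarithm of the discriminant. -/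
noncomputable def vs (A : Finset ι) (z : ι → ℂ) : ℝ := ∑ x ∈ A.offDiag, Real.log ‖z x.1 - z x.2‖

/-- Cross ratio. -/
noncomputable def cr (z : ι → ℂ) (x : ι × ι × ι × ι) : ℂ :=
  (z x.1 - z x.2.1) * (z x.2.2.1 - z x.2.2.2) / ((z x.1 - z x.2.2.1) * (z x.2.1 - z x.2.2.2))

/-- Size of all cross ratios. -/
noncomputable def LL (z : ι → ℂ) : ℝ := ∑ x : ι × ι × ι × ι, Real.posLog ‖cr z x‖

/-- A Moebius change of frame together with velocities. -/
def Frame (z v y u : ι → ℂ) : Prop :=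
  ∃ a c α β : ℂ, a ≠ 0 ∧ ∀ i, z i ≠ c ∧ y i = a / (z i - c) ∧
    u i = -(y i ^ 2 / a) * (v i - α - β * z i)

end

/-- The big index set. -/
abbrev Ix (q : ℕ) : Type := Fin q × Fin q

/-- The interpolation determinant. -/
noncomputable def del (q : ℕ) (z w : Ix q → ℂ) : ℂ :=
  (Matrix.of fun i ab : Ix q => z i ^ (ab.1 : ℕ) * w i ^ (ab.2 : ℕ)).det

/-- The samples. -/
def samples (q : ℕ) : Finset (Finset (Ix q)) := Finset.powersetCard (24 * q) Finset.univ

/-- The invariant potential. -/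
noncomputable def Psi (q : ℕ) (z w : Ix q → ℂ) (Φ Φ' : Finset (Ix q) → ℝ) : ℝ :=
  (∑ A ∈ samples q, (Φ A + cn (24 * q) * vs A z + (Φ' A + cn (24 * q) * vs A w))) /
      (samples q).card +
    lam q * (2 * Real.log ‖del q z w‖ - (vs Finset.univ z + vs Finset.univ w) / (q + 1))

/-- Determinant of products of Taylor functionals. -/
noncomputable def rdet (q : ℕ) (c d : Ix q → ℂ) (α β : Ix q → Fin q) : ℂ :=
  (Matrix.of fun i ab : Ix q =>
    (((ab.1 : ℕ).choose (α i) : ℂ) * c i ^ ((ab.1 : ℕ) - α i)) *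
      (((ab.2 : ℕ).choose (β i) : ℂ) * d i ^ ((ab.2 : ℕ) - β i))).det

/-! ### Analysis -/

/-- Weak sub-mean property (four-point means). -/
def SM (φ : ℂ → ℝ) (t : ℂ) : Prop :=
  ∀ η > 0, ∀ᶠ ε : ℝ in 𝓝[>] 0, 4 * φ t - η * ε ^ 2 ≤
    φ (t + ε) + φ (t + ε * Complex.I) + φ (t - ε) + φ (t - ε * Complex.I)

/-- Wirtinger derivative. -/
noncomputable def dz (f : ℂ → ℂ) (x : ℂ) : ℂ :=
  (fderiv ℝ f x 1 - Complex.I * fderiv ℝ f x Complex.I) / 2

/-- Conjugate Wirtinger derivative. -/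
noncomputable def dzb (f : ℂ → ℂ) (x : ℂ) : ℂ :=
  (fderiv ℝ f x 1 + Complex.I * fderiv ℝ f x Complex.I) / 2

/-- Second order data of a scalar function at the origin. -/
def Ex2 (J : ℂ → ℂ) (a a' c : ℂ) : Prop :=
  ((fun s => J s - J 0 - s * a - conj s * a') =O[𝓝 0] fun s => ‖s‖ ^ 2) ∧
    (fun ε : ℝ => J ε + J (ε * Complex.I) + J (-ε) + J (-(ε * Complex.I)) - 4 * J 0 -
      4 * (ε : ℂ) ^ 2 * c) =o[𝓝[>] 0] fun ε : ℝ => ε ^ 2

section
variable {ι : Type} [DecidableEq ι]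

/-- The infinitesimal motion. -/
noncomputable def mo (A : Finset ι) (y v : ι → ℂ) (ρ : ℂ → ℂ) (x : ℂ) : ℂ :=
  ρ x * (Lagrange.interpolate A y v).eval x

/-- First variation of the holomorphic part of the pulled back form. -/
noncomputable def aone (ν : ℝ) (A : Finset ι) (y v : ι → ℂ) (ρ : ℂ → ℂ) {j : ℕ}
    (c cd : Fin j → ℂ) (x : ℂ) : ℂ :=
  pv cd x + deriv (pv c) x * mo A y v ρ x + pv c x * dz (mo A y v ρ) x -
    ν * (pv c x * ∑ i ∈ A, (mo A y v ρ x - v i) / (x - y i))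

/-- First variation of the antiholomorphic part of the pulled back form. -/
noncomputable def bone (A : Finset ι) (y v : ι → ℂ) (ρ : ℂ → ℂ) {j : ℕ} (c : Fin j → ℂ)
    (x : ℂ) : ℂ :=
  pv c x * dzb (mo A y v ρ) x

end

/-- Good parameters. -/
def Gd (q : ℕ) (z w : Ix q → ℂ → ℂ) (Φ Φ' : Finset (Ix q) → ℂ → ℝ) (t : ℂ) : Prop :=
  (∀ i, AnalyticAt ℂ (z i) t ∧ AnalyticAt ℂ (w i) t) ∧ (Function.Injective fun i => z i t) ∧
    (Function.Injective fun i => w i t) ∧ del q (fun i => z i t) (fun i => w i t) ≠ 0 ∧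
    ∀ A ∈ samples q,
      (ContinuousAt (Φ A) t ∧ SM (Φ A) t ∧
        HB (6 * q) A (fun i => z i t) (fun i => deriv (z i) t) (Φ A t)) ∧
      (ContinuousAt (Φ' A) t ∧ SM (Φ' A) t ∧
        HB (6 * q) A (fun i => w i t) (fun i => deriv (w i) t) (Φ' A t))

/-- Proximity function of the logarithmic derivative. -/
noncomputable def mld (f : ℂ → ℂ) (r : ℝ) : ℝ :=
  Real.circleAverage (fun t => Real.posLog ‖deriv f t / f t‖) 0 r

/-- The order as an integer. -/
noncomputable def ord (f : ℂ → ℂ) (v : ℂ) : ℤ := (meromorphicOrderAt f v).untop₀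

/-- The pole order. -/
noncomputable def po (f : ℂ → ℂ) (v : ℂ) : ℝ := ((max (-ord f v) 0 : ℤ) : ℝ)

/-- The scale at a point of the plane. -/
noncomputable def plS (v : ℂ) : Scale ℂ where
  F := 𝓝[≠] v
  τ := fun t => ‖t - v‖
  pos := by
    filter_upwards [self_mem_nhdsWithin] with t ht
    exact norm_pos_iff.2 (sub_ne_zero.2 ht)
  lim := by
    have : Tendsto (fun t : ℂ => ‖t - v‖) (𝓝 v) (𝓝 ‖v - v‖) :=
      (continuous_id.sub continuous_const).norm.tendsto v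
    rw [sub_self, norm_zero] at this
    exact this.mono_left nhdsWithin_le_nhds

/-- Nevanlinna characteristic. -/
noncomputable abbrev TT (f : ℂ → ℂ) (r : ℝ) : ℝ := ValueDistribution.characteristic f ⊤ r

/-- Orientation determinant. -/
def ori (a b c : ℝ × ℝ) : ℝ := (b.1 - a.1) * (c.2 - a.2) - (b.2 - a.2) * (c.1 - a.1)

/-- Sign conditions of a grid of lines with one point in each cell. -/
def Grid (k : ℕ) (l r dn up : Fin (k + 1) → ℝ × ℝ) (p : Fin k → Fin k → ℝ × ℝ) : Prop :=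
  (∀ (i : Fin (k + 1)) (a b : Fin k), ((i : ℕ) ≤ (a : ℕ) → 0 < ori (l i) (r i) (p a b)) ∧
    ((a : ℕ) < (i : ℕ) → ori (l i) (r i) (p a b) < 0)) ∧
  (∀ (j : Fin (k + 1)) (a b : Fin k), ((j : ℕ) ≤ (b : ℕ) → 0 < ori (up j) (dn j) (p a b)) ∧
    ((b : ℕ) < (j : ℕ) → ori (up j) (dn j) (p a b) < 0)) ∧
  (∀ i i', i < i' → 0 < ori (l i) (r i) (l i') ∧ 0 < ori (l i) (r i) (r i') ∧
    ori (l i') (r i') (l i) < 0 ∧ ori (l i') (r i') (r i) < 0) ∧
  (∀ j j', j < j' → 0 < ori (up j) (dn j) (up j') ∧ 0 < ori (up j) (dn j) (dn j') ∧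
    ori (up j') (dn j') (up j) < 0 ∧ ori (up j') (dn j') (dn j) < 0) ∧
  ∀ i j, ori (up j) (dn j) (l i) < 0 ∧ 0 < ori (up j) (dn j) (r i) ∧
    ori (l i) (r i) (dn j) < 0 ∧ 0 < ori (l i) (r i) (up j)

end Pool.Agent.Work.MP_677830_co.G
end

-- merged part: Pool.Agent.Work.MP_677830_co.G.Sc
section
/-!
# Calculus of orders along a scale
Plan. Everything follows from: for a < b and any constant C, eventually C * τ ^ b ≤ τ ^ a
(τ ^ (b - a) tends to 0), and τ ^ b ≤ τ ^ a when 0 < τ ≤ 1. For products split the slack evenly.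
Determinant: Leibniz formula, prod, sum, Equiv.sum_comp. Bordered determinant: the matrix
fromBlocks M0 L (-N) 1 on n ⊕ P has determinant det (M0 + L N) (det_fromBlocks_one₂₂); use ge_det
with row potentials e, a and column potentials e', b (diagonal entry 1 has order 0 ≥ a p + b p).
-/

namespace Pool.Agent.Work.MP_677830_co.G

open Filter Topology Polynomial Matrix MeasureTheory
open scoped ComplexConjugate ComplexOrder

variable {T : Type} {S : Scale T} {E : Type} [NormedField E] {κ κ' : ℝ} {f g : T → E}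

theorem Scale.ev_lt (S : Scale T) {δ : ℝ} (hδ : 0 < δ) : ∀ᶠ t in S.F, 0 < S.τ t ∧ S.τ t < δ := by
  exact S.pos.and (S.lim.eventually (gt_mem_nhds hδ))

theorem Scale.ev_mul_le (S : Scale T) (C : ℝ) {a b : ℝ} (h : a < b) :
    ∀ᶠ t in S.F, C * S.τ t ^ b ≤ S.τ t ^ a := by
  have h1 : Tendsto (fun t => C * S.τ t ^ (b - a)) S.F (𝓝 (C * 0)) := by
    refine Tendsto.const_mul C ?_
    have := S.lim.rpow_const (p := b - a) (Or.inr (sub_nonneg.2 h.le))
    rwa [Real.zero_rpow (sub_ne_zero.2 h.ne')] at this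
  rw [mul_zero] at h1
  filter_upwards [S.pos, h1.eventually (gt_mem_nhds one_pos)] with t t0 t1
  have e : S.τ t ^ b = S.τ t ^ (b - a) * S.τ t ^ a := by
    rw [← Real.rpow_add t0, sub_add_cancel]
  rw [e, ← mul_assoc]
  exact mul_le_of_le_one_left (Real.rpow_nonneg t0.le _) t1.le

theorem Scale.ge_of_bound (h : ∀ κ' < κ, ∃ C : ℝ, ∀ᶠ t in S.F, ‖f t‖ ≤ C * S.τ t ^ κ') :
    S.Ge κ f := by
  intro a ha
  obtain ⟨b, h1, h2⟩ := exists_between ha
  obtain ⟨C, hC⟩ := h b h2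
  filter_upwards [hC, S.ev_mul_le C h1] with t t1 t2 using t1.trans t2

theorem Scale.Ge.mono (h : S.Ge κ f) (hk : κ' ≤ κ) : S.Ge κ' f := by
  exact fun a ha => h a (ha.trans_le hk)

theorem Scale.Ge.congr (h : S.Ge κ f) (e : ∀ᶠ t in S.F, f t = g t) : S.Ge κ g := by
  intro a ha
  filter_upwards [h a ha, e] with t t1 t2 using t2 ▸ t1

theorem Scale.Ge.of_le {E' : Type} [NormedField E'] {g : T → E'} (h : S.Ge κ g) (C : ℝ)
    (e : ∀ᶠ t in S.F, ‖f t‖ ≤ C * ‖g t‖) : S.Ge κ f := by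
  refine Scale.ge_of_bound fun a ha => ⟨|C|, ?_⟩
  filter_upwards [h a ha, e] with t t1 t2
  exact t2.trans (mul_le_mul (le_abs_self C) t1 (norm_nonneg _) (abs_nonneg C))

theorem Scale.ge_of_ev_zero (κ : ℝ) (e : ∀ᶠ t in S.F, f t = 0) : S.Ge κ f := by
  intro a _
  filter_upwards [S.pos, e] with t t0 t1
  rw [t1, norm_zero]
  exact Real.rpow_nonneg t0.le _

theorem Scale.ge_zero (S : Scale T) (κ : ℝ) : S.Ge κ fun _ => (0 : E) := by
  exact Scale.ge_of_ev_zero κ (Eventually.of_forall fun _ => rfl)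

theorem Scale.ge_const (S : Scale T) (c : E) : S.Ge 0 fun _ => c := by
  intro a ha
  filter_upwards [S.ev_mul_le ‖c‖ ha] with t ht
  rwa [Real.rpow_zero, mul_one] at ht

theorem Scale.ge_of_bdd (C : ℝ) (e : ∀ᶠ t in S.F, ‖f t‖ ≤ C) : S.Ge 0 f := by
  refine (S.ge_const (1 : E)).of_le C ?_
  simpa using e

theorem Scale.Ge.norm (h : S.Ge κ f) : S.Ge κ fun t => ‖f t‖ := by
  intro a ha
  simpa only [norm_norm] using h a ha

theorem Scale.Ge.add (h : S.Ge κ f) (h' : S.Ge κ g) : S.Ge κ fun t => f t + g t := by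
  refine Scale.ge_of_bound fun a ha => ⟨2, ?_⟩
  filter_upwards [h a ha, h' a ha] with t t1 t2
  linarith only [t1, t2, norm_add_le (f t) (g t)]

theorem Scale.Ge.neg (h : S.Ge κ f) : S.Ge κ fun t => -f t := by
  intro a ha
  simpa only [norm_neg] using h a ha

theorem Scale.Ge.sub (h : S.Ge κ f) (h' : S.Ge κ g) : S.Ge κ fun t => f t - g t := by
  simpa only [sub_eq_add_neg] using h.add h'.neg

theorem Scale.Ge.mul (h : S.Ge κ f) (h' : S.Ge κ' g) : S.Ge (κ + κ') fun t => f t * g t := by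
  intro a ha
  filter_upwards [S.pos, h (κ - (κ + κ' - a) / 2) (by linarith),
    h' (κ' - (κ + κ' - a) / 2) (by linarith only [ha])] with t t0 t1 t2
  rw [norm_mul]
  refine (mul_le_mul t1 t2 (norm_nonneg _) (Real.rpow_nonneg t0.le _)).trans_eq ?_
  rw [← Real.rpow_add t0]
  congr 1
  ring

theorem Scale.Ge.const_mul (h : S.Ge κ f) (c : E) : S.Ge κ fun t => c * f t := by
  exact h.of_le ‖c‖ (Eventually.of_forall fun t => (norm_mul _ _).le)

theorem Scale.Ge.pow (h : S.Ge κ f) (n : ℕ) : S.Ge (n * κ) fun t => f t ^ n := by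
  induction n with
  | zero => simpa using S.ge_const (1 : E)
  | succ n ih =>
    simp only [pow_succ]
    exact (ih.mul h).mono (le_of_eq (by push_cast; ring))

theorem Scale.ge_sum {ι : Type} (s : Finset ι) {F : ι → T → E} (h : ∀ i ∈ s, S.Ge κ (F i)) :
    S.Ge κ fun t => ∑ i ∈ s, F i t := by
  classical
  induction s using Finset.induction_on with
  | empty => simpa using S.ge_zero κ
  | insert i s hi ih =>
    simp only [Finset.sum_insert hi]
    exact (h i (Finset.mem_insert_self _ _)).add (ih fun j hj => h j (Finset.mem_insert_of_mem hj))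

theorem Scale.ge_prod {ι : Type} (s : Finset ι) {F : ι → T → E} {k : ι → ℝ}
    (h : ∀ i ∈ s, S.Ge (k i) (F i)) : S.Ge (∑ i ∈ s, k i) fun t => ∏ i ∈ s, F i t := by
  classical
  induction s using Finset.induction_on with
  | empty => simpa using S.ge_const (1 : E)
  | insert i s hi ih =>
    simp only [Finset.sum_insert hi, Finset.prod_insert hi]
    exact (h i (Finset.mem_insert_self _ _)).mul (ih fun j hj => h j (Finset.mem_insert_of_mem hj))

theorem Scale.ge_det {n : Type} [Fintype n] [DecidableEq n] (M : T → Matrix n n ℂ) (a b : n → ℝ)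
    (h : ∀ i j, S.Ge (a i + b j) fun t => M t i j) :
    S.Ge (∑ i, a i + ∑ j, b j) fun t => (M t).det := by
  simp only [Matrix.det_apply']
  refine Scale.ge_sum _ fun σ _ => Scale.Ge.const_mul ?_ _
  refine (Scale.ge_prod Finset.univ fun i _ => h (σ i) i).mono (le_of_eq ?_)
  rw [Finset.sum_add_distrib, Equiv.sum_comp σ a]

theorem Scale.ge_bord {n P : Type} [Fintype n] [DecidableEq n] [Fintype P] [DecidableEq P]
    (M : T → Matrix n n ℂ) (l m : P → n → T → ℂ) (e e' : n → ℝ) (a b : P → ℝ)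
    (h0 : ∀ i j, S.Ge (e i + e' j) fun t => M t i j) (hl : ∀ p i, S.Ge (e i + b p) (l p i))
    (hm : ∀ p j, S.Ge (a p + e' j) (m p j)) (hab : ∀ p, a p + b p ≤ 0) :
    S.Ge (∑ i, e i + ∑ j, e' j + ∑ p, (a p + b p))
      fun t => (Matrix.of fun i j => M t i j + ∑ p, l p i t * m p j t).det := by
  have h := Scale.ge_det (S := S) (fun t => Matrix.fromBlocks (M t) (Matrix.of fun i p => l p i t)
    (Matrix.of fun p j => -m p j t) 1) (Sum.elim e a) (Sum.elim e' b) (by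
      rintro (i | p) (j | q)
      · exact h0 i j
      · exact hl q i
      · exact (hm p j).neg
      · by_cases hpq : p = q
        · subst hpq
          exact (S.ge_const _).mono (hab p)
        · exact Scale.ge_of_ev_zero _ (Eventually.of_forall fun _ => Matrix.one_apply_ne hpq))
  refine (h.congr (Eventually.of_forall fun t => ?_)).mono (le_of_eq ?_)
  · rw [Matrix.det_fromBlocks_one₂₂]
    congr 1
    ext i j
    simp [Matrix.mul_apply]
  · simp only [Fintype.sum_sum_type, Sum.elim_inl, Sum.elim_inr, Finset.sum_add_distrib]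
    ring

variable {φ ψ : T → ℝ}

theorem Sc_iff : S.LogLe κ φ ↔ S.Ge κ fun t => Real.exp (φ t) := by
  refine forall₂_congr fun a _ => eventually_congr (S.pos.mono fun t t0 => ?_)
  rw [Real.norm_of_nonneg (Real.exp_pos _).le, Real.rpow_def_of_pos t0, Real.exp_le_exp, mul_comm]

theorem Scale.LogLe.mono (h : S.LogLe κ φ) (hk : κ' ≤ κ) : S.LogLe κ' φ := by
  exact fun a ha => h a (ha.trans_le hk)

theorem Scale.LogLe.of_le (h : S.LogLe κ φ) (e : ∀ᶠ t in S.F, ψ t ≤ φ t) : S.LogLe κ ψ := by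
  intro a ha
  filter_upwards [h a ha, e] with t t1 t2 using t2.trans t1

theorem Scale.logLe_const (S : Scale T) (C : ℝ) : S.LogLe 0 fun _ => C := by
  exact Sc_iff.2 (S.ge_const _)

theorem Scale.LogLe.add (h : S.LogLe κ φ) (h' : S.LogLe κ' ψ) :
    S.LogLe (κ + κ') fun t => φ t + ψ t := by
  refine Sc_iff.2 ?_
  simpa only [Real.exp_add] using (Sc_iff.1 h).mul (Sc_iff.1 h')

theorem Scale.LogLe.const_mul (h : S.LogLe κ φ) {c : ℝ} (hc : 0 ≤ c) :
    S.LogLe (c * κ) fun t => c * φ t := by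
  intro a ha
  rcases hc.eq_or_lt with rfl | hc
  · simpa using S.logLe_const 0 a (by simpa using ha)
  · filter_upwards [h (a / c) (by rwa [div_lt_iff₀' hc])] with t ht
    refine (mul_le_mul_of_nonneg_left ht hc.le).trans_eq ?_
    rw [← mul_assoc, mul_div_cancel₀ _ hc.ne']

theorem Scale.logLe_sum {ι : Type} (s : Finset ι) {F : ι → T → ℝ} {k : ι → ℝ}
    (h : ∀ i ∈ s, S.LogLe (k i) (F i)) : S.LogLe (∑ i ∈ s, k i) fun t => ∑ i ∈ s, F i t := by
  refine Sc_iff.2 ?_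
  simpa only [Real.exp_sum] using Scale.ge_prod s fun i hi => Sc_iff.1 (h i hi)

theorem Scale.Ge.logLe_of_exp (h : S.Ge κ f) (e : ∀ᶠ t in S.F, Real.exp (φ t) ≤ ‖f t‖) :
    S.LogLe κ φ := by
  refine Sc_iff.2 (h.of_le 1 ?_)
  simpa using e

theorem Scale.Ge.logLe (h : S.Ge κ f) (e : ∀ᶠ t in S.F, f t ≠ 0) :
    S.LogLe κ fun t => Real.log ‖f t‖ := by
  refine h.logLe_of_exp (e.mono fun t ht => ?_)
  rw [Real.exp_log (norm_pos_iff.2 ht)]

theorem Scale.Ge.logLe_neg (h : S.Ge κ fun t => (f t)⁻¹) (e : ∀ᶠ t in S.F, f t ≠ 0) :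
    S.LogLe κ fun t => -Real.log ‖f t‖ := by
  simpa only [norm_inv, Real.log_inv] using h.logLe (e.mono fun t ht => inv_ne_zero ht)

theorem Scale.Ge.logLe_posLog (h : S.Ge κ f) (hk : κ ≤ 0) :
    S.LogLe κ fun t => Real.posLog ‖f t‖ := by
  refine (h.norm.add ((S.ge_const (1 : ℝ)).mono hk)).logLe_of_exp
    (Eventually.of_forall fun t => ?_)
  have h0 := norm_nonneg (f t)
  rw [Real.norm_of_nonneg (by positivity), ← Real.le_log_iff_exp_le (by positivity), add_comm]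
  exact max_le (Real.log_nonneg (by linarith)) (by
    rcases h0.eq_or_lt with h1 | h1
    · rw [← h1]
      simp
    · exact Real.log_le_log h1 (by linarith))

end Pool.Agent.Work.MP_677830_co.G
end

-- merged part: Pool.Agent.Work.MP_677830_co.G.Tr
section
/-!
# Clusters of an ultrametric rank function
All statements are elementary. cl_eq_of_mem uses symm and ultra (cases k = i, m = k, m = i).
sum_parts: Finset.sum_biUnion or sum_image plus fiberwise summation. sum_parts_sub: the map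
C ↦ C ∩ A is a bijection from the parts of univ meeting A onto the parts of A.
mass_eq: σ (μ i k) is the sum over s in Icc 1 top of the steps with s ≤ μ i k; swap the sums; the
number of ordered pairs i ≠ k of A with s ≤ μ i k is the sum over parts of card * (card - 1).
-/

namespace Pool.Agent.Work.MP_677830_co.G

open Filter Topology Polynomial Matrix MeasureTheory
open scoped ComplexConjugate ComplexOrder

variable {ι : Type} [Fintype ι] [DecidableEq ι] (R : Tree ι) {A A' C C' : Finset ι} {s s' : ℕ}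
  {i k : ι}

omit [Fintype ι] [DecidableEq ι] in
lemma Tr_trans {m : ι} (h1 : k = i ∨ s ≤ R.μ i k) (h2 : m = k ∨ s ≤ R.μ k m) :
    m = i ∨ s ≤ R.μ i m := by
  by_cases a : k = i
  · exact a ▸ h2
  by_cases b : m = k
  · exact b ▸ h1
  exact or_iff_not_imp_left.2 fun c => (le_min (h1.resolve_left a) (h2.resolve_left b)).trans
    (R.ultra i k m (Ne.symm a) (Ne.symm b) (Ne.symm c))

theorem Tree.mem_cl : k ∈ R.cl A s i ↔ k ∈ A ∧ (k = i ∨ s ≤ R.μ i k) := by
  exact Finset.mem_filter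

theorem Tree.self_mem_cl (hi : i ∈ A) : i ∈ R.cl A s i := by
  exact R.mem_cl.2 ⟨hi, Or.inl rfl⟩

theorem Tree.cl_subset : R.cl A s i ⊆ A := by
  exact Finset.filter_subset _ _

theorem Tree.cl_eq_of_mem (hk : k ∈ R.cl A s i) : R.cl A s k = R.cl A s i := by
  have h := (R.mem_cl.1 hk).2
  ext m
  rw [R.mem_cl, R.mem_cl]
  exact and_congr_right fun _ =>
    ⟨Tr_trans R h, Tr_trans R (h.imp Eq.symm fun h => R.symm i k ▸ h)⟩

theorem Tree.cl_anti (h : s ≤ s') : R.cl A s' i ⊆ R.cl A s i := by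
  exact fun k hk => R.mem_cl.2 ⟨(R.mem_cl.1 hk).1, (R.mem_cl.1 hk).2.imp_right h.trans⟩

theorem Tree.cl_zero : R.cl A 0 i = A := by
  exact Finset.filter_true_of_mem fun _ _ => Or.inr (Nat.zero_le _)

theorem Tree.le_top (i k : ι) : R.μ i k ≤ R.top := by
  exact Finset.le_sup (f := fun x : ι × ι => R.μ x.1 x.2) (Finset.mem_univ (i, k))

theorem Tree.cl_top (hi : i ∈ A) (h : R.top < s) : R.cl A s i = {i} := by
  ext k
  rw [R.mem_cl, Finset.mem_singleton]
  exact ⟨fun h' => h'.2.resolve_right (not_le.2 ((R.le_top i k).trans_lt h)),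
    fun e => ⟨e ▸ hi, Or.inl e⟩⟩

theorem Tree.mem_parts : C ∈ R.parts A s ↔ ∃ i ∈ A, R.cl A s i = C := by
  exact Finset.mem_image

theorem Tree.cl_mem_parts (hi : i ∈ A) : R.cl A s i ∈ R.parts A s := by
  exact Finset.mem_image_of_mem _ hi

theorem Tree.cl_eq_of_parts (hC : C ∈ R.parts A s) (hi : i ∈ C) : R.cl A s i = C := by
  obtain ⟨j, -, rfl⟩ := R.mem_parts.1 hC
  exact R.cl_eq_of_mem hi

theorem Tree.parts_nonempty (hC : C ∈ R.parts A s) : C.Nonempty := by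
  obtain ⟨j, hj, rfl⟩ := R.mem_parts.1 hC
  exact ⟨j, R.self_mem_cl hj⟩

theorem Tree.parts_subset (hC : C ∈ R.parts A s) : C ⊆ A := by
  obtain ⟨j, -, rfl⟩ := R.mem_parts.1 hC
  exact R.cl_subset

theorem Tree.parts_disjoint (hC : C ∈ R.parts A s) (hC' : C' ∈ R.parts A s) (h : C ≠ C') :
    Disjoint C C' := by
  exact Finset.disjoint_left.2 fun _ hi hi' =>
    h ((R.cl_eq_of_parts hC hi).symm.trans (R.cl_eq_of_parts hC' hi'))

theorem Tree.laminar (hC : C ∈ R.parts A s) (hC' : C' ∈ R.parts A s') (h : s ≤ s')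
    (hd : ¬ Disjoint C C') : C' ⊆ C := by
  obtain ⟨i, hi, hi'⟩ := Finset.not_disjoint_iff.1 hd
  rw [← R.cl_eq_of_parts hC hi, ← R.cl_eq_of_parts hC' hi']
  exact R.cl_anti h

theorem Tree.level_le_top (hC : C ∈ R.parts A s) (h : 2 ≤ C.card) : s ≤ R.top := by
  obtain ⟨j, hj, rfl⟩ := R.mem_parts.1 hC
  refine not_lt.1 fun a => ?_
  simp [R.cl_top hj a] at h

/-- Inside a cluster ranks are at least the level. -/
theorem Tree.le_of_parts (hC : C ∈ R.parts A s) (hi : i ∈ C) (hk : k ∈ C) (h : i ≠ k) :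
    s ≤ R.μ i k := by
  rw [← R.cl_eq_of_parts hC hi] at hk
  exact (R.mem_cl.1 hk).2.resolve_left h.symm

/-- Between a cluster and its complement ranks are below the level. -/
theorem Tree.lt_of_parts (hC : C ∈ R.parts A s) (hi : i ∈ C) (hk : k ∈ A) (h : k ∉ C) :
    R.μ i k < s := by
  rw [← R.cl_eq_of_parts hC hi] at h
  exact not_le.1 fun a => h (R.mem_cl.2 ⟨hk, Or.inr a⟩)

/-- The rank to an outer point does not depend on the inner point. -/
theorem Tree.mu_out (hC : C ∈ R.parts A s) {i' : ι} (hi : i ∈ C) (hi' : i' ∈ C) (hk : k ∈ A)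
    (h : k ∉ C) : R.μ i k = R.μ i' k := by
  have key : ∀ a ∈ C, ∀ b ∈ C, R.μ a k ≤ R.μ b k := fun a ha b hb => by
    rcases eq_or_ne b a with rfl | e
    · rfl
    have h1 := R.ultra b a k e (fun e => h (e ▸ ha)) fun e => h (e ▸ hb)
    have h2 := R.le_of_parts hC hb ha e
    have h3 := R.lt_of_parts hC ha hk h
    omega
  exact (key i hi i' hi').antisymm (key i' hi' i hi)

theorem Tree.sum_parts {M : Type} [AddCommMonoid M] (g : ι → M) :
    ∑ C ∈ R.parts A s, ∑ i ∈ C, g i = ∑ i ∈ A, g i := by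
  rw [← Finset.sum_fiberwise_of_maps_to (g := R.cl A s) fun i hi => R.cl_mem_parts hi]
  refine Finset.sum_congr rfl fun C hC => Finset.sum_congr (Finset.ext fun i => ?_) fun _ _ => rfl
  rw [Finset.mem_filter]
  exact ⟨fun h => ⟨R.parts_subset hC h, R.cl_eq_of_parts hC h⟩, fun h => h.2 ▸ R.self_mem_cl h.1⟩

theorem Tree.cl_inter (h : A ⊆ A') : R.cl A s i = R.cl A' s i ∩ A := by
  ext k
  rw [Finset.mem_inter, R.mem_cl, R.mem_cl]
  exact ⟨fun a => ⟨⟨h a.1, a.2⟩, a.1⟩, fun a => ⟨a.2, a.1.2⟩⟩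

theorem Tree.sum_parts_sub (g : Finset ι → ℝ) (h0 : g ∅ = 0) :
    ∑ B ∈ R.parts A s, g B = ∑ C ∈ R.parts Finset.univ s, g (C ∩ A) := by
  have key : ∀ C, g (C ∩ A) ≠ 0 → ∃ i, i ∈ C ∩ A := fun C h =>
    Finset.nonempty_iff_ne_empty.2 fun e => h (e ▸ h0)
  refine (Finset.sum_bij_ne_zero (fun C _ _ => C ∩ A) (fun C hC h => ?_)
    (fun C hC h C' hC' _ e => ?_) (fun B hB h => ?_) fun _ _ _ => rfl).symm
  · obtain ⟨i, hi⟩ := key C h
    rw [← R.cl_eq_of_parts hC (Finset.mem_inter.1 hi).1, ← R.cl_inter A.subset_univ]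
    exact R.cl_mem_parts (Finset.mem_inter.1 hi).2
  · obtain ⟨i, hi⟩ := key C h
    exact (R.cl_eq_of_parts hC (Finset.mem_inter.1 hi).1).symm.trans
      (R.cl_eq_of_parts hC' (Finset.mem_inter.1 (e ▸ hi : i ∈ C' ∩ A)).1)
  · obtain ⟨i, -, rfl⟩ := R.mem_parts.1 hB
    rw [R.cl_inter A.subset_univ] at h ⊢
    exact ⟨_, R.cl_mem_parts (Finset.mem_univ i), h, rfl⟩

theorem sigma_eq_sum {σ : ℕ → ℝ} (h0 : σ 0 = 0) (s : ℕ) :
    σ s = ∑ s' ∈ Finset.Icc 1 s, (σ s' - σ (s' - 1)) := by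
  induction s with
  | zero => simp [h0]
  | succ s ih => rw [Finset.sum_Icc_succ_top (by omega), ← ih, Nat.add_sub_cancel, add_sub_cancel]

theorem Tree.sigma_mn {σ : ℕ → ℝ} (h0 : σ 0 = 0) {m : ι} (hm : m ∈ A) :
    σ (R.mn s i m) =
      ∑ s' ∈ Finset.Icc 1 s, if m ∈ R.cl A s' i then σ s' - σ (s' - 1) else 0 := by
  rw [sigma_eq_sum h0, ← Finset.sum_filter]
  refine Finset.sum_congr (Finset.ext fun t => ?_) fun _ _ => rfl
  simp only [Finset.mem_filter, Finset.mem_Icc, R.mem_cl, hm, true_and, Tree.mn]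
  split_ifs with e
  · simp [e]
  · simp only [e, false_or]
    omega

theorem Tree.mass_eq {σ : ℕ → ℝ} (h0 : σ 0 = 0) :
    R.mass σ A = R.usum σ A fun C => (C.card : ℝ) * (C.card - 1) := by
  rw [Tree.mass, Finset.sum_congr rfl (g := fun x => ∑ t ∈ Finset.Icc 1 R.top,
    if x.2 ∈ R.cl A t x.1 then σ t - σ (t - 1) else 0) fun x hx => ?_, Finset.sum_comm]
  · refine Finset.sum_congr rfl fun t _ => ?_
    rw [← Finset.sum_filter, Finset.sum_finset_product _ A (fun i => (R.cl A t i).erase i) fun x => ?_,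
      ← R.sum_parts (s := t), Finset.mul_sum]
    · refine Finset.sum_congr rfl fun C hC => ?_
      rw [Finset.sum_congr rfl (g := fun _ => ((C.card : ℝ) - 1) * (σ t - σ (t - 1))) fun i hi => by
        rw [R.cl_eq_of_parts hC hi, Finset.sum_const, nsmul_eq_mul, Finset.cast_card_erase_of_mem hi],
        Finset.sum_const, nsmul_eq_mul]
      ring
    · rw [Finset.mem_filter, Finset.mem_offDiag, Finset.mem_erase]
      exact ⟨fun h => ⟨h.1.1, h.1.2.2.symm, h.2⟩,
        fun h => ⟨⟨h.1, R.cl_subset h.2.2, h.2.1.symm⟩, h.2.2⟩⟩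
  · obtain ⟨-, h2, h3⟩ := Finset.mem_offDiag.1 hx
    rw [← R.sigma_mn h0 h2, Tree.mn, if_neg h3.symm, min_eq_right (R.le_top _ _)]

theorem Tree.card_le_of_bal (hB : R.Bal) (hs : 1 ≤ s) (hC : C ∈ R.parts Finset.univ s) :
    2 * C.card ≤ Fintype.card ι := by
  obtain ⟨j, -, rfl⟩ := R.mem_parts.1 hC
  exact (Nat.mul_le_mul_left 2 (Finset.card_le_card (R.cl_anti hs))).trans (hB j)

theorem Lev.nonneg {σ : ℕ → ℝ} {ϑ : ℝ} (h : Lev σ ϑ) (s : ℕ) : 0 ≤ σ s := by
  exact h.1.ge.trans (h.2.1.monotone s.zero_le)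

theorem Lev.step {σ : ℕ → ℝ} {ϑ : ℝ} (h : Lev σ ϑ) (hs : 1 ≤ s) :
    0 < σ s - σ (s - 1) ∧ ϑ ≤ σ s - σ (s - 1) := by
  obtain ⟨s, rfl⟩ := Nat.exists_eq_add_of_le' hs
  exact ⟨sub_pos.2 (h.2.1 (by omega)), h.2.2.2 s⟩

theorem Tree.usum_mono {σ : ℕ → ℝ} {ϑ : ℝ} (h : Lev σ ϑ) {g g' : Finset ι → ℝ}
    (hg : ∀ s, 1 ≤ s → ∀ C ∈ R.parts A s, g C ≤ g' C) : R.usum σ A g ≤ R.usum σ A g' := by
  exact Finset.sum_le_sum fun s hs => mul_le_mul_of_nonneg_left
    (Finset.sum_le_sum (hg s (Finset.mem_Icc.1 hs).1)) (h.step (Finset.mem_Icc.1 hs).1).1.le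

theorem Tree.usum_add (σ : ℕ → ℝ) (g g' : Finset ι → ℝ) :
    R.usum σ A (fun C => g C + g' C) = R.usum σ A g + R.usum σ A g' := by
  simp only [Tree.usum, Finset.sum_add_distrib, mul_add]

theorem Tree.usum_mul (σ : ℕ → ℝ) (c : ℝ) (g : Finset ι → ℝ) :
    R.usum σ A (fun C => c * g C) = c * R.usum σ A g := by
  simp only [Tree.usum, ← Finset.mul_sum, mul_left_comm _ c]

theorem Tree.mass_nonneg {σ : ℕ → ℝ} {ϑ : ℝ} (h : Lev σ ϑ) : 0 ≤ R.mass σ A := by
  exact Finset.sum_nonneg fun _ _ => h.nonneg _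

theorem Tree.nbad_nonneg : 0 ≤ R.nbad A := by
  exact Finset.sum_nonneg fun _ _ => Finset.sum_nonneg fun _ _ => by positivity

theorem exists_center [Nonempty ι] : ∃ ce : Finset ι → ι, ∀ C, C.Nonempty → ce C ∈ C := by
  classical
  exact ⟨fun C => if h : C.Nonempty then h.choose else Classical.arbitrary ι,
    fun C h => by simpa only [dif_pos h] using h.choose_spec⟩

end Pool.Agent.Work.MP_677830_co.G
end

-- merged part: Pool.Agent.Work.MP_677830_co.G.Int
section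
/-!
# Integrability of the weight and Gram matrices
integrable_hh: polar coordinates or integrableOn_ball / rpow lemmas
(integrable_one_add_norm, integrableOn_ball_of_norm_le_rpow or locallyIntegrable_of_norm_le_rpow;
finrank ℝ ℂ = 2). integrable_wt: for x let i be the nearest point of A, d = ‖x - z i‖, δ the least
mutual distance; ‖x - z k‖ ≥ max d (δ/2) ≥ c (1 + d) for k ≠ i and 1 + ‖x‖ ≤ C (1 + d); so the
function is at most C * sum over i of hh (x - z i) with a = 2ν, b = 3 - 2ν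
(exponent m - 2ν (n-1) ≤ 2ν - 3). A is nonempty. gram_apply: expand the sums, integral_finset_sum.
gram_pd: the quadratic form is the integral of ‖pv (x ᵥ* c)‖^2 * wt; a nonzero polynomial has
finitely many zeros, wt is positive off a finite set (integral_pos_iff_support_of_nonneg).
gram_cs: Cauchy-Schwarz (integral_mul_le_Lp_mul_Lq or the discriminant trick).
-/

namespace Pool.Agent.Work.MP_677830_co.G

open Filter Topology Polynomial Matrix MeasureTheory
open scoped ComplexConjugate ComplexOrder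

variable {ι : Type} [DecidableEq ι] {ν : ℝ} {A : Finset ι} {z : ι → ℂ} {j : ℕ}

theorem integrable_hh {a b : ℝ} (ha : a < 2) (hab : 2 < a + b) :
    Integrable fun x : ℂ => ‖x‖ ^ (-a) * (1 + ‖x‖) ^ (-b) := by
  have hb : 0 < b := by linarith
  have hm : Measurable fun x : ℂ => ‖x‖ ^ (-a) * (1 + ‖x‖) ^ (-b) := by fun_prop
  have hd : Module.finrank ℝ ℂ = 2 := Complex.finrank_real_complex
  rw [← integrableOn_univ, ← Set.union_compl_self (Metric.ball (0 : ℂ) 1)]
  refine IntegrableOn.union ?_ ?_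
  · refine integrableOn_ball_of_norm_le_rpow (C := 1) (α := a) (by rw [hd]; norm_num)
      (by rw [hd]; exact_mod_cast ha) (Eventually.of_forall fun x => ?_) hm.aestronglyMeasurable
    rw [Real.norm_of_nonneg (by positivity), mul_comm]
    exact mul_le_mul_of_nonneg_right
      (Real.rpow_le_one_of_one_le_of_nonpos (by linarith [norm_nonneg x]) (by linarith))
      (by positivity)
  · have h1 : Integrable fun x : ℂ => (2 ^ a + 1) * (1 + ‖x‖) ^ (-(a + b)) :=
      (integrable_one_add_norm (by rw [hd]; exact_mod_cast hab)).const_mul _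
    refine h1.integrableOn.mono' hm.aestronglyMeasurable ?_
    refine (ae_restrict_iff' Metric.isOpen_ball.measurableSet.compl).2
      (Eventually.of_forall fun x hx => ?_)
    have h2 : 1 ≤ ‖x‖ := by simpa using hx
    have h3 : (0 : ℝ) < 1 + ‖x‖ := by positivity
    rw [Real.norm_of_nonneg (by positivity), neg_add, Real.rpow_add h3, ← mul_assoc]
    refine mul_le_mul_of_nonneg_right ?_ (by positivity)
    have h4 : (0 : ℝ) ≤ (1 + ‖x‖) ^ (-a) := by positivity
    have h5 : (0 : ℝ) ≤ 2 ^ a := by positivity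
    rcases le_total 0 a with h | h
    · have h6 : ‖x‖ ^ (-a) ≤ ((1 + ‖x‖) / 2) ^ (-a) :=
        Real.rpow_le_rpow_of_nonpos (by positivity) (by linarith only [h2]) (by linarith)
      rw [Real.div_rpow h3.le (by norm_num), Real.rpow_neg (by norm_num : (0 : ℝ) ≤ 2),
        div_inv_eq_mul] at h6
      linarith only [h4, h6]
    · have h6 : ‖x‖ ^ (-a) ≤ (1 + ‖x‖) ^ (-a) :=
        Real.rpow_le_rpow (norm_nonneg x) (by linarith) (by linarith)
      linarith only [h6, h4, h5, mul_nonneg_of_nonpos_of_nonpos (Mathlib.Tactic.Linarith.sub_nonpos_of_le h4) (Mathlib.Tactic.Linarith.sub_nonpos_of_le h5)]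

theorem wt_nonneg (ν : ℝ) (A : Finset ι) (z : ι → ℂ) (x : ℂ) : 0 ≤ wt ν A z x := by
  unfold wt
  positivity

theorem measurable_wt (ν : ℝ) (A : Finset ι) (z : ι → ℂ) : Measurable (wt ν A z) := by
  have h : Continuous fun x : ℂ => ‖∏ i ∈ A, (x - z i)‖ := by fun_prop
  exact h.measurable.pow_const _

theorem wt_pos {x : ℂ} (hx : ∀ i ∈ A, x ≠ z i) : 0 < wt ν A z x := by
  exact Real.rpow_pos_of_pos
    (norm_pos_iff.2 (Finset.prod_ne_zero_iff.2 fun i hi => sub_ne_zero.2 (hx i hi))) _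

theorem ae_ne_nodes (A : Finset ι) (z : ι → ℂ) : ∀ᵐ x : ℂ, ∀ i ∈ A, x ≠ z i := by
  have h : volume ((A.image z : Finset ℂ) : Set ℂ) = 0 := (Finset.finite_toSet _).measure_zero _
  filter_upwards [measure_eq_zero_iff_ae_notMem.1 h] with x hx i hi e
  exact hx (Finset.mem_coe.2 (Finset.mem_image.2 ⟨i, hi, e.symm⟩))

theorem Int_min {β : Type} (s : Finset β) (f : β → ℝ) (h : ∀ b ∈ s, 0 < f b) :
    ∃ δ : ℝ, 0 < δ ∧ ∀ b ∈ s, δ ≤ f b := by
  rcases s.eq_empty_or_nonempty with rfl | hs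
  · exact ⟨1, one_pos, by simp⟩
  · obtain ⟨b, hb, h'⟩ := Finset.exists_min_image s f hs
    exact ⟨f b, h b hb, h'⟩

theorem integrable_wt (h0 : 0 < ν) (h1 : ν < 1) (hz : Set.InjOn z A) {m : ℕ}
    (hm : (m : ℝ) + 3 ≤ 2 * ν * A.card) :
    Integrable fun x : ℂ => (1 + ‖x‖) ^ m * wt ν A z x := by
  have hA : A.Nonempty := by
    rw [Finset.nonempty_iff_ne_empty]
    rintro rfl
    have : (0 : ℝ) ≤ m := Nat.cast_nonneg m
    simp only [Finset.card_empty, Nat.cast_zero, mul_zero] at hm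
    linarith
  obtain ⟨δ, hδ, hδ'⟩ := Int_min A.offDiag (fun p => ‖z p.1 - z p.2‖) fun p hp => by
    obtain ⟨a1, a2, a3⟩ := Finset.mem_offDiag.1 hp
    exact norm_pos_iff.2 (sub_ne_zero.2 fun e => a3 (hz a1 a2 e))
  set R := ∑ i ∈ A, ‖z i‖ with hR
  have hR0 : 0 ≤ R := Finset.sum_nonneg fun _ _ => norm_nonneg _
  set c := min (1 / 2) (δ / 4) with hc
  have hc0 : 0 < c := lt_min (by norm_num) (by positivity)
  set K := (1 + R) ^ m * (c ^ (A.card - 1)) ^ (-(2 * ν)) with hK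
  have hK0 : 0 ≤ K := by positivity
  have hI : Integrable fun x : ℂ => K * ∑ i ∈ A,
      ‖x - z i‖ ^ (-(2 * ν)) * (1 + ‖x - z i‖) ^ (-(3 - 2 * ν)) :=
    (integrable_finsetSum A fun i _ => (integrable_hh (a := 2 * ν) (b := 3 - 2 * ν)
      (by linarith only [h1]) (by linarith)).comp_sub_right (z i)).const_mul K
  have hme : Measurable fun x : ℂ => (1 + ‖x‖) ^ m * wt ν A z x :=
    Measurable.mul (by fun_prop) (measurable_wt ν A z)
  refine hI.mono' hme.aestronglyMeasurable ?_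
  filter_upwards [ae_ne_nodes A z] with x hx
  obtain ⟨i, hi, hmin⟩ := Finset.exists_min_image A (fun k => ‖x - z k‖) hA
  rw [Real.norm_of_nonneg (mul_nonneg (by positivity) (wt_nonneg _ _ _ _))]
  refine le_trans ?_ (mul_le_mul_of_nonneg_left (Finset.single_le_sum
    (f := fun i => ‖x - z i‖ ^ (-(2 * ν)) * (1 + ‖x - z i‖) ^ (-(3 - 2 * ν)))
    (fun _ _ => by positivity) hi) hK0)
  set d := ‖x - z i‖ with hd
  have hd0 : 0 < d := norm_pos_iff.2 (sub_ne_zero.2 (hx i hi))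
  have a1 : 1 + ‖x‖ ≤ (1 + R) * (1 + d) := by
    have b1 : ‖z i‖ ≤ R := Finset.single_le_sum (f := fun i => ‖z i‖) (fun _ _ => norm_nonneg _) hi
    have b2 : ‖x‖ ≤ d + ‖z i‖ := by simpa using norm_add_le (x - z i) (z i)
    (refine le_of_not_gt fun h_nl => ?_; linarith only [h_nl, b1, b2, h0, h1, hR0, hd0, mul_pos_of_neg_of_neg (Mathlib.Tactic.Linarith.sub_neg_of_lt h0) (Mathlib.Tactic.Linarith.sub_neg_of_lt h_nl), mul_pos_of_neg_of_neg (Mathlib.Tactic.Linarith.sub_neg_of_lt h1) (Mathlib.Tactic.Linarith.sub_neg_of_lt h_nl), mul_nonneg_of_nonpos_of_nonpos (Mathlib.Tactic.Linarith.sub_nonpos_of_le hR0) (le_of_lt (Mathlib.Tactic.Linarith.sub_neg_of_lt hd0))])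
  have a2 : d * (c ^ (A.card - 1) * (1 + d) ^ (A.card - 1)) ≤ ‖∏ k ∈ A, (x - z k)‖ := by
    rw [norm_prod, ← Finset.mul_prod_erase A _ hi, ← mul_pow, ← Finset.card_erase_of_mem hi,
      ← Finset.prod_const]
    refine mul_le_mul_of_nonneg_left (Finset.prod_le_prod (fun _ _ => by positivity)
      fun k hk => ?_) hd0.le
    obtain ⟨b1, b2⟩ := Finset.mem_erase.1 hk
    have b3 : d ≤ ‖x - z k‖ := hmin k b2
    have b4 : δ ≤ ‖z i - z k‖ := hδ' (i, k) (Finset.mem_offDiag.2 ⟨hi, b2, b1.symm⟩)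
    have b5 : ‖z i - z k‖ ≤ ‖x - z k‖ + d := by
      have := norm_sub_le (x - z k) (x - z i)
      rwa [show x - z k - (x - z i) = z i - z k by ring] at this
    have b6 : c ≤ 1 / 2 := min_le_left _ _
    have b7 : c ≤ δ / 4 := min_le_right _ _
    (refine le_of_not_gt fun h_nl => ?_; linarith only [h_nl, b3, b4, b5, b7, h0, h1, hd0, b6, mul_pos_of_neg_of_neg (Mathlib.Tactic.Linarith.sub_neg_of_lt h0) (Mathlib.Tactic.Linarith.sub_neg_of_lt h_nl), mul_pos_of_neg_of_neg (Mathlib.Tactic.Linarith.sub_neg_of_lt h1) (Mathlib.Tactic.Linarith.sub_neg_of_lt h_nl), mul_nonneg_of_nonpos_of_nonpos (le_of_lt (Mathlib.Tactic.Linarith.sub_neg_of_lt hd0)) (Mathlib.Tactic.Linarith.sub_nonpos_of_le b6)])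
  have a3 : wt ν A z x ≤ (d * (c ^ (A.card - 1) * (1 + d) ^ (A.card - 1))) ^ (-(2 * ν)) :=
    Real.rpow_le_rpow_of_nonpos (by positivity) a2 (by linarith only [h0])
  have a4 : (1 + d) ^ m * ((1 + d) ^ (A.card - 1)) ^ (-(2 * ν)) ≤ (1 + d) ^ (-(3 - 2 * ν)) := by
    rw [← Real.rpow_natCast, ← Real.rpow_natCast, ← Real.rpow_mul (by positivity),
      ← Real.rpow_add (by positivity)]
    refine Real.rpow_le_rpow_of_exponent_le (by linarith) ?_
    rw [Nat.cast_sub (Finset.card_pos.2 hA)]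
    push_cast
    linarith only [hm]
  rw [Real.mul_rpow hd0.le (by positivity), Real.mul_rpow (by positivity) (by positivity)] at a3
  calc (1 + ‖x‖) ^ m * wt ν A z x
      ≤ ((1 + R) * (1 + d)) ^ m * (d ^ (-(2 * ν)) * ((c ^ (A.card - 1)) ^ (-(2 * ν)) *
          ((1 + d) ^ (A.card - 1)) ^ (-(2 * ν)))) :=
        mul_le_mul (pow_le_pow_left₀ (by positivity) a1 m) a3 (wt_nonneg _ _ _ _) (by positivity)
    _ = K * (d ^ (-(2 * ν)) * ((1 + d) ^ m * ((1 + d) ^ (A.card - 1)) ^ (-(2 * ν)))) := by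
        rw [hK, mul_pow]; ring
    _ ≤ _ := by gcongr

/-- Domination principle. -/
theorem integrable_of_le_wt (h0 : 0 < ν) (h1 : ν < 1) (hz : Set.InjOn z A) {m : ℕ}
    (hm : (m : ℝ) + 3 ≤ 2 * ν * A.card) {f : ℂ → ℂ} (hf : AEStronglyMeasurable f volume) (C : ℝ)
    (hb : ∀ᵐ x : ℂ, ‖f x‖ ≤ C * (1 + ‖x‖) ^ m) :
    Integrable fun x : ℂ => f x * (wt ν A z x : ℂ) := by
  refine ((integrable_wt h0 h1 hz hm).const_mul C).mono'
    (hf.mul (Complex.measurable_ofReal.comp (measurable_wt ν A z)).aestronglyMeasurable) ?_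
  filter_upwards [hb] with x hx
  rw [norm_mul, Complex.norm_real, Real.norm_of_nonneg (wt_nonneg _ _ _ _), ← mul_assoc]
  exact mul_le_mul_of_nonneg_right hx (wt_nonneg _ _ _ _)

theorem continuous_pv (c : Fin j → ℂ) : Continuous (pv c) := by
  unfold pv
  fun_prop

theorem differentiable_pv (c : Fin j → ℂ) : Differentiable ℂ (pv c) := by
  unfold pv
  fun_prop

theorem norm_pv_le (c : Fin j → ℂ) (x : ℂ) : ‖pv c x‖ ≤ (∑ l, ‖c l‖) * (1 + ‖x‖) ^ (j - 1) := by
  unfold pv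
  rw [Finset.sum_mul]
  refine (norm_sum_le _ _).trans (Finset.sum_le_sum fun l _ => ?_)
  rw [norm_mul, norm_pow]
  refine mul_le_mul_of_nonneg_left ?_ (norm_nonneg _)
  have h := norm_nonneg x
  exact (pow_le_pow_left₀ h (by linarith) _).trans
    (pow_le_pow_right₀ (by linarith) (by have := l.2; omega))

theorem integrable_pv (h0 : 0 < ν) (h1 : ν < 1) (hz : Set.InjOn z A) (hj : ν * A.card = j + 1)
    (c c' : Fin j → ℂ) :
    Integrable fun x : ℂ => pv c x * conj (pv c' x) * (wt ν A z x : ℂ) := by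
  rcases Nat.eq_zero_or_pos j with rfl | hj0
  · simp [pv]
  refine integrable_of_le_wt h0 h1 hz (m := (j - 1) + (j - 1)) ?_
    ((continuous_pv c).mul (Complex.continuous_conj.comp (continuous_pv c'))).aestronglyMeasurable
    ((∑ l, ‖c l‖) * ∑ l, ‖c' l‖) (Eventually.of_forall fun x => ?_)
  · rw [mul_assoc, hj, Nat.cast_add, Nat.cast_sub hj0]
    push_cast
    linarith only [h0, h1]
  · rw [norm_mul, Complex.norm_conj, pow_add, mul_mul_mul_comm]
    exact mul_le_mul (norm_pv_le c x) (norm_pv_le c' x) (norm_nonneg _) (by positivity)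

theorem Int_single (a : Fin j) (x : ℂ) : pv (Pi.single a 1) x = x ^ (a : ℕ) := by
  unfold pv
  rw [Finset.sum_eq_single a (fun b _ hb => by simp [hb]) (by simp)]
  simp

theorem Int_mono (h0 : 0 < ν) (h1 : ν < 1) (hz : Set.InjOn z A) (hj : ν * A.card = j + 1)
    (a b : Fin j) :
    Integrable fun x : ℂ => x ^ (a : ℕ) * conj (x ^ (b : ℕ)) * (wt ν A z x : ℂ) := by
  simpa only [Int_single] using integrable_pv h0 h1 hz hj (Pi.single a 1) (Pi.single b 1)

theorem Int_sq (h0 : 0 < ν) (h1 : ν < 1) (hz : Set.InjOn z A) (hj : ν * A.card = j + 1)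
    (c : Fin j → ℂ) : Integrable fun x : ℂ => ‖pv c x‖ ^ 2 * wt ν A z x := by
  refine (integrable_pv h0 h1 hz hj c c).norm.congr (Eventually.of_forall fun x => ?_)
  simp only
  rw [norm_mul, norm_mul, Complex.norm_conj, Complex.norm_real,
    Real.norm_of_nonneg (wt_nonneg _ _ _ _), sq]

theorem gram_apply (h0 : 0 < ν) (h1 : ν < 1) (hz : Set.InjOn z A) (hj : ν * A.card = j + 1)
    {α β : Type} (c : Matrix α (Fin j) ℂ) (c' : Matrix β (Fin j) ℂ) (k : α) (l : β) :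
    (c * gramM ν A z j * c'ᴴ) k l =
      ∫ x : ℂ, pv (c k) x * conj (pv (c' l) x) * (wt ν A z x : ℂ) := by
  have hI := Int_mono h0 h1 hz hj
  have e : ∀ x : ℂ, pv (c k) x * conj (pv (c' l) x) * (wt ν A z x : ℂ) =
      ∑ b : Fin j, ∑ a : Fin j,
        c k a * (x ^ (a : ℕ) * conj (x ^ (b : ℕ)) * (wt ν A z x : ℂ)) * conj (c' l b) := by
    intro x
    unfold pv
    rw [map_sum, Finset.mul_sum, Finset.sum_mul]
    refine Finset.sum_congr rfl fun b _ => ?_
    rw [Finset.sum_mul, Finset.sum_mul]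
    refine Finset.sum_congr rfl fun a _ => ?_
    rw [map_mul]
    ring
  simp_rw [e]
  rw [integral_finsetSum _ fun b _ => integrable_finsetSum _ fun a _ =>
    ((hI a b).const_mul _).mul_const _, Matrix.mul_apply]
  refine Finset.sum_congr rfl fun b _ => ?_
  rw [integral_finsetSum _ fun a _ => ((hI a b).const_mul _).mul_const _, Matrix.mul_apply,
    Finset.sum_mul]
  refine Finset.sum_congr rfl fun a _ => ?_
  rw [integral_mul_const, integral_const_mul]
  rfl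

theorem Int_herm (ν : ℝ) (A : Finset ι) (z : ι → ℂ) (j : ℕ) : (gramM ν A z j).IsHermitian := by
  ext k l
  simp only [gramM, Matrix.conjTranspose_apply, Matrix.of_apply]
  rw [Complex.star_def, ← integral_conj]
  refine integral_congr_ae (Eventually.of_forall fun x => ?_)
  simp only [map_mul, Complex.conj_conj, Complex.conj_ofReal]
  ring

theorem Int_form (h0 : 0 < ν) (h1 : ν < 1) (hz : Set.InjOn z A) (hj : ν * A.card = j + 1)
    (v : Fin j → ℂ) : star v ⬝ᵥ (gramM ν A z j *ᵥ v) =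
      ((∫ x : ℂ, ‖pv (star v) x‖ ^ 2 * wt ν A z x : ℝ) : ℂ) := by
  have h := gram_apply h0 h1 hz hj (Matrix.of fun _ : Unit => star v)
    (Matrix.of fun _ : Unit => star v) () ()
  have e : star v ⬝ᵥ (gramM ν A z j *ᵥ v) = ((Matrix.of fun _ : Unit => star v) * gramM ν A z j *
      (Matrix.of fun _ : Unit => star v)ᴴ) () () := by
    rw [Matrix.dotProduct_mulVec]
    simp [Matrix.mul_apply, dotProduct, Matrix.vecMul]
  rw [e, h, ← integral_complex_ofReal]
  refine integral_congr_ae (Eventually.of_forall fun x => ?_)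
  simp only
  rw [Complex.mul_conj, Complex.normSq_eq_norm_sq, Complex.ofReal_mul]
  rfl

theorem Int_ae_ne {c : Fin j → ℂ} (hc : c ≠ 0) : ∀ᵐ x : ℂ, pv c x ≠ 0 := by
  have h1 : (∑ l : Fin j, monomial (l : ℕ) (c l) : ℂ[X]) ≠ 0 := by
    intro h
    refine hc (funext fun a => ?_)
    have h2 := congrArg (fun p : ℂ[X] => p.coeff a) h
    simp only [finsetSum_coeff, coeff_monomial, Fin.val_inj, Finset.sum_ite_eq', Finset.mem_univ,
      if_true, coeff_zero] at h2
    exact h2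
  filter_upwards [measure_eq_zero_iff_ae_notMem.1
    ((Polynomial.finite_setOfPred_isRoot h1).measure_zero volume)] with x hx e
  refine hx ?_
  simpa [pv, Polynomial.eval_finsetSum] using e

theorem Int_cs {f g w : ℂ → ℝ} (hw : ∀ x, 0 ≤ w x) (h1 : Integrable fun x => f x ^ 2 * w x)
    (h2 : Integrable fun x => g x ^ 2 * w x) (h3 : Integrable fun x => f x * g x * w x) :
    ∫ x, f x * g x * w x ≤ Real.sqrt (∫ x, f x ^ 2 * w x) * Real.sqrt (∫ x, g x ^ 2 * w x) := by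
  have h := discrim_le_zero (a := ∫ x, f x ^ 2 * w x) (b := 2 * ∫ x, f x * g x * w x)
    (c := ∫ x, g x ^ 2 * w x) fun t => by
      have a1 : 0 ≤ ∫ x, (f x ^ 2 * w x * (t * t) + f x * g x * w x * (2 * t) + g x ^ 2 * w x) :=
        integral_nonneg fun x => by
          have := mul_nonneg (sq_nonneg (t * f x + g x)) (hw x)
          simp only [Pi.zero_apply]
          linarith only [this]
      have a2 : Integrable fun x => f x ^ 2 * w x * (t * t) + f x * g x * w x * (2 * t) :=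
        (h1.mul_const _).add (h3.mul_const _)
      rw [integral_add a2 h2,
        integral_add (h1.mul_const _) (h3.mul_const _), integral_mul_const,
        integral_mul_const] at a1
      linarith
  rw [← Real.sqrt_mul (integral_nonneg fun x => mul_nonneg (sq_nonneg _) (hw x))]
  refine Real.le_sqrt_of_sq_le ?_
  rw [discrim] at h
  nlinarith

theorem gram_psd (h0 : 0 < ν) (h1 : ν < 1) (hz : Set.InjOn z A) (hj : ν * A.card = j + 1) :
    (gramM ν A z j).PosSemidef := by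
  refine Matrix.PosSemidef.of_dotProduct_mulVec_nonneg (Int_herm ν A z j) fun v => ?_
  rw [Int_form h0 h1 hz hj]
  exact Complex.zero_le_real.2
    (integral_nonneg fun x => mul_nonneg (sq_nonneg _) (wt_nonneg _ _ _ _))

theorem gram_pd (h0 : 0 < ν) (h1 : ν < 1) (hz : Set.InjOn z A) (hj : ν * A.card = j + 1)
    {α : Type} [Fintype α] [DecidableEq α] (c : Matrix α (Fin j) ℂ)
    (hc : LinearIndependent ℂ fun k => c k) : (c * gramM ν A z j * cᴴ).PosDef := by
  refine Matrix.PosDef.mul_mul_conjTranspose_same ?_ (Matrix.vecMul_injective_iff.2 hc)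
  refine Matrix.PosDef.of_dotProduct_mulVec_pos (Int_herm ν A z j) fun v hv => ?_
  rw [Int_form h0 h1 hz hj]
  refine Complex.zero_lt_real.2 (lt_of_le_of_ne
    (integral_nonneg fun x => mul_nonneg (sq_nonneg _) (wt_nonneg _ _ _ _)) fun e => ?_)
  have a1 := (integral_eq_zero_iff_of_nonneg
    (fun x => mul_nonneg (sq_nonneg _) (wt_nonneg _ _ _ _))
    (Int_sq h0 h1 hz hj (star v))).1 e.symm
  obtain ⟨x, b1, b2, b3⟩ :=
    (a1.and ((ae_ne_nodes A z).and (Int_ae_ne (c := star v) (by simpa using hv)))).exists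
  exact (mul_pos (pow_pos (norm_pos_iff.2 b3) 2) (wt_pos b2)).ne' b1

theorem gram_cs (h0 : 0 < ν) (h1 : ν < 1) (hz : Set.InjOn z A) (hj : ν * A.card = j + 1)
    {α : Type} (c : Matrix α (Fin j) ℂ) (k l : α) :
    ‖(c * gramM ν A z j * cᴴ) k l‖ ≤ Real.sqrt (∫ x : ℂ, ‖pv (c k) x‖ ^ 2 * wt ν A z x) *
      Real.sqrt (∫ x : ℂ, ‖pv (c l) x‖ ^ 2 * wt ν A z x) := by
  rw [gram_apply h0 h1 hz hj]
  refine (norm_integral_le_integral_norm _).trans ?_
  have e : ∀ x : ℂ, ‖pv (c k) x * conj (pv (c l) x) * (wt ν A z x : ℂ)‖ =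
      ‖pv (c k) x‖ * ‖pv (c l) x‖ * wt ν A z x := fun x => by
    rw [norm_mul, norm_mul, Complex.norm_conj, Complex.norm_real,
      Real.norm_of_nonneg (wt_nonneg _ _ _ _)]
  have hI := (integrable_pv h0 h1 hz hj (c k) (c l)).norm
  simp_rw [e] at hI ⊢
  exact Int_cs (wt_nonneg ν A z) (Int_sq h0 h1 hz hj _) (Int_sq h0 h1 hz hj _) hI

end Pool.Agent.Work.MP_677830_co.G
end

-- merged part: Pool.Agent.Work.MP_677830_co.G.Res
section
/-!
# Taylor coefficients and cluster residues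
ge_taylor: induction on Sb; taylor c (X - C a) = X + C (c - a), coefficient recursion
coeff (k+1) (P * (X + C b)) = coeff k P + b * coeff (k+1) P; y i0 - y m has order
σ (μ i0 m) ≥ σ (mn s i0 m) (zero if m = i0) and σ s ≥ σ (mn s i0 m).
ge_res: let C = cl A s i0, dd B f = sum over i in B of f i * nodalWeight B y i. Property Q κ f:
for all nonempty B ⊆ C, Ge (κ - (|B| - 1) σ s') (dd B f). Key identity for i in B, |B| ≥ 2 and any a:
dd B (f * (y - a)) = dd (B.erase i) f + (y i - a) * dd B f (nodes distinct).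
Q 0 1 (dd B 1 = 0 for |B| ≥ 2, Lagrange.coeff_eq_sum or induction; = 1 for |B| = 1);
Q κ f gives Q (κ + σ s') (f * (y - y i0)); for k in A outside C, Q κ f gives
Q (κ - σ (μ i0 k)) (f / (y - y k)) by induction on |B|, using mu_out and σ (μ i0 k) ≤ σ s'.
Finally nodalWeight A y i = nodalWeight C y i * prod over k outside C of (y i - y k)⁻¹ and
the sum over A of σ (mn s' i0 k) is |C| σ s' + sum over outer k of σ (μ i0 k).
-/

namespace Pool.Agent.Work.MP_677830_co.G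

open Filter Topology Polynomial Matrix MeasureTheory
open scoped ComplexConjugate ComplexOrder

variable {ι : Type} [Fintype ι] [DecidableEq ι] {T : Type} {S : Scale T} {R : Tree ι}
  {σ : ℕ → ℝ} {ϑ ν e : ℝ} {y : ι → T → ℂ} {A Sb : Finset ι}

theorem Cfg.ev_inj (hc : Cfg S R σ y) : ∀ᶠ t in S.F, Function.Injective fun i => y i t := by
  have h : ∀ᶠ t in S.F, ∀ i k, i ≠ k → y i t ≠ y k t :=
    eventually_all.2 fun i => eventually_all.2 fun k => eventually_imp_distrib_left.2 fun h =>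
      (hc.2 i k h).2.2
  exact h.mono fun t ht i k e => by_contra fun a => ht i k a e

theorem natDegree_bp (Sb : Finset ι) (z : ι → ℂ) : (bp Sb z).natDegree = Sb.card := by
  rw [bp, natDegree_prod_of_monic _ _ fun m _ => monic_X_sub_C (z m)]
  simp

theorem monic_bp (Sb : Finset ι) (z : ι → ℂ) : (bp Sb z).Monic := by
  exact monic_prod_of_monic _ _ fun m _ => monic_X_sub_C (z m)

theorem ge_taylor (hc : Cfg S R σ y) (hσ : Lev σ ϑ) (Sb : Finset ι) (i0 : ι) (s k : ℕ) :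
    S.Ge (∑ m ∈ Sb, σ (R.mn s i0 m) - k * σ s)
      fun t => (taylor (y i0 t) (bp Sb fun i => y i t)).coeff k := by
  induction Sb using Finset.induction_on generalizing k with
  | empty =>
    simp only [bp, Finset.prod_empty, Finset.sum_empty, taylor_one]
    exact (S.ge_const _).mono (sub_nonpos.2 (mul_nonneg k.cast_nonneg (hσ.nonneg s)))
  | insert m Sb hm ih =>
    have e : ∀ t, taylor (y i0 t) (bp (insert m Sb) fun i => y i t) =
        X * taylor (y i0 t) (bp Sb fun i => y i t) +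
          C (y i0 t - y m t) * taylor (y i0 t) (bp Sb fun i => y i t) := fun t => by
      rw [bp, Finset.prod_insert hm, taylor_mul, map_sub, taylor_X, taylor_C, bp, C_sub]
      ring
    have h1 : S.Ge (σ (R.mn s i0 m)) fun t => y i0 t - y m t := by
      unfold Tree.mn
      split_ifs with h
      · exact Scale.ge_of_ev_zero _ (.of_forall fun t => by rw [h, sub_self])
      · exact (hc.2 i0 m (Ne.symm h)).1.mono (hσ.2.1.monotone (min_le_right _ _))
    have h2 : σ (R.mn s i0 m) ≤ σ s := hσ.2.1.monotone (by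
      unfold Tree.mn
      split_ifs
      exacts [le_rfl, min_le_left _ _])
    simp only [e, coeff_add, coeff_C_mul, Finset.sum_insert hm]
    refine Scale.Ge.add ?_ ((h1.mul (ih k)).mono (by linarith))
    cases k with
    | zero => simpa only [coeff_X_mul_zero] using S.ge_zero _
    | succ k =>
      simp only [coeff_X_mul]
      exact (ih k).mono (by push_cast; linarith)

theorem ge_taylor_trop (hc : Cfg S R σ y) (hσ : Lev σ ϑ) (hT : Trop R σ ν A Sb e) {i0 : ι}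
    (hi : i0 ∈ A) (s k : ℕ) :
    S.Ge (e - σ s + ν * ∑ m ∈ A, σ (R.mn s i0 m) - k * σ s)
      fun t => (taylor (y i0 t) (bp Sb fun i => y i t)).coeff k := by
  refine (ge_taylor hc hσ Sb i0 s k).mono ?_
  have h := hT.2 i0 hi s
  simp only [sub_mul, ite_mul, one_mul, zero_mul, Finset.sum_sub_distrib, ← Finset.mul_sum,
    Finset.sum_ite_mem, Finset.inter_eq_right.2 hT.1] at h
  linarith

/-- Divided differences. -/
noncomputable def Res_dd (B : Finset ι) (z f : ι → ℂ) : ℂ :=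
  ∑ i ∈ B, f i * Lagrange.nodalWeight B z i

omit [Fintype ι] in
theorem Res_key {B : Finset ι} {z : ι → ℂ} (hz : Function.Injective z) {j : ι} (hj : j ∉ B)
    (f : ι → ℂ) (a : ℂ) : Res_dd (insert j B) z (fun i => f i * (z i - a)) =
      Res_dd B z f + (z j - a) * Res_dd (insert j B) z f := by
  have e : ∀ i ∈ B, Lagrange.nodalWeight B z i =
      (z i - z j) * Lagrange.nodalWeight (insert j B) z i := fun i hi => by
    have hij : i ≠ j := fun e => hj (e ▸ hi)
    rw [Lagrange.nodalWeight, Lagrange.nodalWeight, Finset.erase_insert_of_ne hij.symm,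
      Finset.prod_insert fun h => hj (Finset.mem_of_mem_erase h),
      mul_inv_cancel_left₀ (sub_ne_zero.2 (hz.ne hij))]
  simp only [Res_dd, Finset.sum_insert hj, mul_add, Finset.mul_sum]
  rw [add_left_comm, ← Finset.sum_add_distrib]
  refine congrArg₂ (· + ·) (by ring) (Finset.sum_congr rfl fun i hi => ?_)
  rw [e i hi]
  ring

/-- All divided differences on subsets of `C` have the expected order. -/
def Res_Q (S : Scale T) (y : ι → T → ℂ) (C : Finset ι) (a κ : ℝ) (f : ι → T → ℂ) : Prop :=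
  ∀ B ⊆ C, S.Ge (κ - ((B.card : ℝ) - 1) * a) fun t => Res_dd B (fun i => y i t) fun i => f i t

theorem Res_one (hc : Cfg S R σ y) (C : Finset ι) {a : ℝ} (ha : 0 ≤ a) :
    Res_Q S y C a 0 fun _ _ => 1 := by
  intro B _
  rcases B.eq_empty_or_nonempty with rfl | hB
  · exact S.ge_zero _
  have h1 : (1 : ℝ) ≤ B.card := by exact_mod_cast hB.card_pos
  refine ((S.ge_const ((1 : ℂ[X]).coeff (B.card - 1))).mono
    (sub_nonpos.2 (mul_nonneg (sub_nonneg.2 h1) ha))).congr (hc.ev_inj.mono fun t ht => ?_)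
  rw [Lagrange.coeff_eq_sum ht.injOn (by rw [degree_one]; exact_mod_cast hB.card_pos)]
  simp [Res_dd, Lagrange.nodalWeight]

theorem Res_mul (hc : Cfg S R σ y) {C : Finset ι} {a κ : ℝ} {f : ι → T → ℂ} {c : T → ℂ}
    (h : Res_Q S y C a κ f) (hj : ∀ j ∈ C, S.Ge a fun t => y j t - c t) :
    Res_Q S y C a (κ + a) fun i t => f i t * (y i t - c t) := by
  intro B hB
  induction B using Finset.induction_on with
  | empty => exact S.ge_zero _
  | insert j B hjB _ =>
    refine (((h B ((Finset.subset_insert j B).trans hB)).mono ?_).add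
      (((hj j (hB (Finset.mem_insert_self j B))).mul (h _ hB)).mono (by linarith))).congr
      (hc.ev_inj.mono fun t ht => (Res_key ht hjB _ _).symm)
    rw [Finset.card_insert_of_notMem hjB]
    push_cast
    linarith

theorem Res_div (hc : Cfg S R σ y) {C : Finset ι} {a b κ : ℝ} {f : ι → T → ℂ} {k : ι}
    (h : Res_Q S y C a κ f) (hk : k ∉ C) (hb : b ≤ a)
    (hj : ∀ j ∈ C, S.Ge (-b) fun t => (y j t - y k t)⁻¹) :
    Res_Q S y C a (κ - b) fun i t => f i t * (y i t - y k t)⁻¹ := by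
  intro B hB
  induction B using Finset.induction_on with
  | empty => exact S.ge_zero _
  | insert j B hjB ih =>
    refine (((hj j (hB (Finset.mem_insert_self j B))).mul ((h _ hB).sub
      ((ih ((Finset.subset_insert j B).trans hB)).mono ?_))).mono (by linarith)).congr
      (hc.ev_inj.mono fun t ht => ?_)
    · rw [Finset.card_insert_of_notMem hjB]
      push_cast
      linarith
    · have h1 : ∀ i ∈ insert j B, y i t - y k t ≠ 0 := fun i hi =>
        sub_ne_zero.2 (ht.ne fun e => hk (e ▸ hB hi))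
      have h2 := Res_key ht hjB (fun i => f i t * (y i t - y k t)⁻¹) (y k t)
      have h3 : Res_dd (insert j B) (fun i => y i t) (fun i => f i t * (y i t - y k t)⁻¹ *
          (y i t - y k t)) = Res_dd (insert j B) (fun i => y i t) fun i => f i t :=
        Finset.sum_congr rfl fun i hi => by simp only [inv_mul_cancel_right₀ (h1 i hi)]
      rw [← h3, h2, add_sub_cancel_left, inv_mul_cancel_left₀ (h1 j (Finset.mem_insert_self j B))]

theorem ge_res (hc : Cfg S R σ y) (hσ : Lev σ ϑ) {i0 : ι} (hi : i0 ∈ A) (s s' : ℕ)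
    (hin : ∀ i ∈ R.cl A s i0, i ≠ i0 → s' ≤ R.μ i0 i)
    (hout : ∀ k ∈ A, k ∉ R.cl A s i0 → R.μ i0 k ≤ s') (m : ℕ) :
    S.Ge ((m + 1) * σ s' - ∑ k ∈ A, σ (R.mn s' i0 k))
      fun t => res A (R.cl A s i0) (fun i => y i t) (y i0 t) m 1 := by
  have hC := R.cl_mem_parts (s := s) hi
  have h0 := R.self_mem_cl (s := s) hi
  have h1 : ∀ m : ℕ, Res_Q S y (R.cl A s i0) (σ s') (m * σ s') fun i t => (y i t - y i0 t) ^ m := by
    intro m
    induction m with
    | zero => simpa using Res_one hc _ (hσ.nonneg s')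
    | succ m ih =>
      simp only [pow_succ, Nat.cast_succ, add_one_mul]
      refine Res_mul hc ih fun j hj => ?_
      by_cases e : j = i0
      · exact Scale.ge_of_ev_zero _ (.of_forall fun t => by rw [e, sub_self])
      · exact (hc.2 j i0 e).1.mono (hσ.2.1.monotone (R.symm i0 j ▸ hin j hj e))
  have h2 : ∀ D : Finset ι, D ⊆ A \ R.cl A s i0 →
      Res_Q S y (R.cl A s i0) (σ s') (m * σ s' - ∑ k ∈ D, σ (R.μ i0 k))
        fun i t => (y i t - y i0 t) ^ m * ∏ k ∈ D, (y i t - y k t)⁻¹ := by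
    intro D
    induction D using Finset.induction_on with
    | empty => simpa using h1 m
    | insert k D hk ih =>
      intro hD
      obtain ⟨k1, k2⟩ := Finset.mem_sdiff.1 (hD (Finset.mem_insert_self k D))
      simp only [Finset.sum_insert hk, Finset.prod_insert hk, add_comm (σ (R.μ i0 k)), ← sub_sub,
        mul_comm (_ - y k _)⁻¹, ← mul_assoc]
      refine Res_div hc (ih ((Finset.subset_insert k D).trans hD)) k2
        (hσ.2.1.monotone (hout k k1 k2)) fun j hj => ?_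
      rw [R.mu_out hC h0 hj k1 k2]
      exact (hc.2 j k fun e => k2 (e ▸ hj)).2.1
  refine ((h2 _ subset_rfl _ subset_rfl).mono (le_of_eq ?_)).congr (.of_forall fun t => ?_)
  · rw [← Finset.sum_sdiff (R.cl_subset (s := s) (i := i0)),
      Finset.sum_congr rfl (s₁ := A \ R.cl A s i0) (g := fun k => σ (R.μ i0 k)) fun k hk => ?_,
      Finset.sum_congr rfl (s₁ := R.cl A s i0) (g := fun _ => σ s') fun k hk => ?_,
      Finset.sum_const, nsmul_eq_mul]
    · ring
    · unfold Tree.mn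
      split_ifs with e
      exacts [rfl, by rw [min_eq_left (hin k hk e)]]
    · obtain ⟨k1, k2⟩ := Finset.mem_sdiff.1 hk
      rw [Tree.mn, if_neg fun e : k = i0 => k2 (e ▸ h0), min_eq_right (hout k k1 k2)]
  · refine Finset.sum_congr rfl fun i hi' => ?_
    have e : A.erase i \ (R.cl A s i0).erase i = A \ R.cl A s i0 := by
      ext k
      by_cases e : k = i <;> simp [e, hi']
    rw [eval_one, mul_one, mul_assoc, Lagrange.nodalWeight, Lagrange.nodalWeight, ← e,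
      Finset.prod_sdiff (Finset.erase_subset_erase i R.cl_subset)]

end Pool.Agent.Work.MP_677830_co.G
end

-- merged part: Pool.Agent.Work.MP_677830_co.G.TB
section
/-!
# Tropical upper bound for the norms
tb_point. Put γ k = 1_Sb k - ν, |γ k| ≤ 1, sum of γ ≤ -2; off the nodes the integrand is the product
of ‖x - y k‖ ^ (2 γ k). Let i be the nearest node, d = ‖x - y i‖ > 0, ω k = max d (τ ^ m i k)
(ω i = d). Then ω k / (2κ) ≤ ‖x - y k‖ ≤ 2 κ ω k, so the integrand is at most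
(2κ)^(2n) * prod ω k ^ (2 γ k). If d ≥ 1 all ω k = d, the product is ≤ d ^ (-4), and 1 ≤ τ ^ (2e - ηM)
since e ≤ 0 (u = 0). If d < 1 write d = τ ^ u, u > 0; ω k = τ ^ min u (m i k); with g u the sum,
for u ≤ M: τ ^ (2 g u) ≤ τ ^ (2e) d ^ (-2) ≤ τ ^ (2e - ηM) d ^ (η-2); for u ≥ M:
g u + u = g M + M + (1 + γ i)(u - M) ≥ e + (η/2)(u - M), same bound. Both are at most
4 * τ ^ (2e - ηM) * hh (x - y i) with hh = ‖.‖ ^ (-(2-η)) * (1 + ‖.‖) ^ (-2) (integrable_hh, η ≤ 2).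
Sum over i, translation invariance, integral_mono_of_nonneg.
trop_real: for u in [0, σ top] pick s with σ s ≤ u ≤ σ (s+1); u = (1-θ) σ s + θ σ (s+1) and
min u (σ μ) = (1-θ) σ (min s μ) + θ σ (min (s+1) μ).
tb_ge: κ = τ ^ (-ε), m i k = σ (μ i k), M = σ top, η and ε small.
-/

namespace Pool.Agent.Work.MP_677830_co.G

open Filter Topology Polynomial Matrix MeasureTheory
open scoped ComplexConjugate ComplexOrder

variable {ι : Type} [Fintype ι] [DecidableEq ι]

theorem TB_pow {a ω c s : ℝ} (ha : 0 < a) (hω : 0 < ω) (hc : 1 ≤ c) (h1 : a ≤ c * ω)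
    (h2 : ω ≤ c * a) (hs : |s| ≤ 2) : a ^ s ≤ c ^ 2 * ω ^ s := by
  have c0 : 0 < c := by linarith
  have h3 : ∀ r : ℝ, r ≤ 2 → c ^ r ≤ c ^ 2 := fun r hr =>
    (Real.rpow_le_rpow_of_exponent_le hc hr).trans_eq (Real.rpow_two c)
  rcases le_total 0 s with h | h
  · refine (Real.rpow_le_rpow ha.le h1 h).trans ?_
    rw [Real.mul_rpow c0.le hω.le]
    exact mul_le_mul_of_nonneg_right (h3 s (abs_le.1 hs).2) (Real.rpow_nonneg hω.le _)
  · refine (Real.rpow_le_rpow_of_nonpos (div_pos hω c0) ((div_le_iff₀' c0).2 h2) h).trans ?_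
    rw [Real.div_rpow hω.le c0.le, div_eq_mul_inv, ← Real.rpow_neg c0.le, mul_comm]
    exact mul_le_mul_of_nonneg_right (h3 _ (by linarith [(abs_le.1 hs).1]))
      (Real.rpow_nonneg hω.le _)

omit [Fintype ι] in
theorem TB_g {A : Finset ι} {γ m : ι → ℝ} {η e M : ℝ} {i : ι} (hi : i ∈ A) (hη : 0 < η)
    (hγ : η ≤ 2 * (1 + γ i)) (hM : 0 ≤ M) (hs : ∑ k ∈ A, γ k ≤ -2)
    (hm : ∀ k ∈ A, k ≠ i → 0 ≤ m k ∧ m k ≤ M)
    (he : ∀ u, 0 ≤ u → u ≤ M → e ≤ u + ∑ k ∈ A, γ k * (if k = i then u else min u (m k)))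
    (u : ℝ) : 2 * e - η * M + -(2 - η) * u + min u 0 * -2 ≤
      ∑ k ∈ A, (if k = i then u else min u (m k)) * (2 * γ k) := by
  have h1 : ∀ v, v ≤ 0 → ∑ k ∈ A, γ k * (if k = i then v else min v (m k)) = (∑ k ∈ A, γ k) * v :=
    fun v hv => by
      rw [Finset.sum_mul]
      refine Finset.sum_congr rfl fun k hk => ?_
      split_ifs with h
      · rfl
      · rw [min_eq_left (hv.trans (hm k hk h).1)]
  have h2 : ∑ k ∈ A, (if k = i then u else min u (m k)) * (2 * γ k) =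
      2 * ∑ k ∈ A, γ k * (if k = i then u else min u (m k)) := by
    rw [Finset.mul_sum]
    exact Finset.sum_congr rfl fun k _ => by ring
  have h3 := mul_nonneg hη.le hM
  rw [h2]
  rcases le_total u 0 with h | h
  · have h4 := he 0 le_rfl hM
    rw [h1 0 le_rfl] at h4
    rw [h1 u h, min_eq_left h]
    linarith only [h3, h4, hη, h, hs, mul_nonneg_of_nonpos_of_nonpos (le_of_lt (Mathlib.Tactic.Linarith.sub_neg_of_lt hη)) (Mathlib.Tactic.Linarith.sub_nonpos_of_le h), mul_nonneg_of_nonpos_of_nonpos (Mathlib.Tactic.Linarith.sub_nonpos_of_le hs) (Mathlib.Tactic.Linarith.sub_nonpos_of_le h)]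
  · rw [min_eq_right h]
    rcases le_total u M with h' | h'
    · have h4 := he u h h'
      linarith only [h4, hη, h', mul_nonneg_of_nonpos_of_nonpos (le_of_lt (Mathlib.Tactic.Linarith.sub_neg_of_lt hη)) (Mathlib.Tactic.Linarith.sub_nonpos_of_le h')]
    · have h4 := he M hM le_rfl
      have h5 : ∑ k ∈ A, γ k * (if k = i then u else min u (m k)) =
          ∑ k ∈ A, γ k * (if k = i then M else min M (m k)) + γ i * (u - M) := by
        rw [← Finset.add_sum_erase A _ hi, ← Finset.add_sum_erase A _ hi, if_pos rfl, if_pos rfl,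
          Finset.sum_congr rfl fun k hk => ?_]
        · ring
        · obtain ⟨h6, h7⟩ := Finset.mem_erase.1 hk
          rw [if_neg h6, if_neg h6, min_eq_right (hm k h7 h6).2,
            min_eq_right ((hm k h7 h6).2.trans h')]
      rw [h5]
      linarith only [h4, hγ, h', mul_nonneg_of_nonpos_of_nonpos (Mathlib.Tactic.Linarith.sub_nonpos_of_le hγ) (Mathlib.Tactic.Linarith.sub_nonpos_of_le h')]

omit [Fintype ι] in
theorem TB_eq {A Sb : Finset ι} (hS : Sb ⊆ A) (ν : ℝ) {y : ι → ℂ} {x : ℂ}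
    (hx : ∀ k ∈ A, x ≠ y k) : ‖(bp Sb y).eval x‖ ^ 2 * wt ν A y x =
      ∏ k ∈ A, ‖x - y k‖ ^ (2 * ((if k ∈ Sb then 1 else 0) - ν)) := by
  rw [bp, wt, eval_prod, norm_prod, norm_prod, ← Finset.prod_pow,
    ← Real.finsetProd_rpow _ _ fun _ _ => norm_nonneg _,
    ← Finset.inter_eq_right.2 hS, ← Finset.prod_ite_mem, ← Finset.prod_mul_distrib,
    Finset.inter_eq_right.2 hS]
  refine Finset.prod_congr rfl fun k hk => ?_
  have h := norm_pos_iff.2 (sub_ne_zero.2 (hx k hk))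
  split_ifs
  · rw [eval_sub, eval_X, eval_C, ← Real.rpow_two, ← Real.rpow_add h]
    congr 1
    ring
  · rw [one_mul]
    congr 1
    ring

theorem TB_hh {τ η u : ℝ} (h0 : 0 < τ) (h1 : τ < 1) :
    τ ^ (-(2 - η) * u + min u 0 * -2) ≤ 4 * ((τ ^ u) ^ (-(2 - η)) * (1 + τ ^ u) ^ (-2 : ℝ)) := by
  have h2 : 1 + τ ^ u ≤ 2 * τ ^ min u 0 := by
    have h3 := Real.rpow_le_rpow_of_exponent_ge h0 h1.le (min_le_left u 0)
    have h4 := Real.rpow_le_rpow_of_exponent_ge h0 h1.le (min_le_right u 0)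
    rw [Real.rpow_zero] at h4
    linarith
  have h3 := Real.rpow_le_rpow_of_nonpos (by positivity) h2 (by norm_num : (-2 : ℝ) ≤ 0)
  rw [Real.mul_rpow (by norm_num) (by positivity), ← Real.rpow_mul h0.le,
    show (2 : ℝ) ^ (-2 : ℝ) = 1 / 4 by rw [Real.rpow_neg (by norm_num), Real.rpow_two]; norm_num]
    at h3
  rw [Real.rpow_add h0, mul_comm _ u, Real.rpow_mul h0.le u, mul_left_comm]
  exact mul_le_mul_of_nonneg_left (by linarith only [h3]) (by positivity)

theorem tb_point (A : Finset ι) {ν η : ℝ} (h0 : 0 < ν) (h1 : ν < 1) (hη : 0 < η)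
    (hη' : η ≤ 2 * (1 - ν)) : ∃ C : ℝ, ∀ (y : ι → ℂ) (τ κ e M : ℝ) (m : ι → ι → ℝ)
      (Sb : Finset ι), Sb ⊆ A → 0 < τ → τ < 1 → 1 ≤ κ → 0 ≤ M →
      (Sb.card : ℝ) + 2 ≤ ν * A.card →
      (∀ i ∈ A, ∀ k ∈ A, i ≠ k → 0 ≤ m i k ∧ m i k ≤ M ∧ τ ^ m i k ≤ κ * ‖y i - y k‖ ∧
        ‖y i - y k‖ ≤ κ * τ ^ m i k) →
      (∀ i ∈ A, ∀ u, 0 ≤ u → u ≤ M → e ≤ u + ∑ k ∈ A, ((if k ∈ Sb then 1 else 0) - ν) *
        (if k = i then u else min u (m i k))) →
      ∫ x : ℂ, ‖(bp Sb y).eval x‖ ^ 2 * wt ν A y x ≤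
        C * κ ^ (2 * A.card) * τ ^ (2 * e - η * M) := by
  set hh : ℂ → ℝ := fun x => ‖x‖ ^ (-(2 - η)) * (1 + ‖x‖) ^ (-2 : ℝ) with hhh
  have hI : Integrable hh := integrable_hh (by linarith) (by linarith)
  have hh0 : ∀ x, 0 ≤ hh x := fun x => by positivity
  refine ⟨2 ^ (2 * A.card) * 4 * (A.card * ∫ x, hh x),
    fun y τ κ e M m Sb hS τ0 τ1 hκ hM hc hm he => ?_⟩
  have hA : A.Nonempty := by
    rw [Finset.nonempty_iff_ne_empty]
    rintro rfl
    rw [Finset.card_empty, Nat.cast_zero, mul_zero] at hc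
    linarith [Nat.cast_nonneg (α := ℝ) Sb.card]
  have hs : ∑ k ∈ A, ((if k ∈ Sb then (1 : ℝ) else 0) - ν) ≤ -2 := by
    rw [Finset.sum_sub_distrib, Finset.sum_ite_mem, Finset.inter_eq_right.2 hS, Finset.sum_const,
      Finset.sum_const, nsmul_eq_mul, nsmul_eq_mul]
    linarith
  refine (integral_mono_of_nonneg
    (g := fun x => (2 * κ) ^ (2 * A.card) * 4 * τ ^ (2 * e - η * M) * ∑ i ∈ A, hh (x - y i))
    (Eventually.of_forall fun x => mul_nonneg (sq_nonneg _) (wt_nonneg _ _ _ _))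
    ((integrable_finsetSum _ fun i _ => hI.comp_sub_right _).const_mul _) ?_).trans_eq ?_
  · filter_upwards [ae_ne_nodes A y] with x hx
    obtain ⟨i, hi, hmin⟩ := A.exists_min_image (fun k => ‖x - y k‖) hA
    have d0 : ∀ k ∈ A, 0 < ‖x - y k‖ := fun k hk => norm_pos_iff.2 (sub_ne_zero.2 (hx k hk))
    obtain ⟨u, hu⟩ : ∃ u : ℝ, τ ^ u = ‖x - y i‖ := ⟨_, Real.rpow_logb τ0 τ1.ne (d0 i hi)⟩
    rw [TB_eq hS ν hx]
    calc _ ≤ ∏ k ∈ A, (2 * κ) ^ 2 * τ ^ ((if k = i then u else min u (m i k)) *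
          (2 * ((if k ∈ Sb then 1 else 0) - ν))) := by
          refine Finset.prod_le_prod (fun k _ => by positivity) fun k hk => ?_
          rw [Real.rpow_mul τ0.le]
          have h2 : |2 * ((if k ∈ Sb then (1 : ℝ) else 0) - ν)| ≤ 2 := by
            rw [abs_le]
            split_ifs <;> constructor <;> linarith only [h0, h1]
          have h3 := d0 k hk
          by_cases h : k = i
          · rw [if_pos h, hu, ← h]
            exact TB_pow h3 h3 (by linarith) (by (refine le_of_not_gt fun h_nl => ?_; linarith only [h_nl, h0, h3, h1, hκ, mul_pos_of_neg_of_neg (Mathlib.Tactic.Linarith.sub_neg_of_lt h0) (Mathlib.Tactic.Linarith.sub_neg_of_lt h3), mul_pos_of_neg_of_neg (Mathlib.Tactic.Linarith.sub_neg_of_lt h0) (Mathlib.Tactic.Linarith.sub_neg_of_lt h_nl), mul_pos_of_neg_of_neg (Mathlib.Tactic.Linarith.sub_neg_of_lt h1) (Mathlib.Tactic.Linarith.sub_neg_of_lt h3), mul_pos_of_neg_of_neg (Mathlib.Tactic.Linarith.sub_neg_of_lt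 h1) (Mathlib.Tactic.Linarith.sub_neg_of_lt h_nl), mul_nonneg_of_nonpos_of_nonpos (Mathlib.Tactic.Linarith.sub_nonpos_of_le hκ) (le_of_lt (Mathlib.Tactic.Linarith.sub_neg_of_lt h3))])) (by (refine le_of_not_gt fun h_nl => ?_; linarith only [h_nl, h0, h3, h1, hκ, mul_pos_of_neg_of_neg (Mathlib.Tactic.Linarith.sub_neg_of_lt h0) (Mathlib.Tactic.Linarith.sub_neg_of_lt h3), mul_pos_of_neg_of_neg (Mathlib.Tactic.Linarith.sub_neg_of_lt h0) (Mathlib.Tactic.Linarith.sub_neg_of_lt h_nl), mul_pos_of_neg_of_neg (Mathlib.Tactic.Linarith.sub_neg_of_lt h1) (Mathlib.Tactic.Linarith.sub_neg_of_lt h3), mul_pos_of_neg_of_neg (Mathlib.Tactic.Linarith.sub_neg_of_lt h1) (Mathlib.Tactic.Linarith.sub_neg_of_lt h_nl), mul_nonneg_of_nonpos_of_nonpos (Mathlib.Tactic.Linarith.sub_nonpos_of_le hκ) (le_of_lt (Mathlib.Tactic.Linarith.sub_neg_of_lt h3))])) h2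
          · obtain ⟨-, -, h4, h5⟩ := hm i hi k hk (Ne.symm h)
            have h6 := Real.rpow_le_rpow_of_exponent_ge τ0 τ1.le (min_le_left u (m i k))
            have h7 := Real.rpow_le_rpow_of_exponent_ge τ0 τ1.le (min_le_right u (m i k))
            have h8 : ‖x - y i‖ ≤ ‖x - y k‖ := hmin k hk
            have h9 : ‖y i - y k‖ ≤ ‖x - y i‖ + ‖x - y k‖ := by
              rw [norm_sub_rev x (y i)]
              exact norm_sub_le_norm_sub_add_norm_sub _ _ _
            have h10 := norm_sub_le_norm_sub_add_norm_sub x (y i) (y k)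
            have h11 := Real.rpow_pos_of_pos τ0 (min u (m i k))
            rw [if_neg h]
            refine TB_pow h3 h11 (by linarith only [h0, h1, hκ]) (by (refine le_of_not_gt fun h_nl => ?_; linarith only [h_nl, hu, h5, h6, h7, h10, h0, h1, hκ, h9, mul_pos_of_neg_of_neg (Mathlib.Tactic.Linarith.sub_neg_of_lt h0) (Mathlib.Tactic.Linarith.sub_neg_of_lt h_nl), mul_pos_of_neg_of_neg (Mathlib.Tactic.Linarith.sub_neg_of_lt h1) (Mathlib.Tactic.Linarith.sub_neg_of_lt h_nl), Mathlib.Tactic.Linarith.mul_zero_eq (Mathlib.Tactic.Linarith.sub_nonpos_of_le hκ) (sub_eq_zero_of_eq hu), mul_nonneg_of_nonpos_of_nonpos (Mathlib.Tactic.Linarith.sub_nonpos_of_le hκ) (Mathlib.Tactic.Linarith.sub_nonpos_of_le h6), mul_nonneg_of_nonpos_of_nonpos (Mathlib.Tactic.Linarith.sub_nonpos_of_le hκ) (Mathlib.Tactic.Linarith.sub_nonpos_of_le h7), mul_nonneg_of_nonpos_of_nonpos (Mathlib.Tactic.Linarith.sub_nonpos_of_le hκ) (Mathlib.Tactic.Linarith.sub_nonpos_of_le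 h9), mul_nonneg_of_nonpos_of_nonpos (Mathlib.Tactic.Linarith.sub_nonpos_of_le hκ) (Mathlib.Tactic.Linarith.sub_nonpos_of_le h10)])) ?_ h2
            rcases min_choice u (m i k) with h12 | h12 <;> rw [h12] <;> (refine le_of_not_gt fun h_nl => ?_; linarith only [h_nl, hu, h8, h0, h3, h1, hκ, h4, h9, mul_pos_of_neg_of_neg (Mathlib.Tactic.Linarith.sub_neg_of_lt h0) (Mathlib.Tactic.Linarith.sub_neg_of_lt h3), mul_pos_of_neg_of_neg (Mathlib.Tactic.Linarith.sub_neg_of_lt h0) (Mathlib.Tactic.Linarith.sub_neg_of_lt h_nl), mul_pos_of_neg_of_neg (Mathlib.Tactic.Linarith.sub_neg_of_lt h1) (Mathlib.Tactic.Linarith.sub_neg_of_lt h3), mul_pos_of_neg_of_neg (Mathlib.Tactic.Linarith.sub_neg_of_lt h1) (Mathlib.Tactic.Linarith.sub_neg_of_lt h_nl), mul_nonneg_of_nonpos_of_nonpos (Mathlib.Tactic.Linarith.sub_nonpos_of_le hκ) (le_of_lt (Mathlib.Tactic.Linarith.sub_neg_of_lt h3)), mul_nonneg_of_nonpos_of_nonpos (Mathlib.Tactic.Linarith.sub_nonpos_of_le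 hκ) (Mathlib.Tactic.Linarith.sub_nonpos_of_le h8), mul_nonneg_of_nonpos_of_nonpos (Mathlib.Tactic.Linarith.sub_nonpos_of_le hκ) (Mathlib.Tactic.Linarith.sub_nonpos_of_le h9)])
      _ = (2 * κ) ^ (2 * A.card) * τ ^ ∑ k ∈ A, (if k = i then u else min u (m i k)) *
          (2 * ((if k ∈ Sb then 1 else 0) - ν)) := by
          rw [Finset.prod_mul_distrib, Finset.prod_const, ← pow_mul, Real.rpow_sum_of_pos τ0]
      _ ≤ (2 * κ) ^ (2 * A.card) * (τ ^ (2 * e - η * M) * (4 * hh (x - y i))) := by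
          refine mul_le_mul_of_nonneg_left ((Real.rpow_le_rpow_of_exponent_ge τ0 τ1.le
            (TB_g hi hη (by split_ifs <;> linarith only [h0, h1, hη']) hM hs (fun k hk h =>
              ⟨(hm i hi k hk h.symm).1, (hm i hi k hk h.symm).2.1⟩) (he i hi) u)).trans ?_)
            (by positivity)
          rw [add_assoc, Real.rpow_add τ0, hhh]
          simp only [← hu]
          exact mul_le_mul_of_nonneg_left (TB_hh τ0 τ1) (by positivity)
      _ = (2 * κ) ^ (2 * A.card) * 4 * τ ^ (2 * e - η * M) * hh (x - y i) := by ring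
      _ ≤ _ := mul_le_mul_of_nonneg_left
          (Finset.single_le_sum (f := fun i => hh (x - y i)) (fun _ _ => hh0 _) hi) (by positivity)
  · rw [integral_const_mul, integral_finsetSum _ fun i _ => hI.comp_sub_right _]
    simp only [integral_sub_right_eq_self hh]
    rw [Finset.sum_const, nsmul_eq_mul, mul_pow]
    ring

theorem trop_real {R : Tree ι} {σ : ℕ → ℝ} {ϑ ν e : ℝ} (hσ : Lev σ ϑ) {A Sb : Finset ι}
    (hT : Trop R σ ν A Sb e) {i : ι} (hi : i ∈ A) {u : ℝ} (h0 : 0 ≤ u) (h1 : u ≤ σ R.top) :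
    e ≤ u + ∑ k ∈ A, ((if k ∈ Sb then 1 else 0) - ν) *
      (if k = i then u else min u (σ (R.μ i k))) := by
  have hm := hσ.2.1.monotone
  obtain ⟨s, h2, h3⟩ : ∃ s, σ s ≤ u ∧ u ≤ σ (s + 1) := by
    generalize R.top = N at h1
    induction N with
    | zero => exact ⟨0, hσ.1.trans_le h0, h1.trans (hm (Nat.zero_le _))⟩
    | succ N ih =>
      rcases le_total u (σ N) with h | h
      · exact ih h
      · exact ⟨N, h, h1⟩
  have h4 : 0 < σ (s + 1) - σ s := sub_pos.2 (hσ.2.1 (Nat.lt_succ_self s))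
  obtain ⟨θ, θ0, θ1, hθ⟩ : ∃ θ : ℝ, 0 ≤ θ ∧ θ ≤ 1 ∧ u = (1 - θ) * σ s + θ * σ (s + 1) :=
    ⟨(u - σ s) / (σ (s + 1) - σ s), div_nonneg (by linarith) h4.le,
      (div_le_one h4).2 (by linarith), by field_simp; ring⟩
  have h5 : ∑ k ∈ A, ((if k ∈ Sb then 1 else 0) - ν) *
      (if k = i then u else min u (σ (R.μ i k))) =
      (1 - θ) * ∑ k ∈ A, ((if k ∈ Sb then 1 else 0) - ν) * σ (R.mn s i k) +
        θ * ∑ k ∈ A, ((if k ∈ Sb then 1 else 0) - ν) * σ (R.mn (s + 1) i k) := by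
    rw [Finset.mul_sum, Finset.mul_sum, ← Finset.sum_add_distrib]
    refine Finset.sum_congr rfl fun k _ => ?_
    rw [mul_left_comm, mul_left_comm θ, ← mul_add]
    congr 1
    unfold Tree.mn
    split_ifs
    · exact hθ
    · rcases le_or_gt (R.μ i k) s with h | h
      · rw [min_eq_right h, min_eq_right (h.trans (Nat.le_succ s)), min_eq_right ((hm h).trans h2)]
        ring
      · rw [min_eq_left h.le, min_eq_left (Nat.succ_le_of_lt h), min_eq_left (h3.trans (hm h))]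
        exact hθ
  have h6 := mul_le_mul_of_nonneg_left (hT.2 i hi s) (sub_nonneg.2 θ1)
  have h7 := mul_le_mul_of_nonneg_left (hT.2 i hi (s + 1)) θ0
  rw [h5]
  linarith

theorem tb_ge {T : Type} {S : Scale T} {R : Tree ι} {σ : ℕ → ℝ} {ϑ ν e : ℝ} {y : ι → T → ℂ}
    (hc : Cfg S R σ y) (hσ : Lev σ ϑ) (h0 : 0 < ν) (h1 : ν < 1) {A Sb : Finset ι}
    (hT : Trop R σ ν A Sb e) (hS : (Sb.card : ℝ) + 2 ≤ ν * A.card) :
    S.Ge e fun t => Real.sqrt
      (∫ x : ℂ, ‖(bp Sb fun i => y i t).eval x‖ ^ 2 * wt ν A (fun i => y i t) x) := by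
  refine Scale.ge_of_bound fun κ' hκ => ?_
  have hM := hσ.nonneg R.top
  have hn : (0 : ℝ) ≤ A.card := Nat.cast_nonneg _
  obtain ⟨η, η0, η1, η2⟩ : ∃ η : ℝ, 0 < η ∧ η ≤ 2 * (1 - ν) ∧ η * σ R.top ≤ e - κ' := by
    refine ⟨min (2 * (1 - ν)) ((e - κ') / (σ R.top + 1)), lt_min (by linarith)
      (div_pos (by linarith) (by linarith)), min_le_left _ _,
      (mul_le_mul_of_nonneg_right (min_le_right _ _) hM).trans ?_⟩
    rw [div_mul_eq_mul_div, div_le_iff₀ (by linarith)]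
    linarith only [hκ]
  obtain ⟨ε, ε0, ε1⟩ : ∃ ε : ℝ, 0 < ε ∧ ε * (2 * A.card) ≤ e - κ' := by
    refine ⟨(e - κ') / (2 * A.card + 1), div_pos (by linarith) (by linarith), ?_⟩
    rw [div_mul_eq_mul_div, div_le_iff₀ (by linarith)]
    linarith only [hκ]
  obtain ⟨C, hC⟩ := tb_point A h0 h1 η0 η1
  have h2 : ∀ᶠ t in S.F, ∀ i k, i ≠ k → ‖y i t - y k t‖ ≤ S.τ t ^ (σ (R.μ i k) - ε) ∧
      ‖(y i t - y k t)⁻¹‖ ≤ S.τ t ^ (-σ (R.μ i k) - ε) ∧ y i t ≠ y k t :=
    eventually_all.2 fun i => eventually_all.2 fun k => eventually_all.2 fun h =>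
      ((hc.2 i k h).1 _ (sub_lt_self _ ε0)).and
        (((hc.2 i k h).2.1 _ (sub_lt_self _ ε0)).and (hc.2 i k h).2.2)
  refine ⟨|C| + 1, ?_⟩
  filter_upwards [S.ev_lt one_pos, h2] with t ⟨τ0, τ1⟩ ht
  rw [Real.norm_of_nonneg (Real.sqrt_nonneg _)]
  refine Real.sqrt_le_iff.2 ⟨by positivity, (hC (fun i => y i t) (S.τ t) (S.τ t ^ (-ε)) e
    (σ R.top) (fun i k => σ (R.μ i k)) Sb hT.1 τ0 τ1
    (Real.one_le_rpow_of_pos_of_le_one_of_nonpos τ0 τ1.le (by linarith)) hM hS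
    (fun i _ k _ h => ⟨hσ.nonneg _, hσ.2.1.monotone (R.le_top i k), ?_, ?_⟩)
    fun i hi u u0 u1 => trop_real hσ hT hi u0 u1).trans ?_⟩
  · obtain ⟨-, h3, h4⟩ := ht i k h
    have h5 := norm_pos_iff.2 (sub_ne_zero.2 h4)
    rw [norm_inv, inv_le_iff_one_le_mul₀ h5, sub_eq_add_neg, Real.rpow_add τ0,
      Real.rpow_neg τ0.le (σ _), mul_assoc, one_le_inv_mul₀ (Real.rpow_pos_of_pos τ0 _)] at h3
    exact h3
  · rw [← Real.rpow_add τ0, neg_add_eq_sub]
    exact (ht i k h).1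
  · rw [mul_assoc, mul_pow, ← Real.rpow_natCast (_ ^ (-ε)), ← Real.rpow_mul τ0.le,
      ← Real.rpow_add τ0, ← Real.rpow_two (_ ^ κ'), ← Real.rpow_mul τ0.le]
    refine mul_le_mul (by (refine le_of_not_gt fun h_nl => ?_; linarith only [h_nl, h0, h1, le_abs_self C, abs_nonneg C, sq_nonneg (|C| + (1 : ℝ)), mul_nonneg_of_nonpos_of_nonpos (Mathlib.Tactic.Linarith.sub_nonpos_of_le (sq_nonneg (|C| + (1 : ℝ)))) (Mathlib.Tactic.Linarith.sub_nonpos_of_le (sq_nonneg (|C| + (1 : ℝ)))), mul_nonneg_of_nonpos_of_nonpos (Mathlib.Tactic.Linarith.sub_nonpos_of_le (sq_nonneg (|C| + (1 : ℝ)))) (le_of_lt (Mathlib.Tactic.Linarith.sub_neg_of_lt h_nl)), mul_nonneg_of_nonpos_of_nonpos (Mathlib.Tactic.Linarith.sub_nonpos_of_le (sq_nonneg (|C| + (1 : ℝ)))) (Mathlib.Tactic.Linarith.sub_nonpos_of_le (le_abs_self C)), mul_pos_of_neg_of_neg (Mathlib.Tactic.Linarith.sub_neg_of_lt h0) (Mathlib.Tactic.Linarith.sub_neg_of_lt h0), mul_pos_of_neg_of_neg (Mathlib.Tactic.Linarith.sub_neg_of_lt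 h0) (Mathlib.Tactic.Linarith.sub_neg_of_lt h1), mul_pos_of_neg_of_neg (Mathlib.Tactic.Linarith.sub_neg_of_lt h0) (Mathlib.Tactic.Linarith.sub_neg_of_lt h_nl), mul_pos_of_neg_of_neg (Mathlib.Tactic.Linarith.sub_neg_of_lt h1) (Mathlib.Tactic.Linarith.sub_neg_of_lt h1), mul_pos_of_neg_of_neg (Mathlib.Tactic.Linarith.sub_neg_of_lt h1) (Mathlib.Tactic.Linarith.sub_neg_of_lt h_nl), mul_pos_of_neg_of_neg (Mathlib.Tactic.Linarith.sub_neg_of_lt h_nl) (Mathlib.Tactic.Linarith.sub_neg_of_lt h_nl), mul_nonneg_of_nonpos_of_nonpos (le_of_lt (Mathlib.Tactic.Linarith.sub_neg_of_lt h_nl)) (Mathlib.Tactic.Linarith.sub_nonpos_of_le (le_abs_self C)), mul_nonneg_of_nonpos_of_nonpos (Mathlib.Tactic.Linarith.sub_nonpos_of_le (le_abs_self C)) (Mathlib.Tactic.Linarith.sub_nonpos_of_le (le_abs_self C))]))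
      (Real.rpow_le_rpow_of_exponent_ge τ0 τ1.le ?_) (by positivity) (by positivity)
    push_cast
    linarith

end Pool.Agent.Work.MP_677830_co.G
end

-- merged part: Pool.Agent.Work.MP_677830_co.G.Par
section
/-!
# Parity forces common clusters
Let C be a part at level s ≥ 1, 2 ≤ |C|, 2|C| < N, Bad. m = R.μ, m' = R'.μ.
(1) There are pairs i ≠ j in C with m i j = s; let (i0, j0) minimise m' among them, μ0 = m' i0 j0.
Then μ0 ≤ m' i i' for all i ≠ i' in C (if m i i' > s take j in C with m i j = s = m i' j, ultra for m').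
(2) For k outside C write o k = m i0 k < s (mu_out). Call k, l outside C good if k ≠ l and
s + m k l = o k + o l + 1. Classes: the set O of k with o k < s - 1, and the level s clusters of the
k with o k = s - 1; good means different classes. There is k1 with o k1 = s - 1 (Bad; if s = 1 any
outer point). There are at least two classes: if s ≥ 2 the level s-1 cluster has at most N/2 points so
O is nonempty; if s = 1 the level one clusters have at most N/2 points and cover more than N/2.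
(3) For good k, l: X = m' i0 j0 + m' k l, Y = m' i0 k + m' j0 l, Z = m' i0 l + m' j0 k; parity gives
X - Y odd and Y - Z even; four point condition for an ultrametric (two smallest are equal) gives
Y = Z < X. (4) If some outer k has m' i0 k ≥ μ0, every l good with k has m' k l > m' j0 l ≥ 0 and
m' i0 l ≥ μ0 again; every outer point is good with k or with a fixed partner l of k; so all outer points
lie in the level one cluster of k for R', more than N/2 points, contradiction. So m' i0 k < μ0 for all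
outer k, hence μ0 ≥ 1 and cl' univ μ0 i0 = C.
-/

namespace Pool.Agent.Work.MP_677830_co.G

open Filter Topology Polynomial Matrix MeasureTheory
open scoped ComplexConjugate ComplexOrder

variable {ι : Type} [Fintype ι] [DecidableEq ι]

omit [Fintype ι] [DecidableEq ι] in
theorem Par_tri (R : Tree ι) {i j k : ι} (hij : i ≠ j) (hik : i ≠ k) (hjk : j ≠ k) :
    (R.μ i j = R.μ i k ∧ R.μ i j ≤ R.μ j k) ∨ (R.μ i j = R.μ j k ∧ R.μ i j ≤ R.μ i k) ∨
      (R.μ i k = R.μ j k ∧ R.μ i k ≤ R.μ i j) := by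
  have a1 := R.ultra i j k hij hjk hik
  have a2 := R.ultra j i k hij.symm hik hjk
  have a3 := R.ultra i k j hik hjk.symm hij
  rw [R.symm j i] at a2
  rw [R.symm k j] at a3
  omega

theorem four_point (R : Tree ι) {i j k l : ι} (hij : i ≠ j) (hik : i ≠ k) (hil : i ≠ l)
    (hjk : j ≠ k) (hjl : j ≠ l) (hkl : k ≠ l)
    (h1 : R.μ i j + R.μ k l ≠ R.μ i k + R.μ j l) (h2 : R.μ i j + R.μ k l ≠ R.μ i l + R.μ j k)
    (h3 : Even ((R.μ i k + R.μ j l : ℤ) - (R.μ i l + R.μ j k)))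
    (h4 : Odd ((R.μ i j + R.μ k l : ℤ) - (R.μ i k + R.μ j l))) :
    R.μ i k + R.μ j l < R.μ i j + R.μ k l ∧ R.μ i l + R.μ j k < R.μ i j + R.μ k l := by
  clear h3 h4
  rcases Par_tri R hij hik hjk with a | a | a <;> rcases Par_tri R hij hil hjl with b | b | b <;>
    rcases Par_tri R hik hil hkl with c | c | c <;> rcases Par_tri R hjk hjl hkl with d | d | d <;>
    omega

/-- Every point of a cluster that splits at the next level has a partner at the exact level. -/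
theorem Par_partner (R : Tree ι) {s : ℕ} {C : Finset ι} (hC : C ∈ R.parts Finset.univ s)
    (h : C ∉ R.parts Finset.univ (s + 1)) {i : ι} (hi : i ∈ C) :
    ∃ j ∈ C, i ≠ j ∧ R.μ i j = s := by
  by_contra hn
  refine h (R.mem_parts.2 ⟨i, Finset.mem_univ _, Finset.Subset.antisymm ?_ fun j hj => ?_⟩)
  · exact (R.cl_anti (Nat.le_succ s)).trans (R.cl_eq_of_parts hC hi).le
  · refine R.mem_cl.2 ⟨Finset.mem_univ _, (eq_or_ne i j).imp Eq.symm fun e => ?_⟩
    exact (R.le_of_parts hC hi hj e).lt_of_ne fun e' => hn ⟨j, hj, e, e'.symm⟩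

theorem Par_min (R R' : Tree ι) {s : ℕ} {C : Finset ι} (hC : C ∈ R.parts Finset.univ s)
    (h : C ∉ R.parts Finset.univ (s + 1)) : ∃ i₀ ∈ C, ∃ j₀ ∈ C, i₀ ≠ j₀ ∧ R.μ i₀ j₀ = s ∧
      ∀ i ∈ C, ∀ i' ∈ C, i ≠ i' → R'.μ i₀ j₀ ≤ R'.μ i i' := by
  obtain ⟨a, ha⟩ := R.parts_nonempty hC
  obtain ⟨b, hb, hab⟩ := Par_partner R hC h ha
  obtain ⟨⟨i₀, j₀⟩, h1, h2⟩ := Finset.exists_min_image
    ((C ×ˢ C).filter fun x => x.1 ≠ x.2 ∧ R.μ x.1 x.2 = s) (fun x => R'.μ x.1 x.2)
    ⟨(a, b), Finset.mem_filter.2 ⟨Finset.mk_mem_product ha hb, hab⟩⟩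
  obtain ⟨h3, h4, h5⟩ := Finset.mem_filter.1 h1
  obtain ⟨h6, h7⟩ := Finset.mem_product.1 h3
  have h8 : ∀ i ∈ C, ∀ j ∈ C, i ≠ j → R.μ i j = s → R'.μ i₀ j₀ ≤ R'.μ i j := fun i hi j hj e e' =>
    h2 (i, j) (Finset.mem_filter.2 ⟨Finset.mk_mem_product hi hj, e, e'⟩)
  refine ⟨i₀, h6, j₀, h7, h4, h5, fun i hi i' hi' e => ?_⟩
  by_cases e' : R.μ i i' = s
  · exact h8 i hi i' hi' e e'
  obtain ⟨j, hj, hij, hm⟩ := Par_partner R hC h hi
  have hji : j ≠ i' := fun k => e' (k ▸ hm)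
  have a1 := R.le_of_parts hC hi hi' e
  have a2 := R.le_of_parts hC hj hi' hji
  have a3 := R.ultra i i' j e hji.symm hij
  rw [R.symm i' j] at a3
  exact (le_min (h8 i hi j hj hij hm) (h8 j hj i' hi' hji (by omega))).trans
    (R'.ultra i j i' hij hji e)

/-- The class of an outer point. -/
def Par_c (R : Tree ι) (s : ℕ) (i₀ k : ι) : Finset ι :=
  if R.μ i₀ k + 1 < s then ∅ else R.cl Finset.univ s k

theorem Par_good (R : Tree ι) {s : ℕ} {i₀ k l : ι} (hk : i₀ ≠ k) (hl : i₀ ≠ l)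
    (hk' : R.μ i₀ k < s) (hl' : R.μ i₀ l < s) (h : Par_c R s i₀ k ≠ Par_c R s i₀ l) :
    k ≠ l ∧ s + R.μ k l = R.μ i₀ k + R.μ i₀ l + 1 := by
  have hkl : k ≠ l := fun e => h (e ▸ rfl)
  have a1 := R.ultra i₀ k l hk hkl hl
  have a2 := R.ultra k i₀ l hk.symm hl hkl
  have a3 := R.ultra i₀ l k hl hkl.symm hk
  rw [R.symm k i₀] at a2
  rw [R.symm l k] at a3
  refine ⟨hkl, ?_⟩
  unfold Par_c at h
  split_ifs at h with h1 h2 h2
  · exact absurd rfl h
  · omega
  · omega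
  · have : ¬ s ≤ R.μ k l := fun e =>
      h (R.cl_eq_of_mem (R.mem_cl.2 ⟨Finset.mem_univ _, Or.inr e⟩)).symm
    omega

theorem Par_big {C D : Finset ι} (hC : 2 * C.card < Fintype.card ι)
    (hD : 2 * D.card ≤ Fintype.card ι) : ∃ x, x ∉ C ∧ x ∉ D := by
  by_contra hn
  have h1 : Cᶜ ⊆ D := fun x hx => by
    by_contra h
    exact hn ⟨x, Finset.mem_compl.1 hx, h⟩
  have h2 := Finset.card_le_card h1
  have h3 := Finset.card_compl_add_card C
  omega

theorem Par_two (R : Tree ι) (hB : R.Bal) {s : ℕ} (hs : 1 ≤ s) {C : Finset ι}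
    (hC : C ∈ R.parts Finset.univ s) (hc : 2 * C.card < Fintype.card ι)
    (h : s = 1 ∨ C ∉ R.parts Finset.univ (s - 1)) {i₀ : ι} (hi : i₀ ∈ C) :
    ∃ k l, k ∉ C ∧ l ∉ C ∧ Par_c R s i₀ k ≠ Par_c R s i₀ l := by
  rcases hs.eq_or_lt with rfl | hs'
  · obtain ⟨k, hk, -⟩ := Par_big hc hc.le
    obtain ⟨l, hl, hl'⟩ := Par_big hc (hB k)
    refine ⟨k, l, hk, hl, fun e => hl' ?_⟩
    unfold Par_c at e
    rw [if_neg (by omega), if_neg (by omega)] at e
    exact e ▸ R.self_mem_cl (Finset.mem_univ _)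
  · have hsub : C ⊆ R.cl Finset.univ (s - 1) i₀ :=
      (R.cl_eq_of_parts hC hi).ge.trans (R.cl_anti (Nat.sub_le s 1))
    obtain ⟨k, hk, hk'⟩ := Finset.exists_of_ssubset (hsub.ssubset_of_ne fun e =>
      h.resolve_left hs'.ne' (e ▸ R.cl_mem_parts (Finset.mem_univ _)))
    obtain ⟨l, hl, hl'⟩ := Par_big hc (R.card_le_of_bal hB (s := s - 1) (by omega)
      (R.cl_mem_parts (Finset.mem_univ i₀)))
    refine ⟨k, l, hk', hl, fun e => ?_⟩
    have a1 := (R.mem_cl.1 hk).2.resolve_left fun e => hk' (e ▸ hi)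
    have a2 : ¬ s - 1 ≤ R.μ i₀ l := fun e => hl' (R.mem_cl.2 ⟨Finset.mem_univ _, Or.inr e⟩)
    unfold Par_c at e
    rw [if_neg (by omega), if_pos (by omega)] at e
    exact Finset.notMem_empty k (e ▸ R.self_mem_cl (Finset.mem_univ _))

theorem par (R R' : Tree ι) (hB : R.Bal) (hB' : R'.Bal) (g : ι → ℤ) (g0 : ℤ)
    (h : ∀ i k, i ≠ k → Even ((R.μ i k : ℤ) + R'.μ i k + g i + g k + g0)) {q : ℕ}
    (hq : 2 * q < Fintype.card ι) : Com q R R' := by
  rintro s hs C hC hcard ⟨-, hb1, hb2⟩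
  have hc : 2 * C.card < Fintype.card ι := by omega
  obtain ⟨i₀, hi, j₀, hj, hij, hm, hmin⟩ := Par_min R R' hC hb1
  have ni : ∀ {k}, k ∉ C → i₀ ≠ k := fun hk e => hk (e ▸ hi)
  have nj : ∀ {k}, k ∉ C → j₀ ≠ k := fun hk e => hk (e ▸ hj)
  have step : ∀ k l, k ∉ C → l ∉ C → Par_c R s i₀ k ≠ Par_c R s i₀ l → R'.μ i₀ j₀ ≤ R'.μ i₀ k →
      l ∈ R'.cl Finset.univ 1 k ∧ R'.μ i₀ j₀ ≤ R'.μ i₀ l := by
    intro k l hk hl hne hle
    obtain ⟨hkl, e⟩ := Par_good R (ni hk) (ni hl) (R.lt_of_parts hC hi (Finset.mem_univ _) hk)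
      (R.lt_of_parts hC hi (Finset.mem_univ _) hl) hne
    have o1 := R.mu_out hC hi hj (Finset.mem_univ _) hk
    have o2 := R.mu_out hC hi hj (Finset.mem_univ _) hl
    obtain ⟨x1, e1⟩ := h i₀ j₀ hij
    obtain ⟨x2, e2⟩ := h k l hkl
    obtain ⟨x3, e3⟩ := h i₀ k (ni hk)
    obtain ⟨x4, e4⟩ := h j₀ l (nj hl)
    obtain ⟨x5, e5⟩ := h i₀ l (ni hl)
    obtain ⟨x6, e6⟩ := h j₀ k (nj hk)
    have f := (four_point R' hij (ni hk) (ni hl) (nj hk) (nj hl) hkl (by omega) (by omega)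
      (Int.even_iff.2 (by omega)) (Int.odd_iff.2 (by omega))).1
    have a1 := R'.ultra j₀ k l (nj hk) hkl (nj hl)
    have a2 := R'.ultra j₀ i₀ k hij.symm (ni hk) (nj hk)
    have a3 := R'.ultra i₀ j₀ l hij (nj hl) (ni hl)
    rw [R'.symm j₀ i₀] at a2
    exact ⟨R'.mem_cl.2 ⟨Finset.mem_univ _, Or.inr (by omega)⟩, by omega⟩
  obtain ⟨k₁, k₂, hk₁, hk₂, h12⟩ := Par_two R hB hs hC hc hb2 hi
  have out : ∀ k, k ∉ C → R'.μ i₀ k < R'.μ i₀ j₀ := by
    intro k hk
    by_contra hn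
    have hle := not_lt.1 hn
    obtain ⟨l, hl, hkl⟩ : ∃ l, l ∉ C ∧ Par_c R s i₀ k ≠ Par_c R s i₀ l := by
      by_cases e : Par_c R s i₀ k = Par_c R s i₀ k₁
      exacts [⟨k₂, hk₂, e ▸ h12⟩, ⟨k₁, hk₁, e⟩]
    obtain ⟨b1, b2⟩ := step k l hk hl hkl hle
    obtain ⟨x, hx, hx'⟩ := Par_big hc (hB' k)
    by_cases e : Par_c R s i₀ k = Par_c R s i₀ x
    · exact hx' (R'.cl_eq_of_mem b1 ▸ (step l x hl hx (e ▸ hkl.symm) b2).1)
    · exact hx' (step k x hk hx e hle).1
  refine ⟨R'.μ i₀ j₀, by have := out k₁ hk₁; omega,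
    R'.mem_parts.2 ⟨i₀, Finset.mem_univ _, Finset.ext fun k => ?_⟩⟩
  rw [R'.mem_cl]
  refine ⟨fun hk => ?_, fun hk => ⟨Finset.mem_univ _,
    (eq_or_ne i₀ k).imp Eq.symm (hmin i₀ hi k hk)⟩⟩
  by_contra hn
  exact hk.2.elim (fun e => ni hn e.symm) (out k hn).not_ge

end Pool.Agent.Work.MP_677830_co.G
end

-- merged part: Pool.Agent.Work.MP_677830_co.G.Wir
section
/-!
# Wirtinger calculus, Stokes with compact support, change of variables
Unfold dz, dzb; fderiv_mul, fderiv_add; a real linear map L on ℂ satisfies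
L h = h.re • L 1 + h.im • L I. dz_dzb_comm: symmetry of the second derivative
(ContDiffAt.isSymmSndFDerivAt). integral_dz: integral_fderiv-type lemma
integral_bilinear_hasLineDerivAt_right_eq_neg_left_of_integrable with the constant 1, or
integral_mul_fderiv_eq_neg_fderiv_mul_of_integrable. change_var: x ↦ x + h x is injective
(h is 1/2-Lipschitz by the mean value inequality) and surjective (Banach fixed point,
ContractingWith, x ↦ w - h x); integral_image_eq_integral_abs_det_fderiv_smul on univ; the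
determinant of v ↦ α v + β conj v is ‖α‖^2 - ‖β‖^2 (Complex.basisOneI), positive here since
‖dz h‖ + ‖dzb h‖ is the operator norm (or bound each of L 1, L I and use det (1 + L) > 0 directly:
‖1 + dz h‖ ≥ 1/2 ≥ ‖dzb h‖ is enough for the absolute value).
-/

namespace Pool.Agent.Work.MP_677830_co.G

open Filter Topology Polynomial Matrix MeasureTheory
open scoped ComplexConjugate ComplexOrder

variable {f g : ℂ → ℂ} {x : ℂ}

theorem Wir_lin (L : ℂ →L[ℝ] ℂ) (v : ℂ) : L v = v.re * L 1 + v.im * L Complex.I := by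
  conv_lhs => rw [show v = v.re • (1 : ℂ) + v.im • Complex.I by simp]
  rw [map_add, map_smul, map_smul, Complex.real_smul, Complex.real_smul]

theorem Wir_of {L : ℂ →L[ℝ] ℂ} (h : HasFDerivAt f L x) :
    dz f x = (L 1 - Complex.I * L Complex.I) / 2 ∧ dzb f x = (L 1 + Complex.I * L Complex.I) / 2 := by
  rw [dz, dzb, h.fderiv]
  exact ⟨rfl, rfl⟩

theorem fderiv_eq_dz (f : ℂ → ℂ) (x v : ℂ) : fderiv ℝ f x v = dz f x * v + dzb f x * conj v := by
  rw [Wir_lin, dz, dzb]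
  conv_rhs => rw [← Complex.re_add_im v]
  simp only [map_add, map_mul, Complex.conj_ofReal, Complex.conj_I]
  linear_combination (fderiv ℝ f x Complex.I * v.im) * Complex.I_sq

theorem norm_dz_le (f : ℂ → ℂ) (x : ℂ) : ‖dz f x‖ ≤ ‖fderiv ℝ f x‖ ∧ ‖dzb f x‖ ≤ ‖fderiv ℝ f x‖ := by
  have h1 : ‖fderiv ℝ f x 1‖ ≤ ‖fderiv ℝ f x‖ := by simpa using (fderiv ℝ f x).le_opNorm 1
  have h2 : ‖Complex.I * fderiv ℝ f x Complex.I‖ ≤ ‖fderiv ℝ f x‖ := by
    simpa using (fderiv ℝ f x).le_opNorm Complex.I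
  rw [dz, dzb, norm_div, norm_div, Complex.norm_two]
  have h3 := norm_sub_le (fderiv ℝ f x 1) (Complex.I * fderiv ℝ f x Complex.I)
  have h4 := norm_add_le (fderiv ℝ f x 1) (Complex.I * fderiv ℝ f x Complex.I)
  constructor <;> linarith only [h1, h2, h3, h4]

theorem dz_congr (h : f =ᶠ[𝓝 x] g) : dz f x = dz g x ∧ dzb f x = dzb g x := by
  rw [dz, dz, dzb, dzb, h.fderiv_eq]
  exact ⟨rfl, rfl⟩

theorem dz_hol (h : DifferentiableAt ℂ f x) : dz f x = deriv f x ∧ dzb f x = 0 := by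
  obtain ⟨h1, h2⟩ := Wir_of (h.hasDerivAt.hasFDerivAt.restrictScalars ℝ)
  rw [h1, h2]
  simp only [ContinuousLinearMap.coe_restrictScalars', ContinuousLinearMap.toSpanSingleton_apply,
    smul_eq_mul]
  constructor
  · linear_combination (-deriv f x / 2) * Complex.I_sq
  · linear_combination (deriv f x / 2) * Complex.I_sq

theorem dz_add (hf : DifferentiableAt ℝ f x) (hg : DifferentiableAt ℝ g x) :
    dz (fun t => f t + g t) x = dz f x + dz g x ∧
      dzb (fun t => f t + g t) x = dzb f x + dzb g x := by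
  obtain ⟨h1, h2⟩ := Wir_of (hf.hasFDerivAt.fun_add hg.hasFDerivAt)
  rw [h1, h2, dz, dz, dzb, dzb]
  simp only [_root_.add_apply]
  constructor <;> ring

theorem dz_sub (hf : DifferentiableAt ℝ f x) (hg : DifferentiableAt ℝ g x) :
    dz (fun t => f t - g t) x = dz f x - dz g x ∧
      dzb (fun t => f t - g t) x = dzb f x - dzb g x := by
  obtain ⟨h1, h2⟩ := Wir_of (hf.hasFDerivAt.fun_sub hg.hasFDerivAt)
  rw [h1, h2, dz, dz, dzb, dzb]
  simp only [_root_.sub_apply]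
  constructor <;> ring

theorem dz_mul (hf : DifferentiableAt ℝ f x) (hg : DifferentiableAt ℝ g x) :
    dz (fun t => f t * g t) x = dz f x * g x + f x * dz g x ∧
      dzb (fun t => f t * g t) x = dzb f x * g x + f x * dzb g x := by
  obtain ⟨h1, h2⟩ := Wir_of (hf.hasFDerivAt.fun_mul hg.hasFDerivAt)
  rw [h1, h2, dz, dz, dzb, dzb]
  simp only [_root_.add_apply, _root_.smul_apply, smul_eq_mul]
  constructor <;> ring

theorem dz_const_mul (c : ℂ) (hf : DifferentiableAt ℝ f x) :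
    dz (fun t => c * f t) x = c * dz f x ∧ dzb (fun t => c * f t) x = c * dzb f x := by
  obtain ⟨h1, h2⟩ := Wir_of (hf.hasFDerivAt.const_mul c)
  rw [h1, h2, dz, dzb]
  simp only [_root_.smul_apply, smul_eq_mul]
  constructor <;> ring

theorem dz_sum {ι : Type} (s : Finset ι) (F : ι → ℂ → ℂ) (h : ∀ i ∈ s, DifferentiableAt ℝ (F i) x) :
    dz (fun t => ∑ i ∈ s, F i t) x = ∑ i ∈ s, dz (F i) x ∧
      dzb (fun t => ∑ i ∈ s, F i t) x = ∑ i ∈ s, dzb (F i) x := by
  obtain ⟨h1, h2⟩ := Wir_of (HasFDerivAt.fun_sum fun i hi => (h i hi).hasFDerivAt)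
  rw [h1, h2]
  simp only [dz, dzb, _root_.sum_apply, Finset.mul_sum, ← Finset.sum_sub_distrib,
    ← Finset.sum_add_distrib, Finset.sum_div, and_self]

theorem dz_conj (f : ℂ → ℂ) (x : ℂ) : dz (fun t => conj (f t)) x = conj (dzb f x) ∧
    dzb (fun t => conj (f t)) x = conj (dz f x) := by
  have h1 : fderiv ℝ (fun t => conj (f t)) x =
      (Complex.conjCLE : ℂ →L[ℝ] ℂ).comp (fderiv ℝ f x) := Complex.conjCLE.comp_fderiv
  rw [dz, dzb, dz, dzb, h1]
  simp only [ContinuousLinearMap.comp_apply, ContinuousLinearEquiv.coe_coe, Complex.conjCLE_apply,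
    map_div₀, map_add, map_sub, map_mul, Complex.conj_I, map_ofNat]
  constructor <;> ring

/-- Chain rule with a real function of a real valued function. -/
theorem dz_real_comp {φ : ℝ → ℝ} {φ' : ℝ} {h : ℂ → ℝ} (hh : DifferentiableAt ℝ h x)
    (hφ : HasDerivAt φ φ' (h x)) :
    dz (fun t => (φ (h t) : ℂ)) x = φ' * dz (fun t => (h t : ℂ)) x := by
  have h1 := Complex.ofRealCLM.hasFDerivAt.comp x (hφ.comp_hasFDerivAt x hh.hasFDerivAt)
  have h2 := Complex.ofRealCLM.hasFDerivAt.comp x hh.hasFDerivAt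
  refine (Wir_of h1).1.trans (Eq.trans ?_ (congrArg _ (Wir_of h2).1.symm))
  simp only [ContinuousLinearMap.comp_apply, _root_.smul_apply, smul_eq_mul, Complex.ofRealCLM_apply,
    Complex.ofReal_mul]
  ring

theorem contDiff_dz {n : ℕ} (h : ContDiff ℝ (n + 1) f) :
    ContDiff ℝ n (dz f) ∧ ContDiff ℝ n (dzb f) := by
  have h1 : ContDiff ℝ n (fderiv ℝ f) := h.fderiv_right le_rfl
  exact ⟨((h1.clm_apply contDiff_const).sub
      (contDiff_const.mul (h1.clm_apply contDiff_const))).div_const _,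
    ((h1.clm_apply contDiff_const).add
      (contDiff_const.mul (h1.clm_apply contDiff_const))).div_const _⟩

theorem hasCompactSupport_dz (h : HasCompactSupport f) :
    HasCompactSupport (dz f) ∧ HasCompactSupport (dzb f) := by
  exact ⟨(h.fderiv ℝ).comp_left (g := fun L : ℂ →L[ℝ] ℂ => (L 1 - Complex.I * L Complex.I) / 2)
      (by simp),
    (h.fderiv ℝ).comp_left (g := fun L : ℂ →L[ℝ] ℂ => (L 1 + Complex.I * L Complex.I) / 2)
      (by simp)⟩

theorem Wir_d2 (h : ContDiff ℝ 2 f) (x u : ℂ) :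
    HasFDerivAt (fun y => fderiv ℝ f y u) ((fderiv ℝ (fderiv ℝ f) x).flip u) x := by
  have h1 : HasFDerivAt (fderiv ℝ f) (fderiv ℝ (fderiv ℝ f) x) x :=
    ((h.fderiv_right (m := 1) le_rfl).differentiable one_ne_zero x).hasFDerivAt
  simpa using h1.clm_apply (hasFDerivAt_const u x)

theorem dz_dzb_comm (h : ContDiff ℝ 2 f) (x : ℂ) : dzb (dz f) x = dz (dzb f) x := by
  have hs := (h.contDiffAt (x := x)).isSymmSndFDerivAt (by simp) 1 Complex.I
  have e1 : dz f = fun y => (1 / 2 : ℂ) * (fderiv ℝ f y 1 - Complex.I * fderiv ℝ f y Complex.I) := by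
    funext y
    rw [dz]
    ring
  have e2 : dzb f = fun y => (1 / 2 : ℂ) * (fderiv ℝ f y 1 + Complex.I * fderiv ℝ f y Complex.I) := by
    funext y
    rw [dzb]
    ring
  rw [e1, e2,
    (Wir_of (((Wir_d2 h x 1).fun_sub ((Wir_d2 h x Complex.I).const_mul Complex.I)).const_mul _)).2,
    (Wir_of (((Wir_d2 h x 1).fun_add ((Wir_d2 h x Complex.I).const_mul Complex.I)).const_mul _)).1]
  simp only [_root_.add_apply, _root_.sub_apply, _root_.smul_apply, smul_eq_mul, ContinuousLinearMap.flip_apply, hs]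
  ring

theorem Wir_int (h : ContDiff ℝ 1 f) (hc : HasCompactSupport f) (v : ℂ) :
    Integrable (fun x => fderiv ℝ f x v) ∧ ∫ x, fderiv ℝ f x v = 0 := by
  have h1 : Integrable (fun x => fderiv ℝ f x v) :=
    ((h.continuous_fderiv one_ne_zero).clm_apply continuous_const).integrable_of_hasCompactSupport
      (hc.fderiv_apply ℝ v)
  refine ⟨h1, ?_⟩
  have h2 := integral_mul_fderiv_eq_neg_fderiv_mul_of_integrable (μ := (volume : Measure ℂ))
    (f := fun _ : ℂ => (1 : ℂ)) (g := f) (v := v) (by simp) (by simpa using h1)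
    (by simpa using h.continuous.integrable_of_hasCompactSupport hc)
    (fun _ _ => differentiableAt_const _) (fun y _ => h.differentiable one_ne_zero y)
  simpa using h2

theorem integral_dz (h : ContDiff ℝ 1 f) (hc : HasCompactSupport f) : ∫ x, dz f x = 0 := by
  obtain ⟨h1, h2⟩ := Wir_int h hc 1
  obtain ⟨h3, h4⟩ := Wir_int h hc Complex.I
  simp only [dz]
  rw [integral_div, integral_sub h1 (h3.const_mul _), integral_const_mul, h2, h4]
  simp

theorem Wir_det (A : ℂ →L[ℝ] ℂ) :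
    A.det = (A 1).re * (A Complex.I).im - (A Complex.I).re * (A 1).im := by
  rw [ContinuousLinearMap.det, ← LinearMap.det_toMatrix Complex.basisOneI, Matrix.det_fin_two]
  simp [LinearMap.toMatrix_apply]

theorem Wir_det2 (h : ℂ → ℂ) (x : ℂ) : (ContinuousLinearMap.id ℝ ℂ + fderiv ℝ h x).det =
    ‖1 + dz h x‖ ^ 2 - ‖dzb h x‖ ^ 2 := by
  rw [Wir_det, Complex.sq_norm, Complex.sq_norm, Complex.normSq_apply, Complex.normSq_apply, dz, dzb]
  simp
  ring

theorem change_var {h : ℂ → ℂ} (hd : Differentiable ℝ h) (hb : ∀ x, ‖fderiv ℝ h x‖ ≤ 1 / 2)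
    (g : ℂ → ℂ) :
    ∫ x, g x = ∫ x, ((‖1 + dz h x‖ ^ 2 - ‖dzb h x‖ ^ 2 : ℝ) : ℂ) * g (x + h x) := by
  have hL : LipschitzWith (1 / 2) h := lipschitzWith_of_nnnorm_fderiv_le hd fun x => by
    rw [← NNReal.coe_le_coe]
    simpa using hb x
  have hinj : Function.Injective fun x => x + h x := fun x y e => by
    have h1 := hL.dist_le_mul x y
    have h2 : h x - h y = -(x - y) := by linear_combination e
    rw [dist_eq_norm, dist_eq_norm, h2, norm_neg] at h1
    have h3 : ‖x - y‖ ≤ 0 := by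
      push_cast at h1
      linarith only [h1]
    exact sub_eq_zero.1 (norm_le_zero_iff.1 h3)
  have hsur : Function.Surjective fun x => x + h x := fun w => by
    have hc : ContractingWith (1 / 2) fun x => w - h x :=
      ⟨by norm_num, LipschitzWith.of_dist_le_mul fun x y => by
        rw [dist_sub_left]
        exact hL.dist_le_mul x y⟩
    refine ⟨hc.fixedPoint, ?_⟩
    have h1 : w - h hc.fixedPoint = hc.fixedPoint := hc.fixedPoint_isFixedPt
    linear_combination -h1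
  have h1 := integral_image_eq_integral_abs_det_fderiv_smul (μ := (volume : Measure ℂ))
    (f := fun x => x + h x) (f' := fun x => ContinuousLinearMap.id ℝ ℂ + fderiv ℝ h x)
    MeasurableSet.univ
    (fun x _ => ((hasFDerivAt_id x).add (hd x).hasFDerivAt).hasFDerivWithinAt) hinj.injOn g
  rw [Set.image_univ, hsur.range_eq, Measure.restrict_univ] at h1
  rw [h1]
  refine integral_congr_ae (Eventually.of_forall fun x => ?_)
  have h2 := (norm_dz_le h x).1.trans (hb x)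
  have h3 := (norm_dz_le h x).2.trans (hb x)
  have h4 : 1 / 2 ≤ ‖1 + dz h x‖ := by
    have := norm_sub_le (1 + dz h x) (dz h x)
    rw [add_sub_cancel_right, norm_one] at this
    linarith only [h2, this]
  have h5 : ‖dzb h x‖ ^ 2 ≤ ‖1 + dz h x‖ ^ 2 := pow_le_pow_left₀ (norm_nonneg _) (h3.trans h4) 2
  simp only [Wir_det2]
  rw [abs_of_nonneg (sub_nonneg.2 h5), Complex.real_smul]

end Pool.Agent.Work.MP_677830_co.G
end

-- merged part: Pool.Agent.Work.MP_677830_co.G.Pull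
section
/-!
# Pull back by the holomorphic motion
y i = z i 0, δ i s = z i s - y i, X m x = ρ x * eval x (Lagrange.basis A y m) (C1, compact support,
Lipschitz with constant Λ, X m (y i) = [i = m]), h s x = sum δ m s * X m x,
κ i m x = (X m x - [i = m]) / (x - y i), ‖κ‖ ≤ Λ, e i s x = sum over m of δ m s * κ i m x.
x + h s x - z i s = (x - y i)(1 + e i s x) for all x. Choose r so that on the ball all z i, c k l are
differentiable and bounded and the sum of ‖δ m s‖ times Λ is ≤ 1/2 (also bounds ‖fderiv (h s)‖, ‖h s‖).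
g s x = prod (1 + e i s x) ^ (-ν : ℂ), ‖g‖ ≤ 2^n, g * conj g = prod ‖1 + e‖ ^ (-2ν).
a k s x = pv (c s k) (x + h s x) * g s x * (1 + dz (h s) x), b k s x = pv (..) * g s x * dzb (h s) x,
dz (h s) x = sum δ m s * dz (X m) x (dz_sum). change_var gives the last clause since
a conj a' - b conj b' = pv conj pv' * ‖g‖^2 * (‖1 + dz h‖^2 - ‖dzb h‖^2).
Derivative at 0: sum of deriv (z m) 0 * X m x = mo (Lagrange.interpolate_apply).
-/

namespace Pool.Agent.Work.MP_677830_co.G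

open Filter Topology Polynomial Matrix MeasureTheory
open scoped ComplexConjugate ComplexOrder

variable {ι : Type} [DecidableEq ι]

theorem Pull_mo (A : Finset ι) (y : ι → ℂ) {ρ : ℂ → ℂ} (hρ : ContDiff ℝ 3 ρ)
    (hρc : HasCompactSupport ρ) : ∃ (X D E : ι → ℂ → ℂ) (Λ : ι → ℝ), ∀ v,
      Differentiable ℝ (mo A y v ρ) ∧ ∀ x, mo A y v ρ x = ∑ m ∈ A, v m * X m x ∧
        dz (mo A y v ρ) x = ∑ m ∈ A, v m * D m x ∧ dzb (mo A y v ρ) x = ∑ m ∈ A, v m * E m x ∧
        ‖mo A y v ρ x‖ ≤ ∑ m ∈ A, ‖v m‖ * Λ m ∧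
        ‖fderiv ℝ (mo A y v ρ) x‖ ≤ ∑ m ∈ A, ‖v m‖ * Λ m := by
  set X : ι → ℂ → ℂ := fun m x => ρ x * (Lagrange.basis A y m).eval x with hX
  have h1 : ∀ m, ContDiff ℝ 1 (X m) := fun m => (hρ.of_le (by norm_num)).mul
    ((Lagrange.basis A y m).differentiable.contDiff.restrict_scalars ℝ)
  have h2 : ∀ m, HasCompactSupport (X m) := fun m => hρc.mul_right
  have hd : ∀ m x, DifferentiableAt ℝ (X m) x := fun m x => (h1 m).differentiable one_ne_zero x
  choose C hC using fun m => (h1 m).continuous.bounded_above_of_compact_support (h2 m)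
  choose C' hC' using fun m =>
    ((h1 m).continuous_fderiv one_ne_zero).bounded_above_of_compact_support ((h2 m).fderiv ℝ)
  refine ⟨X, fun m => dz (X m), fun m => dzb (X m), fun m => max (C m) (C' m), fun v => ?_⟩
  have e : mo A y v ρ = fun x => ∑ m ∈ A, v m * X m x := by
    funext x
    simp only [mo, hX, Lagrange.interpolate_apply, eval_finsetSum, eval_mul, eval_C,
      Finset.mul_sum]
    exact Finset.sum_congr rfl fun m _ => by ring
  have hF : ∀ x, HasFDerivAt (mo A y v ρ) (∑ m ∈ A, v m • fderiv ℝ (X m) x) x := fun x => by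
    rw [e]
    exact HasFDerivAt.fun_sum fun m _ => (hd m x).hasFDerivAt.const_mul _
  refine ⟨fun x => (hF x).differentiableAt, fun x => ?_⟩
  have hs := dz_sum (x := x) A (fun m t => v m * X m t) fun m _ => (hd m x).const_mul _
  refine ⟨by rw [e], ?_, ?_, ?_, ?_⟩
  · rw [e, hs.1]
    exact Finset.sum_congr rfl fun m _ => (dz_const_mul _ (hd m x)).1
  · rw [e, hs.2]
    exact Finset.sum_congr rfl fun m _ => (dz_const_mul _ (hd m x)).2
  · rw [e]
    refine norm_sum_le_of_le _ fun m _ => ?_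
    rw [norm_mul]
    exact mul_le_mul_of_nonneg_left ((hC m x).trans (le_max_left _ _)) (norm_nonneg _)
  · rw [(hF x).fderiv]
    refine norm_sum_le_of_le _ fun m _ => (norm_smul_le _ _).trans ?_
    exact mul_le_mul_of_nonneg_left ((hC' m x).trans (le_max_right _ _)) (norm_nonneg _)

omit [DecidableEq ι] in
theorem Pull_lin {A : Finset ι} {L : (ι → ℂ) → ℂ} {W : ι → ℂ} (hL : ∀ v, L v = ∑ m ∈ A, v m * W m)
    {δ : ℂ → ι → ℂ} {δ' : ι → ℂ} {s : ℂ} (h : ∀ m ∈ A, HasDerivAt (fun s => δ s m) (δ' m) s) :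
    HasDerivAt (fun s => L (δ s)) (L δ') s := by
  simp only [hL]
  exact HasDerivAt.fun_sum fun m hm => (h m hm).mul_const _

theorem Pull_pv {j : ℕ} {c : ℂ → Fin j → ℂ} {cd : Fin j → ℂ} {u : ℂ → ℂ} {u' s : ℂ}
    (hc : ∀ l, HasDerivAt (fun s => c s l) (cd l) s) (hu : HasDerivAt u u' s) :
    HasDerivAt (fun s => pv (c s) (u s)) (pv cd (u s) + deriv (pv (c s)) (u s) * u') s := by
  have h1 : HasDerivAt (pv (c s)) (∑ l, c s l * (((l : ℕ) : ℂ) * u s ^ ((l : ℕ) - 1))) (u s) :=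
    HasDerivAt.fun_sum fun l _ => (hasDerivAt_pow (l : ℕ) (u s)).const_mul _
  rw [h1.deriv]
  refine (HasDerivAt.fun_sum (u := Finset.univ) fun l _ =>
    (hc l).fun_mul (hu.fun_pow (l : ℕ))).congr_deriv ?_
  rw [pv, Finset.sum_mul, ← Finset.sum_add_distrib]
  exact Finset.sum_congr rfl fun l _ => by ring

theorem Pull_g (ν : ℝ) {A : Finset ι} {e : ι → ℂ → ℂ} {e' : ι → ℂ} {s : ℂ}
    (he : ∀ i ∈ A, HasDerivAt (e i) (e' i) s) (hn : ∀ i ∈ A, ‖e i s‖ ≤ 1 / 2) :
    ∃ g', HasDerivAt (fun s => ∏ i ∈ A, (1 + e i s) ^ ((-ν : ℝ) : ℂ)) g' s ∧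
      ((∀ i ∈ A, e i s = 0) → g' = -ν * ∑ i ∈ A, e' i) := by
  refine ⟨_, HasDerivAt.fun_finsetProd fun i hi => ((he i hi).const_add 1).cpow_const
    (Complex.mem_slitPlane_of_norm_lt_one ((hn i hi).trans_lt (by norm_num))), fun h => ?_⟩
  rw [Finset.mul_sum]
  refine Finset.sum_congr rfl fun i hi => ?_
  rw [Finset.prod_eq_one fun k hk => by rw [h k (Finset.mem_of_mem_erase hk)]; simp, h i hi]
  simp

omit [DecidableEq ι] in
theorem Pull_gn {ν : ℝ} (h0 : 0 < ν) (h1 : ν < 1) {A : Finset ι} {e : ι → ℂ}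
    (hn : ∀ i ∈ A, ‖e i‖ ≤ 1 / 2) :
    ‖∏ i ∈ A, (1 + e i) ^ ((-ν : ℝ) : ℂ)‖ ≤ 2 ^ A.card ∧
      ‖∏ i ∈ A, (1 + e i) ^ ((-ν : ℝ) : ℂ)‖ ^ 2 = ‖∏ i ∈ A, (1 + e i)‖ ^ (-(2 * ν)) := by
  simp only [norm_prod, Complex.norm_cpow_real]
  refine ⟨?_, ?_⟩
  · rw [← Finset.prod_const]
    refine Finset.prod_le_prod (fun i _ => by positivity) fun i hi => ?_
    have h2 : (1 / 2 : ℝ) ≤ ‖1 + e i‖ := by
      have := norm_sub_norm_le (1 : ℂ) (-e i)
      rw [norm_one, norm_neg, sub_neg_eq_add] at this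
      linarith only [this, hn, hi, hn i hi]
    refine (Real.rpow_le_rpow_of_nonpos (by norm_num) h2 (by linarith)).trans ?_
    refine (Real.rpow_le_rpow_of_exponent_ge (z := -1) (by norm_num) (by norm_num)
      (by linarith)).trans (le_of_eq ?_)
    rw [Real.rpow_neg_one]
    norm_num
  · rw [Real.finsetProd_rpow _ _ fun i _ => norm_nonneg _, ← Real.rpow_natCast,
      ← Real.rpow_mul (Finset.prod_nonneg fun i _ => norm_nonneg _)]
    congr 1
    push_cast
    ring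

theorem Pull_meas (f : ℂ → ℂ) : Measurable (dz f) ∧ Measurable (dzb f) :=
  ⟨((measurable_fderiv_apply_const ℝ f 1).sub
      ((measurable_fderiv_apply_const ℝ f Complex.I).const_mul _)).div_const _,
    ((measurable_fderiv_apply_const ℝ f 1).add
      ((measurable_fderiv_apply_const ℝ f Complex.I).const_mul _)).div_const _⟩

theorem pull {ν : ℝ} (h0 : 0 < ν) (h1 : ν < 1) (A : Finset ι) {j : ℕ} (z : ι → ℂ → ℂ)
    (hz : ∀ i ∈ A, AnalyticAt ℂ (z i) 0) (hy : Set.InjOn (fun i => z i 0) A) {α : Type} [Fintype α]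
    (c : ℂ → α → Fin j → ℂ) (hc : ∀ k l, AnalyticAt ℂ (fun s => c s k l) 0) {ρ : ℂ → ℂ}
    (hρ : ContDiff ℝ 3 ρ) (hρc : HasCompactSupport ρ) (hρ1 : ∀ i ∈ A, ρ (z i 0) = 1) :
    ∃ r > 0, ∃ (K : ℝ) (a b : α → ℂ → ℂ → ℂ),
      (∀ k x, DifferentiableOn ℂ (fun s => a k s x) (Metric.ball 0 r) ∧
        DifferentiableOn ℂ (fun s => b k s x) (Metric.ball 0 r)) ∧
      (∀ k, ∀ s ∈ Metric.ball (0 : ℂ) r, Measurable (a k s) ∧ Measurable (b k s) ∧
        ∀ x, ‖a k s x‖ ≤ K * (1 + ‖x‖) ^ (j - 1) ∧ ‖b k s x‖ ≤ K * (1 + ‖x‖) ^ (j - 1)) ∧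
      (∀ k x, a k 0 x = pv (c 0 k) x ∧ b k 0 x = 0) ∧
      (∀ k x, deriv (fun s => a k s x) 0 =
          aone ν A (fun i => z i 0) (fun i => deriv (z i) 0) ρ (c 0 k)
            (fun l => deriv (fun s => c s k l) 0) x ∧
        deriv (fun s => b k s x) 0 =
          bone A (fun i => z i 0) (fun i => deriv (z i) 0) ρ (c 0 k) x) ∧
      ∀ s ∈ Metric.ball (0 : ℂ) r, Set.InjOn (fun i => z i s) A ∧ ∀ k l,
        ∫ x : ℂ, pv (c s k) x * conj (pv (c s l) x) * (wt ν A (fun i => z i s) x : ℂ) =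
          ∫ x : ℂ, (a k s x * conj (a l s x) - b k s x * conj (b l s x)) *
            (wt ν A (fun i => z i 0) x : ℂ) := by
  set y : ι → ℂ := fun i => z i 0 with hyd
  obtain ⟨X, D, E, Λ, hmo⟩ := Pull_mo A y hρ hρc
  set δ : ℂ → ι → ℂ := fun s i => z i s - y i with hδ
  set h : ℂ → ℂ → ℂ := fun s => mo A y (δ s) ρ with hh
  set e : ι → ℂ → ℂ → ℂ := fun i x s => (h s x - δ s i) / (x - y i) with he
  set g : ℂ → ℂ → ℂ := fun s x => ∏ i ∈ A, (1 + e i x s) ^ ((-ν : ℝ) : ℂ) with hg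
  set B : ℝ := ∑ k, ∑ l, (‖c 0 k l‖ + 1) with hB
  have hnode : ∀ s, ∀ i ∈ A, h s (y i) = δ s i := fun s i hi => by
    simp only [hh, mo]
    rw [Lagrange.eval_interpolate_at_node _ hy hi, hρ1 i hi, one_mul]
  have hδ0 : δ 0 = fun _ => 0 := funext fun i => sub_self _
  have hz0 : ∀ x, h 0 x = 0 ∧ dz (h 0) x = 0 ∧ dzb (h 0) x = 0 := fun x => by
    obtain ⟨a1, a2, a3, -⟩ := (hmo (δ 0)).2 x
    simp only [hh]
    rw [a1, a2, a3, hδ0]
    simp
  have he0 : ∀ i x, e i x 0 = 0 := fun i x => by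
    simp only [he]
    rw [(hz0 x).1, hδ0, sub_self, zero_div]
  have hg0 : ∀ x, g 0 x = 1 := fun x => Finset.prod_eq_one fun i _ => by rw [he0]; simp
  have E1 : ∀ᶠ s in 𝓝 (0 : ℂ), ∀ i ∈ A, AnalyticAt ℂ (z i) s :=
    (eventually_all_finset A).mpr fun i hi => (hz i hi).eventually_analyticAt
  have E2 : ∀ᶠ s in 𝓝 (0 : ℂ), ∀ k l, AnalyticAt ℂ (fun s => c s k l) s ∧
      ‖c s k l‖ ≤ ‖c 0 k l‖ + 1 :=
    eventually_all.mpr fun k => eventually_all.mpr fun l => (hc k l).eventually_analyticAt.and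
      ((hc k l).continuousAt.norm.eventually (eventually_le_nhds (lt_add_one _)))
  have E3 : ∀ᶠ s in 𝓝 (0 : ℂ), ∑ m ∈ A, ‖δ s m‖ * Λ m ≤ 1 / 2 := by
    have : Tendsto (fun s => ∑ m ∈ A, ‖δ s m‖ * Λ m) (𝓝 0) (𝓝 (∑ m ∈ A, ‖δ 0 m‖ * Λ m)) :=
      tendsto_finsetSum _ fun m hm =>
        (((hz m hm).continuousAt.sub continuousAt_const).norm.tendsto).mul_const _
    refine this.eventually (eventually_le_nhds ?_)
    rw [hδ0]
    simp
  obtain ⟨r, hr, H⟩ := Metric.eventually_nhds_iff_ball.mp (E1.and (E2.and E3))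
  have hf : ∀ s ∈ Metric.ball (0 : ℂ) r, ∀ x, ‖h s x‖ ≤ 1 / 2 ∧ ‖fderiv ℝ (h s) x‖ ≤ 1 / 2 :=
    fun s hs x => ⟨((hmo _).2 x).2.2.2.1.trans (H s hs).2.2, ((hmo _).2 x).2.2.2.2.trans (H s hs).2.2⟩
  have hlip : ∀ s ∈ Metric.ball (0 : ℂ) r, ∀ x x', ‖h s x - h s x'‖ ≤ 1 / 2 * ‖x - x'‖ :=
    fun s hs x x' => Convex.norm_image_sub_le_of_norm_fderiv_le (𝕜 := ℝ) (fun t _ => (hmo _).1 t)
      (fun t _ => (hf s hs t).2) convex_univ (Set.mem_univ _) (Set.mem_univ _)
  have hen : ∀ s ∈ Metric.ball (0 : ℂ) r, ∀ x, ∀ i ∈ A, ‖e i x s‖ ≤ 1 / 2 := fun s hs x i hi => by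
    simp only [he]
    rw [norm_div, ← hnode s i hi]
    exact div_le_of_le_mul₀ (norm_nonneg _) (by norm_num) (hlip s hs x _)
  have HD : ∀ s ∈ Metric.ball (0 : ℂ) r, ∀ k x, ∃ P' : ℂ,
      HasDerivAt (fun s => pv (c s k) (x + h s x) * g s x) P' s ∧
      HasDerivAt (fun s => dz (h s) x) (dz (mo A y (fun i => deriv (z i) s) ρ) x) s ∧
      HasDerivAt (fun s => dzb (h s) x) (dzb (mo A y (fun i => deriv (z i) s) ρ) x) s ∧
      (s = 0 → P' = pv (fun l => deriv (fun s => c s k l) 0) x +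
        deriv (pv (c 0 k)) x * mo A y (fun i => deriv (z i) 0) ρ x - ν * (pv (c 0 k) x *
          ∑ i ∈ A, (mo A y (fun i => deriv (z i) 0) ρ x - deriv (z i) 0) / (x - y i))) := by
    intro s hs k x
    have d1 : ∀ m ∈ A, HasDerivAt (fun s => δ s m) (deriv (z m) s) s := fun m hm =>
      ((H s hs).1 m hm).differentiableAt.hasDerivAt.sub_const _
    have d2 : HasDerivAt (fun s => h s x) (mo A y (fun i => deriv (z i) s) ρ x) s :=
      Pull_lin (L := fun v => mo A y v ρ x) (fun v => ((hmo v).2 x).1) d1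
    obtain ⟨g', g1, g2⟩ := Pull_g ν (e := fun i => e i x)
      (fun i hi => (d2.fun_sub (d1 i hi)).div_const (x - y i)) (hen s hs x)
    refine ⟨_, (Pull_pv (fun l => ((H s hs).2.1 k l).1.differentiableAt.hasDerivAt)
      (d2.const_add x)).fun_mul g1,
      Pull_lin (L := fun v => dz (mo A y v ρ) x) (fun v => ((hmo v).2 x).2.1) d1,
      Pull_lin (L := fun v => dzb (mo A y v ρ) x) (fun v => ((hmo v).2 x).2.2.1) d1, ?_⟩
    rintro rfl
    rw [g2 fun i _ => he0 i x, hg0, (hz0 x).1, add_zero]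
    ring
  refine ⟨r, hr, B * 2 ^ (j - 1) * 2 ^ A.card * 2,
    fun k s x => pv (c s k) (x + h s x) * g s x * (1 + dz (h s) x),
    fun k s x => pv (c s k) (x + h s x) * g s x * dzb (h s) x, fun k x => ⟨fun s hs => ?_,
    fun s hs => ?_⟩, fun k s hs => ?_, fun k x => ?_, fun k x => ?_, fun s hs => ⟨?_, fun k l => ?_⟩⟩
  · obtain ⟨P', a1, a2, -⟩ := HD s hs k x
    exact (a1.fun_mul (a2.const_add 1)).differentiableAt.differentiableWithinAt
  · obtain ⟨P', a1, -, a3, -⟩ := HD s hs k x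
    exact (a1.fun_mul a3).differentiableAt.differentiableWithinAt
  · have mh : Measurable (h s) := (hmo _).1.continuous.measurable
    have mP : Measurable fun x => pv (c s k) (x + h s x) * g s x :=
      ((continuous_pv _).measurable.comp (measurable_id.add mh)).mul
        (Finset.measurable_prod _ fun i _ => (((mh.sub_const _).div
          (measurable_id.sub_const _)).const_add 1).pow_const _)
    refine ⟨mP.mul ((Pull_meas _).1.const_add 1), mP.mul (Pull_meas _).2, fun x => ?_⟩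
    have b1 : ∑ l, ‖c s k l‖ ≤ B :=
      (Finset.sum_le_sum fun l _ => ((H s hs).2.1 k l).2).trans
        (Finset.single_le_sum (f := fun k => ∑ l, (‖c 0 k l‖ + 1))
          (fun k _ => by positivity) (Finset.mem_univ k))
    have b2 : (1 + ‖x + h s x‖) ^ (j - 1) ≤ 2 ^ (j - 1) * (1 + ‖x‖) ^ (j - 1) := by
      rw [← mul_pow]
      refine pow_le_pow_left₀ (by positivity) ?_ _
      linarith only [h0, h1, hf, hs, norm_add_le x (h s x), (hf s hs x).1, norm_nonneg x]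
    have hB0 : 0 ≤ B := by positivity
    have b3 : ‖pv (c s k) (x + h s x) * g s x‖ ≤
        B * (2 ^ (j - 1) * (1 + ‖x‖) ^ (j - 1)) * 2 ^ A.card := by
      rw [norm_mul]
      exact mul_le_mul ((norm_pv_le _ _).trans (mul_le_mul b1 b2 (by positivity) hB0))
        (Pull_gn h0 h1 (hen s hs x)).1 (norm_nonneg _) (by positivity)
    have b4 : ‖1 + dz (h s) x‖ ≤ 2 := by
      linarith only [h0, h1, hf, hs, norm_add_le 1 (dz (h s) x), (norm_dz_le (h s) x).1, (hf s hs x).2,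
        norm_one (α := ℂ)]
    have b5 : ‖dzb (h s) x‖ ≤ 2 := by linarith only [h0, h1, hf, hs, (norm_dz_le (h s) x).2, (hf s hs x).2]
    constructor
    · rw [norm_mul]
      exact (mul_le_mul b3 b4 (norm_nonneg _) (by positivity)).trans (le_of_eq (by ring))
    · rw [norm_mul]
      exact (mul_le_mul b3 b5 (norm_nonneg _) (by positivity)).trans (le_of_eq (by ring))
  · simp only [(hz0 x).1, (hz0 x).2.1, (hz0 x).2.2, hg0, add_zero, mul_one, mul_zero, and_self]
  · obtain ⟨P', a1, a2, a3, a4⟩ := HD 0 (Metric.mem_ball_self hr) k x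
    rw [(a1.fun_mul (a2.const_add 1)).deriv, (a1.fun_mul a3).deriv, a4 rfl, aone, bone]
    simp only [(hz0 x).1, (hz0 x).2.1, (hz0 x).2.2, hg0, add_zero, mul_one, mul_zero, zero_add,
      and_true]
    ring
  · intro i hi k hk eq
    refine hy hi hk ?_
    have a1 := hlip s hs (y i) (y k)
    have a2 : h s (y i) - h s (y k) = -(y i - y k) := by
      rw [hnode s i hi, hnode s k hk]
      simp only [hδ]
      linear_combination eq
    rw [a2, norm_neg] at a1
    exact sub_eq_zero.mp (norm_le_zero_iff.mp (by linarith only [a1]))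
  · rw [change_var (hmo (δ s)).1 fun x => (hf s hs x).2]
    refine integral_congr_ae (Eventually.of_forall fun x => ?_)
    have a1 : ∏ i ∈ A, (x + h s x - z i s) = (∏ i ∈ A, (x - y i)) * ∏ i ∈ A, (1 + e i x s) := by
      rw [← Finset.prod_mul_distrib]
      refine Finset.prod_congr rfl fun i hi => ?_
      by_cases hx : x = y i
      · rw [hx, hnode s i hi]
        simp [hδ]
      · simp only [he, hδ]
        field_simp [sub_ne_zero.mpr hx]
        ring
    have a2 : wt ν A (fun i => z i s) (x + h s x) = wt ν A y x * ‖g s x‖ ^ 2 := by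
      rw [wt, wt, a1, norm_mul, Real.mul_rpow (norm_nonneg _) (norm_nonneg _),
        (Pull_gn h0 h1 (hen s hs x)).2]
    show _ * (_ * _ * ((wt ν A (fun i => z i s) (x + h s x) : ℝ) : ℂ)) = _
    rw [a2]
    simp only [map_mul]
    push_cast
    rw [← Complex.mul_conj', ← Complex.mul_conj', ← Complex.mul_conj']
    ring

end Pool.Agent.Work.MP_677830_co.G
end

-- merged part: Pool.Agent.Work.MP_677830_co.G.Sel
section
/-!
# Selection of an interpolating subset
sel: row a = (ζ a ^ α * ω a ^ β) in Ix q → ℂ. The rows span (hn: a functional vanishing on all rows is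
zero); the rows in J are independent (Vandermonde in ζ, or Lagrange polynomials of degree < q);
extend to a basis inside the rows (LinearIndepOn.extend / exists_linearIndepOn_extension or
Basis.extend), it has q^2 elements; index it by Ix q; determinant nonzero.
curve: F = sum f (α, β) (Zp - c0)^(q-1-α) (Wp - c0)^(q-1-β), Zp = (X0 + I X1 - z0) / s,
Wp = (X0 - I X1 - w0) / s'. Total degree ≤ 2q. If F = 0 then for all ζ, ω ≠ 0 (choose x, y with
Zp - c0 = 1/ζ, Wp - c0 = 1/ω) the sum of f ζ^α ω^β vanishes, so f = 0 (polynomial identity in two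
steps, infinitely many roots).
real_curve: real or imaginary part of the coefficients (one of them is nonzero).
-/

namespace Pool.Agent.Work.MP_677830_co.G

open Filter Topology Polynomial Matrix MeasureTheory
open scoped ComplexConjugate ComplexOrder

theorem sel {q : ℕ} {κ : Type} [Fintype κ] [DecidableEq κ] (ζ ω : κ → ℂ)
    (hn : ∀ f : Ix q → ℂ, (∀ a, ∑ x, f x * (ζ a ^ (x.1 : ℕ) * ω a ^ (x.2 : ℕ)) = 0) → f = 0)
    (J : Finset κ) (hJ : J.card ≤ q) (hi : Set.InjOn ζ J) :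
    ∃ e : Ix q ↪ κ, (∀ a ∈ J, ∃ i, e i = a) ∧ del q (fun i => ζ (e i)) (fun i => ω (e i)) ≠ 0 := by
  classical
  let r : κ → Ix q → ℂ := fun a x => ζ a ^ (x.1 : ℕ) * ω a ^ (x.2 : ℕ)
  have h1 : LinearIndepOn ℂ r J := by
    refine (linearIndependent_equiv (f := fun a : J => r a) J.equivFin.symm).1
      (Fintype.linearIndependent_iff.2 fun g hg => ?_)
    refine congrFun (eq_zero_of_forall_pow_sum_mul_pow_eq_zero
      (f := fun j => ζ (J.equivFin.symm j)) (fun j j' h => J.equivFin.symm.injective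
        (Subtype.ext (hi (J.equivFin.symm j).2 (J.equivFin.symm j').2 h))) fun i => ?_)
    have h := congrFun hg (⟨i, i.2.trans_le hJ⟩, ⟨0, (Nat.zero_le _).trans_lt (i.2.trans_le hJ)⟩)
    simpa [r] using h
  obtain ⟨b, -, hJb, hsp, hb⟩ := exists_linearIndepOn_extension h1 (Set.subset_univ _)
  have h2 : ⊤ ≤ Submodule.span ℂ (Set.range fun a : b => r a) := by
    by_contra h
    obtain ⟨φ, h0, hφ⟩ := Submodule.exists_le_ker_of_lt_top _
      (lt_top_iff_ne_top.2 fun e => h e.ge)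
    rw [← Set.image_eq_range] at hφ
    have h3 := hn (fun x => φ fun j => if x = j then 1 else 0) fun a => by
      have h4 : φ (r a) = 0 := hφ (hsp ⟨a, Set.mem_univ a, rfl⟩)
      rw [LinearMap.pi_apply_eq_sum_univ] at h4
      exact (Finset.sum_congr rfl fun x _ => mul_comm _ _).trans h4
    refine h0 (LinearMap.ext fun v => ?_)
    rw [LinearMap.pi_apply_eq_sum_univ]
    exact Finset.sum_eq_zero fun x _ => smul_eq_zero_of_right _ (congrFun h3 x)
  have h3 : Fintype.card (Ix q) = Fintype.card b := by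
    rw [← Module.finrank_eq_card_basis (Module.Basis.mk hb h2), Module.finrank_fintype_fun_eq_card]
  let e := Fintype.equivOfCardEq h3
  refine ⟨e.toEmbedding.trans (Function.Embedding.subtype _), fun a ha =>
    ⟨e.symm ⟨a, hJb ha⟩, congrArg Subtype.val (e.apply_symm_apply _)⟩, ?_⟩
  exact ((isUnit_iff_isUnit_det _).1 (linearIndependent_rows_iff_isUnit.1
    (hb.linearIndependent.comp e e.injective))).ne_zero

theorem Sel_poly {q : ℕ} (g : Fin q → ℂ) (h : ∀ u : ℂ, ∑ i, g i * u ^ (i : ℕ) = 0) : g = 0 :=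
  eq_zero_of_forall_index_sum_mul_pow_eq_zero (f := fun j => ((j : ℕ) : ℂ))
    (fun _ _ e => Fin.ext (Nat.cast_injective (R := ℂ) e)) fun _ => h _

theorem Sel_rev {q : ℕ} {u : ℂ} (hu : u ≠ 0) (i : Fin q) :
    u ^ (i.rev : ℕ) = u⁻¹ ^ (i : ℕ) * u ^ (q - 1) := by
  have h : q - 1 = i + (i.rev : ℕ) := by
    have := i.2
    rw [Fin.val_rev]
    omega
  rw [h, pow_add, ← mul_assoc, ← mul_pow, inv_mul_cancel₀ hu, one_pow, one_mul]

/-- An affine polynomial. -/
noncomputable def Sel_lin (a b c d : ℂ) : MvPolynomial (Fin 2) ℂ :=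
  MvPolynomial.C a * (MvPolynomial.X 0 + MvPolynomial.C b * MvPolynomial.X 1 - MvPolynomial.C c) -
    MvPolynomial.C d

theorem Sel_eval (a b c d x y : ℂ) :
    MvPolynomial.eval ![x, y] (Sel_lin a b c d) = a * (x + b * y - c) - d := by
  simp [Sel_lin]

theorem Sel_deg {q : ℕ} (a b c d : ℂ) (i : Fin q) :
    (Sel_lin a b c d ^ (i : ℕ)).totalDegree ≤ q := by
  have h : (Sel_lin a b c d).totalDegree ≤ 1 := by
    refine (MvPolynomial.totalDegree_sub_C_le _ _).trans ((MvPolynomial.totalDegree_mul _ _).trans ?_)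
    rw [MvPolynomial.totalDegree_C, zero_add]
    refine (MvPolynomial.totalDegree_sub_C_le _ _).trans ((MvPolynomial.totalDegree_add _ _).trans
      (max_le (MvPolynomial.totalDegree_X _).le ((MvPolynomial.totalDegree_mul _ _).trans ?_)))
    rw [MvPolynomial.totalDegree_C, zero_add, MvPolynomial.totalDegree_X]
  exact (MvPolynomial.totalDegree_pow _ _).trans ((Nat.mul_le_mul_left _ h).trans
    ((mul_one _).le.trans i.2.le))

theorem curve {q : ℕ} (f : Ix q → ℂ) (hf : f ≠ 0) (z0 w0 c0 : ℂ) {s s' : ℂ} (hs : s ≠ 0)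
    (hs' : s' ≠ 0) : ∃ F : MvPolynomial (Fin 2) ℂ, F ≠ 0 ∧ F.totalDegree ≤ 2 * q ∧ ∀ x y : ℂ,
      (x + Complex.I * y - z0) / s ≠ c0 → (x - Complex.I * y - w0) / s' ≠ c0 →
      ∑ e, f e * (((x + Complex.I * y - z0) / s - c0)⁻¹ ^ (e.1 : ℕ) *
        ((x - Complex.I * y - w0) / s' - c0)⁻¹ ^ (e.2 : ℕ)) = 0 →
      MvPolynomial.eval ![x, y] F = 0 := by
  refine ⟨∑ e, MvPolynomial.C (f e) * (Sel_lin s⁻¹ Complex.I z0 c0 ^ (e.1.rev : ℕ) *
    Sel_lin s'⁻¹ (-Complex.I) w0 c0 ^ (e.2.rev : ℕ)), fun h => hf ?_,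
    MvPolynomial.totalDegree_finsetSum_le fun e _ => ?_, fun x y hx hy h => ?_⟩
  · have h1 : ∀ u v : ℂ, ∑ α : Fin q, (∑ β : Fin q, f (α.rev, β.rev) * v ^ (β : ℕ)) * u ^ (α : ℕ)
        = 0 := by
      intro u v
      have h2 := congrArg (MvPolynomial.eval ![(s * (u + c0) + z0 + (s' * (v + c0) + w0)) / 2,
        -Complex.I * (s * (u + c0) + z0 - (s' * (v + c0) + w0)) / 2]) h
      have h3 : s⁻¹ * ((s * (u + c0) + z0 + (s' * (v + c0) + w0)) / 2 + Complex.I *
          (-Complex.I * (s * (u + c0) + z0 - (s' * (v + c0) + w0)) / 2) - z0) - c0 = u := by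
        field_simp
        linear_combination (-(s * (u + c0) + z0 - (s' * (v + c0) + w0))) * Complex.I_sq
      have h4 : s'⁻¹ * ((s * (u + c0) + z0 + (s' * (v + c0) + w0)) / 2 + -Complex.I *
          (-Complex.I * (s * (u + c0) + z0 - (s' * (v + c0) + w0)) / 2) - w0) - c0 = v := by
        field_simp
        linear_combination (s * (u + c0) + z0 - (s' * (v + c0) + w0)) * Complex.I_sq
      simp only [map_sum, map_mul, map_pow, MvPolynomial.eval_C, Sel_eval, h3, h4, map_zero] at h2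
      rw [← h2, ← Equiv.sum_comp (Fin.revPerm.prodCongr Fin.revPerm), Fintype.sum_prod_type]
      simp only [Equiv.prodCongr_apply, Prod.map, Fin.revPerm_apply, Fin.rev_rev, Finset.sum_mul]
      exact Finset.sum_congr rfl fun α _ => Finset.sum_congr rfl fun β _ => by ring
    funext e
    have h2 := congrFun (Sel_poly _ fun v => congrFun (Sel_poly _ fun u => h1 u v) e.1.rev) e.2.rev
    simpa using h2
  · refine (MvPolynomial.totalDegree_mul _ _).trans ?_
    rw [MvPolynomial.totalDegree_C, zero_add, two_mul]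
    exact (MvPolynomial.totalDegree_mul _ _).trans (add_le_add (Sel_deg _ _ _ _ _) (Sel_deg _ _ _ _ _))
  · have h3 : s⁻¹ * (x + Complex.I * y - z0) - c0 = (x + Complex.I * y - z0) / s - c0 := by ring
    have h4 : s'⁻¹ * (x + -Complex.I * y - w0) - c0 = (x - Complex.I * y - w0) / s' - c0 := by ring
    simp only [map_sum, map_mul, map_pow, MvPolynomial.eval_C, Sel_eval, h3, h4]
    have h5 := congrArg (· * (((x + Complex.I * y - z0) / s - c0) ^ (q - 1) *
      ((x - Complex.I * y - w0) / s' - c0) ^ (q - 1))) h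
    simp only [zero_mul, Finset.sum_mul] at h5
    rw [← h5]
    refine Finset.sum_congr rfl fun e _ => ?_
    rw [Sel_rev (sub_ne_zero.2 hx), Sel_rev (sub_ne_zero.2 hy)]
    ring

theorem real_curve (F : MvPolynomial (Fin 2) ℂ) (hF : F ≠ 0) :
    ∃ G : MvPolynomial (Fin 2) ℝ, G ≠ 0 ∧ G.totalDegree ≤ F.totalDegree ∧ ∀ x y : ℝ,
      MvPolynomial.eval ![(x : ℂ), (y : ℂ)] F = 0 → MvPolynomial.eval ![x, y] G = 0 := by
  classical
  have key : ∀ φ : ℂ →ₗ[ℝ] ℝ, ∃ G : MvPolynomial (Fin 2) ℝ, (∀ m, G.coeff m = φ (F.coeff m)) ∧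
      G.totalDegree ≤ F.totalDegree ∧ ∀ x y : ℝ,
      MvPolynomial.eval ![(x : ℂ), (y : ℂ)] F = 0 → MvPolynomial.eval ![x, y] G = 0 := by
    intro φ
    have h1 : ∀ m, (∑ d ∈ F.support, MvPolynomial.monomial d (φ (F.coeff d))).coeff m =
        φ (F.coeff m) := by
      intro m
      simp only [MvPolynomial.coeff_sum, MvPolynomial.coeff_monomial, Finset.sum_ite_eq']
      split_ifs with h
      · rfl
      · rw [MvPolynomial.notMem_support_iff.1 h, map_zero]
    refine ⟨_, h1, Finset.sup_mono fun m hm => ?_, fun x y h => ?_⟩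
    · rw [MvPolynomial.mem_support_iff] at hm ⊢
      exact fun h => hm (by rw [h1, h, map_zero])
    · rw [MvPolynomial.eval_eq'] at h
      rw [← φ.map_zero, ← h, map_sum, map_sum]
      refine Finset.sum_congr rfl fun d _ => ?_
      rw [MvPolynomial.eval_monomial, Finsupp.prod_fintype _ _ fun _ => pow_zero _, mul_comm,
        ← smul_eq_mul, ← φ.map_smul, Complex.real_smul, mul_comm]
      simp
  obtain ⟨m, hm⟩ := MvPolynomial.ne_zero_iff.1 hF
  by_cases h : (F.coeff m).re = 0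
  · obtain ⟨G, h1, h2⟩ := key Complex.imLm
    exact ⟨G, MvPolynomial.ne_zero_iff.2 ⟨m, fun e => hm (Complex.ext h ((h1 m).symm.trans e))⟩, h2⟩
  · obtain ⟨G, h1, h2⟩ := key Complex.reLm
    exact ⟨G, MvPolynomial.ne_zero_iff.2 ⟨m, fun e => h ((h1 m).symm.trans e)⟩, h2⟩

end Pool.Agent.Work.MP_677830_co.G
end
end

-- merged part: Pool.Agent.Work.MP_677830_co.G.An
section
-- merged part: Pool.Agent.Work.MP_677830_co.G.Sm
section
/-!
# The weak sub-mean property and the disc inequality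
sm_re: f (t + s) = f t + s f1 + s^2 f2 + O(s^3) (AnalyticAt, or dslope three times); the four point sum
kills s and s^2. sm_log: near t, log ‖f s‖ = log ‖f t‖ + re (Complex.log (f s / f t)), analytic.
sm_max: at an interior maximum of φ + η ‖·‖^2 the four point sum of ‖·‖^2 exceeds 4 ‖t‖^2 by 4 ε^2.
maxp: if φ 0 > B take η small; ψ = φ + η ‖·‖^2 tends to -∞ at V; remove small open discs around V where
ψ < ψ 0; on the remaining compact set ψ attains its maximum at a point which is neither on the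
circle nor (by the choice of the discs, it is a local maximum) excluded by sm_max.
harm_approx: span_fourier_closure_eq_top (AddCircle) or Stone-Weierstrass on the circle: a real
continuous function on the circle is uniformly close to re of a trigonometric polynomial, and on the
circle conj t = r^2 / t, so re (a t^(-n)) = re (conj a t^n / r^(2n)).
disc: fix κ v < E v, h = Ψ - sum κ v log ‖t - v‖, approximate h on the circle by re Q within δ; maxp for
h - re Q; circle average of re Q is re Q 0, of log ‖t - v‖ is log r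
(circleAverage_log_norm_sub_const_of_mem_closedBall); let δ → 0, κ → E (log (r/‖v‖) ≥ 0).
-/

namespace Pool.Agent.Work.MP_677830_co.G

open Filter Topology Polynomial Matrix MeasureTheory
open scoped ComplexConjugate ComplexOrder

variable {φ ψ : ℂ → ℝ} {t : ℂ}

theorem SM.add (h : SM φ t) (h' : SM ψ t) : SM (fun s => φ s + ψ s) t := by
  intro η hη
  filter_upwards [h (η / 2) (half_pos hη), h' (η / 2) (half_pos hη)] with ε h1 h2
  linarith only [h1, h2]

theorem SM.const_mul (h : SM φ t) {c : ℝ} (hc : 0 ≤ c) : SM (fun s => c * φ s) t := by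
  intro η hη
  filter_upwards [h (η / (c + 1)) (by positivity)] with ε h1
  have h2 := mul_le_mul_of_nonneg_left h1 hc
  have h3 : c * (η / (c + 1)) ≤ η := by
    rw [← mul_div_assoc, div_le_iff₀ (by positivity)]
    linarith only [hη]
  have h4 := mul_le_mul_of_nonneg_right h3 (sq_nonneg ε)
  linarith only [h2, h4]

theorem sm_const (c : ℝ) (t : ℂ) : SM (fun _ => c) t := by
  intro η hη
  refine Eventually.of_forall fun ε => ?_
  have := mul_nonneg hη.le (sq_nonneg ε)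
  linarith

theorem sm_sum {ι : Type} (s : Finset ι) {F : ι → ℂ → ℝ} (h : ∀ i ∈ s, SM (F i) t) :
    SM (fun x => ∑ i ∈ s, F i x) t := by
  classical
  induction s using Finset.induction_on with
  | empty => exact sm_const 0 t
  | insert i s hi ih =>
    simp only [Finset.sum_insert hi]
    exact (h i (Finset.mem_insert_self i s)).add (ih fun j hj => h j (Finset.mem_insert_of_mem hj))

theorem Sm_tend (t : ℂ) : Tendsto (fun ε : ℝ => t + ε) (𝓝[>] 0) (𝓝 t) ∧
    Tendsto (fun ε : ℝ => t + ε * Complex.I) (𝓝[>] 0) (𝓝 t) ∧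
    Tendsto (fun ε : ℝ => t - ε) (𝓝[>] 0) (𝓝 t) ∧
    Tendsto (fun ε : ℝ => t - ε * Complex.I) (𝓝[>] 0) (𝓝 t) := by
  refine ⟨?_, ?_, ?_, ?_⟩ <;>
    exact (Continuous.tendsto' (by fun_prop) 0 t (by simp)).mono_left nhdsWithin_le_nhds

theorem SM.congr (h : SM φ t) (e : φ =ᶠ[𝓝 t] ψ) : SM ψ t := by
  intro η hη
  obtain ⟨t1, t2, t3, t4⟩ := Sm_tend t
  filter_upwards [h η hη, t1.eventually e, t2.eventually e, t3.eventually e, t4.eventually e]
    with ε h0 h1 h2 h3 h4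
  rwa [← h1, ← h2, ← h3, ← h4, ← e.self_of_nhds]

theorem sm_shift (a : ℂ) : SM (fun s => φ (s + a)) t ↔ SM φ (t + a) := by
  simp only [SM, add_right_comm t _ a, sub_add_eq_add_sub]

theorem sm_re {f : ℂ → ℂ} (hf : AnalyticAt ℂ f t) : SM (fun s => (f s).re) t := by
  have h0 : AnalyticAt ℂ (fun s => f (s + t)) 0 :=
    hf.comp_of_eq (analyticAt_id.add analyticAt_const) (zero_add t)
  rw [← zero_add t, ← sm_shift (φ := fun s => (f s).re)]
  obtain ⟨F, hF, e⟩ := h0.exists_eq_sum_add_pow_mul 2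
  obtain ⟨a, b, e⟩ : ∃ a b : ℂ, ∀ z, f (z + t) = a + z * b + z ^ 2 * F z :=
    ⟨iteratedDeriv 0 (fun s => f (s + t)) 0, iteratedDeriv 1 (fun s => f (s + t)) 0, fun z => by
      rw [e z, Finset.sum_range_succ, Finset.sum_range_one]
      simp⟩
  intro η hη
  obtain ⟨t1, t2, t3, t4⟩ := Sm_tend 0
  have c := hF.continuousAt.tendsto
  have l := (Complex.continuous_re.tendsto _).comp
    ((((c.comp t1).sub (c.comp t2)).add (c.comp t3)).sub (c.comp t4))
  rw [sub_self, zero_add, sub_self, Complex.zero_re] at l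
  filter_upwards [l.eventually (lt_mem_nhds (neg_lt_zero.2 hη))] with ε h
  have h1 : f (0 + ε + t) + f (0 + ε * Complex.I + t) + f (0 - ε + t) + f (0 - ε * Complex.I + t) =
      ((4 : ℝ) : ℂ) * f (0 + t) + ((ε ^ 2 : ℝ) : ℂ) *
        (F (0 + ε) - F (0 + ε * Complex.I) + F (0 - ε) - F (0 - ε * Complex.I)) := by
    simp only [e]
    push_cast
    linear_combination (ε : ℂ) ^ 2 * (F (0 + ε * Complex.I) + F (0 - ε * Complex.I)) * Complex.I_sq
  have h2 := congrArg Complex.re h1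
  rw [Complex.add_re, Complex.add_re, Complex.add_re, Complex.add_re, Complex.re_ofReal_mul,
    Complex.re_ofReal_mul] at h2
  have h3 := mul_le_mul_of_nonneg_left h.le (sq_nonneg ε)
  simp only [Function.comp] at h3
  linarith only [h2, h3]

theorem sm_log {f : ℂ → ℂ} (hf : AnalyticAt ℂ f t) (h0 : f t ≠ 0) (c : ℝ) :
    SM (fun s => c * Real.log ‖f s‖) t := by
  have h1 : AnalyticAt ℂ (fun s => (c : ℂ) * Complex.log (f s / f t)) t :=
    analyticAt_const.mul ((hf.div_const).clog (by rw [div_self h0]; exact Complex.one_mem_slitPlane))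
  refine ((sm_re h1).add (sm_const (c * Real.log ‖f t‖) t)).congr ?_
  filter_upwards [hf.continuousAt.eventually_ne h0] with s hs
  rw [Complex.re_ofReal_mul, Complex.log_re, norm_div,
    Real.log_div (norm_ne_zero_iff.2 hs) (norm_ne_zero_iff.2 h0)]
  ring

theorem sm_max (h : SM φ t) {η : ℝ} (hη : 0 < η) :
    ¬ IsLocalMax (fun s => φ s + η * ‖s‖ ^ 2) t := by
  intro hm
  obtain ⟨t1, t2, t3, t4⟩ := Sm_tend t
  obtain ⟨ε, h0, h1, h2, h3, h4, h5⟩ := ((h η hη).and ((t1.eventually hm).and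
    ((t2.eventually hm).and ((t3.eventually hm).and ((t4.eventually hm).and
      self_mem_nhdsWithin))))).exists
  have e : ‖t + ε‖ ^ 2 + ‖t + ε * Complex.I‖ ^ 2 + ‖t - ε‖ ^ 2 + ‖t - ε * Complex.I‖ ^ 2 =
      4 * ‖t‖ ^ 2 + 4 * ε ^ 2 := by
    simp only [Complex.sq_norm, Complex.normSq_apply]
    simp
    ring
  have h6 : 0 < η * ε ^ 2 := mul_pos hη (pow_pos h5 2)
  have h7 := congrArg (η * ·) e
  simp only at h1 h2 h3 h4 h7
  linarith only [h0, h1, h2, h3, h4, h6, h7]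

theorem maxp {r B : ℝ} (hr : 0 < r) (V : Finset ℂ) (hV : ∀ v ∈ V, v ≠ 0 ∧ ‖v‖ < r)
    (hc : ∀ t, ‖t‖ ≤ r → t ∉ V → ContinuousAt φ t) (hs : ∀ t, ‖t‖ < r → t ∉ V → SM φ t)
    (hv : ∀ v ∈ V, Tendsto φ (𝓝[≠] v) atBot) (hB : ∀ t, ‖t‖ = r → φ t ≤ B) : φ 0 ≤ B := by
  by_contra hlt
  set η : ℝ := (φ 0 - B) / (2 * r ^ 2) with hη
  have h0 : 0 < φ 0 - B := sub_pos.2 (not_le.1 hlt)
  have η0 : 0 < η := by positivity
  have η1 : η * r ^ 2 = (φ 0 - B) / 2 := by rw [hη]; field_simp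
  set ψ : ℂ → ℝ := fun s => φ s + η * ‖s‖ ^ 2 with hψ
  have cn : Continuous fun s : ℂ => η * ‖s‖ ^ 2 := by fun_prop
  have cψ : ∀ t, ‖t‖ ≤ r → t ∉ V → ContinuousAt ψ t := fun t h1 h2 =>
    (hc t h1 h2).add cn.continuousAt
  set K : Set ℂ := {t | ‖t‖ ≤ r ∧ t ∉ V ∧ φ 0 ≤ ψ t} with hK
  have cl : IsClosed K := by
    refine isOpen_compl_iff.1 (isOpen_iff_mem_nhds.2 fun t ht => ?_)
    by_cases h1 : ‖t‖ ≤ r
    · by_cases h2 : t ∈ V
      · have h3 : Tendsto ψ (𝓝[≠] t) atBot :=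
          (hv t h2).atBot_add (cn.continuousAt.mono_left nhdsWithin_le_nhds)
        filter_upwards [eventually_nhdsWithin_iff.1 (h3.eventually_lt_atBot (φ 0))] with s hs hs'
        exact (hs fun e => hs'.2.1 (e ▸ h2)).not_ge hs'.2.2
      · filter_upwards [(cψ t h1 h2).eventually_lt_const (not_le.1 fun h3 => ht ⟨h1, h2, h3⟩)]
          with s hs hs'
        exact hs.not_ge hs'.2.2
    · filter_upwards [continuous_norm.continuousAt.eventually_const_lt (not_le.1 h1)] with s hs hs'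
      exact hs.not_ge hs'.1
  have cp : IsCompact K := (isCompact_closedBall 0 r).of_isClosed_subset cl fun t ht =>
    mem_closedBall_zero_iff.2 ht.1
  obtain ⟨t, ht, hm⟩ := cp.exists_isMaxOn
    ⟨0, by simpa using hr.le, fun h => (hV 0 h).1 rfl, by simp [hψ]⟩
    fun t ht => (cψ t ht.1 ht.2.1).continuousWithinAt
  have h1 : ‖t‖ < r := lt_of_le_of_ne ht.1 fun e => by
    have h2 := hB t e
    have h3 : φ 0 ≤ φ t + η * ‖t‖ ^ 2 := ht.2.2
    rw [e] at h3
    linarith only [hlt, η1, h2, h3]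
  refine sm_max (hs t h1 ht.2.1) η0 ?_
  filter_upwards [continuous_norm.continuousAt.eventually_lt_const h1,
    V.finite_toSet.isClosed.isOpen_compl.mem_nhds ht.2.1] with s h2 h3
  by_cases h4 : φ 0 ≤ ψ s
  · exact hm ⟨h2.le, h3, h4⟩
  · exact (not_le.1 h4).le.trans ht.2.2

theorem Sm_mul (r : ℝ) (P Q : ℂ[X]) :
    ∃ R : ℂ[X], ∀ t, ‖t‖ = r → (P.eval t * conj (Q.eval t)).re = (R.eval t).re := by
  induction P using Polynomial.induction_on' with
  | add P P' h h' =>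
    obtain ⟨R, hR⟩ := h
    obtain ⟨R', hR'⟩ := h'
    exact ⟨R + R', fun t ht => by
      rw [eval_add, add_mul, Complex.add_re, hR t ht, hR' t ht, eval_add, Complex.add_re]⟩
  | monomial m a =>
    induction Q using Polynomial.induction_on' with
    | add Q Q' h h' =>
      obtain ⟨R, hR⟩ := h
      obtain ⟨R', hR'⟩ := h'
      exact ⟨R + R', fun t ht => by
        rw [eval_add, map_add, mul_add, Complex.add_re, hR t ht, hR' t ht, eval_add, Complex.add_re]⟩
    | monomial n b =>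
      simp only [eval_monomial]
      rcases le_total n m with h | h
      · obtain ⟨k, rfl⟩ := Nat.exists_eq_add_of_le h
        refine ⟨monomial k (a * conj b * ((r : ℂ) ^ 2) ^ n), fun t ht => ?_⟩
        rw [eval_monomial, ← ht, ← Complex.mul_conj', map_mul, map_pow]
        exact congrArg Complex.re (by ring)
      · obtain ⟨k, rfl⟩ := Nat.exists_eq_add_of_le h
        refine ⟨monomial k (conj a * b * ((r : ℂ) ^ 2) ^ m), fun t ht => ?_⟩
        rw [eval_monomial, ← ht, ← Complex.mul_conj', ← Complex.conj_re, map_mul, Complex.conj_conj,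
          map_mul, map_pow]
        exact congrArg Complex.re (by ring)

theorem harm_approx {r δ : ℝ} (hr : 0 < r) (hδ : 0 < δ)
    (hc : ContinuousOn φ (Metric.sphere 0 r)) :
    ∃ Q : ℂ[X], ∀ t, ‖t‖ = r → |φ t - (Q.eval t).re| ≤ δ := by
  let A : Subalgebra ℝ C(Metric.sphere (0 : ℂ) r, ℝ) :=
    { carrier := {g | ∃ Q : ℂ[X], ∀ t, g t = (Q.eval t.1).re}
      mul_mem' := fun ⟨P, hP⟩ ⟨Q, hQ⟩ => by
        obtain ⟨R, hR⟩ := Sm_mul r P Q
        refine ⟨C ((1 / 2 : ℝ) : ℂ) * (P * Q + R), fun t => ?_⟩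
        rw [eval_mul, eval_C, Complex.re_ofReal_mul, eval_add, eval_mul, Complex.add_re,
          ← hR t.1 (mem_sphere_zero_iff_norm.1 t.2), ContinuousMap.mul_apply, hP, hQ,
          Complex.mul_re, Complex.mul_re, Complex.conj_re, Complex.conj_im]
        ring
      add_mem' := fun ⟨P, hP⟩ ⟨Q, hQ⟩ => ⟨P + Q, fun t => by
        rw [ContinuousMap.add_apply, hP, hQ, eval_add, Complex.add_re]⟩
      algebraMap_mem' := fun c => ⟨C (c : ℂ), fun t => by simp⟩ }
  have sep : A.SeparatesPoints := fun x y hxy => by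
    by_cases h : x.1.re = y.1.re
    · exact ⟨_, ⟨⟨fun t => t.1.im, by fun_prop⟩, ⟨C (-Complex.I) * X, fun t => by simp⟩, rfl⟩,
        fun h' => hxy (Subtype.ext (Complex.ext h h'))⟩
    · exact ⟨_, ⟨⟨fun t => t.1.re, by fun_prop⟩, ⟨X, fun t => by simp⟩, rfl⟩, h⟩
  obtain ⟨⟨g, Q, hQ⟩, hg⟩ := ContinuousMap.exists_mem_subalgebra_near_continuous_of_separatesPoints
    A sep (fun t => φ t.1) (continuousOn_iff_continuous_domRestrict.1 hc) δ hδ
  refine ⟨Q, fun t ht => ?_⟩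
  have h := hg ⟨t, mem_sphere_zero_iff_norm.2 ht⟩
  rw [abs_sub_comm, ← hQ ⟨t, mem_sphere_zero_iff_norm.2 ht⟩]
  exact h.le

theorem disc {r : ℝ} (hr : 0 < r) (V : Finset ℂ) (hV : ∀ v ∈ V, v ≠ 0 ∧ ‖v‖ < r) (E : ℂ → ℝ)
    (hc : ∀ t, ‖t‖ ≤ r → t ∉ V → ContinuousAt φ t ∧ SM φ t)
    (hv : ∀ v ∈ V, ∀ κ < E v, ∀ᶠ t in 𝓝[≠] v, φ t ≤ κ * Real.log ‖t - v‖) :
    φ 0 + ∑ v ∈ V, E v * Real.log (r / ‖v‖) ≤ Real.circleAverage φ 0 r := by
  classical
  have out : ∀ t : ℂ, ‖t‖ = r → t ∉ V := fun t ht h => (hV t h).2.ne ht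
  have cl : ∀ (t v : ℂ), t ≠ v → ContinuousAt (fun s : ℂ => Real.log ‖s - v‖) t := fun t v h =>
    ContinuousAt.log (by fun_prop) (norm_ne_zero_iff.2 (sub_ne_zero.2 h))
  have cs : ∀ (c : ℂ → ℝ) (W : Finset ℂ) (t : ℂ), t ∉ W →
      ContinuousAt (fun s : ℂ => ∑ v ∈ W, c v * Real.log ‖s - v‖) t := fun c W t h =>
    tendsto_finsetSum W fun v hv => (cl t v fun e => h (e ▸ hv)).tendsto.const_mul (c v)
  have ci : ∀ {g : ℂ → ℝ}, (∀ t, ‖t‖ = r → ContinuousAt g t) → CircleIntegrable g 0 r :=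
    fun h => ContinuousOn.circleIntegrable hr.le fun t ht =>
      (h t (mem_sphere_zero_iff_norm.1 ht)).continuousWithinAt
  have key : ∀ δ : ℝ, 0 < δ → φ 0 + ∑ v ∈ V, E v * Real.log (r / ‖v‖) ≤
      Real.circleAverage φ 0 r + δ * (2 + ∑ v ∈ V, Real.log (r / ‖v‖)) := by
    intro δ hδ
    set k : ℂ → ℝ := fun s => ∑ v ∈ V, (δ - E v) * Real.log ‖s - v‖ with hk
    obtain ⟨Q, hQ⟩ := harm_approx (φ := fun s => φ s + k s) hr hδ fun t ht => by
      have h := mem_sphere_zero_iff_norm.1 ht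
      exact ((hc t h.le (out t h)).1.add (cs _ V t (out t h))).continuousWithinAt
    have aQ : ∀ t, AnalyticAt ℂ (fun s => -Q.eval s) t := fun t =>
      (Q.differentiable.neg).analyticAt t
    have cQ : Continuous fun s : ℂ => (-Q.eval s).re := by fun_prop
    have h1 := maxp (φ := fun s => φ s + k s + (-Q.eval s).re) (B := δ) hr V hV
      (fun t h h' => ((hc t h h').1.add (cs _ V t h')).add cQ.continuousAt)
      (fun t h h' => ((hc t h.le h').2.add (sm_sum V fun v hv => sm_log (f := fun s => s - v)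
        (by fun_prop) (sub_ne_zero.2 fun e : t = v => h' (e ▸ hv)) _)).add (sm_re (aQ t)))
      (fun v hv' => by
        have t1 : Tendsto (fun s : ℂ => δ / 2 * Real.log ‖s - v‖) (𝓝[≠] v) atBot :=
          (Real.tendsto_log_nhdsGT_zero.comp (tendsto_norm_sub_self_nhdsNE v)).const_mul_atBot
            (half_pos hδ)
        refine tendsto_atBot_mono' _ ?_ (t1.atBot_add ((((cs (fun v => δ - E v) (V.erase v) v
          (V.notMem_erase v)).add cQ.continuousAt).tendsto).mono_left nhdsWithin_le_nhds))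
        filter_upwards [hv v hv' (E v - δ / 2) (by linarith)] with s hs
        have e := Finset.add_sum_erase V (fun v => (δ - E v) * Real.log ‖s - v‖) hv'
        simp only [hk, Pi.add_apply]
        linarith only [hs, e])
      (fun t ht => by
        rw [Complex.neg_re, ← sub_eq_add_neg]
        exact (abs_le.1 (hQ t ht)).2)
    have i1 := ci fun t ht => (hc t ht.le (out t ht)).1
    have i2 : CircleIntegrable k 0 r := ci fun t ht => cs _ V t (out t ht)
    have h2 : Real.circleAverage (fun s => (Q.eval s).re) 0 r = (Q.eval 0).re := by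
      rw [← Q.differentiable.diffContOnCl.circleAverage (c := 0) (R := r)]
      exact Complex.reCLM.circleAverage_comp_comm
        (Q.continuous.continuousOn.circleIntegrable hr.le)
    have h3 : Real.circleAverage k 0 r = ∑ v ∈ V, (δ - E v) * Real.log r := by
      rw [hk, Real.circleAverage_fun_sum fun v hv => ci fun t ht =>
        (cl t v fun e => out t ht (e ▸ hv)).const_mul (δ - E v)]
      refine Finset.sum_congr rfl fun v hv => ?_
      rw [← circleAverage_log_norm_sub_const_of_mem_closedBall (a := v) (c := 0)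
        (mem_closedBall_zero_iff.2 ((hV v hv).2.le.trans (le_abs_self r)))]
      exact Real.circleAverage_fun_smul (a := δ - E v) (f := fun s => Real.log ‖s - v‖)
    have h4 := Real.circleAverage_mono (f₁ := fun s => (Q.eval s).re)
      (f₂ := fun s => φ s + k s + δ) (ci fun t _ => by fun_prop)
      ((i1.add i2).add (circleIntegrable_const δ 0 r)) fun t ht => by
        have h := (abs_le.1 (hQ t ((mem_sphere_zero_iff_norm.1 ht).trans (abs_of_pos hr)))).1
        linarith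
    rw [h2, Real.circleAverage_fun_add (f₁ := fun s => φ s + k s) (i1.add i2)
      (circleIntegrable_const δ 0 r),
      Real.circleAverage_fun_add i1 i2, h3, Real.circleAverage_const] at h4
    have h5 : ∑ v ∈ V, E v * Real.log (r / ‖v‖) = δ * ∑ v ∈ V, Real.log (r / ‖v‖) + k 0 -
        ∑ v ∈ V, (δ - E v) * Real.log r := by
      rw [hk, Finset.mul_sum, ← Finset.sum_add_distrib, ← Finset.sum_sub_distrib]
      refine Finset.sum_congr rfl fun v hv => ?_
      rw [Real.log_div hr.ne' (norm_ne_zero_iff.2 (hV v hv).1), zero_sub, norm_neg]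
      ring
    rw [Complex.neg_re] at h1
    linarith only [h1, h4, h5]
  have lim : Tendsto (fun δ : ℝ => Real.circleAverage φ 0 r + δ * (2 + ∑ v ∈ V, Real.log (r / ‖v‖)))
      (𝓝[>] 0) (𝓝 (Real.circleAverage φ 0 r)) :=
    (Continuous.tendsto' (by fun_prop) 0 _ (by simp)).mono_left nhdsWithin_le_nhds
  exact ge_of_tendsto lim (eventually_mem_nhdsWithin.mono key)

end Pool.Agent.Work.MP_677830_co.G
end

-- merged part: Pool.Agent.Work.MP_677830_co.G.St
section
/-!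
# Stokes formula with the singular weight
Π = eval (bp A y). For n ≥ 1 let β n x = β (x / n) (β a fixed smooth bump, 1 on the unit ball,
support in the ball of radius 2), w n = (‖Π‖^2 + 1/n) ^ (-ν), F n = β n * Ψ * conj H * w n: C1 with
compact support, so the integral of dz (F n) vanishes. dz (w n) = -ν Π' conj Π (‖Π‖^2+1/n)^(-ν-1)
(dz_real_comp, dz (Π conj Π) = Π' conj Π). So dz (F n) = dz (β n) Ψ conj H w n + β n ((dz Ψ -
ν Π' T θ n) conj H + Ψ conj (dzb H)) w n with θ n = ‖Π‖^2 / (‖Π‖^2 + 1/n) in [0, 1].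
‖dz (β n) x‖ ≤ C / (1 + ‖x‖) uniformly and is eventually 0 for each x; w n ≤ wt off the nodes and
tends to wt. Dominated convergence with bound K (1 + ‖x‖)^(2j-1) wt (integrable_wt).
-/

namespace Pool.Agent.Work.MP_677830_co.G

open Filter Topology Polynomial Matrix MeasureTheory
open scoped ComplexConjugate ComplexOrder

variable {ι : Type} [DecidableEq ι]

theorem exists_cutoff : ∃ (β : ℕ → ℂ → ℂ) (K : ℝ), (∀ n, ContDiff ℝ 1 (β n)) ∧
    (∀ n, HasCompactSupport (β n)) ∧ (∀ n x, ‖β n x‖ ≤ 1) ∧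
    (∀ n x, ‖dz (β n) x‖ * (1 + ‖x‖) ≤ K) ∧
    ∀ x, ∀ᶠ n in atTop, β n x = 1 ∧ dz (β n) x = 0 := by
  let b : ContDiffBump (0 : ℂ) := ⟨1, 2, one_pos, one_lt_two⟩
  have B1 : ContDiff ℝ 1 fun x => (b x : ℂ) := Complex.ofRealCLM.contDiff.comp b.contDiff
  have B2 : HasCompactSupport fun x => (b x : ℂ) := b.hasCompactSupport.comp_left Complex.ofReal_zero
  obtain ⟨K, hK⟩ := ((B2.fderiv ℝ).norm.mul_right (f' := fun x => 1 + ‖x‖)).exists_bound_of_continuous
    ((B1.continuous_fderiv one_ne_zero).norm.mul (by fun_prop))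
  have c0 : ∀ n : ℕ, (0 : ℝ) < 1 / (n + 1) := fun n => Nat.one_div_pos_of_nat
  refine ⟨fun n x => b ((1 / (n + 1) : ℝ) • x), K, fun n => B1.comp (contDiff_id.const_smul _),
    fun n => B2.comp_smul (c0 n).ne', fun n x => ?_, fun n x => ?_, fun x => ?_⟩
  · rw [Complex.norm_real, Real.norm_of_nonneg b.nonneg]
    exact b.le_one
  · refine (mul_le_mul_of_nonneg_right (norm_dz_le _ x).1 (by positivity)).trans
      (le_trans ?_ ((le_abs_self _).trans (hK ((1 / (n + 1) : ℝ) • x))))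
    rw [fderiv_comp_smul (f := fun x => (b x : ℂ)), Pi.mul_apply, norm_smul, norm_smul,
      Real.norm_of_nonneg (c0 n).le, mul_comm (1 / (n + 1) : ℝ), mul_assoc, mul_add, mul_one]
    gcongr
    exact div_le_one_of_le₀ (by simp) (by positivity)
  · have h := (tendsto_one_div_add_atTop_nhds_zero_nat (𝕜 := ℝ)).smul_const x
    rw [zero_smul] at h
    filter_upwards [h.eventually (Metric.ball_mem_nhds 0 one_pos)] with n hn
    have e : (fun t : ℂ => (b ((1 / (n + 1) : ℝ) • t) : ℂ)) =ᶠ[𝓝 x] fun _ => 1 := by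
      filter_upwards [(continuous_const_smul (1 / (n + 1) : ℝ)).continuousAt.eventually
        (b.eventuallyEq_one_of_mem_ball hn)] with t ht
      rw [ht, Pi.one_apply, Complex.ofReal_one]
    exact ⟨e.self_of_nhds, by rw [(dz_congr e).1]; simp [dz]⟩

theorem St_w (P : ℂ[X]) (ν : ℝ) {ε : ℝ} (hε : 0 < ε) :
    (ContDiff ℝ 1 fun x => (((‖P.eval x‖ ^ 2 + ε) ^ (-ν) : ℝ) : ℂ)) ∧ ∀ x,
      dz (fun x => (((‖P.eval x‖ ^ 2 + ε) ^ (-ν) : ℝ) : ℂ)) x =
        -ν * ((‖P.eval x‖ ^ 2 + ε) ^ (-ν - 1) : ℝ) * ((derivative P).eval x * conj (P.eval x)) := by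
  have h1 : ContDiff ℝ 1 fun x => P.eval x := P.differentiable.contDiff.restrict_scalars ℝ
  have h2 : ContDiff ℝ 1 fun x => ‖P.eval x‖ ^ 2 := h1.norm_sq ℝ
  have h3 : ∀ x, ‖P.eval x‖ ^ 2 + ε ≠ 0 := fun x => by positivity
  refine ⟨Complex.ofRealCLM.contDiff.comp ((h2.add contDiff_const).rpow_const_of_ne h3),
    fun x => ?_⟩
  have h4 : DifferentiableAt ℝ (fun x => P.eval x) x := h1.differentiable one_ne_zero x
  have h5 := dz_real_comp (φ := fun s => (s + ε) ^ (-ν)) (h2.differentiable one_ne_zero x)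
    (((hasDerivAt_id' _).add_const ε).rpow_const (Or.inl (h3 x)))
  rw [h5]
  simp only [Complex.ofReal_pow, ← Complex.mul_conj']
  have h6 : DifferentiableAt ℝ (fun x => conj (P.eval x)) x :=
    Complex.conjCLE.differentiableAt.comp x h4
  rw [(dz_mul h4 h6).1, (dz_conj (fun t => P.eval t) x).1,
    (dz_hol (P.differentiableAt (x := x))).1, (dz_hol (P.differentiableAt (x := x))).2, P.deriv]
  simp

theorem St_r {ν N ε : ℝ} (h0 : 0 ≤ ν) (hN : 0 < N) (hε : 0 ≤ ε) :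
    0 ≤ (N + ε) ^ (-ν) ∧ (N + ε) ^ (-ν) ≤ N ^ (-ν) ∧ 0 ≤ N * (N + ε) ^ (-ν - 1) ∧
      N * (N + ε) ^ (-ν - 1) ≤ N ^ (-ν) := by
  refine ⟨by positivity, Real.rpow_le_rpow_of_nonpos hN (by linarith) (by linarith), by positivity,
    (mul_le_mul_of_nonneg_left (Real.rpow_le_rpow_of_nonpos hN (le_add_of_nonneg_right hε)
      (by linarith)) hN.le).trans_eq ?_⟩
  rw [Real.rpow_sub_one hN.ne', mul_div_cancel₀ _ hN.ne']

theorem St_bd {d β p q r s : ℂ} {a b W M M₁ ν : ℝ} (h1 : ‖d * p‖ ≤ M₁) (h2 : ‖β‖ ≤ 1)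
    (h3 : ‖q‖ ≤ M) (h4 : ‖r‖ ≤ M) (h5 : ‖s‖ ≤ M) (a0 : 0 ≤ a) (a1 : a ≤ W) (b0 : 0 ≤ b)
    (b1 : b ≤ W) (n0 : 0 ≤ ν) (n1 : ν ≤ 1) :
    ‖d * p * a + β * (q * a + r * a - ν * s * b)‖ ≤ (M₁ + 3 * M) * W := by
  have M0 := (norm_nonneg _).trans h3
  have M1 := (norm_nonneg _).trans h1
  have W0 := a0.trans a1
  calc _ ≤ ‖d * p * a‖ + ‖β‖ * (‖q * a‖ + ‖r * a‖ + ‖ν * s * b‖) := by
        refine (norm_add_le _ _).trans (add_le_add le_rfl ?_)
        rw [norm_mul]
        exact mul_le_mul_of_nonneg_left ((norm_sub_le _ _).trans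
          (add_le_add (norm_add_le _ _) le_rfl)) (norm_nonneg _)
    _ = ‖d * p‖ * a + ‖β‖ * (‖q‖ * a + ‖r‖ * a + ν * ‖s‖ * b) := by
        simp only [norm_mul, Complex.norm_real, Real.norm_of_nonneg a0, Real.norm_of_nonneg b0,
          Real.norm_of_nonneg n0]
    _ ≤ M₁ * W + 1 * (M * W + M * W + 1 * M * W) := by gcongr
    _ = _ := by ring

theorem stokes {ν : ℝ} (h0 : 0 < ν) (h1 : ν < 1) {A : Finset ι} {y : ι → ℂ} (hy : Set.InjOn y A)
    {j : ℕ} (hj1 : 1 ≤ j) (hj : ν * A.card = j + 1) {Ψ Tt H : ℂ → ℂ} (hΨ : ContDiff ℝ 1 Ψ)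
    (hH : ContDiff ℝ 1 H) (hT : Continuous Tt) (e : ∀ x, Ψ x = (bp A y).eval x * Tt x) (K : ℝ)
    (b0 : ∀ x, ‖Ψ x * H x‖ ≤ K * (1 + ‖x‖) ^ (2 * j))
    (b1 : ∀ x, ‖dz Ψ x * H x‖ ≤ K * (1 + ‖x‖) ^ (2 * j - 1))
    (b2 : ∀ x, ‖(derivative (bp A y)).eval x * Tt x * H x‖ ≤ K * (1 + ‖x‖) ^ (2 * j - 1))
    (b3 : ∀ x, ‖Ψ x * dzb H x‖ ≤ K * (1 + ‖x‖) ^ (2 * j - 1)) :
    ∫ x, (dz Ψ x - ν * ((derivative (bp A y)).eval x * Tt x)) * conj (H x) * (wt ν A y x : ℂ) =
      -∫ x, Ψ x * conj (dzb H x) * (wt ν A y x : ℂ) := by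
  obtain ⟨β, K', β1, β2, β3, β4, β5⟩ := exists_cutoff
  obtain ⟨P, hP⟩ : ∃ P, P = bp A y := ⟨_, rfl⟩
  have c0 : ∀ n : ℕ, (0 : ℝ) < 1 / (n + 1) := fun n => Nat.one_div_pos_of_nat
  have hm : ((2 * j - 1 : ℕ) : ℝ) + 3 ≤ 2 * ν * A.card := by
    rw [mul_assoc, hj, Nat.cast_sub (by omega)]
    push_cast
    linarith only []
  have hc : ContDiff ℝ 1 fun x => conj (H x) := Complex.conjCLE.contDiff.comp hH
  have hw : ∀ x, (∀ i ∈ A, x ≠ y i) → 0 < ‖P.eval x‖ ^ 2 ∧ wt ν A y x = (‖P.eval x‖ ^ 2) ^ (-ν) := by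
    intro x hx
    have : P.eval x = ∏ i ∈ A, (x - y i) := by simp [hP, bp, eval_prod]
    refine ⟨pow_pos (norm_pos_iff.2 (this ▸ Finset.prod_ne_zero_iff.2 fun i hi =>
      sub_ne_zero.2 (hx i hi))) 2, ?_⟩
    rw [wt, this, ← Real.rpow_natCast, ← Real.rpow_mul (norm_nonneg _)]
    congr 1
    push_cast
    ring
  rw [← hP] at e b2 ⊢
  have hF : ∀ n : ℕ, ContDiff ℝ 1 fun x => β n x * (Ψ x * conj (H x)) *
      (((‖P.eval x‖ ^ 2 + 1 / (n + 1)) ^ (-ν) : ℝ) : ℂ) := fun n =>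
    ((β1 n).mul (hΨ.mul hc)).mul (St_w P ν (c0 n)).1
  have hD : ∀ (n : ℕ) x, dz (fun x => β n x * (Ψ x * conj (H x)) *
      (((‖P.eval x‖ ^ 2 + 1 / (n + 1)) ^ (-ν) : ℝ) : ℂ)) x =
      dz (β n) x * (Ψ x * conj (H x)) * (((‖P.eval x‖ ^ 2 + 1 / (n + 1)) ^ (-ν) : ℝ) : ℂ) +
        β n x * (dz Ψ x * conj (H x) * (((‖P.eval x‖ ^ 2 + 1 / (n + 1)) ^ (-ν) : ℝ) : ℂ) +
          Ψ x * conj (dzb H x) * (((‖P.eval x‖ ^ 2 + 1 / (n + 1)) ^ (-ν) : ℝ) : ℂ) -
          ν * ((derivative P).eval x * Tt x * conj (H x)) *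
            ((‖P.eval x‖ ^ 2 * (‖P.eval x‖ ^ 2 + 1 / (n + 1)) ^ (-ν - 1) : ℝ) : ℂ)) := by
    intro n x
    rw [(dz_mul (((β1 n).mul (hΨ.mul hc)).differentiable one_ne_zero x)
      ((St_w P ν (c0 n)).1.differentiable one_ne_zero x)).1,
      (dz_mul ((β1 n).differentiable one_ne_zero x) ((hΨ.mul hc).differentiable one_ne_zero x)).1,
      (dz_mul (hΨ.differentiable one_ne_zero x) (hc.differentiable one_ne_zero x)).1,
      (dz_conj H x).1, (St_w P ν (c0 n)).2, Complex.ofReal_mul, Complex.ofReal_pow,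
      ← Complex.mul_conj', e x]
    ring
  have nc : ∀ a b : ℂ, ‖a * conj b‖ = ‖a * b‖ := fun a b => by
    rw [norm_mul, norm_mul, RCLike.norm_conj]
  have key := tendsto_integral_of_dominated_convergence (μ := volume)
    (f := fun x => (dz Ψ x - ν * ((derivative P).eval x * Tt x)) * conj (H x) * (wt ν A y x : ℂ) +
      Ψ x * conj (dzb H x) * (wt ν A y x : ℂ))
    (fun x => (K' * K + 3 * K) * ((1 + ‖x‖) ^ (2 * j - 1) * wt ν A y x))
    (fun n => (contDiff_dz (n := 0) (hF n)).1.continuous.aestronglyMeasurable)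
    ((integrable_wt h0 h1 hy hm).const_mul _) (fun n => ?_) ?_
  · have z := fun n => integral_dz (hF n) ((β2 n).mul_right.mul_right)
    simp only [z] at key
    have d1 := (contDiff_dz (n := 0) hΨ).1.continuous
    have d2 := (contDiff_dz (n := 0) hH).2.continuous
    have d3 := hH.continuous
    have d4 := hΨ.continuous
    have k := tendsto_nhds_unique key tendsto_const_nhds
    rw [integral_add (integrable_of_le_wt h0 h1 hy hm (by fun_prop) (2 * K) (.of_forall fun x => ?_))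
      (integrable_of_le_wt h0 h1 hy hm (by fun_prop) K
        (.of_forall fun x => (nc _ _).trans_le (b3 x)))] at k
    · exact eq_neg_of_add_eq_zero_left k
    · rw [nc, sub_mul, mul_assoc (ν : ℂ)]
      refine (norm_sub_le _ _).trans ?_
      rw [norm_mul (ν : ℂ), Complex.norm_real, Real.norm_of_nonneg h0.le]
      linarith only [b1, b2, h1, b1 x, b2 x, mul_le_of_le_one_left
        (norm_nonneg ((derivative P).eval x * Tt x * H x)) h1.le]
  · filter_upwards [ae_ne_nodes A y] with x hx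
    obtain ⟨w1, w2⟩ := hw x hx
    obtain ⟨a1, a2, a3, a4⟩ := St_r h0.le w1 (c0 n).le
    rw [hD, w2]
    refine (St_bd (M₁ := K' * (K * (1 + ‖x‖) ^ (2 * j - 1))) ?_ (β3 n x) ((nc _ _).trans_le (b1 x))
      ((nc _ _).trans_le (b3 x)) ((nc _ _).trans_le (b2 x)) a1 a2 a3 a4 h0.le h1.le).trans_eq
      (by ring)
    have a5 := (nc _ _).trans_le (b0 x)
    have a6 : 0 ≤ K * (1 + ‖x‖) ^ (2 * j - 1) := (norm_nonneg _).trans (b1 x)
    rw [show 2 * j = 2 * j - 1 + 1 by omega, pow_succ, ← mul_assoc, mul_comm _ (1 + ‖x‖)] at a5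
    rw [norm_mul]
    refine (mul_le_mul_of_nonneg_left a5 (norm_nonneg _)).trans ?_
    rw [← mul_assoc]
    exact mul_le_mul_of_nonneg_right (β4 n x) a6
  · filter_upwards [ae_ne_nodes A y] with x hx
    obtain ⟨w1, w2⟩ := hw x hx
    have l : ∀ s : ℝ, Tendsto (fun n : ℕ => (‖P.eval x‖ ^ 2 + 1 / (n + 1)) ^ s) atTop
        (𝓝 ((‖P.eval x‖ ^ 2) ^ s)) := fun s => by
      have := ((tendsto_one_div_add_atTop_nhds_zero_nat (𝕜 := ℝ)).const_add (‖P.eval x‖ ^ 2))
      rw [add_zero] at this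
      exact this.rpow_const (Or.inl w1.ne')
    have l1 := (l (-ν)).ofReal
    have l2 := ((l (-ν - 1)).const_mul (‖P.eval x‖ ^ 2)).ofReal
    rw [Real.rpow_sub_one w1.ne', mul_div_cancel₀ _ w1.ne', ← w2] at l2
    rw [← w2] at l1
    have l3 := ((l1.const_mul (dz Ψ x * conj (H x))).add (l1.const_mul (Ψ x * conj (dzb H x)))).sub
      (l2.const_mul (ν * ((derivative P).eval x * Tt x * conj (H x))))
    refine (l3.congr' ?_).trans (le_of_eq (congrArg 𝓝 (by ring)))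
    filter_upwards [β5 x] with n hn
    rw [hD, hn.1, hn.2, zero_mul, zero_mul, zero_add, one_mul]

end Pool.Agent.Work.MP_677830_co.G
end

-- merged part: Pool.Agent.Work.MP_677830_co.G.Ev
section
/-!
# Evaluation of the first and second variation
exists_ut: u = polynomial of c; (u v i - R) is divisible by X - y i; the polynomial
ud + R' + ν sum (u v i - R) /ₘ (X - y i) has degree ≤ j and its coefficient of degree j is
(j+1) R_(j+1) - ν n R_(j+1) = 0.
struct: Λ = interpolate, R - u Λ = Π S (vanishes at the distinct nodes), σ = (1 - ρ) / Π is C3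
(zero near the nodes, quotient elsewhere), T = S + σ u Λ, Ψ = R - u X = Π T. Off the nodes
aone = pv ct - (dz Ψ - ν Π' T) since Π' / Π = sum 1 / (x - y i); bone = - dzb Ψ = - Π dzb T.
Bounds: outside a big disc ρ = 0, Ψ = R, dz Ψ = R', Π' T = R sum 1/(x - y i), at = ud + ν u sum v i/(x - y i);
inside use continuity on a compact set.
ev_stokes: first clause: stokes with H = pv e (dzb H = 0). Second: at' = pv ct' - (dz Ψ' - ν Π' T') is C1,
dzb at' = dz b' - ν Π' T'' with b' = bone' = Π T'', T'' = - dzb T' (dz_dzb_comm), compactly supported.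
stokes (Ψ, T, H = at') and stokes (b', T'', H = Ψ), conjugated, give
integral (DΨ conj at') = - integral (Ψ conj (D b')) = integral (dzb Ψ conj b') = - integral (b conj b').
-/

namespace Pool.Agent.Work.MP_677830_co.G

open Filter Topology Polynomial Matrix MeasureTheory
open scoped ComplexConjugate ComplexOrder

variable {ι : Type} [DecidableEq ι] {ν : ℝ} {A : Finset ι} {y v : ι → ℂ} {j : ℕ} {ρ : ℂ → ℂ}

theorem Ev_poly (c : Fin j → ℂ) : ∃ u : ℂ[X], u.degree < j ∧ pv c = fun x => u.eval x :=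
  ⟨_, degree_sum_fin_lt c, funext fun x => by simp [pv, eval_finsetSum]⟩

theorem Ev_vec {u : ℂ[X]} (h : u.degree < j) : ∃ c : Fin j → ℂ, ∀ x, pv c x = u.eval x :=
  ⟨_, fun x => (eval_eq_sum_degreeLTEquiv (mem_degreeLT.2 h) x).symm⟩

theorem Ev_cd (P : ℂ[X]) (n : WithTop ℕ∞) : ContDiff ℝ n fun x => P.eval x :=
  (P.differentiable.contDiff (n := n)).restrict_scalars ℝ

theorem Ev_cdv (c : Fin j → ℂ) (n : WithTop ℕ∞) : ContDiff ℝ n (pv c) :=
  ((differentiable_pv c).contDiff (n := n)).restrict_scalars ℝ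

theorem Ev_dz (P : ℂ[X]) (x : ℂ) : dz (fun x => P.eval x) x = (derivative P).eval x ∧
    dzb (fun x => P.eval x) x = 0 :=
  P.deriv (x := x) ▸ dz_hol P.differentiableAt

theorem Ev_dz1 {f : ℂ → ℂ} (h : ContDiff ℝ 1 f) : Continuous (dz f) ∧ Continuous (dzb f) :=
  (contDiff_dz (n := 0) (h.of_le (by norm_num))).imp ContDiff.continuous ContDiff.continuous

theorem Ev_dz3 {f : ℂ → ℂ} (h : ContDiff ℝ 3 f) : ContDiff ℝ 2 (dz f) ∧ ContDiff ℝ 2 (dzb f) :=
  contDiff_dz (n := 2) (h.of_le (by norm_num))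

/-- Polynomial growth. -/
def Ev_O (f : ℂ → ℂ) (n : ℕ) : Prop := f =O[cocompact ℂ] fun x => (1 + ‖x‖) ^ n

section
variable {f g : ℂ → ℂ} {m n k : ℕ}

theorem Ev_of {K : ℝ} (h : ∀ x, ‖f x‖ ≤ K * (1 + ‖x‖) ^ n) : Ev_O f n :=
  Asymptotics.IsBigO.of_bound K (Eventually.of_forall fun x => by
    rw [Real.norm_of_nonneg (by positivity)]; exact h x)

theorem Ev_O.mul (hf : Ev_O f m) (hg : Ev_O g n) (h : k = m + n) :
    Ev_O (fun x => f x * g x) k := by
  simpa only [Ev_O, h, pow_add] using Asymptotics.IsBigO.mul hf hg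

theorem Ev_O.bd (h : Ev_O f n) (hf : Continuous f) :
    ∀ᶠ K : ℝ in atTop, ∀ x, ‖f x‖ ≤ K * (1 + ‖x‖) ^ n := by
  obtain ⟨C, hC⟩ := h.bound
  obtain ⟨t, ht, h1⟩ := mem_cocompact.1 hC
  obtain ⟨M, hM⟩ := ht.exists_bound_of_continuousOn hf.continuousOn
  filter_upwards [eventually_ge_atTop C, eventually_ge_atTop M, eventually_ge_atTop 0]
    with K a b c x
  have e : 1 ≤ (1 + ‖x‖) ^ n := one_le_pow₀ (le_add_of_nonneg_right (norm_nonneg x))
  by_cases hx : x ∈ t
  · exact ((hM x hx).trans b).trans (le_mul_of_one_le_right c e)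
  · exact (h1 hx).trans (by
      rw [Real.norm_of_nonneg (zero_le_one.trans e)]
      exact mul_le_mul_of_nonneg_right a (zero_le_one.trans e))

theorem Ev_O.div (h : Ev_O f (n + 1)) (a : ℂ) : Ev_O (fun x => f x / (x - a)) n := by
  obtain ⟨C, hC, h⟩ := h.exists_nonneg
  refine Asymptotics.IsBigO.of_bound (2 * C) ?_
  filter_upwards [h.bound, (tendsto_norm_cocompact_atTop (E := ℂ)).eventually_ge_atTop (1 + 2 * ‖a‖)]
    with x h1 h2
  have h3 := norm_sub_norm_le x a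
  have h4 := norm_nonneg a
  have h5 : 0 ≤ C * (1 + ‖x‖) ^ n := by positivity
  rw [Real.norm_of_nonneg (by positivity)] at h1 ⊢
  rw [norm_div, div_le_iff₀ (by linarith)]
  refine h1.trans ?_
  rw [pow_succ]
  linarith only [h2, h3, h5, mul_le_mul_of_nonneg_left (show 1 + ‖x‖ ≤ 2 * ‖x - a‖ by linarith) h5]

theorem Ev_cs (h : HasCompactSupport f) (n : ℕ) : Ev_O f n :=
  (Asymptotics.isBigO_zero _ _).congr' (mem_of_superset h.isCompact.compl_mem_cocompact
    fun _ hx => (image_eq_zero_of_notMem_tsupport hx).symm) EventuallyEq.rfl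

theorem Ev_pv (c : Fin j → ℂ) : Ev_O (pv c) (j - 1) := Ev_of (norm_pv_le c)

theorem Ev_ev {P : ℂ[X]} (h : P.natDegree ≤ n) : Ev_O (fun x => P.eval x) n := by
  obtain ⟨c, hc⟩ := Ev_vec (degree_le_natDegree.trans_lt (Nat.cast_lt.2 (Nat.lt_succ_of_le h)))
  exact funext hc ▸ Ev_pv c

end

theorem Ev_st (h0 : 0 < ν) (h1 : ν < 1) (hy : Set.InjOn y A) (hj1 : 1 ≤ j)
    (hj : ν * A.card = j + 1) {Ψ Tt H : ℂ → ℂ} (hΨ : ContDiff ℝ 1 Ψ) (hH : ContDiff ℝ 1 H)
    (hT : Continuous Tt) (e : ∀ x, Ψ x = (bp A y).eval x * Tt x)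
    (b0 : Ev_O (fun x => Ψ x * H x) (2 * j)) (b1 : Ev_O (fun x => dz Ψ x * H x) (2 * j - 1))
    (b2 : Ev_O (fun x => (derivative (bp A y)).eval x * Tt x * H x) (2 * j - 1))
    (b3 : HasCompactSupport fun x => Ψ x * dzb H x) :
    ∫ x, (dz Ψ x - ν * ((derivative (bp A y)).eval x * Tt x)) * conj (H x) * (wt ν A y x : ℂ) =
      -∫ x, Ψ x * conj (dzb H x) * (wt ν A y x : ℂ) := by
  have c1 := hΨ.continuous
  have c2 := hH.continuous
  obtain ⟨K, a0, a1, a2, a3⟩ := ((b0.bd (c1.mul c2)).and ((b1.bd ((Ev_dz1 hΨ).1.mul c2)).and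
    ((b2.bd (((Polynomial.continuous _).mul hT).mul c2)).and
      ((Ev_cs b3 (2 * j - 1)).bd (c1.mul (Ev_dz1 hH).2))))).exists
  exact stokes h0 h1 hy hj1 hj hΨ hH hT e K a0 a1 a2 a3

theorem Ev_int (h0 : 0 < ν) (h1 : ν < 1) (hy : Set.InjOn y A) (hj1 : 1 ≤ j)
    (hj : ν * A.card = j + 1) {f g : ℂ → ℂ} (hf : Continuous f) (hg : Continuous g)
    (h : Ev_O (fun x => f x * g x) (2 * j - 1)) :
    Integrable fun x => f x * conj (g x) * (wt ν A y x : ℂ) := by
  obtain ⟨K, hK⟩ := (h.bd (hf.mul hg)).exists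
  refine integrable_of_le_wt h0 h1 hy (m := 2 * j - 1) ?_
    (hf.mul (Complex.continuous_conj.comp hg)).aestronglyMeasurable K
    (Eventually.of_forall fun x => by simpa using hK x)
  rw [mul_assoc, hj, Nat.cast_sub (by omega)]
  push_cast
  linarith only []

theorem Ev_conj (f g : ℂ → ℂ) : ∫ x, f x * conj (g x) * (wt ν A y x : ℂ) =
    conj (∫ x, g x * conj (f x) * (wt ν A y x : ℂ)) := by
  rw [← integral_conj]
  simp [mul_comm]

theorem exists_ut (hy : Set.InjOn y A) (hj : ν * A.card = j + 1) (c cd : Fin j → ℂ) (P : ℂ[X])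
    (hP : P.natDegree ≤ j + 1) (hv : ∀ i ∈ A, P.eval (y i) = pv c (y i) * v i) :
    ∃ ct : Fin j → ℂ, ∀ x, (∀ i ∈ A, x ≠ y i) → pv ct x = pv cd x + (derivative P).eval x +
      ν * ∑ i ∈ A, (pv c x * v i - P.eval x) / (x - y i) := by
  obtain ⟨u, u1, u2⟩ := Ev_poly c
  obtain ⟨w, w1, w2⟩ := Ev_poly cd
  rw [degree_lt_iff_coeff_zero] at u1 w1
  have hW : ∀ i m, j ≤ m → ((u * C (v i) - P) /ₘ (X - C (y i))).coeff m = -P.coeff (m + 1) :=
    fun i m hm => by
      have : (u * C (v i) - P).natDegree ≤ j + 1 := natDegree_le_iff_coeff_eq_zero.2 fun n hn => by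
        rw [coeff_sub, coeff_mul_C, u1 n (by omega), coeff_eq_zero_of_natDegree_lt (by omega),
          zero_mul, sub_zero]
      rw [coeff_divByMonic_X_sub_C_rec, coeff_eq_zero_of_natDegree_lt (p := _ /ₘ _) (by
        rw [natDegree_divByMonic _ (monic_X_sub_C _), natDegree_X_sub_C]; omega), coeff_sub,
        coeff_mul_C, u1 _ (by omega)]
      ring
  obtain ⟨ct, h⟩ := Ev_vec (j := j) (u := w + derivative P +
      C (ν : ℂ) * ∑ i ∈ A, (u * C (v i) - P) /ₘ (X - C (y i))) (by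
    refine (degree_lt_iff_coeff_zero _ _).2 fun m hm => ?_
    simp only [coeff_add, coeff_C_mul, finsetSum_coeff, hW _ m hm, w1 m hm, coeff_derivative,
      Finset.sum_const, nsmul_eq_mul]
    rcases hm.eq_or_lt with rfl | hm
    · have : (ν : ℂ) * A.card = j + 1 := by exact_mod_cast congrArg ((↑) : ℝ → ℂ) hj
      linear_combination (-P.coeff (j + 1)) * this
    · rw [coeff_eq_zero_of_natDegree_lt (by omega)]
      ring)
  refine ⟨ct, fun x hx => ?_⟩
  simp only [h, u2, w2, eval_add, eval_mul, eval_C, eval_finsetSum]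
  refine congrArg _ (congrArg _ (Finset.sum_congr rfl fun i hi => ?_))
  have := congrArg (eval x) (mul_divByMonic_eq_iff_isRoot.2 (show (u * C (v i) - P).IsRoot (y i) by
    simp [hv i hi, u2]))
  simp only [eval_mul, eval_sub, eval_X, eval_C] at this
  rw [eq_div_iff (sub_ne_zero.2 (hx i hi)), mul_comm, this]

theorem measurable_aone (hρ : ContDiff ℝ 3 ρ) (c cd : Fin j → ℂ) :
    Measurable (aone ν A y v ρ c cd) ∧ Measurable (bone A y v ρ c) := by
  have h1 : ContDiff ℝ 3 (mo A y v ρ) := hρ.mul (Ev_cd _ _)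
  obtain ⟨h2, h3⟩ := Ev_dz1 (h1.of_le (by norm_num))
  have h4 := h1.continuous.measurable
  have h5 := (continuous_pv c).measurable
  exact ⟨(((continuous_pv cd).measurable.add ((measurable_deriv _).mul h4)).add
    (h5.mul h2.measurable)).sub ((h5.mul (Finset.measurable_fun_sum _ fun i _ =>
      (h4.sub_const _).div (measurable_id.sub_const _))).const_mul _), h5.mul h3.measurable⟩

theorem ev_struct (hy : Set.InjOn y A) (hj1 : 1 ≤ j) (hρ : ContDiff ℝ 3 ρ)
    (hρc : HasCompactSupport ρ) (hρ1 : ∀ i ∈ A, ∀ᶠ x in 𝓝 (y i), ρ x = 1) (c cd ct : Fin j → ℂ)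
    (P : ℂ[X]) (hP : P.natDegree ≤ j + 1) (hv : ∀ i ∈ A, P.eval (y i) = pv c (y i) * v i)
    (ht : ∀ x, (∀ i ∈ A, x ≠ y i) → pv ct x = pv cd x + (derivative P).eval x +
      ν * ∑ i ∈ A, (pv c x * v i - P.eval x) / (x - y i)) :
    ∃ (Ψ Tt : ℂ → ℂ) (K : ℝ), ContDiff ℝ 3 Ψ ∧ ContDiff ℝ 3 Tt ∧
      (∀ x, Ψ x = (bp A y).eval x * Tt x) ∧ HasCompactSupport (dzb Tt) ∧
      (∀ x, bone A y v ρ c x = -dzb Ψ x) ∧
      (∀ x, (∀ i ∈ A, x ≠ y i) → aone ν A y v ρ c cd x =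
        pv ct x - (dz Ψ x - ν * ((derivative (bp A y)).eval x * Tt x))) ∧
      ∀ x, ‖Ψ x‖ ≤ K * (1 + ‖x‖) ^ (j + 1) ∧ ‖dz Ψ x‖ ≤ K * (1 + ‖x‖) ^ j ∧
        ‖(derivative (bp A y)).eval x * Tt x‖ ≤ K * (1 + ‖x‖) ^ j ∧
        ‖pv ct x - (dz Ψ x - ν * ((derivative (bp A y)).eval x * Tt x))‖ ≤
          K * (1 + ‖x‖) ^ (j - 1) := by
  obtain ⟨u, -, u2⟩ := Ev_poly c
  have hm : ContDiff ℝ 3 (mo A y v ρ) := hρ.mul (Ev_cd _ _)
  have hB : ∀ x, (bp A y).eval x ≠ 0 ↔ ∀ i ∈ A, x ≠ y i := fun x => by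
    simp [bp, eval_prod, Finset.prod_ne_zero_iff, sub_ne_zero]
  have hB' : ∀ x, (bp A y).eval x = 0 → ∀ᶠ t in 𝓝 x, ρ t = 1 := fun x h => by
    by_contra h'
    exact (hB x).2 (fun i hi e => h' (e ▸ hρ1 i hi)) h
  obtain ⟨S, hS⟩ : bp A y ∣ P - u * Lagrange.interpolate A y v :=
    Finset.prod_dvd_of_coprime (fun i hi k hk h => isCoprime_X_sub_C_of_isUnit_sub
      (sub_ne_zero.2 fun e => h (hy hi hk e)).isUnit) fun i hi => dvd_iff_isRoot.2 (by
        rw [IsRoot, eval_sub, eval_mul, Lagrange.eval_interpolate_at_node _ hy hi, hv i hi, u2,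
          sub_self])
  have hσ : ContDiff ℝ 3 fun x => (1 - ρ x) / (bp A y).eval x := contDiff_iff_contDiffAt.2 fun x => by
    by_cases h : (bp A y).eval x = 0
    · exact (contDiffAt_const (c := 0)).congr_of_eventuallyEq
        ((hB' x h).mono fun t ht => by simp [ht])
    · simp only [div_eq_mul_inv]
      exact (contDiffAt_const.sub hρ.contDiffAt).mul ((Ev_cd (bp A y) _).contDiffAt.inv h)
  let T : ℂ → ℂ := fun x => S.eval x +
    (1 - ρ x) / (bp A y).eval x * (u * Lagrange.interpolate A y v).eval x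
  let Ψ : ℂ → ℂ := fun x => P.eval x - pv c x * mo A y v ρ x
  have hT : ContDiff ℝ 3 T := (Ev_cd _ _).add (hσ.mul (Ev_cd _ _))
  have hΨ : ContDiff ℝ 3 Ψ := (Ev_cd _ _).sub ((Ev_cdv c _).mul hm)
  have e : ∀ x, Ψ x = (bp A y).eval x * T x := fun x => by
    have h1 := congrArg (eval x) hS
    have h2 : (bp A y).eval x * ((1 - ρ x) / (bp A y).eval x) = 1 - ρ x := by
      by_cases h : (bp A y).eval x = 0
      · simp [(hB' x h).self_of_nhds]
      · exact mul_div_cancel₀ _ h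
    simp only [eval_sub, eval_mul] at h1
    simp only [Ψ, T, mo, u2, eval_mul]
    linear_combination h1 - u.eval x * (Lagrange.interpolate A y v).eval x * h2
  have d : ∀ x, dz Ψ x = (derivative P).eval x - (deriv (pv c) x * mo A y v ρ x +
      pv c x * dz (mo A y v ρ) x) ∧ dzb Ψ x = -bone A y v ρ c x := fun x => by
    have a1 := (Ev_cdv c 1).differentiable one_ne_zero x
    have a2 := hm.differentiable (by norm_num) x
    have a3 := dz_sub ((Ev_cd P 1).differentiable one_ne_zero x) (a1.fun_mul a2)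
    rw [(dz_mul a1 a2).1, (dz_mul a1 a2).2, (Ev_dz P x).1, (Ev_dz P x).2,
      (dz_hol (differentiable_pv c x)).1, (dz_hol (differentiable_pv c x)).2, zero_mul, zero_add,
      zero_sub] at a3
    exact a3
  have q : ∀ x, (∀ i ∈ A, x ≠ y i) →
      (derivative (bp A y)).eval x * T x = ∑ i ∈ A, Ψ x / (x - y i) := fun x hx => by
    rw [show derivative (bp A y) = _ from Lagrange.derivative_nodal, eval_finsetSum,
      Finset.sum_mul]
    refine Finset.sum_congr rfl fun i hi => ?_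
    rw [eq_div_iff (sub_ne_zero.2 (hx i hi)), e,
      show bp A y = _ from Lagrange.nodal_eq_mul_nodal_erase hi, eval_mul, eval_sub, eval_X, eval_C]
    ring
  have ea : ∀ x, (∀ i ∈ A, x ≠ y i) → aone ν A y v ρ c cd x =
      pv ct x - (dz Ψ x - ν * ((derivative (bp A y)).eval x * T x)) := fun x hx => by
    have : pv c x * ∑ i ∈ A, (mo A y v ρ x - v i) / (x - y i) = -(∑ i ∈ A, (pv c x * v i -
        P.eval x) / (x - y i) + ∑ i ∈ A, Ψ x / (x - y i)) := by
      rw [Finset.mul_sum, ← Finset.sum_add_distrib, ← Finset.sum_neg_distrib]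
      exact Finset.sum_congr rfl fun i _ => by simp only [Ψ]; ring
    rw [aone, this, ht x hx, (d x).1, q x hx]
    ring
  have out : ∀ x ∉ tsupport ρ, (∀ᶠ t in 𝓝 x, ρ t = 0) ∧ (∀ i ∈ A, x ≠ y i) ∧ mo A y v ρ x = 0 ∧
      dz (mo A y v ρ) x = 0 := fun x hx => by
    have h1 : ∀ᶠ t in 𝓝 x, ρ t = 0 := notMem_tsupport_iff_eventuallyEq.1 hx
    have h2 : mo A y v ρ =ᶠ[𝓝 x] fun _ => 0 := h1.mono fun t ht => by simp [mo, ht]
    exact ⟨h1, fun i hi h => zero_ne_one (h1.self_of_nhds.symm.trans (h ▸ (hρ1 i hi).self_of_nhds)),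
      h2.self_of_nhds, (dz_congr h2).1.trans ((dz_hol (differentiableAt_const 0)).1.trans
        (deriv_const x 0))⟩
  have out' := mem_of_superset hρc.isCompact.compl_mem_cocompact out
  have o1 : Ev_O Ψ (j + 1) := (Ev_ev hP).congr'
    (mem_of_superset out' fun x hx => by simp [Ψ, hx.2.2.1]) EventuallyEq.rfl
  have o2 : Ev_O (dz Ψ) j := (Ev_ev ((natDegree_derivative_le P).trans (by omega))).congr'
    (mem_of_superset out' fun x hx => by simp [(d x).1, hx.2.2.1, hx.2.2.2]) EventuallyEq.rfl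
  have o3 : Ev_O (fun x => (derivative (bp A y)).eval x * T x) j :=
    (Asymptotics.IsBigO.fun_sum fun i _ => o1.div (y i)).congr'
      (mem_of_superset out' fun x hx => (q x hx.2.1).symm) EventuallyEq.rfl
  have o4 : Ev_O (fun x => pv ct x - (dz Ψ x - ν * ((derivative (bp A y)).eval x * T x)))
      (j - 1) := by
    have a : ∀ i ∈ A, Ev_O (fun x => pv c x * v i / (x - y i)) (j - 1) := fun i _ =>
      ((Ev_pv c).mul (Ev_ev (P := C (v i)) (n := 1) (by simp)) rfl).div (y i) |>.congr_left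
        fun x => by simp
    refine (Asymptotics.IsBigO.add (Ev_pv cd)
      ((Asymptotics.IsBigO.fun_sum a).const_mul_left (ν : ℂ))).congr'
      (mem_of_superset out' fun x hx => ?_) EventuallyEq.rfl
    refine Eq.trans ?_ (ea x hx.2.1)
    simp only [aone, hx.2.2.1, hx.2.2.2, Finset.mul_sum, mul_zero,
      add_zero, sub_eq_add_neg, ← Finset.sum_neg_distrib]
    exact congrArg _ (Finset.sum_congr rfl fun i _ => by ring)
  have c1 := (Ev_dz3 hΨ).1.continuous
  have c2 := (Polynomial.continuous (derivative (bp A y))).mul hT.continuous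
  obtain ⟨K, k1, k2, k3, k4⟩ := ((o1.bd hΨ.continuous).and ((o2.bd c1).and ((o3.bd c2).and
    (o4.bd ((continuous_pv ct).sub (c1.sub (continuous_const.mul c2))))))).exists
  refine ⟨Ψ, T, K, hΨ, hT, e, HasCompactSupport.intro hρc fun x hx => ?_,
    fun x => by rw [(d x).2, neg_neg], ea, fun x => ⟨k1 x, k2 x, k3 x, k4 x⟩⟩
  obtain ⟨h1, h2, -⟩ := out x hx
  refine (dz_congr (g := fun t => S.eval t + 1 / (bp A y).eval t *
    (u * Lagrange.interpolate A y v).eval t) (h1.mono fun t ht => by simp only [T, ht, sub_zero])).2.trans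
    (dz_hol ?_).2
  exact S.differentiableAt.fun_add (((differentiableAt_const 1).fun_div (bp A y).differentiableAt
    ((hB x).2 h2)).fun_mul (Polynomial.differentiableAt _))

theorem ev_stokes (h0 : 0 < ν) (h1 : ν < 1) (hy : Set.InjOn y A) (hj1 : 1 ≤ j)
    (hj : ν * A.card = j + 1) (hρ : ContDiff ℝ 3 ρ) (hρc : HasCompactSupport ρ)
    (hρ1 : ∀ i ∈ A, ∀ᶠ x in 𝓝 (y i), ρ x = 1) (c cd ct c' cd' ct' : Fin j → ℂ) (P P' : ℂ[X])
    (hP : P.natDegree ≤ j + 1) (hv : ∀ i ∈ A, P.eval (y i) = pv c (y i) * v i)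
    (ht : ∀ x, (∀ i ∈ A, x ≠ y i) → pv ct x = pv cd x + (derivative P).eval x +
      ν * ∑ i ∈ A, (pv c x * v i - P.eval x) / (x - y i))
    (hP' : P'.natDegree ≤ j + 1) (hv' : ∀ i ∈ A, P'.eval (y i) = pv c' (y i) * v i)
    (ht' : ∀ x, (∀ i ∈ A, x ≠ y i) → pv ct' x = pv cd' x + (derivative P').eval x +
      ν * ∑ i ∈ A, (pv c' x * v i - P'.eval x) / (x - y i)) :
    (∀ e : Fin j → ℂ, ∫ x, aone ν A y v ρ c cd x * conj (pv e x) * (wt ν A y x : ℂ) =
      ∫ x, pv ct x * conj (pv e x) * (wt ν A y x : ℂ)) ∧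
    (∫ x, aone ν A y v ρ c cd x * conj (aone ν A y v ρ c' cd' x) * (wt ν A y x : ℂ)) -
      ∫ x, bone A y v ρ c x * conj (bone A y v ρ c' x) * (wt ν A y x : ℂ) =
        ∫ x, pv ct x * conj (pv ct' x) * (wt ν A y x : ℂ) := by
  obtain ⟨Ψ, T, K, s1, s2, s3, -, s5, s6, s7⟩ := ev_struct hy hj1 hρ hρc hρ1 c cd ct P hP hv ht
  obtain ⟨Ψ', T', K', t1, t2, t3, t4, t5, t6, t7⟩ :=
    ev_struct hy hj1 hρ hρc hρ1 c' cd' ct' P' hP' hv' ht'
  have cB := Polynomial.continuous (derivative (bp A y))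
  have one : ∀ {Ψ T : ℂ → ℂ} {K : ℝ} {a : ℂ → ℂ} {ct : Fin j → ℂ}, ContDiff ℝ 3 Ψ → ContDiff ℝ 3 T →
      (∀ x, Ψ x = (bp A y).eval x * T x) → (∀ x, ‖Ψ x‖ ≤ K * (1 + ‖x‖) ^ (j + 1) ∧
        ‖dz Ψ x‖ ≤ K * (1 + ‖x‖) ^ j ∧ ‖(derivative (bp A y)).eval x * T x‖ ≤ K * (1 + ‖x‖) ^ j ∧
        ‖pv ct x - (dz Ψ x - ν * ((derivative (bp A y)).eval x * T x))‖ ≤
          K * (1 + ‖x‖) ^ (j - 1)) → (∀ x, (∀ i ∈ A, x ≠ y i) → a x =
        pv ct x - (dz Ψ x - ν * ((derivative (bp A y)).eval x * T x))) → ∀ H, ContDiff ℝ 1 H →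
      Ev_O H (j - 1) → HasCompactSupport (dzb H) → ∫ x, a x * conj (H x) * (wt ν A y x : ℂ) =
        (∫ x, pv ct x * conj (H x) * (wt ν A y x : ℂ)) +
          ∫ x, Ψ x * conj (dzb H x) * (wt ν A y x : ℂ) := by
    intro Ψ T K a ct s1 s2 s3 s7 s6 H h2 h3 h4
    have b1 := (Ev_of fun x => (s7 x).2.1).mul h3 (k := 2 * j - 1) (by omega)
    have b2 := (Ev_of fun x => (s7 x).2.2.1).mul h3 (k := 2 * j - 1) (by omega)
    rw [← sub_neg_eq_add, ← Ev_st h0 h1 hy hj1 hj (s1.of_le (by norm_num)) h2 s2.continuous s3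
      ((Ev_of fun x => (s7 x).1).mul h3 (by omega)) b1 b2 h4.mul_left,
      ← integral_sub (Ev_int h0 h1 hy hj1 hj (continuous_pv ct)
        h2.continuous ((((Ev_pv ct).mul h3 rfl).mul (Ev_ev (P := 1) (n := 1) (by simp))
          (by omega)).congr_left fun x => by simp)) (Ev_int h0 h1 hy hj1 hj
        (f := fun x => dz Ψ x - ν * ((derivative (bp A y)).eval x * T x))
        ((Ev_dz3 s1).1.continuous.sub (continuous_const.mul (cB.mul s2.continuous))) h2.continuous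
        ((Asymptotics.IsBigO.sub b1 (b2.const_mul_left (ν : ℂ))).congr_left fun x => by ring))]
    refine integral_congr_ae ((ae_ne_nodes A y).mono fun x hx => ?_)
    simp only [s6 x hx]
    ring
  have z : ∀ e : Fin j → ℂ, dzb (pv e) = 0 := fun e => funext fun x =>
    (dz_hol (differentiable_pv e x)).2
  have hz : ∀ e : Fin j → ℂ, HasCompactSupport (dzb (pv e)) := fun e => z e ▸ HasCompactSupport.zero
  refine ⟨fun e => by simpa [z] using one s1 s2 s3 s7 s6 _ (Ev_cdv e 1) (Ev_pv e) (hz e), ?_⟩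
  obtain ⟨d1, d2⟩ := Ev_dz3 t1
  obtain ⟨-, d3⟩ := Ev_dz3 t2
  have dT := t2.differentiable (by norm_num)
  have dB := fun P : ℂ[X] => (Ev_cd P 1).differentiable one_ne_zero
  have e1 : ∀ x, dzb Ψ' x = (bp A y).eval x * dzb T' x := fun x => by
    rw [funext t3, (dz_mul (dB _ x) (dT x)).2, (Ev_dz _ x).2, zero_mul, zero_add]
  have c1 : HasCompactSupport (dzb Ψ') := funext e1 ▸ t4.mul_left
  have e2 : ∀ x, dzb (fun x => pv ct' x - (dz Ψ' x - ν * ((derivative (bp A y)).eval x * T' x))) x =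
      -(dz (dzb Ψ') x - ν * ((derivative (bp A y)).eval x * dzb T' x)) := fun x => by
    have a1 := (dB (derivative (bp A y)) x).fun_mul (dT x)
    have a2 := d1.differentiable two_ne_zero x
    rw [(dz_sub ((Ev_cdv ct' 1).differentiable one_ne_zero x) (a2.fun_sub (a1.const_mul _))).2, z,
      (dz_sub a2 (a1.const_mul _)).2, (dz_const_mul _ a1).2, (dz_mul (dB _ x) (dT x)).2,
      (Ev_dz _ x).2, dz_dzb_comm (t1.of_le (by norm_num)), zero_mul, zero_add, Pi.zero_apply,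
      zero_sub]
  have c2 := (hasCompactSupport_dz c1).1
  have k1 := one s1 s2 s3 s7 s6 _ (((Ev_cdv ct' 1).sub ((d1.of_le one_le_two).sub
    (contDiff_const.mul ((Ev_cd _ 1).mul (t2.of_le (by norm_num))))))) (Ev_of fun x => (t7 x).2.2.2)
    (funext e2 ▸ (c2.sub (t4.mul_left.mul_left)).neg)
  have k2 := one t1 t2 t3 t7 (fun _ _ => rfl) _ (Ev_cdv ct 1) (Ev_pv ct) (hz ct)
  have k3 := Ev_st h0 h1 hy hj1 hj (d2.of_le one_le_two) (s1.of_le (by norm_num)) d3.continuous e1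
    (Ev_cs c1.mul_right _) (Ev_cs c2.mul_right _) (Ev_cs t4.mul_left.mul_right _) c1.mul_right
  rw [Ev_conj (pv ct), k2, Ev_conj Ψ] at k1
  simp only [e2, neg_mul, integral_neg, k3, neg_neg, z, Pi.zero_apply, map_zero, mul_zero, zero_mul,
    integral_zero, add_zero, ← Ev_conj] at k1
  simp only [s5, t5, map_neg, neg_mul_neg]
  rw [sub_eq_iff_eq_add, ← k1]
  exact integral_congr_ae ((ae_ne_nodes A y).mono fun x hx => by simp only [t6 x hx])

end Pool.Agent.Work.MP_677830_co.G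
end

-- merged part: Pool.Agent.Work.MP_677830_co.G.Exp
section
/-!
# Second order expansion under the integral
hol_taylor: f holomorphic on the ball of radius r, bounded by M. Put g1 = dslope f 0,
g2 = dslope g1 0, g3 = dslope g2 0 (differentiableOn_dslope); on the circle of radius 3r/4 they are
bounded by constants times M / r^k, so inside by the maximum principle
(Complex.norm_le_of_forall_mem_frontier_norm_le); f s = f 0 + s f1 + s^2 f2 + s^3 g3 s.
ex2_integral: pointwise, f s conj (g s) - f 0 conj (g 0) - s f1 conj (g 0) - conj s f 0 conj g1 is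
bounded by K M^2 ‖s‖^2, and the four point sum minus 4 f0 conj g0 + 4 ε^2 f1 conj g1 by K M^2 ε^3
(the terms s^a conj s^b with a ≠ b, a, b ≤ 2 cancel; a = b = 2 is O(ε^4)). Integrate
(norm_integral_le_of_norm_le).
-/

namespace Pool.Agent.Work.MP_677830_co.G

open Filter Topology Polynomial Matrix MeasureTheory
open scoped ComplexConjugate ComplexOrder

theorem Exp_step {r M : ℝ} (hr : 0 < r) {f : ℂ → ℂ} (hf : DifferentiableOn ℂ f (Metric.ball 0 r))
    (hM : ∀ s ∈ Metric.ball (0 : ℂ) r, ‖f s‖ ≤ M) :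
    DifferentiableOn ℂ (dslope f 0) (Metric.ball 0 r) ∧
      (∀ s ∈ Metric.ball (0 : ℂ) r, ‖dslope f 0 s‖ ≤ (1 + 2 / r) * M) ∧
      ∀ s, f s = f 0 + s * dslope f 0 s := by
  have h0 := hM 0 (Metric.mem_ball_self hr)
  refine ⟨(Complex.differentiableOn_dslope (Metric.ball_mem_nhds 0 hr)).2 hf, fun s hs => ?_,
    fun s => ?_⟩
  · refine (Complex.norm_dslope_le_div_of_mapsTo_ball (R₂ := M + M) hf (fun z hz =>
      mem_closedBall_iff_norm.2 (norm_sub_le_of_le (hM z hz) h0)) hs).trans ?_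
    have e : (1 + 2 / r) * M = M + (M + M) / r := by ring
    linarith only [h0, e, norm_nonneg (f 0)]
  · have := sub_smul_dslope f 0 s
    rw [sub_zero, smul_eq_mul] at this
    rw [this, add_sub_cancel]

theorem Exp_rep {r : ℝ} (hr : 0 < r) : ∃ K : ℝ, 1 ≤ K ∧ ∀ (f : ℂ → ℂ) (M : ℝ),
    DifferentiableOn ℂ f (Metric.ball 0 r) → (∀ s ∈ Metric.ball (0 : ℂ) r, ‖f s‖ ≤ M) →
    ∃ (f2 : ℂ) (R : ℂ → ℂ), ‖f 0‖ ≤ K * M ∧ ‖deriv f 0‖ ≤ K * M ∧ ‖f2‖ ≤ K * M ∧
      ∀ s ∈ Metric.ball (0 : ℂ) r,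
        ‖R s‖ ≤ K * M ∧ f s = f 0 + s * (deriv f 0 + s * (f2 + s * R s)) := by
  have hL : 1 ≤ 1 + 2 / r := le_add_of_nonneg_right (by positivity)
  refine ⟨(1 + 2 / r) ^ 3, one_le_pow₀ hL, fun f M hf hM => ?_⟩
  obtain ⟨d1, b1, e1⟩ := Exp_step hr hf hM
  obtain ⟨d2, b2, e2⟩ := Exp_step hr d1 b1
  obtain ⟨-, b3, e3⟩ := Exp_step hr d2 b2
  have h0 := Metric.mem_ball_self (x := (0 : ℂ)) hr
  have hM0 : 0 ≤ M := (norm_nonneg _).trans (hM 0 h0)
  have k : ∀ n ≤ 3, (1 + 2 / r) ^ n * M ≤ (1 + 2 / r) ^ 3 * M := fun n hn =>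
    mul_le_mul_of_nonneg_right (pow_le_pow_right₀ hL hn) hM0
  refine ⟨_, _, (hM 0 h0).trans ((le_of_eq (by ring)).trans (k 0 (by norm_num))),
    dslope_same f 0 ▸ (b1 0 h0).trans ((le_of_eq (by ring)).trans (k 1 (by norm_num))),
    (b2 0 h0).trans ((le_of_eq (by ring)).trans (k 2 (by norm_num))),
    fun s hs => ⟨(b3 s hs).trans (le_of_eq (by ring)), ?_⟩⟩
  rw [← e3 s, ← dslope_same f 0, ← e2 s, ← e1 s]

theorem hol_taylor {r : ℝ} (hr : 0 < r) : ∃ K : ℝ, 0 ≤ K ∧ ∀ (f : ℂ → ℂ) (M : ℝ),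
    DifferentiableOn ℂ f (Metric.ball 0 r) → (∀ s ∈ Metric.ball (0 : ℂ) r, ‖f s‖ ≤ M) →
    ∃ f2 : ℂ, ‖deriv f 0‖ ≤ K * M ∧ ‖f2‖ ≤ K * M ∧ ∀ s : ℂ, ‖s‖ ≤ r / 2 →
      ‖f s - f 0 - s * deriv f 0 - s ^ 2 * f2‖ ≤ K * M * ‖s‖ ^ 3 := by
  obtain ⟨K, hK, h⟩ := Exp_rep hr
  refine ⟨K, zero_le_one.trans hK, fun f M hf hM => ?_⟩
  obtain ⟨f2, R, -, h1, h2, h3⟩ := h f M hf hM
  refine ⟨f2, h1, h2, fun s hs => ?_⟩
  obtain ⟨h4, h5⟩ := h3 s (mem_ball_zero_iff.2 (by linarith only [hr, hs]))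
  rw [show f s - f 0 - s * deriv f 0 - s ^ 2 * f2 = R s * s ^ 3 by rw [h5]; ring]
  exact norm_mul_le_of_le h4 (norm_pow s 3).le

theorem Ex2.sub {J J' : ℂ → ℂ} {a b c a' b' c' : ℂ} (h : Ex2 J a b c) (h' : Ex2 J' a' b' c') :
    Ex2 (fun s => J s - J' s) (a - a') (b - b') (c - c') :=
  ⟨(h.1.sub h'.1).congr_left fun s => by ring, (h.2.sub h'.2).congr_left fun s => by ring⟩

theorem Ex2.congr {J J' : ℂ → ℂ} {a b c : ℂ} (h : Ex2 J a b c) (e : J =ᶠ[𝓝 0] J') :
    Ex2 J' a b c := by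
  have e0 : J 0 = J' 0 := e.eq_of_nhds
  have t : ∀ k : ℝ → ℂ, Continuous k → k 0 = 0 → ∀ᶠ ε in 𝓝[>] 0, J (k ε) = J' (k ε) :=
    fun k hk h0 => ((hk.tendsto' 0 0 h0).mono_left nhdsWithin_le_nhds).eventually e
  refine ⟨h.1.congr' (e.mono fun s hs => by simp only [hs, e0]) EventuallyEq.rfl,
    h.2.congr' ?_ EventuallyEq.rfl⟩
  filter_upwards [t (fun ε => ε) (by fun_prop) (by simp),
    t (fun ε => ε * Complex.I) (by fun_prop) (by simp), t (fun ε => -ε) (by fun_prop) (by simp),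
    t (fun ε => -(ε * Complex.I)) (by fun_prop) (by simp)] with ε h1 h2 h3 h4
  rw [h1, h2, h3, h4, e0]

theorem Exp_h {a b s : ℂ} {A B : ℝ} (hs : ‖s‖ ≤ 1) (ha : ‖a‖ ≤ A) (hb : ‖b‖ ≤ B) :
    ‖a + s * b‖ ≤ A + B :=
  norm_add_le_of_le ha ((norm_mul_le_of_le hs hb).trans_eq (one_mul B))

theorem Exp_c {b : ℂ} {B : ℝ} (hb : ‖b‖ ≤ B) : ‖conj b‖ ≤ B := (Complex.norm_conj b).trans_le hb

theorem Exp_pt {r : ℝ} (hr : 0 < r) : ∃ K : ℝ, 1 ≤ K ∧ ∀ (φ ψ : ℂ → ℂ) (M : ℝ),
    DifferentiableOn ℂ φ (Metric.ball 0 r) → (∀ s ∈ Metric.ball (0 : ℂ) r, ‖φ s‖ ≤ M) →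
    DifferentiableOn ℂ ψ (Metric.ball 0 r) → (∀ s ∈ Metric.ball (0 : ℂ) r, ‖ψ s‖ ≤ M) →
    ‖deriv φ 0‖ ≤ K * M ∧ ‖deriv ψ 0‖ ≤ K * M ∧
    (∀ s ∈ Metric.ball (0 : ℂ) r, ‖s‖ ≤ 1 → ‖φ s * conj (ψ s) - φ 0 * conj (ψ 0) -
      s * (deriv φ 0 * conj (ψ 0)) - conj s * (φ 0 * conj (deriv ψ 0))‖ ≤
        13 * K ^ 2 * ‖s‖ ^ 2 * M ^ 2) ∧
    ∀ ε : ℝ, 0 < ε → ε < r → ε ≤ 1 → ‖φ ε * conj (ψ ε) +
      φ (ε * Complex.I) * conj (ψ (ε * Complex.I)) + φ (-ε) * conj (ψ (-ε)) +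
      φ (-(ε * Complex.I)) * conj (ψ (-(ε * Complex.I))) - 4 * (φ 0 * conj (ψ 0)) -
      4 * (ε : ℂ) ^ 2 * (deriv φ 0 * conj (deriv ψ 0))‖ ≤ 32 * K ^ 2 * ε ^ 3 * M ^ 2 := by
  obtain ⟨K, hK, h⟩ := Exp_rep hr
  refine ⟨K, hK, fun φ ψ M d1 b1 d2 b2 => ?_⟩
  obtain ⟨a2, R, p0, p1, p2, p3⟩ := h φ M d1 b1
  obtain ⟨c2, S, q0, q1, q2, q3⟩ := h ψ M d2 b2
  generalize φ 0 = a0, deriv φ 0 = a1, ψ 0 = c0, deriv ψ 0 = c1 at *
  have hE : ∀ s ∈ Metric.ball (0 : ℂ) r, ‖s‖ ≤ 1 → ‖φ s * conj (ψ s) -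
      (a0 + s * (a1 + s * a2)) * conj (c0 + s * (c1 + s * c2))‖ ≤ 7 * (K * M) ^ 2 * ‖s‖ ^ 3 := by
    intro s hs h1
    have e : φ s * conj (ψ s) - (a0 + s * (a1 + s * a2)) * conj (c0 + s * (c1 + s * c2)) =
        s ^ 3 * (R s * conj (c0 + s * (c1 + s * (c2 + s * S s)))) +
          conj (s ^ 3) * ((a0 + s * (a1 + s * a2)) * conj (S s)) := by
      rw [(p3 s hs).2, (q3 s hs).2]
      simp only [map_add, map_mul, map_pow]
      ring
    rw [e]
    exact (norm_add_le_of_le (norm_mul_le_of_le (norm_pow s 3).le (norm_mul_le_of_le (p3 s hs).1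
      (Exp_c (Exp_h h1 q0 (Exp_h h1 q1 (Exp_h h1 q2 (q3 s hs).1))))))
      (norm_mul_le_of_le (Exp_c (norm_pow s 3).le) (norm_mul_le_of_le
        (Exp_h h1 p0 (Exp_h h1 p1 p2)) (Exp_c (q3 s hs).1)))).trans_eq (by ring)
  refine ⟨p1, q1, fun s hs h1 => ?_, fun ε h0 h1 h2 => ?_⟩
  · have e : φ s * conj (ψ s) - a0 * conj c0 - s * (a1 * conj c0) - conj s * (a0 * conj c1) =
        (φ s * conj (ψ s) - (a0 + s * (a1 + s * a2)) * conj (c0 + s * (c1 + s * c2))) +
          (s * s * (a2 * conj (c0 + s * (c1 + s * c2))) +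
            s * conj s * (a1 * conj (c1 + s * c2)) + conj s * conj s * (a0 * conj c2)) := by
      simp only [map_add, map_mul]
      ring
    have n1 := le_refl ‖s‖
    have n2 := Exp_c n1
    rw [e]
    refine (norm_add_le_of_le (hE s hs h1) (norm_add_le_of_le (norm_add_le_of_le
      (norm_mul_le_of_le (norm_mul_le_of_le n1 n1)
        (norm_mul_le_of_le p2 (Exp_c (Exp_h h1 q0 (Exp_h h1 q1 q2)))))
      (norm_mul_le_of_le (norm_mul_le_of_le n1 n2) (norm_mul_le_of_le p1 (Exp_c (Exp_h h1 q1 q2)))))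
      (norm_mul_le_of_le (norm_mul_le_of_le n2 n2) (norm_mul_le_of_le p0 (Exp_c q2))))).trans ?_
    have := mul_le_mul_of_nonneg_left (pow_le_pow_of_le_one (norm_nonneg s) h1
      (show 2 ≤ 3 by norm_num)) (show 0 ≤ 7 * (K * M) ^ 2 by positivity)
    linarith only [this]
  · have n1 : ‖(ε : ℂ)‖ = ε := by rw [Complex.norm_real, Real.norm_of_nonneg h0.le]
    have n2 : ‖(ε : ℂ) * Complex.I‖ = ε := by rw [norm_mul, Complex.norm_I, mul_one, n1]
    have k : ∀ s : ℂ, ‖s‖ = ε → ‖φ s * conj (ψ s) - (a0 + s * (a1 + s * a2)) *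
        conj (c0 + s * (c1 + s * c2))‖ ≤ 7 * (K * M) ^ 2 * ε ^ 3 := fun s hs =>
      hs ▸ hE s (mem_ball_zero_iff.2 (hs.trans_lt h1)) (hs.trans_le h2)
    have k5 : ‖4 * (ε : ℂ) ^ 4 * (a2 * conj c2)‖ ≤ 4 * ε ^ 4 * (K * M * (K * M)) :=
      norm_mul_le_of_le (by simp [abs_of_pos h0]) (norm_mul_le_of_le p2 (Exp_c q2))
    refine (le_of_eq ?_).trans ((norm_add_le_of_le (norm_add_le_of_le (norm_add_le_of_le
      (norm_add_le_of_le (k _ n1) (k _ n2)) (k _ ((norm_neg _).trans n1)))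
      (k _ ((norm_neg _).trans n2))) k5).trans ?_)
    · congr 1
      simp only [map_add, map_mul, map_neg, Complex.conj_ofReal, Complex.conj_I]
      have h3 : Complex.I ^ 2 = -1 := Complex.I_sq
      grind
    · have := mul_le_mul_of_nonneg_left (pow_le_pow_of_le_one h0.le h2
        (show 3 ≤ 4 by norm_num)) (show 0 ≤ 4 * (K * M) ^ 2 by positivity)
      linarith only [this]

theorem Exp_int {w M : ℂ → ℝ} (hw : ∀ x, 0 ≤ w x) (hwm : Measurable w)
    (hI : Integrable fun x => M x ^ 2 * w x) {u v : ℂ → ℂ} (hu : Measurable u) (hv : Measurable v)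
    {C : ℝ} (bu : ∀ᵐ x, ‖u x‖ ≤ C * M x) (bv : ∀ᵐ x, ‖v x‖ ≤ C * M x) :
    Integrable fun x => u x * conj (v x) * (w x : ℂ) := by
  refine (hI.const_mul (C ^ 2)).mono' (((hu.mul (Complex.continuous_conj.measurable.comp hv)).mul
    (Complex.measurable_ofReal.comp hwm)).aestronglyMeasurable) ?_
  filter_upwards [bu, bv] with x h1 h2
  exact (norm_mul_le_of_le (norm_mul_le_of_le h1 (Exp_c h2))
    ((Complex.norm_real _).trans (Real.norm_of_nonneg (hw x))).le).trans_eq (by ring)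

theorem Exp_bd {w M : ℂ → ℝ} (hw : ∀ x, 0 ≤ w x) (hI : Integrable fun x => M x ^ 2 * w x)
    {u v : ℂ → ℂ} {C : ℝ} (e : ∀ x, v x = u x * (w x : ℂ)) (bu : ∀ᵐ x, ‖u x‖ ≤ C * M x ^ 2) :
    ‖∫ x, v x‖ ≤ C * ∫ x, M x ^ 2 * w x := by
  rw [← integral_const_mul]
  refine norm_integral_le_of_norm_le (hI.const_mul C) ?_
  filter_upwards [bu] with x h1
  rw [e]
  exact (norm_mul_le_of_le h1
    ((Complex.norm_real _).trans (Real.norm_of_nonneg (hw x))).le).trans_eq (by ring)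

theorem ex2_integral {w M : ℂ → ℝ} (hw : ∀ x, 0 ≤ w x) (hwm : Measurable w)
    (hI : Integrable fun x => M x ^ 2 * w x) {r : ℝ} (hr : 0 < r) {f g : ℂ → ℂ → ℂ}
    {f1 g1 : ℂ → ℂ} (hf : ∀ x, DifferentiableOn ℂ (fun s => f s x) (Metric.ball 0 r))
    (hg : ∀ x, DifferentiableOn ℂ (fun s => g s x) (Metric.ball 0 r))
    (bf : ∀ s ∈ Metric.ball (0 : ℂ) r, ∀ x, ‖f s x‖ ≤ M x)
    (bg : ∀ s ∈ Metric.ball (0 : ℂ) r, ∀ x, ‖g s x‖ ≤ M x)
    (mf : ∀ s ∈ Metric.ball (0 : ℂ) r, Measurable (f s))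
    (mg : ∀ s ∈ Metric.ball (0 : ℂ) r, Measurable (g s))
    (df : ∀ᵐ x : ℂ, deriv (fun s => f s x) 0 = f1 x) (dg : ∀ᵐ x : ℂ, deriv (fun s => g s x) 0 = g1 x)
    (m1 : Measurable f1) (m1' : Measurable g1) :
    (∀ s ∈ Metric.ball (0 : ℂ) r, Integrable fun x => f s x * conj (g s x) * (w x : ℂ)) ∧
      Ex2 (fun s => ∫ x, f s x * conj (g s x) * (w x : ℂ)) (∫ x, f1 x * conj (g 0 x) * (w x : ℂ))
        (∫ x, f 0 x * conj (g1 x) * (w x : ℂ)) (∫ x, f1 x * conj (g1 x) * (w x : ℂ)) := by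
  obtain ⟨K, hK, h⟩ := Exp_pt hr
  have H := fun x => h _ _ (M x) (hf x) (fun s hs => bf s hs x) (hg x) fun s hs => bg s hs x
  have h0 := Metric.mem_ball_self (x := (0 : ℂ)) hr
  have hM : ∀ x, M x ≤ K * M x := fun x =>
    le_mul_of_one_le_left ((norm_nonneg _).trans (bf 0 h0 x)) hK
  have bf' : ∀ s ∈ Metric.ball (0 : ℂ) r, ∀ᵐ x, ‖f s x‖ ≤ K * M x := fun s hs =>
    ae_of_all _ fun x => (bf s hs x).trans (hM x)
  have bg' : ∀ s ∈ Metric.ball (0 : ℂ) r, ∀ᵐ x, ‖g s x‖ ≤ K * M x := fun s hs =>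
    ae_of_all _ fun x => (bg s hs x).trans (hM x)
  have b1 : ∀ᵐ x, ‖f1 x‖ ≤ K * M x := df.mono fun x e => e ▸ (H x).1
  have b1' : ∀ᵐ x, ‖g1 x‖ ≤ K * M x := dg.mono fun x e => e ▸ (H x).2.1
  have I := fun s hs => Exp_int hw hwm hI (mf s hs) (mg s hs) (bf' s hs) (bg' s hs)
  refine ⟨I, Asymptotics.IsBigO.of_bound (13 * K ^ 2 * ∫ x, M x ^ 2 * w x) ?_, ?_⟩
  · filter_upwards [Metric.ball_mem_nhds 0 hr, Metric.closedBall_mem_nhds 0 one_pos] with s hs h1
    have i1 := (I s hs).sub (I 0 h0)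
    have i2 := (Exp_int hw hwm hI m1 (mg 0 h0) b1 (bg' 0 h0)).const_mul s
    have i3 := (Exp_int hw hwm hI (mf 0 h0) m1' (bf' 0 h0) b1').const_mul (conj s)
    rw [← integral_const_mul, ← integral_const_mul, ← integral_sub' (I s hs) (I 0 h0),
      ← integral_sub' i1 i2, ← integral_sub' (i1.sub i2) i3]
    refine (Exp_bd hw hI (C := 13 * K ^ 2 * ‖s‖ ^ 2) (u := fun x => f s x * conj (g s x) -
      f 0 x * conj (g 0 x) - s * (f1 x * conj (g 0 x)) - conj s * (f 0 x * conj (g1 x)))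
      (fun x => by simp only [Pi.sub_apply]; ring) ?_).trans_eq (by rw [norm_pow, norm_norm]; ring)
    filter_upwards [df, dg] with x e1 e2
    exact e1 ▸ e2 ▸ (H x).2.2.1 s hs (mem_closedBall_zero_iff.1 h1)
  · refine (Asymptotics.IsBigO.of_bound (g := fun ε : ℝ => ε ^ 3)
      (32 * K ^ 2 * ∫ x, M x ^ 2 * w x) ?_).trans_isLittleO
      ((Asymptotics.isLittleO_pow_pow (show 2 < 3 by norm_num)).mono nhdsWithin_le_nhds)
    filter_upwards [Ioo_mem_nhdsGT hr, Ioc_mem_nhdsGT one_pos] with ε h1 h2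
    have n1 : (ε : ℂ) ∈ Metric.ball 0 r := by simpa [abs_of_pos h1.1] using h1.2
    have n2 : (ε : ℂ) * Complex.I ∈ Metric.ball 0 r := by simpa [abs_of_pos h1.1] using h1.2
    have n3 : -(ε : ℂ) ∈ Metric.ball 0 r := by simpa [abs_of_pos h1.1] using h1.2
    have n4 : -((ε : ℂ) * Complex.I) ∈ Metric.ball 0 r := by simpa [abs_of_pos h1.1] using h1.2
    have i1 := (I _ n1).add (I _ n2)
    have i2 := i1.add (I _ n3)
    have i3 := i2.add (I _ n4)
    have i4 := (I 0 h0).const_mul 4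
    have i5 := (Exp_int hw hwm hI m1 m1' b1 b1').const_mul (4 * (ε : ℂ) ^ 2)
    rw [← integral_const_mul, ← integral_const_mul, ← integral_add' (I _ n1) (I _ n2),
      ← integral_add' i1 (I _ n3), ← integral_add' i2 (I _ n4), ← integral_sub' i3 i4,
      ← integral_sub' (i3.sub i4) i5]
    refine (Exp_bd hw hI (C := 32 * K ^ 2 * ε ^ 3) (u := fun x => f ε x * conj (g ε x) +
      f (ε * Complex.I) x * conj (g (ε * Complex.I) x) + f (-ε) x * conj (g (-ε) x) +
      f (-(ε * Complex.I)) x * conj (g (-(ε * Complex.I)) x) - 4 * (f 0 x * conj (g 0 x)) -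
      4 * (ε : ℂ) ^ 2 * (f1 x * conj (g1 x)))
      (fun x => by simp only [Pi.sub_apply, Pi.add_apply]; ring) ?_).trans_eq
      (by rw [norm_pow, Real.norm_of_nonneg h1.1.le]; ring)
    filter_upwards [df, dg] with x e1 e2
    exact e1 ▸ e2 ▸ (H x).2.2.2 ε h1.1 h1.2 h2.2

end Pool.Agent.Work.MP_677830_co.G
end

-- merged part: Pool.Agent.Work.MP_677830_co.G.Mat
section
/-!
# Weak subharmonicity of the logarithm of a Gram determinant
G0 = G 0 is invertible. M = - A G0⁻¹, Gt s = (1 + s M) G s (1 + s M)ᴴ. Then Gt s - G0 = O(‖s‖^2) and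
the four point sum of Gt is 4 G0 + 4 ε^2 (C - A G0⁻¹ Aᴴ) + o(ε^2). The Schur complement
C - A G0⁻¹ Aᴴ is positive semidefinite (Matrix.PosDef.fromBlocks₂₂), and the trace of G0⁻¹ times a
positive semidefinite matrix has nonnegative real part. log ‖det Gt s‖ = log ‖det G0‖ +
re trace (G0⁻¹ (Gt s - G0)) + o(‖s‖^2) by log_det_one_add. The product of det (1 + s M) over the four
points is det (1 - ε^4 M^4), whose logarithm is O(ε^4).
log_det_one_add: det is differentiable at 1 with derivative the trace (Leibniz formula or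
Matrix.det_one_add_smul), and log ‖1 + u‖ = re u + o(u).
-/

namespace Pool.Agent.Work.MP_677830_co.G

open Filter Topology Polynomial Matrix MeasureTheory
open scoped ComplexConjugate ComplexOrder

variable {α : Type} [Fintype α] [DecidableEq α]

open Asymptotics

/-- The determinant as a continuous multilinear map of the rows. -/
noncomputable def Mat_det (α : Type) [Fintype α] [DecidableEq α] :
    ContinuousMultilinearMap ℂ (fun _ : α => α → ℂ) ℂ :=
  { (Matrix.detRowAlternating : (α → ℂ) [⋀^α]→ₗ[ℂ] ℂ).toMultilinearMap with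
    cont := Continuous.matrix_det (A := fun v : α → α → ℂ => Matrix.of v) continuous_id }

theorem Mat_det_o : (fun Y : α → α → ℂ => (1 + Matrix.of Y).det - 1 - (Matrix.of Y).trace)
    =o[𝓝 0] fun Y => Y := by
  have h := hasFDerivAt_iff_isLittleO_nhds_zero.1
    ((Mat_det α).hasFDerivAt (fun k l => (1 : Matrix α α ℂ) k l))
  refine h.congr_left fun Y => ?_
  rw [ContinuousMultilinearMap.linearDeriv_apply]
  refine congrArg₂ (· - ·) (congrArg₂ (· - ·) rfl Matrix.det_one)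
    (Finset.sum_congr rfl fun i _ => ?_)
  have := Matrix.cramer_transpose_apply (1 : Matrix α α ℂ) (Y i) i
  rw [Matrix.transpose_one, Matrix.cramer_one] at this
  exact this.symm

theorem Mat_log_o : (fun u : ℂ => Real.log ‖1 + u‖ - u.re) =o[𝓝 0] fun u => u := by
  have h := hasDerivAt_iff_isLittleO_nhds_zero.1 (Complex.hasDerivAt_log Complex.one_mem_slitPlane)
  refine IsBigO.trans_isLittleO (IsBigO.of_bound' (Eventually.of_forall fun u => ?_)) h
  have e : Real.log ‖1 + u‖ - u.re =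
      (Complex.log (1 + u) - Complex.log 1 - u • (1 : ℂ)⁻¹).re := by
    simp [Complex.log_re]
  rw [e]
  exact Complex.abs_re_le_norm _

theorem Mat_re {ι : Type} {F : Filter ι} (f : ι → ℂ) : (fun s => (f s).re) =O[F] f :=
  IsBigO.of_bound' (Eventually.of_forall fun s => Complex.abs_re_le_norm (f s))

omit [DecidableEq α] in
theorem Mat_trO {ι : Type} {F : Filter ι} {Y : ι → Matrix α α ℂ} {h : ι → ℝ}
    (hY : ∀ k l, (fun s => Y s k l) =O[F] h) : (fun s => (Y s).trace) =O[F] h :=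
  IsBigO.fun_sum fun k _ => hY k k

omit [DecidableEq α] in
theorem Mat_tro {ι : Type} {F : Filter ι} {Y : ι → Matrix α α ℂ} {h : ι → ℝ}
    (hY : ∀ k l, (fun s => Y s k l) =o[F] h) : (fun s => (Y s).trace) =o[F] h :=
  IsLittleO.fun_sum fun k _ => hY k k

omit [DecidableEq α] in
theorem Mat_mulO {ι : Type} {F : Filter ι} {X Y : ι → Matrix α α ℂ} {f g : ι → ℝ}
    (hX : ∀ k l, (fun s => X s k l) =O[F] f) (hY : ∀ k l, (fun s => Y s k l) =O[F] g) (k l : α) :
    (fun s => (X s * Y s) k l) =O[F] fun s => f s * g s :=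
  IsBigO.fun_sum fun j _ => (hX k j).mul (hY j l)

omit [DecidableEq α] in
theorem Mat_cO {ι : Type} {F : Filter ι} (N : Matrix α α ℂ) {Y : ι → Matrix α α ℂ} {g : ι → ℝ}
    (hY : ∀ k l, (fun s => Y s k l) =O[F] g) (k l : α) : (fun s => (N * Y s) k l) =O[F] g :=
  IsBigO.fun_sum fun j _ => (hY j l).const_mul_left (N k j)

omit [DecidableEq α] in
theorem Mat_co {ι : Type} {F : Filter ι} (N : Matrix α α ℂ) {Y : ι → Matrix α α ℂ} {g : ι → ℝ}
    (hY : ∀ k l, (fun s => Y s k l) =o[F] g) (k l : α) : (fun s => (N * Y s) k l) =o[F] g :=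
  IsLittleO.fun_sum fun j _ => (hY j l).const_mul_left (N k j)

theorem Mat_lim {ι : Type} {F : Filter ι} {Y : ι → Matrix α α ℂ} {h : ι → ℝ}
    (h0 : Tendsto h F (𝓝 0)) (hY : ∀ k l, (fun s => Y s k l) =O[F] h) :
    Tendsto (fun s => (1 + Y s).det) F (𝓝 1) := by
  have h1 : Tendsto Y F (𝓝 0) :=
    tendsto_pi_nhds.2 fun k => tendsto_pi_nhds.2 fun l => (hY k l).trans_tendsto h0
  have h2 : Continuous fun Z : Matrix α α ℂ => (1 + Z).det :=
    (continuous_const.add continuous_id).matrix_det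
  exact (h2.tendsto' 0 1 (by simp)).comp h1

theorem log_det_one_add {ι : Type} {F : Filter ι} {Y : ι → Matrix α α ℂ} {h : ι → ℝ}
    (h0 : Tendsto h F (𝓝 0)) (hY : ∀ k l, (fun s => Y s k l) =O[F] h) :
    (fun s => Real.log ‖(1 + Y s).det‖ - (Y s).trace.re) =o[F] h := by
  have h1 : (fun s => fun k l => Y s k l) =O[F] h := isBigO_pi.2 fun k => isBigO_pi.2 (hY k)
  have h2 : (fun s => (1 + Y s).det - 1 - (Y s).trace) =o[F] h :=
    (Mat_det_o.comp_tendsto (h1.trans_tendsto h0)).trans_isBigO h1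
  have h3 : (fun s => (1 + Y s).det - 1) =O[F] h :=
    (h2.isBigO.add (Mat_trO hY)).congr_left fun s => sub_add_cancel _ _
  have h4 := (Mat_log_o.comp_tendsto (h3.trans_tendsto h0)).trans_isBigO h3
  refine (h4.add ((Mat_re _).trans_isLittleO h2)).congr_left fun s => ?_
  simp

theorem trace_mul_psd {A B : Matrix α α ℂ} (hA : A.PosSemidef) (hB : B.PosSemidef) :
    0 ≤ (A * B).trace.re := by
  open scoped MatrixOrder in
  obtain ⟨S, rfl⟩ := CStarAlgebra.nonneg_iff_eq_star_mul_self.1 hA.nonneg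
  rw [Matrix.mul_assoc, Matrix.trace_mul_comm]
  exact (Complex.nonneg_iff.1 (hB.mul_mul_conjTranspose_same S).trace_nonneg).1

theorem Mat_pair {ι : Type} {F : Filter ι} {X R R' : ι → Matrix α α ℂ} {h : ι → ℝ}
    (h0 : Tendsto h F (𝓝 0)) (hX : ∀ k l, (fun s => X s k l) =O[F] h)
    (hR : ∀ k l, (fun s => R s k l) =O[F] fun s => h s ^ 2)
    (hR' : ∀ k l, (fun s => R' s k l) =O[F] fun s => h s ^ 2) :
    (fun s => Real.log ‖(1 + (X s + R s)).det‖ + Real.log ‖(1 + (-X s + R' s)).det‖ -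
      (R s + R' s - X s * X s).trace.re) =o[F] fun s => h s ^ 2 := by
  have p1 : h =o[F] fun _ => (1 : ℝ) := (isLittleO_one_iff ℝ).2 h0
  have p2 : (fun s => h s ^ 2) =O[F] h :=
    ((p1.isBigO.mul (isBigO_refl h F)).congr_left fun s => (sq _).symm).congr_right fun s => one_mul _
  have p3 : (fun s => h s * h s ^ 2) =o[F] fun s => h s ^ 2 :=
    (p1.mul_isBigO (isBigO_refl _ F)).congr_right fun s => one_mul _
  have y1 : ∀ k l, (fun s => (X s + R s) k l) =O[F] h := fun k l => (hX k l).add ((hR k l).trans p2)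
  have y2 : ∀ k l, (fun s => (-X s + R' s) k l) =O[F] h := fun k l =>
    (hX k l).neg_left.add ((hR' k l).trans p2)
  have z : ∀ k l, (fun s => ((X s + R s) * R' s - R s * X s) k l) =o[F] fun s => h s ^ 2 :=
    fun k l => ((Mat_mulO y1 hR' k l).sub
      ((Mat_mulO hR hX k l).congr_right fun s => mul_comm _ _)).trans_isLittleO p3
  have w : ∀ k l, (fun s => (R s + R' s - X s * X s + ((X s + R s) * R' s - R s * X s)) k l) =O[F]
      fun s => h s ^ 2 := fun k l => (((hR k l).add (hR' k l)).sub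
    ((Mat_mulO hX hX k l).congr_right fun s => (sq _).symm)).add (z k l).isBigO
  have k := (log_det_one_add (p2.trans_tendsto h0) w).add ((Mat_re _).trans_isLittleO (Mat_tro z))
  refine k.congr' ?_ EventuallyEq.rfl
  filter_upwards [(Mat_lim h0 y1).eventually_ne one_ne_zero,
    (Mat_lim h0 y2).eventually_ne one_ne_zero] with s s1 s2
  have e : 1 + (R s + R' s - X s * X s + ((X s + R s) * R' s - R s * X s)) =
      (1 + (X s + R s)) * (1 + (-X s + R' s)) := by noncomm_ring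
  rw [e, det_mul, norm_mul, Real.log_mul (norm_ne_zero_iff.2 s1) (norm_ne_zero_iff.2 s2),
    trace_add, Complex.add_re]
  ring

omit [DecidableEq α] in
theorem Mat_sq (P Q : Matrix α α ℂ) (a b : ℂ) : ((a • P + b • Q) * (a • P + b • Q)).trace =
    a ^ 2 * (P * P).trace + 2 * a * b * (P * Q).trace + b ^ 2 * (Q * Q).trace := by
  simp only [mul_add, add_mul, smul_mul_smul_comm, trace_add, trace_smul, smul_eq_mul,
    trace_mul_comm Q P]
  ring

theorem mat_sm (G : ℂ → Matrix α α ℂ) (A C : Matrix α α ℂ) (h0 : (G 0).PosDef)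
    (hb : (Matrix.fromBlocks C A Aᴴ (G 0)).PosSemidef)
    (h : ∀ k l, Ex2 (fun s => G s k l) (A k l) (conj (A l k)) (C k l)) :
    (G 0).det ≠ 0 ∧ ContinuousAt (fun s => Real.log ‖(G s).det‖) 0 ∧
      SM (fun s => Real.log ‖(G s).det‖) 0 := by
  have hd : (G 0).det ≠ 0 := h0.det_pos.ne'
  let _ := h0.isUnit.invertible
  have hS := trace_mul_psd h0.inv.posSemidef ((h0.fromBlocks₂₂ C A).1 hb)
  obtain ⟨N, hN⟩ : ∃ N, N = (G 0)⁻¹ := ⟨_, rfl⟩
  have hGN : G 0 * N = 1 := hN ▸ Matrix.mul_nonsing_inv _ (Ne.isUnit hd)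
  rw [← hN] at hS
  obtain ⟨X, hX⟩ : ∃ X : ℂ → Matrix α α ℂ, ∀ s, X s = s • (N * A) + conj s • (N * Aᴴ) :=
    ⟨_, fun _ => rfl⟩
  obtain ⟨R, hR⟩ : ∃ R : ℂ → Matrix α α ℂ, ∀ s, R s = N * (G s - G 0 - s • A - conj s • Aᴴ) :=
    ⟨_, fun _ => rfl⟩
  have n0 : Tendsto (fun s : ℂ => ‖s‖) (𝓝 0) (𝓝 0) := tendsto_norm_zero
  have x1 : ∀ k l, (fun s => X s k l) =O[𝓝 0] fun s : ℂ => ‖s‖ := fun k l => by
    have c1 : (fun s : ℂ => conj s) =O[𝓝 0] fun s : ℂ => ‖s‖ :=
      IsBigO.of_bound' (Eventually.of_forall fun s => by simp)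
    refine (((isBigO_refl (fun s : ℂ => s) _).norm_right.const_mul_left ((N * A) k l)).add
      (c1.const_mul_left ((N * Aᴴ) k l))).congr_left fun s => ?_
    simp only [hX, Matrix.add_apply, Matrix.smul_apply, smul_eq_mul, mul_comm]
  have r1 : ∀ k l, (fun s => R s k l) =O[𝓝 0] fun s : ℂ => ‖s‖ ^ 2 := fun k l => by
    simp only [hR]
    exact Mat_cO N (fun k l => (h k l).1) k l
  have r2 : ∀ k l, (fun s => R (-s) k l) =O[𝓝 0] fun s : ℂ => ‖s‖ ^ 2 := fun k l =>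
    ((r1 k l).comp_tendsto (by simpa using (continuous_neg.tendsto (0 : ℂ)))).congr_right
      fun s => by simp
  have p2 : (fun s : ℂ => ‖s‖ ^ 2) =O[𝓝 0] fun s : ℂ => ‖s‖ :=
    ((((isLittleO_one_iff ℝ).2 n0).isBigO.mul (isBigO_refl _ _)).congr_left
      fun s => (sq _).symm).congr_right fun s => one_mul _
  have hG : ∀ s, G s = G 0 * (1 + (X s + R s)) := fun s => by
    have : X s + R s = N * (G s - G 0) := by
      simp only [hX, hR, mul_sub, Matrix.mul_smul]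
      abel
    rw [this, mul_add, ← mul_assoc, hGN, mul_one, one_mul, add_sub_cancel]
  have hXn : ∀ s, X (-s) = -X s := fun s => by simp [hX, add_comm]
  have l1 := Mat_lim (Y := fun s => X s + R s) n0 fun k l => (x1 k l).add ((r1 k l).trans p2)
  have l2 : ∀ᶠ s in 𝓝 (0 : ℂ), Real.log ‖(G s).det‖ =
      Real.log ‖(G 0).det‖ + Real.log ‖(1 + (X s + R s)).det‖ := by
    filter_upwards [l1.eventually_ne one_ne_zero] with s hs
    rw [hG s, det_mul, norm_mul, Real.log_mul (norm_ne_zero_iff.2 hd) (norm_ne_zero_iff.2 hs)]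
  refine ⟨hd, ?_, fun η hη => ?_⟩
  · refine Tendsto.congr' (EventuallyEq.symm l2) ?_
    simpa using (l1.norm.log (by simp)).const_add (Real.log ‖(G 0).det‖)
  have key : (fun s => Real.log ‖(G s).det‖ + Real.log ‖(G (-s)).det‖ - 2 * Real.log ‖(G 0).det‖ -
      (R s + R (-s) - X s * X s).trace.re) =o[𝓝 0] fun s : ℂ => ‖s‖ ^ 2 := by
    refine (Mat_pair n0 x1 r1 r2).congr' ?_ EventuallyEq.rfl
    filter_upwards [l2, (show Tendsto (fun s : ℂ => -s) (𝓝 0) (𝓝 0) by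
      simpa using (continuous_neg.tendsto (0 : ℂ))).eventually l2] with s s1 s2
    rw [s1, s2, hXn]
    ring
  have t : ∀ u : ℂ, Tendsto (fun ε : ℝ => (ε : ℂ) * u) (𝓝[>] 0) (𝓝 0) := fun u =>
    ((Complex.continuous_ofReal.mul continuous_const).tendsto' 0 0 (by simp)).mono_left
      nhdsWithin_le_nhds
  have k1 := (key.comp_tendsto (t 1)).congr_right (g₂ := fun ε : ℝ => ε ^ 2) fun ε => by simp
  have k2 := (key.comp_tendsto (t Complex.I)).congr_right (g₂ := fun ε : ℝ => ε ^ 2)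
    fun ε => by simp
  have k3 := (Mat_re _).trans_isLittleO (Mat_tro (Mat_co N
    (Y := fun ε : ℝ => G ε + G (ε * Complex.I) + G (-ε) + G (-(ε * Complex.I)) - (4 : ℂ) • G 0 -
      (4 * (ε : ℂ) ^ 2) • C) fun k l => (h k l).2))
  filter_upwards [((k1.add k2).add k3).bound hη] with ε hε
  have e : (R ε + R (-ε) - X ε * X ε).trace +
      (R (ε * Complex.I) + R (-(ε * Complex.I)) - X (ε * Complex.I) * X (ε * Complex.I)).trace =
      (N * (G ε + G (ε * Complex.I) + G (-ε) + G (-(ε * Complex.I)) - (4 : ℂ) • G 0 -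
        (4 * (ε : ℂ) ^ 2) • C)).trace + ((4 * ε ^ 2 : ℝ) : ℂ) * (N * (C - A * N * Aᴴ)).trace := by
    simp only [trace_sub, hX, Mat_sq]
    simp only [trace_sub, trace_add, hR, mul_sub, mul_add, Matrix.mul_smul, trace_smul,
      smul_eq_mul, map_neg, map_mul, Complex.conj_ofReal, Complex.conj_I, Matrix.mul_assoc]
    push_cast
    linear_combination (-(ε : ℂ) ^ 2 * ((N * (A * (N * A))).trace - 2 * (N * (A * (N * Aᴴ))).trace +
      (N * (Aᴴ * (N * Aᴴ))).trace)) * Complex.I_sq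
  have e' := congrArg Complex.re e
  rw [Complex.add_re, Complex.add_re, Complex.re_ofReal_mul] at e'
  have := (abs_le.1 hε).1
  simp only [Function.comp, mul_one, Real.norm_eq_abs, abs_sq, zero_add, zero_sub] at this ⊢
  linarith only [e', this, hS, mul_nonneg (sq_nonneg ε) hS, sq_nonneg ε]

end Pool.Agent.Work.MP_677830_co.G
end

-- merged part: Pool.Agent.Work.MP_677830_co.G.An
section
/-!
# The Gram determinant of a kernel frame is weakly subharmonic
an0: if j = 0 then α is empty (independence) and the determinant is 1. Otherwise take a bump ρ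
(ContDiffBump, equal to 1 on a ball containing the nodes), pull, exists_ut for every row, and
ex2_integral for (a k, a l) and (b k, b l) with M = K (1 + ‖x‖)^(j-1) (integrable_wt with m = 2(j-1)),
Ex2.sub, Ex2.congr (gram_apply on the ball), ev_stokes. With ct the matrix of the new rows,
A = ct H cᴴ, C = ct H ctᴴ, the block matrix is (fromRows ct c) H (fromRows ct c)ᴴ
(PosSemidef.mul_mul_conjTranspose_same, gram_psd); gram_pd; mat_sm. an1: translate (sm_shift).
-/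

namespace Pool.Agent.Work.MP_677830_co.G

open Filter Topology Polynomial Matrix MeasureTheory
open scoped ComplexConjugate ComplexOrder

variable {ι : Type} [DecidableEq ι] {ν : ℝ} {A : Finset ι} {j : ℕ} {α : Type} [Fintype α]
  [DecidableEq α]

omit [DecidableEq ι] in
theorem An_bump (A : Finset ι) (y : ι → ℂ) : ∃ ρ : ℂ → ℂ, ContDiff ℝ 3 ρ ∧ HasCompactSupport ρ ∧
    ∀ i ∈ A, ∀ᶠ x in 𝓝 (y i), ρ x = 1 := by
  have h0 : 0 ≤ ∑ i ∈ A, ‖y i‖ := Finset.sum_nonneg fun _ _ => norm_nonneg _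
  let f : ContDiffBump (0 : ℂ) := ⟨∑ i ∈ A, ‖y i‖ + 1, ∑ i ∈ A, ‖y i‖ + 2, by linarith, by linarith⟩
  refine ⟨fun x => f x, Complex.ofRealCLM.contDiff.comp f.contDiff,
    f.hasCompactSupport.comp_left (g := Complex.ofReal) Complex.ofReal_zero, fun i hi => ?_⟩
  have h1 : y i ∈ Metric.ball 0 f.rIn := mem_ball_zero_iff.2
    ((Finset.single_le_sum (f := fun i => ‖y i‖) (fun _ _ => norm_nonneg _) hi).trans_lt
      (lt_add_one _))
  filter_upwards [f.eventuallyEq_one_of_mem_ball h1] with x hx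
  rw [hx, Pi.one_apply, Complex.ofReal_one]

omit [DecidableEq α] in
theorem An_block {H : Matrix (Fin j) (Fin j) ℂ} (hH : H.PosSemidef) (c d : Matrix α (Fin j) ℂ) :
    (Matrix.fromBlocks (d * H * dᴴ) (d * H * cᴴ) (d * H * cᴴ)ᴴ (c * H * cᴴ)).PosSemidef := by
  have h := hH.mul_mul_conjTranspose_same (Matrix.fromRows d c)
  rw [Matrix.conjTranspose_fromRows_eq_fromCols_conjTranspose, Matrix.fromRows_mul,
    Matrix.fromRows_mul_fromCols] at h
  rwa [conjTranspose_mul, conjTranspose_mul, conjTranspose_conjTranspose, hH.isHermitian.eq,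
    ← Matrix.mul_assoc]

theorem an0 (h0 : 0 < ν) (h1 : ν < 1) (hj : ν * A.card = j + 1) (z : ι → ℂ → ℂ)
    (hz : ∀ i ∈ A, AnalyticAt ℂ (z i) 0) (hy : Set.InjOn (fun i => z i 0) A)
    (c : ℂ → Matrix α (Fin j) ℂ) (hc : ∀ k l, AnalyticAt ℂ (fun s => c s k l) 0)
    (hl : LinearIndependent ℂ fun k => c 0 k)
    (hR : ∀ k, ∃ P : ℂ[X], P.natDegree ≤ j + 1 ∧
      ∀ i ∈ A, P.eval (z i 0) = pv (c 0 k) (z i 0) * deriv (z i) 0) :
    (c 0 * gramM ν A (fun i => z i 0) j * (c 0)ᴴ).det ≠ 0 ∧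
      ContinuousAt (fun s => Real.log ‖(c s * gramM ν A (fun i => z i s) j * (c s)ᴴ).det‖) 0 ∧
      SM (fun s => Real.log ‖(c s * gramM ν A (fun i => z i s) j * (c s)ᴴ).det‖) 0 := by
  rcases Nat.eq_zero_or_pos j with rfl | hj1
  · have : IsEmpty α := ⟨fun k => hl.ne_zero k (Subsingleton.elim _ _)⟩
    simp only [det_isEmpty]
    exact ⟨one_ne_zero, continuousAt_const, sm_const _ _⟩
  obtain ⟨ρ, r1, r2, r3⟩ := An_bump A fun i => z i 0
  obtain ⟨r, hr, K, a, b, p1, p2, p3, p4, p5⟩ :=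
    pull h0 h1 A z hz hy c hc r1 r2 fun i hi => (r3 i hi).self_of_nhds
  choose P hP hv using hR
  choose ct hct using fun k =>
    exists_ut hy hj (c 0 k) (fun l => deriv (fun s => c s k l) 0) (P k) (hP k) (hv k)
  have hI : Integrable fun x : ℂ => (K * (1 + ‖x‖) ^ (j - 1)) ^ 2 * wt ν A (fun i => z i 0) x := by
    refine ((integrable_wt h0 h1 hy (m := (j - 1) * 2) ?_).const_mul (K ^ 2)).congr
      (Eventually.of_forall fun x => ?_)
    · rw [mul_assoc, hj, Nat.cast_mul, Nat.cast_sub hj1]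
      push_cast
      linarith only [h0, h1]
    · simp only [mul_pow, pow_mul, mul_assoc]
  have ev := fun k l => ev_stokes h0 h1 hy hj1 hj r1 r2 r3 (c 0 k) _ (ct k) (c 0 l) _ (ct l) (P k)
    (P l) (hP k) (hv k) (hct k) (hP l) (hv l) (hct l)
  have e1 : ∀ k l, (Matrix.of ct * gramM ν A (fun i => z i 0) j * (c 0)ᴴ) k l = _ := fun k l =>
    (gram_apply h0 h1 hy hj (Matrix.of ct) (c 0) k l).trans ((ev k k).1 (c 0 l)).symm
  refine mat_sm (fun s => c s * gramM ν A (fun i => z i s) j * (c s)ᴴ) _ _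
    (gram_pd h0 h1 hy hj (c 0) hl) (An_block (gram_psd h0 h1 hy hj) (c 0) (Matrix.of ct))
    fun k l => ?_
  have Ia := ex2_integral (wt_nonneg ν A _) (measurable_wt ν A _) hI hr (f := a k) (g := a l)
    (fun x => (p1 k x).1) (fun x => (p1 l x).1) (fun s hs x => ((p2 k s hs).2.2 x).1)
    (fun s hs x => ((p2 l s hs).2.2 x).1) (fun s hs => (p2 k s hs).1) (fun s hs => (p2 l s hs).1)
    (Eventually.of_forall fun x => (p4 k x).1) (Eventually.of_forall fun x => (p4 l x).1)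
    (measurable_aone r1 _ _).1 (measurable_aone r1 _ _).1
  have Ib := ex2_integral (wt_nonneg ν A _) (measurable_wt ν A _) hI hr (f := b k) (g := b l)
    (fun x => (p1 k x).2) (fun x => (p1 l x).2) (fun s hs x => ((p2 k s hs).2.2 x).2)
    (fun s hs x => ((p2 l s hs).2.2 x).2) (fun s hs => (p2 k s hs).2.1)
    (fun s hs => (p2 l s hs).2.1)
    (Eventually.of_forall fun x => (p4 k x).2) (Eventually.of_forall fun x => (p4 l x).2)
    (measurable_aone (ν := ν) r1 _ 0).2 (measurable_aone (ν := ν) r1 _ 0).2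
  have h := Ia.2.sub Ib.2
  simp only [fun k x => (p3 k x).1, fun k x => (p3 k x).2, map_zero, mul_zero, zero_mul,
    integral_zero, sub_zero] at h
  rw [(ev k l).2] at h
  rw [e1 k l, e1 l k, ← integral_conj,
    gram_apply h0 h1 hy hj (Matrix.of ct) (Matrix.of ct) k l]
  simp only [map_mul, Complex.conj_conj, Complex.conj_ofReal, mul_comm _ (pv (c 0 k) _)]
  refine h.congr ?_
  filter_upwards [Metric.ball_mem_nhds 0 hr] with s hs
  rw [gram_apply h0 h1 (p5 s hs).1 hj, (p5 s hs).2, ← integral_sub (Ia.1 s hs) (Ib.1 s hs)]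
  simp only [sub_mul]


theorem an1 (h0 : 0 < ν) (h1 : ν < 1) (hj : ν * A.card = j + 1) (z : ι → ℂ → ℂ) (t : ℂ)
    (hz : ∀ i ∈ A, AnalyticAt ℂ (z i) t) (hy : Set.InjOn (fun i => z i t) A)
    (c : ℂ → Matrix α (Fin j) ℂ) (hc : ∀ k l, AnalyticAt ℂ (fun s => c s k l) t)
    (hl : LinearIndependent ℂ fun k => c t k)
    (hR : ∀ k, ∃ P : ℂ[X], P.natDegree ≤ j + 1 ∧
      ∀ i ∈ A, P.eval (z i t) = pv (c t k) (z i t) * deriv (z i) t) :
    (c t * gramM ν A (fun i => z i t) j * (c t)ᴴ).det ≠ 0 ∧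
      ContinuousAt (fun s => Real.log ‖(c s * gramM ν A (fun i => z i s) j * (c s)ᴴ).det‖) t ∧
      SM (fun s => Real.log ‖(c s * gramM ν A (fun i => z i s) j * (c s)ᴴ).det‖) t := by
  have ha : ∀ {f : ℂ → ℂ}, AnalyticAt ℂ f t → AnalyticAt ℂ (fun s => f (s + t)) 0 := fun hf =>
    hf.comp_of_eq (analyticAt_id.add analyticAt_const) (zero_add t)
  obtain ⟨a1, a2, a3⟩ := an0 h0 h1 hj (fun i s => z i (s + t)) (fun i hi => ha (hz i hi))
    (by simpa only [zero_add] using hy) (fun s => c (s + t)) (fun k l => ha (hc k l))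
    (by simpa only [zero_add] using hl) (by simpa only [deriv_comp_add_const, zero_add] using hR)
  refine ⟨by simpa only [zero_add] using a1, ?_, zero_add t ▸ (sm_shift t).1 a3⟩
  have := a2.comp_of_eq (continuous_sub_right t).continuousAt (sub_self t)
  simpa only [Function.comp_def, sub_add_cancel] using this


end Pool.Agent.Work.MP_677830_co.G
end
end
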