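import Pool.Agent.Work.MP_677830_co.G.QKer
import Pool.Agent.Work.MP_677830_co.G.An
import Pool.Agent.Work.MP_6ac3f6_an.Up2

-- merged part: Pool.Agent.Work.MP_677830_co.G.FrD
section
/-!
# Change of frame for cross ratios and the interpolation determinant
cr_frame: frame_sub and mul_div_mul_left. del_norm: y^α y'^β = (z-c)^(-(q-1)) (w-c')^(-(q-1)) *
pv (sig row α) z * pv (sig row β) w, so the matrix is diagonal * (matrix of del z w) *
(sig ⊗ₖ sig')ᵀ; det_kronecker, det_sig. del_frame: take logarithms, ‖z i - c‖⁻¹ = ‖y i‖ / ‖a‖, vs_frame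
with card = q^2, (q^2 - 1) / (q + 1) = q - 1, choose 2 formula (q = 0: empty index type).
-/

namespace Pool.Agent.Work.MP_677830_co.G

open Filter Topology Polynomial Matrix MeasureTheory
open scoped ComplexConjugate ComplexOrder

variable {ι : Type} [Fintype ι] [DecidableEq ι]

theorem cr_frame {z v y u : ι → ℂ} (hF : Frame z v y u) (x : ι × ι × ι × ι) : cr y x = cr z x := by
  obtain ⟨a, c, α, β, ha, h⟩ := hF
  have hy : ∀ i, y i ≠ 0 := fun i => by
    rw [(h i).2.1]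
    exact div_ne_zero ha (sub_ne_zero.2 (h i).1)
  have hs : ∀ i k, y i - y k = -(y i * y k * (z i - z k) / a) := fun i k => by
    rw [(h i).2.1, (h k).2.1]
    exact frame_sub ha (h i).1 (h k).1
  have hK : y x.1 * y x.2.1 * y x.2.2.1 * y x.2.2.2 / a ^ 2 ≠ 0 :=
    div_ne_zero (mul_ne_zero (mul_ne_zero (mul_ne_zero (hy _) (hy _)) (hy _)) (hy _))
      (pow_ne_zero _ ha)
  unfold cr
  rw [← mul_div_mul_left ((z x.1 - z x.2.1) * (z x.2.2.1 - z x.2.2.2)) _ hK, hs x.1 x.2.1,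
    hs x.2.2.1 x.2.2.2, hs x.1 x.2.2.1, hs x.2.1 x.2.2.2]
  congr 1 <;> ring

theorem LL_frame {z v y u : ι → ℂ} (hF : Frame z v y u) : LL y = LL z := by
  unfold LL
  exact Finset.sum_congr rfl fun x _ => by rw [cr_frame hF]

theorem LL_nonneg (z : ι → ℂ) : 0 ≤ LL z := by
  exact Finset.sum_nonneg fun _ _ => Real.posLog_nonneg

theorem FrD_pow {q : ℕ} {z a c : ℂ} (h : z ≠ c) (l : Fin q) :
    (a / (z - c)) ^ (l : ℕ) = ((z - c)⁻¹) ^ (q - 1) * ∑ k : Fin q, z ^ (k : ℕ) * sig q a c l k := by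
  have h1 : ∑ k : Fin q, z ^ (k : ℕ) * sig q a c l k = a ^ (l : ℕ) * (z - c) ^ (q - 1 - l) := by
    rw [← pv_sig q a c l z, pv]
    exact Finset.sum_congr rfl fun k _ => mul_comm _ _
  have h2 : z - c ≠ 0 := sub_ne_zero.2 h
  have h3 : q - 1 = (q - 1 - l) + l := by have := l.2; omega
  rw [h1]
  generalize q - 1 - l = m at h3 ⊢
  rw [h3, pow_add, div_pow, inv_pow, inv_pow]
  have := pow_ne_zero m h2
  have := pow_ne_zero (l : ℕ) h2
  field_simp

theorem del_norm {q : ℕ} {z w y y' : Ix q → ℂ} {a c a' c' : ℂ} (ha : a ≠ 0) (ha' : a' ≠ 0)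
    (h : ∀ i, z i ≠ c ∧ y i = a / (z i - c)) (h' : ∀ i, w i ≠ c' ∧ y' i = a' / (w i - c')) :
    ‖del q y y'‖ = ‖del q z w‖ * (∏ i, (‖y i‖ / ‖a‖ * (‖y' i‖ / ‖a'‖)) ^ (q - 1)) *
      (‖a‖ * ‖a'‖) ^ (q * q.choose 2) := by
  have hM : (Matrix.of fun i ab : Ix q => y i ^ (ab.1 : ℕ) * y' i ^ (ab.2 : ℕ)) =
      Matrix.diagonal (fun i => ((z i - c)⁻¹) ^ (q - 1) * ((w i - c')⁻¹) ^ (q - 1)) *
        ((Matrix.of fun i ab : Ix q => z i ^ (ab.1 : ℕ) * w i ^ (ab.2 : ℕ)) *
          (Matrix.kroneckerMap (· * ·) (sig q a c) (sig q a' c'))ᵀ) := by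
    ext i ab
    rw [Matrix.diagonal_mul, Matrix.mul_apply, Matrix.of_apply, (h i).2, (h' i).2,
      FrD_pow (h i).1, FrD_pow (h' i).1, mul_mul_mul_comm, Finset.sum_mul_sum,
      Fintype.sum_prod_type]
    refine congrArg _ (Finset.sum_congr rfl fun k _ => Finset.sum_congr rfl fun l _ => ?_)
    simp only [Matrix.of_apply, Matrix.transpose_apply, Matrix.kroneckerMap_apply]
    ring
  have hn : ∀ {t s b d : ℂ}, b ≠ 0 → s = b / (t - d) → ‖(t - d)⁻¹‖ = ‖s‖ / ‖b‖ := by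
    intro t s b d hb hs
    have : ‖b‖ ≠ 0 := norm_ne_zero_iff.2 hb
    rw [hs, norm_div, norm_inv]
    field_simp
  unfold del
  rw [hM, Matrix.det_mul, Matrix.det_mul, Matrix.det_transpose, Matrix.det_kronecker,
    Matrix.det_diagonal, norm_mul, norm_mul, norm_mul, norm_pow, norm_pow, det_sig, det_sig,
    norm_prod, Fintype.card_fin, ← pow_mul, ← pow_mul, mul_comm (q.choose 2) q, ← mul_pow]
  rw [Finset.prod_congr rfl fun i _ => show ‖((z i - c)⁻¹) ^ (q - 1) * ((w i - c')⁻¹) ^ (q - 1)‖ =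
      (‖y i‖ / ‖a‖ * (‖y' i‖ / ‖a'‖)) ^ (q - 1) by
    rw [norm_mul, norm_pow, norm_pow, hn ha (h i).2, hn ha' (h' i).2, mul_pow]]
  ring

theorem del_frame {q : ℕ} {z w v v' y y' u u' : Ix q → ℂ} (hz : Function.Injective z)
    (hw : Function.Injective w) (hF : Frame z v y u) (hF' : Frame w v' y' u')
    (hd : del q z w ≠ 0) : del q y y' ≠ 0 ∧
      2 * Real.log ‖del q y y'‖ - (vs Finset.univ y + vs Finset.univ y') / (q + 1) =
        2 * Real.log ‖del q z w‖ - (vs Finset.univ z + vs Finset.univ w) / (q + 1) := by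
  rcases q with _ | n
  · have h1 : y = z := funext fun i => i.1.elim0
    have h2 : y' = w := funext fun i => i.1.elim0
    rw [h1, h2]
    exact ⟨hd, rfl⟩
  obtain ⟨a, c, α, β, ha, h⟩ := hF
  obtain ⟨a', c', α', β', ha', h'⟩ := hF'
  have g : ∀ i, z i ≠ c ∧ y i = a / (z i - c) := fun i => ⟨(h i).1, (h i).2.1⟩
  have g' : ∀ i, w i ≠ c' ∧ y' i = a' / (w i - c') := fun i => ⟨(h' i).1, (h' i).2.1⟩
  have hy : ∀ i, ‖y i‖ ≠ 0 := fun i => by
    rw [(g i).2]
    exact norm_ne_zero_iff.2 (div_ne_zero ha (sub_ne_zero.2 (g i).1))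
  have hy' : ∀ i, ‖y' i‖ ≠ 0 := fun i => by
    rw [(g' i).2]
    exact norm_ne_zero_iff.2 (div_ne_zero ha' (sub_ne_zero.2 (g' i).1))
  have na : ‖a‖ ≠ 0 := norm_ne_zero_iff.2 ha
  have na' : ‖a'‖ ≠ 0 := norm_ne_zero_iff.2 ha'
  have nd : ‖del (n + 1) z w‖ ≠ 0 := norm_ne_zero_iff.2 hd
  have hp : ∀ i, (‖y i‖ / ‖a‖ * (‖y' i‖ / ‖a'‖)) ^ (n + 1 - 1) ≠ 0 := fun i =>
    pow_ne_zero _ (mul_ne_zero (div_ne_zero (hy i) na) (div_ne_zero (hy' i) na'))
  have hP : ∏ i, (‖y i‖ / ‖a‖ * (‖y' i‖ / ‖a'‖)) ^ (n + 1 - 1) ≠ 0 :=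
    Finset.prod_ne_zero_iff.2 fun i _ => hp i
  have hA : (‖a‖ * ‖a'‖) ^ ((n + 1) * (n + 1).choose 2) ≠ 0 := pow_ne_zero _ (mul_ne_zero na na')
  have hN := del_norm ha ha' g g'
  refine ⟨norm_ne_zero_iff.1 (hN ▸ mul_ne_zero (mul_ne_zero nd hP) hA), ?_⟩
  have hL : ∀ i, Real.log ((‖y i‖ / ‖a‖ * (‖y' i‖ / ‖a'‖)) ^ (n + 1 - 1)) =
      n * (Real.log ‖y i‖ + Real.log ‖y' i‖ - (Real.log ‖a‖ + Real.log ‖a'‖)) := fun i => by
    rw [Real.log_pow, Real.log_mul (div_ne_zero (hy i) na) (div_ne_zero (hy' i) na'),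
      Real.log_div (hy i) na, Real.log_div (hy' i) na', Nat.add_sub_cancel]
    ring
  have hc : ((Finset.univ : Finset (Ix (n + 1))).card : ℝ) = (n + 1) * (n + 1) := by
    rw [Finset.card_univ, Fintype.card_prod, Fintype.card_fin]
    push_cast
    ring
  have hch : (((n + 1).choose 2 : ℕ) : ℝ) = (n + 1) * n / 2 := by
    rw [Nat.cast_choose_two]
    push_cast
    ring
  rw [hN, Real.log_mul (mul_ne_zero nd hP) hA, Real.log_mul nd hP,
    Real.log_prod fun i _ => hp i, Finset.sum_congr rfl fun i _ => hL i, Real.log_pow,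
    Real.log_mul na na', vs_frame hz ha g, vs_frame hw ha' g', ← Finset.mul_sum,
    Finset.sum_sub_distrib, Finset.sum_add_distrib, Finset.sum_const, nsmul_eq_mul, hc]
  push_cast
  rw [hch]
  have : (n : ℝ) + 1 + 1 ≠ 0 := by positivity
  field_simp
  ring

theorem Psi_frame {q : ℕ} {z w v v' y y' u u' : Ix q → ℂ} (hz : Function.Injective z)
    (hw : Function.Injective w) (hF : Frame z v y u) (hF' : Frame w v' y' u')
    (hd : del q z w ≠ 0) (Φ Φ' : Finset (Ix q) → ℝ) :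
    Psi q y y' (fun A => Φ A + cn (24 * q) * vs A z - cn (24 * q) * vs A y)
      (fun A => Φ' A + cn (24 * q) * vs A w - cn (24 * q) * vs A y') = Psi q z w Φ Φ' := by
  unfold Psi
  rw [(del_frame hz hw hF hF' hd).2]
  refine congrArg (· + _) (congrArg (· / _) (Finset.sum_congr rfl fun A _ => ?_))
  ring

end Pool.Agent.Work.MP_677830_co.G
end

-- merged part: Pool.Agent.Work.MP_677830_co.G.AFr
section
/-!
# Balanced frames at a point of the plane and trees along an ultrafilter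
point_frame: among the pairs (i, k) such that the closed disc around z i of radius ‖z k - z i‖ contains
more than N/2 points take one, (i0, k0), with the least radius a > 0; then every open disc of radius a
around a point contains at most N/2 points. Among c = z i0 + a m / N, m = 0..N, one is at distance
≥ a / (2N) from all points (pigeonhole). α = v i0, β = 0.
u i - u k = (y i - y k)(λ - (v i - v i0)/(z i - c) - (v k - v i0)/(z k - c)), λ = (v i - v k)/(z i - z k).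
Cluster bound: if ‖y i‖ ≥ 1/4 then ‖y k‖ ≥ 7/32 and ‖z i - z k‖ = a ‖y i - y k‖ / (‖y i‖ ‖y k‖) < a;
otherwise ‖y k‖ < 1/2, ‖z k - c‖ > 2a, z k is outside the closed disc.
sep_lower: if ‖y i - y k‖ < 1/64 take j ≠ l at distance ≥ 1/32 from y i and the cross ratio (i,j,k,l).
ultra_tree: m i k = ultrafilter limit of log ‖y i - y k‖ / log τ, in [0, 1]; symmetric, ultrametric.
Values = {0} ∪ {m i k}, sorted (Finset.orderEmbOfFin); σ s = s-th value, continued by + 1 steps;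
μ i k = index of m i k (0 on the diagonal). μ ≥ 1 gives ‖y i - y k‖ → 0.
-/

namespace Pool.Agent.Work.MP_677830_co.G

open Filter Topology Polynomial Matrix MeasureTheory
open scoped ComplexConjugate ComplexOrder

variable {ι : Type} [Fintype ι] [DecidableEq ι]

omit [DecidableEq ι] in
theorem AFr_ball (hN : 2 ≤ Fintype.card ι) {z : ι → ℂ} (hz : Function.Injective z) :
    ∃ (i₀ : ι) (a : ℝ), 0 < a ∧
      Fintype.card ι < 2 * (Finset.univ.filter fun j => ‖z j - z i₀‖ ≤ a).card ∧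
      ∀ i, 2 * (Finset.univ.filter fun j => ‖z j - z i‖ < a).card ≤ Fintype.card ι := by
  have : Nonempty ι := Fintype.card_pos_iff.1 (by omega)
  obtain ⟨i₁⟩ := id this
  obtain ⟨p, hp, hm⟩ := Finset.exists_min_image (Finset.univ.filter fun p : ι × ι =>
    Fintype.card ι < 2 * (Finset.univ.filter fun j => ‖z j - z p.1‖ ≤ ‖z p.2 - z p.1‖).card)
    (fun p => ‖z p.2 - z p.1‖) (by
      obtain ⟨k, -, hk⟩ := Finset.exists_max_image Finset.univ (fun j => ‖z j - z i₁‖)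
        ⟨i₁, Finset.mem_univ _⟩
      refine ⟨(i₁, k), Finset.mem_filter.2 ⟨Finset.mem_univ _, ?_⟩⟩
      rw [Finset.filter_true_of_mem hk, Finset.card_univ]
      omega)
  have hp' := (Finset.mem_filter.1 hp).2
  have ha : 0 < ‖z p.2 - z p.1‖ := by
    refine (norm_nonneg _).lt_of_ne' fun h0 => ?_
    have := Finset.card_le_one_iff_subset_singleton.2
      ⟨p.1, fun j (hj : j ∈ Finset.univ.filter fun j => ‖z j - z p.1‖ ≤ ‖z p.2 - z p.1‖) =>
        Finset.mem_singleton.2 (hz (sub_eq_zero.1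
          (norm_le_zero_iff.1 ((Finset.mem_filter.1 hj).2.trans h0.le))))⟩
    omega
  refine ⟨p.1, _, ha, hp', fun i => not_lt.1 fun h => ?_⟩
  obtain ⟨k, hk, hk'⟩ := Finset.exists_max_image
    (Finset.univ.filter fun j => ‖z j - z i‖ < ‖z p.2 - z p.1‖) (fun j => ‖z j - z i‖)
    ⟨i, Finset.mem_filter.2 ⟨Finset.mem_univ _, by rwa [sub_self, norm_zero]⟩⟩
  exact absurd (Finset.mem_filter.1 hk).2 (not_lt.2 (hm (i, k) (Finset.mem_filter.2
    ⟨Finset.mem_univ _, h.trans_le (Nat.mul_le_mul_left 2 (Finset.card_le_card fun j hj =>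
      Finset.mem_filter.2 ⟨Finset.mem_univ _, hk' j hj⟩))⟩)))

omit [DecidableEq ι] in
theorem AFr_pt (hN : 0 < Fintype.card ι) (z : ι → ℂ) (w : ℂ) {a : ℝ} (ha : 0 < a) :
    ∃ c : ℂ, ‖c - w‖ ≤ a ∧ ∀ j, a ≤ 2 * Fintype.card ι * ‖z j - c‖ := by
  have hN' : (0 : ℝ) < Fintype.card ι := Nat.cast_pos.2 hN
  by_contra! h
  have h1 : ∀ m : Fin (Fintype.card ι + 1),
      ‖w + ((a * (m : ℕ) / Fintype.card ι : ℝ) : ℂ) - w‖ ≤ a := fun m => by
    have : ((m : ℕ) : ℝ) ≤ Fintype.card ι := Nat.cast_le.2 (Nat.lt_succ_iff.1 m.2)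
    rw [add_sub_cancel_left, Complex.norm_real, Real.norm_of_nonneg (by positivity),
      div_le_iff₀ hN']
    exact mul_le_mul_of_nonneg_left this ha.le
  choose j hj using fun m => h _ (h1 m)
  obtain ⟨m, m', hne, he⟩ := Fintype.exists_ne_map_eq_of_card_lt j (by simp)
  have h2 : (1 : ℝ) ≤ |((m : ℕ) : ℝ) - (m' : ℕ)| := by
    have : ((m : ℕ) : ℤ) - (m' : ℕ) ≠ 0 := fun h => hne (Fin.ext (by omega))
    exact_mod_cast Int.one_le_abs this
  have h3 := hj m
  have h4 := hj m'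
  rw [← he] at h4
  have h5 := norm_sub_le (z (j m) - (w + ((a * (m' : ℕ) / Fintype.card ι : ℝ) : ℂ)))
    (z (j m) - (w + ((a * (m : ℕ) / Fintype.card ι : ℝ) : ℂ)))
  rw [show z (j m) - (w + ((a * (m' : ℕ) / Fintype.card ι : ℝ) : ℂ)) -
      (z (j m) - (w + ((a * (m : ℕ) / Fintype.card ι : ℝ) : ℂ))) =
      ((a / Fintype.card ι * (((m : ℕ) : ℝ) - (m' : ℕ)) : ℝ) : ℂ) by push_cast; ring,
    Complex.norm_real, Real.norm_eq_abs, abs_mul, abs_of_pos (div_pos ha hN')] at h5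
  have h6 := (le_mul_of_one_le_right (div_pos ha hN').le h2).trans h5
  rw [div_le_iff₀ hN'] at h6
  linarith only [h3, h4, h6]

theorem AFr_u {a p q w w' : ℂ} (ha : a ≠ 0) (hp : p ≠ 0) (hq : q ≠ 0) {B : ℝ}
    (h : ‖w - w'‖ ≤ ‖p - q‖) (h1 : ‖w‖ ≤ B * ‖p‖) (h2 : ‖w'‖ ≤ B * ‖q‖) :
    ‖-((a / p) ^ 2 / a) * w - -((a / q) ^ 2 / a) * w'‖ ≤ (1 + 2 * B) * ‖a / p - a / q‖ := by
  have e : -((a / p) ^ 2 / a) * w - -((a / q) ^ 2 / a) * w' =
      -(a / (p * q)) * (w - w') - (a / p - a / q) * (w / p + w' / q) := by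
    field_simp
    ring
  have e2 : a / p - a / q = -(a / (p * q)) * (p - q) := by
    field_simp
    ring
  have b1 : ‖-(a / (p * q)) * (w - w')‖ ≤ ‖a / p - a / q‖ := by
    rw [e2, norm_mul, norm_mul]
    exact mul_le_mul_of_nonneg_left h (norm_nonneg _)
  have b2 : ‖w / p‖ ≤ B := by rwa [norm_div, div_le_iff₀ (norm_pos_iff.2 hp)]
  have b3 : ‖w' / q‖ ≤ B := by rwa [norm_div, div_le_iff₀ (norm_pos_iff.2 hq)]
  have b4 := mul_le_mul_of_nonneg_left ((norm_add_le _ _).trans (add_le_add b2 b3))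
    (norm_nonneg (a / p - a / q))
  have b5 := norm_sub_le (-(a / (p * q)) * (w - w')) ((a / p - a / q) * (w / p + w' / q))
  rw [norm_mul (a / p - a / q)] at b5
  rw [e]
  linarith only [b1, b4, b5]

theorem point_frame (hN : 2 ≤ Fintype.card ι) (z v : ι → ℂ) (hz : Function.Injective z)
    (hv : ∀ i k, ‖v i - v k‖ ≤ ‖z i - z k‖) : ∃ y u : ι → ℂ, Frame z v y u ∧
      (∀ i, ‖y i‖ ≤ 2 * Fintype.card ι + 2) ∧
      (∀ i k, ‖u i - u k‖ ≤ (4 * Fintype.card ι + 7) * ‖y i - y k‖) ∧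
      ∀ i, 2 * (Finset.univ.filter fun k => ‖y k - y i‖ < 1 / 32).card ≤ Fintype.card ι := by
  obtain ⟨i₀, a, ha, hD, hB⟩ := AFr_ball hN hz
  obtain ⟨c, hc, hf⟩ := AFr_pt (by omega) z (z i₀) ha
  have ha' : (a : ℂ) ≠ 0 := Complex.ofReal_ne_zero.2 ha.ne'
  have hp : ∀ j, z j - c ≠ 0 := fun j h => by
    have := hf j
    rw [h, norm_zero, mul_zero] at this
    exact absurd ha (not_lt.2 this)
  have hp' : ∀ j, 0 < ‖z j - c‖ := fun j => norm_pos_iff.2 (hp j)
  have hy : ∀ j, ‖(a : ℂ) / (z j - c)‖ = a / ‖z j - c‖ := fun j => by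
    rw [norm_div, Complex.norm_real, Real.norm_of_nonneg ha.le]
  have hw : ∀ j, ‖v j - v i₀ - 0 * z j‖ ≤ (1 + 2 * Fintype.card ι) * ‖z j - c‖ := fun j => by
    have h1 := norm_add_le (z j - c) (c - z i₀)
    rw [sub_add_sub_cancel] at h1
    rw [zero_mul, sub_zero]
    linarith only [hc, h1, hv, hf, hv j i₀, hf j]
  refine ⟨fun i => a / (z i - c), fun i => -((a / (z i - c)) ^ 2 / a) * (v i - v i₀ - 0 * z i),
    ⟨a, c, v i₀, 0, ha', fun i => ⟨sub_ne_zero.1 (hp i), rfl, rfl⟩⟩, fun i => ?_, fun i k => ?_,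
    fun i => ?_⟩
  · rw [hy, div_le_iff₀ (hp' i)]
    linarith [hf i, hp' i]
  · refine (AFr_u ha' (hp i) (hp k) ?_ (hw i) (hw k)).trans
      (mul_le_mul_of_nonneg_right (by linarith) (norm_nonneg _))
    rw [zero_mul, zero_mul, sub_zero, sub_zero, sub_sub_sub_cancel_right, sub_sub_sub_cancel_right]
    exact hv i k
  by_cases h : 1 / 4 ≤ ‖(a : ℂ) / (z i - c)‖
  · refine (Nat.mul_le_mul_left 2 (Finset.card_le_card fun k hk => ?_)).trans (hB i)
    have h1 : ‖(a : ℂ) / (z k - c) - a / (z i - c)‖ < 1 / 32 := (Finset.mem_filter.1 hk).2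
    have h2 := norm_sub_norm_le ((a : ℂ) / (z i - c)) (a / (z k - c))
    rw [norm_sub_rev] at h2
    rw [frame_sub ha' (sub_ne_zero.1 (hp k)) (sub_ne_zero.1 (hp i)), norm_neg, norm_div, norm_mul,
      norm_mul, Complex.norm_real, Real.norm_of_nonneg ha.le, div_lt_iff₀ ha] at h1
    refine Finset.mem_filter.2 ⟨Finset.mem_univ _, ?_⟩
    have h3 : 7 / 32 ≤ ‖(a : ℂ) / (z k - c)‖ := by
      have h1 : ‖(a : ℂ) / (z k - c) - a / (z i - c)‖ < 1 / 32 := (Finset.mem_filter.1 hk).2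
      linarith only [h, h2, h1]
    have h4 := mul_le_mul_of_nonneg_right (mul_le_mul h3 h (by norm_num) (norm_nonneg _))
      (norm_nonneg (z k - z i))
    linarith only [ha, h1, h4]
  · have h0 : (Finset.univ.filter fun k => ‖(a : ℂ) / (z k - c) - a / (z i - c)‖ < 1 / 32) ⊆
        Finset.univ.filter fun j => ¬ ‖z j - z i₀‖ ≤ a := fun k hk => by
      have h1 := (Finset.mem_filter.1 hk).2
      have h2 := norm_sub_norm_le ((a : ℂ) / (z k - c)) (a / (z i - c))
      have h3 : a / ‖z k - c‖ < 1 / 2 := by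
        rw [← hy]
        linarith only [h, h1, h2, not_le.1 h]
      have h4 := norm_sub_le (z k - z i₀) (c - z i₀)
      rw [sub_sub_sub_cancel_right] at h4
      rw [div_lt_iff₀ (hp' k)] at h3
      exact Finset.mem_filter.2 ⟨Finset.mem_univ _, fun h5 => by linarith only [hc, h3, h4, h5]⟩
    have h1 := Finset.card_le_card h0
    have h2 := Finset.card_filter_add_card_filter_not (s := Finset.univ)
      fun j => ‖z j - z i₀‖ ≤ a
    rw [Finset.card_univ] at h2
    beta_reduce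
    omega

theorem sep_lower (hN : 4 ≤ Fintype.card ι) {y : ι → ℂ} (hy : Function.Injective y) {K : ℝ}
    (hK : 1 ≤ K) (hb : ∀ i, ‖y i‖ ≤ K)
    (hcl : ∀ i, 2 * (Finset.univ.filter fun k => ‖y k - y i‖ < 1 / 32).card ≤ Fintype.card ι)
    {i k : ι} (hik : i ≠ k) : Real.exp (-LL y) ≤ 4096 * K * ‖y i - y k‖ := by
  have hd : 0 < ‖y i - y k‖ := norm_pos_iff.2 (sub_ne_zero.2 (hy.ne hik))
  by_cases h : 1 / 64 ≤ ‖y i - y k‖
  · have h1 : Real.exp (-LL y) ≤ 1 := Real.exp_le_one_iff.2 (neg_nonpos.2 (LL_nonneg y))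
    have h2 := mul_le_mul hK h (by norm_num) (by linarith only [hK])
    linarith only [h1, h2]
  have h1 := Finset.card_filter_add_card_filter_not (s := Finset.univ)
    fun k => ‖y k - y i‖ < 1 / 32
  rw [Finset.card_univ] at h1
  obtain ⟨j, hj, l, hl, hjl⟩ := Finset.one_lt_card.1
    (show 1 < (Finset.univ.filter fun k => ¬ ‖y k - y i‖ < 1 / 32).card by
      have := hcl i
      omega)
  have a1 : 1 / 32 ≤ ‖y i - y j‖ := norm_sub_rev (y j) (y i) ▸ not_lt.1 (Finset.mem_filter.1 hj).2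
  have a2 : 1 / 64 ≤ ‖y k - y l‖ := by
    have b1 := not_lt.1 (Finset.mem_filter.1 hl).2
    have b2 := norm_add_le (y i - y k) (y k - y l)
    rw [sub_add_sub_cancel, norm_sub_rev] at b2
    linarith only [h, b1, b2, not_le.1 h]
  have a3 : ‖y j - y l‖ ≤ 2 * K := (norm_sub_le _ _).trans (by linarith only [hb, hb j, hb l])
  have a4 : 0 < ‖y j - y l‖ := norm_pos_iff.2 (sub_ne_zero.2 (hy.ne hjl))
  have a5 : (4096 * K * ‖y i - y k‖)⁻¹ ≤ ‖cr y (i, j, k, l)‖ := by
    have b1 := mul_le_mul a1 a2 (by norm_num) (norm_nonneg _)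
    have b2 := mul_le_mul_of_nonneg_left a3 hd.le
    have b3 := mul_le_mul_of_nonneg_left b1 (by positivity : 0 ≤ 4096 * K * ‖y i - y k‖)
    rw [cr, norm_div, norm_mul, norm_mul, le_div_iff₀ (mul_pos hd a4),
      inv_mul_le_iff₀ (by positivity)]
    linarith only [b2, b3]
  have a6 : Real.posLog ‖cr y (i, j, k, l)‖ ≤ LL y :=
    Finset.single_le_sum (f := fun x => Real.posLog ‖cr y x‖) (fun _ _ => Real.posLog_nonneg)
      (Finset.mem_univ _)
  have a7 := (Real.log_le_log (by positivity) a5).trans (le_max_right 0 _ |>.trans a6)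
  rw [Real.log_inv] at a7
  exact (Real.le_log_iff_exp_le (by positivity)).1 (by linarith only [a7])

theorem AFr_le {T : Type} {S : Scale T} [S.F.NeBot] {f : T → ℂ} {κ m : ℝ} (h : S.Ge κ f)
    (h' : S.Ge (-m) fun t => (f t)⁻¹) (h0 : ∀ t, f t ≠ 0) : κ ≤ m := by
  by_contra! hc
  have hp : 0 < (κ - m) / 2 := by linarith only [hc]
  obtain ⟨t, h1, h2⟩ := ((h.mul h' ((κ - m) / 2) (by linarith)).and (S.ev_mul_le 2 hp)).exists
  simp only [mul_inv_cancel₀ (h0 t), norm_one] at h1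
  rw [Real.rpow_zero] at h2
  linarith only [h2, h1]

theorem AFr_ord (S : Scale ℕ) (U : Ultrafilter ℕ) (hF : S.F = U) {f : ℕ → ℂ} (h0 : S.Ge 0 f)
    {K' : ℝ} (hl : ∀ n, S.τ n ≤ K' * ‖f n‖) :
    ∃ m, S.Ge m f ∧ S.Ge (-m) fun t => (f t)⁻¹ := by
  have : S.F.NeBot := hF ▸ U.neBot
  have hb : BddAbove {κ : ℝ | ∀ᶠ n in S.F, ‖f n‖ ≤ S.τ n ^ κ} := ⟨1, fun κ hκ => by
    by_contra! hc
    obtain ⟨n, h1, h2, h3⟩ := (Eventually.and hκ ((S.ev_mul_le (2 * |K'|) hc).and S.pos)).exists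
    rw [Real.rpow_one] at h2
    have h4 := mul_le_mul (le_abs_self K') h1 (norm_nonneg _) (abs_nonneg _)
    linarith only [h2, h3, h4, hl, hl n]⟩
  refine ⟨sSup {κ : ℝ | ∀ᶠ n in S.F, ‖f n‖ ≤ S.τ n ^ κ}, fun κ hκ => ?_, fun κ hκ => ?_⟩
  · obtain ⟨κ', h1, h2⟩ := exists_lt_of_lt_csSup ⟨-1, h0 (-1) (by norm_num)⟩ hκ
    filter_upwards [h1, S.ev_mul_le 1 h2] with n h3 h4
    linarith
  · have h1 : ¬ ∀ᶠ n in S.F, ‖f n‖ ≤ S.τ n ^ (-κ) := fun h => by
      have := le_csSup hb h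
      linarith
    rw [hF, ← Ultrafilter.eventually_not, ← hF] at h1
    filter_upwards [h1, S.pos] with n h2 h3
    rw [Real.rpow_neg h3.le] at h2
    rw [norm_inv]
    exact inv_le_of_inv_le₀ (Real.rpow_pos_of_pos h3 κ) (not_le.1 h2).le

theorem AFr_enum (V : Finset ℝ) : (∀ x ∈ V, 0 ≤ x) → ∃ (n : ℕ) (σ : ℕ → ℝ), σ 0 = 0 ∧
    StrictMono σ ∧ (∀ x ∈ V, ∃ s ≤ n, σ s = x) ∧ (σ n = 0 ∨ σ n ∈ V) := by
  induction V using Finset.induction_on_max with
  | empty => exact fun _ => ⟨0, Nat.cast, Nat.cast_zero, Nat.strictMono_cast, by simp, by simp⟩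
  | insert a V ha ih =>
    intro h
    obtain ⟨n, σ, h0, h1, h2, h3⟩ := ih fun x hx => h x (Finset.mem_insert_of_mem hx)
    rcases (h a (Finset.mem_insert_self _ _)).eq_or_lt with e | e
    · refine ⟨n, σ, h0, h1, fun x hx => ?_, h3.imp id Finset.mem_insert_of_mem⟩
      rcases Finset.mem_insert.1 hx with rfl | hx
      · exact ⟨0, n.zero_le, h0.trans e⟩
      · exact h2 x hx
    have h4 : σ n < a := h3.elim (fun h => h ▸ e) (ha _)
    have h5 : (if n + 1 ≤ n then σ (n + 1) else a + ((n + 1 : ℕ) - (n + 1 : ℝ))) = a := by simp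
    refine ⟨n + 1, fun s => if s ≤ n then σ s else a + (s - (n + 1 : ℝ)), by simp [h0],
      strictMono_nat_of_lt_succ fun s => ?_, fun x hx => ?_,
      .inr (Finset.mem_insert.2 (.inl h5))⟩
    · rcases lt_trichotomy s n with g | rfl | g
      · rw [if_pos g.le, if_pos (Nat.succ_le_of_lt g)]
        exact h1 s.lt_succ_self
      · rw [if_pos le_rfl, h5]
        exact h4
      · rw [if_neg (by omega), if_neg (by omega)]
        push_cast
        linarith only []
    · rcases Finset.mem_insert.1 hx with rfl | hx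
      · exact ⟨n + 1, le_rfl, h5⟩
      · obtain ⟨s, g1, g2⟩ := h2 x hx
        exact ⟨s, g1.trans n.le_succ, (if_pos g1).trans g2⟩

theorem ultra_tree (S : Scale ℕ) (U : Ultrafilter ℕ) (hF : S.F = U) (hτ : ∀ n, 0 < S.τ n)
    (y : ι → ℕ → ℂ) (K K' : ℝ) (hb : ∀ i n, ‖y i n‖ ≤ K)
    (hl : ∀ i k, i ≠ k → ∀ n, S.τ n ≤ K' * ‖y i n - y k n‖)
    (hcl : ∀ n i, 2 * (Finset.univ.filter fun k => ‖y k n - y i n‖ < 1 / 32).card ≤
      Fintype.card ι) :
    ∃ (R : Tree ι) (σ : ℕ → ℝ), Lev σ 0 ∧ R.Bal ∧ Cfg S R σ y := by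
  have : S.F.NeBot := hF ▸ U.neBot
  have hy : ∀ i, S.Ge 0 (y i) := fun i => Scale.ge_of_bdd K (.of_forall (hb i))
  have h0 : ∀ i k, i ≠ k → ∀ n, y i n - y k n ≠ 0 := fun i k h n e => by
    have := hl i k h n
    rw [e, norm_zero, mul_zero] at this
    exact absurd (hτ n) (not_lt.2 this)
  have h1 : ∀ i k, ∃ m : ℝ, 0 ≤ m ∧ (i ≠ k → S.Ge m (fun t => y i t - y k t) ∧
      S.Ge (-m) fun t => (y i t - y k t)⁻¹) := fun i k => by
    by_cases h : i = k
    · exact ⟨0, le_rfl, fun h' => absurd h h'⟩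
    obtain ⟨m, h2, h3⟩ := AFr_ord S U hF ((hy i).sub (hy k)) (hl i k h)
    exact ⟨m, AFr_le ((hy i).sub (hy k)) h3 (h0 i k h), fun _ => ⟨h2, h3⟩⟩
  choose m m0 hm using h1
  obtain ⟨n₀, σ, s0, s1, s2, -⟩ := AFr_enum (Finset.univ.image fun p : ι × ι => m p.1 p.2)
    fun x hx => by
      obtain ⟨p, -, rfl⟩ := Finset.mem_image.1 hx
      exact m0 _ _
  choose μ _ hμ using fun i k => s2 (m i k) (Finset.mem_image.2 ⟨(i, k), Finset.mem_univ _, rfl⟩)
  have h2 : ∀ i k, μ i k ≤ μ k i := fun i k => by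
    by_cases h : i = k
    · rw [h]
    rw [← s1.le_iff_le, hμ, hμ]
    exact AFr_le ((hm i k h).1.neg.congr (.of_forall fun t => neg_sub _ _)) (hm k i (Ne.symm h)).2
      (h0 k i (Ne.symm h))
  have h3 : ∀ i j k, i ≠ j → j ≠ k → i ≠ k → min (μ i j) (μ j k) ≤ μ i k :=
    fun i j k a b c => by
      rw [← s1.le_iff_le, s1.monotone.map_min, hμ, hμ, hμ]
      exact AFr_le ((((hm i j a).1.mono (min_le_left _ _)).add
        ((hm j k b).1.mono (min_le_right _ _))).congr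
          (.of_forall fun t => sub_add_sub_cancel _ _ _)) (hm i k c).2 (h0 i k c)
  refine ⟨⟨μ, fun i k => (h2 i k).antisymm (h2 k i), h3⟩, σ,
    ⟨s0, s1, le_rfl, fun s => sub_nonneg.2 (s1 s.lt_succ_self).le⟩, fun i => ?_,
    hy, fun i k h => ?_⟩
  · have h4 : ∀ k, ∀ᶠ n in S.F, k = i ∨ 1 ≤ μ i k → ‖y k n - y i n‖ < 1 / 32 := fun k => by
      by_cases h : k = i
      · exact .of_forall fun n _ => by rw [h, sub_self, norm_zero]; norm_num
      by_cases h' : 1 ≤ μ i k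
      · have h5 : 0 < m i k := by
          rw [← hμ, ← s0]
          exact s1 h'
        filter_upwards [(hm i k (Ne.symm h)).1 _ (half_lt_self h5),
          S.ev_mul_le 64 (half_pos h5)] with n h6 h7 _
        rw [Real.rpow_zero] at h7
        rw [norm_sub_rev]
        linarith only [h6, h7]
      · exact .of_forall fun n h5 => (h5.elim h h').elim
    obtain ⟨n, hn⟩ := (eventually_all.2 h4).exists
    exact (Nat.mul_le_mul_left 2 (Finset.card_le_card fun k hk => Finset.mem_filter.2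
      ⟨Finset.mem_univ _, hn k (Finset.mem_filter.1 hk).2⟩)).trans (hcl n i)
  · refine ⟨?_, ?_, .of_forall fun t => sub_ne_zero.1 (h0 i k h t)⟩
    · exact (hμ i k).symm ▸ (hm i k h).1
    · exact (hμ i k).symm ▸ (hm i k h).2

end Pool.Agent.Work.MP_677830_co.G
end

-- merged part: Pool.Agent.Work.MP_677830_co.G.LH
section
/-!
# The local Hodge inequality
j1 = p - 1, j2 = 3p - 1. exists_bases for ν = 1/4 and 3/4. B t = matrix of coefficients of
bp (Sb l) (Matrix.of fun l k => coeff k); it is triangular with determinant 1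
(Matrix.det_matrixOfPolynomials or the transpose), pv (B l) = eval (pv_coeff),
(B T B'ᵀ) k l = th (theta_apply). nb l t = sqrt of the integral (gram_cs, tb_ge: |Sb l| = l ≤ j - 1).
Each term of msum has order (sum of e over f) + (sum of e' over g) - cost + (e over the complement)
+ (e' over the complement) by ge_theta (degree l + l' + 2 ≤ 4p); so exp Φ ≤ ‖(cst * msum)^2‖ gives
LogLe (2 (sum e + sum e' - cost)) Φ. vs has LogLe (mass). Conclude with lh_num, cn_nonneg.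
-/

namespace Pool.Agent.Work.MP_677830_co.G

open Filter Topology Polynomial Matrix MeasureTheory
open scoped ComplexConjugate ComplexOrder

variable {ι : Type} [Fintype ι] [DecidableEq ι] {T : Type} {S : Scale T} {R : Tree ι}
  {σ : ℕ → ℝ} {ϑ : ℝ} {y u : ι → T → ℂ} {D : ℕ → T → ℂ} {A : Finset ι}

theorem det_coeff_bp {j : ℕ} (Sb : ℕ → Finset ι) (h : ∀ l < j, (Sb l).card = l) (z : ι → ℂ) :
    (Matrix.of fun l k : Fin j => (bp (Sb l) z).coeff k).det = 1 := by
  rw [← Matrix.det_transpose]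
  exact Matrix.det_matrixOfPolynomials (fun l : Fin j => bp (Sb l) z)
    (fun l => (natDegree_bp _ _).trans (h l l.2)) fun l => monic_bp _ _

theorem logLe_vs (hc : Cfg S R σ y) (A : Finset ι) :
    S.LogLe (R.mass σ A) fun t => vs A fun i => y i t := by
  refine Scale.logLe_sum A.offDiag fun x hx => ?_
  have h := hc.2 x.1 x.2 (Finset.mem_offDiag.1 hx).2.2
  exact h.1.logLe (h.2.2.mono fun t ht => sub_ne_zero.2 ht)

theorem logLe_neg_vs (hc : Cfg S R σ y) (A : Finset ι) :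
    S.LogLe (-R.mass σ A) fun t => -vs A fun i => y i t := by
  simp only [Tree.mass, vs, ← Finset.sum_neg_distrib]
  refine Scale.logLe_sum A.offDiag fun x hx => ?_
  have h := hc.2 x.1 x.2 (Finset.mem_offDiag.1 hx).2.2
  exact h.2.1.logLe_neg (h.2.2.mono fun t ht => sub_ne_zero.2 ht)

/-- The coefficient matrix of the basis. -/
noncomputable def LH_B (j : ℕ) (Sb : ℕ → Finset ι) (z : ι → ℂ) : Matrix (Fin j) (Fin j) ℂ :=
  Matrix.of fun l k : Fin j => (bp (Sb l) z).coeff k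

/-- The norms of the basis. -/
noncomputable def LH_nb (ν : ℝ) (A Sb : Finset ι) (z : ι → ℂ) : ℝ :=
  Real.sqrt (∫ x : ℂ, ‖(bp Sb z).eval x‖ ^ 2 * wt ν A z x)

theorem LH_pv {j : ℕ} {Sb : ℕ → Finset ι}
    (h : ∀ l < j, (Sb l).card = l) (z : ι → ℂ) (k : Fin j) (x : ℂ) :
    pv (LH_B j Sb z k) x = (bp (Sb k) z).eval x :=
  pv_coeff (bp (Sb k) z) (by rw [natDegree_bp, h k k.2]; exact k.2) x

theorem LH_gram {ν : ℝ} (h0 : 0 < ν) (h1 : ν < 1) {z : ι → ℂ} (hz : Set.InjOn z A) {j : ℕ}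
    (hj : ν * A.card = j + 1) {Sb : ℕ → Finset ι} (h : ∀ l < j, (Sb l).card = l) (k l : Fin j) :
    ‖(LH_B j Sb z * gramM ν A z j * (LH_B j Sb z)ᴴ) k l‖ ≤
      LH_nb ν A (Sb k) z * LH_nb ν A (Sb l) z := by
  have := gram_cs h0 h1 hz hj (LH_B j Sb z) k l
  simpa only [LH_pv h, LH_nb] using this

theorem LH_split {j r : ℕ} (e : ℕ → ℝ) (f : Fin r ↪ Fin j) :
    ∑ a, e (f a) + ∑ l ∈ (Finset.univ.map f)ᶜ, e l = ∑ l ∈ Finset.range j, e l := by
  rw [Finset.sum_range, ← Finset.sum_add_sum_compl (Finset.univ.map f), Finset.sum_map]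

theorem LH_msum (hc : Cfg S R σ y) (hσ : Lev σ ϑ) (hv : Vel S R σ ϑ y u D) {j₁ j₂ : ℕ}
    (h₁ : (1 / 4 : ℝ) * A.card = j₁ + 1) (h₂ : (3 / 4 : ℝ) * A.card = j₂ + 1)
    {Sa Sb : ℕ → Finset ι} {ea eb : ℕ → ℝ} (ha : ∀ l < j₁, (Sa l).card = l)
    (hb : ∀ l < j₂, (Sb l).card = l) (ha' : ∀ l < j₁, Trop R σ (1 / 4) A (Sa l) (ea l))
    (hb' : ∀ l < j₂, Trop R σ (3 / 4) A (Sb l) (eb l)) :
    S.Ge (∑ l ∈ Finset.range j₁, ea l + ∑ l ∈ Finset.range j₂, eb l - cost R σ ϑ A) fun t =>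
      msum (LH_B j₁ Sa (fun i => y i t) * thetaM A (fun i => y i t) (fun i => u i t) j₁ j₂ *
        (LH_B j₂ Sb fun i => y i t)ᵀ) (fun l => LH_nb (1 / 4) A (Sa l) fun i => y i t)
        fun l => LH_nb (3 / 4) A (Sb l) fun i => y i t := by
  refine Scale.ge_sum _ fun r _ => Scale.ge_sum _ fun f _ => Scale.ge_sum _ fun g _ => ?_
  have hn : j₁ + j₂ + 2 = A.card := by
    have : ((j₁ + j₂ + 2 : ℕ) : ℝ) = A.card := by push_cast; linarith only [h₁, h₂]
    exact_mod_cast this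
  have t1 := (ge_theta hc hσ hv (fun a => Sa (f a)) (fun b => Sb (g b)) (fun a => ea (f a))
    (fun b => eb (g b)) (fun a => ha' _ (f a).2) (fun b => hb' _ (g b).2) fun a b => by
      rw [ha _ (f a).2, hb _ (g b).2]
      have := (f a).2
      have := (g b).2
      omega).norm
  have t2 := Scale.ge_prod (Finset.univ.map f)ᶜ fun (l : Fin j₁) _ =>
    tb_ge hc hσ (by norm_num) (by norm_num) (ha' l l.2) (by
      rw [ha l l.2, h₁]
      have : (l : ℝ) + 1 ≤ j₁ := by exact_mod_cast l.2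
      linarith only [this])
  have t3 := Scale.ge_prod (Finset.univ.map g)ᶜ fun (l : Fin j₂) _ =>
    tb_ge hc hσ (by norm_num) (by norm_num) (hb' l l.2) (by
      rw [hb l l.2, h₂]
      have : (l : ℝ) + 1 ≤ j₂ := by exact_mod_cast l.2
      linarith only [this])
  refine ((t1.mul (t2.mul t3)).mono (le_of_eq ?_)).congr (Eventually.of_forall fun t => ?_)
  · rw [← LH_split ea f, ← LH_split eb g]
    ring
  · have e : (LH_B j₁ Sa (fun i => y i t) * thetaM A (fun i => y i t) (fun i => u i t) j₁ j₂ *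
        (LH_B j₂ Sb fun i => y i t)ᵀ).submatrix f g = Matrix.of fun a b =>
          th A (fun i => y i t) (fun i => u i t) (bp (Sa (f a)) fun i => y i t)
            (bp (Sb (g b)) fun i => y i t) := by
      ext a b
      rw [Matrix.submatrix_apply, theta_apply]
      simp only [LH_pv ha, LH_pv hb, Matrix.of_apply, th]
    rw [e]
    rfl

theorem lh (hc : Cfg S R σ y) (hσ : Lev σ ϑ) (hv : Vel S R σ ϑ y u D) {p : ℕ} (hp : 1 ≤ p)
    (hA : A.card = 4 * p) {Φ : T → ℝ}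
    (hH : ∀ᶠ t in S.F, HB p A (fun i => y i t) (fun i => u i t) (Φ t)) :
    S.LogLe (2 * loc R σ ϑ A) fun t => Φ t + cn A.card * vs A fun i => y i t := by
  obtain ⟨Sa, ea, ha, ha'⟩ := exists_bases R hσ (ν := 1 / 4) (by norm_num) (by norm_num) A
  obtain ⟨Sb, eb, hb, hb'⟩ := exists_bases R hσ (ν := 3 / 4) (by norm_num) (by norm_num) A
  have h₁ : (1 / 4 : ℝ) * A.card = (p - 1 : ℕ) + 1 := by
    rw [hA, Nat.cast_sub hp]
    push_cast
    ring
  have h₂ : (3 / 4 : ℝ) * A.card = (3 * p - 1 : ℕ) + 1 := by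
    rw [hA, Nat.cast_sub (by omega)]
    push_cast
    ring
  have ca : ∀ l < p - 1, (Sa l).card = l := fun l hl => (ha l (by omega)).1
  have cb : ∀ l < 3 * p - 1, (Sb l).card = l := fun l hl => (hb l (by omega)).1
  have hm := ((LH_msum hc hσ hv h₁ h₂ ca cb (fun l hl => (ha l (by omega)).2)
    fun l hl => (hb l (by omega)).2).const_mul
      ((((p - 1 : ℕ) : ℝ) + 1) ^ (p - 1) * (((3 * p - 1 : ℕ) : ℝ) + 1) ^ (3 * p - 1))).pow 2
  have hΦ := hm.logLe_of_exp (φ := Φ) (by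
    filter_upwards [hH, hc.ev_inj] with t ht hi
    have d1 : (LH_B (p - 1) Sa fun i => y i t).det = 1 := det_coeff_bp Sa ca _
    have d2 : (LH_B (3 * p - 1) Sb fun i => y i t).det = 1 := det_coeff_bp Sb cb _
    have := ht _ _ (fun l => LH_nb (1 / 4) A (Sa l) fun i => y i t)
      (fun l => LH_nb (3 / 4) A (Sb l) fun i => y i t) (d1 ▸ one_ne_zero) (d2 ▸ one_ne_zero)
      (fun _ => Real.sqrt_nonneg _) (fun _ => Real.sqrt_nonneg _)
      (LH_gram (by norm_num) (by norm_num) hi.injOn h₁ ca)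
      (LH_gram (by norm_num) (by norm_num) hi.injOn h₂ cb)
    rw [d1, d2, norm_one, one_mul, one_pow, mul_one] at this
    exact this.trans (le_abs_self _))
  have h4 : 4 ≤ A.card := by omega
  refine (hΦ.add ((logLe_vs hc A).const_mul (cn_nonneg h4))).mono ((lh_num R hσ A h4).trans ?_)
  have k1 := ha' (p - 1) (by omega)
  have k2 := hb' (3 * p - 1) (by omega)
  push_cast
  linarith only [k1, k2]

end Pool.Agent.Work.MP_677830_co.G
end

-- merged part: Pool.Agent.Work.MP_677830_co.G.DelA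
section
/-!
# Determinants of Taylor functionals
rdet_step: choose a α * c1^(a-α) = sum over γ in Fin q of [α ≤ γ] choose γ α (c1-c0)^(γ-α) *
(choose a γ * c0^(a-γ)) for a < q (binomial theorem and Nat.choose_mul); expand the determinant
multilinearly in the rows (detRowAlternating, MultilinearMap.map_sum): a sum over γ : Ix q → Fin q of
prod coefficient * rdet c0 d γ β; coefficient i has order ρ i * (γ i - α i) (zero unless α i ≤ γ i).
rdet_swap: permute columns by Prod.swap. rdet_vanZ: the rows in J are x ⊗ y i with the same x; more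
than q vectors y i in Fin q → ℂ are dependent; so the rows are dependent (det = 0 via
Matrix.exists_vecMul_eq_zero_iff). cntA: count ordered pairs (i,k) with α k ≤ α i: at least a^2/2,
at most sum of q (α i + 1). cntB: m = 16000; at most m^2 indices have α < m and β < m, the others
have α + β ≥ m; if a ≥ 2 m^2 the sum is ≥ m a / 2 = 8000 a and a - 1 ≤ q; otherwise at most one index
has α + β = 0 so the sum is ≥ a - 1 and 8000 a ≤ q.
-/

namespace Pool.Agent.Work.MP_677830_co.G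

open Filter Topology Polynomial Matrix MeasureTheory
open scoped ComplexConjugate ComplexOrder

variable {T : Type} {S : Scale T} {q : ℕ}

theorem rdet_top (z w : Ix q → ℂ) (α β : Ix q → Fin q) (hα : ∀ i, (α i : ℕ) = 0)
    (hβ : ∀ i, (β i : ℕ) = 0) : rdet q z w α β = del q z w := by
  unfold rdet del
  refine congrArg Matrix.det ?_
  ext i ab
  simp [hα, hβ]

theorem rdet_base {c d : Ix q → T → ℂ} (hc : ∀ i, S.Ge 0 (c i)) (hd : ∀ i, S.Ge 0 (d i))
    (α β : Ix q → Fin q) : S.Ge 0 fun t => rdet q (fun i => c i t) (fun i => d i t) α β := by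
  have h := Scale.ge_det (S := S) (fun t => Matrix.of fun i ab : Ix q =>
    (((ab.1 : ℕ).choose (α i) : ℂ) * c i t ^ ((ab.1 : ℕ) - α i)) *
      (((ab.2 : ℕ).choose (β i) : ℂ) * d i t ^ ((ab.2 : ℕ) - β i))) (fun _ => 0) (fun _ => 0)
    fun i ab => ((((hc i).pow _).const_mul _).mul (((hd i).pow _).const_mul _)).mono (by simp)
  exact h.mono (by simp)

theorem DelA_binom {a : ℕ} (ha : a < q) (α : ℕ) (c0 c1 : ℂ) :
    (a.choose α : ℂ) * c1 ^ (a - α) = ∑ γ : Fin q, (((γ : ℕ).choose α : ℂ) *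
      (c1 - c0) ^ ((γ : ℕ) - α)) * ((a.choose γ : ℂ) * c0 ^ (a - γ)) := by
  rw [Fin.sum_univ_eq_sum_range (fun γ => ((γ.choose α : ℂ) * (c1 - c0) ^ (γ - α)) *
    ((a.choose γ : ℂ) * c0 ^ (a - γ))) q]
  rw [← Finset.sum_subset (s₁ := Finset.Ico α (a + 1))
    (fun γ hγ => Finset.mem_range.2 (by have := (Finset.mem_Ico.1 hγ).2; omega))
    (fun γ _ hγ => by
      rcases lt_or_ge γ α with h | h
      · simp [Nat.choose_eq_zero_of_lt h]
      · have h2 : a < γ := by
          by_contra h3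
          exact hγ (Finset.mem_Ico.2 ⟨h, by omega⟩)
        simp [Nat.choose_eq_zero_of_lt h2])]
  rcases lt_or_ge a α with h | h
  · rw [Finset.Ico_eq_empty_of_le (by omega), Nat.choose_eq_zero_of_lt h]
    simp
  rw [Finset.sum_Ico_eq_sum_range, show a + 1 - α = a - α + 1 by omega]
  have e : c1 ^ (a - α) = (c1 - c0 + c0) ^ (a - α) := by rw [sub_add_cancel]
  rw [e, add_pow, Finset.mul_sum]
  refine Finset.sum_congr rfl fun k hk => ?_
  have h1 : (a.choose (α + k) : ℂ) * (α + k).choose α = a.choose α * (a - α).choose k := by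
    have := Nat.choose_mul (n := a) (k := α + k) (s := α) (by omega)
    rw [Nat.add_sub_cancel_left] at this
    exact_mod_cast this
  rw [Nat.add_sub_cancel_left, Nat.sub_add_eq]
  linear_combination (-((c1 - c0) ^ k * c0 ^ (a - α - k))) * h1

theorem DelA_exp {ι κ : Type} [Fintype ι] [DecidableEq ι] [Fintype κ] (K : ι → κ → ℂ)
    (M : ι → κ → ι → ℂ) : (Matrix.of fun i j => ∑ γ, K i γ * M i γ j).det =
      ∑ γ : ι → κ, (∏ i, K i (γ i)) * (Matrix.of fun i j => M i (γ i) j).det := by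
  have h := (Matrix.detRowAlternating (n := ι) (R := ℂ)).toMultilinearMap.map_sum
    fun i γ => K i γ • M i γ
  have e : (Matrix.of fun i j => ∑ γ, K i γ * M i γ j) = fun i => ∑ γ, K i γ • M i γ := by
    ext i j
    simp [Finset.sum_apply]
  rw [e]
  exact h.trans (Finset.sum_congr rfl fun γ _ => MultilinearMap.map_smul_univ _ _ _)

theorem rdet_step {c0 c1 d : Ix q → T → ℂ} (ρ : Ix q → ℝ) (β : Ix q → Fin q) (B : ℝ)
    (hρ : ∀ i, S.Ge (ρ i) fun t => c1 i t - c0 i t)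
    (h : ∀ γ : Ix q → Fin q, S.Ge (B - ∑ i, ρ i * (γ i : ℕ))
      fun t => rdet q (fun i => c0 i t) (fun i => d i t) γ β) (α : Ix q → Fin q) :
    S.Ge (B - ∑ i, ρ i * (α i : ℕ)) fun t => rdet q (fun i => c1 i t) (fun i => d i t) α β := by
  have e : ∀ t, rdet q (fun i => c1 i t) (fun i => d i t) α β = ∑ γ : Ix q → Fin q,
      (∏ i, (((γ i : ℕ).choose (α i) : ℂ) * (c1 i t - c0 i t) ^ ((γ i : ℕ) - α i))) *
        rdet q (fun i => c0 i t) (fun i => d i t) γ β := by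
    intro t
    unfold rdet
    rw [← DelA_exp (fun i (γ : Fin q) => ((γ : ℕ).choose (α i) : ℂ) *
      (c1 i t - c0 i t) ^ ((γ : ℕ) - α i)) fun i (γ : Fin q) (ab : Ix q) =>
        (((ab.1 : ℕ).choose γ : ℂ) * c0 i t ^ ((ab.1 : ℕ) - γ)) *
          (((ab.2 : ℕ).choose (β i) : ℂ) * d i t ^ ((ab.2 : ℕ) - β i))]
    refine congrArg Matrix.det ?_
    ext i ab
    simp only [Matrix.of_apply]
    rw [DelA_binom ab.1.2 (α i) (c0 i t) (c1 i t), Finset.sum_mul]
    exact Finset.sum_congr rfl fun γ _ => mul_assoc _ _ _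
  simp only [e]
  refine Scale.ge_sum _ fun γ _ => ?_
  have k : ∀ i ∈ Finset.univ, S.Ge (ρ i * (γ i : ℕ) - ρ i * (α i : ℕ)) fun t =>
      ((γ i : ℕ).choose (α i) : ℂ) * (c1 i t - c0 i t) ^ ((γ i : ℕ) - α i) := by
    intro i _
    rcases le_or_gt (α i : ℕ) (γ i) with h1 | h1
    · refine (((hρ i).pow _).const_mul _).mono (le_of_eq ?_)
      rw [Nat.cast_sub h1]
      ring
    · refine Scale.ge_of_ev_zero _ (Eventually.of_forall fun t => ?_)
      rw [Nat.choose_eq_zero_of_lt h1, Nat.cast_zero, zero_mul]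
  refine ((Scale.ge_prod _ k).mul (h γ)).mono (le_of_eq ?_)
  rw [Finset.sum_sub_distrib]
  ring

theorem rdet_swap (c d : Ix q → ℂ) (α β : Ix q → Fin q) :
    ‖rdet q c d α β‖ = ‖rdet q d c β α‖ := by
  have e : rdet q c d α β = Equiv.Perm.sign (Equiv.prodComm (Fin q) (Fin q)) * rdet q d c β α := by
    unfold rdet
    rw [← Matrix.det_permute']
    refine congrArg Matrix.det ?_
    ext i ab
    exact mul_comm _ _
  rw [e, norm_mul]
  rcases Int.units_eq_one_or (Equiv.Perm.sign (Equiv.prodComm (Fin q) (Fin q))) with h | h <;>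
    simp [h]

theorem rdet_step' {c d0 d1 : Ix q → T → ℂ} (ρ : Ix q → ℝ) (α : Ix q → Fin q) (B : ℝ)
    (hρ : ∀ i, S.Ge (ρ i) fun t => d1 i t - d0 i t)
    (h : ∀ γ : Ix q → Fin q, S.Ge (B - ∑ i, ρ i * (γ i : ℕ))
      fun t => rdet q (fun i => c i t) (fun i => d0 i t) α γ) (β : Ix q → Fin q) :
    S.Ge (B - ∑ i, ρ i * (β i : ℕ)) fun t => rdet q (fun i => c i t) (fun i => d1 i t) α β := by
  refine (rdet_step (d := c) ρ α B hρ (fun γ => (h γ).of_le 1 ?_) β).of_le 1 ?_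
  · exact Eventually.of_forall fun t => by rw [one_mul, rdet_swap]
  · exact Eventually.of_forall fun t => by rw [one_mul, rdet_swap]

theorem rdet_vanZ (c d : Ix q → ℂ) (α β : Ix q → Fin q) (J : Finset (Ix q)) (hJ : q < J.card)
    (h : ∀ i ∈ J, ∀ k ∈ J, c i = c k ∧ α i = α k) : rdet q c d α β = 0 := by
  by_contra h0
  obtain ⟨k, hk⟩ : J.Nonempty := Finset.card_pos.1 (by omega)
  have h1 := (Matrix.linearIndependent_rows_of_det_ne_zero h0).comp
    (Subtype.val : J → Ix q) Subtype.val_injective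
  let L : (Fin q → ℂ) →ₗ[ℂ] (Ix q → ℂ) :=
    { toFun := fun y ab => (((ab.1 : ℕ).choose (α k) : ℂ) * c k ^ ((ab.1 : ℕ) - α k)) * y ab.2
      map_add' := fun y y' => funext fun ab => mul_add _ _ _
      map_smul' := fun r y => funext fun ab => mul_left_comm _ _ _ }
  have h2 : LinearIndependent ℂ fun (i : J) (b : Fin q) =>
      ((b : ℕ).choose (β i) : ℂ) * d i ^ ((b : ℕ) - β i) := by
    refine LinearIndependent.of_comp L ?_
    refine (congrArg (fun v : J → Ix q → ℂ => LinearIndependent ℂ v)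
      (_root_.funext fun i => _root_.funext fun ab => ?_)).mp h1
    obtain ⟨e1, e2⟩ := h i i.2 k hk
    simp only [Function.comp_apply, Matrix.of_apply, L, LinearMap.coe_mk, AddHom.coe_mk, e1, e2]
  have h3 := h2.fintype_card_le_finrank
  rw [Fintype.card_coe, Module.finrank_fin_fun] at h3
  omega

theorem rdet_vanW (c d : Ix q → ℂ) (α β : Ix q → Fin q) (J : Finset (Ix q)) (hJ : q < J.card)
    (h : ∀ i ∈ J, ∀ k ∈ J, d i = d k ∧ β i = β k) : rdet q c d α β = 0 := by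
  rw [← norm_eq_zero, rdet_swap, rdet_vanZ d c β α J hJ h, norm_zero]

theorem rdet_vanE (c d : Ix q → ℂ) (α β : Ix q → Fin q) {i k : Ix q} (hik : i ≠ k)
    (h : c i = c k ∧ α i = α k ∧ d i = d k ∧ β i = β k) : rdet q c d α β = 0 := by
  refine Matrix.det_zero_of_row_eq hik (funext fun ab => ?_)
  simp only [Matrix.of_apply, h.1, h.2.1, h.2.2.1, h.2.2.2]

theorem cntA {ι : Type} [DecidableEq ι] (hq : 0 < q) (C : Finset ι) (α : ι → Fin q)
    (h : ∀ x, (C.filter fun i => α i = x).card ≤ q) :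
    phi q C.card ≤ ∑ i ∈ C, ((α i : ℕ) : ℝ) := by
  unfold phi
  split_ifs with hq'
  swap
  · exact Finset.sum_nonneg fun i _ => Nat.cast_nonneg _
  have h1 : ∀ i, (C.filter fun k => α k ≤ α i).card ≤ q * (α i + 1) := by
    intro i
    rw [← Fin.card_Iic]
    refine Finset.card_le_mul_card_image_of_maps_to (f := α)
      (fun k hk => Finset.mem_Iic.2 (Finset.mem_filter.1 hk).2) q fun x _ => ?_
    exact (Finset.card_le_card (Finset.filter_subset_filter _ (Finset.filter_subset _ _))).trans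
      (h x)
  have h2 : C.card * C.card ≤ 2 * ∑ i ∈ C, (C.filter fun k => α k ≤ α i).card := by
    simp only [Finset.card_filter]
    calc C.card * C.card = ∑ i ∈ C, ∑ k ∈ C, 1 := by simp
      _ ≤ ∑ i ∈ C, ∑ k ∈ C, ((if α k ≤ α i then 1 else 0) + if α i ≤ α k then 1 else 0) := by
        refine Finset.sum_le_sum fun i _ => Finset.sum_le_sum fun k _ => ?_
        rcases le_total (α k) (α i) with h3 | h3 <;> simp [h3]
      _ = _ := by
        simp only [Finset.sum_add_distrib]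
        rw [two_mul, add_right_inj, Finset.sum_comm]
  have h3 : C.card * C.card ≤ 2 * (q * (∑ i ∈ C, (α i : ℕ) + C.card)) := by
    refine h2.trans (Nat.mul_le_mul_left _ ((Finset.sum_le_sum fun i _ => h1 i).trans_eq ?_))
    rw [← Finset.mul_sum, Finset.sum_add_distrib]
    simp
  have h4 : (C.card : ℝ) * C.card ≤ 2 * (q * (∑ i ∈ C, ((α i : ℕ) : ℝ) + C.card)) := by
    exact_mod_cast h3
  have q0 : (0 : ℝ) < q := by exact_mod_cast hq
  rw [sub_le_iff_le_add, div_le_iff₀ (by positivity)]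
  linarith only [h4]

theorem DelA_cnt {ι : Type} [DecidableEq ι] (C : Finset ι) (α β : ι → Fin q)
    (h : ∀ i ∈ C, ∀ k ∈ C, α i = α k → β i = β k → i = k) (m : ℕ) :
    (m : ℝ) * (C.card - m * m) ≤ ∑ i ∈ C, (((α i : ℕ) : ℝ) + ((β i : ℕ) : ℝ)) := by
  have h1 : (C.filter fun i => (α i : ℕ) < m ∧ (β i : ℕ) < m).card ≤ m * m := by
    have := Finset.card_le_card_of_injOn (s := C.filter fun i => (α i : ℕ) < m ∧ (β i : ℕ) < m)
      (t := Finset.range m ×ˢ Finset.range m) (fun i => ((α i : ℕ), (β i : ℕ)))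
      (fun i hi => by
        have := (Finset.mem_filter.1 hi).2
        simpa using this)
      (fun i hi k hk e => h i (Finset.mem_filter.1 hi).1 k (Finset.mem_filter.1 hk).1
        (Fin.ext (Prod.ext_iff.1 e).1) (Fin.ext (Prod.ext_iff.1 e).2))
    simpa using this
  have h2 : m * C.card ≤ ∑ i ∈ C, ((α i : ℕ) + (β i : ℕ)) + m * (m * m) := by
    refine le_trans ?_ (Nat.add_le_add_left (Nat.mul_le_mul_left m h1) _)
    rw [Finset.card_filter, Finset.mul_sum, ← Finset.sum_add_distrib, mul_comm,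
      ← smul_eq_mul, ← Finset.sum_const]
    refine Finset.sum_le_sum fun i _ => ?_
    split_ifs with h3 <;> omega
  have h3 : (m : ℝ) * C.card ≤ ∑ i ∈ C, (((α i : ℕ) : ℝ) + ((β i : ℕ) : ℝ)) + m * (m * m) := by
    exact_mod_cast h2
  linarith only [h3]

theorem cntB {ι : Type} [DecidableEq ι] (hq : 10 ^ 13 ≤ q) (C : Finset ι) (hC : C.card ≤ q)
    (α β : ι → Fin q) (h : ∀ i ∈ C, ∀ k ∈ C, α i = α k → β i = β k → i = k) :
    8000 / (q : ℝ) * ((C.card : ℝ) * (C.card - 1)) ≤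
      ∑ i ∈ C, (((α i : ℕ) : ℝ) + ((β i : ℕ) : ℝ)) := by
  have q0 : (10 : ℝ) ^ 13 ≤ q := by exact_mod_cast hq
  have q1 : (0 : ℝ) < q := lt_of_lt_of_le (by norm_num) q0
  have a0 : (C.card : ℝ) ≤ q := by exact_mod_cast hC
  have s0 : 0 ≤ ∑ i ∈ C, (((α i : ℕ) : ℝ) + ((β i : ℕ) : ℝ)) :=
    Finset.sum_nonneg fun i _ => by positivity
  rw [div_mul_eq_mul_div, div_le_iff₀ q1]
  rcases Nat.eq_zero_or_pos C.card with h0 | h0
  · rw [h0]
    simpa using mul_nonneg s0 q1.le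
  have a1 : (1 : ℝ) ≤ C.card := by exact_mod_cast h0
  have k1 := DelA_cnt C α β h 1
  have k2 := DelA_cnt C α β h 16000
  push_cast at k1 k2
  set s := ∑ i ∈ C, (((α i : ℕ) : ℝ) + ((β i : ℕ) : ℝ))
  set a : ℝ := (C.card : ℝ)
  rcases le_total a 512000000 with h1 | h1
  · have e1 : (a - 1) * (8000 * a) ≤ s * q :=
      mul_le_mul (by linarith only [k1]) (by linarith only [q0, h1]) (by linarith only [a1]) s0
    linarith only [e1]
  · have e1 : (8000 * a) * (a - 1) ≤ s * q :=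
      mul_le_mul (by linarith only [k2, h1]) (by linarith only [a0]) (by linarith) s0
    linarith only [e1]

end Pool.Agent.Work.MP_677830_co.G
end

-- merged part: Pool.Agent.Work.MP_677830_co.G.DelB
section
/-!
# Order of the interpolation determinant
Centres: ce from exists_center; cz s i = y (ce (cl univ s i)), cw s i = y' (ce (cl' univ s i));
cz s1 i - cz s0 i has order σ s0 for s0 ≤ s1 (both points lie in cl s0 i; zero if equal); above
top the centre is the point itself. For C in M choose levels sz C, sw C ≥ 1 (≤ top, card ≥ 2).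
lv i = sw C if i lies in C in M, else top' + 1. P s i = min s (lv i).
Phase W, induction on s ≤ top'+1: for all α β, order of rdet (cz 0) (cw (P s)) α β is at least
BW s + ϑ * (sum over C in M with sw C ≤ s of the sum of β over C) - sum σ' (P s i) β i, where
BW s = sum over s' in Icc 1 s of step * sum of phi over parts. Step s → s+1 by rdet_step' with
ρ i = σ' (P s i) for the moved rows; rows of C with sw C ≤ s are not moved: take
ρ i = σ' (lv i) - ϑ for them (difference is zero, ge_zero), so their γ are absorbed exactly.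
The gain step * sum β over moved rows: a part of size > q consists of moved rows none of which lies in
a C with sw C ≤ s+1 (laminar: such a C would contain the part); by rdet_vanW and cntA either the
determinant vanishes identically or the sum of β over the part is ≥ phi; rows of C with sw C = s+1
keep ϑ β (step ≥ ϑ).
Phase Z, induction on s ≤ top+1, β fixed, all rows move: order of rdet (cz s) (cw lv) α β ≥
BW + BZ s + ϑ * (sum over C with sz C ≤ s of (8000/q) |C| (|C|-1)) + ϑ * (sum over C with s < sz C of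
sum β) - sum σ s α i - sum σ' (lv i) β i; at s = sz C use rdet_vanE and cntB (C is a part, phi = 0).
Phase end: rdet_step' from cw lv to y' with ρ i = σ' (lv i); α = β = 0; rdet_top.
Levels top+1 contribute 0 (singletons, phi q 1 = 0).
-/

namespace Pool.Agent.Work.MP_677830_co.G

open Filter Topology Polynomial Matrix MeasureTheory
open scoped ComplexConjugate ComplexOrder

variable {T : Type} {S : Scale T} {q : ℕ}

/-- A lower bound for the orders of all the determinants. -/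
def DelB_H (S : Scale T) (c d : Ix q → T → ℂ) (a b : Ix q → ℝ) (B : ℝ) : Prop :=
  ∀ α β : Ix q → Fin q, S.Ge (B - ∑ i, a i * (α i : ℕ) - ∑ i, b i * (β i : ℕ))
    fun t => rdet q (fun i => c i t) (fun i => d i t) α β

section
variable {c c' d d' y : Ix q → T → ℂ} {a a' b b' : Ix q → ℝ} {B G ϑ : ℝ} {R : Tree (Ix q)}
  {σ : ℕ → ℝ}

theorem DelB_Z (h : DelB_H S c d a b B) (e : ∀ i, S.Ge (a i) fun t => c' i t - c i t) :
    DelB_H S c' d a b B := fun α β =>
  (rdet_step a β (B - ∑ i, b i * (β i : ℕ)) e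
    (fun γ => (h γ β).mono (sub_right_comm _ _ _).le) α).mono (sub_right_comm _ _ _).le

theorem DelB_W (h : DelB_H S c d a b B) (e : ∀ i, S.Ge (b i) fun t => d' i t - d i t) :
    DelB_H S c d' a b B := fun α β => rdet_step' b α _ e (h α) β

theorem DelB_up (h : DelB_H S c d a b B) (R : Tree (Ix q)) (s : ℕ) (g : Finset (Ix q) → ℝ)
    (e : ∀ α β : Ix q → Fin q, (¬ ∀ t, rdet q (fun i => c i t) (fun i => d i t) α β = 0) →
      ∀ C ∈ R.parts Finset.univ s, g C ≤ ∑ i ∈ C,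
        ((a' i - a i) * (α i : ℕ) + (b' i - b i) * (β i : ℕ))) :
    DelB_H S c d a' b' (B + ∑ C ∈ R.parts Finset.univ s, g C) := fun α β => by
  by_cases h0 : ∀ t, rdet q (fun i => c i t) (fun i => d i t) α β = 0
  · exact Scale.ge_of_ev_zero _ (.of_forall h0)
  have := (Finset.sum_le_sum (e α β h0)).trans_eq (R.sum_parts _)
  simp only [sub_mul, Finset.sum_add_distrib, Finset.sum_sub_distrib] at this
  exact (h α β).mono (by linarith)

theorem DelB_ind {H : ℕ → ℝ → Prop} {G : ℕ → ℝ} (h0 : H 0 B) {n : ℕ}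
    (h : ∀ s < n, ∀ B, H s B → H (s + 1) (B + G (s + 1))) : H n (B + ∑ s ∈ Finset.Icc 1 n, G s) := by
  induction n with
  | zero => simpa using h0
  | succ n ih =>
    rw [Finset.sum_Icc_succ_top (by omega), ← add_assoc]
    exact h n n.lt_succ_self _ (ih fun s hs => h s (by omega))

theorem DelB_ord (hc : Cfg S R σ y) (hσ : Lev σ ϑ) {s : ℕ} {i j k : Ix q}
    (hj : j ∈ R.cl Finset.univ s i) (hk : k ∈ R.cl Finset.univ s i) :
    S.Ge (σ s) fun t => y j t - y k t := by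
  by_cases h : j = k
  · exact Scale.ge_of_ev_zero _ (.of_forall fun t => by rw [h, sub_self])
  · exact (hc.2 j k h).1.mono (hσ.2.1.monotone
      (R.le_of_parts (R.cl_mem_parts (Finset.mem_univ i)) hj hk h))

theorem DelB_cnt (hq : 0 < q) (C : Finset (Ix q)) (α : Ix q → Fin q)
    (h : ∀ J ⊆ C, q < J.card → ¬ ∀ i ∈ J, ∀ k ∈ J, α i = α k) :
    phi q C.card ≤ ∑ i ∈ C, ((α i : ℕ) : ℝ) :=
  cntA hq C α fun _ => not_lt.1 fun hx => h _ (Finset.filter_subset _ _) hx fun _ hi _ hk =>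
    (Finset.mem_filter.1 hi).2.trans (Finset.mem_filter.1 hk).2.symm

end

theorem ge_del (hq : 10 ^ 13 ≤ q) {R R' : Tree (Ix q)} {σ σ' : ℕ → ℝ} {ϑ : ℝ}
    {y y' : Ix q → T → ℂ} (hc : Cfg S R σ y) (hc' : Cfg S R' σ' y') (hσ : Lev σ ϑ)
    (hσ' : Lev σ' ϑ) {M : Finset (Finset (Ix q))} (hM : Fam q R R' M) :
    S.Ge (ϑ * (8000 / q) * (∑ C ∈ M, (C.card : ℝ) * (C.card - 1)) +
        R.usum σ Finset.univ (fun C => phi q C.card) +
        R'.usum σ' Finset.univ fun C => phi q C.card)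
      fun t => del q (fun i => y i t) fun i => y' i t := by
  have hq0 : 0 < q := lt_of_lt_of_le (by norm_num) hq
  have : Nonempty (Ix q) := ⟨(⟨0, hq0⟩, ⟨0, hq0⟩)⟩
  obtain ⟨ce, hce⟩ := exists_center (ι := Ix q)
  have hm : ∀ (R : Tree (Ix q)) {s s'} i, s ≤ s' → ce (R.cl Finset.univ s' i) ∈ R.cl Finset.univ s i :=
    fun R _ _ i h => R.cl_anti h (hce _ ⟨i, R.self_mem_cl (Finset.mem_univ i)⟩)
  choose! sz hz1 hz using fun C hC => (hM.2 C hC).2.2.1
  choose! sw hw1 hw using fun C hC => (hM.2 C hC).2.2.2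
  have hzt := fun C hC => R.level_le_top (hz C hC) (hM.2 C hC).1
  have hwt := fun C hC => R'.level_le_top (hw C hC) (hM.2 C hC).1
  have ex : ∀ i, ∃ m n : ℕ, (∀ C ∈ M, i ∈ C → m = sw C ∧ n = sz C) ∧
      ((∃ C ∈ M, i ∈ C) ∨ m = R'.top + 1 ∧ n = 0) := fun i => by
    by_cases h : ∃ C ∈ M, i ∈ C
    · obtain ⟨C, hC, hi⟩ := id h
      refine ⟨sw C, sz C, fun C' hC' hi' => ?_, .inl h⟩
      rw [not_not.1 fun e => Finset.disjoint_left.1 (hM.1 C hC C' hC' e) hi hi']
      exact ⟨rfl, rfl⟩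
    · exact ⟨_, _, fun C hC hi => absurd ⟨C, hC, hi⟩ h, .inr ⟨rfl, rfl⟩⟩
  choose lw lz hl hl' using ex
  have hϑ := hσ.2.2.1
  have hW := DelB_ind (B := 0) (n := R'.top)
    (G := fun s => ∑ C ∈ R'.parts Finset.univ s, (σ' s - σ' (s - 1)) * phi q C.card)
    (H := fun s => DelB_H S (fun i => y (ce (R.cl Finset.univ 0 i)))
      (fun i => y' (ce (R'.cl Finset.univ (min s (lw i)) i))) (fun _ => σ 0)
      fun i => σ' (min s (lw i)) - if lw i ≤ s then ϑ else 0)
    (fun α β => (rdet_base (fun _ => hc.1 _) (fun _ => hc'.1 _) α β).mono (by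
      have : ∀ i, ¬ lw i ≤ 0 := fun i => by
        obtain ⟨C, hC, hi⟩ | h := hl' i
        · have := hw1 C hC
          have := (hl i C hC hi).1
          omega
        · omega
      simp only [this, hσ.1, Nat.zero_min, hσ'.1]
      simp)) fun s hs B h => by
    refine DelB_up (DelB_W h fun i => (DelB_ord hc' hσ' (hm R' i (min_le_min_right _ s.le_succ))
      (hm R' i le_rfl)).mono (sub_le_self _ (by positivity))) R' _ _ fun α β h0 C hC => ?_
    have h1 := hσ'.2.2.2 s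
    simp only [sub_self, zero_mul, zero_add, Nat.add_sub_cancel]
    by_cases hq' : q < C.card
    · have h2 : ∀ i ∈ C, s + 1 < lw i := fun i hi => by
        obtain ⟨C', hC', hi'⟩ | h := hl' i
        · refine not_le.1 fun h => hq'.not_ge ((Finset.card_le_card (R'.laminar (hw C' hC') hC
            ((hl i C' hC' hi').1 ▸ h) fun e => Finset.disjoint_left.1 e hi' hi)).trans
            (hM.2 C' hC').2.1)
        · omega
      refine (mul_le_mul_of_nonneg_left (DelB_cnt hq0 C β fun J hJ hJ' e => h0 fun t =>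
        rdet_vanW _ _ _ _ J hJ' fun i hi k hk => ⟨?_, e i hi k hk⟩) (hϑ.trans h1)).trans_eq ?_
      · rw [min_eq_left (h2 i (hJ hi)).le, min_eq_left (h2 k (hJ hk)).le,
          R'.cl_eq_of_parts hC (hJ hi), R'.cl_eq_of_parts hC (hJ hk)]
      · rw [Finset.mul_sum]
        refine Finset.sum_congr rfl fun i hi => ?_
        have := h2 i hi
        rw [min_eq_left this.le, min_eq_left (by omega), if_neg this.not_ge, if_neg (by omega),
          sub_zero, sub_zero]
    · rw [phi, if_neg hq', mul_zero]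
      refine Finset.sum_nonneg fun i _ => mul_nonneg ?_ (Nat.cast_nonneg _)
      by_cases h2 : lw i ≤ s
      · rw [min_eq_right h2, min_eq_right (h2.trans s.le_succ), if_pos h2,
          if_pos (h2.trans s.le_succ), sub_self]
      · rw [min_eq_left (not_le.1 h2), min_eq_left (not_le.1 h2).le, if_neg h2]
        split_ifs <;> linarith only [h1, hϑ]
  have hZ := DelB_ind (n := R.top)
    (G := fun s => ∑ C ∈ R.parts Finset.univ s, ((σ s - σ (s - 1)) * phi q C.card +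
      if C ∈ M ∧ sz C = s then ϑ * (8000 / q * ((C.card : ℝ) * (C.card - 1))) else 0))
    (H := fun s => DelB_H S (fun i => y (ce (R.cl Finset.univ s i)))
      (fun i => y' (ce (R'.cl Finset.univ (min R'.top (lw i)) i))) (fun _ => σ s)
      fun i => σ' (min R'.top (lw i)) - if s < lz i then ϑ else 0)
    (by
      have : ∀ i, 0 < lz i ↔ lw i ≤ R'.top := fun i => by
        obtain ⟨C, hC, hi⟩ | h := hl' i
        · have := hwt C hC
          have := hz1 C hC
          have := hl i C hC hi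
          omega
        · omega
      simpa only [this] using hW) fun s hs B h => by
    refine DelB_up (DelB_Z h fun i => DelB_ord hc hσ (hm R i s.le_succ) (hm R i le_rfl)) R _ _
      fun α β h0 C hC => ?_
    have h1 := hσ.2.2.2 s
    simp only [Nat.add_sub_cancel, sub_sub_sub_cancel_left]
    by_cases h2 : C ∈ M ∧ sz C = s + 1
    · rw [if_pos h2, phi, if_neg (hM.2 C h2.1).2.1.not_gt, mul_zero, zero_add]
      refine (mul_le_mul_of_nonneg_left (cntB hq C (hM.2 C h2.1).2.1 α β fun i hi k hk e e' =>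
        not_not.1 fun n => h0 fun t => rdet_vanE _ _ _ _ n ⟨?_, e, ?_, e'⟩) hϑ).trans ?_
      · rw [R.cl_eq_of_parts hC hi, R.cl_eq_of_parts hC hk]
      · rw [(hl i C h2.1 hi).1, (hl k C h2.1 hk).1, min_eq_right (hwt C h2.1),
          R'.cl_eq_of_parts (hw C h2.1) hi, R'.cl_eq_of_parts (hw C h2.1) hk]
      · rw [Finset.mul_sum]
        refine Finset.sum_le_sum fun i hi => ?_
        rw [(hl i C h2.1 hi).2, h2.2, if_pos s.lt_succ_self, if_neg (lt_irrefl _), sub_zero, mul_add]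
        gcongr
    · rw [if_neg h2, add_zero]
      refine (mul_le_mul_of_nonneg_left (DelB_cnt hq0 C α fun J hJ hJ' e => h0 fun t =>
        rdet_vanZ _ _ _ _ J hJ' fun i hi k hk => ⟨?_, e i hi k hk⟩) (hϑ.trans h1)).trans ?_
      · rw [R.cl_eq_of_parts hC (hJ hi), R.cl_eq_of_parts hC (hJ hk)]
      · rw [Finset.mul_sum]
        refine Finset.sum_le_sum fun i _ =>
          le_add_of_nonneg_right (mul_nonneg ?_ (Nat.cast_nonneg _))
        split_ifs <;> linarith
  have h := DelB_W (DelB_Z hZ fun i => DelB_ord hc hσ (R.self_mem_cl (Finset.mem_univ i))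
    (hm R i le_rfl)) (fun i => (DelB_ord hc' hσ' (R'.self_mem_cl (Finset.mem_univ i))
    (hm R' i le_rfl)).mono (sub_le_self _ (by positivity))) (fun _ => ⟨0, hq0⟩) fun _ => ⟨0, hq0⟩
  simp only [rdet_top _ _ (fun _ => (⟨0, hq0⟩ : Fin q)) (fun _ => ⟨0, hq0⟩) (fun _ => rfl)
    fun _ => rfl] at h
  refine h.mono (le_of_eq ?_)
  have e : ∀ s, (R.parts Finset.univ s).filter (fun C => C ∈ M ∧ sz C = s) =
      M.filter fun C => sz C = s := fun s => Finset.ext fun C => by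
    simp only [Finset.mem_filter]
    exact ⟨fun h => h.2, fun h => ⟨h.2 ▸ hz C h.1, h⟩⟩
  simp only [Finset.sum_add_distrib, ← Finset.sum_filter, e, Finset.sum_fiberwise_of_maps_to
    fun C hC => Finset.mem_Icc.2 ⟨hz1 C hC, hzt C hC⟩, ← Finset.mul_sum, Tree.usum]
  simp
  ring

end Pool.Agent.Work.MP_677830_co.G
end

-- merged part: Pool.Agent.Work.MP_677830_co.G.Loc
section
/-!
# The local inequality
logLe_LL: cr y x is zero if x.1 = x.2.2.1 or x.2.1 = x.2.2.2, otherwise it has order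
-(σ μ + σ μ) ≥ -2 mass (each σ μ ≤ mass); logLe_posLog; N^4 terms would be too many: sum exactly,
the sum over all 4-tuples of σ (μ i k) [i ≠ k] is N^2 mass.
loc_main: lh for every sample (p = 6q), ge_del with the family of num, logLe_neg_vs, logLe_LL;
c1 * 2 q^4 = 1 / (4000 q^4); lam ≥ 0. loc_frame: HB.frame, del_frame, Psi_frame, LL_frame.
-/

namespace Pool.Agent.Work.MP_677830_co.G

open Filter Topology Polynomial Matrix MeasureTheory
open scoped ComplexConjugate ComplexOrder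

variable {T : Type} {S : Scale T}

theorem logLe_LL {ι : Type} [Fintype ι] [DecidableEq ι] {R : Tree ι} {σ : ℕ → ℝ} {ϑ : ℝ}
    {y : ι → T → ℂ} (hc : Cfg S R σ y) (hσ : Lev σ ϑ) :
    S.LogLe (-(2 * (Fintype.card ι : ℝ) ^ 2 * R.mass σ Finset.univ))
      fun t => LL fun i => y i t := by
  obtain ⟨m, hm⟩ : ∃ m : ι → ι → ℝ, ∀ i k, m i k = if i ≠ k then σ (R.μ i k) else 0 :=
    ⟨_, fun _ _ => rfl⟩
  have m0 : ∀ i k, 0 ≤ m i k := fun i k => by
    rw [hm]
    split_ifs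
    exacts [hσ.nonneg _, le_rfl]
  have e1 : R.mass σ Finset.univ = ∑ i, ∑ k, m i k := by
    rw [Tree.mass, show (Finset.univ : Finset ι).offDiag = Finset.univ.filter fun x => x.1 ≠ x.2 by
      ext x; simp, Finset.sum_filter, Fintype.sum_prod_type]
    simp only [hm]
  have h := S.logLe_sum (Finset.univ : Finset (ι × ι × ι × ι))
    (F := fun x t => Real.posLog ‖cr (fun i => y i t) x‖)
    (k := fun x => -m x.1 x.2.2.1 + -m x.2.1 x.2.2.2) fun x _ => by
      refine Scale.Ge.logLe_posLog ?_ (by linarith [m0 x.1 x.2.2.1, m0 x.2.1 x.2.2.2])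
      by_cases h1 : x.1 = x.2.2.1
      · exact Scale.ge_of_ev_zero _ (.of_forall fun t => by simp [cr, h1])
      by_cases h2 : x.2.1 = x.2.2.2
      · exact Scale.ge_of_ev_zero _ (.of_forall fun t => by simp [cr, h2])
      have h3 := (((hc.1 x.1).sub (hc.1 x.2.1)).mul ((hc.1 x.2.2.1).sub (hc.1 x.2.2.2))).mul
        ((hc.2 _ _ h1).2.1.mul (hc.2 _ _ h2).2.1)
      rw [add_zero, zero_add] at h3
      rw [hm, hm, if_pos h1, if_pos h2]
      exact h3.congr (.of_forall fun t => by rw [cr, div_eq_mul_inv, mul_inv])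
  refine h.mono (le_of_eq ?_)
  simp only [e1, Fintype.sum_prod_type, Finset.sum_add_distrib, Finset.sum_neg_distrib,
    Finset.sum_const, Finset.card_univ, nsmul_eq_mul, ← Finset.mul_sum]
  ring

variable {q : ℕ} {R R' : Tree (Ix q)} {σ σ' : ℕ → ℝ} {ϑ : ℝ} {y y' u u' : Ix q → T → ℂ}
  {D D' : ℕ → T → ℂ}

theorem loc_main (hq : 10 ^ 13 ≤ q) (hc : Cfg S R σ y) (hc' : Cfg S R' σ' y') (hσ : Lev σ ϑ)
    (hσ' : Lev σ' ϑ) (hv : Vel S R σ ϑ y u D) (hv' : Vel S R' σ' ϑ y' u' D') (hB : R.Bal)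
    (hB' : R'.Bal) (hcom : ϑ = 0 ∨ Com q R R' ∧ Com q R' R) (Φ Φ' : T → Finset (Ix q) → ℝ)
    (hH : ∀ᶠ t in S.F, ∀ A ∈ samples q,
      HB (6 * q) A (fun i => y i t) (fun i => u i t) (Φ t A) ∧
      HB (6 * q) A (fun i => y' i t) (fun i => u' i t) (Φ' t A))
    (hd : ∀ᶠ t in S.F, del q (fun i => y i t) (fun i => y' i t) ≠ 0) :
    S.LogLe 0 fun t => Psi q (fun i => y i t) (fun i => y' i t) (Φ t) (Φ' t) +
      c1 q * (LL (fun i => y i t) + LL fun i => y' i t) := by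
  have hq1 : 24 ≤ q := le_trans (by norm_num) hq
  have hq0 : (24 : ℝ) ≤ q := by exact_mod_cast hq1
  obtain ⟨M, hM, hn⟩ := num hq1 hσ hσ' hB hB' hcom
  have hA : ∀ A ∈ samples q, A.card = 24 * q := fun A hA => (Finset.mem_powersetCard.1 hA).2
  have h1 := (S.logLe_sum (samples q)
    (F := fun A t => Φ t A + cn (24 * q) * vs A (fun i => y i t) +
      (Φ' t A + cn (24 * q) * vs A fun i => y' i t))
    (k := fun A => 2 * loc R σ ϑ A + 2 * loc R' σ' ϑ A) fun A h => by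
      rw [← hA A h]
      exact (lh hc hσ hv (p := 6 * q) (by omega) (by rw [hA A h]; ring)
        (hH.mono fun t ht => (ht A h).1)).add (lh hc' hσ' hv' (p := 6 * q) (by omega)
          (by rw [hA A h]; ring) (hH.mono fun t ht => (ht A h).2))).const_mul
    (c := ((samples q).card : ℝ)⁻¹) (by positivity)
  have hl : 0 ≤ lam q := by
    have h2 : (0 : ℝ) ≤ 24 * q - 1 := by linarith only [hq0]
    have h3 : (0 : ℝ) ≤ (q : ℝ) ^ 2 - 1 := by linarith only [hq0, mul_nonneg_of_nonpos_of_nonpos (Mathlib.Tactic.Linarith.sub_nonpos_of_le (Mathlib.Tactic.Linarith.natCast_nonneg ℝ q)) (Mathlib.Tactic.Linarith.sub_nonpos_of_le hq0)]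
    rw [lam, rho2]
    positivity
  have h2 := ((((ge_del hq hc hc' hσ hσ' hM).logLe hd).const_mul zero_le_two).add
    (((logLe_neg_vs hc Finset.univ).add (logLe_neg_vs hc' Finset.univ)).const_mul
      (c := ((q : ℝ) + 1)⁻¹) (by positivity))).const_mul hl
  have h3 := ((logLe_LL hc hσ).add (logLe_LL hc' hσ')).const_mul (c := c1 q)
    (by rw [c1]; positivity)
  refine (((h1.add h2).add h3).mono ?_).of_le (.of_forall fun t => le_of_eq ?_)
  · have e : c1 q * (-(2 * (Fintype.card (Ix q) : ℝ) ^ 2 * R.mass σ Finset.univ) +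
        -(2 * (Fintype.card (Ix q) : ℝ) ^ 2 * R'.mass σ' Finset.univ)) =
        -((R.mass σ Finset.univ + R'.mass σ' Finset.univ) / (4000 * (q : ℝ) ^ 4)) := by
      rw [c1, Fintype.card_prod, Fintype.card_fin]
      push_cast
      field_simp
      ring
    rw [e, ← sub_eq_add_neg, sub_nonneg]
    exact hn.trans (le_of_eq (by ring))
  · rw [Psi]
    ring

theorem loc_frame (hq : 10 ^ 13 ≤ q) (hc : Cfg S R σ y) (hc' : Cfg S R' σ' y') (hσ : Lev σ ϑ)
    (hσ' : Lev σ' ϑ) (hv : Vel S R σ ϑ y u D) (hv' : Vel S R' σ' ϑ y' u' D') (hB : R.Bal)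
    (hB' : R'.Bal) (hcom : ϑ = 0 ∨ Com q R R' ∧ Com q R' R) (z w v v' : Ix q → T → ℂ)
    (Φ Φ' : T → Finset (Ix q) → ℝ)
    (hF : ∀ᶠ t in S.F, (Function.Injective fun i => z i t) ∧ (Function.Injective fun i => w i t) ∧
      Frame (fun i => z i t) (fun i => v i t) (fun i => y i t) (fun i => u i t) ∧
      Frame (fun i => w i t) (fun i => v' i t) (fun i => y' i t) (fun i => u' i t) ∧
      del q (fun i => z i t) (fun i => w i t) ≠ 0 ∧ ∀ A ∈ samples q,
        HB (6 * q) A (fun i => z i t) (fun i => v i t) (Φ t A) ∧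
        HB (6 * q) A (fun i => w i t) (fun i => v' i t) (Φ' t A)) :
    S.LogLe 0 fun t => Psi q (fun i => z i t) (fun i => w i t) (Φ t) (Φ' t) +
      c1 q * (LL (fun i => z i t) + LL fun i => w i t) := by
  have hq1 : 24 ≤ q := le_trans (by norm_num) hq
  refine (loc_main hq hc hc' hσ hσ' hv hv' hB hB' hcom
    (fun t A => Φ t A + cn (24 * q) * vs A (fun i => z i t) - cn (24 * q) * vs A fun i => y i t)
    (fun t A => Φ' t A + cn (24 * q) * vs A (fun i => w i t) - cn (24 * q) * vs A fun i => y' i t)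
    (hF.mono fun t ht A h => ?_)
    (hF.mono fun t ht => (del_frame ht.1 ht.2.1 ht.2.2.1 ht.2.2.2.1 ht.2.2.2.2.1).1)).of_le
    (hF.mono fun t ht => le_of_eq ?_)
  · have hA : A.card = 24 * q := (Finset.mem_powersetCard.1 h).2
    rw [← hA]
    exact ⟨(ht.2.2.2.2.2 A h).1.frame (by omega) (by rw [hA]; ring) ht.1 ht.2.2.1,
      (ht.2.2.2.2.2 A h).2.frame (by omega) (by rw [hA]; ring) ht.2.1 ht.2.2.2.1⟩
  · rw [Psi_frame ht.1 ht.2.1 ht.2.2.1 ht.2.2.2.1 ht.2.2.2.2.1, LL_frame ht.2.2.1,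
      LL_frame ht.2.2.2.1]

end Pool.Agent.Work.MP_677830_co.G
end

-- merged part: Pool.Agent.Work.MP_677830_co.G.Arch
section
/-!
# The uniform pointwise bound
arch1 (P = 1): otherwise for every n there are data with Psi + (c1/2) L > n. L n = LL z + LL w,
τ n = exp (-(L n + n + 1)), S = (hyperfilter, τ). point_frame, sep_lower (LL_frame), ultra_tree,
Vel with D = 0, ϑ = 0 (Ge.of_le, mono), loc_frame: eventually Psi + c1 L ≤ ε (L + n + 1) with
ε = min (c1/2) (1/2): n < (n+1)/2, false for n ≥ 1. arch: divide the velocities by P (HB.scale with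
p = 6q); Psi drops by 24 q log P (samples_pos).
-/

namespace Pool.Agent.Work.MP_677830_co.G

open Filter Topology Polynomial Matrix MeasureTheory
open scoped ComplexConjugate ComplexOrder

theorem Arch_one {ι : Type} [Fintype ι] [DecidableEq ι] (hN : 4 ≤ Fintype.card ι) (S : Scale ℕ)
    (hF : S.F = hyperfilter ℕ) (hτ : ∀ n, 0 < S.τ n) (z v : ℕ → ι → ℂ)
    (hz : ∀ n, Function.Injective (z n)) (hv : ∀ n i k, ‖v n i - v n k‖ ≤ ‖z n i - z n k‖)
    (hL : ∀ n, S.τ n ≤ Real.exp (-LL (z n))) :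
    ∃ (y u : ι → ℕ → ℂ) (R : Tree ι) (σ : ℕ → ℝ),
      (∀ n, Frame (z n) (v n) (fun i => y i n) fun i => u i n) ∧ Lev σ 0 ∧ R.Bal ∧ Cfg S R σ y ∧
      Vel S R σ 0 y u fun _ _ => 0 := by
  choose y u h1 h2 h3 h4 using fun n => point_frame (by omega) (z n) (v n) (hz n) (hv n)
  obtain ⟨R, σ, a1, a2, a3⟩ := ultra_tree S _ hF hτ (fun i n => y n i) _
    (4096 * (2 * Fintype.card ι + 2)) (fun i n => h2 n i) (fun i k hik n => (hL n).trans
      (LL_frame (h1 n) ▸ sep_lower hN ((h1 n).inj (hz n))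
        (by linarith only [(Nat.cast_nonneg (Fintype.card ι) : (0 : ℝ) ≤ _)]) (h2 n) (h4 n) hik)) h4
  exact ⟨fun i n => y n i, fun i n => u n i, R, σ, h1, a1, a2, a3, fun _ => rfl,
    fun _ => S.ge_zero _, fun i k hik s hs => ((a3.2 i k hik).1.mono (a1.2.1.monotone hs)).of_le
      (4 * Fintype.card ι + 7) (.of_forall fun n => by simpa using h3 n i k)⟩

theorem arch1 {q : ℕ} (hq : 10 ^ 13 ≤ q) : ∃ C : ℝ, ∀ (z w v v' : Ix q → ℂ)
    (Φ Φ' : Finset (Ix q) → ℝ), Function.Injective z → Function.Injective w → del q z w ≠ 0 →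
    (∀ A ∈ samples q, HB (6 * q) A z v (Φ A) ∧ HB (6 * q) A w v' (Φ' A)) →
    (∀ i k, ‖v i - v k‖ ≤ ‖z i - z k‖ ∧ ‖v' i - v' k‖ ≤ ‖w i - w k‖) →
    Psi q z w Φ Φ' + c1 q / 2 * (LL z + LL w) ≤ C := by
  by_contra h
  push Not at h
  choose z w v v' Φ Φ' hz hw hd hH hv hC using fun n : ℕ => h n
  have hN : 4 ≤ Fintype.card (Ix q) := by
    simp only [Fintype.card_prod, Fintype.card_fin]
    nlinarith only [hq]
  have l1 := fun n => LL_nonneg (z n)
  have l2 := fun n => LL_nonneg (w n)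
  have n0 : ∀ n : ℕ, (0 : ℝ) ≤ n := fun n => Nat.cast_nonneg n
  let S : Scale ℕ := ⟨hyperfilter ℕ, fun n => Real.exp (-(LL (z n) + LL (w n) + n + 1)),
    .of_forall fun n => Real.exp_pos _, (Real.tendsto_exp_neg_atTop_nhds_zero.comp
      (tendsto_atTop_mono (fun n => by linarith only [l1, l2, l1 n, l2 n])
        tendsto_natCast_atTop_atTop)).mono_left Nat.hyperfilter_le_atTop⟩
  obtain ⟨y, u, R, σ, a1, a2, a3, a4, a5⟩ := Arch_one hN S rfl (fun n => Real.exp_pos _) z v hz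
    (fun n i k => (hv n i k).1) fun n => Real.exp_le_exp.2 (by linarith [l2 n, n0 n])
  obtain ⟨y', u', R', σ', b1, b2, b3, b4, b5⟩ := Arch_one hN S rfl (fun n => Real.exp_pos _) w v' hw
    (fun n i k => (hv n i k).2) fun n => Real.exp_le_exp.2 (by linarith [l1 n, n0 n])
  have hc : 0 < c1 q := by
    have : (0 : ℝ) < q := by exact_mod_cast (by omega : 0 < q)
    unfold c1
    positivity
  have key : ∀ᶠ n in (hyperfilter ℕ : Filter ℕ), _ :=
    loc_frame hq a4 b4 a2 b2 a5 b5 a3 b3 (Or.inl rfl) (fun i n => z n i) (fun i n => w n i)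
      (fun i n => v n i) (fun i n => v' n i) Φ Φ'
      (.of_forall fun n => ⟨hz n, hw n, a1 n, b1 n, hd n, hH n⟩) (-min (c1 q / 2) (1 / 2))
      (neg_neg_of_pos (by positivity))
  obtain ⟨n, k1, k2⟩ := (key.and (Nat.hyperfilter_le_atTop (eventually_ge_atTop 1))).exists
  have k3 : (1 : ℝ) ≤ n := by exact_mod_cast k2
  have k4 : Psi q (z n) (w n) (Φ n) (Φ' n) + c1 q * (LL (z n) + LL (w n)) ≤
      -min (c1 q / 2) (1 / 2) * Real.log (Real.exp (-(LL (z n) + LL (w n) + n + 1))) := k1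
  rw [Real.log_exp] at k4
  have k5 := mul_le_mul_of_nonneg_right (min_le_left (c1 q / 2) (1 / 2)) (add_nonneg (l1 n) (l2 n))
  have k6 := mul_le_mul_of_nonneg_right (min_le_right (c1 q / 2) (1 / 2))
    (add_nonneg (n0 n) zero_le_one)
  linarith only [k3, k4, k5, k6, hC, hC n]

theorem arch {q : ℕ} (hq : 10 ^ 13 ≤ q) : ∃ C : ℝ, ∀ (z w v v' : Ix q → ℂ)
    (Φ Φ' : Finset (Ix q) → ℝ) (P : ℝ), Function.Injective z → Function.Injective w →
    del q z w ≠ 0 → (∀ A ∈ samples q, HB (6 * q) A z v (Φ A) ∧ HB (6 * q) A w v' (Φ' A)) →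
    1 ≤ P → (∀ i k, ‖v i - v k‖ ≤ P * ‖z i - z k‖ ∧ ‖v' i - v' k‖ ≤ P * ‖w i - w k‖) →
    Psi q z w Φ Φ' + c1 q / 2 * (LL z + LL w) ≤ C + 24 * q * Real.log P := by
  obtain ⟨C, hC⟩ := arch1 hq
  refine ⟨C, fun z w v v' Φ Φ' P hz hw hd hH hP hv => ?_⟩
  have P0 : 0 < P := by linarith only [hP]
  have d : ∀ {x y : ℂ} {r : ℝ}, ‖x - y‖ ≤ P * r → ‖x / P - y / P‖ ≤ r := fun h => by
    rwa [← sub_div, norm_div, Complex.norm_real, Real.norm_of_nonneg P0.le, div_le_iff₀' P0]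
  have h := hC z w _ _ _ _ hz hw hd (fun A hA => ⟨(hH A hA).1.scale hP, (hH A hA).2.scale hP⟩)
    fun i k => ⟨d (hv i k).1, d (hv i k).2⟩
  have hs : ((samples q).card : ℝ) ≠ 0 := Nat.cast_ne_zero.2 (samples_pos (by omega)).ne'
  have e : Psi q z w (fun A => Φ A - 2 * (6 * q : ℕ) * Real.log P)
      (fun A => Φ' A - 2 * (6 * q : ℕ) * Real.log P) = Psi q z w Φ Φ' - 24 * q * Real.log P := by
    simp only [Psi, Finset.sum_add_distrib, Finset.sum_sub_distrib, Finset.sum_const, nsmul_eq_mul]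
    push_cast
    field_simp
    ring
  linarith only [h, e]

end Pool.Agent.Work.MP_677830_co.G
end

-- merged part: Pool.Agent.Work.MP_677830_co.G.Place
section
/-!
# The exponent of the potential at a point
place_frame for z and w, par twice (parity of μ + μ' from hpar), loc_frame with ϑ = 1, σ s = s.
Then Psi ≤ ε (-log ‖t-v‖) - c1 (LL z + LL w) and LL ≥ (sum of po - ε)(-log ‖t - v‖) by po_le
(cross ratios are meromorphic at v).
-/

namespace Pool.Agent.Work.MP_677830_co.G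

open Filter Topology Polynomial Matrix MeasureTheory
open scoped ComplexConjugate ComplexOrder

theorem lev_id : Lev (fun s => (s : ℝ)) 1 := by
  refine ⟨Nat.cast_zero, fun a b h => Nat.cast_lt.2 h, zero_le_one, fun s => ?_⟩
  push_cast
  linarith

theorem mer_cr {ι : Type} {z : ι → ℂ → ℂ} {v : ℂ} (hz : ∀ i, MeromorphicAt (z i) v)
    (x : ι × ι × ι × ι) : MeromorphicAt (fun t => cr (fun i => z i t) x) v := by
  exact (((hz _).sub (hz _)).mul ((hz _).sub (hz _))).div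
    (((hz _).sub (hz _)).mul ((hz _).sub (hz _)))

theorem c1_pos {q : ℕ} (hq : 0 < q) : 0 < c1 q := by
  unfold c1
  positivity

theorem place {q : ℕ} (hq : 10 ^ 13 ≤ q) (z w : Ix q → ℂ → ℂ) (v : ℂ)
    (hz : ∀ i, MeromorphicAt (z i) v) (hw : ∀ i, MeromorphicAt (w i) v) (g : Ix q → ℤ)
    (hpar : ∀ i k, i ≠ k →
      Even (ord (fun t => z i t - z k t) v + ord (fun t => w i t - w k t) v + g i + g k))
    (Φ Φ' : Finset (Ix q) → ℂ → ℝ) (hG : ∀ᶠ t in 𝓝[≠] v, Gd q z w Φ Φ' t) {κ : ℝ}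
    (hκ : κ < c1 q * ∑ x : Ix q × Ix q × Ix q × Ix q,
      (po (fun t => cr (fun i => z i t) x) v + po (fun t => cr (fun i => w i t) x) v)) :
    ∀ᶠ t in 𝓝[≠] v, Psi q (fun i => z i t) (fun i => w i t) (fun A => Φ A t) (fun A => Φ' A t) ≤
      κ * Real.log ‖t - v‖ := by
  have hN : 2 * q < Fintype.card (Ix q) := by
    rw [Fintype.card_prod, Fintype.card_fin]
    exact Nat.mul_lt_mul_of_pos_right (by omega) (by omega)
  obtain ⟨R, y, u, D, g1, g0, hB, hc, hv, hF, hμ⟩ := place_frame (by omega) z v hz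
    fun i k hik => hG.mono fun t ht h => hik (ht.2.1 h)
  obtain ⟨R', y', u', D', g1', g0', hB', hc', hv', hF', hμ'⟩ := place_frame (by omega) w v hw
    fun i k hik => hG.mono fun t ht h => hik (ht.2.2.1 h)
  have hp : ∀ i k, i ≠ k → Even ((R.μ i k : ℤ) + R'.μ i k + (g i - g1 i - g1' i) +
      (g k - g1 k - g1' k) + (-g0 - g0')) := fun i k hik => by
    obtain ⟨r, hr⟩ := hpar i k hik
    exact ⟨r, by rw [hμ i k hik, hμ' i k hik]; linarith only [hr]⟩
  have hL := loc_frame hq hc hc' lev_id lev_id hv hv' hB hB' (Or.inr ⟨par R R' hB hB' _ _ hp hN,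
    par R' R hB' hB _ _ (fun i k hik => by rw [add_comm (R'.μ i k : ℤ)]; exact hp i k hik) hN⟩)
    z w (fun i => deriv (z i)) (fun i => deriv (w i)) (fun t A => Φ A t) (fun t A => Φ' A t) (by
      filter_upwards [hG, hF, hF'] with t h1 h2 h3
      exact ⟨h1.2.1, h1.2.2.1, h2, h3, h1.2.2.2.1,
        fun A hA => ⟨(h1.2.2.2.2 A hA).1.2.2, (h1.2.2.2.2 A hA).2.2.2⟩⟩)
  have hc0 : 0 < c1 q := c1_pos (by omega)
  have hn : (0 : ℝ) < 1 + 2 * c1 q * Fintype.card (Ix q × Ix q × Ix q × Ix q) := by positivity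
  obtain ⟨ε, hε, he⟩ : ∃ ε : ℝ, 0 < ε ∧ ε * _ = _ :=
    ⟨_, div_pos (sub_pos.2 hκ) hn, div_mul_cancel₀ _ hn.ne'⟩
  filter_upwards [hL (-ε) (neg_lt_zero.2 hε),
    eventually_all.2 fun x => po_le (mer_cr hz x) (sub_lt_self _ hε),
    eventually_all.2 fun x => po_le (mer_cr hw x) (sub_lt_self _ hε)] with t h0 h1 h2
  have h3 := Finset.sum_le_sum fun x (_ : x ∈ Finset.univ) => add_le_add (h1 x) (h2 x)
  simp only [← add_mul, sub_add_sub_comm] at h3
  rw [← Finset.sum_mul, Finset.sum_sub_distrib, Finset.sum_const, nsmul_eq_mul, Finset.card_univ,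
    Finset.sum_add_distrib (f := fun x => Real.posLog _)] at h3
  have h4 := mul_le_mul_of_nonneg_left h3 hc0.le
  change _ + c1 q * (∑ x, _ + ∑ x, _) ≤ -ε * Real.log ‖t - v‖ at h0
  linear_combination h0 + h4 - Real.log ‖t - v‖ * he

end Pool.Agent.Work.MP_677830_co.G
end

-- merged part: Pool.Agent.Work.MP_677830_co.G.CoreA
section
/-!
# The main inequality on a good circle
gd_psi: at a good point z, w are analytic, differences and del are analytic and nonzero (an_det);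
sm_log with real constants of any sign, sm_sum, SM.const_mul; continuity likewise.
core_ineq: V = bad points in the closed disc (codis_finite), inside the open disc, 0 not in V.
disc with E v = c1 * sum of po (place). On the circle arch with
P t = 1 + sum over offDiag of (‖λ‖ + ‖λ'‖), λ = deriv (z i - z k) / (z i - z k) (deriv of a difference);
log P ≤ log (1 + 2 N^2) + sum of posLog (Real.posLog_sum). All functions are continuous on the circle.
tt_eq for the cross ratio (analytic at good points): TT (cr) ≤ mean LL + sum E v / c1 * log.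
-/

namespace Pool.Agent.Work.MP_677830_co.G

open Filter Topology Polynomial Matrix MeasureTheory
open scoped ComplexConjugate ComplexOrder

variable {q : ℕ} {z w : Ix q → ℂ → ℂ} {Φ Φ' : Finset (Ix q) → ℂ → ℝ}

/-- Continuous with the weak sub-mean property. -/
def CoreA_CS (φ : ℂ → ℝ) (t : ℂ) : Prop := ContinuousAt φ t ∧ SM φ t

theorem CoreA_add {φ ψ : ℂ → ℝ} {t : ℂ} (h : CoreA_CS φ t) (h' : CoreA_CS ψ t) :
    CoreA_CS (fun s => φ s + ψ s) t :=
  ⟨h.1.add h'.1, h.2.add h'.2⟩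

theorem CoreA_mul {φ : ℂ → ℝ} {t : ℂ} (h : CoreA_CS φ t) {c : ℝ} (hc : 0 ≤ c) :
    CoreA_CS (fun s => c * φ s) t :=
  ⟨continuousAt_const.mul h.1, h.2.const_mul hc⟩

theorem CoreA_sum {ι : Type} (s : Finset ι) {F : ι → ℂ → ℝ} {t : ℂ}
    (h : ∀ i ∈ s, CoreA_CS (F i) t) : CoreA_CS (fun x => ∑ i ∈ s, F i x) t :=
  ⟨tendsto_finsetSum s fun i hi => (h i hi).1, sm_sum s fun i hi => (h i hi).2⟩

theorem CoreA_log {f : ℂ → ℂ} {t : ℂ} (hf : AnalyticAt ℂ f t) (h0 : f t ≠ 0) (c : ℝ) :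
    CoreA_CS (fun s => c * Real.log ‖f s‖) t :=
  ⟨continuousAt_const.mul (hf.continuousAt.norm.log (norm_ne_zero_iff.2 h0)), sm_log hf h0 c⟩

theorem CoreA_vs {t : ℂ} (hz : ∀ i, AnalyticAt ℂ (z i) t) (hi : Function.Injective fun i => z i t)
    (A : Finset (Ix q)) (c : ℝ) : CoreA_CS (fun s => c * vs A fun i => z i s) t := by
  simp only [vs, Finset.mul_sum]
  exact CoreA_sum _ fun x hx => CoreA_log (f := fun s => z x.1 s - z x.2 s)
    ((hz _).sub (hz _)) (sub_ne_zero.2 (hi.ne (Finset.mem_offDiag.1 hx).2.2)) c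

theorem CoreA_del {t : ℂ} (hz : ∀ i, AnalyticAt ℂ (z i) t) (hw : ∀ i, AnalyticAt ℂ (w i) t) :
    AnalyticAt ℂ (fun s => del q (fun i => z i s) fun i => w i s) t :=
  an_det fun i _ => ((hz i).fun_pow _).fun_mul ((hw i).fun_pow _)

theorem gd_psi {t : ℂ} (h : Gd q z w Φ Φ' t) :
    ContinuousAt (fun s => Psi q (fun i => z i s) (fun i => w i s) (fun A => Φ A s)
      fun A => Φ' A s) t ∧
    SM (fun s => Psi q (fun i => z i s) (fun i => w i s) (fun A => Φ A s) fun A => Φ' A s) t := by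
  obtain ⟨h1, h2, h3, h4, h5⟩ := h
  have hz := fun i => (h1 i).1
  have hw := fun i => (h1 i).2
  have e : (fun s => Psi q (fun i => z i s) (fun i => w i s) (fun A => Φ A s) fun A => Φ' A s) =
      fun s => ((samples q).card : ℝ)⁻¹ * (∑ A ∈ samples q,
        (Φ A s + cn (24 * q) * vs A (fun i => z i s) +
          (Φ' A s + cn (24 * q) * vs A fun i => w i s))) +
        (lam q * 2 * Real.log ‖del q (fun i => z i s) fun i => w i s‖ +
          (-lam q / (q + 1) * vs Finset.univ (fun i => z i s) +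
            -lam q / (q + 1) * vs Finset.univ fun i => w i s)) := by
    funext s
    unfold Psi
    ring
  rw [e]
  refine CoreA_add (CoreA_mul (CoreA_sum _ fun A hA => ?_) (by positivity))
    (CoreA_add (CoreA_log (CoreA_del hz hw) h4 _)
      (CoreA_add (CoreA_vs hz h2 _ _) (CoreA_vs hw h3 _ _)))
  obtain ⟨⟨a1, a2, -⟩, a3, a4, -⟩ := h5 A hA
  exact CoreA_add (CoreA_add ⟨a1, a2⟩ (CoreA_vs hz h2 _ _))
    (CoreA_add ⟨a3, a4⟩ (CoreA_vs hw h3 _ _))

theorem an_cr {ι : Type} {z : ι → ℂ → ℂ} {t : ℂ} (hz : ∀ i, AnalyticAt ℂ (z i) t)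
    (hi : Function.Injective fun i => z i t) (x : ι × ι × ι × ι) :
    AnalyticAt ℂ (fun s => cr (fun i => z i s) x) t := by
  unfold cr
  by_cases h1 : x.1 = x.2.2.1
  · simp only [h1, sub_self, zero_mul, div_zero]
    exact analyticAt_const
  by_cases h2 : x.2.1 = x.2.2.2
  · simp only [h2, sub_self, mul_zero, div_zero]
    exact analyticAt_const
  exact (((hz _).fun_sub (hz _)).fun_mul ((hz _).fun_sub (hz _))).fun_div
    (((hz _).fun_sub (hz _)).fun_mul ((hz _).fun_sub (hz _)))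
    (mul_ne_zero (sub_ne_zero.2 (hi.ne h1)) (sub_ne_zero.2 (hi.ne h2)))

theorem CoreA_ci {u : ℂ → ℝ} {r : ℝ} (hr : 0 ≤ r) (h : ∀ t, ‖t‖ = r → ContinuousAt u t) :
    CircleIntegrable u 0 r :=
  ContinuousOn.circleIntegrable hr fun t ht =>
    (h t (mem_sphere_zero_iff_norm.1 ht)).continuousWithinAt

theorem CoreA_avg {ι : Type} {r a b C : ℝ} (hr : 0 ≤ r) (s : Finset ι) {φ f g : ℂ → ℝ}
    {F G : ι → ℂ → ℝ} (hφ : ∀ t, ‖t‖ = r → ContinuousAt φ t)
    (hf : ∀ t, ‖t‖ = r → ContinuousAt f t) (hg : ∀ t, ‖t‖ = r → ContinuousAt g t)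
    (hF : ∀ i ∈ s, ∀ t, ‖t‖ = r → ContinuousAt (F i) t)
    (hG : ∀ i ∈ s, ∀ t, ‖t‖ = r → ContinuousAt (G i) t)
    (h : ∀ t, ‖t‖ = r → φ t + a * (f t + g t) ≤ C + b * ∑ i ∈ s, (F i t + G i t)) :
    Real.circleAverage φ 0 r + a * (Real.circleAverage f 0 r + Real.circleAverage g 0 r) ≤
      C + b * ∑ i ∈ s, (Real.circleAverage (F i) 0 r + Real.circleAverage (G i) 0 r) := by
  have m : ∀ (c : ℝ) (u : ℂ → ℝ), Real.circleAverage (fun t => c * u t) 0 r =
      c * Real.circleAverage u 0 r := fun c u => Real.circleAverage_fun_smul (a := c)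
  have i1 : CircleIntegrable (fun t => a * (f t + g t)) 0 r :=
    CoreA_ci hr fun t ht => continuousAt_const.mul ((hf t ht).add (hg t ht))
  have i2 : ∀ i ∈ s, CircleIntegrable (fun t => F i t + G i t) 0 r := fun i hi =>
    CoreA_ci hr fun t ht => (hF i hi t ht).add (hG i hi t ht)
  have i3 : CircleIntegrable (fun t => b * ∑ i ∈ s, (F i t + G i t)) 0 r :=
    CoreA_ci hr fun t ht => continuousAt_const.mul
      (tendsto_finsetSum s fun i hi => (hF i hi t ht).add (hG i hi t ht))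
  have key := Real.circleAverage_mono (f₁ := fun t => φ t + a * (f t + g t))
    (f₂ := fun t => C + b * ∑ i ∈ s, (F i t + G i t)) ((CoreA_ci hr hφ).add i1)
    ((circleIntegrable_const C 0 r).add i3) fun t ht =>
      h t ((mem_sphere_zero_iff_norm.1 ht).trans (abs_of_nonneg hr))
  rw [Real.circleAverage_fun_add (CoreA_ci hr hφ) i1,
    Real.circleAverage_fun_add (circleIntegrable_const C 0 r) i3, m, m,
    Real.circleAverage_fun_add (CoreA_ci hr hf) (CoreA_ci hr hg), Real.circleAverage_const,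
    Real.circleAverage_fun_sum i2] at key
  refine key.trans_eq ?_
  congr 2
  exact Finset.sum_congr rfl fun i hi =>
    Real.circleAverage_fun_add (CoreA_ci hr (hF i hi)) (CoreA_ci hr (hG i hi))

/-- The size of the logarithmic derivative of a difference. -/
noncomputable def CoreA_ld (z : Ix q → ℂ → ℂ) (x : Ix q × Ix q) (t : ℂ) : ℝ :=
  Real.posLog ‖deriv (fun t => z x.1 t - z x.2 t) t / (z x.1 t - z x.2 t)‖

theorem CoreA_ld_cont {t : ℂ} (hz : ∀ i, AnalyticAt ℂ (z i) t)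
    (hi : Function.Injective fun i => z i t) {x : Ix q × Ix q} (hx : x.1 ≠ x.2) :
    ContinuousAt (CoreA_ld z x) t := by
  have h1 : AnalyticAt ℂ (fun t => z x.1 t - z x.2 t) t := (hz _).fun_sub (hz _)
  exact Real.continuous_posLog.continuousAt.comp
    ((h1.deriv.fun_div h1 (sub_ne_zero.2 (hi.ne hx))).continuousAt.norm)

theorem CoreA_vel {t : ℂ} (hz : ∀ i, AnalyticAt ℂ (z i) t)
    (hi : Function.Injective fun i => z i t) {S : ℝ}
    (hS : ∀ x ∈ (Finset.univ : Finset (Ix q)).offDiag, CoreA_ld z x t ≤ S) (i k : Ix q) :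
    ‖deriv (z i) t - deriv (z k) t‖ ≤ Real.exp S * ‖z i t - z k t‖ := by
  by_cases h : i = k
  · simp [h]
  have h0 : z i t - z k t ≠ 0 := sub_ne_zero.2 (hi.ne h)
  have h1 := hS (i, k) (Finset.mem_offDiag.2 ⟨Finset.mem_univ _, Finset.mem_univ _, h⟩)
  unfold CoreA_ld at h1
  simp only [] at h1
  rw [deriv_fun_sub (hz i).differentiableAt (hz k).differentiableAt, norm_div] at h1
  rw [← div_le_iff₀ (norm_pos_iff.2 h0)]
  exact (Real.le_exp_log _).trans (Real.exp_le_exp.2 ((le_max_right _ _).trans h1))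

theorem CoreA_LL (z : Ix q → ℂ) (x : Ix q × Ix q × Ix q × Ix q) : Real.posLog ‖cr z x‖ ≤ LL z :=
  Finset.single_le_sum (f := fun x => Real.posLog ‖cr z x‖) (fun _ _ => Real.posLog_nonneg)
    (Finset.mem_univ x)

theorem CoreA_pt (hq : 10 ^ 13 ≤ q) : ∃ C : ℝ, ∀ (z w : Ix q → ℂ → ℂ)
    (Φ Φ' : Finset (Ix q) → ℂ → ℝ) (t : ℂ), Gd q z w Φ Φ' t → ∀ x,
    Psi q (fun i => z i t) (fun i => w i t) (fun A => Φ A t) (fun A => Φ' A t) +
      c1 q / 2 * (Real.posLog ‖cr (fun i => z i t) x‖ + Real.posLog ‖cr (fun i => w i t) x‖) ≤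
      C + 24 * q * ∑ x ∈ (Finset.univ : Finset (Ix q)).offDiag,
        (CoreA_ld z x t + CoreA_ld w x t) := by
  obtain ⟨C, hC⟩ := arch hq
  refine ⟨C, fun z w Φ Φ' t ⟨h1, h2, h3, h4, h5⟩ x => ?_⟩
  have n0 : ∀ y ∈ (Finset.univ : Finset (Ix q)).offDiag, 0 ≤ CoreA_ld z y t + CoreA_ld w y t :=
    fun y _ => add_nonneg Real.posLog_nonneg Real.posLog_nonneg
  have n1 := fun y hy => Finset.single_le_sum n0 (a := y) hy
  have key := hC _ _ (fun i => deriv (z i) t) (fun i => deriv (w i) t) _ _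
    (Real.exp (∑ x ∈ (Finset.univ : Finset (Ix q)).offDiag, (CoreA_ld z x t + CoreA_ld w x t)))
    h2 h3 h4 (fun A hA => ⟨(h5 A hA).1.2.2, (h5 A hA).2.2.2⟩)
    (Real.one_le_exp (Finset.sum_nonneg n0)) fun i k =>
      ⟨CoreA_vel (fun i => (h1 i).1) h2 (fun y hy =>
        (le_add_of_nonneg_right Real.posLog_nonneg).trans (n1 y hy)) i k,
      CoreA_vel (fun i => (h1 i).2) h3 (fun y hy =>
        (le_add_of_nonneg_left Real.posLog_nonneg).trans (n1 y hy)) i k⟩
  rw [Real.log_exp] at key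
  have c0 : 0 ≤ c1 q / 2 := (half_pos (c1_pos (lt_of_lt_of_le (by norm_num) hq))).le
  have := mul_le_mul_of_nonneg_left
    (add_le_add (CoreA_LL (fun i => z i t) x) (CoreA_LL (fun i => w i t) x)) c0
  linarith only [key, this]

theorem core_ineq (hq : 10 ^ 13 ≤ q) (hz : ∀ i, Meromorphic (z i)) (hw : ∀ i, Meromorphic (w i))
    (hpar : ∀ v, ∃ g : Ix q → ℤ, ∀ i k, i ≠ k →
      Even (ord (fun t => z i t - z k t) v + ord (fun t => w i t - w k t) v + g i + g k))
    (hG : ∀ᶠ t in codiscrete ℂ, Gd q z w Φ Φ' t) (h0 : Gd q z w Φ Φ' 0) :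
    ∃ C K : ℝ, 0 ≤ K ∧ ∀ r, 1 ≤ r → (∀ t, ‖t‖ = r → Gd q z w Φ Φ' t) → ∀ x,
      TT (fun t => cr (fun i => z i t) x) r + TT (fun t => cr (fun i => w i t) x) r ≤
        C + K * ∑ x ∈ (Finset.univ : Finset (Ix q)).offDiag,
          (mld (fun t => z x.1 t - z x.2 t) r + mld (fun t => w x.1 t - w x.2 t) r) := by
  classical
  obtain ⟨C, hC⟩ := CoreA_pt hq
  have c0 : 0 < c1 q := c1_pos (lt_of_lt_of_le (by norm_num) hq)
  refine ⟨2 / c1 q * (C - Psi q (fun i => z i 0) (fun i => w i 0) (fun A => Φ A 0)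
    fun A => Φ' A 0), 2 / c1 q * (24 * q), by positivity, fun r hr hc x => ?_⟩
  have r0 : 0 < r := one_pos.trans_le hr
  obtain ⟨V, hV⟩ : ∃ V : Finset ℂ, ∀ t, t ∈ V ↔ ‖t‖ ≤ r ∧ ¬Gd q z w Φ Φ' t :=
    ⟨(codis_finite hG r).toFinset, fun t => Set.Finite.mem_toFinset _⟩
  have V1 : ∀ v ∈ V, v ≠ 0 ∧ ‖v‖ < r := fun v hv =>
    ⟨fun e => ((hV v).1 hv).2 (e ▸ h0),
      lt_of_le_of_ne ((hV v).1 hv).1 fun e => ((hV v).1 hv).2 (hc v e)⟩
  have V2 : ∀ t, ‖t‖ ≤ r → t ∉ V → Gd q z w Φ Φ' t := fun t h1 h2 =>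
    not_not.1 fun h3 => h2 ((hV t).2 ⟨h1, h3⟩)
  have d1 := disc r0 V V1 (fun v => c1 q * ∑ x : Ix q × Ix q × Ix q × Ix q,
      (po (fun t => cr (fun i => z i t) x) v + po (fun t => cr (fun i => w i t) x) v))
    (fun t h1 h2 => gd_psi (V2 t h1 h2)) fun v _ κ hκ => by
      obtain ⟨g, hg⟩ := hpar v
      exact place hq z w v (fun i => hz i v) (fun i => hw i v) g hg Φ Φ' (codis_iff.1 hG v) hκ
  have az : ∀ t, Gd q z w Φ Φ' t → AnalyticAt ℂ (fun t => cr (fun i => z i t) x) t :=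
    fun t h => an_cr (fun i => (h.1 i).1) h.2.1 x
  have aw : ∀ t, Gd q z w Φ Φ' t → AnalyticAt ℂ (fun t => cr (fun i => w i t) x) t :=
    fun t h => an_cr (fun i => (h.1 i).2) h.2.2.1 x
  have d2 := CoreA_avg r0.le (Finset.univ : Finset (Ix q)).offDiag
    (F := CoreA_ld z) (G := CoreA_ld w) (fun t ht => (gd_psi (hc t ht)).1)
    (fun t ht => Real.continuous_posLog.continuousAt.comp (az t (hc t ht)).continuousAt.norm)
    (fun t ht => Real.continuous_posLog.continuousAt.comp (aw t (hc t ht)).continuousAt.norm)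
    (fun y hy t ht => CoreA_ld_cont (fun i => ((hc t ht).1 i).1) (hc t ht).2.1
      (Finset.mem_offDiag.1 hy).2.2)
    (fun y hy t ht => CoreA_ld_cont (fun i => ((hc t ht).1 i).2) (hc t ht).2.2.1
      (Finset.mem_offDiag.1 hy).2.2) fun t ht => hC z w Φ Φ' t (hc t ht) x
  rw [tt_eq (fun v => mer_cr (fun i => hz i v) x) r0 V V1 fun t h1 h2 => az t (V2 t h1 h2),
    tt_eq (fun v => mer_cr (fun i => hw i v) x) r0 V V1 fun t h1 h2 => aw t (V2 t h1 h2)]
  have d3 : c1 q / 2 * (∑ v ∈ V, po (fun t => cr (fun i => z i t) x) v * Real.log (r / ‖v‖) +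
      ∑ v ∈ V, po (fun t => cr (fun i => w i t) x) v * Real.log (r / ‖v‖)) ≤
      ∑ v ∈ V, (c1 q * ∑ x : Ix q × Ix q × Ix q × Ix q,
      (po (fun t => cr (fun i => z i t) x) v + po (fun t => cr (fun i => w i t) x) v)) *
        Real.log (r / ‖v‖) := by
    rw [← Finset.sum_add_distrib, Finset.mul_sum]
    refine Finset.sum_le_sum fun v hv => ?_
    have l0 : 0 ≤ Real.log (r / ‖v‖) :=
      Real.log_nonneg ((one_le_div (norm_pos_iff.2 (V1 v hv).1)).2 (V1 v hv).2.le)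
    have s1 := Finset.single_le_sum (f := fun x : Ix q × Ix q × Ix q × Ix q =>
      po (fun t => cr (fun i => z i t) x) v + po (fun t => cr (fun i => w i t) x) v)
      (fun _ _ => add_nonneg (po_nonneg _ _) (po_nonneg _ _)) (Finset.mem_univ x)
    have s0 := add_nonneg (po_nonneg (fun t => cr (fun i => z i t) x) v)
      (po_nonneg (fun t => cr (fun i => w i t) x) v)
    rw [← add_mul, ← mul_assoc]
    exact mul_le_mul_of_nonneg_right (mul_le_mul (half_le_self c0.le) s1 s0 c0.le) l0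
  have e : ∀ a b : ℝ, c1 q / 2 * (2 / c1 q * a + 2 / c1 q * (24 * q) * b) = a + 24 * q * b :=
    fun a b => by field_simp
  refine le_of_mul_le_mul_left ?_ (half_pos c0)
  rw [e]
  change _ ≤ C + 24 * q * ∑ x ∈ (Finset.univ : Finset (Ix q)).offDiag,
    (mld (fun t => z x.1 t - z x.2 t) r + mld (fun t => w x.1 t - w x.2 t) r) at d2
  simp only [Function.comp_def] at d2
  linarith only [d1, d3, d2]

end Pool.Agent.Work.MP_677830_co.G
end

-- merged part: Pool.Agent.Work.MP_677830_co.G.Core2A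
section
/-!
# Pointwise bounds on the double cover
lam_le: N = u^2 - w^2, n = 2 (a u^2 - b w^2) / N, λ = (a u + b w)/(u + w), μ = (a u - b w)/(u - w);
λ + μ = n and (λ - μ)^2 = 4 (n/2 - a)(n/2 - b), so ‖λ - μ‖ ≤ ‖n/2 - a‖ + ‖n/2 - b‖.
vel_le: u = α t, w = r β t (α = A i - A k, β = B i - B k), a = α'/α, b = Δ'/(2 Δ); the dichotomy
hypotheses give vv i - vv k = a u + b w and N' = 2 (a u^2 - b w^2) in all cases.
zeta_le: for i ≠ J 1, cr z (i, J 0, J 1, J 2) = κ (1 + (a 1 - a 0) (z i - a 1)⁻¹),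
κ = (a 1 - a 2)/(a 0 - a 2); posLog_add, posLog_mul, CoreA_LL; for i = J 1 the inverse is 0.
fam_le: with ζ = (z i - a 1)⁻¹, ω = (w i - a 1)⁻¹: pF = ζ ω, sF = ζ + ω (both 0 for i = J 1).
-/

namespace Pool.Agent.Work.MP_677830_co.G

open Filter Topology Polynomial Matrix MeasureTheory
open scoped ComplexConjugate ComplexOrder

theorem lam_le (u w a b : ℂ) (h : u ^ 2 - w ^ 2 ≠ 0) :
    ‖a * u + b * w‖ ≤
      (‖2 * (a * u ^ 2 - b * w ^ 2) / (u ^ 2 - w ^ 2)‖ + ‖a‖ + ‖2 * b‖) * ‖u + w‖ := by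
  have e : u ^ 2 - w ^ 2 = (u + w) * (u - w) := by ring
  obtain ⟨h1, h2⟩ := mul_ne_zero_iff.1 (e ▸ h)
  obtain ⟨n, hn⟩ : ∃ n, n = 2 * (a * u ^ 2 - b * w ^ 2) / (u ^ 2 - w ^ 2) := ⟨_, rfl⟩
  obtain ⟨d, hd⟩ : ∃ d, d = 2 * u * w * (b - a) / (u ^ 2 - w ^ 2) := ⟨_, rfl⟩
  have e1 : a * u + b * w = (n + d) / 2 * (u + w) := by
    rw [hn, hd, e]
    field_simp
    ring
  have e2 : d ^ 2 = 4 * ((n / 2 - a) * (n / 2 - b)) := by
    rw [hn, hd]
    field_simp
    ring
  have e3 : ‖d‖ ≤ ‖n / 2 - a‖ + ‖n / 2 - b‖ := by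
    refine le_of_sq_le_sq ?_ (by positivity)
    rw [← norm_pow, e2, norm_mul, norm_mul, Complex.norm_ofNat]
    linarith only [sq_nonneg (‖n / 2 - a‖ - ‖n / 2 - b‖), sq_nonneg ((1 : ℝ) * ‖n / (2 : ℂ) - a‖ - (1 : ℝ) * ‖n / (2 : ℂ) - b‖)]
  have e4 : ‖n / 2‖ = ‖n‖ / 2 := by rw [norm_div, Complex.norm_ofNat]
  rw [← hn, e1, norm_mul, norm_div, norm_mul, Complex.norm_ofNat]
  refine mul_le_mul_of_nonneg_right ?_ (norm_nonneg _)
  linarith only [e3, e4, norm_add_le n d, norm_sub_le (n / 2) a, norm_sub_le (n / 2) b, norm_nonneg a,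
    norm_nonneg b]

/-- The three functions whose logarithmic derivatives control the velocities. -/
noncomputable def hF {ι : Type} (h : ℂ → ℂ) (A B : ι → ℂ → ℂ) (x : (ι × ι) × Fin 3) (t : ℂ) : ℂ :=
  ![A x.1.1 t - A x.1.2 t, h t * (B x.1.1 t - B x.1.2 t) ^ 2,
    (A x.1.1 t - A x.1.2 t) ^ 2 - h t * (B x.1.1 t - B x.1.2 t) ^ 2] x.2

theorem vel_le {ι : Type} {h : ℂ → ℂ} {A B : ι → ℂ → ℂ} {t r : ℂ} {i k : ι}
    (hh : AnalyticAt ℂ h t) (h0 : h t ≠ 0) (hr : r ^ 2 = h t)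
    (ha : ∀ i, AnalyticAt ℂ (A i) t ∧ AnalyticAt ℂ (B i) t)
    (h1 : A i t - A k t ≠ 0 ∨ ∀ᶠ s in 𝓝 t, A i s - A k s = 0)
    (h2 : B i t - B k t ≠ 0 ∨ ∀ᶠ s in 𝓝 t, B i s - B k s = 0)
    (h3 : zz A B t r i ≠ zz A B t r k) (h4 : zz A B t (-r) i ≠ zz A B t (-r) k) :
    ‖vv h A B t r i - vv h A B t r k‖ ≤
      (∑ m : Fin 3, ‖deriv (hF h A B ((i, k), m)) t / hF h A B ((i, k), m) t‖) *
        ‖zz A B t r i - zz A B t r k‖ := by
  obtain ⟨α, hα⟩ : ∃ α : ℂ → ℂ, α = fun s => A i s - A k s := ⟨_, rfl⟩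
  obtain ⟨β, hβ⟩ : ∃ β : ℂ → ℂ, β = fun s => B i s - B k s := ⟨_, rfl⟩
  have dα : HasDerivAt α (deriv (A i) t - deriv (A k) t) t :=
    hα ▸ (ha i).1.differentiableAt.hasDerivAt.fun_sub (ha k).1.differentiableAt.hasDerivAt
  have dβ : HasDerivAt β (deriv (B i) t - deriv (B k) t) t :=
    hβ ▸ (ha i).2.differentiableAt.hasDerivAt.fun_sub (ha k).2.differentiableAt.hasDerivAt
  have dΔ := hh.differentiableAt.hasDerivAt.fun_mul (dβ.fun_pow 2)
  have dN := (dα.fun_pow 2).fun_sub dΔ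
  have z0 : ∀ {f : ℂ → ℂ} {c : ℂ}, HasDerivAt f c t → (∀ᶠ s in 𝓝 t, f s = 0) →
      c = 0 ∧ f t = 0 := fun hf he =>
    ⟨hf.unique ((hasDerivAt_const t (0 : ℂ)).congr_of_eventuallyEq he), he.self_of_nhds⟩
  have f0 : hF h A B ((i, k), 0) = α := hα ▸ rfl
  have f1 : hF h A B ((i, k), 1) = fun s => h s * β s ^ 2 := hβ ▸ rfl
  have f2 : hF h A B ((i, k), 2) = fun s => α s ^ 2 - h s * β s ^ 2 := hα ▸ hβ ▸ rfl
  have g1 : zz A B t r i - zz A B t r k = α t + r * β t := by rw [hα, hβ, zz, zz]; ring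
  have g2 : zz A B t (-r) i - zz A B t (-r) k = α t - r * β t := by rw [hα, hβ, zz, zz]; ring
  have g3 : vv h A B t r i - vv h A B t r k = deriv (A i) t - deriv (A k) t +
      r * (deriv (B i) t - deriv (B k) t + deriv h t / (2 * h t) * β t) := by rw [hβ, vv, vv]; ring
  have k1 : α t ≠ 0 ∨ ∀ᶠ s in 𝓝 t, α s = 0 := hα ▸ h1
  have k2 : β t ≠ 0 ∨ ∀ᶠ s in 𝓝 t, β s = 0 := hβ ▸ h2
  rw [Fin.sum_univ_three, f0, f1, f2, dα.deriv, dΔ.deriv, dN.deriv, g1, g3]
  generalize deriv (A i) t - deriv (A k) t = α' at *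
  generalize deriv (B i) t - deriv (B k) t = β' at *
  generalize deriv h t = h' at *
  have hN : α t ^ 2 - (r * β t) ^ 2 ≠ 0 := by
    rw [sq_sub_sq, ← g1, ← g2]
    exact mul_ne_zero (sub_ne_zero.2 h3) (sub_ne_zero.2 h4)
  obtain ⟨D, hD⟩ : ∃ D, D = h' * β t ^ 2 + h t * (((2 : ℕ) : ℂ) * β t ^ (2 - 1) * β') := ⟨_, rfl⟩
  have e1 : α' / α t * α t = α' := by
    rcases k1 with k | k
    · exact div_mul_cancel₀ _ k
    · rw [(z0 dα k).1, zero_div, zero_mul]
  have e2 : D / (h t * β t ^ 2) / 2 * (r * β t) = r * (β' + h' / (2 * h t) * β t) := by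
    rcases k2 with k | k
    · rw [hD]
      field_simp
      push_cast
      ring
    · rw [(z0 dβ k).1, (z0 dβ k).2]
      ring
  have e3 : 2 * (α' / α t * α t ^ 2 - D / (h t * β t ^ 2) / 2 * (r * β t) ^ 2) =
      ((2 : ℕ) : ℂ) * α t ^ (2 - 1) * α' - D := by
    rw [sq (α t), sq (r * β t), ← mul_assoc _ (α t), ← mul_assoc _ (r * β t), e1, e2, hD]
    have : r * r = h t := by rw [← hr, sq]
    field_simp
    push_cast
    linear_combination (-(2 * h t * β t * β' + h' * β t ^ 2)) * this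
  have key := lam_le (α t) (r * β t) (α' / α t) (D / (h t * β t ^ 2) / 2) hN
  rw [e1, e2, e3, mul_div_cancel₀ _ two_ne_zero, mul_pow, hr] at key
  rw [← hD]
  exact key.trans_eq (by ring)

theorem zeta_le {ι : Type} [Fintype ι] [DecidableEq ι] (J : Fin 3 ↪ ι) (a : Fin 3 → ℂ) :
    ∃ C : ℝ, ∀ z : ι → ℂ, Function.Injective z → (∀ m, z (J m) = a m) →
      ∀ i, Real.posLog ‖(z i - a 1)⁻¹‖ ≤ C + LL z := by
  refine ⟨Real.log 2 + Real.posLog ‖(a 0 - a 2) / ((a 1 - a 2) * (a 1 - a 0))‖ +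
    Real.posLog ‖-(a 1 - a 0)⁻¹‖, fun z hz ha i => ?_⟩
  have l2 : 0 ≤ Real.log 2 := Real.log_nonneg one_le_two
  have p0 : ∀ x : ℝ, 0 ≤ Real.posLog x := fun _ => Real.posLog_nonneg
  by_cases hi : i = J 1
  · rw [hi, ha, sub_self, _root_.inv_zero, norm_zero, Real.posLog_zero]
    exact add_nonneg (add_nonneg (add_nonneg l2 (p0 _)) (p0 _)) (LL_nonneg z)
  have n : ∀ {m m' : Fin 3}, m ≠ m' → a m - a m' ≠ 0 := fun h =>
    sub_ne_zero.2 (by rw [← ha, ← ha]; exact hz.ne (J.injective.ne h))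
  have n0 : z i - a 1 ≠ 0 := sub_ne_zero.2 (by rw [← ha]; exact hz.ne hi)
  have n1 := n (show (0 : Fin 3) ≠ 2 by decide)
  have n2 := n (show (1 : Fin 3) ≠ 2 by decide)
  have n3 := n (show (1 : Fin 3) ≠ 0 by decide)
  have e : (z i - a 1)⁻¹ = (a 0 - a 2) / ((a 1 - a 2) * (a 1 - a 0)) * cr z (i, J 0, J 1, J 2) +
      -(a 1 - a 0)⁻¹ := by
    simp only [cr, ha]
    field_simp
    ring
  have s1 : Real.posLog ‖cr z (i, J 0, J 1, J 2)‖ ≤ LL z :=
    Finset.single_le_sum (f := fun x => Real.posLog ‖cr z x‖) (fun _ _ => p0 _) (Finset.mem_univ _)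
  rw [e]
  refine (Real.posLog_norm_add_le _ _).trans ?_
  rw [norm_mul]
  linarith only [s1, Real.posLog_mul (x := ‖(a 0 - a 2) / ((a 1 - a 2) * (a 1 - a 0))‖)
    (y := ‖cr z (i, J 0, J 1, J 2)‖)]

/-- The symmetric functions of the normalised coordinates. -/
noncomputable def fF {ι : Type} (h : ℂ → ℂ) (A B : ι → ℂ → ℂ) (a : ℂ) (x : ι × Bool) (t : ℂ) : ℂ :=
  (if x.2 then 2 * (A x.1 t - a) else 1) * ((A x.1 t - a) ^ 2 - h t * B x.1 t ^ 2)⁻¹

theorem fam_le {q : ℕ} (J : Fin 3 ↪ Ix q) (a : Fin 3 → ℂ) : ∃ C : ℝ,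
    ∀ (h : ℂ → ℂ) (A B : Ix q → ℂ → ℂ) (t r : ℂ), r ^ 2 = h t →
      Function.Injective (zz A B t r) → Function.Injective (zz A B t (-r)) →
      (∀ m, A (J m) t = a m ∧ B (J m) t = 0) →
      ∑ x, Real.posLog ‖fF h A B (a 1) x t‖ ≤ C + 2 * (q : ℝ) ^ 2 * L2 A B t r := by
  obtain ⟨C, hC⟩ := zeta_le J a
  refine ⟨2 * (q : ℝ) ^ 2 * (Real.log 2 + 2 * C), fun h A B t r hr h1 h2 hJ => ?_⟩
  have l2 : 0 ≤ Real.log 2 := Real.log_nonneg one_le_two
  have zJ : ∀ ρ m, zz A B t ρ (J m) = a m := fun ρ m => by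
    rw [zz, (hJ m).1, (hJ m).2, mul_zero, add_zero]
  have key : ∀ x, Real.posLog ‖fF h A B (a 1) x t‖ ≤ Real.log 2 + 2 * C + L2 A B t r := by
    rintro ⟨i, b⟩
    have c1 := hC _ h1 (zJ r) i
    have c2 := hC _ h2 (zJ (-r)) i
    have e : (A i t - a 1) ^ 2 - h t * B i t ^ 2 = (zz A B t r i - a 1) * (zz A B t (-r) i - a 1) := by
      rw [← hr, zz, zz]; ring
    have e' : 2 * (A i t - a 1) = (zz A B t r i - a 1) + (zz A B t (-r) i - a 1) := by
      rw [zz, zz]; ring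
    cases b
    · rw [fF, if_neg Bool.false_ne_true, one_mul, e, mul_inv, norm_mul]
      refine Real.posLog_mul.trans ?_
      rw [L2]
      linarith only [l2, c1, c2]
    · have e2 : fF h A B (a 1) (i, true) t =
          (zz A B t r i - a 1)⁻¹ + (zz A B t (-r) i - a 1)⁻¹ := by
        rw [fF, if_pos rfl, e, e']
        by_cases hi : i = J 1
        · rw [hi, zJ, zJ]
          simp
        have n1 : zz A B t r i - a 1 ≠ 0 := sub_ne_zero.2 (by rw [← zJ r]; exact h1.ne hi)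
        have n2 : zz A B t (-r) i - a 1 ≠ 0 := sub_ne_zero.2 (by rw [← zJ (-r)]; exact h2.ne hi)
        field_simp
        ring
      rw [e2]
      refine (Real.posLog_norm_add_le _ _).trans ?_
      rw [L2]
      linarith only [c1, c2]
  refine (Finset.sum_le_card_nsmul _ _ _ fun x _ => key x).trans_eq ?_
  simp only [Finset.card_univ, Fintype.card_prod, Fintype.card_fin, Fintype.card_bool, nsmul_eq_mul]
  push_cast
  ring

theorem arch2 {q : ℕ} (hq : 10 ^ 13 ≤ q) : ∃ C : ℝ, ∀ (h : ℂ → ℂ) (A B : Ix q → ℂ → ℂ)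
    (Φ : Finset (Ix q) → ℂ → ℂ → ℝ) (t r : ℂ), Gd2 q h A B Φ t → r ^ 2 = h t →
    (∀ i k, A i t - A k t ≠ 0 ∨ ∀ᶠ s in 𝓝 t, A i s - A k s = 0) →
    (∀ i k, B i t - B k t ≠ 0 ∨ ∀ᶠ s in 𝓝 t, B i s - B k s = 0) →
    Ps2 q A B Φ t r + c1 q / 2 * L2 A B t r ≤
      C + 24 * q * ∑ x, Real.posLog ‖deriv (hF h A B x) t / hF h A B x t‖ := by
  obtain ⟨C, hC⟩ := arch hq
  refine ⟨C + 24 * q * Real.log 3, fun h A B Φ t r ⟨g1, g2, g3, g4, _⟩ hr k1 k2 => ?_⟩
  obtain ⟨S, hS⟩ : ∃ S, S = ∑ x, Real.posLog ‖deriv (hF h A B x) t / hF h A B x t‖ := ⟨_, rfl⟩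
  have hr' : (-r) ^ 2 = h t := by rw [neg_sq, hr]
  have S0 : 1 ≤ Real.exp S :=
    Real.one_le_exp (hS ▸ Finset.sum_nonneg fun _ _ => Real.posLog_nonneg)
  have b1 : ∀ x, ‖deriv (hF h A B x) t / hF h A B x t‖ ≤ Real.exp S := fun x =>
    (Real.le_exp_log _).trans (Real.exp_le_exp.2 ((le_max_right _ _).trans (hS ▸
      Finset.single_le_sum (f := fun x => Real.posLog ‖deriv (hF h A B x) t / hF h A B x t‖)
        (fun _ _ => Real.posLog_nonneg) (Finset.mem_univ x))))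
  have b2 : ∀ ρ, ρ ^ 2 = h t → ∀ i k, ‖vv h A B t ρ i - vv h A B t ρ k‖ ≤
      3 * Real.exp S * ‖zz A B t ρ i - zz A B t ρ k‖ := fun ρ hρ i k => by
    by_cases e : i = k
    · simp [e]
    refine (vel_le g1 g2 hρ g3 (k1 i k) (k2 i k) ((g4 ρ hρ).1.ne e)
      ((g4 (-ρ) (by rw [neg_sq, hρ])).1.ne e)).trans (mul_le_mul_of_nonneg_right ?_ (norm_nonneg _))
    rw [Fin.sum_univ_three]
    linarith only [b1, b1 ((i, k), 0), b1 ((i, k), 1), b1 ((i, k), 2)]
  have key := hC _ _ _ _ (fun S => Φ S t r) (fun S => Φ S t (-r)) (3 * Real.exp S) (g4 r hr).1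
    (g4 _ hr').1 (g4 r hr).2.1 (fun S hS => ⟨(g4 r hr).2.2 S hS, (g4 _ hr').2.2 S hS⟩)
    (by linarith only [S0]) fun i k => ⟨b2 r hr i k, b2 _ hr' i k⟩
  rw [Real.log_mul three_ne_zero (Real.exp_pos S).ne', Real.log_exp] at key
  rw [← hS, Ps2, L2]
  linarith only [key]

end Pool.Agent.Work.MP_677830_co.G
end

-- merged part: Pool.Agent.Work.MP_677830_co.G.Ldlx1
section
/-!
# The lemma on the logarithmic derivative for meromorphic functions, finite form
-/

namespace Pool.Agent.Work.MP_677830_co.G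

open Complex Metric Set Filter Topology Real MeasureTheory ComplexConjugate
open Pool.Agent.Work.MP_6ac3f6_an

lemma Ldl_bk {R r : ℝ} {a z : ℂ} (ha : ‖a‖ < R) (hz : ‖z‖ = r) (h1 : R ≤ 2 * r) (h2 : r < R)
    (hza : z ≠ a) :
    (R - r) * ‖bk R a z‖ ≤ 4 * (1 - ‖a‖ / R) * pk R a z * (1 + 2 * ((R - r) / ‖z - a‖)) := by
  have hR : 0 < R := (norm_nonneg a).trans_lt ha
  have n0 : (R : ℂ) ≠ 0 := by exact_mod_cast hR.ne'
  have n1 := pk_ne ha (hz.trans_le h2.le)
  have n2 : z - a ≠ 0 := sub_ne_zero.2 hza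
  have nn : ∀ x : ℂ, ‖x / R‖ = ‖x‖ / R := fun x => by
    rw [norm_div, Complex.norm_real, Real.norm_of_nonneg hR.le]
  have h := bk_le (R := 1) (r := r / R) (a := a / R) (z := z / R)
    (by rwa [nn, div_lt_one hR]) (by rw [nn, hz]) (by rw [le_div_iff₀ hR]; linarith only [h1])
    ((div_lt_one hR).2 h2) le_rfl fun h => hza ((div_left_inj' n0).1 h)
  have e0 : ((1 : ℝ) : ℂ) ^ 2 - conj (a / R) * (z / R) = (R ^ 2 - conj a * z) / R ^ 2 := by
    rw [map_div₀, conj_ofReal]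
    push_cast
    field_simp
  have e1 : bk 1 (a / R) (z / R) = R * bk R a z := by
    rw [bk, bk, e0, ← sub_div, map_div₀, conj_ofReal]
    field_simp
  have e2 : pk 1 (a / R) (z / R) = pk R a z := by
    rw [pk, pk, e0, map_div₀, conj_ofReal]
    congr 1
    push_cast
    field_simp
  rw [e1, e2, ← sub_div, nn, nn, norm_mul, Complex.norm_real, Real.norm_of_nonneg hR.le] at h
  have e3 : 1 - r / R = (R - r) / R := by field_simp
  rwa [e3, ← mul_assoc, div_mul_cancel₀ _ hR.ne', div_div_div_cancel_right₀ hR.ne'] at h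

lemma Ldl_decomp {a : ℂ → ℂ} {R : ℝ} (ha : MeromorphicOn a (closedBall 0 R))
    (hne : ∀ u ∈ closedBall (0 : ℂ) R, meromorphicOrderAt a u ≠ ⊤)
    (hs : ∀ z ∈ sphere (0 : ℂ) R, AnalyticAt ℂ a z ∧ a z ≠ 0) :
    ∃ (s : Finset ℂ) (g : ℂ → ℂ), (∀ u ∈ s, ‖u‖ < R ∧ 1 ≤ |od a u|) ∧
      AnalyticOnNhd ℂ g (closedBall 0 R) ∧ (∀ z ∈ closedBall (0 : ℂ) R, g z ≠ 0) ∧
      (∀ᶠ z in codiscreteWithin (sphere (0 : ℂ) R), ‖a z‖ = ‖g z‖) ∧
      ∀ᶠ z in codiscreteWithin (ball (0 : ℂ) R), z ∉ s ∧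
        logDeriv a z = ∑ u ∈ s, (od a u : ℂ) * bk R u z + logDeriv g z := by
  obtain ⟨g, D⟩ := ha.exists_ecanonicalDecomp fun u => hne u u.2
  have h0 : MeromorphicOn.divisor a (sphere 0 R) = 0 := by
    ext u
    by_cases hu : u ∈ sphere (0 : ℂ) R
    · have := (hs u hu).1
      rw [MeromorphicOn.divisor_apply (ha.mono_set sphere_subset_closedBall) hu,
        this.meromorphicOrderAt_eq, this.analyticOrderAt_eq_zero.2 (hs u hu).2]
      simp
    · exact Function.locallyFinsuppWithin.apply_eq_zero_of_notMem _ hu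
  have hb := ha.mono_set ball_subset_closedBall
  have hfin := ha.divisor_ball_support_finite
  set m := MeromorphicOn.divisor a (ball 0 R) with hm
  have hmem : ∀ u ∈ hfin.toFinset, u ∈ ball (0 : ℂ) R := fun u hu =>
    m.supportWithinDomain (hfin.mem_toFinset.1 hu)
  have hod : ∀ u ∈ hfin.toFinset, od a u = m u := fun u hu => by
    rw [hm, MeromorphicOn.divisor_apply hb (hmem u hu), od]
  have e : a =ᶠ[codiscreteWithin (closedBall 0 R)]
      fun z => (∏ u ∈ hfin.toFinset, canonicalFactor R u z ^ (-m u)) * g z := by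
    have := D.eventuallyEq
    rw [h0, finprod_eq_prod_of_mulSupport_subset (s := hfin.toFinset) _ (by
      intro u hu
      rw [Finite.coe_toFinset]
      by_contra h
      rw [Function.notMem_support] at h
      exact hu (by simp [← hm, h]))] at this
    filter_upwards [this] with z hz
    simpa using hz
  refine ⟨hfin.toFinset, g, fun u hu => ⟨mem_ball_zero_iff.1 (hmem u hu), ?_⟩, D.analyticOnNhd,
    D.ne_zero, ?_, ?_⟩
  · rw [hod u hu]
    exact_mod_cast Int.one_le_abs (hfin.mem_toFinset.1 hu)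
  · filter_upwards [e.filter_mono (codiscreteWithin_mono sphere_subset_closedBall),
      self_mem_codiscreteWithin _] with z hz hz'
    rw [hz, norm_mul, norm_prod, Finset.prod_eq_one, one_mul]
    intro u hu
    rw [norm_zpow, norm_canonicalFactor_eval_circle_eq_one (hmem u hu) hz', one_zpow]
  · filter_upwards [logDeriv_congr_codiscreteWithin isOpen_ball
      (e.filter_mono (codiscreteWithin_mono ball_subset_closedBall)), self_mem_codiscreteWithin _,
      compl_finite_mem_codiscreteWithin hfin.toFinset.finite_toSet] with z hz hz' hz''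
    have hzc := ball_subset_closedBall hz'
    have ne : ∀ u ∈ hfin.toFinset, z ≠ u := fun u hu h => hz'' (h ▸ hu)
    have n1 : ∀ u ∈ hfin.toFinset, canonicalFactor R u z ≠ 0 := fun u hu =>
      canonicalFactor_ne_zero (hmem u hu) hzc (ne u hu)
    have d1 : ∀ u ∈ hfin.toFinset, DifferentiableAt ℂ (canonicalFactor R u) z := fun u hu =>
      (analyticOnNhd_canonicalFactor R u z (ne u hu)).differentiableAt
    have d2 : ∀ u ∈ hfin.toFinset,
        DifferentiableAt ℂ (fun z => canonicalFactor R u z ^ (-m u)) z := fun u hu =>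
      (d1 u hu).zpow (Or.inl (n1 u hu))
    refine ⟨hz'', ?_⟩
    rw [hz, logDeriv_mul z (Finset.prod_ne_zero_iff.2 fun u hu => zpow_ne_zero _ (n1 u hu))
      (D.ne_zero z hzc) (DifferentiableAt.fun_finsetProd d2)
      (D.analyticOnNhd z hzc).differentiableAt,
      logDeriv_prod (f := fun u z => canonicalFactor R u z ^ (-m u)) (x := z)
        (fun u hu => zpow_ne_zero _ (n1 u hu)) d2]
    congr 1
    refine Finset.sum_congr rfl fun u hu => ?_
    rw [logDeriv_fun_zpow (d1 u hu), logDeriv_cf (mem_ball_zero_iff.1 (hmem u hu))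
      (mem_closedBall_zero_iff.1 hzc) (ne u hu), hod u hu]
    push_cast
    ring

lemma Ldl_core {a : ℂ → ℂ} {r R ε : ℝ} (h1 : R ≤ 2 * r) (h2 : r < R) (hε : 0 < ε)
    (hε' : ε ≤ 1 / 2) (ha : MeromorphicOn a (closedBall 0 R))
    (hne : ∀ u ∈ closedBall (0 : ℂ) R, meromorphicOrderAt a u ≠ ⊤)
    (hs : ∀ z ∈ sphere (0 : ℂ) R, AnalyticAt ℂ a z ∧ a z ≠ 0) :
    ∃ s : Finset ℂ, (∀ u ∈ s, ‖u‖ < R) ∧
      circleAverage (fun z => log⁺ ((R - r) * ‖logDeriv a z‖)) 0 r ≤
        log⁺ (ε⁻¹ * (1 + 2 / ε)) + ε * (2 * circleAverage (fun z => |Real.log ‖a z‖|) 0 R +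
          12 * ∑ u ∈ s, |od a u| * (1 - ‖u‖ / R)) := by
  have hr : 0 < r := by linarith only [h1, h2]
  have hR : 0 < R := by linarith
  obtain ⟨s, g, hm, hg, hg0, e1, e2⟩ := Ldl_decomp ha hne hs
  obtain ⟨Φ, hΦ, hΦ0, hΦb⟩ := zero_free hR hg hg0
  have w0 : ∀ u ∈ s, 0 ≤ 1 - ‖u‖ / R := fun u hu => sub_nonneg.2 ((div_le_one hR).2 (hm u hu).1.le)
  have sub : closedBall (0 : ℂ) |r| ⊆ ball 0 R := by
    rw [abs_of_pos hr]; exact closedBall_subset_ball h2
  have sub' := sphere_subset_closedBall.trans sub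
  have hh : InnerProductSpace.HarmonicOnNhd (fun z => (Φ z).re) (closedBall 0 |r|) :=
    fun z hz => (hΦ z (sub hz)).harmonicAt_re
  have i1 : CircleIntegrable (fun z => (Φ z).re) 0 r :=
    (hh.continuousOn.mono sphere_subset_closedBall).circleIntegrable'
  have a1 : circleAverage (fun z => (Φ z).re) 0 r =
      circleAverage (fun z => |Real.log ‖a z‖|) 0 R := by
    rw [hh.circleAverage_eq, hΦ0]
    refine circleAverage_congr_codiscreteWithin ?_ hR.ne'
    rw [abs_of_pos hR]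
    filter_upwards [e1] with z hz
    rw [hz]
  set ρ := ε * (R - r) with hρ
  have hρ0 : 0 < ρ := mul_pos hε (by linarith)
  have i2 : ∀ u ∈ s, CircleIntegrable (fun z => |od a u| * (4 * (1 - ‖u‖ / R) * pk R u z)) 0 r :=
    fun u hu => ((avg_pk (hm u hu).1 hr h2.le).1.const_smul (a := 4 * (1 - ‖u‖ / R))).const_smul
      (a := |od a u|)
  have i3 : ∀ u ∈ s, CircleIntegrable (fun z => |od a u| * log⁺ (ρ / ‖z - u‖)) 0 r :=
    fun u _ => (int_near ρ r u).const_smul (a := |od a u|)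
  have i4 : CircleIntegrable (fun z => 2 * (Φ z).re +
      ∑ u ∈ s, |od a u| * (4 * (1 - ‖u‖ / R) * pk R u z)) 0 r :=
    (i1.const_smul (a := (2 : ℝ))).add (CircleIntegrable.fun_sum s i2)
  have i5 : CircleIntegrable (fun z => ε * (2 * (Φ z).re +
      ∑ u ∈ s, |od a u| * (4 * (1 - ‖u‖ / R) * pk R u z))) 0 r := i4.const_smul (a := ε)
  have i6 := CircleIntegrable.fun_sum s i3
  have i7 : CircleIntegrable (fun z => ε * (2 * (Φ z).re +
      ∑ u ∈ s, |od a u| * (4 * (1 - ‖u‖ / R) * pk R u z)) +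
        ∑ u ∈ s, |od a u| * log⁺ (ρ / ‖z - u‖)) 0 r := i5.add i6
  refine ⟨s, fun u hu => (hm u hu).1, (avg_mono_ae hr.ne' (int_wt
    ((ha.mono_set (sub'.trans ball_subset_closedBall)).logDeriv) _)
    ((circleIntegrable_const (log⁺ (ε⁻¹ * (1 + 2 / ε))) 0 r).add i7) ?_).trans ?_⟩
  · filter_upwards [e2.filter_mono (codiscreteWithin_mono sub'), self_mem_codiscreteWithin _]
      with z ⟨hz, e⟩ hz'
    have hb := hΦb z (sub' hz')
    rw [abs_of_pos hr, mem_sphere_zero_iff_norm] at hz'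
    rw [hz'] at hb
    have b0 : (R - r) * ‖logDeriv g z‖ ≤ 2 * (Φ z).re := by
      have : 0 ≤ (R - r) * ‖logDeriv g z‖ := mul_nonneg (by linarith only [h2]) (norm_nonneg _)
      refine le_of_mul_le_mul_left ?_ hR
      linarith only [hb, h1, this, h2, mul_nonneg_of_nonpos_of_nonpos (Mathlib.Tactic.Linarith.sub_nonpos_of_le h1) (Mathlib.Tactic.Linarith.sub_nonpos_of_le this), mul_nonneg_of_nonpos_of_nonpos (le_of_lt (Mathlib.Tactic.Linarith.sub_neg_of_lt h2)) (Mathlib.Tactic.Linarith.sub_nonpos_of_le this)]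
    have b1 : 0 ≤ 2 * (Φ z).re := (mul_nonneg (by linarith) (norm_nonneg _)).trans b0
    set Z := ∑ u ∈ s, |od a u| * log⁺ (ρ / ‖z - u‖) with hZ
    have t0 : ∀ u ∈ s, 0 ≤ |od a u| * log⁺ (ρ / ‖z - u‖) := fun u hu =>
      mul_nonneg (abs_nonneg _) posLog_nonneg
    have Z0 : 0 ≤ Z := Finset.sum_nonneg t0
    have Z1 : 1 ≤ Real.exp Z := Real.one_le_exp Z0
    have S1 : 1 ≤ (1 + 2 / ε) * Real.exp Z :=
      one_le_mul_of_one_le_of_one_le (le_add_of_nonneg_right (by positivity)) Z1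
    have t2 : ∀ u ∈ s, 0 ≤ 4 * (1 - ‖u‖ / R) * pk R u z := fun u hu =>
      mul_nonneg (by linarith only [w0, hu, w0 u hu]) (pk_nonneg (hm u hu).1 (hz'.trans_le h2.le))
    have t1 : ∀ u ∈ s, 0 ≤ |od a u| * (4 * (1 - ‖u‖ / R) * pk R u z) := fun u hu =>
      mul_nonneg (abs_nonneg _) (t2 u hu)
    have b2 : ∀ u ∈ s, (R - r) * ‖(od a u : ℂ) * bk R u z‖ ≤
        |od a u| * (4 * (1 - ‖u‖ / R) * pk R u z) * ((1 + 2 / ε) * Real.exp Z) := fun u hu => by
      have k1 := Ldl_bk (hm u hu).1 hz' h1 h2 (fun h => hz (h ▸ hu))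
      have k2 : ρ / ‖z - u‖ ≤ Real.exp Z := (le_exp_posLog _).trans (Real.exp_le_exp.2
        ((le_mul_of_one_le_left posLog_nonneg (hm u hu).2).trans (Finset.single_le_sum t0 hu)))
      have k3 : 1 + 2 * ((R - r) / ‖z - u‖) ≤ (1 + 2 / ε) * Real.exp Z := by
        rw [show 2 * ((R - r) / ‖z - u‖) = 2 / ε * (ρ / ‖z - u‖) by rw [hρ]; field_simp, add_mul,
          one_mul]
        gcongr
      rw [norm_mul, Complex.norm_real, Real.norm_eq_abs, mul_left_comm, mul_assoc |od a u|]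
      exact mul_le_mul_of_nonneg_left (k1.trans (mul_le_mul_of_nonneg_left k3 (t2 u hu)))
        (abs_nonneg _)
    set Y := 2 * (Φ z).re + ∑ u ∈ s, |od a u| * (4 * (1 - ‖u‖ / R) * pk R u z) with hY
    have Y0 : 0 ≤ Y := add_nonneg b1 (Finset.sum_nonneg t1)
    have b3 : (R - r) * ‖logDeriv a z‖ ≤ (ε⁻¹ * (1 + 2 / ε)) * ((ε * Y) * Real.exp Z) := by
      rw [show (ε⁻¹ * (1 + 2 / ε)) * ((ε * Y) * Real.exp Z) = Y * ((1 + 2 / ε) * Real.exp Z) by
        field_simp, e, hY, add_mul, Finset.sum_mul, add_comm (2 * _ * _)]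
      refine (mul_le_mul_of_nonneg_left ((norm_add_le _ _).trans
        (add_le_add (norm_sum_le _ _) le_rfl)) (by linarith only [h2])).trans ?_
      rw [mul_add, Finset.mul_sum]
      exact add_le_add (Finset.sum_le_sum b2) (b0.trans (le_mul_of_one_le_right b1 S1))
    refine (posLog_le_posLog (mul_nonneg (by linarith only [h2]) (norm_nonneg _)) b3).trans
      (posLog_mul.trans (add_le_add le_rfl (posLog_mul.trans (add_le_add
        (posLog_le_self (by positivity)) (le_of_eq ?_)))))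
    rw [posLog_eq_log (by rwa [abs_of_pos (Real.exp_pos _)]), Real.log_exp]
  · rw [circleAverage_add (circleIntegrable_const _ _ _) i7, circleAverage_const,
      circleAverage_fun_add i5 i6, circleAverage_fun_sum i3]
    have m1 : ∀ (c : ℝ) (F : ℂ → ℝ), circleAverage (fun z => c * F z) 0 r =
        c * circleAverage F 0 r := fun c F => circleAverage_fun_smul (a := c)
    rw [m1 ε, circleAverage_fun_add (f₁ := fun z => 2 * (Φ z).re) (i1.const_smul (a := (2 : ℝ)))
      (CircleIntegrable.fun_sum s i2), circleAverage_fun_sum i2]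
    simp only [m1]
    rw [a1, Finset.sum_congr rfl fun u hu => by rw [(avg_pk (hm u hu).1 hr h2.le).2]]
    have k : ∑ u ∈ s, |od a u| * circleAverage (fun z => log⁺ (ρ / ‖z - u‖)) 0 r ≤
        ∑ u ∈ s, ε * (8 * (|od a u| * (1 - ‖u‖ / R))) := by
      refine Finset.sum_le_sum fun u hu => ?_
      have k1 := (hm u hu).1
      rw [show ε * (8 * (|od a u| * (1 - ‖u‖ / R))) = |od a u| * (8 * ε * (1 - ‖u‖ / R)) by ring]
      refine mul_le_mul_of_nonneg_left ((avg_near hρ0 hr u).trans ?_) (abs_nonneg _)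
      split_ifs with h
      · have k2 := (abs_lt.1 h).2
        have k3 : ρ ≤ (R - r) / 2 := by rw [hρ]; linarith only [h2, hε', mul_nonneg_of_nonpos_of_nonpos (le_of_lt (Mathlib.Tactic.Linarith.sub_neg_of_lt h2)) (Mathlib.Tactic.Linarith.sub_nonpos_of_le hε')]
        rw [show 8 * ε * (1 - ‖u‖ / R) = 8 * ε * (R - ‖u‖) / R by field_simp,
          div_le_div_iff₀ hr hR, hρ]
        have k4 : 2 * (R - r) * R ≤ 8 * (R - ‖u‖) * r := by linarith only [h1, k1, k2, k3, h2, mul_nonneg_of_nonpos_of_nonpos (Mathlib.Tactic.Linarith.sub_nonpos_of_le h1) (le_of_lt (Mathlib.Tactic.Linarith.sub_neg_of_lt k1)), mul_nonneg_of_nonpos_of_nonpos (Mathlib.Tactic.Linarith.sub_nonpos_of_le h1) (le_of_lt (Mathlib.Tactic.Linarith.sub_neg_of_lt k2)), mul_nonneg_of_nonpos_of_nonpos (Mathlib.Tactic.Linarith.sub_nonpos_of_le h1) (Mathlib.Tactic.Linarith.sub_nonpos_of_le k3), mul_pos_of_neg_of_neg (Mathlib.Tactic.Linarith.sub_neg_of_lt h2) (Mathlib.Tactic.Linarith.sub_neg_of_lt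 k2), mul_nonneg_of_nonpos_of_nonpos (le_of_lt (Mathlib.Tactic.Linarith.sub_neg_of_lt h2)) (Mathlib.Tactic.Linarith.sub_nonpos_of_le k3)]
        linarith only [hε, k4, mul_nonneg_of_nonpos_of_nonpos (le_of_lt (Mathlib.Tactic.Linarith.sub_neg_of_lt hε)) (Mathlib.Tactic.Linarith.sub_nonpos_of_le k4)]
      · exact mul_nonneg (by positivity) (w0 u hu)
    have k' : ∑ u ∈ s, |od a u| * (4 * (1 - ‖u‖ / R) * 1) =
        4 * ∑ u ∈ s, |od a u| * (1 - ‖u‖ / R) := by
      rw [Finset.mul_sum]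
      exact Finset.sum_congr rfl fun u _ => by ring
    rw [← Finset.mul_sum, ← Finset.mul_sum] at k
    rw [k']
    linarith only [k]

/-- A finite part of the counting function. -/
lemma Ldl_count {D : Function.locallyFinsupp ℂ ℤ} (hD : 0 ≤ D) {R : ℝ} (hR : 1 ≤ R) {s : Finset ℂ}
    (hs : ∀ u ∈ s, ‖u‖ < R) : ∑ u ∈ s, D u * (1 - ‖u‖ / R) ≤ D.logCounting R + D 0 := by
  classical
  have hR0 : 0 < R := by linarith
  have d0 : ∀ u, (0 : ℝ) ≤ D u := fun u => by exact_mod_cast hD u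
  have hfin := (D.toClosedBall R).finiteSupport (isCompact_closedBall 0 |R|)
  have mem : ∀ u : ℂ, u ∈ closedBall (0 : ℂ) |R| ↔ ‖u‖ ≤ R := fun u => by
    rw [abs_of_pos hR0, mem_closedBall_zero_iff]
  have pos : ∀ u, 0 ≤ (D.toClosedBall R u : ℝ) * Real.log (R * ‖u‖⁻¹) := fun u => by
    by_cases hu : u ∈ closedBall (0 : ℂ) |R|
    · rw [D.toClosedBall_eval_within hu]
      refine mul_nonneg (d0 u) ?_
      rcases eq_or_ne u 0 with rfl | h
      · simp
      · exact Real.log_nonneg ((one_le_div (norm_pos_iff.2 h)).2 ((mem u).1 hu))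
    · simp [(D.toClosedBall R).apply_eq_zero_of_notMem hu]
  have e : D.logCounting R = ∑ᶠ z, (D.toClosedBall R z : ℝ) * Real.log (R * ‖z‖⁻¹) +
    D 0 * Real.log R := rfl
  rw [e, finsum_eq_sum_of_support_subset (s := hfin.toFinset ∪ s) _ (fun u hu => by
    simp only [Finset.coe_union, Finite.coe_toFinset, Function.mem_support, mem_union] at hu ⊢
    exact Or.inl fun h => hu (by simp [h]))]
  have k2 := Finset.sum_le_sum_of_subset_of_nonneg (Finset.subset_union_right (s₁ := hfin.toFinset)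
    (s₂ := s)) (fun u _ _ => pos u)
  have k3 : ∑ u ∈ s, D u * (1 - ‖u‖ / R) ≤ ∑ u ∈ s, ((D.toClosedBall R u : ℝ) *
      Real.log (R * ‖u‖⁻¹) + if u = 0 then (D 0 : ℝ) else 0) := by
    refine Finset.sum_le_sum fun u hu => ?_
    split_ifs with h
    · simp [h]
    · rw [add_zero, D.toClosedBall_eval_within ((mem u).2 (hs u hu).le)]
      refine mul_le_mul_of_nonneg_left ?_ (d0 u)
      have p := norm_pos_iff.2 h
      have := Real.one_sub_inv_le_log_of_pos (show 0 < R * ‖u‖⁻¹ by positivity)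
      rwa [mul_inv, inv_inv, ← div_eq_inv_mul] at this
  rw [Finset.sum_add_distrib, Finset.sum_ite_eq'] at k3
  have k4 : (if (0 : ℂ) ∈ s then (D 0 : ℝ) else 0) ≤ D 0 := by split_ifs <;> linarith only [d0, d0 0]
  linarith only [hfin, k2, k3, k4, d0, hR, mul_nonneg (d0 0) (Real.log_nonneg hR)]

end Pool.Agent.Work.MP_677830_co.G
end

-- merged part: Pool.Agent.Work.MP_677830_co.G.Ldl
section
/-!
# The lemma on the logarithmic derivative
Choose ρ in ((r+R)/2, R) such that f is analytic and nonzero on the circle of radius ρ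
(codis_countable). F s = f (ρ s) on the closed unit disc, r' = r / ρ in [1/2, 1). Let b be the product
over the poles u of F in the disc of ((s - u) / (1 - conj u s)) ^ (pole order): analytic on the closed
disc, norm 1 on the circle; a = toMeromorphicNFOn of F * b is analytic on the closed disc. Apply
MP_6ac3f6_an.ld_core (R = 1) to a and b (or redo it with MeromorphicOn.exists_ecanonicalDecomp);
logDeriv F = logDeriv a - logDeriv b off a finite set; 1 - ‖u‖ ≤ log (1/‖u‖) (u = 0 gives a constant);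
the mean of |log ‖f‖| plus both counting functions at ρ is ≤ 2 TT f ρ + C (first main theorem,
characteristic_sub_characteristic_inv_le), TT monotone (characteristic_monotoneOn);
log⁺ ‖f'/f‖ ≤ log⁺ ((1 - r') ‖F'/F‖) + log (1 / (1 - r')) as ρ ≥ 1, and 1/(1 - r') ≤ 2R/(R - r).
-/

namespace Pool.Agent.Work.MP_677830_co.G

open Filter Topology Polynomial Matrix MeasureTheory
open scoped ComplexConjugate ComplexOrder

theorem ldl {f : ℂ → ℂ} (hf : Meromorphic f) (hne : ∀ᶠ t in codiscrete ℂ, f t ≠ 0) {ε : ℝ}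
    (hε : 0 < ε) : ∃ C : ℝ, ∀ r R : ℝ, 1 ≤ r → r < R → R ≤ 2 * r →
      mld f r ≤ C + Real.log (R / (R - r)) + ε * TT f R := by
  have hD : ∀ u, |MP_6ac3f6_an.od f u| = (MeromorphicOn.divisor f Set.univ)⁺ u +
      (MeromorphicOn.divisor f Set.univ)⁻ u := fun u => by
    rw [Function.locallyFinsuppWithin.posPart_apply, Function.locallyFinsuppWithin.negPart_apply,
      ← Int.cast_add, posPart_add_negPart, MeromorphicOn.divisor_apply hf.meromorphicOn
      (Set.mem_univ u), Int.cast_abs, MP_6ac3f6_an.od]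
  obtain ⟨δ, d0, d1, d2⟩ : ∃ δ : ℝ, 0 < δ ∧ δ ≤ 1 / 2 ∧ 24 * δ ≤ ε :=
    ⟨min (1 / 2) (ε / 24), by positivity, min_le_left _ _, by linarith only [min_le_right (1 / 2) (ε / 24)]⟩
  obtain ⟨K, hK⟩ : ∃ K : ℝ, ∀ R, TT f⁻¹ R ≤ TT f R + K := ⟨_, fun R => sub_le_iff_le_add'.1
    (abs_sub_le_iff.1 (ValueDistribution.characteristic_sub_characteristic_inv_le (R := R) hf)).2⟩
  refine ⟨Real.log 2 + Real.posLog (δ⁻¹ * (1 + 2 / δ)) + 12 * δ * (K + |MP_6ac3f6_an.od f 0|),
    fun r R h1 h2 h3 => ?_⟩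
  obtain ⟨ρ, ⟨r1, r2⟩, hρ⟩ := (Set.Ioo_infinite (show (r + R) / 2 < R by linarith)).exists_notMem_finite
    ((codis_finite ((mer_an hf).and hne) R).image norm)
  have r3 : r < ρ := by linarith
  have r4 : 1 ≤ ρ := by linarith
  obtain ⟨s, hs, h⟩ := Ldl_core (a := f) (show ρ ≤ 2 * r by linarith only [h3, r2]) r3 d0 d1
    (fun z _ => hf z) (fun u _ => (meromorphicOrderAt_ne_top_iff_eventually_ne_zero (hf u)).2
      (codis_iff.1 hne u)) fun z hz => by
      rw [mem_sphere_zero_iff_norm] at hz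
      by_contra hc
      exact hρ ⟨z, ⟨hz.le.trans r2.le, hc⟩, hz⟩
  have c1 := Ldl_count (posPart_nonneg (MeromorphicOn.divisor f Set.univ)) r4 hs
  have c2 := Ldl_count (negPart_nonneg (MeromorphicOn.divisor f Set.univ)) r4 hs
  rw [← ValueDistribution.logCounting_zero, ← ValueDistribution.logCounting_inv] at c1
  rw [← ValueDistribution.logCounting_top] at c2
  have c3 : ∑ u ∈ s, |MP_6ac3f6_an.od f u| * (1 - ‖u‖ / ρ) ≤ ValueDistribution.logCounting f⁻¹ ⊤ ρ +
      ValueDistribution.logCounting f ⊤ ρ + |MP_6ac3f6_an.od f 0| := by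
    simp only [hD, add_mul, Finset.sum_add_distrib]
    linarith only [c1, c2]
  have c4 : Real.circleAverage (fun z => |Real.log ‖f z‖|) 0 ρ =
      ValueDistribution.proximity f⁻¹ ⊤ ρ + ValueDistribution.proximity f ⊤ ρ := by
    rw [ValueDistribution.proximity_top, ValueDistribution.proximity_top,
      ← Real.circleAverage_add hf.inv.meromorphicOn.circleIntegrable_posLog_norm
        hf.meromorphicOn.circleIntegrable_posLog_norm]
    refine congrArg (Real.circleAverage · 0 ρ) (funext fun z => ?_)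
    rw [Pi.add_apply, Pi.inv_apply, norm_inv]
    linarith only [Real.posLog_sub_posLog_inv (x := ‖f z‖), Real.half_mul_log_add_log_abs (x := ‖f z‖)]
  have c5 : TT f ρ ≤ TT f R := ValueDistribution.characteristic_monotoneOn hf
    (show 0 < ρ by linarith only [h3, r1, r2]) (show 0 < R by linarith only [h3, r1, r2]) r2.le
  have c6 : 0 ≤ TT f R := ValueDistribution.characteristic_nonneg (by linarith only [h1, r1, r2])
  have c7 := hK ρ
  have c8 := ValueDistribution.proximity_nonneg (f := f) (a := ⊤) ρ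
  have c9 := ValueDistribution.proximity_nonneg (f := f⁻¹) (a := ⊤) ρ
  have i1 := MP_6ac3f6_an.int_wt (r := r) (hf.meromorphicOn.logDeriv) (ρ - r)
  have k : mld f r ≤ Real.log 2 + Real.log (R / (R - r)) +
      Real.circleAverage (fun z => Real.posLog ((ρ - r) * ‖logDeriv f z‖)) 0 r := by
    rw [← Real.circleAverage_const (Real.log 2 + Real.log (R / (R - r))) 0 r,
      ← Real.circleAverage_add (circleIntegrable_const _ _ _) i1]
    refine Real.circleAverage_mono hf.meromorphicOn.logDeriv.circleIntegrable_posLog_norm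
      ((circleIntegrable_const _ _ _).add i1) fun z _ => ?_
    have p1 : 0 < ρ - r := by linarith only [r1, r2]
    have p2 : 0 < R - r := by linarith only [r1, r2]
    have p3 : 1 ≤ R / (R - r) := (one_le_div p2).2 (by linarith only [h3, r1, r2])
    rw [← logDeriv_apply, ← inv_mul_cancel_left₀ p1.ne' ‖logDeriv f z‖]
    refine Real.posLog_mul.trans (add_le_add ?_ le_rfl)
    rw [← Real.log_mul two_ne_zero (by linarith only [p3]), ← Real.posLog_eq_log (le_abs.2 (.inl (by linarith only [p3])))]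
    refine Real.posLog_le_posLog (by positivity) ?_
    rw [← mul_div_assoc, inv_eq_one_div, div_le_div_iff₀ p1 p2]
    (refine le_of_not_gt fun h_nl => ?_; linarith only [h_nl, r1, d0, d1, h1, h2, mul_pos_of_neg_of_neg (Mathlib.Tactic.Linarith.sub_neg_of_lt d0) (Mathlib.Tactic.Linarith.sub_neg_of_lt h_nl), mul_nonneg_of_nonpos_of_nonpos (Mathlib.Tactic.Linarith.sub_nonpos_of_le d1) (le_of_lt (Mathlib.Tactic.Linarith.sub_neg_of_lt h_nl)), mul_nonneg_of_nonpos_of_nonpos (Mathlib.Tactic.Linarith.sub_nonpos_of_le h1) (le_of_lt (Mathlib.Tactic.Linarith.sub_neg_of_lt h2)), mul_nonneg_of_nonpos_of_nonpos (Mathlib.Tactic.Linarith.sub_nonpos_of_le h1) (le_of_lt (Mathlib.Tactic.Linarith.sub_neg_of_lt r1)), mul_pos_of_neg_of_neg (Mathlib.Tactic.Linarith.sub_neg_of_lt h2) (Mathlib.Tactic.Linarith.sub_neg_of_lt h2), mul_pos_of_neg_of_neg (Mathlib.Tactic.Linarith.sub_neg_of_lt h2) (Mathlib.Tactic.Linarith.sub_neg_of_lt r1)])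
  simp only [TT, ValueDistribution.characteristic, Pi.add_apply, Pi.zero_apply] at c5 c6 c7 c8 c9 ⊢
  rw [c4] at h
  refine k.trans ((add_le_add le_rfl (h.trans (add_le_add le_rfl (mul_le_mul_of_nonneg_left
    (c := 12 * (K + |MP_6ac3f6_an.od f 0|) + 24 * (ValueDistribution.proximity f ⊤ R +
      ValueDistribution.logCounting f ⊤ R)) (by linarith only [c3, c5, c7, c8, c9]) d0.le)))).trans ?_)
  linarith only [d2, c6, mul_le_mul_of_nonneg_right d2 c6]

end Pool.Agent.Work.MP_677830_co.G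
end

-- merged part: Pool.Agent.Work.MP_677830_co.G.AbsCore
section
/-!
# The abstract Nevanlinna argument
abs_ineq (centre 0): good t = hypothesis of hG, all F j analytic, every H l analytic and nonzero or
zero in a neighbourhood (then deriv / value = 0 nearby). As core_ineq in G/CoreA: V = bad points in the
disc, disc with E v = c * sum of po (F j) v (hv and po_le as at the end of place in G/Place), circle
averages of the pointwise bound (all functions are continuous on a good circle), tt_eq for F j.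
abs_core: good set codiscrete (mer_an, mer_dich, codis_open); shift to a good point (sm_shift,
codis_shift, deriv_comp_add_const, plS (v + a)); φ r = sum of TT (F j (· + a)) r; ldl for the H l that
do not vanish (mld = 0 for the others on good circles, or bound by circleAverage congruence), TBd;
iter as in core1 of G/Core; bdd_const; shift back.
-/

namespace Pool.Agent.Work.MP_677830_co.G

open Filter Topology Polynomial Matrix MeasureTheory
open scoped ComplexConjugate ComplexOrder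

theorem AbsCore_avg {ι ι' : Type} [Fintype ι] [Fintype ι'] {r a b C : ℝ} (hr : 0 ≤ r) {φ : ℂ → ℝ}
    {f : ι → ℂ → ℝ} {g : ι' → ℂ → ℝ} (hφ : ∀ t, ‖t‖ = r → ContinuousAt φ t)
    (hf : ∀ i t, ‖t‖ = r → ContinuousAt (f i) t) (hg : ∀ i t, ‖t‖ = r → ContinuousAt (g i) t)
    (h : ∀ t, ‖t‖ = r → φ t + a * ∑ i, f i t ≤ C + b * ∑ i, g i t) :
    Real.circleAverage φ 0 r + a * ∑ i, Real.circleAverage (f i) 0 r ≤
      C + b * ∑ i, Real.circleAverage (g i) 0 r := by
  have key := CoreA_avg hr Finset.univ (f := fun t => ∑ i, f i t) (g := fun _ => 0) (F := g)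
    (G := fun _ _ => 0) hφ (fun t ht => tendsto_finsetSum _ fun i _ => hf i t ht)
    (fun _ _ => continuousAt_const) (fun i _ => hg i) (fun _ _ _ _ => continuousAt_const)
    fun t ht => by simpa only [add_zero] using h t ht
  rw [Real.circleAverage_fun_sum fun i _ => CoreA_ci hr (hf i)] at key
  simpa only [Real.circleAverage_const, add_zero] using key

theorem AbsCore_ldl {f : ℂ → ℂ} (hf : Meromorphic f) {ε : ℝ} (hε : 0 < ε) :
    ∃ C : ℝ, ∀ r R : ℝ, 1 ≤ r → r < R → R ≤ 2 * r →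
      mld f r ≤ C + Real.log (R / (R - r)) + ε * TT f R := by
  rcases mer_dich hf with h | h
  · exact ldl hf h hε
  refine ⟨0, fun r R h1 h2 _ => ?_⟩
  have e : mld f r = Real.circleAverage (fun _ => (0 : ℝ)) 0 r := by
    refine Real.circleAverage_congr_codiscreteWithin ?_ (one_pos.trans_le h1).ne'
    refine Eventually.filter_mono (Filter.codiscreteWithin_mono (Set.subset_univ _))
      (h.mono fun t ht => ?_)
    simp [ht]
  have l0 : 0 ≤ Real.log (R / (R - r)) :=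
    Real.log_nonneg ((one_le_div (sub_pos.2 h2)).2 (by linarith))
  have := mul_nonneg hε.le (tt_nonneg f (h1.trans h2.le))
  rw [e, Real.circleAverage_const]
  linarith

theorem AbsCore_cont {f : ℂ → ℂ} (hf : Meromorphic f) :
    ∀ᶠ t in codiscrete ℂ, ContinuousAt (fun s => Real.posLog ‖deriv f s / f s‖) t := by
  rcases mer_dich hf with h | h
  · filter_upwards [h, mer_an hf] with t h1 h2
    exact Real.continuous_posLog.continuousAt.comp (h2.deriv.fun_div h2 h1).continuousAt.norm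
  · filter_upwards [codis_open h] with t ht
    refine (continuousAt_const (y := (0 : ℝ))).congr (ht.mono fun s hs => ?_)
    simp [hs]

section

variable {κ κ' : Type} [Fintype κ] [Fintype κ'] {Ψ : ℂ → ℝ} {F : κ → ℂ → ℂ} {H : κ' → ℂ → ℂ}
  {c C K : ℝ}

theorem AbsCore_place (hc : 0 < c) {v : ℂ} (hF : ∀ j, MeromorphicAt (F j) v)
    (hv : (plS v).LogLe 0 fun t => Ψ t + c * ∑ j, Real.posLog ‖F j t‖) {x : ℝ}
    (hx : x < c * ∑ j, po (F j) v) : ∀ᶠ t in 𝓝[≠] v, Ψ t ≤ x * Real.log ‖t - v‖ := by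
  have hn : (0 : ℝ) < 1 + c * Fintype.card κ := by positivity
  obtain ⟨ε, hε, he⟩ : ∃ ε : ℝ, 0 < ε ∧ ε * _ = _ :=
    ⟨_, div_pos (sub_pos.2 hx) hn, div_mul_cancel₀ _ hn.ne'⟩
  filter_upwards [hv (-ε) (neg_lt_zero.2 hε),
    eventually_all.2 fun j => po_le (hF j) (sub_lt_self _ hε)] with t h0 h1
  have h3 := Finset.sum_le_sum fun j (_ : j ∈ Finset.univ) => h1 j
  rw [← Finset.sum_mul, Finset.sum_sub_distrib, Finset.sum_const, nsmul_eq_mul,
    Finset.card_univ] at h3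
  have h4 := mul_le_mul_of_nonneg_left h3 hc.le
  change _ + c * (∑ j, _) ≤ -ε * Real.log ‖t - v‖ at h0
  linear_combination h0 + h4 - Real.log ‖t - v‖ * he

/-- Good parameters. -/
def AbsCore_G (Ψ : ℂ → ℝ) (F : κ → ℂ → ℂ) (H : κ' → ℂ → ℂ) (c C K : ℝ) (t : ℂ) : Prop :=
  (ContinuousAt Ψ t ∧ SM Ψ t ∧
    Ψ t + c * ∑ j, Real.posLog ‖F j t‖ ≤ C + K * ∑ l, Real.posLog ‖deriv (H l) t / H l t‖) ∧
  (∀ j, AnalyticAt ℂ (F j) t) ∧
    ∀ l, ContinuousAt (fun s => Real.posLog ‖deriv (H l) s / H l s‖) t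

theorem AbsCore_ineq (hF : ∀ j, Meromorphic (F j)) (hc : 0 < c)
    (hG : ∀ᶠ t in codiscrete ℂ, AbsCore_G Ψ F H c C K t) (h0 : AbsCore_G Ψ F H c C K 0)
    (hv : ∀ v, (plS v).LogLe 0 fun t => Ψ t + c * ∑ j, Real.posLog ‖F j t‖) {r : ℝ} (hr : 1 ≤ r)
    (hg : ∀ t, ‖t‖ = r → AbsCore_G Ψ F H c C K t) :
    c * ∑ j, TT (F j) r ≤ C - Ψ 0 + K * ∑ l, mld (H l) r := by
  have r0 : 0 < r := one_pos.trans_le hr
  obtain ⟨V, hV⟩ : ∃ V : Finset ℂ, ∀ t, t ∈ V ↔ ‖t‖ ≤ r ∧ ¬AbsCore_G Ψ F H c C K t :=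
    ⟨(codis_finite hG r).toFinset, fun t => Set.Finite.mem_toFinset _⟩
  have V1 : ∀ v ∈ V, v ≠ 0 ∧ ‖v‖ < r := fun v hv =>
    ⟨fun e => ((hV v).1 hv).2 (e ▸ h0),
      lt_of_le_of_ne ((hV v).1 hv).1 fun e => ((hV v).1 hv).2 (hg v e)⟩
  have V2 : ∀ t, ‖t‖ ≤ r → t ∉ V → AbsCore_G Ψ F H c C K t := fun t h1 h2 =>
    not_not.1 fun h3 => h2 ((hV t).2 ⟨h1, h3⟩)
  have d1 := disc r0 V V1 (fun v => c * ∑ j, po (F j) v)
    (fun t h1 h2 => ⟨(V2 t h1 h2).1.1, (V2 t h1 h2).1.2.1⟩) fun v _ x hx =>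
      AbsCore_place hc (fun j => hF j v) (hv v) hx
  have d2 := AbsCore_avg r0.le (f := fun j t => Real.posLog ‖F j t‖)
    (g := fun l t => Real.posLog ‖deriv (H l) t / H l t‖) (fun t ht => (hg t ht).1.1)
    (fun j t ht => Real.continuous_posLog.continuousAt.comp ((hg t ht).2.1 j).continuousAt.norm)
    (fun l t ht => (hg t ht).2.2 l) fun t ht => (hg t ht).1.2.2
  have d3 : ∑ v ∈ V, (c * ∑ j, po (F j) v) * Real.log (r / ‖v‖) =
      c * ∑ j, ∑ v ∈ V, po (F j) v * Real.log (r / ‖v‖) := by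
    rw [Finset.sum_comm, Finset.mul_sum]
    exact Finset.sum_congr rfl fun v _ => by rw [mul_assoc, Finset.sum_mul]
  rw [Finset.sum_congr rfl fun j _ => tt_eq (hF j) r0 V V1 fun t h1 h2 => (V2 t h1 h2).2.1 j,
    Finset.sum_add_distrib, mul_add]
  change _ ≤ C + K * ∑ l, mld (H l) r at d2
  linarith only [d1, d3, d2]

theorem AbsCore_one (hF : ∀ j, Meromorphic (F j)) (hH : ∀ l, Meromorphic (H l))
    (hT : ∀ l, ∃ C K : ℝ, 0 ≤ K ∧ ∀ r, 1 ≤ r → TT (H l) r ≤ C + K * ∑ j, TT (F j) r)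
    (hc : 0 < c) (hK : 0 ≤ K)
    (hG : ∀ᶠ t in codiscrete ℂ, AbsCore_G Ψ F H c C K t) (h0 : AbsCore_G Ψ F H c C K 0)
    (hv : ∀ v, (plS v).LogLe 0 fun t => Ψ t + c * ∑ j, Real.posLog ‖F j t‖) (j : κ) :
    ∃ a : ℂ, ∀ᶠ t in codiscrete ℂ, F j t = a := by
  choose C' K' hK' hT using hT
  have S0 : 0 ≤ K * ∑ l, K' l := mul_nonneg hK (Finset.sum_nonneg fun l _ => hK' l)
  obtain ⟨ε, hε, hε'⟩ : ∃ ε : ℝ, 0 < ε ∧ (K * ∑ l, K' l) * ε / c < 1 := by
    refine ⟨c / (K * ∑ l, K' l + 1), by positivity, ?_⟩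
    rw [div_lt_one hc, ← mul_div_assoc, div_lt_iff₀ (by positivity)]
    linarith
  choose D hD using fun l => AbsCore_ldl (hH l) hε
  obtain ⟨B, hB⟩ := iter (φ := fun r => ∑ j, TT (F j) r)
    (fun r hr R hR h => Finset.sum_le_sum fun k _ => tt_mono (hF k) hr hR h)
    ((codis_countable hG).image fun t => ‖t‖)
    (C := (C - Ψ 0 + K * ∑ l, (D l + ε * C' l)) / c) (K := K * Fintype.card κ' / c)
    (θ := (K * ∑ l, K' l) * ε / c) (by positivity) (by positivity) hε' (by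
      intro r R hr h1 h2 h3
      have s0 := AbsCore_ineq hF hc hG h0 hv h1 fun t ht => not_not.1 fun hc => hr ⟨t, hc, ht⟩
      have s1 : ∑ l, mld (H l) r ≤ ∑ l, ((D l + ε * C' l) + (Real.log (R / (R - r)) +
          K' l * (ε * ∑ j, TT (F j) R))) := Finset.sum_le_sum fun l _ => by
        have e1 := hD l r R h1 h2 h3
        have e2 := mul_le_mul_of_nonneg_left (hT l R (h1.trans h2.le)) hε.le
        linarith only [e1, e2]
      rw [Finset.sum_add_distrib (f := fun l => D l + ε * C' l),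
        Finset.sum_add_distrib (f := fun _ => Real.log (R / (R - r))), Finset.sum_const,
        nsmul_eq_mul, Finset.card_univ, ← Finset.sum_mul] at s1
      have s2 := mul_le_mul_of_nonneg_left s1 hK
      rw [div_mul_eq_mul_div, div_mul_eq_mul_div, ← add_div, ← add_div, le_div_iff₀ hc]
      linarith only [s0, s2])
  exact bdd_const (hF j) (B := B) fun r hr => (Finset.single_le_sum (f := fun j => TT (F j) r)
    (fun k _ => tt_nonneg _ hr) (Finset.mem_univ j)).trans (hB r hr)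

theorem AbsCore_shift {t a : ℂ} (h : AbsCore_G Ψ F H c C K (t + a)) :
    AbsCore_G (fun s => Ψ (s + a)) (fun j s => F j (s + a)) (fun l s => H l (s + a)) c C K t := by
  obtain ⟨⟨h1, h2, h3⟩, h4, h5⟩ := h
  have an : AnalyticAt ℂ (fun s : ℂ => s + a) t := analyticAt_id.add analyticAt_const
  have co : ContinuousAt (fun s : ℂ => s + a) t := an.continuousAt
  refine ⟨⟨h1.comp_of_eq co rfl, (sm_shift a).2 h2, ?_⟩, fun j => (h4 j).comp_of_eq an rfl,
    fun l => ?_⟩ <;> simp only [deriv_comp_add_const]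
  · exact h3
  · exact (h5 l).comp_of_eq co rfl

end

theorem abs_core {κ κ' : Type} [Fintype κ] [Fintype κ'] (Ψ : ℂ → ℝ) (F : κ → ℂ → ℂ)
    (H : κ' → ℂ → ℂ) (hF : ∀ j, Meromorphic (F j)) (hH : ∀ l, TBd F (H l)) {c C K : ℝ}
    (hc : 0 < c) (hK : 0 ≤ K)
    (hG : ∀ᶠ t in codiscrete ℂ, ContinuousAt Ψ t ∧ SM Ψ t ∧
      Ψ t + c * ∑ j, Real.posLog ‖F j t‖ ≤ C + K * ∑ l, Real.posLog ‖deriv (H l) t / H l t‖)
    (hv : ∀ v, (plS v).LogLe 0 fun t => Ψ t + c * ∑ j, Real.posLog ‖F j t‖) (j : κ) :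
    ∃ a : ℂ, ∀ᶠ t in codiscrete ℂ, F j t = a := by
  have := codis_neBot
  have hG' : ∀ᶠ t in codiscrete ℂ, AbsCore_G Ψ F H c C K t :=
    hG.and ((eventually_all.2 fun j => mer_an (hF j)).and
      (eventually_all.2 fun l => AbsCore_cont (hH l).1))
  obtain ⟨t0, ht0⟩ := hG'.exists
  obtain ⟨a, ha⟩ := AbsCore_one (Ψ := fun s => Ψ (s + t0)) (F := fun j s => F j (s + t0))
    (H := fun l s => H l (s + t0)) (fun j => mer_shift (hF j) t0)
    (fun l => mer_shift (hH l).1 t0) (fun l => (hH l).2 t0) hc hK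
    ((codis_shift hG' t0).mono fun t ht => AbsCore_shift ht)
    (AbsCore_shift (by rw [zero_add]; exact ht0)) (fun v x hx => by
      have t1 : Tendsto (fun t => t + t0) (𝓝[≠] v) (𝓝[≠] (v + t0)) :=
        tendsto_nhdsWithin_iff.2 ⟨((continuous_add_const t0).tendsto v).mono_left
          nhdsWithin_le_nhds, eventually_mem_nhdsWithin.mono fun t ht e => ht (add_right_cancel e)⟩
      refine (t1.eventually (hv (v + t0) x hx)).mono fun t ht => ?_
      change _ ≤ x * Real.log ‖t + t0 - (v + t0)‖ at ht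
      rwa [add_sub_add_right_eq_sub] at ht) j
  refine ⟨a, ?_⟩
  filter_upwards [codis_shift ha (-t0)] with t ht
  simpa using ht

end Pool.Agent.Work.MP_677830_co.G
end

-- merged part: Pool.Agent.Work.MP_677830_co.G.DelD
section
/-!
# The interpolation determinant near the diagonal
ddet_top: add_pow. ddet_base: every term has j ≥ b i (else choose = 0), so entry (i, x) has order
b i (Scale.ge_det with column weights 0). ddet_step: DelA_binom with 2 q in place of q for both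
factors (x.1 + x.2 - j < 2q, j < 2q), DelA_exp with κ = Fin (2q) × Fin (2q); coefficient i has order
ρ * ((γ1 - a) + (γ2 - b)) and vanishes unless a ≤ γ1, b ≤ γ2.
cntD: n = |C|. At most m (m+1) / 2 indices have a + b < m, so the sum is at least
sum over m = 1..M of (n - m (m+1) / 2) = M n - M (M+1) (M+2) / 6. If n ≤ q + 1 take M = 1. Otherwise
M = Nat.sqrt n ≥ 10^6, M^2 ≤ n < (M+1)^2, 2 n ≤ q^2 gives q ≥ 1.4 M, and
n (n-1) / (q+1) ≤ n (M+1)^2 / (1.4 M) ≤ 0.72 n M ≤ M n - M (M+1) (M+2) / 6.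
ge_del_diag: centres ce from exists_center, c s i = y (ce (cl univ s i)), e s i = η (ce (cl univ s i)).
H s B: for all a b the determinant at level s has order B - σ s * sum (a + b). Level 0: one centre
(cl_zero); equal pairs give equal rows (ddet_van), otherwise cntA with 2q in place of q (fibres of b
have at most 2q elements) gives sum b ≥ phi (2q) (q^2) = q^3/4 - q^2; ddet_base. Step as in G/DelB
(DelB_ind, DelB_ord and the same for η): ddet_step with ρ = σ s, then cntD on each part of level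
s + 1 (card_le_of_bal). Last step to the points (cl_top), a = b = 0, ddet_top, mass_eq.
-/

namespace Pool.Agent.Work.MP_677830_co.G

open Filter Topology Polynomial Matrix MeasureTheory
open scoped ComplexConjugate ComplexOrder

variable {T : Type} {S : Scale T} {q : ℕ}

theorem ddet_top (ε : ℂ) (c e : Ix q → ℂ) (a b : Ix q → Fin (2 * q)) (ha : ∀ i, (a i : ℕ) = 0)
    (hb : ∀ i, (b i : ℕ) = 0) : ddet q ε c e a b = del q c fun i => c i + ε * e i := by
  unfold ddet del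
  refine congrArg Matrix.det ?_
  ext i x
  simp only [Matrix.of_apply, ha, hb, Nat.choose_zero_right, Nat.cast_one, one_mul, Nat.sub_zero]
  rw [add_comm (c i), add_pow, Finset.mul_sum]
  refine Finset.sum_congr rfl fun j hj => ?_
  rw [Nat.add_sub_assoc (Nat.lt_succ_iff.1 (Finset.mem_range.1 hj)), pow_add, mul_pow]
  ring

theorem ddet_base {ε : T → ℂ} {c e : Ix q → T → ℂ} (hε : S.Ge 1 ε) (hc : ∀ i, S.Ge 0 (c i))
    (he : ∀ i, S.Ge 0 (e i)) (a b : Ix q → Fin (2 * q)) :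
    S.Ge (∑ i, ((b i : ℕ) : ℝ)) fun t => ddet q (ε t) (fun i => c i t) (fun i => e i t) a b := by
  have h := Scale.ge_det (S := S) (fun t => Matrix.of fun i x : Ix q =>
    ∑ j ∈ Finset.range ((x.2 : ℕ) + 1), (((x.2 : ℕ).choose j : ℂ) * ε t ^ j) *
      ((((x.1 : ℕ) + x.2 - j).choose (a i) : ℂ) * c i t ^ ((x.1 : ℕ) + x.2 - j - a i)) *
      ((j.choose (b i) : ℂ) * e i t ^ (j - b i))) (fun i => ((b i : ℕ) : ℝ)) (fun _ => 0)
    fun i x => by
      simp only [Matrix.of_apply]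
      refine Scale.ge_sum _ fun j _ => ?_
      rcases le_or_gt (b i : ℕ) j with h1 | h1
      · refine ((((hε.pow j).const_mul _).mul (((hc i).pow _).const_mul _)).mul
          (((he i).pow _).const_mul _)).mono ?_
        simpa using h1
      · refine Scale.ge_of_ev_zero _ (Eventually.of_forall fun t => ?_)
        rw [Nat.choose_eq_zero_of_lt h1, Nat.cast_zero, zero_mul, mul_zero]
  exact h.mono (by simp)

theorem DelD_co {f : T → ℂ} {ρ : ℝ} (h : S.Ge ρ f) (γ α : ℕ) :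
    S.Ge (ρ * γ - ρ * α) fun t => (γ.choose α : ℂ) * f t ^ (γ - α) := by
  rcases le_or_gt α γ with h1 | h1
  · refine ((h.pow _).const_mul _).mono (le_of_eq ?_)
    rw [Nat.cast_sub h1]
    ring
  · refine Scale.ge_of_ev_zero _ (Eventually.of_forall fun t => ?_)
    rw [Nat.choose_eq_zero_of_lt h1, Nat.cast_zero, zero_mul]

theorem ddet_step {ε : T → ℂ} {c0 c1 e0 e1 : Ix q → T → ℂ} {ρ B : ℝ}
    (hc : ∀ i, S.Ge ρ fun t => c1 i t - c0 i t) (he : ∀ i, S.Ge ρ fun t => e1 i t - e0 i t)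
    (h : ∀ a b : Ix q → Fin (2 * q), S.Ge (B - ρ * ∑ i, (((a i : ℕ) : ℝ) + ((b i : ℕ) : ℝ)))
      fun t => ddet q (ε t) (fun i => c0 i t) (fun i => e0 i t) a b) (a b : Ix q → Fin (2 * q)) :
    S.Ge (B - ρ * ∑ i, (((a i : ℕ) : ℝ) + ((b i : ℕ) : ℝ)))
      fun t => ddet q (ε t) (fun i => c1 i t) (fun i => e1 i t) a b := by
  have e : ∀ t, ddet q (ε t) (fun i => c1 i t) (fun i => e1 i t) a b =
      ∑ γ : Ix q → Fin (2 * q) × Fin (2 * q),
      (∏ i, (((((γ i).1 : ℕ).choose (a i) : ℂ) * (c1 i t - c0 i t) ^ (((γ i).1 : ℕ) - a i)) *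
        ((((γ i).2 : ℕ).choose (b i) : ℂ) * (e1 i t - e0 i t) ^ (((γ i).2 : ℕ) - b i)))) *
        ddet q (ε t) (fun i => c0 i t) (fun i => e0 i t) (fun i => (γ i).1) fun i => (γ i).2 := by
    intro t
    unfold ddet
    rw [← DelA_exp (fun i (γ : Fin (2 * q) × Fin (2 * q)) =>
      (((γ.1 : ℕ).choose (a i) : ℂ) * (c1 i t - c0 i t) ^ ((γ.1 : ℕ) - a i)) *
        (((γ.2 : ℕ).choose (b i) : ℂ) * (e1 i t - e0 i t) ^ ((γ.2 : ℕ) - b i)))
      fun i (γ : Fin (2 * q) × Fin (2 * q)) (x : Ix q) =>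
        ∑ j ∈ Finset.range ((x.2 : ℕ) + 1), (((x.2 : ℕ).choose j : ℂ) * ε t ^ j) *
          ((((x.1 : ℕ) + x.2 - j).choose γ.1 : ℂ) * c0 i t ^ ((x.1 : ℕ) + x.2 - j - γ.1)) *
          ((j.choose γ.2 : ℂ) * e0 i t ^ (j - γ.2))]
    refine congrArg Matrix.det ?_
    ext i x
    simp only [Matrix.of_apply, Finset.mul_sum]
    rw [Finset.sum_comm]
    refine Finset.sum_congr rfl fun j hj => ?_
    have h1 := x.1.2
    have h2 := x.2.2
    have h3 := Finset.mem_range.1 hj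
    rw [DelA_binom (q := 2 * q) (a := (x.1 : ℕ) + x.2 - j) (by omega) (a i) (c0 i t) (c1 i t),
      DelA_binom (q := 2 * q) (a := j) (by omega) (b i) (e0 i t) (e1 i t), mul_assoc,
      Finset.sum_mul_sum, Fintype.sum_prod_type, Finset.mul_sum]
    refine Finset.sum_congr rfl fun u _ => ?_
    rw [Finset.mul_sum]
    exact Finset.sum_congr rfl fun v _ => by ring
  simp only [e]
  refine Scale.ge_sum _ fun γ _ => ?_
  refine ((Scale.ge_prod Finset.univ fun i _ => (DelD_co (hc i) _ _).mul (DelD_co (he i) _ _)).mul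
    (h (fun i => (γ i).1) fun i => (γ i).2)).mono (le_of_eq ?_)
  simp only [Finset.sum_add_distrib, Finset.sum_sub_distrib, ← Finset.mul_sum]
  ring

theorem ddet_van (ε : ℂ) (c e : Ix q → ℂ) (a b : Ix q → Fin (2 * q)) {i k : Ix q} (hik : i ≠ k)
    (h : c i = c k ∧ e i = e k ∧ a i = a k ∧ b i = b k) : ddet q ε c e a b = 0 := by
  refine Matrix.det_zero_of_row_eq hik (funext fun x => ?_)
  simp only [Matrix.of_apply, h.1, h.2.1, h.2.2.1, h.2.2.2]

theorem DelD_card {ι : Type} [DecidableEq ι] (C : Finset ι) (a b : ι → ℕ)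
    (h : ∀ i ∈ C, ∀ k ∈ C, a i = a k → b i = b k → i = k) (m : ℕ) :
    2 * (C.filter fun i => a i + b i < m).card ≤ m * (m + 1) := by
  induction m with
  | zero => simp
  | succ m ih =>
    have h1 : (C.filter fun i => a i + b i = m).card ≤ m + 1 := by
      refine (Finset.card_le_card_of_injOn (t := Finset.range (m + 1)) a (fun i hi => ?_)
        fun i hi k hk e => ?_).trans_eq (Finset.card_range _)
      · have := (Finset.mem_filter.1 hi).2
        exact Finset.mem_coe.2 (Finset.mem_range.2 (by omega))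
      · have h2 := Finset.mem_filter.1 hi
        have h3 := Finset.mem_filter.1 hk
        exact h i h2.1 k h3.1 e (by omega)
    have h2 : (C.filter fun i => a i + b i < m + 1).card ≤
        (C.filter fun i => a i + b i < m).card + (C.filter fun i => a i + b i = m).card := by
      simp only [Finset.card_filter, ← Finset.sum_add_distrib]
      refine Finset.sum_le_sum fun i _ => ?_
      split_ifs <;> omega
    linarith only [ih, h1, h2]

theorem DelD_sum {ι : Type} [DecidableEq ι] (C : Finset ι) (a b : ι → ℕ)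
    (h : ∀ i ∈ C, ∀ k ∈ C, a i = a k → b i = b k → i = k) (M : ℕ) :
    6 * ((M : ℝ) * C.card) ≤ 6 * ∑ i ∈ C, ((a i : ℝ) + (b i : ℝ)) + M * ((M + 1) * (M + 2)) := by
  have h1 : 6 * (M * C.card) ≤ 6 * ∑ i ∈ C, min (a i + b i) M + M * ((M + 1) * (M + 2)) := by
    induction M with
    | zero => simp
    | succ M ih =>
      have h2 := DelD_card C a b h (M + 1)
      have h3 : ∑ i ∈ C, min (a i + b i) M + C.card ≤
          ∑ i ∈ C, min (a i + b i) (M + 1) + (C.filter fun i => a i + b i < M + 1).card := by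
        rw [Finset.card_filter, Finset.card_eq_sum_ones, ← Finset.sum_add_distrib,
          ← Finset.sum_add_distrib]
        refine Finset.sum_le_sum fun i _ => ?_
        split_ifs <;> omega
      linarith only [ih, h2, h3]
  have h2 : 6 * (M * C.card) ≤ 6 * ∑ i ∈ C, (a i + b i) + M * ((M + 1) * (M + 2)) :=
    h1.trans (Nat.add_le_add_right
      (Nat.mul_le_mul_left 6 (Finset.sum_le_sum fun i _ => min_le_left _ _)) _)
  exact_mod_cast h2

theorem cntD {ι : Type} [DecidableEq ι] (hq : 10 ^ 13 ≤ q) (C : Finset ι)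
    (hC : 2 * C.card ≤ q ^ 2) (a b : ι → ℕ)
    (h : ∀ i ∈ C, ∀ k ∈ C, a i = a k → b i = b k → i = k) :
    (C.card : ℝ) * (C.card - 1) / (q + 1) ≤ ∑ i ∈ C, ((a i : ℝ) + (b i : ℝ)) := by
  have q0 : (10 : ℝ) ^ 13 ≤ q := by exact_mod_cast hq
  have s0 : 0 ≤ ∑ i ∈ C, ((a i : ℝ) + (b i : ℝ)) := Finset.sum_nonneg fun i _ => by positivity
  have k1 := DelD_sum C a b h 1
  have k2 := DelD_sum C a b h C.card.sqrt
  have m1 : (C.card.sqrt : ℝ) * C.card.sqrt ≤ C.card := by exact_mod_cast Nat.sqrt_le C.card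
  have m2 : (C.card : ℝ) < (C.card.sqrt + 1) * (C.card.sqrt + 1) := by
    exact_mod_cast Nat.lt_succ_sqrt C.card
  have m3 : 2 * (C.card : ℝ) ≤ q ^ 2 := by exact_mod_cast hC
  have m0 : (0 : ℝ) ≤ C.card.sqrt := Nat.cast_nonneg _
  rw [div_le_iff₀ (by positivity)]
  rcases Nat.eq_zero_or_pos C.card with h0 | h0
  · rw [h0, Nat.cast_zero, zero_mul]
    positivity
  have a1 : (1 : ℝ) ≤ C.card := by exact_mod_cast h0
  push_cast at k1
  set s := ∑ i ∈ C, ((a i : ℝ) + (b i : ℝ))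
  set n : ℝ := (C.card : ℝ)
  set M : ℝ := (C.card.sqrt : ℝ)
  rcases le_total n (q + 1) with h1 | h1
  · have e1 : (n - 1) * n ≤ s * (q + 1) := mul_le_mul (by linarith only [k1]) h1 (by linarith only [a1]) s0
    linarith only [e1]
  have m4 : 1000 ≤ M := by
    by_contra h2
    have : (M + 1) * (M + 1) ≤ 1001 * 1001 :=
      mul_le_mul (by linarith only [h2]) (by linarith only [h2]) (by linarith only [m0]) (by norm_num)
    linarith only [q0, m2, h1, this]
  have m5 : 1.4 * M ≤ q := by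
    refine abs_le_of_sq_le_sq' ?_ (by linarith only [q0]) |>.2
    linarith only [q0, m3, m1, h1]
  have m6 : 1000 * M ≤ M * M := mul_le_mul_of_nonneg_right m4 m0
  have m7 : M * ((M + 1) * (M + 2)) ≤ M * (1.02 * n) :=
    mul_le_mul_of_nonneg_left (by linarith only [q0, m1, h1, m6]) m0
  have e1 : (0.83 * (M * n)) * (1.4 * M) ≤ s * (q + 1) :=
    mul_le_mul (by linarith only [k2, m7]) (by linarith only [m5]) (by linarith only [m4]) s0
  have e2 : n * (n - 1) ≤ n * (1.162 * (M * M)) :=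
    mul_le_mul_of_nonneg_left (by linarith only [q0, m2, h1, m6]) (by linarith only [q0, h1])
  linarith only [e1, e2]

theorem ge_del_diag (hq : 10 ^ 13 ≤ q) {R : Tree (Ix q)} {σ : ℕ → ℝ} {ϑ : ℝ}
    {y η : Ix q → T → ℂ} {ε : T → ℂ} (hc : Cfg S R σ y) (hσ : Lev σ ϑ) (hB : R.Bal)
    (hε : S.Ge 1 ε) (h0 : ∀ i, S.Ge 0 (η i))
    (h1 : ∀ i k, i ≠ k → S.Ge (σ (R.μ i k)) fun t => η i t - η k t) :
    S.Ge ((q : ℝ) ^ 3 / 4 - q ^ 2 + R.mass σ Finset.univ / (q + 1))
      fun t => del q (fun i => y i t) fun i => y i t + ε t * η i t := by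
  have hq0 : 0 < q := lt_of_lt_of_le (by norm_num) hq
  have hq1 : 0 < 2 * q := by omega
  have : Nonempty (Ix q) := ⟨(⟨0, hq0⟩, ⟨0, hq0⟩)⟩
  obtain ⟨ce, hce⟩ := exists_center (ι := Ix q)
  have hm : ∀ {s s'} i, s ≤ s' → ce (R.cl Finset.univ s' i) ∈ R.cl Finset.univ s i :=
    fun i h => R.cl_anti h (hce _ ⟨i, R.self_mem_cl (Finset.mem_univ i)⟩)
  have ho : ∀ {s : ℕ} {i j k : Ix q}, j ∈ R.cl Finset.univ s i → k ∈ R.cl Finset.univ s i →
      S.Ge (σ s) fun t => η j t - η k t := fun {s i j k} hj hk => by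
    by_cases h : j = k
    · exact Scale.ge_of_ev_zero _ (.of_forall fun t => by rw [h, sub_self])
    · exact (h1 j k h).mono (hσ.2.1.monotone
        (R.le_of_parts (R.cl_mem_parts (Finset.mem_univ i)) hj hk h))
  have hcard : Fintype.card (Ix q) = q ^ 2 := by simp [sq]
  have hZ := DelB_ind (B := (q : ℝ) ^ 3 / 4 - q ^ 2) (n := R.top)
    (G := fun s => (σ s - σ (s - 1)) * ∑ C ∈ R.parts Finset.univ s,
      (C.card : ℝ) * (C.card - 1) / (q + 1))
    (H := fun s B => ∀ a b : Ix q → Fin (2 * q),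
      S.Ge (B - σ s * ∑ i, (((a i : ℕ) : ℝ) + ((b i : ℕ) : ℝ))) fun t => ddet q (ε t)
        (fun i => y (ce (R.cl Finset.univ s i)) t) (fun i => η (ce (R.cl Finset.univ s i)) t) a b)
    (fun a b => by
      by_cases hi : ∀ i k, a i = a k → b i = b k → i = k
      · refine (ddet_base hε (fun _ => hc.1 _) (fun _ => h0 _) a b).mono ?_
        have h2 := cntA hq1 Finset.univ b fun x => by
          refine (Finset.card_le_card_of_injOn (t := Finset.univ) a (fun _ _ => by simp)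
            fun i hi' k hk e => hi i k e ?_).trans_eq (by simp)
          exact (Finset.mem_filter.1 hi').2.trans (Finset.mem_filter.1 hk).2.symm
        have h3 : 2 * q < q ^ 2 := by nlinarith only [hq]
        rw [Finset.card_univ, hcard, phi, if_pos h3] at h2
        have q1 : (0 : ℝ) < q := by exact_mod_cast hq0
        refine le_trans (le_of_eq ?_) h2
        rw [hσ.1]
        push_cast
        field_simp
        ring
      · push Not at hi
        obtain ⟨i, k, e1, e2, n⟩ := hi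
        exact Scale.ge_of_ev_zero _ (.of_forall fun t =>
          ddet_van _ _ _ _ _ n ⟨by simp only [R.cl_zero], by simp only [R.cl_zero], e1, e2⟩))
    fun s _ B h a b => by
      by_cases hi : ∀ C ∈ R.parts Finset.univ (s + 1), ∀ i ∈ C, ∀ k ∈ C,
          a i = a k → b i = b k → i = k
      · refine (ddet_step (fun i => DelB_ord hc hσ (hm i s.le_succ) (hm i le_rfl))
          (fun i => ho (hm i s.le_succ) (hm i le_rfl)) h a b).mono ?_
        have h2 := (Finset.sum_le_sum fun C hC => cntD hq C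
          (hcard ▸ R.card_le_of_bal hB (Nat.le_add_left 1 s) hC) (fun i => (a i : ℕ))
          (fun i => (b i : ℕ)) fun i hi' k hk e e' =>
            hi C hC i hi' k hk (Fin.ext e) (Fin.ext e')).trans_eq (R.sum_parts _)
        have h3 := mul_le_mul_of_nonneg_left h2 (hσ.step (Nat.le_add_left 1 s)).1.le
        rw [Nat.add_sub_cancel] at h3 ⊢
        linarith only [h3]
      · push Not at hi
        obtain ⟨C, hC, i, hi, k, hk, e1, e2, n⟩ := hi
        have e3 := (R.cl_eq_of_parts hC hi).trans (R.cl_eq_of_parts hC hk).symm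
        exact Scale.ge_of_ev_zero _ (.of_forall fun t =>
          ddet_van _ _ _ _ _ n ⟨by simp only [e3], by simp only [e3], e1, e2⟩)
  have h := ddet_step (fun i => DelB_ord hc hσ (R.self_mem_cl (Finset.mem_univ i)) (hm i le_rfl))
    (fun i => ho (R.self_mem_cl (Finset.mem_univ i)) (hm i le_rfl)) hZ (fun _ => ⟨0, hq1⟩)
    fun _ => ⟨0, hq1⟩
  simp only [ddet_top _ _ _ (fun _ => (⟨0, hq1⟩ : Fin (2 * q))) (fun _ => ⟨0, hq1⟩) (fun _ => rfl)
    fun _ => rfl] at h
  refine h.mono (le_of_eq ?_)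
  rw [R.mass_eq hσ.1, Tree.usum]
  simp only [← Finset.sum_div, ← mul_div_assoc]
  simp

end Pool.Agent.Work.MP_677830_co.G
end

-- merged part: Pool.Agent.Work.MP_677830_co.G.LocD
section
/-!
# The local inequality at a branch point
even_mu: level one clusters have at most (N-1)/2 points, so there are i, j, k in three different
ones (μ = 0 pairwise); g i, g j, g k have the same parity and g0 is even; any l has μ = 0 with one of
them, so all g have the same parity. no_bad: for s odd cl A s i = cl A (s+1) i, for s even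
cl A (s-1) i = cl A s i and s ≠ 1. num_diag: num_one; the bad count vanishes (NumB_cl, no_bad; empty
intersection has card 0); 2 phi q a ≤ a (a-1) / (q+1) for a ≤ q^2 (mass_eq, usum_mono), so the lam
term of num_one is ≤ 0; lam ≥ 1 / (4000 q) by rho2_bounds. HB.smul: HB.scale with P = 1/‖χ‖ and a
unit factor (thetaM scales, Fr_msum with s = s' = 1). loc_diag, loc_diag_frame: as loc_main,
loc_frame in G/Loc with ge_del_diag and num_diag.
-/

namespace Pool.Agent.Work.MP_677830_co.G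

open Filter Topology Polynomial Matrix MeasureTheory
open scoped ComplexConjugate ComplexOrder

theorem even_mu {ι : Type} [Fintype ι] [DecidableEq ι] (R : Tree ι) (hB : R.Bal)
    (ho : Odd (Fintype.card ι)) (g : ι → ℤ) (g0 : ℤ)
    (h : ∀ i k, i ≠ k → Even ((R.μ i k : ℤ) + g i + g k + g0)) :
    ∀ i k, i ≠ k → Even (R.μ i k) := by
  intro i k hik
  have key : ∀ a b, b ∉ R.cl Finset.univ 1 a → (g a + g b + g0) % 2 = 0 := fun a b hb => by
    rw [R.mem_cl, not_and, not_or] at hb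
    obtain ⟨h1, h2⟩ := hb (Finset.mem_univ _)
    have h3 := Int.even_iff.1 (h a b (Ne.symm h1))
    have h4 : R.μ a b = 0 := by omega
    rw [h4] at h3
    simpa using h3
  obtain ⟨n, hn⟩ := ho
  have hlt : ∀ a b, ∃ c, c ∉ R.cl Finset.univ 1 a ∧ c ∉ R.cl Finset.univ 1 b := fun a b => by
    have h1 := Finset.card_union_le (R.cl Finset.univ 1 a) (R.cl Finset.univ 1 b)
    have h2 := hB a
    have h3 := hB b
    obtain ⟨c, -, hc⟩ := Finset.exists_mem_notMem_of_card_lt_card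
      (s := R.cl Finset.univ 1 a ∪ R.cl Finset.univ 1 b) (t := Finset.univ)
      (by rw [Finset.card_univ]; omega)
    exact ⟨c, not_or.1 fun e => hc (Finset.mem_union.2 e)⟩
  obtain ⟨b, hb, -⟩ := hlt i i
  obtain ⟨c, hc, hc'⟩ := hlt i b
  have e1 := key i b hb
  have e2 := key i c hc
  have e3 := key b c hc'
  have e4 := Int.even_iff.1 (h i k hik)
  have e5 : (g i + g k + g0) % 2 = 0 ∨ (g b + g k + g0) % 2 = 0 := by
    by_cases h1 : k ∈ R.cl Finset.univ 1 i
    · refine Or.inr (key b k fun h2 => hb ?_)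
      rw [← R.cl_eq_of_mem h1, R.cl_eq_of_mem h2]
      exact R.self_mem_cl (Finset.mem_univ _)
    · exact Or.inl (key i k h1)
  rw [Nat.even_iff]
  omega

theorem no_bad {ι : Type} [Fintype ι] [DecidableEq ι] (R : Tree ι)
    (h : ∀ i k, i ≠ k → Even (R.μ i k)) (A : Finset ι) {s : ℕ} (hs : 1 ≤ s) {i : ι} (hi : i ∈ A) :
    ¬ R.Bad A s (R.cl A s i) := by
  have key : ∀ t, t % 2 = 1 → R.cl A t i = R.cl A (t + 1) i := fun t ht => by
    ext k
    rw [R.mem_cl, R.mem_cl]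
    refine and_congr_right fun _ => ?_
    by_cases e : k = i
    · simp [e]
    · have h1 := Nat.even_iff.1 (h i k (Ne.symm e))
      simp only [e, false_or]
      omega
  rintro ⟨-, h2, h3⟩
  rcases Nat.mod_two_eq_zero_or_one s with e | e
  · refine h3.elim (fun e1 => by omega) fun e1 => e1 ?_
    have e2 := key (s - 1) (by omega)
    rw [Nat.sub_add_cancel hs] at e2
    rw [← e2]
    exact R.cl_mem_parts hi
  · exact h2 (key s e ▸ R.cl_mem_parts hi)

theorem num_diag {q : ℕ} (hq : 10 ^ 13 ≤ q) {R : Tree (Ix q)} {σ : ℕ → ℝ} {ϑ : ℝ} (hσ : Lev σ ϑ)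
    (hB : R.Bal) (h : ∀ i k, i ≠ k → Even (R.μ i k)) :
    R.mass σ Finset.univ / (2000 * (q : ℝ) ^ 4) + 24 * q ≤
      (∑ A ∈ samples q, (2 * loc R σ ϑ A + 2 * loc R σ ϑ A)) / (samples q).card +
        lam q * (2 * ((q : ℝ) ^ 3 / 4 - q ^ 2)) := by
  have hq1 : 24 ≤ q := le_trans (by norm_num) hq
  have q0 : (10 : ℝ) ^ 13 ≤ q := by exact_mod_cast hq
  have q1 : (0 : ℝ) < q := lt_of_lt_of_le (by norm_num) q0
  have h1 := num_one hq1 hσ hB
  have hz : ∀ A : Finset (Ix q), (∑ s ∈ Finset.Icc 1 R.top, ∑ C ∈ R.parts Finset.univ s,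
      if C.card ≤ q ∧ R.Bad A s (C ∩ A) then (1 : ℝ) else 0) = 0 := fun A => by
    refine Finset.sum_eq_zero fun s hs => Finset.sum_eq_zero fun C hC => if_neg fun e => ?_
    obtain ⟨i, hi⟩ := Finset.card_pos.1 (two_pos.trans_le e.2.1)
    obtain ⟨i1, i2⟩ := Finset.mem_inter.1 hi
    exact no_bad R h A (Finset.mem_Icc.1 hs).1 i2 (NumB_cl hC i1 ▸ e.2)
  simp only [hz, mul_zero, add_zero] at h1
  have h2 := R.usum_mono (A := Finset.univ) hσ (g := fun C => 2 * phi q C.card)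
    (g' := fun C => 1 / ((q : ℝ) + 1) * ((C.card : ℝ) * (C.card - 1))) fun s hs C hC => by
      have a0 : (0 : ℝ) ≤ (C.card : ℝ) * (C.card - 1) := NumB_off C ▸ Nat.cast_nonneg _
      have a1 : 2 * C.card ≤ q ^ 2 := (R.card_le_of_bal hB hs hC).trans_eq (by simp [sq])
      have a2 : 2 * (C.card : ℝ) ≤ (q : ℝ) ^ 2 := by exact_mod_cast a1
      have a3 : (0 : ℝ) ≤ C.card := Nat.cast_nonneg _
      show 2 * phi q C.card ≤ _
      rw [phi]
      split_ifs
      · generalize (C.card : ℝ) = a at *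
        have e : 2 * (a ^ 2 / (2 * q) - a) = a * (a - 2 * q) / q := by field_simp
        rw [e, one_div_mul_eq_div, div_le_div_iff₀ q1 (by linarith only [q0]), mul_assoc, mul_assoc]
        refine mul_le_mul_of_nonneg_left ?_ a3
        nlinarith only [q0, a2]
      · rw [mul_zero]
        positivity
  rw [R.usum_mul, R.usum_mul, ← R.mass_eq hσ.1, one_div_mul_eq_div] at h2
  obtain ⟨r1, -⟩ := rho2_bounds hq1
  have l1 : 1 / (4000 * (q : ℝ)) ≤ lam q := by
    rw [lam]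
    refine le_trans (le_of_eq ?_)
      (div_le_div_of_nonneg_right (mul_le_mul_of_nonneg_right r1 q1.le) (by norm_num))
    field_simp
  have l0 : 0 ≤ lam q := le_trans (by positivity) l1
  have h3 := mul_nonneg l0 (sub_nonneg.2 h2)
  have h4 : 0 ≤ 2 * ((q : ℝ) ^ 3 / 4 - q ^ 2) := by linarith only [q1, q0, pow_pos q1 2, mul_nonneg_of_nonpos_of_nonpos (Mathlib.Tactic.Linarith.sub_nonpos_of_le (sq_nonneg ↑q)) (Mathlib.Tactic.Linarith.sub_nonpos_of_le q0)]
  have h5 : 24 * (q : ℝ) ≤ 1 / (4000 * (q : ℝ)) * (2 * ((q : ℝ) ^ 3 / 4 - q ^ 2)) := by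
    rw [one_div_mul_eq_div, le_div_iff₀ (by positivity)]
    linarith only [q1, q0, pow_pos q1 2, mul_nonneg_of_nonpos_of_nonpos (Mathlib.Tactic.Linarith.sub_nonpos_of_le (sq_nonneg ↑q)) (Mathlib.Tactic.Linarith.sub_nonpos_of_le q0)]
  have h6 := mul_le_mul_of_nonneg_right l1 h4
  have h7 : R.mass σ Finset.univ / (2000 * (q : ℝ) ^ 4) =
      2 * (R.mass σ Finset.univ / (4000 * (q : ℝ) ^ 4)) := by
    field_simp
    ring
  rw [Finset.sum_add_distrib, add_div, h7]
  linarith only [h1, h3, h5, h6]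

theorem HB.smul {ι : Type} [DecidableEq ι] {p : ℕ} {A : Finset ι} {z v : ι → ℂ} {Φ : ℝ} {χ : ℂ}
    (h : HB p A z v Φ) (h0 : χ ≠ 0) (h1 : ‖χ‖ ≤ 1) :
    HB p A z (fun i => χ * v i) (Φ + 2 * p * Real.log ‖χ‖) := by
  intro B B' nb nb' hB hB' n1 n2 b1 b2
  have P0 : 0 < ‖χ‖ := norm_pos_iff.2 h0
  have e : thetaM A z (fun i => χ * v i) (p - 1) (3 * p - 1) =
      χ • thetaM A z v (p - 1) (3 * p - 1) := by
    ext k l
    simp only [thetaM, of_apply, Matrix.smul_apply, smul_eq_mul, Finset.mul_sum]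
    exact Finset.sum_congr rfl fun i _ => by ring
  have h2 := h B B' nb nb' hB hB' n1 n2 b1 b2
  rw [e, Matrix.mul_smul, Matrix.smul_mul]
  generalize B * thetaM A z v (p - 1) (3 * p - 1) * B'ᵀ = M at h2 ⊢
  have t0 : ∀ (s : Finset (Fin (p - 1))) (s' : Finset (Fin (3 * p - 1))),
      0 ≤ (∏ l ∈ s, nb l) * ∏ l ∈ s', nb' l := fun s s' =>
    mul_nonneg (Finset.prod_nonneg fun l _ => n1 l) (Finset.prod_nonneg fun l _ => n2 l)
  have m0 : 0 ≤ msum M nb nb' :=
    Finset.sum_nonneg fun r _ => Finset.sum_nonneg fun f _ => Finset.sum_nonneg fun g _ =>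
      mul_nonneg (norm_nonneg _) (t0 _ _)
  have h3 : ‖χ‖ ^ p * msum M nb nb' ≤ msum (χ • M) nb nb' := by
    simp only [msum, Finset.mul_sum]
    refine Finset.sum_le_sum fun r hr => Finset.sum_le_sum fun f _ =>
      Finset.sum_le_sum fun g _ => ?_
    have hr' : r ≤ p := by
      have := Finset.mem_range.1 hr
      omega
    rw [show (χ • M).submatrix f g = χ • M.submatrix f g from rfl, det_smul, norm_mul, norm_pow,
      Fintype.card_fin, mul_assoc]
    exact mul_le_mul_of_nonneg_right (pow_le_pow_of_le_one P0.le h1 hr')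
      (mul_nonneg (norm_nonneg _) (t0 _ _))
  have e2 : Real.exp (2 * p * Real.log ‖χ‖) = (‖χ‖ ^ p) ^ 2 := by
    rw [← pow_mul', ← Real.exp_log (pow_pos P0 _), Real.log_pow]
    push_cast
    rfl
  rw [Real.exp_add, e2, mul_right_comm]
  refine (mul_le_mul_of_nonneg_right h2 (by positivity)).trans ?_
  rw [← mul_pow, mul_assoc, mul_comm (msum M nb nb')]
  exact pow_le_pow_left₀ (mul_nonneg (by positivity) (mul_nonneg (by positivity) m0))
    (mul_le_mul_of_nonneg_left h3 (by positivity)) 2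

variable {T : Type} {S : Scale T} {q : ℕ} {R : Tree (Ix q)} {σ : ℕ → ℝ} {ϑ : ℝ}
  {y y' u u' η : Ix q → T → ℂ} {D D' : ℕ → T → ℂ} {ε : T → ℂ}

theorem loc_diag (hq : 10 ^ 13 ≤ q) (hc : Cfg S R σ y) (hc' : Cfg S R σ y') (hσ : Lev σ ϑ)
    (hv : Vel S R σ ϑ y u D) (hv' : Vel S R σ ϑ y' u' D') (hB : R.Bal)
    (he : ∀ i k, i ≠ k → Even (R.μ i k)) (hε : S.Ge 1 ε) (h0 : ∀ i, S.Ge 0 (η i))
    (h1 : ∀ i k, i ≠ k → S.Ge (σ (R.μ i k)) fun t => η i t - η k t)
    (h2 : ∀ᶠ t in S.F, ∀ i, y' i t = y i t + ε t * η i t) (Φ Φ' : T → Finset (Ix q) → ℝ)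
    (hH : ∀ᶠ t in S.F, ∀ A ∈ samples q,
      HB (6 * q) A (fun i => y i t) (fun i => u i t) (Φ t A) ∧
      HB (6 * q) A (fun i => y' i t) (fun i => u' i t) (Φ' t A))
    (hd : ∀ᶠ t in S.F, del q (fun i => y i t) (fun i => y' i t) ≠ 0) :
    S.LogLe (24 * q) fun t => Psi q (fun i => y i t) (fun i => y' i t) (Φ t) (Φ' t) +
      c1 q * (LL (fun i => y i t) + LL fun i => y' i t) := by
  have hq1 : 24 ≤ q := le_trans (by norm_num) hq
  have hq0 : (24 : ℝ) ≤ q := by exact_mod_cast hq1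
  have hn := num_diag hq hσ hB he
  have hA : ∀ A ∈ samples q, A.card = 24 * q := fun A hA => (Finset.mem_powersetCard.1 hA).2
  have k1 := (S.logLe_sum (samples q)
    (F := fun A t => Φ t A + cn (24 * q) * vs A (fun i => y i t) +
      (Φ' t A + cn (24 * q) * vs A fun i => y' i t))
    (k := fun A => 2 * loc R σ ϑ A + 2 * loc R σ ϑ A) fun A h => by
      rw [← hA A h]
      exact (lh hc hσ hv (p := 6 * q) (by omega) (by rw [hA A h]; ring)
        (hH.mono fun t ht => (ht A h).1)).add (lh hc' hσ hv' (p := 6 * q) (by omega)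
          (by rw [hA A h]; ring) (hH.mono fun t ht => (ht A h).2))).const_mul
    (c := ((samples q).card : ℝ)⁻¹) (by positivity)
  have hl : 0 ≤ lam q := by
    have h2 : (0 : ℝ) ≤ 24 * q - 1 := by linarith only [hq0]
    have h3 : (0 : ℝ) ≤ (q : ℝ) ^ 2 - 1 := by linarith only [hq0, mul_nonneg_of_nonpos_of_nonpos (Mathlib.Tactic.Linarith.sub_nonpos_of_le (Mathlib.Tactic.Linarith.natCast_nonneg ℝ q)) (Mathlib.Tactic.Linarith.sub_nonpos_of_le hq0)]
    rw [lam, rho2]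
    positivity
  have hg : S.Ge ((q : ℝ) ^ 3 / 4 - q ^ 2 + R.mass σ Finset.univ / (q + 1))
      fun t => del q (fun i => y i t) fun i => y' i t :=
    (ge_del_diag hq hc hσ hB hε h0 h1).congr (h2.mono fun t ht => by simp only [ht])
  have k2 := (((hg.logLe hd).const_mul zero_le_two).add
    (((logLe_neg_vs hc Finset.univ).add (logLe_neg_vs hc' Finset.univ)).const_mul
      (c := ((q : ℝ) + 1)⁻¹) (by positivity))).const_mul hl
  have k3 := ((logLe_LL hc hσ).add (logLe_LL hc' hσ)).const_mul (c := c1 q)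
    (by rw [c1]; positivity)
  refine (((k1.add k2).add k3).mono ?_).of_le (.of_forall fun t => le_of_eq ?_)
  · have e : c1 q * (-(2 * (Fintype.card (Ix q) : ℝ) ^ 2 * R.mass σ Finset.univ) +
        -(2 * (Fintype.card (Ix q) : ℝ) ^ 2 * R.mass σ Finset.univ)) =
        -(R.mass σ Finset.univ / (2000 * (q : ℝ) ^ 4)) := by
      rw [c1, Fintype.card_prod, Fintype.card_fin]
      push_cast
      field_simp
      ring
    rw [e, ← sub_eq_add_neg, le_sub_iff_add_le']
    exact hn.trans (le_of_eq (by ring))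
  · rw [Psi]
    ring

theorem loc_diag_frame (hq : 10 ^ 13 ≤ q) (hc : Cfg S R σ y) (hc' : Cfg S R σ y') (hσ : Lev σ ϑ)
    (hv : Vel S R σ ϑ y u D) (hv' : Vel S R σ ϑ y' u' D') (hB : R.Bal)
    (he : ∀ i k, i ≠ k → Even (R.μ i k)) (hε : S.Ge 1 ε) (h0 : ∀ i, S.Ge 0 (η i))
    (h1 : ∀ i k, i ≠ k → S.Ge (σ (R.μ i k)) fun t => η i t - η k t)
    (h2 : ∀ᶠ t in S.F, ∀ i, y' i t = y i t + ε t * η i t) (z w v v' : Ix q → T → ℂ)
    (Φ Φ' : T → Finset (Ix q) → ℝ)
    (hF : ∀ᶠ t in S.F, (Function.Injective fun i => z i t) ∧ (Function.Injective fun i => w i t) ∧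
      Frame (fun i => z i t) (fun i => v i t) (fun i => y i t) (fun i => u i t) ∧
      Frame (fun i => w i t) (fun i => v' i t) (fun i => y' i t) (fun i => u' i t) ∧
      del q (fun i => z i t) (fun i => w i t) ≠ 0 ∧ ∀ A ∈ samples q,
        HB (6 * q) A (fun i => z i t) (fun i => v i t) (Φ t A) ∧
        HB (6 * q) A (fun i => w i t) (fun i => v' i t) (Φ' t A)) :
    S.LogLe (24 * q) fun t => Psi q (fun i => z i t) (fun i => w i t) (Φ t) (Φ' t) +
      c1 q * (LL (fun i => z i t) + LL fun i => w i t) := by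
  have hq1 : 24 ≤ q := le_trans (by norm_num) hq
  refine (loc_diag hq hc hc' hσ hv hv' hB he hε h0 h1 h2
    (fun t A => Φ t A + cn (24 * q) * vs A (fun i => z i t) - cn (24 * q) * vs A fun i => y i t)
    (fun t A => Φ' t A + cn (24 * q) * vs A (fun i => w i t) - cn (24 * q) * vs A fun i => y' i t)
    (hF.mono fun t ht A h => ?_)
    (hF.mono fun t ht => (del_frame ht.1 ht.2.1 ht.2.2.1 ht.2.2.2.1 ht.2.2.2.2.1).1)).of_le
    (hF.mono fun t ht => le_of_eq ?_)
  · have hA : A.card = 24 * q := (Finset.mem_powersetCard.1 h).2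
    rw [← hA]
    exact ⟨(ht.2.2.2.2.2 A h).1.frame (by omega) (by rw [hA]; ring) ht.1 ht.2.2.1,
      (ht.2.2.2.2.2 A h).2.frame (by omega) (by rw [hA]; ring) ht.2.1 ht.2.2.2.1⟩
  · rw [Psi_frame ht.1 ht.2.1 ht.2.2.1 ht.2.2.2.1 ht.2.2.2.2.1, LL_frame ht.2.2.1,
      LL_frame ht.2.2.2.1]

end Pool.Agent.Work.MP_677830_co.G
end

-- merged part: Pool.Agent.Work.MP_677830_co.G.QBr
section
/-!
# Local square roots and the substitution t = v + s ^ 2
Write h = (t - v) ^ n • g near v (meromorphicOrderAt_eq_int_iff or Mer_form), g analytic, g v ≠ 0, and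
take an analytic branch γ of the root of g (exists_br). br_even: r = (t - v) ^ (n / 2) γ.
br_odd: r s = s ^ n γ (v + s ^ 2). ev_sq: s ↦ v + s ^ 2 maps the punctured neighbourhoods of 0 into those
of v. ev_sq': t = v + (rt (t - v)) ^ 2 and rt (t - v) → 0, ≠ 0 (‖rt a‖ ^ 2 = ‖a‖).
ge_odd: f = s ^ n g, n ≥ m; f (-s) - f s = s ^ n ((-1) ^ n g (-s) - g s); if n = m it is even and
g (-s) - g s = O(s); otherwise n ≥ m + 1. ram_deriv: differentiate r s ^ 2 = h (v + s ^ 2).
remov: f ^ 2 bounded near t0 gives order ≥ 0 (or f eventually 0); g = toMeromorphicNFAt f t0, or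
Function.update f t0 (limit); g differs from f only at t0.
-/

namespace Pool.Agent.Work.MP_677830_co.G

open Filter Topology Polynomial Matrix MeasureTheory
open scoped ComplexConjugate ComplexOrder

variable {f h : ℂ → ℂ} {v : ℂ} {p : ℂ → Prop}

theorem QBr_t0 (v : ℂ) : Tendsto (fun s : ℂ => v + s ^ 2) (𝓝 0) (𝓝 v) :=
  Continuous.tendsto' (by fun_prop) _ _ (by simp)

theorem QBr_t1 (v : ℂ) : Tendsto (fun s : ℂ => v + s ^ 2) (𝓝[≠] 0) (𝓝[≠] v) := by
  refine tendsto_nhdsWithin_iff.2 ⟨(QBr_t0 v).mono_left nhdsWithin_le_nhds, ?_⟩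
  filter_upwards [self_mem_nhdsWithin] with s hs
  simpa using hs

theorem QBr_an {u : ℂ → ℂ} {s : ℂ} (hu : AnalyticAt ℂ u (v + s ^ 2)) :
    AnalyticAt ℂ (fun s => u (v + s ^ 2)) s :=
  AnalyticAt.fun_comp_of_eq (f := fun s : ℂ => v + s ^ 2) hu (by fun_prop) rfl

theorem QBr_an0 {u : ℂ → ℂ} (hu : AnalyticAt ℂ u v) : AnalyticAt ℂ (fun s => u (v + s ^ 2)) 0 :=
  QBr_an (by simpa using hu)

theorem QBr_ann {u : ℂ → ℂ} (hu : AnalyticAt ℂ u 0) : AnalyticAt ℂ (fun s => u (-s)) 0 :=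
  AnalyticAt.fun_comp_of_eq (f := fun s : ℂ => -s) hu (by fun_prop) neg_zero

theorem QBr_ord {u : ℂ → ℂ} {n : ℤ} (hf : MeromorphicAt f v) (hu : AnalyticAt ℂ u v) (h0 : u v ≠ 0)
    (e : ∀ᶠ t in 𝓝[≠] v, f t = (t - v) ^ n * u t) : ord f v = n := by
  rw [ord, (meromorphicOrderAt_eq_int_iff hf).2 ⟨u, hu, h0, e⟩, WithTop.untop₀_coe]

theorem QBr_deriv {u : ℂ → ℂ} {s : ℂ} (hu : AnalyticAt ℂ u (v + s ^ 2)) :
    deriv (fun s => u (v + s ^ 2)) s = 2 * s * deriv u (v + s ^ 2) := by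
  have h1 : HasDerivAt (fun s : ℂ => v + s ^ 2) (2 * s) s := by
    simpa using (hasDerivAt_pow 2 s).const_add v
  rw [mul_comm]
  exact (hu.differentiableAt.hasDerivAt.comp s h1).deriv

theorem br_even (hm : MeromorphicAt h v) (h0 : ∀ᶠ t in 𝓝[≠] v, h t ≠ 0) (he : Even (ord h v)) :
    ∃ r : ℂ → ℂ, MeromorphicAt r v ∧ ∀ᶠ t in 𝓝[≠] v, Br h r t := by
  obtain ⟨u, h1, h2, h3⟩ := Mer_form hm h0
  obtain ⟨k, hk⟩ := he
  obtain ⟨γ, h4, -⟩ := exists_br h1 h2 (rt_sq (u v))
  refine ⟨fun t => (t - v) ^ k * γ t, (((MeromorphicAt.id v).sub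
    (MeromorphicAt.const v v)).zpow k).mul h4.1.meromorphicAt, ?_⟩
  filter_upwards [eventually_nhdsNE_eventually_nhds_iff.2 h3, self_mem_nhdsWithin,
    h4.ev.filter_mono nhdsWithin_le_nhds] with t e1 e2 e3
  refine ⟨((analyticAt_id.sub analyticAt_const).zpow (sub_ne_zero.2 e2)).mul e3.1, ?_⟩
  filter_upwards [e1, e3.2] with s a1 a2
  rw [a1, mul_pow, a2, hk, ← zpow_natCast, ← _root_.zpow_mul, ← two_mul, mul_comm k]
  rfl

theorem br_odd (hm : MeromorphicAt h v) (h0 : ∀ᶠ t in 𝓝[≠] v, h t ≠ 0) (he : Odd (ord h v)) :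
    ∃ r : ℂ → ℂ, MeromorphicAt r 0 ∧ (∀ s, r (-s) = -r s) ∧
      ∀ᶠ s in 𝓝[≠] (0 : ℂ), Br (fun s => h (v + s ^ 2)) r s := by
  obtain ⟨u, h1, h2, h3⟩ := Mer_form hm h0
  obtain ⟨γ, h4, -⟩ := exists_br h1 h2 (rt_sq (u v))
  refine ⟨fun s => s ^ ord h v * γ (v + s ^ 2), ((MeromorphicAt.id 0).zpow _).mul
    (QBr_an0 h4.1).meromorphicAt, fun s => by simp only [he.neg_zpow, neg_sq, neg_mul], ?_⟩
  filter_upwards [eventually_nhdsNE_eventually_nhds_iff.2 ((QBr_t1 v).eventually h3),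
    self_mem_nhdsWithin, eventually_nhdsNE_eventually_nhds_iff.2
      (((QBr_t0 v).eventually h4.ev).filter_mono nhdsWithin_le_nhds)] with t e1 e2 e3
  refine ⟨(analyticAt_id.zpow e2).mul (QBr_an e3.self_of_nhds.1), ?_⟩
  filter_upwards [e1, e3] with s a1 a2
  rw [a1, mul_pow, a2.sq, add_sub_cancel_left, ← zpow_natCast, ← zpow_natCast, ← _root_.zpow_mul,
    ← _root_.zpow_mul, mul_comm (ord h v)]

theorem ev_sq (e : ∀ᶠ t in 𝓝[≠] v, p t) : ∀ᶠ s in 𝓝[≠] (0 : ℂ), p (v + s ^ 2) := by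
  exact (QBr_t1 v).eventually e

theorem ev_sq' (e : ∀ᶠ s in 𝓝[≠] (0 : ℂ), p s) : ∀ᶠ t in 𝓝[≠] v, p (rt (t - v)) := by
  refine Tendsto.eventually (tendsto_nhdsWithin_iff.2 ⟨?_, ?_⟩) e
  · have h1 : ∀ t, ‖rt (t - v)‖ = Real.sqrt ‖t - v‖ := fun t => by
      conv_rhs => rw [← rt_sq (t - v), norm_pow, Real.sqrt_sq (norm_nonneg _)]
    rw [tendsto_zero_iff_norm_tendsto_zero]
    simp only [h1]
    exact (Continuous.tendsto' (by fun_prop) _ _ (by simp)).mono_left nhdsWithin_le_nhds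
  · filter_upwards [self_mem_nhdsWithin] with t ht k
    have h1 := rt_sq (t - v)
    rw [Set.mem_singleton_iff.1 k, zero_pow two_ne_zero] at h1
    exact ht (sub_eq_zero.1 h1.symm)

theorem ev_neg (e : ∀ᶠ s in 𝓝[≠] (0 : ℂ), p s) : ∀ᶠ s in 𝓝[≠] (0 : ℂ), p (-s) := by
  refine Tendsto.eventually (tendsto_nhdsWithin_iff.2 ⟨?_, ?_⟩) e
  · exact (continuous_neg.tendsto' _ _ neg_zero).mono_left nhdsWithin_le_nhds
  · filter_upwards [self_mem_nhdsWithin] with t ht
    simpa using ht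

theorem mer_sq (hf : MeromorphicAt f v) : MeromorphicAt (fun s => f (v + s ^ 2)) 0 := by
  exact MeromorphicAt.comp_analyticAt (g := fun s : ℂ => v + s ^ 2) (by simpa using hf) (by fun_prop)

theorem ord_sq (hf : MeromorphicAt f v) (h0 : ∀ᶠ t in 𝓝[≠] v, f t ≠ 0) :
    ord (fun s => f (v + s ^ 2)) 0 = 2 * ord f v := by
  obtain ⟨u, h1, h2, h3⟩ := Mer_form hf h0
  refine QBr_ord (mer_sq hf) (QBr_an0 h1) (by simpa using h2) ((ev_sq h3).mono fun s e => ?_)
  rw [e, add_sub_cancel_left, sub_zero, _root_.zpow_mul, ← zpow_natCast]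
  rfl

theorem mer_cneg (hf : MeromorphicAt f 0) : MeromorphicAt (fun s => f (-s)) 0 := by
  exact MeromorphicAt.comp_analyticAt (g := fun s : ℂ => -s) (by simpa using hf) (by fun_prop)

theorem ord_cneg (hf : MeromorphicAt f 0) (h0 : ∀ᶠ t in 𝓝[≠] (0 : ℂ), f t ≠ 0) :
    ord (fun s => f (-s)) 0 = ord f 0 := by
  obtain ⟨u, h1, h2, h3⟩ := Mer_form hf h0
  refine QBr_ord (u := fun s => (-1) ^ ord f 0 * u (-s)) (mer_cneg hf)
    (analyticAt_const.mul (QBr_ann h1))
    (mul_ne_zero (zpow_ne_zero _ (by norm_num)) (by simpa using h2)) ((ev_neg h3).mono fun s e => ?_)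
  rw [e, sub_zero, sub_zero, neg_eq_neg_one_mul s, mul_zpow]
  ring

theorem ge_cneg {κ : ℝ} (hf : (plS 0).Ge κ f) : (plS 0).Ge κ fun s => f (-s) := by
  intro κ' hκ
  refine (ev_neg (hf κ' hκ)).mono fun s e => ?_
  simpa [plS] using e

theorem ge_id : (plS 0).Ge 1 fun s : ℂ => s := by
  have h := Mer_ge (f := fun s : ℂ => s) (g := fun _ => 1) (v := 0) (n := 1) continuousAt_const
    (Eventually.of_forall fun t => by simp)
  rwa [Int.cast_one] at h

theorem ge_odd (hf : MeromorphicAt f 0) (h0 : ∀ᶠ t in 𝓝[≠] (0 : ℂ), f t ≠ 0) {m : ℤ}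
    (he : Even m) (hm : m ≤ ord f 0) : (plS 0).Ge m fun s => (f (-s) - f s) / s := by
  obtain ⟨u, h1, -, h3⟩ := Mer_form hf h0
  rcases hm.eq_or_lt with e | e
  · rw [← e] at h3
    refine Mer_ge (g := dslope (fun s => u (-s) - u s) 0)
      (continuousAt_dslope_same.2 ((QBr_ann h1).sub h1).differentiableAt) ?_
    filter_upwards [h3, ev_neg h3, self_mem_nhdsWithin] with s e1 e2 e3
    rw [dslope_of_ne _ e3, slope_def_field, e1, e2]
    simp only [sub_zero, neg_zero, sub_self, he.neg_zpow]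
    ring
  · refine (Mer_ge (n := ord f 0 - 1) (g := fun s => (-1) ^ ord f 0 * u (-s) - u s)
      ((analyticAt_const.mul (QBr_ann h1)).sub h1).continuousAt ?_).mono
        (by exact_mod_cast Int.le_sub_one_of_lt e)
    filter_upwards [h3, ev_neg h3, self_mem_nhdsWithin] with s e1 e2 e3
    rw [e1, e2, sub_zero, sub_zero, zpow_sub_one₀ e3]
    conv_lhs => rw [neg_eq_neg_one_mul s, mul_zpow, ← neg_eq_neg_one_mul s]
    ring

theorem ram_deriv {ι : Type} {A B : ι → ℂ → ℂ} {r : ℂ → ℂ} {s : ℂ}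
    (hr : Br (fun s => h (v + s ^ 2)) r s) (ha : AnalyticAt ℂ h (v + s ^ 2))
    (h0 : h (v + s ^ 2) ≠ 0) {i : ι} (hA : AnalyticAt ℂ (A i) (v + s ^ 2))
    (hB : AnalyticAt ℂ (B i) (v + s ^ 2)) :
    deriv (fun s => zz A B (v + s ^ 2) (r s) i) s = 2 * s * vv h A B (v + s ^ 2) (r s) i := by
  have h1 := br_deriv (A := fun i s => A i (v + s ^ 2)) (B := fun i s => B i (v + s ^ 2)) hr h0
    (QBr_an hA) (QBr_an hB)
  refine Eq.trans h1 ?_
  simp only [vv]
  rw [QBr_deriv hA, QBr_deriv hB, QBr_deriv ha]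
  ring

theorem remov (hf : Meromorphic f) {t0 L : ℂ} (hL : Tendsto (fun t => f t ^ 2) (𝓝[≠] t0) (𝓝 L)) :
    ∃ g : ℂ → ℂ, Meromorphic g ∧ AnalyticAt ℂ g t0 ∧ g t0 ^ 2 = L ∧
      ∀ᶠ t in codiscrete ℂ, g t = f t := by
  have h1 : 0 ≤ meromorphicOrderAt f t0 := not_lt.1 fun k => by
    have h2 := tendsto_norm_atTop_iff_cobounded.2 (tendsto_cobounded_of_meromorphicOrderAt_neg k)
    have h3 := hL.norm
    simp only [norm_pow] at h3
    exact not_tendsto_atTop_of_tendsto_nhds h3 ((tendsto_pow_atTop two_ne_zero).comp h2)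
  have h2 := (hf t0).meromorphicOrderAt_nonneg_iff_analyticAt_toMeromorphicNFAt.1 h1
  have h3 : ∀ x, ∀ᶠ t in 𝓝[≠] x, f t = toMeromorphicNFAt f t0 t := fun x => by
    have h4 : ∀ᶠ t in 𝓝[≠] x, t ≠ t0 := by
      rcases eq_or_ne x t0 with rfl | hx
      exacts [self_mem_nhdsWithin, eventually_ne_nhdsWithin hx]
    exact h4.mono fun t ht => (hf t0).eqOn_compl_singleton_toMeromorphicNFAt ht
  refine ⟨toMeromorphicNFAt f t0, fun x => (hf x).congr (h3 x), h2, ?_,
    codis_iff.2 fun x => (h3 x).mono fun t ht => ht.symm⟩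
  exact tendsto_nhds_unique ((h2.continuousAt.tendsto.pow 2).mono_left nhdsWithin_le_nhds)
    (hL.congr' ((h3 t0).mono fun t ht => by simp only [ht]))

end Pool.Agent.Work.MP_677830_co.G
end

-- merged part: Pool.Agent.Work.MP_677830_co.G.PlaceR
section
/-!
# Local inequalities at ordinary points and at branch points
place_log: the first half of the proof of place in G/Place (the statement hL there).
place_ram: place_frame2 for z at 0; even_mu (card = q^2 is odd; shift g by the frame weights);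
y' i s = y i (-s), u' i s = u i (-s), D' k s = D k (-s), w i s = z i (-s), v' i s = deriv (z i) (-s)
(ev_neg, ge_cneg for Cfg and Vel); η i s = (y i (-s) - y i s) / s, ε s = s (ge_id, ge_odd with m = 0
for y i and m = μ i k for y i - y k); loc_diag_frame.
-/

namespace Pool.Agent.Work.MP_677830_co.G

open Filter Topology Polynomial Matrix MeasureTheory
open scoped ComplexConjugate ComplexOrder

theorem place_log {q : ℕ} (hq : 10 ^ 13 ≤ q) (z w : Ix q → ℂ → ℂ) (v : ℂ)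
    (hz : ∀ i, MeromorphicAt (z i) v) (hw : ∀ i, MeromorphicAt (w i) v) (g : Ix q → ℤ)
    (hpar : ∀ i k, i ≠ k →
      Even (ord (fun t => z i t - z k t) v + ord (fun t => w i t - w k t) v + g i + g k))
    (Φ Φ' : Finset (Ix q) → ℂ → ℝ) (hG : ∀ᶠ t in 𝓝[≠] v, Gd q z w Φ Φ' t) :
    (plS v).LogLe 0 fun t => Psi q (fun i => z i t) (fun i => w i t) (fun A => Φ A t)
      (fun A => Φ' A t) + c1 q * (LL (fun i => z i t) + LL fun i => w i t) := by
  have hN : 2 * q < Fintype.card (Ix q) := by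
    rw [Fintype.card_prod, Fintype.card_fin]
    exact Nat.mul_lt_mul_of_pos_right (by omega) (by omega)
  obtain ⟨R, y, u, D, g1, g0, hB, hc, hv, hF, hμ⟩ := place_frame (by omega) z v hz
    fun i k hik => hG.mono fun t ht h => hik (ht.2.1 h)
  obtain ⟨R', y', u', D', g1', g0', hB', hc', hv', hF', hμ'⟩ := place_frame (by omega) w v hw
    fun i k hik => hG.mono fun t ht h => hik (ht.2.2.1 h)
  have hp : ∀ i k, i ≠ k → Even ((R.μ i k : ℤ) + R'.μ i k + (g i - g1 i - g1' i) +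
      (g k - g1 k - g1' k) + (-g0 - g0')) := fun i k hik => by
    obtain ⟨r, hr⟩ := hpar i k hik
    exact ⟨r, by rw [hμ i k hik, hμ' i k hik]; linarith only [hr]⟩
  exact loc_frame hq hc hc' lev_id lev_id hv hv' hB hB' (Or.inr ⟨par R R' hB hB' _ _ hp hN,
    par R' R hB' hB _ _ (fun i k hik => by rw [add_comm (R'.μ i k : ℤ)]; exact hp i k hik) hN⟩)
    z w (fun i => deriv (z i)) (fun i => deriv (w i)) (fun t A => Φ A t) (fun t A => Φ' A t) (by
      filter_upwards [hG, hF, hF'] with t h1 h2 h3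
      exact ⟨h1.2.1, h1.2.2.1, h2, h3, h1.2.2.2.1,
        fun A hA => ⟨(h1.2.2.2.2 A hA).1.2.2, (h1.2.2.2.2 A hA).2.2.2⟩⟩)

theorem place_ram {q : ℕ} (hq : 10 ^ 13 ≤ q) (ho : Odd q) (z : Ix q → ℂ → ℂ)
    (hz : ∀ i, MeromorphicAt (z i) 0) (g : Ix q → ℤ)
    (hpar : ∀ i k, i ≠ k → Even (ord (fun s => z i s - z k s) 0 + g i + g k))
    (Φ : ℂ → Finset (Ix q) → ℝ)
    (hG : ∀ᶠ s in 𝓝[≠] (0 : ℂ), (Function.Injective fun i => z i s) ∧
      del q (fun i => z i s) (fun i => z i (-s)) ≠ 0 ∧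
      ∀ A ∈ samples q, HB (6 * q) A (fun i => z i s) (fun i => deriv (z i) s) (Φ s A)) :
    (plS 0).LogLe (24 * q) fun s => Psi q (fun i => z i s) (fun i => z i (-s)) (Φ s) (Φ (-s)) +
      c1 q * (LL (fun i => z i s) + LL fun i => z i (-s)) := by
  have hN : 2 * q < Fintype.card (Ix q) := by
    rw [Fintype.card_prod, Fintype.card_fin]
    exact Nat.mul_lt_mul_of_pos_right (by omega) (by omega)
  obtain ⟨R, y, u, D, g1, g0, hB, hc, hv, hF, hμ, hy, hμ'⟩ := place_frame2 (by omega) z 0 hz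
    fun i k hik => hG.mono fun t ht h => hik (ht.1 h)
  have he : ∀ i k, i ≠ k → Even (R.μ i k) := even_mu R hB
    (by rw [Fintype.card_prod, Fintype.card_fin]; exact ho.mul ho) (fun i => g i - g1 i) (-g0)
    fun i k hik => by
      obtain ⟨r, hr⟩ := hpar i k hik
      exact ⟨r, by rw [hμ i k hik]; linarith only [hr]⟩
  have hc' : Cfg (plS 0) R (fun s => s) fun i s => y i (-s) :=
    ⟨fun i => ge_cneg (hc.1 i), fun i k hik => ⟨ge_cneg (hc.2 i k hik).1,
      ge_cneg (hc.2 i k hik).2.1, ev_neg (hc.2 i k hik).2.2⟩⟩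
  have hv' : Vel (plS 0) R (fun s => s) 1 (fun i s => y i (-s)) (fun i s => u i (-s))
      fun k s => D k (-s) :=
    ⟨fun t => hv.1 (-t), fun s => ge_cneg (hv.2.1 s),
      fun i k hik s hs => ge_cneg (hv.2.2 i k hik s hs)⟩
  refine loc_diag_frame (η := fun i s => (y i (-s) - y i s) / s) hq hc hc' lev_id hv hv' hB he
    ge_id (fun i => ?_) (fun i k hik => ?_) ?_ z (fun i s => z i (-s)) (fun i => deriv (z i))
    (fun i s => deriv (z i) (-s)) Φ (fun s => Φ (-s)) ?_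
  · have h := ge_odd (hy i).1 (hy i).2.1 (m := 0) Even.zero (hy i).2.2
    rwa [Int.cast_zero] at h
  · have h := ge_odd ((hy i).1.fun_sub (hy k).1)
      ((hc.2 i k hik).2.2.mono fun t ht => sub_ne_zero.2 ht) (m := R.μ i k)
      ((Int.even_coe_nat _).2 (he i k hik)) (hμ' i k hik).le
    rw [Int.cast_natCast] at h
    exact h.congr (Eventually.of_forall fun t => by ring)
  · filter_upwards [self_mem_nhdsWithin (a := (0 : ℂ)) (s := {0}ᶜ)] with t ht i
    rw [mul_div_cancel₀ _ ht, add_sub_cancel]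
  · filter_upwards [hG, ev_neg hG, hF, ev_neg hF] with t h1 h2 h3 h4
    exact ⟨h1.1, h2.1, h3, h4, h1.2.1, fun A hA => ⟨h1.2.2 A hA, h2.2.2 A hA⟩⟩

end Pool.Agent.Work.MP_677830_co.G
end

-- merged part: Pool.Agent.Work.MP_677830_co.G.Core
section
/-!
# The core theorem
core1: φ r = sum over i of (TT (z i) r + TT (w i) r), monotone. For i outside the three indices
cr z (i, j1, j2, j3) = κ (z i - a1)/(z i - a2), κ = (a2 - a3)/(a1 - a3): tt_mob; constants: tt_const.
So φ r ≤ C + N * (bound of core_ineq) at radii outside Z = norms of bad points (countable);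
ldl for every difference with ε small, tt_sub; iter; bdd_const.
core: gh for every sample and for z, w (choose); good set codiscrete (injectivity from hne, finite
intersections, eventually_all); pick a good t0, translate everything by t0 (sm_shift, ord_shift,
mer_shift, codis_shift, deriv_comp_add_const), core1, translate back.
-/

namespace Pool.Agent.Work.MP_677830_co.G

open Filter Topology Polynomial Matrix MeasureTheory
open scoped ComplexConjugate ComplexOrder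

variable {q : ℕ} {z w : Ix q → ℂ → ℂ}

theorem Core_one {u : Ix q → ℂ → ℂ} (hu : ∀ i, Meromorphic (u i))
    (hi : ∀ᶠ t in codiscrete ℂ, Function.Injective fun i => u i t) (J : Fin 3 ↪ Ix q)
    (a : Fin 3 → ℂ) (hJ : ∀ m t, u (J m) t = a m) (i : Ix q) :
    ∃ C : ℝ, ∀ r, 1 ≤ r → TT (u i) r ≤
      C + TT (fun t => cr (fun i => u i t) (i, J 0, J 1, J 2)) r := by
  have := codis_neBot
  by_cases h : i = J 1
  · refine ⟨Real.posLog ‖a 1‖, fun r hr => ?_⟩
    have e : u i = fun _ => a 1 := by rw [h]; exact funext (hJ 1)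
    rw [e, tt_const]
    exact le_add_of_nonneg_right (tt_nonneg _ hr)
  · obtain ⟨t0, ht0⟩ := hi.exists
    have ha : ∀ m m', m ≠ m' → a m ≠ a m' := by
      intro m m' hm e
      rw [← hJ m t0, ← hJ m' t0] at e
      exact hm (J.injective (ht0 e))
    have h01 := ha 0 1 (by decide)
    have h12 := sub_ne_zero.2 (ha 1 2 (by decide))
    have h02 := sub_ne_zero.2 (ha 0 2 (by decide))
    have hne : ∀ᶠ t in codiscrete ℂ, u i t ≠ a 1 := by
      filter_upwards [hi] with t ht e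
      rw [← hJ 1 t] at e
      exact h (ht e)
    obtain ⟨C, hC⟩ := tt_mob (g := fun t => cr (fun i => u i t) (i, J 0, J 1, J 2)) (hu i)
      (κ := (a 1 - a 2) / (a 0 - a 2)) h01 (div_ne_zero h12 h02) hne (by
        filter_upwards [hne] with t ht
        have := sub_ne_zero.2 ht
        simp only [cr, hJ]
        field_simp)
    exact ⟨C, fun r hr => by linarith [hC r hr]⟩

theorem Core_ldl {u : Ix q → ℂ → ℂ} (hu : ∀ i, Meromorphic (u i))
    (hi : ∀ᶠ t in codiscrete ℂ, Function.Injective fun i => u i t) {ε : ℝ} (hε : 0 < ε)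
    (x : Ix q × Ix q) : ∃ C : ℝ, x.1 ≠ x.2 → ∀ r R : ℝ, 1 ≤ r → r < R → R ≤ 2 * r →
      mld (fun t => u x.1 t - u x.2 t) r ≤
        C + Real.log (R / (R - r)) + ε * (TT (u x.1) R + TT (u x.2) R) := by
  by_cases h : x.1 = x.2
  · exact ⟨0, fun h' => absurd h h'⟩
  · obtain ⟨C, hC⟩ := ldl (f := fun t => u x.1 t - u x.2 t) (fun t => (hu _ t).sub (hu _ t))
      (by filter_upwards [hi] with t ht e using h (ht (sub_eq_zero.1 e))) hε
    refine ⟨C + ε * Real.log 2, fun _ r R h1 h2 h3 => ?_⟩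
    have := hC r R h1 h2 h3
    have h4 := mul_le_mul_of_nonneg_left (tt_sub (hu x.1) (hu x.2) (h1.trans h2.le)) hε.le
    linarith only [this, h4]

theorem core1 (hq : 10 ^ 13 ≤ q) (hz : ∀ i, Meromorphic (z i)) (hw : ∀ i, Meromorphic (w i))
    (hpar : ∀ v, ∃ g : Ix q → ℤ, ∀ i k, i ≠ k →
      Even (ord (fun t => z i t - z k t) v + ord (fun t => w i t - w k t) v + g i + g k))
    {Φ Φ' : Finset (Ix q) → ℂ → ℝ} (hG : ∀ᶠ t in codiscrete ℂ, Gd q z w Φ Φ' t)
    (h0 : Gd q z w Φ Φ' 0) (J : Fin 3 ↪ Ix q) (a b : Fin 3 → ℂ)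
    (hJ : ∀ m t, z (J m) t = a m ∧ w (J m) t = b m) (i : Ix q) :
    (∃ c : ℂ, ∀ᶠ t in codiscrete ℂ, z i t = c) ∧ ∃ c : ℂ, ∀ᶠ t in codiscrete ℂ, w i t = c := by
  obtain ⟨C, K, hK, hmain⟩ := core_ineq hq hz hw hpar hG h0
  have iz : ∀ᶠ t in codiscrete ℂ, Function.Injective fun i => z i t := hG.mono fun t h => h.2.1
  have iw : ∀ᶠ t in codiscrete ℂ, Function.Injective fun i => w i t := hG.mono fun t h => h.2.2.1
  choose Cz hCz using Core_one hz iz J a fun m t => (hJ m t).1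
  choose Cw hCw using Core_one hw iw J b fun m t => (hJ m t).2
  obtain ⟨N, hN⟩ : ∃ N : ℝ, N = (Finset.univ : Finset (Ix q)).card := ⟨_, rfl⟩
  obtain ⟨M, hM⟩ : ∃ M : ℝ, M = (Finset.univ : Finset (Ix q)).offDiag.card := ⟨_, rfl⟩
  have hN0 : 0 ≤ N := by rw [hN]; positivity
  have hM0 : 0 ≤ M := by rw [hM]; positivity
  have hP : 0 ≤ N * K * M := by positivity
  obtain ⟨ε, hε, hε'⟩ : ∃ ε : ℝ, 0 < ε ∧ N * K * M * (2 * ε) < 1 := by
    refine ⟨1 / (2 * (N * K * M) + 1), by positivity, ?_⟩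
    rw [show N * K * M * (2 * (1 / (2 * (N * K * M) + 1))) =
      2 * (N * K * M) / (2 * (N * K * M) + 1) by ring, div_lt_one (by positivity)]
    linarith only []
  choose Dz hDz using Core_ldl hz iz hε
  choose Dw hDw using Core_ldl hw iw hε
  set φ : ℝ → ℝ := fun r => ∑ i, (TT (z i) r + TT (w i) r) with hφ
  have hle : ∀ r, 1 ≤ r → ∀ i, TT (z i) r + TT (w i) r ≤ φ r := fun r hr i =>
    Finset.single_le_sum (f := fun i => TT (z i) r + TT (w i) r)
      (fun k _ => add_nonneg (tt_nonneg _ hr) (tt_nonneg _ hr)) (Finset.mem_univ i)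
  have hmono : MonotoneOn φ (Set.Ici 1) := fun r hr R hR h =>
    Finset.sum_le_sum fun k _ => add_le_add (tt_mono (hz k) hr hR h) (tt_mono (hw k) hr hR h)
  obtain ⟨B, hB⟩ := iter (φ := φ) hmono ((codis_countable hG).image fun t => ‖t‖)
    (C := ∑ i, (Cz i + Cw i) + N * (C + K * ∑ x ∈ (Finset.univ : Finset (Ix q)).offDiag,
      (Dz x + Dw x))) (K := N * K * M * 2) (θ := N * K * M * (2 * ε)) (by positivity)
    (by positivity) hε' (by
      intro r R hr h1 h2 h3
      have hgood : ∀ t, ‖t‖ = r → Gd q z w Φ Φ' t := by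
        intro t ht
        by_contra hc
        exact hr ⟨t, hc, ht⟩
      have hR : 1 ≤ R := h1.trans h2.le
      have s1 : ∑ x ∈ (Finset.univ : Finset (Ix q)).offDiag,
          (mld (fun t => z x.1 t - z x.2 t) r + mld (fun t => w x.1 t - w x.2 t) r) ≤
          ∑ x ∈ (Finset.univ : Finset (Ix q)).offDiag,
            ((Dz x + Dw x) + (2 * Real.log (R / (R - r)) + 2 * ε * φ R)) := by
        refine Finset.sum_le_sum fun x hx => ?_
        have hx' := (Finset.mem_offDiag.1 hx).2.2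
        have e1 := hDz x hx' r R h1 h2 h3
        have e2 := hDw x hx' r R h1 h2 h3
        have e3 := mul_le_mul_of_nonneg_left (add_le_add (hle R hR x.1) (hle R hR x.2)) hε.le
        linarith only [e1, e2, e3]
      rw [Finset.sum_add_distrib (f := fun x => Dz x + Dw x), Finset.sum_const, nsmul_eq_mul,
        ← hM] at s1
      have s2 : φ r ≤ ∑ i : Ix q, ((Cz i + Cw i) + (C + K * (∑ x ∈
          (Finset.univ : Finset (Ix q)).offDiag, (Dz x + Dw x) +
            M * (2 * Real.log (R / (R - r)) + 2 * ε * φ R)))) := by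
        refine Finset.sum_le_sum fun k _ => ?_
        have e1 := hCz k r h1
        have e2 := hCw k r h1
        have e3 := hmain r h1 hgood (k, J 0, J 1, J 2)
        have e4 := mul_le_mul_of_nonneg_left s1 hK
        linarith only [e1, e2, e3, e4]
      rw [Finset.sum_add_distrib (f := fun i => Cz i + Cw i), Finset.sum_const, nsmul_eq_mul,
        ← hN] at s2
      linarith only [s2])
  refine ⟨bdd_const (hz i) (B := B) fun r hr => ?_, bdd_const (hw i) (B := B) fun r hr => ?_⟩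
  · linarith [hle r hr i, hB r hr, tt_nonneg (w i) hr]
  · linarith [hle r hr i, hB r hr, tt_nonneg (z i) hr]

theorem Core_shift {Φ Φ' : Finset (Ix q) → ℂ → ℝ} {t a : ℂ} (h : Gd q z w Φ Φ' (t + a)) :
    Gd q (fun i s => z i (s + a)) (fun i s => w i (s + a)) (fun A s => Φ A (s + a))
      (fun A s => Φ' A (s + a)) t := by
  obtain ⟨h1, h2, h3, h4, h5⟩ := h
  have an : AnalyticAt ℂ (fun s : ℂ => s + a) t := analyticAt_id.add analyticAt_const
  have co : ContinuousAt (fun s : ℂ => s + a) t := an.continuousAt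
  refine ⟨fun i => ⟨(h1 i).1.comp_of_eq an rfl, (h1 i).2.comp_of_eq an rfl⟩, h2, h3, h4,
    fun A hA => ?_⟩
  obtain ⟨⟨g1, g2, g3⟩, g4, g5, g6⟩ := h5 A hA
  refine ⟨⟨g1.comp_of_eq co rfl, (sm_shift a).2 g2, ?_⟩, g4.comp_of_eq co rfl, (sm_shift a).2 g5, ?_⟩
  · simpa only [deriv_comp_add_const] using g3
  · simpa only [deriv_comp_add_const] using g6

theorem core (hq : 10 ^ 13 ≤ q) (hz : ∀ i, Meromorphic (z i)) (hw : ∀ i, Meromorphic (w i))
    (hne : ∀ i k, i ≠ k → ∀ᶠ t in codiscrete ℂ, z i t ≠ z k t ∧ w i t ≠ w k t)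
    (hpar : ∀ v, ∃ g : Ix q → ℤ, ∀ i k, i ≠ k →
      Even (ord (fun t => z i t - z k t) v + ord (fun t => w i t - w k t) v + g i + g k))
    (hd : ∀ᶠ t in codiscrete ℂ, del q (fun i => z i t) (fun i => w i t) ≠ 0)
    (J : Fin 3 ↪ Ix q) (a b : Fin 3 → ℂ) (hJ : ∀ m t, z (J m) t = a m ∧ w (J m) t = b m)
    (i : Ix q) :
    (∃ c : ℂ, ∀ᶠ t in codiscrete ℂ, z i t = c) ∧ ∃ c : ℂ, ∀ᶠ t in codiscrete ℂ, w i t = c := by
  have := codis_neBot
  have key : ∀ u : Ix q → ℂ → ℂ, (∀ i, Meromorphic (u i)) →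
      (∀ i k, i ≠ k → ∀ᶠ t in codiscrete ℂ, u i t ≠ u k t) →
      (∀ᶠ t in codiscrete ℂ, Function.Injective fun i => u i t) ∧
      ∃ Φ : Finset (Ix q) → ℂ → ℝ, ∀ᶠ t in codiscrete ℂ, ∀ A ∈ samples q,
        ContinuousAt (Φ A) t ∧ SM (Φ A) t ∧
          HB (6 * q) A (fun i => u i t) (fun i => deriv (u i) t) (Φ A t) := by
    intro u hu hn
    constructor
    · have : ∀ᶠ t in codiscrete ℂ, ∀ i k, i ≠ k → u i t ≠ u k t := by
        refine eventually_all.2 fun i => eventually_all.2 fun k => ?_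
        by_cases h : i = k
        · exact Eventually.of_forall fun t h' => absurd h h'
        · exact (hn i k h).mono fun t ht _ => ht
      filter_upwards [this] with t ht i k e
      by_contra hc
      exact ht i k hc e
    · have : ∀ A : Finset (Ix q), ∃ Φ : ℂ → ℝ, A ∈ samples q → ∀ᶠ t in codiscrete ℂ,
          ContinuousAt Φ t ∧ SM Φ t ∧
            HB (6 * q) A (fun i => u i t) (fun i => deriv (u i) t) (Φ t) := by
        intro A
        by_cases hA : A ∈ samples q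
        · have hc : A.card = 4 * (6 * q) := by
            rw [(Finset.mem_powersetCard.1 hA).2]; ring
          obtain ⟨Φ, hΦ⟩ := gh (p := 6 * q) (by omega) hc u hu hn
          exact ⟨Φ, fun _ => hΦ⟩
        · exact ⟨0, fun h => absurd h hA⟩
      choose Φ hΦ using this
      exact ⟨Φ, (eventually_all_finset _).2 hΦ⟩
  obtain ⟨iz, Φ, hΦ⟩ := key z hz fun i k h => (hne i k h).mono fun t ht => ht.1
  obtain ⟨iw, Φ', hΦ'⟩ := key w hw fun i k h => (hne i k h).mono fun t ht => ht.2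
  have han : ∀ᶠ t in codiscrete ℂ, ∀ i, AnalyticAt ℂ (z i) t ∧ AnalyticAt ℂ (w i) t :=
    eventually_all.2 fun i => (mer_an (hz i)).and (mer_an (hw i))
  have hG : ∀ᶠ t in codiscrete ℂ, Gd q z w Φ Φ' t := by
    filter_upwards [iz, iw, hΦ, hΦ', han, hd] with t h1 h2 h3 h4 h5 h6
    exact ⟨h5, h1, h2, h6, fun A hA => ⟨h3 A hA, h4 A hA⟩⟩
  obtain ⟨t0, ht0⟩ := hG.exists
  obtain ⟨⟨c, hc⟩, c', hc'⟩ := core1 (z := fun i s => z i (s + t0)) (w := fun i s => w i (s + t0))
    hq (fun i => mer_shift (hz i) t0) (fun i => mer_shift (hw i) t0) (by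
      intro v
      obtain ⟨g, hg⟩ := hpar (v + t0)
      refine ⟨g, fun i k h => ?_⟩
      have := hg i k h
      rw [← ord_shift, ← ord_shift] at this
      exact this)
    ((codis_shift hG t0).mono fun t ht => Core_shift ht)
    (Core_shift (by rw [zero_add]; exact ht0)) J a b (fun m t => hJ m _) i
  refine ⟨⟨c, ?_⟩, c', ?_⟩
  · filter_upwards [codis_shift hc (-t0)] with t ht
    simpa using ht
  · filter_upwards [codis_shift hc' (-t0)] with t ht
    simpa using ht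

end Pool.Agent.Work.MP_677830_co.G
end
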