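import Pool.Agent.Work.MP_677830_co.G.Geo
import Pool.Agent.Work.MP_677830_co.G.OT2

/-!
# The geometric obstacle
geo, exists_type d0, real_curve; the squared distance of two distinct real points is nonzero.
-/

namespace Pool.Agent.Work.MP_677830_co.G

open Filter Topology Polynomial Matrix MeasureTheory
open scoped ComplexConjugate ComplexOrder

theorem geoB : ∃ (m : ℕ) (S : Fin m → ℝ × ℝ), 3 ≤ m ∧ Function.Injective S ∧
    (∀ a b c, a ≠ b → b ≠ c → a ≠ c → ori (S a) (S b) (S c) ≠ 0) ∧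
    ∀ (x y : Fin m → ℂ → ℂ) (d : Fin m → Fin m → ℂ → ℂ) (t0 : ℂ) (P : Fin m → ℝ × ℝ),
      (∀ a, Meromorphic (x a) ∧ Meromorphic (y a)) → (∀ a b, Meromorphic (d a b)) →
      (∀ a b, ∀ᶠ t in codiscrete ℂ, (x a t - x b t) ^ 2 + (y a t - y b t) ^ 2 = d a b t ^ 2) →
      (∀ a, AnalyticAt ℂ (x a) t0 ∧ AnalyticAt ℂ (y a) t0 ∧ x a t0 = (P a).1 ∧ y a t0 = (P a).2) →
      (∀ a b c, SignType.sign (ori (P a) (P b) (P c)) = SignType.sign (ori (S a) (S b) (S c))) →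
      ∀ a b c e, c ≠ e → ∃ κ : ℂ, ∀ᶠ t in codiscrete ℂ, d a b t = κ * d c e t := by
  obtain ⟨d0, hgeo⟩ := geo
  obtain ⟨m, S, h3, hS, hgp, hT⟩ := exists_type d0
  refine ⟨m, S, h3, hS, hgp, ?_⟩
  intro x y d t0 P hxy hd he h0 hsg
  obtain ⟨hP, hF⟩ := hT P hsg
  refine hgeo m x y d t0 hxy hd he (fun a => ⟨(h0 a).1, (h0 a).2.1⟩) ?_ ?_
  · intro a b hab h
    rw [(h0 a).2.2.1, (h0 a).2.2.2, (h0 b).2.2.1, (h0 b).2.2.2] at h
    have h' : ((P a).1 - (P b).1) ^ 2 + ((P a).2 - (P b).2) ^ 2 = (0 : ℝ) := by exact_mod_cast h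
    apply hab
    apply hP
    have h1 : (P a).1 - (P b).1 = 0 := by nlinarith [sq_nonneg ((P a).1 - (P b).1), sq_nonneg ((P a).2 - (P b).2)]
    have h2 : (P a).2 - (P b).2 = 0 := by nlinarith [sq_nonneg ((P a).1 - (P b).1), sq_nonneg ((P a).2 - (P b).2)]
    exact Prod.ext (by linarith) (by linarith)
  · intro F hF0 hFd
    obtain ⟨G, hG0, hGd, hG⟩ := real_curve F hF0
    obtain ⟨a, ha⟩ := hF G hG0 (hGd.trans hFd)
    refine ⟨a, fun h => ha ?_⟩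
    rw [(h0 a).2.2.1, (h0 a).2.2.2] at h
    exact hG _ _ h

end Pool.Agent.Work.MP_677830_co.G
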