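import Pool.Agent.Work.MP_677830_co.G.Core
import Pool.Agent.Work.MP_677830_co.G.An

/-!
# Families with meromorphic distances
geo: q = 10^13 (keep it abstract), d0 = 2q. Fix c ≠ e. z = x + I y, w = x - I y;
Z a = (z a - z c)/(z e - z c) with Z c = 0, Z e = 1 put by hand, W likewise; c0 different from all
Z a t0, W a t0. Index set Option (Fin m): ζ none = 0, ζ (some a) = (Z a - c0)⁻¹, ω likewise. At t0 they
are analytic, injective; hn of sel from curve and hcurve. For a given a apply sel with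
J = {none, some c, some e, some a} and core to the selected functions (parity: g none = 0,
g (some a) = ord (Z a - c0) + ord (W a - c0); (Z a - Z b)(W a - W b) = (d a b / d c e)^2). So Z a, W a are
eventually constant, (d a b)^2 = k (d c e)^2, (d a b - κ d c e)(d a b + κ d c e) = 0, mer_dich.
geoA: if the second alternative fails there is a t0 without curve at which everything is analytic
and all d a b t0 ≠ 0.
-/

namespace Pool.Agent.Work.MP_677830_co.G

open Filter Topology Polynomial Matrix MeasureTheory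
open scoped ComplexConjugate ComplexOrder

theorem sq_ratio {f g : ℂ → ℂ} (hf : Meromorphic f) (hg : Meromorphic g) {k : ℂ}
    (h : ∀ᶠ t in codiscrete ℂ, f t ^ 2 = k * g t ^ 2) :
    ∃ κ : ℂ, ∀ᶠ t in codiscrete ℂ, f t = κ * g t := by
  obtain ⟨κ, hκ⟩ := IsAlgClosed.exists_pow_nat_eq k (by norm_num : 0 < 2)
  have hm : Meromorphic fun t => f t - κ * g t := fun t => (hf t).sub ((MeromorphicAt.const κ t).mul (hg t))
  rcases mer_dich hm with h1 | h1
  · refine ⟨-κ, ?_⟩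
    filter_upwards [h, h1] with t ht ht1
    have : (f t - κ * g t) * (f t + κ * g t) = 0 := by rw [← hκ] at ht; linear_combination ht
    rcases mul_eq_zero.1 this with h2 | h2
    · exact absurd h2 ht1
    · linear_combination h2
  · refine ⟨κ, ?_⟩
    filter_upwards [h1] with t ht
    linear_combination ht

theorem Geo_ord {f g : ℂ → ℂ} (hf : Meromorphic f) (hg : Meromorphic g) (c0 : ℂ)
    (h1 : ∀ᶠ t in codiscrete ℂ, f t - c0 ≠ 0) (h2 : ∀ᶠ t in codiscrete ℂ, g t - c0 ≠ 0)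
    (h3 : ∀ᶠ t in codiscrete ℂ, f t - g t ≠ 0) (v : ℂ) :
    ord (fun t => (f t - c0)⁻¹ - (g t - c0)⁻¹) v =
      ord (fun t => f t - g t) v - ord (fun t => f t - c0) v - ord (fun t => g t - c0) v := by
  have k1 := codis_iff.1 h1 v
  have k2 := codis_iff.1 h2 v
  have k3 := codis_iff.1 h3 v
  have m1 : MeromorphicAt (fun t => f t - c0) v := (hf v).sub (MeromorphicAt.const c0 v)
  have m2 : MeromorphicAt (fun t => g t - c0) v := (hg v).sub (MeromorphicAt.const c0 v)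
  have m3 : MeromorphicAt (fun t => f t - g t) v := (hf v).sub (hg v)
  have e : (fun t => (f t - c0)⁻¹ - (g t - c0)⁻¹) =ᶠ[𝓝[≠] v]
      fun t => -((f t - g t) / (f t - c0) / (g t - c0)) := by
    filter_upwards [k1, k2] with t a b
    field_simp
    ring
  have k4 : ∀ᶠ t in 𝓝[≠] v, (f t - g t) / (f t - c0) ≠ 0 := by
    filter_upwards [k1, k3] with t a b using div_ne_zero b a
  rw [ord_congr e, ord_neg (fun t => (f t - g t) / (f t - c0) / (g t - c0)),
    ord_div (f := fun t => (f t - g t) / (f t - c0)) (m3.div m1) m2 k4 k2, ord_div m3 m1 k3 k1]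

theorem Geo_main {q : ℕ} (hq : 10 ^ 13 ≤ q) {m : ℕ} (Z W : Fin m → ℂ → ℂ)
    (D : Fin m → Fin m → ℂ → ℂ) (t0 : ℂ) {c e : Fin m} (hce : c ≠ e)
    (hZ : ∀ a, Meromorphic (Z a)) (hW : ∀ a, Meromorphic (W a)) (hD : ∀ a b, Meromorphic (D a b))
    (aZ : ∀ a, AnalyticAt ℂ (Z a) t0) (aW : ∀ a, AnalyticAt ℂ (W a) t0)
    (hc : ∀ t, Z c t = 0 ∧ W c t = 0) (he : ∀ t, Z e t = 1 ∧ W e t = 1)
    (hDe : ∀ a b, ∀ᶠ t in codiscrete ℂ, (Z a t - Z b t) * (W a t - W b t) = D a b t ^ 2)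
    (hinj : ∀ a b, a ≠ b → Z a t0 ≠ Z b t0 ∧ W a t0 ≠ W b t0) (c0 : ℂ)
    (hc0 : ∀ a, Z a t0 ≠ c0 ∧ W a t0 ≠ c0)
    (hn : ∀ f : Ix q → ℂ, (∀ a, ∑ x, f x * ((Z a t0 - c0)⁻¹ ^ (x.1 : ℕ) *
      (W a t0 - c0)⁻¹ ^ (x.2 : ℕ)) = 0) → f = 0) (a : Fin m) :
    (∃ k : ℂ, ∀ᶠ t in codiscrete ℂ, Z a t = k) ∧ ∃ k : ℂ, ∀ᶠ t in codiscrete ℂ, W a t = k := by
  classical
  -- generic facts for one family
  have key : ∀ Y : Fin m → ℂ → ℂ, (∀ a, Meromorphic (Y a)) → (∀ a, AnalyticAt ℂ (Y a) t0) →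
      (∀ a b, a ≠ b → Y a t0 ≠ Y b t0) → (∀ a, Y a t0 ≠ c0) →
      (∀ o : Option (Fin m), Meromorphic (fun t => o.elim (0 : ℂ) fun a => (Y a t - c0)⁻¹) ∧
        AnalyticAt ℂ (fun t => o.elim (0 : ℂ) fun a => (Y a t - c0)⁻¹) t0) ∧
      (Function.Injective fun o : Option (Fin m) => o.elim (0 : ℂ) fun a => (Y a t0 - c0)⁻¹) := by
    intro Y hY aY iY cY
    refine ⟨?_, ?_⟩
    · rintro (_ | b)
      · exact ⟨fun t => MeromorphicAt.const 0 t, analyticAt_const⟩
      · exact ⟨fun t => ((hY b t).sub (MeromorphicAt.const c0 t)).inv,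
          ((aY b).sub analyticAt_const).inv (sub_ne_zero.2 (cY b))⟩
    · rintro (_ | b) (_ | b') h
      · rfl
      · exact absurd h.symm (inv_ne_zero (sub_ne_zero.2 (cY b')))
      · exact absurd h (inv_ne_zero (sub_ne_zero.2 (cY b)))
      · by_contra hne
        have hb : b ≠ b' := fun h' => hne (by rw [h'])
        exact iY b b' hb (sub_left_injective (inv_injective h))
  obtain ⟨mζ, iζ⟩ := key Z hZ aZ (fun a b h => (hinj a b h).1) fun a => (hc0 a).1
  obtain ⟨mω, iω⟩ := key W hW aW (fun a b h => (hinj a b h).2) fun a => (hc0 a).2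
  set ζ : Option (Fin m) → ℂ → ℂ := fun o t => o.elim (0 : ℂ) fun a => (Z a t - c0)⁻¹ with hζ
  set ω : Option (Fin m) → ℂ → ℂ := fun o t => o.elim (0 : ℂ) fun a => (W a t - c0)⁻¹ with hω
  have hcard : ({none, some c, some e, some a} : Finset (Option (Fin m))).card ≤ q :=
    Finset.card_le_four.trans (le_trans (by norm_num) hq)
  obtain ⟨E, hE, hdel⟩ := sel (q := q) (fun o => ζ o t0) (fun o => ω o t0)
    (fun f hf => hn f fun b => hf (some b)) {none, some c, some e, some a} hcard iζ.injOn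
  obtain ⟨i0, hi0⟩ := hE none (by simp)
  obtain ⟨i1, hi1⟩ := hE (some c) (by simp)
  obtain ⟨i2, hi2⟩ := hE (some e) (by simp)
  obtain ⟨i3, hi3⟩ := hE (some a) (by simp)
  have n01 : i0 ≠ i1 := fun h => by rw [h, hi1] at hi0; exact absurd hi0 (by simp)
  have n02 : i0 ≠ i2 := fun h => by rw [h, hi2] at hi0; exact absurd hi0 (by simp)
  have n12 : i1 ≠ i2 := fun h => by rw [h, hi2] at hi1; exact hce (Option.some_injective _ hi1).symm
  let J : Fin 3 ↪ Ix q := ⟨![i0, i1, i2], by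
    clear * - q i0 i1 i2 n01 n02 m E c hi0 hi1 n12 e hi2 hce
    intro u v h
    fin_cases u <;> fin_cases v <;> simp_all⟩
  have nZ : ∀ b, ∀ᶠ t in codiscrete ℂ, Z b t - c0 ≠ 0 := fun b =>
    mer_ne_of_at (f := fun t => Z b t - c0) (fun t => (hZ b t).sub (MeromorphicAt.const c0 t))
      ((aZ b).sub analyticAt_const) (sub_ne_zero.2 (hc0 b).1)
  have nW : ∀ b, ∀ᶠ t in codiscrete ℂ, W b t - c0 ≠ 0 := fun b =>
    mer_ne_of_at (f := fun t => W b t - c0) (fun t => (hW b t).sub (MeromorphicAt.const c0 t))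
      ((aW b).sub analyticAt_const) (sub_ne_zero.2 (hc0 b).2)
  have dZ : ∀ b b', b ≠ b' → ∀ᶠ t in codiscrete ℂ, Z b t - Z b' t ≠ 0 := fun b b' h =>
    mer_ne_of_at (f := fun t => Z b t - Z b' t) (fun t => (hZ b t).sub (hZ b' t))
      ((aZ b).sub (aZ b')) (sub_ne_zero.2 (hinj b b' h).1)
  have dW : ∀ b b', b ≠ b' → ∀ᶠ t in codiscrete ℂ, W b t - W b' t ≠ 0 := fun b b' h =>
    mer_ne_of_at (f := fun t => W b t - W b' t) (fun t => (hW b t).sub (hW b' t))
      ((aW b).sub (aW b')) (sub_ne_zero.2 (hinj b b' h).2)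
  have main := core (q := q) (z := fun i => ζ (E i)) (w := fun i => ω (E i)) hq
    (fun i => (mζ _).1) (fun i => (mω _).1) ?_ ?_ ?_ J ![0, (0 - c0)⁻¹, (1 - c0)⁻¹]
    ![0, (0 - c0)⁻¹, (1 - c0)⁻¹] ?_ i3
  · obtain ⟨⟨k, hk⟩, ⟨k', hk'⟩⟩ := main
    rw [hi3] at hk hk'
    refine ⟨⟨c0 + k⁻¹, ?_⟩, ⟨c0 + k'⁻¹, ?_⟩⟩
    · filter_upwards [hk] with t ht
      have : (Z a t - c0)⁻¹ = k := ht
      rw [← this, inv_inv]; ring
    · filter_upwards [hk'] with t ht
      have : (W a t - c0)⁻¹ = k' := ht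
      rw [← this, inv_inv]; ring
  · intro i k hik
    have hne : E i ≠ E k := fun h => hik (E.injective h)
    have h1 := mer_ne_of_at (f := fun t => ζ (E i) t - ζ (E k) t)
      (fun t => ((mζ _).1 t).sub ((mζ _).1 t)) ((mζ _).2.sub (mζ _).2)
      (sub_ne_zero.2 fun h => hne (iζ h))
    have h2 := mer_ne_of_at (f := fun t => ω (E i) t - ω (E k) t)
      (fun t => ((mω _).1 t).sub ((mω _).1 t)) ((mω _).2.sub (mω _).2)
      (sub_ne_zero.2 fun h => hne (iω h))
    filter_upwards [h1, h2] with t a b using ⟨sub_ne_zero.1 a, sub_ne_zero.1 b⟩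
  · intro v
    refine ⟨fun i => (E i).elim 0 fun b =>
      ord (fun t => Z b t - c0) v + ord (fun t => W b t - c0) v, fun i k hik => ?_⟩
    have hne : E i ≠ E k := fun h => hik (E.injective h)
    beta_reduce
    generalize E i = o at hne ⊢
    generalize E k = o' at hne ⊢
    rcases o with _ | b <;> rcases o' with _ | b'
    · exact absurd rfl hne
    · simp only [hζ, hω, Option.elim, zero_sub]
      rw [ord_neg (fun t => (Z b' t - c0)⁻¹), ord_neg (fun t => (W b' t - c0)⁻¹),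
        ord_inv (fun t => Z b' t - c0), ord_inv (fun t => W b' t - c0)]
      exact ⟨0, by ring⟩
    · simp only [hζ, hω, Option.elim, sub_zero]
      rw [ord_inv (fun t => Z b t - c0), ord_inv (fun t => W b t - c0)]
      exact ⟨0, by ring⟩
    · have hb : b ≠ b' := fun h => hne (by rw [h])
      simp only [hζ, hω, Option.elim]
      rw [Geo_ord (hZ b) (hZ b') c0 (nZ b) (nZ b') (dZ b b' hb),
        Geo_ord (hW b) (hW b') c0 (nW b) (nW b') (dW b b' hb)]
      have k1 := codis_iff.1 (dZ b b' hb) v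
      have k2 := codis_iff.1 (dW b b' hb) v
      have k3 := codis_iff.1 (hDe b b') v
      have k4 : ∀ᶠ t in 𝓝[≠] v, D b b' t ≠ 0 := by
        filter_upwards [k1, k2, k3] with t a1 a2 a3 h
        rw [h] at a3
        exact mul_ne_zero a1 a2 (by rw [a3]; ring)
      have e1 := ord_mul (f := fun t => Z b t - Z b' t) (g := fun t => W b t - W b' t)
        ((hZ b v).sub (hZ b' v)) ((hW b v).sub (hW b' v)) k1 k2
      have e2 := ord_mul (hD b b' v) (hD b b' v) k4 k4
      have e3 : ord (fun t => (Z b t - Z b' t) * (W b t - W b' t)) v =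
          ord (fun t => D b b' t * D b b' t) v := by
        apply ord_congr
        filter_upwards [k3] with t ht
        rw [ht, sq]
      exact ⟨ord (D b b') v, by linarith⟩
  · refine mer_ne_of_at (f := fun t => del q (fun i => ζ (E i) t) fun i => ω (E i) t) ?_ ?_ hdel
    · intro t
      exact mer_det fun i ab => (((mζ _).1 t).pow _).mul (((mω _).1 t).pow _)
    · exact an_det fun i ab => ((mζ _).2.pow _).mul ((mω _).2.pow _)
  · intro u t
    fin_cases u
    · simp [J, hi0, hζ, hω]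
    · simp [J, hi1, hζ, hω, hc t]
    · simp [J, hi2, hζ, hω, he t]

theorem geo_q {q : ℕ} (hq : 10 ^ 13 ≤ q) :
    ∀ (m : ℕ) (x y : Fin m → ℂ → ℂ) (d : Fin m → Fin m → ℂ → ℂ) (t0 : ℂ),
    (∀ a, Meromorphic (x a) ∧ Meromorphic (y a)) → (∀ a b, Meromorphic (d a b)) →
    (∀ a b, ∀ᶠ t in codiscrete ℂ, (x a t - x b t) ^ 2 + (y a t - y b t) ^ 2 = d a b t ^ 2) →
    (∀ a, AnalyticAt ℂ (x a) t0 ∧ AnalyticAt ℂ (y a) t0) →
    (∀ a b, a ≠ b → (x a t0 - x b t0) ^ 2 + (y a t0 - y b t0) ^ 2 ≠ 0) →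
    (∀ F : MvPolynomial (Fin 2) ℂ, F ≠ 0 → F.totalDegree ≤ 2 * q →
      ∃ a, MvPolynomial.eval ![x a t0, y a t0] F ≠ 0) →
    ∀ a b c e, c ≠ e → ∃ κ : ℂ, ∀ᶠ t in codiscrete ℂ, d a b t = κ * d c e t := by
  classical
  intro m x y d t0 hxy hd he h0 hne hF a b c e hce
  set z : Fin m → ℂ → ℂ := fun a t => x a t + Complex.I * y a t with hz
  set w : Fin m → ℂ → ℂ := fun a t => x a t - Complex.I * y a t with hw
  have mz : ∀ a, Meromorphic (z a) := fun a t =>
    ((hxy a).1 t).add ((MeromorphicAt.const _ t).mul ((hxy a).2 t))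
  have mw : ∀ a, Meromorphic (w a) := fun a t =>
    ((hxy a).1 t).sub ((MeromorphicAt.const _ t).mul ((hxy a).2 t))
  have az : ∀ a, AnalyticAt ℂ (z a) t0 := fun a => (h0 a).1.add (analyticAt_const.mul (h0 a).2)
  have aw : ∀ a, AnalyticAt ℂ (w a) t0 := fun a => (h0 a).1.sub (analyticAt_const.mul (h0 a).2)
  have prod : ∀ a b t, (z a t - z b t) * (w a t - w b t) =
      (x a t - x b t) ^ 2 + (y a t - y b t) ^ 2 := by
    intro a b t
    simp only [hz, hw]
    linear_combination (-(y a t - y b t) ^ 2) * Complex.I_mul_I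
  have n0 : ∀ a b, a ≠ b → z a t0 - z b t0 ≠ 0 ∧ w a t0 - w b t0 ≠ 0 := by
    intro a b hab
    have := hne a b hab
    rw [← prod] at this
    exact mul_ne_zero_iff.1 this
  have nz : ∀ᶠ t in codiscrete ℂ, z e t - z c t ≠ 0 :=
    mer_ne_of_at (f := fun t => z e t - z c t) (fun t => (mz e t).sub (mz c t))
      ((az e).sub (az c)) (n0 e c hce.symm).1
  have nw : ∀ᶠ t in codiscrete ℂ, w e t - w c t ≠ 0 :=
    mer_ne_of_at (f := fun t => w e t - w c t) (fun t => (mw e t).sub (mw c t))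
      ((aw e).sub (aw c)) (n0 e c hce.symm).2
  -- the normalised families
  have key : ∀ u : Fin m → ℂ → ℂ, (∀ a, Meromorphic (u a)) → (∀ a, AnalyticAt ℂ (u a) t0) →
      u e t0 - u c t0 ≠ 0 → ∃ U : Fin m → ℂ → ℂ, (∀ a, Meromorphic (U a)) ∧
        (∀ a, AnalyticAt ℂ (U a) t0) ∧ (∀ t, U c t = 0) ∧ (∀ t, U e t = 1) ∧
        ∀ a t, u e t - u c t ≠ 0 → U a t = (u a t - u c t) / (u e t - u c t) := by
    intro u mu au hu
    refine ⟨fun a t => if a = e then 1 else (u a t - u c t) / (u e t - u c t), ?_, ?_, ?_, ?_, ?_⟩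
    · intro a t
      by_cases h : a = e
      · simp only [h, if_true]; exact MeromorphicAt.const 1 t
      · simp only [h, if_false]; exact ((mu a t).sub (mu c t)).div ((mu e t).sub (mu c t))
    · intro a
      by_cases h : a = e
      · simp only [h, if_true]; exact analyticAt_const
      · simp only [h, if_false]; exact ((au a).sub (au c)).div ((au e).sub (au c)) hu
    · intro t; simp [hce]
    · intro t; simp
    · intro a t ht
      by_cases h : a = e
      · simp only [h, if_true]; exact (div_self ht).symm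
      · simp only [h, if_false]
  obtain ⟨Z, mZ, aZ, Zc, Ze, hZ⟩ := key z mz az (n0 e c hce.symm).1
  obtain ⟨W, mW, aW, Wc, We, hW⟩ := key w mw aw (n0 e c hce.symm).2
  have hDe : ∀ a b, ∀ᶠ t in codiscrete ℂ,
      (Z a t - Z b t) * (W a t - W b t) = (d a b t / d c e t) ^ 2 := by
    intro a b
    filter_upwards [nz, nw, he a b, he c e] with t h1 h2 h3 h4
    rw [hZ a t h1, hZ b t h1, hW a t h2, hW b t h2, div_pow, ← h3, ← h4, ← prod, ← prod]
    have h5 : z c t - z e t ≠ 0 := fun h => h1 (by linear_combination -h)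
    have h6 : w c t - w e t ≠ 0 := fun h => h2 (by linear_combination -h)
    field_simp
    ring
  obtain ⟨c0, hc0⟩ := Infinite.exists_notMem_finset
    ((Finset.univ.image fun a => Z a t0) ∪ Finset.univ.image fun a => W a t0)
  have hc0' : ∀ a, Z a t0 ≠ c0 ∧ W a t0 ≠ c0 := by
    intro a
    constructor <;> intro h <;> apply hc0 <;> simp only [Finset.mem_union, Finset.mem_image]
    · exact Or.inl ⟨a, Finset.mem_univ _, h⟩
    · exact Or.inr ⟨a, Finset.mem_univ _, h⟩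
  have h1 := (n0 e c hce.symm).1
  have h2 := (n0 e c hce.symm).2
  have main := Geo_main hq Z W (fun a b t => d a b t / d c e t) t0 hce mZ mW
    (fun a b t => (hd a b t).div (hd c e t)) aZ aW (fun t => ⟨Zc t, Wc t⟩) (fun t => ⟨Ze t, We t⟩)
    hDe ?_ c0 hc0' ?_
  · obtain ⟨⟨k1, e1⟩, ⟨k2, e2⟩⟩ := main a
    obtain ⟨⟨k3, e3⟩, ⟨k4, e4⟩⟩ := main b
    refine sq_ratio (hd a b) (hd c e) (k := (k1 - k3) * (k2 - k4)) ?_
    filter_upwards [e1, e2, e3, e4, hDe a b, nz, nw, he c e] with t g1 g2 g3 g4 g5 g6 g7 g8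
    rw [g1, g2, g3, g4] at g5
    have g9 : d c e t ≠ 0 := by
      intro h
      rw [← prod, h] at g8
      have h5 : z c t - z e t ≠ 0 := fun h => g6 (by linear_combination -h)
      have h6 : w c t - w e t ≠ 0 := fun h => g7 (by linear_combination -h)
      exact mul_ne_zero h5 h6 (by rw [g8]; ring)
    rw [g5]
    field_simp
  · intro a b hab
    rw [hZ a t0 h1, hZ b t0 h1, hW a t0 h2, hW b t0 h2]
    refine ⟨fun h => (n0 a b hab).1 ?_, fun h => (n0 a b hab).2 ?_⟩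
    · have := (div_left_inj' h1).1 h
      linear_combination this
    · have := (div_left_inj' h2).1 h
      linear_combination this
  · intro f hf
    by_contra hf0
    obtain ⟨F, F0, Fd, hFe⟩ := curve f hf0 (z c t0) (w c t0) c0 h1 h2
    obtain ⟨a', ha'⟩ := hF F F0 Fd
    apply ha'
    have g1 := hZ a' t0 h1
    have g2 := hW a' t0 h2
    refine hFe _ _ ?_ ?_ ?_
    · exact fun h => (hc0' a').1 (g1.trans h)
    · exact fun h => (hc0' a').2 (g2.trans h)
    · have := hf a'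
      rw [g1, g2] at this
      exact this

theorem geo : ∃ d0 : ℕ, ∀ (m : ℕ) (x y : Fin m → ℂ → ℂ) (d : Fin m → Fin m → ℂ → ℂ) (t0 : ℂ),
    (∀ a, Meromorphic (x a) ∧ Meromorphic (y a)) → (∀ a b, Meromorphic (d a b)) →
    (∀ a b, ∀ᶠ t in codiscrete ℂ, (x a t - x b t) ^ 2 + (y a t - y b t) ^ 2 = d a b t ^ 2) →
    (∀ a, AnalyticAt ℂ (x a) t0 ∧ AnalyticAt ℂ (y a) t0) →
    (∀ a b, a ≠ b → (x a t0 - x b t0) ^ 2 + (y a t0 - y b t0) ^ 2 ≠ 0) →
    (∀ F : MvPolynomial (Fin 2) ℂ, F ≠ 0 → F.totalDegree ≤ d0 →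
      ∃ a, MvPolynomial.eval ![x a t0, y a t0] F ≠ 0) →
    ∀ a b c e, c ≠ e → ∃ κ : ℂ, ∀ᶠ t in codiscrete ℂ, d a b t = κ * d c e t :=
  ⟨2 * 10 ^ 13, geo_q le_rfl⟩

theorem geoA_q {q : ℕ} (hq : 10 ^ 13 ≤ q) :
    ∀ (m : ℕ) (x y : Fin m → ℂ → ℂ) (d : Fin m → Fin m → ℂ → ℂ),
    (∀ a, Meromorphic (x a) ∧ Meromorphic (y a)) → (∀ a b, Meromorphic (d a b)) →
    (∀ a b, ∀ᶠ t in codiscrete ℂ, (x a t - x b t) ^ 2 + (y a t - y b t) ^ 2 = d a b t ^ 2) →
    (∀ a b, a ≠ b → ∃ᶠ t in codiscrete ℂ, d a b t ≠ 0) →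
    (∀ a b c e, c ≠ e → ∃ κ : ℂ, ∀ᶠ t in codiscrete ℂ, d a b t = κ * d c e t) ∨
      ∀ᶠ t in codiscrete ℂ, ∃ F : MvPolynomial (Fin 2) ℂ, F ≠ 0 ∧ F.totalDegree ≤ 2 * q ∧
        ∀ a, MvPolynomial.eval ![x a t, y a t] F = 0 := by
  have hgeo := geo_q hq
  intro m x y d hxy hd he hne
  rw [or_iff_not_imp_right]
  intro hB
  have h1 : ∀ᶠ t in codiscrete ℂ, ∀ a, AnalyticAt ℂ (x a) t ∧ AnalyticAt ℂ (y a) t :=
    eventually_all.2 fun a => (mer_an (hxy a).1).and (mer_an (hxy a).2)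
  have h2 : ∀ᶠ t in codiscrete ℂ, ∀ a b, a ≠ b →
      (x a t - x b t) ^ 2 + (y a t - y b t) ^ 2 ≠ 0 := by
    refine eventually_all.2 fun a => eventually_all.2 fun b => ?_
    by_cases hab : a = b
    · exact Eventually.of_forall fun t h => absurd hab h
    · rcases mer_dich (hd a b) with h | h
      · filter_upwards [h, he a b] with t g1 g2 _
        rw [g2]
        exact pow_ne_zero 2 g1
      · obtain ⟨t, g1, g2⟩ := ((hne a b hab).and_eventually h).exists
        exact absurd g2 g1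
  obtain ⟨t0, g0, g1, g2⟩ := ((not_eventually.1 hB).and_eventually (h1.and h2)).exists
  refine hgeo m x y d t0 hxy hd he g1 g2 fun F F0 Fd => ?_
  by_contra hc
  push Not at hc
  exact g0 ⟨F, F0, Fd, hc⟩

end Pool.Agent.Work.MP_677830_co.G
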