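import Pool.Agent.Work.MP_677830_co.G.An

-- merged part: Pool.Agent.Work.MP_677830_co.G.NumB
section
-- merged part: Pool.Agent.Work.MP_677830_co.G.Bas
section
/-!
# Greedy bases and the numerical identity
exists_bases. Let l s = σ s - σ (s-1) > 0, d C S = ν |C| - 1 - |S ∩ C|,
path i S = sum over s in Icc 1 top of l s * max 0 (d (cl A s i) S), F S = max over i in A of path i S
(0 if A is empty), Pot S = usum of the sum over k in Ico |S ∩ C| |C| of max 0 (ν |C| - 1 - k).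
Pot ∅ = usum loss, Pot ≥ 0, and for x in A outside S: Pot S - Pot (insert x S) = path x S.
If S ≠ A there is x in A outside S with F S ≤ path x S: take i maximal and the deepest level s with
d (cl A s i) S > 0 (if none, F S = 0 and any x works); then cl A s i is not inside S (ν < 1); take x
in it; cl A s' x = cl A s' i for s' ≤ s. Recursion on l gives Sb; e l = - F (Sb l).
Trop: by sigma_eq_sum and sigma_mn the right side is the sum over s' in Icc 1 s of
l s' * (1 + |S ∩ cl s' i| - ν |cl s' i|) = - l s' * d; above top the cluster is {i} and d < 0.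
loss_add: write b = 4 p + ρ, or induct b → b + 4. lh_num: mass_eq, usum_add, usum_mul, usum_mono;
per cluster equality cn n * b (b-1) / 2 - 5 b^2/16 + b/2 = 3/16 * b (n-b)/(n-1); b = 1 gives 0.
-/

namespace Pool.Agent.Work.MP_677830_co.G

open Filter Topology Polynomial Matrix MeasureTheory
open scoped ComplexConjugate ComplexOrder

variable {ι : Type} [Fintype ι] [DecidableEq ι]

/-- The defect of a cluster. -/
noncomputable def Bas_d (ν : ℝ) (C S : Finset ι) : ℝ := ν * C.card - 1 - (S ∩ C).card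

/-- The positive defects along the branch of `i`. -/
noncomputable def Bas_path (R : Tree ι) (σ : ℕ → ℝ) (ν : ℝ) (A : Finset ι) (i : ι)
    (S : Finset ι) : ℝ :=
  ∑ s ∈ Finset.Icc 1 R.top, (σ s - σ (s - 1)) * max 0 (Bas_d ν (R.cl A s i) S)

/-- The remaining loss. -/
noncomputable def Bas_pot (R : Tree ι) (σ : ℕ → ℝ) (ν : ℝ) (A S : Finset ι) : ℝ :=
  R.usum σ A fun C => ∑ k ∈ Finset.Ico (S ∩ C).card C.card, max 0 (ν * C.card - 1 - k)

theorem Bas_term {σ : ℕ → ℝ} {ϑ : ℝ} (hσ : Lev σ ϑ) {s : ℕ} (hs : 1 ≤ s) (x : ℝ) :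
    0 ≤ (σ s - σ (s - 1)) * max 0 x := mul_nonneg (hσ.step hs).1.le (le_max_left _ _)

theorem Bas_usum_nonneg (R : Tree ι) {σ : ℕ → ℝ} {ϑ : ℝ} (hσ : Lev σ ϑ) (A : Finset ι)
    {g : Finset ι → ℝ} (hg : ∀ C, 0 ≤ g C) : 0 ≤ R.usum σ A g :=
  Finset.sum_nonneg fun _ hs => mul_nonneg (hσ.step (Finset.mem_Icc.1 hs).1).1.le
    (Finset.sum_nonneg fun C _ => hg C)

theorem Bas_path_nonneg (R : Tree ι) {σ : ℕ → ℝ} {ϑ : ℝ} (hσ : Lev σ ϑ) (ν : ℝ) (A : Finset ι)
    (i : ι) (S : Finset ι) : 0 ≤ Bas_path R σ ν A i S :=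
  Finset.sum_nonneg fun _ hs => Bas_term hσ (Finset.mem_Icc.1 hs).1 _

theorem Bas_step (R : Tree ι) (σ : ℕ → ℝ) (ν : ℝ) {A S : Finset ι} {x : ι} (hx : x ∈ A)
    (hS : x ∉ S) : Bas_pot R σ ν A S - Bas_pot R σ ν A (insert x S) = Bas_path R σ ν A x S := by
  unfold Bas_pot Bas_path Tree.usum
  rw [← Finset.sum_sub_distrib]
  refine Finset.sum_congr rfl fun s _ => ?_
  rw [← mul_sub, ← Finset.sum_sub_distrib, Finset.sum_eq_single_of_mem _ (R.cl_mem_parts hx)]
  · have h1 : x ∈ R.cl A s x := R.self_mem_cl hx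
    have h2 : (insert x S ∩ R.cl A s x).card = (S ∩ R.cl A s x).card + 1 := by
      rw [Finset.insert_inter_of_mem h1,
        Finset.card_insert_of_notMem fun h => hS (Finset.mem_inter.1 h).1]
    have h3 : (S ∩ R.cl A s x).card < (R.cl A s x).card := by
      have := Finset.card_le_card (Finset.inter_subset_right (s₁ := insert x S) (s₂ := R.cl A s x))
      omega
    rw [h2, Finset.sum_eq_sum_Ico_succ_bot h3, add_sub_cancel_right]
    rfl
  · intro C hC hne
    rw [Finset.insert_inter_of_notMem fun h => hne (R.cl_eq_of_parts hC h).symm, sub_self]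

theorem Bas_greedy (R : Tree ι) {σ : ℕ → ℝ} {ϑ ν : ℝ} (hσ : Lev σ ϑ) (h1 : ν < 1)
    {A S : Finset ι} (hS : S ⊆ A) (hne : S ≠ A) :
    ∃ x ∈ A, x ∉ S ∧ ∀ i ∈ A, Bas_path R σ ν A i S ≤ Bas_path R σ ν A x S := by
  obtain ⟨x0, hx0, hx0'⟩ := Finset.exists_of_ssubset (Finset.ssubset_iff_subset_ne.2 ⟨hS, hne⟩)
  obtain ⟨i, hi, hmax⟩ := A.exists_max_image (fun i => Bas_path R σ ν A i S) ⟨x0, hx0⟩
  obtain ⟨x, s0, hx, hxS, hs0⟩ : ∃ x s0, x ∈ R.cl A s0 i ∧ x ∉ S ∧
      ∀ s ∈ Finset.Icc 1 R.top, s0 < s → Bas_d ν (R.cl A s i) S ≤ 0 := by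
    by_cases h : ((Finset.Icc 1 R.top).filter fun s => 0 < Bas_d ν (R.cl A s i) S).Nonempty
    · obtain ⟨s0, hs0, hm⟩ := Finset.exists_max_image _ (fun s : ℕ => s) h
      have hd := (Finset.mem_filter.1 hs0).2
      have hlt : ¬ R.cl A s0 i ⊆ S := fun hc => by
        rw [Bas_d, Finset.inter_eq_right.2 hc] at hd
        have := mul_le_mul_of_nonneg_right h1.le (Nat.cast_nonneg (α := ℝ) (R.cl A s0 i).card)
        linarith only [hd, this]
      obtain ⟨x, hx, hxS⟩ := Finset.not_subset.1 hlt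
      exact ⟨x, s0, hx, hxS, fun s hs hlt' => not_lt.1 fun hc =>
        absurd (hm s (Finset.mem_filter.2 ⟨hs, hc⟩)) (not_le.2 hlt')⟩
    · exact ⟨x0, 0, by rwa [R.cl_zero], hx0', fun s hs _ => not_lt.1 fun hc =>
        h ⟨s, Finset.mem_filter.2 ⟨hs, hc⟩⟩⟩
  refine ⟨x, R.cl_subset hx, hxS, fun k hk => (hmax k hk).trans
    (Finset.sum_le_sum fun s hs => ?_)⟩
  rcases le_or_gt s s0 with h | h
  · rw [R.cl_eq_of_mem (R.cl_anti h hx)]
  · rw [max_eq_left (hs0 s hs h), mul_zero]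
    exact Bas_term hσ (Finset.mem_Icc.1 hs).1 _

theorem Bas_trop (R : Tree ι) {σ : ℕ → ℝ} {ϑ ν : ℝ} (hσ : Lev σ ϑ) (h1 : ν < 1)
    {A S : Finset ι} (hS : S ⊆ A) {E : ℝ} (hE : ∀ i ∈ A, Bas_path R σ ν A i S ≤ E) :
    Trop R σ ν A S (-E) := by
  refine ⟨hS, fun i hi s => ?_⟩
  have e1 : ∑ m ∈ A, ((if m ∈ S then 1 else 0) - ν) * σ (R.mn s i m) =
      ∑ s' ∈ Finset.Icc 1 s, (σ s' - σ (s' - 1)) *
        (((S ∩ R.cl A s' i).card : ℝ) - ν * (R.cl A s' i).card) := by
    rw [Finset.sum_congr rfl fun m hm => by rw [R.sigma_mn hσ.1 hm, Finset.mul_sum],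
      Finset.sum_comm]
    refine Finset.sum_congr rfl fun s' _ => ?_
    rw [← Finset.sum_subset (R.cl_subset (s := s') (i := i)) fun m _ hm => by
        rw [if_neg hm, mul_zero],
      Finset.sum_congr rfl fun m hm => by rw [if_pos hm], ← Finset.sum_mul,
      Finset.sum_sub_distrib, Finset.sum_ite_mem, Finset.inter_comm]
    simp only [Finset.sum_const, nsmul_eq_mul, mul_one]
    ring
  have e2 : ∑ s' ∈ Finset.Icc 1 s, (σ s' - σ (s' - 1)) * max 0 (Bas_d ν (R.cl A s' i) S) ≤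
      Bas_path R σ ν A i S := by
    rw [← Finset.sum_subset (Finset.filter_subset (· ≤ R.top) _) fun s' hs' hn => ?_]
    · refine Finset.sum_le_sum_of_subset_of_nonneg (fun s' hs' => ?_) fun s' hs' _ =>
        Bas_term hσ (Finset.mem_Icc.1 hs').1 _
      rw [Finset.mem_filter, Finset.mem_Icc] at hs'
      exact Finset.mem_Icc.2 ⟨hs'.1.1, hs'.2⟩
    · have h2 : R.top < s' := not_le.1 fun h => hn (Finset.mem_filter.2 ⟨hs', h⟩)
      have h3 := Nat.cast_nonneg (α := ℝ) (S ∩ {i}).card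
      rw [R.cl_top hi h2, Bas_d, Finset.card_singleton, Nat.cast_one,
        max_eq_left (by linarith only [h1]), mul_zero]
  have e3 : ∑ s' ∈ Finset.Icc 1 s, (σ s' - σ (s' - 1)) * Bas_d ν (R.cl A s' i) S ≤
      ∑ s' ∈ Finset.Icc 1 s, (σ s' - σ (s' - 1)) * max 0 (Bas_d ν (R.cl A s' i) S) :=
    Finset.sum_le_sum fun s' hs' => mul_le_mul_of_nonneg_left (le_max_right _ _)
      (hσ.step (Finset.mem_Icc.1 hs').1).1.le
  have e4 : σ s + ∑ s' ∈ Finset.Icc 1 s, (σ s' - σ (s' - 1)) *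
      (((S ∩ R.cl A s' i).card : ℝ) - ν * (R.cl A s' i).card) =
      -∑ s' ∈ Finset.Icc 1 s, (σ s' - σ (s' - 1)) * Bas_d ν (R.cl A s' i) S := by
    conv_lhs => rw [sigma_eq_sum hσ.1 s]
    rw [← Finset.sum_add_distrib, ← Finset.sum_neg_distrib]
    refine Finset.sum_congr rfl fun s' _ => ?_
    rw [Bas_d]
    ring
  rw [e1, e4]
  linarith [hE i hi]

theorem Bas_lin (x : ℝ) (m : ℕ) :
    ∑ k ∈ Finset.range m, (x - 1 - k) = m * (x - 1) - m * (m - 1) / 2 := by
  induction m with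
  | zero => simp
  | succ m ih =>
    rw [Finset.sum_range_succ, ih]
    push_cast
    ring

theorem Bas_loss {x : ℝ} {b : ℕ} (h0 : 0 ≤ x) (hb : x ≤ b) :
    ∑ k ∈ Finset.range b, max 0 (x - 1 - k) =
      (x ^ 2 - x + Int.fract x * (1 - Int.fract x)) / 2 := by
  have h1 : ⌊x⌋₊ ≤ b := Nat.floor_le_of_le hb
  have h2 : Int.fract x = x - ⌊x⌋₊ := by
    rw [natCast_floor_eq_intCast_floor h0]
    rfl
  have h3 := Nat.floor_le h0
  have h4 := Nat.lt_floor_add_one x
  rw [← Finset.sum_subset (Finset.range_subset_range.2 h1) fun k _ hk => ?_,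
    Finset.sum_congr rfl fun k hk => max_eq_right ?_, Bas_lin, h2]
  · ring
  · have : (k : ℝ) + 1 ≤ ⌊x⌋₊ := by exact_mod_cast Finset.mem_range.1 hk
    linarith only [h3, this]
  · have : (⌊x⌋₊ : ℝ) ≤ k := by exact_mod_cast not_lt.1 fun h => hk (Finset.mem_range.2 h)
    exact max_eq_left (by linarith)

theorem exists_bases (R : Tree ι) {σ : ℕ → ℝ} {ϑ ν : ℝ} (hσ : Lev σ ϑ) (h0 : 0 < ν) (h1 : ν < 1)
    (A : Finset ι) : ∃ (Sb : ℕ → Finset ι) (e : ℕ → ℝ),
      (∀ l ≤ A.card, (Sb l).card = l ∧ Trop R σ ν A (Sb l) (e l)) ∧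
      ∀ j ≤ A.card, -(R.usum σ A fun C => loss ν C.card) ≤ ∑ l ∈ Finset.range j, e l := by
  have key : ∀ S : Finset ι, ∃ (S' : Finset ι) (E : ℝ), S ⊆ A →
      (∀ i ∈ A, Bas_path R σ ν A i S ≤ E) ∧ (S ≠ A → S' ⊆ A ∧ S'.card = S.card + 1 ∧
        Bas_pot R σ ν A S - Bas_pot R σ ν A S' = E) := by
    intro S
    by_cases h : S ⊆ A ∧ S ≠ A
    · obtain ⟨x, hx, hxS, hm⟩ := Bas_greedy R hσ h1 h.1 h.2
      exact ⟨insert x S, _, fun _ => ⟨hm, fun _ => ⟨Finset.insert_subset hx h.1,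
        Finset.card_insert_of_notMem hxS, Bas_step R σ ν hx hxS⟩⟩⟩
    · exact ⟨S, ∑ i ∈ A, Bas_path R σ ν A i S, fun hS => ⟨fun i hi =>
        Finset.single_le_sum (f := fun i => Bas_path R σ ν A i S)
          (fun k _ => Bas_path_nonneg R hσ ν A k S) hi, fun hne => (h ⟨hS, hne⟩).elim⟩⟩
  choose nx E hn using key
  have h2 : ∀ l ≤ A.card, nx^[l] ∅ ⊆ A ∧ (nx^[l] ∅).card = l ∧
      ∑ k ∈ Finset.range l, -E (nx^[k] ∅) =
        Bas_pot R σ ν A (nx^[l] ∅) - Bas_pot R σ ν A ∅ := by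
    intro l
    induction l with
    | zero => simp
    | succ l ih =>
      intro hl
      obtain ⟨i1, i2, i3⟩ := ih (by omega)
      obtain ⟨j1, j2, j3⟩ := (hn _ i1).2 fun h => by
        rw [h] at i2
        omega
      rw [Function.iterate_succ_apply', Finset.sum_range_succ, i3, j2, i2]
      exact ⟨j1, rfl, by linarith only [j3]⟩
  refine ⟨fun l => nx^[l] ∅, fun l => -E (nx^[l] ∅), fun l hl =>
    ⟨(h2 l hl).2.1, Bas_trop R hσ h1 (h2 l hl).1 (hn _ (h2 l hl).1).1⟩, fun j hj => ?_⟩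
  have h3 : 0 ≤ Bas_pot R σ ν A (nx^[j] ∅) :=
    Bas_usum_nonneg R hσ A fun C => Finset.sum_nonneg fun _ _ => le_max_left _ _
  have h4 : Bas_pot R σ ν A ∅ = R.usum σ A fun C => loss ν C.card := by
    simp only [Bas_pot, loss, Finset.empty_inter, Finset.card_empty, Nat.Ico_zero_eq_range]
  rw [(h2 j hj).2.2, h4]
  linarith only [h3]

theorem fr_mem (b : ℕ) : 0 ≤ fr b ∧ fr b < 1 := by
  exact ⟨Int.fract_nonneg _, Int.fract_lt_one _⟩

theorem loss_add (b : ℕ) :
    loss (1 / 4) b + loss (3 / 4) b = 5 / 16 * (b : ℝ) ^ 2 - b / 2 + fr b * (1 - fr b) := by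
  have hb := Nat.cast_nonneg (α := ℝ) b
  have e1 : Int.fract (1 / 4 * (b : ℝ)) = fr b := by
    rw [fr, one_div_mul_eq_div]
  have e2 : Int.fract (3 / 4 * (b : ℝ)) = Int.fract (-((b : ℝ) / 4)) := by
    rw [show 3 / 4 * (b : ℝ) = -((b : ℝ) / 4) + b by ring, Int.fract_add_natCast]
  have e3 : Int.fract (-((b : ℝ) / 4)) * (1 - Int.fract (-((b : ℝ) / 4))) = fr b * (1 - fr b) := by
    by_cases h : Int.fract ((b : ℝ) / 4) = 0
    · rw [Int.fract_neg_eq_zero.2 h, fr, h]
    · rw [Int.fract_neg h, fr]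
      ring
  rw [loss, loss, Bas_loss (by linarith only []) (by linarith only []), Bas_loss (by linarith only []) (by linarith only []), e1,
    e2, e3]
  ring

theorem cn_nonneg {n : ℕ} (hn : 4 ≤ n) : 0 ≤ cn n := by
  have : (4 : ℝ) ≤ n := by exact_mod_cast hn
  exact div_nonneg (by linarith only [this]) (by linarith)

theorem cost_nonneg (R : Tree ι) {σ : ℕ → ℝ} {ϑ : ℝ} (hσ : Lev σ ϑ) (A : Finset ι) :
    0 ≤ cost R σ ϑ A := by
  refine add_nonneg (Bas_usum_nonneg R hσ A fun C => ?_) (mul_nonneg hσ.2.2.1 R.nbad_nonneg)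
  split_ifs
  · positivity
  · exact le_rfl

theorem lh_num (R : Tree ι) {σ : ℕ → ℝ} {ϑ : ℝ} (hσ : Lev σ ϑ) (A : Finset ι) (hA : 4 ≤ A.card) :
    2 * loc R σ ϑ A ≤ 2 * (-(R.usum σ A fun C => loss (1 / 4) C.card) +
      -(R.usum σ A fun C => loss (3 / 4) C.card) - cost R σ ϑ A) + cn A.card * R.mass σ A := by
  have hn : (4 : ℝ) ≤ A.card := by exact_mod_cast hA
  have hn' : (A.card : ℝ) - 1 ≠ 0 := by linarith only [hn]
  have key : ∀ b : ℕ, g2 A.card b + (loss (1 / 4) b + loss (3 / 4) b) +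
      (if 2 ≤ b then |1 - 2 * fr b| / 2 else 0) = cn A.card / 2 * ((b : ℝ) * (b - 1)) := by
    intro b
    rw [g2]
    split_ifs with h
    · rw [loss_add, cn]
      field_simp
      ring
    · obtain rfl | rfl : b = 0 ∨ b = 1 := by omega
      · simp [loss]
      · norm_num [loss]
  have e := R.usum_mul (A := A) σ (cn A.card / 2) fun C => (C.card : ℝ) * (C.card - 1)
  simp only [← key, Tree.usum_add] at e
  rw [R.mass_eq hσ.1, loc, cost]
  linarith only [e]

end Pool.Agent.Work.MP_677830_co.G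
end

-- merged part: Pool.Agent.Work.MP_677830_co.G.NumA
section
/-!
# Averages over samples
avg_choose: double counting of pairs (A, T), T ⊆ C ∩ A, |T| = k; the number of n-subsets containing
T is choose (N - k) (n - k). With N = q^2, n = 24 q: choose (N-k) (n-k) / choose N n = prod (n-i)/(N-i).
Means: b(b-1): rho2 a(a-1); b: (n/N) a; b(n-b): rho2 a (N-a); b(b-1)(b-2): rho2 (n-2)/(N-2) a(a-1)(a-2).
avg_large: g2 n b - 1 ≥ 3/16 b (n-b)/(n-1) - 3/2 for all b ≤ n (pen ≤ 1/2; b ≤ 1 directly);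
mean ≥ (3/32)(24/q) a - 3/2 ≥ (3/4) a/q as a > q.
g2_small: for 2 ≤ b ≤ q: (n-b)/(n-1) ≥ 23/24, fr 2 = 1/2, so g2 ≥ b/128.
avg_small: g2 n b ≥ x b(b-1)(1 - (b-2)/48), x = 1/2000, for all b ≤ q ((b-1)(50-b) ≤ 601);
(a-2)(n-2)/(N-2) ≤ 24.
-/

namespace Pool.Agent.Work.MP_677830_co.G

open Filter Topology Polynomial Matrix MeasureTheory
open scoped ComplexConjugate ComplexOrder

theorem avg_choose {ι : Type} [Fintype ι] [DecidableEq ι] (C : Finset ι) {n k : ℕ} (hk : k ≤ n) :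
    ∑ A ∈ Finset.powersetCard n (Finset.univ : Finset ι), (C ∩ A).card.choose k =
      C.card.choose k * (Fintype.card ι - k).choose (n - k) := by
  have h1 : ∀ A : Finset ι, (C ∩ A).card.choose k =
      ∑ T ∈ Finset.powersetCard k C, if T ⊆ A then 1 else 0 := fun A => by
    rw [← Finset.card_powersetCard, ← Finset.card_filter]
    congr 1
    ext T
    simp only [Finset.mem_powersetCard, Finset.mem_filter, Finset.subset_inter_iff]
    tauto
  simp_rw [h1]
  rw [Finset.sum_comm, ← Finset.card_powersetCard k C, ← smul_eq_mul, ← Finset.sum_const]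
  refine Finset.sum_congr rfl fun T hT => ?_
  obtain ⟨-, rfl⟩ := Finset.mem_powersetCard.1 hT
  rw [← Finset.card_filter, Finset.card_filter_powersetCard_subset T _ n (Finset.subset_univ T) hk,
    Finset.card_univ]

theorem NumA_three (b : ℕ) : (b.choose 3 : ℝ) = b * (b - 1) * (b - 2) / 6 := by
  induction b with
  | zero => simp
  | succ b ih =>
    rw [Nat.choose_succ_succ' b 2, Nat.cast_add, ih, Nat.cast_choose_two]
    push_cast
    ring

variable {q : ℕ}

theorem card_of_samples {A : Finset (Ix q)} (hA : A ∈ samples q) : A.card = 24 * q :=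
  (Finset.mem_powersetCard.1 hA).2

theorem NumA_card : Fintype.card (Ix q) = q ^ 2 := by
  simp [sq]

theorem samples_pos (hq : 24 ≤ q) : 0 < (samples q).card := by
  rw [samples, Finset.card_powersetCard, Finset.card_univ, NumA_card, sq]
  exact Nat.choose_pos (Nat.mul_le_mul_right q hq)

theorem rho2_bounds (hq : 24 ≤ q) : 1 / (q : ℝ) ^ 2 ≤ rho2 q ∧ rho2 q ≤ 576 / (q : ℝ) ^ 2 := by
  have h : (24 : ℝ) ≤ q := by exact_mod_cast hq
  have h1 : (0 : ℝ) < (q : ℝ) ^ 2 := by positivity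
  have h2 : (0 : ℝ) < (q : ℝ) ^ 2 - 1 := by linarith only [h, mul_nonneg_of_nonpos_of_nonpos (Mathlib.Tactic.Linarith.sub_nonpos_of_le (Mathlib.Tactic.Linarith.natCast_nonneg ℝ q)) (Mathlib.Tactic.Linarith.sub_nonpos_of_le h)]
  rw [rho2, mul_comm ((q : ℝ) ^ 2), ← div_div]
  constructor
  · refine div_le_div_of_nonneg_right ?_ h1.le
    rw [le_div_iff₀ h2]
    linarith only [h2, h, mul_nonneg_of_nonpos_of_nonpos (Mathlib.Tactic.Linarith.sub_nonpos_of_le (Mathlib.Tactic.Linarith.natCast_nonneg ℝ q)) (Mathlib.Tactic.Linarith.sub_nonpos_of_le h)]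
  · refine div_le_div_of_nonneg_right ?_ h1.le
    rw [div_le_iff₀ h2]
    nlinarith

theorem NumA_mom (C : Finset (Ix q)) {k : ℕ} (hk : k ≤ 24 * q) :
    (∑ A ∈ samples q, ((C ∩ A).card.choose k : ℝ)) * ((q ^ 2).choose k : ℕ) =
      (C.card.choose k : ℕ) * ((samples q).card * ((24 * q).choose k : ℕ)) := by
  have h := avg_choose C hk
  rw [NumA_card] at h
  rw [← Nat.cast_sum, samples, h, Finset.card_powersetCard, Finset.card_univ, NumA_card]
  have h2 := Nat.choose_mul (n := q ^ 2) hk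
  exact_mod_cast (by rw [h2]; ring)

theorem NumA_one (hq : 24 ≤ q) (C : Finset (Ix q)) :
    ∑ A ∈ samples q, ((C ∩ A).card : ℝ) = (samples q).card * (24 * (C.card : ℝ) / q) := by
  have h : (24 : ℝ) ≤ q := by exact_mod_cast hq
  have h0 : (q : ℝ) ≠ 0 := by positivity
  have h1 := NumA_mom C (k := 1) (by omega)
  simp only [Nat.choose_one_right] at h1
  push_cast at h1
  refine mul_right_cancel₀ (pow_ne_zero 2 h0) (h1.trans ?_)
  field_simp

theorem avg_two (hq : 24 ≤ q) (C : Finset (Ix q)) :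
    ∑ A ∈ samples q, ((C ∩ A).card : ℝ) * ((C ∩ A).card - 1) =
      (samples q).card * (rho2 q * ((C.card : ℝ) * (C.card - 1))) := by
  have h : (24 : ℝ) ≤ q := by exact_mod_cast hq
  have h0 : (q : ℝ) ≠ 0 := by positivity
  have h2 : (q : ℝ) ^ 2 - 1 ≠ 0 := by nlinarith
  have h1 := NumA_mom C (k := 2) (by omega)
  simp only [Nat.cast_choose_two] at h1
  rw [← Finset.sum_div] at h1
  push_cast at h1
  rw [rho2]
  field_simp
  refine mul_left_cancel₀ h0 ?_
  linear_combination 4 * h1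

theorem NumA_cube (hq : 24 ≤ q) (C : Finset (Ix q)) :
    ∑ A ∈ samples q, ((C ∩ A).card : ℝ) * ((C ∩ A).card - 1) * ((C ∩ A).card - 2) =
      (samples q).card * (rho2 q * ((C.card : ℝ) * (C.card - 1)) *
        ((C.card - 2) * (24 * q - 2) / (q ^ 2 - 2))) := by
  have h : (24 : ℝ) ≤ q := by exact_mod_cast hq
  have h0 : (q : ℝ) ≠ 0 := by positivity
  have h2 : (q : ℝ) ^ 2 - 1 ≠ 0 := by nlinarith
  have h3 : (q : ℝ) ^ 2 - 2 ≠ 0 := by nlinarith
  have h1 := NumA_mom C (k := 3) (by omega)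
  simp only [NumA_three] at h1
  rw [← Finset.sum_div] at h1
  push_cast at h1
  rw [rho2]
  field_simp
  refine mul_left_cancel₀ h0 ?_
  linear_combination 36 * h1

theorem NumA_pen (b : ℕ) : fr b * (1 - fr b) + |1 - 2 * fr b| / 2 ≤ 1 / 2 := by
  have h := sq_abs (1 - 2 * fr b)
  linarith only [h, sq_nonneg (|1 - 2 * fr b| - 1), sq_nonneg (|(1 : ℝ) - (2 : ℝ) * fr b| - (1 : ℝ))]

theorem NumA_ge {n : ℕ} (hn : 2 ≤ n) (b : ℕ) :
    3 / 16 * ((b : ℝ) * (n - b)) / (n - 1) - 3 / 2 ≤ g2 n b - 1 := by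
  rw [g2]
  split_ifs with h
  · linarith only [NumA_pen b]
  · have h1 : (2 : ℝ) ≤ n := by exact_mod_cast hn
    have h2 : (n : ℝ) - 1 ≠ 0 := by linarith
    obtain rfl | rfl : b = 0 ∨ b = 1 := by omega
    · norm_num
    · rw [Nat.cast_one, one_mul, mul_div_assoc, div_self h2]
      norm_num

theorem avg_large (hq : 24 ≤ q) (C : Finset (Ix q)) (h1 : q < C.card) (h2 : 2 * C.card ≤ q ^ 2) :
    (samples q).card * (3 / 4 * (C.card : ℝ) / q) ≤
      ∑ A ∈ samples q, (g2 (24 * q) (C ∩ A).card - 1) := by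
  refine le_trans ?_ (Finset.sum_le_sum fun A _ => NumA_ge (by omega) (C ∩ A).card)
  have h : (24 : ℝ) ≤ q := by exact_mod_cast hq
  have h0 : (0 : ℝ) < q := by positivity
  have h3 : (0 : ℝ) < (q : ℝ) ^ 2 - 1 := by linarith only [h, mul_nonneg_of_nonpos_of_nonpos (Mathlib.Tactic.Linarith.sub_nonpos_of_le (Mathlib.Tactic.Linarith.natCast_nonneg ℝ q)) (Mathlib.Tactic.Linarith.sub_nonpos_of_le h)]
  have h4 : (0 : ℝ) < 24 * (q : ℝ) - 1 := by linarith only [h]
  have ha : (q : ℝ) < C.card := by exact_mod_cast h1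
  have hb : 2 * (C.card : ℝ) ≤ q ^ 2 := by exact_mod_cast h2
  have e : ∀ b : ℝ, 3 / 16 * (b * (((24 * q : ℕ) : ℝ) - b)) / (((24 * q : ℕ) : ℝ) - 1) - 3 / 2 =
      3 / 16 * b - 3 / 16 / (24 * q - 1) * (b * (b - 1)) - 3 / 2 := fun b => by
    push_cast
    field_simp
    ring
  simp_rw [e]
  rw [Finset.sum_sub_distrib, Finset.sum_sub_distrib, ← Finset.mul_sum, ← Finset.mul_sum,
    NumA_one hq, avg_two hq, Finset.sum_const, nsmul_eq_mul, rho2]
  generalize (C.card : ℝ) = a at *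
  have h5 : 3 / 4 * a / q ≤ 3 / 16 * (24 * a / q) - 3 / 16 / (24 * q - 1) *
      (24 * (q : ℝ) * (24 * q - 1) / ((q : ℝ) ^ 2 * (q ^ 2 - 1)) * (a * (a - 1))) - 3 / 2 := by
    have h6 : 3 / 16 / (24 * q - 1) *
        (24 * (q : ℝ) * (24 * q - 1) / ((q : ℝ) ^ 2 * (q ^ 2 - 1)) * (a * (a - 1))) =
        9 / 2 * (a / q) * ((a - 1) / (q ^ 2 - 1)) := by
      field_simp
      ring
    have h7 : (a - 1) / (q ^ 2 - 1) ≤ 1 / 2 := by
      rw [div_le_iff₀ h3]
      linarith only [hb]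
    have h8 : 1 ≤ a / q := (one_le_div h0).2 ha.le
    rw [h6, mul_div_assoc, mul_div_assoc]
    linarith only [h7, h8, mul_nonneg_of_nonpos_of_nonpos (Mathlib.Tactic.Linarith.sub_nonpos_of_le h7) (Mathlib.Tactic.Linarith.sub_nonpos_of_le h8)]
  have h6 := mul_le_mul_of_nonneg_left h5 (Nat.cast_nonneg (samples q).card)
  linarith only [h6]

theorem g2_small {b : ℕ} (h2 : 2 ≤ b) (hb : b ≤ q) : (b : ℝ) / 128 ≤ g2 (24 * q) b := by
  have h3 : (2 : ℝ) ≤ b := by exact_mod_cast h2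
  have h4 : (b : ℝ) ≤ q := by exact_mod_cast hb
  have h5 : 23 / 128 * (b : ℝ) ≤
      3 / 16 * ((b : ℝ) * (((24 * q : ℕ) : ℝ) - b)) / (((24 * q : ℕ) : ℝ) - 1) := by
    push_cast
    rw [le_div_iff₀ (by linarith only [h3, h4])]
    linarith only [h3, h4, mul_nonneg_of_nonpos_of_nonpos (Mathlib.Tactic.Linarith.sub_nonpos_of_le (Mathlib.Tactic.Linarith.natCast_nonneg ℝ b)) (Mathlib.Tactic.Linarith.sub_nonpos_of_le h4)]
  rw [g2, if_pos h2]
  rcases h2.eq_or_lt with rfl | h6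
  · have h7 : fr 2 = 1 / 2 := by
      rw [fr, Int.fract_eq_self.2 (by norm_num)]
      norm_num
    rw [h7]
    norm_num at h5 ⊢
    linarith only [h5]
  · have h7 : (3 : ℝ) ≤ b := by exact_mod_cast h6
    linarith only [h5, h7, NumA_pen b]

theorem avg_small (hq : 24 ≤ q) (C : Finset (Ix q)) (h : C.card ≤ q) :
    (samples q).card * (rho2 q * ((C.card : ℝ) * (C.card - 1)) / 4000) ≤
      ∑ A ∈ samples q, g2 (24 * q) (C ∩ A).card := by
  have h1 : ∀ b : ℕ, b ≤ q → 1 / 2000 * ((b : ℝ) * (b - 1)) -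
      1 / 96000 * ((b : ℝ) * (b - 1) * (b - 2)) ≤ g2 (24 * q) b := fun b hb => by
    by_cases h2 : 2 ≤ b
    · refine le_trans ?_ (g2_small h2 hb)
      have h3 : (0 : ℝ) ≤ b := b.cast_nonneg
      linarith only [h3, mul_nonneg h3 (sq_nonneg ((b : ℝ) - 51 / 2)), sq_nonneg (↑b - (51 / 2 : ℝ))]
    · rw [g2, if_neg h2]
      obtain rfl | rfl : b = 0 ∨ b = 1 := by omega
      all_goals norm_num
  refine le_trans ?_ (Finset.sum_le_sum fun A _ =>
    h1 _ ((Finset.card_le_card Finset.inter_subset_left).trans h))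
  rw [Finset.sum_sub_distrib, ← Finset.mul_sum, ← Finset.mul_sum, avg_two hq, NumA_cube hq]
  have h2 : (24 : ℝ) ≤ q := by exact_mod_cast hq
  have h3 : (C.card : ℝ) ≤ q := by exact_mod_cast h
  have h4 : ((C.card : ℝ) - 2) * (24 * q - 2) / (q ^ 2 - 2) ≤ 24 := by
    rw [div_le_iff₀ (by linarith only [h2, mul_nonneg_of_nonpos_of_nonpos (Mathlib.Tactic.Linarith.sub_nonpos_of_le (Mathlib.Tactic.Linarith.natCast_nonneg ℝ q)) (Mathlib.Tactic.Linarith.sub_nonpos_of_le h2)])]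
    linarith only [h2, h3, mul_nonneg_of_nonpos_of_nonpos (Mathlib.Tactic.Linarith.sub_nonpos_of_le (Mathlib.Tactic.Linarith.natCast_nonneg ℝ q)) (Mathlib.Tactic.Linarith.sub_nonpos_of_le h3)]
  have h5 : 0 ≤ (C.card : ℝ) * (C.card - 1) := by
    rcases Nat.eq_zero_or_pos C.card with h6 | h6
    · simp [h6]
    · have h7 : (1 : ℝ) ≤ C.card := by exact_mod_cast h6
      exact mul_nonneg (by linarith only [h7]) (by linarith only [h7])
  have h6 : 0 ≤ rho2 q := le_trans (by positivity) (rho2_bounds hq).1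
  have h7 := mul_le_mul_of_nonneg_left h4
    (mul_nonneg (Nat.cast_nonneg (samples q).card) (mul_nonneg h6 h5))
  linarith only [h7]

end Pool.Agent.Work.MP_677830_co.G
end

-- merged part: Pool.Agent.Work.MP_677830_co.G.NumB
section
/-!
# The combinatorial inequality
exists_fam: CC = sets with 2 ≤ card ≤ q that are parts of both trees at levels ≥ 1; M = maximal
elements (disjoint by laminar). bad_count: a pair (s, C), C in parts univ s, |C| ≤ q, Bad A s (C ∩ A):
pick i in C ∩ A; cl A s i = C ∩ A (cl_inter) and cl A (s+1) i ≠ C ∩ A, so there is k ≠ i in C ∩ A with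
μ i k = s; (i, k) determines s and C; Bad univ s C holds (if C were a part at s ± 1 so would be C ∩ A),
so C lies in some member of M: injection into the union of (C' ∩ A).offDiag.
num: ϑ = 0: M = ∅. Rewrite loc through sum_parts_sub (g2 n 0 = 0, Bad ∅ false), mass through mass_eq;
per unit edge (step l ≥ ϑ): a > q: ϑ * bad ≤ l, avg_large, 2 phi - a(a-1)/(q+1) ≥ -2a, lam ≤ 0.144/q,
a ≤ q^2; a ≤ q: avg_small, phi = 0, lam / (q+1) ≤ rho2 / 4000, rho2 ≥ 1/q^2; the small bad edges cost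
at most 4 ϑ rho2 * sum a(a-1) (bad_count twice, avg_two) = lam * 2 ϑ (8000/q) * sum.
-/

namespace Pool.Agent.Work.MP_677830_co.G

open Filter Topology Polynomial Matrix MeasureTheory
open scoped ComplexConjugate ComplexOrder

variable {ι : Type} [Fintype ι] [DecidableEq ι]

theorem exists_fam (q : ℕ) (R R' : Tree ι) : ∃ M, Fam q R R' M ∧ ∀ C : Finset ι, 2 ≤ C.card →
    C.card ≤ q → (∃ s, 1 ≤ s ∧ C ∈ R.parts Finset.univ s) →
    (∃ s, 1 ≤ s ∧ C ∈ R'.parts Finset.univ s) → ∃ C' ∈ M, C ⊆ C' := by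
  classical
  obtain ⟨P, hP⟩ : ∃ P : Finset ι → Prop, P = fun C => 2 ≤ C.card ∧ C.card ≤ q ∧
    (∃ s, 1 ≤ s ∧ C ∈ R.parts Finset.univ s) ∧ ∃ s, 1 ≤ s ∧ C ∈ R'.parts Finset.univ s := ⟨_, rfl⟩
  refine ⟨Finset.univ.filter (Maximal P), ⟨fun C hC C' hC' hne => ?_, fun C hC => ?_⟩,
    fun C h1 h2 h3 h4 => ?_⟩
  · have e := (Finset.mem_filter.1 hC).2
    have e' := (Finset.mem_filter.1 hC').2
    obtain ⟨-, -, ⟨s, -, h⟩, -⟩ := hP ▸ e.prop
    obtain ⟨-, -, ⟨s', -, h'⟩, -⟩ := hP ▸ e'.prop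
    by_contra hd
    rcases le_total s s' with l | l
    · exact hne (e'.eq_of_le e.prop (R.laminar h h' l hd)).symm
    · exact hne (e.eq_of_le e'.prop (R.laminar h' h l fun d => hd d.symm))
  · have e := (Finset.mem_filter.1 hC).2.prop
    rwa [hP] at e
  · obtain ⟨C', e1, e2⟩ := Finite.exists_le_maximal (p := P) (a := C) (hP ▸ ⟨h1, h2, h3, h4⟩)
    exact ⟨C', Finset.mem_filter.2 ⟨Finset.mem_univ _, e2⟩, e1⟩

theorem NumB_cl {R : Tree ι} {A C : Finset ι} {s : ℕ} {i : ι} (hC : C ∈ R.parts Finset.univ s)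
    (hi : i ∈ C) : R.cl A s i = C ∩ A := by
  rw [R.cl_inter (Finset.subset_univ A), R.cl_eq_of_parts hC hi]

omit [Fintype ι] [DecidableEq ι] in
theorem NumB_off (B : Finset ι) : (B.offDiag.card : ℝ) = (B.card : ℝ) * (B.card - 1) := by
  rw [Finset.offDiag_card, Nat.cast_sub (Nat.le_mul_self _), Nat.cast_mul, mul_sub_one]

theorem bad_count {q : ℕ} {R : Tree ι} {M : Finset (Finset ι)}
    (h : ∀ s, 1 ≤ s → ∀ C ∈ R.parts Finset.univ s, C.card ≤ q → R.Bad Finset.univ s C →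
      ∃ C' ∈ M, C ⊆ C') (A : Finset ι) :
    (∑ s ∈ Finset.Icc 1 R.top, ∑ C ∈ R.parts Finset.univ s,
      if C.card ≤ q ∧ R.Bad A s (C ∩ A) then (1 : ℝ) else 0) ≤
      ∑ C ∈ M, ((C ∩ A).card : ℝ) * ((C ∩ A).card - 1) := by
  simp only [Finset.sum_boole, ← NumB_off, ← Nat.cast_sum, Nat.cast_le, ← Finset.card_sigma]
  refine Finset.card_le_card_of_forall_subsingleton
    (fun a b => b.2.1 ∈ a.2 ∧ R.μ b.2.1 b.2.2 = a.1) ?_ ?_
  · rintro ⟨s, C⟩ ha
    obtain ⟨h1, h2⟩ := Finset.mem_sigma.1 ha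
    obtain ⟨h2, h3, h4, h5, h6⟩ := Finset.mem_filter.1 h2
    obtain ⟨i, hi⟩ := Finset.card_pos.1 (two_pos.trans_le h4)
    obtain ⟨i1, i2⟩ := Finset.mem_inter.1 hi
    have k : ∀ t, C ∈ R.parts Finset.univ t → C ∩ A ∈ R.parts A t := fun t ht =>
      NumB_cl ht i1 ▸ R.cl_mem_parts i2
    obtain ⟨C', e1, e2⟩ := h s (Finset.mem_Icc.1 h1).1 C h2 h3
      ⟨h4.trans (Finset.card_le_card Finset.inter_subset_left), fun e => h5 (k _ e),
        h6.imp_right fun e e' => e (k _ e')⟩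
    obtain ⟨j, j1, j2⟩ := Finset.exists_of_ssubset (Finset.ssubset_iff_subset_ne.2
      ⟨R.cl_anti (A := A) (i := i) (Nat.le_succ s), fun e => h5 (NumB_cl h2 i1 ▸ e ▸ R.cl_mem_parts i2)⟩)
    have j3 := R.mem_cl.1 j1
    rw [R.mem_cl, not_and, not_or] at j2
    rw [NumB_cl h2 i1] at j1
    have s1 := Finset.inter_subset_inter_right (u := A) e2
    refine ⟨⟨C', i, j⟩, Finset.mem_sigma.2 ⟨e1, Finset.mem_offDiag.2
      ⟨s1 hi, s1 j1, fun e => (j2 j3.1).1 e.symm⟩⟩, i1, ?_⟩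
    exact le_antisymm (Nat.le_of_lt_succ (not_le.1 (j2 j3.1).2)) (j3.2.resolve_left (j2 j3.1).1)
  · rintro b - ⟨s, C⟩ ⟨h1, h2, h3⟩ ⟨s', C'⟩ ⟨h1', h2', h3'⟩
    obtain rfl : s = s' := h3.symm.trans h3'
    obtain rfl : C = C' :=
      (R.cl_eq_of_parts (Finset.mem_filter.1 (Finset.mem_sigma.1 h1).2).1 h2).symm.trans
        (R.cl_eq_of_parts (Finset.mem_filter.1 (Finset.mem_sigma.1 h1').2).1 h2')
    rfl

theorem NumB_edge {q : ℕ} (hq : 24 ≤ q) (C : Finset (Ix q)) (h : 2 * C.card ≤ q ^ 2) :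
    1 / (4000 * (q : ℝ) ^ 4) * ((C.card : ℝ) * (C.card - 1)) ≤
      2 / ((samples q).card : ℝ) * (∑ A ∈ samples q,
        (g2 (24 * q) (C ∩ A).card - if q < C.card then 1 else 0)) +
      lam q * (2 * phi q C.card + -(1 / ((q : ℝ) + 1)) * ((C.card : ℝ) * (C.card - 1))) := by
  have q0 : (24 : ℝ) ≤ q := by exact_mod_cast hq
  have q1 : (0 : ℝ) < q := by linarith only [q0]
  have N0 : (0 : ℝ) < (samples q).card := by exact_mod_cast samples_pos hq
  obtain ⟨r1, r2⟩ := rho2_bounds hq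
  have r0 : 0 ≤ rho2 q := le_trans (by positivity) r1
  have a0 : (0 : ℝ) ≤ (C.card : ℝ) * (C.card - 1) := NumB_off C ▸ Nat.cast_nonneg _
  have a1 : (0 : ℝ) ≤ C.card := Nat.cast_nonneg _
  have k : ∀ x y : ℝ, (samples q).card * x ≤ y → 2 * x ≤ 2 / ((samples q).card : ℝ) * y :=
    fun x y e => by
      rw [div_mul_eq_mul_div, le_div_iff₀ N0]
      linarith only [e]
  rw [phi, lam]
  by_cases e : q < C.card
  · simp only [if_pos e]
    have h1 := k _ _ (avg_large hq C e h)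
    have h2 : 2 * (C.card : ℝ) ≤ (q : ℝ) ^ 2 := by exact_mod_cast h
    generalize (C.card : ℝ) = a at *
    have h3 : 1 / ((q : ℝ) + 1) * (a * (a - 1)) ≤ a ^ 2 / q := by
      rw [one_div_mul_eq_div]
      exact div_le_div₀ (sq_nonneg a) (by linarith only [a1]) q1 (by linarith only [])
    have h4 : 1 / (4000 * (q : ℝ) ^ 4) * (a * (a - 1)) ≤ a / q := by
      rw [one_div_mul_eq_div, div_le_div_iff₀ (by positivity) q1, mul_assoc]
      refine mul_le_mul_of_nonneg_left ?_ a1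
      linarith only [q0, h2, q1, mul_le_mul_of_nonneg_right h2 q1.le, pow_pos q1 3, mul_pos (pow_pos q1 3) q1,
        mul_le_mul_of_nonneg_left q0 (pow_pos q1 3).le]
    have h5 : rho2 q * q * a ≤ 576 * (a / q) := by
      refine (mul_le_mul_of_nonneg_right (mul_le_mul_of_nonneg_right r2 q1.le) a1).trans_eq ?_
      field_simp
    have h6 := mul_nonneg (mul_nonneg r0 q1.le) (sub_nonneg.2 h3)
    have h7 : 2 * (a ^ 2 / (2 * q) - a) = a ^ 2 / q - 2 * a := by field_simp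
    have h8 : 3 / 4 * a / q = 3 / 4 * (a / q) := mul_div_assoc _ _ _
    have h9 : 0 ≤ a / q := by positivity
    rw [h7]
    linarith only [h1, h4, h5, h6, h8, h9]
  · simp only [if_neg e, sub_zero]
    have h1 := k _ _ (avg_small hq C (not_lt.1 e))
    generalize (C.card : ℝ) * (C.card - 1) = a at *
    have h3 : q * (1 / ((q : ℝ) + 1)) ≤ 1 := by
      rw [mul_one_div, div_le_one (by linarith only [q0])]
      linarith only []
    have h4 : 1 / (4000 * (q : ℝ) ^ 4) ≤ rho2 q / 4000 := by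
      refine le_trans ?_ (div_le_div_of_nonneg_right r1 (by norm_num))
      rw [div_div, mul_comm (_ ^ 2)]
      exact one_div_le_one_div_of_le (by positivity) (mul_le_mul_of_nonneg_left
        (pow_le_pow_right₀ (by linarith only [q0]) (by norm_num)) (by norm_num))
    linarith only [h1, h4, a0, h3, r0, mul_le_mul_of_nonneg_right h4 a0, mul_le_mul_of_nonneg_left h3 (mul_nonneg r0 a0)]

theorem NumB_usum {κ : Type} (R : Tree ι) (σ : ℕ → ℝ) (A : Finset ι) (S : Finset κ)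
    (g : κ → Finset ι → ℝ) : R.usum σ A (fun C => ∑ k ∈ S, g k C) = ∑ k ∈ S, R.usum σ A (g k) := by
  simp only [Tree.usum]
  rw [Finset.sum_comm]
  refine Finset.sum_congr rfl fun s _ => ?_
  rw [Finset.sum_comm, Finset.mul_sum]

theorem NumB_loc {q : ℕ} {R : Tree ι} {σ : ℕ → ℝ} {ϑ : ℝ} (hσ : Lev σ ϑ) (A : Finset ι) :
    R.usum σ Finset.univ (fun C => g2 A.card (C ∩ A).card - if q < C.card then 1 else 0) ≤
      loc R σ ϑ A + ϑ * ∑ s ∈ Finset.Icc 1 R.top, ∑ C ∈ R.parts Finset.univ s,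
        if C.card ≤ q ∧ R.Bad A s (C ∩ A) then (1 : ℝ) else 0 := by
  rw [loc, Tree.usum, Tree.usum, Tree.nbad, Finset.mul_sum, Finset.mul_sum, ← Finset.sum_sub_distrib,
    ← Finset.sum_add_distrib]
  refine Finset.sum_le_sum fun s hs => ?_
  obtain ⟨h1, h2⟩ := hσ.step (Finset.mem_Icc.1 hs).1
  rw [R.sum_parts_sub (fun C => g2 A.card C.card) (by simp [g2]),
    R.sum_parts_sub (fun C => if R.Bad A s C then (1 : ℝ) else 0) (by simp [Tree.Bad]),
    Finset.mul_sum, Finset.mul_sum, Finset.mul_sum, Finset.mul_sum, ← Finset.sum_sub_distrib,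
    ← Finset.sum_add_distrib]
  refine Finset.sum_le_sum fun C _ => ?_
  have h3 := hσ.2.2.1
  by_cases e : q < C.card
  · rw [if_pos e, if_neg fun d : C.card ≤ q ∧ _ => d.1.not_gt e]
    split_ifs <;> linarith only [h2, h1]
  · simp only [if_neg e, not_lt.1 e, true_and]
    linarith only []

/-- One tree: everything except the small bad edges. -/
theorem num_one {q : ℕ} (hq : 24 ≤ q) {R : Tree (Ix q)} {σ : ℕ → ℝ} {ϑ : ℝ} (hσ : Lev σ ϑ)
    (hB : R.Bal) :
    R.mass σ Finset.univ / (4000 * (q : ℝ) ^ 4) ≤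
      (∑ A ∈ samples q, (2 * loc R σ ϑ A + 2 * ϑ * ∑ s ∈ Finset.Icc 1 R.top,
        ∑ C ∈ R.parts Finset.univ s, if C.card ≤ q ∧ R.Bad A s (C ∩ A) then (1 : ℝ) else 0)) /
          (samples q).card +
        lam q * (2 * R.usum σ Finset.univ (fun C => phi q C.card) -
          R.mass σ Finset.univ / (q + 1)) := by
  have h1 := R.usum_mono (A := Finset.univ) hσ fun s hs C hC => NumB_edge hq C
    ((R.card_le_of_bal hB hs hC).trans_eq (by simp [sq]))
  rw [R.usum_add, R.usum_mul, R.usum_mul, R.usum_mul, R.usum_add, R.usum_mul, R.usum_mul,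
    ← R.mass_eq hσ.1, NumB_usum] at h1
  have h2 := mul_le_mul_of_nonneg_left (a := 2 / ((samples q).card : ℝ)) (Finset.sum_le_sum
    (s := samples q) fun A hA => card_of_samples hA ▸ NumB_loc (q := q) (R := R) hσ A) (by positivity)
  simp only [mul_assoc, ← mul_add, ← Finset.mul_sum]
  refine ((one_div_mul_eq_div _ _).symm.trans_le (h1.trans (add_le_add_left h2 _))).trans_eq ?_
  ring

theorem num {q : ℕ} (hq : 24 ≤ q) {R R' : Tree (Ix q)} {σ σ' : ℕ → ℝ} {ϑ : ℝ} (hσ : Lev σ ϑ)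
    (hσ' : Lev σ' ϑ) (hB : R.Bal) (hB' : R'.Bal) (hcom : ϑ = 0 ∨ Com q R R' ∧ Com q R' R) :
    ∃ M, Fam q R R' M ∧
      (R.mass σ Finset.univ + R'.mass σ' Finset.univ) / (4000 * (q : ℝ) ^ 4) ≤
        (∑ A ∈ samples q, (2 * loc R σ ϑ A + 2 * loc R' σ' ϑ A)) / (samples q).card +
          lam q * (2 * (ϑ * (8000 / q) * (∑ C ∈ M, (C.card : ℝ) * (C.card - 1)) +
            R.usum σ Finset.univ (fun C => phi q C.card) +
            R'.usum σ' Finset.univ fun C => phi q C.card) -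
            (R.mass σ Finset.univ + R'.mass σ' Finset.univ) / (q + 1)) := by
  obtain ⟨M, m1, m2⟩ : ∃ M, Fam q R R' M ∧ ∀ A : Finset (Ix q),
      ϑ * ((∑ s ∈ Finset.Icc 1 R.top, ∑ C ∈ R.parts Finset.univ s,
        if C.card ≤ q ∧ R.Bad A s (C ∩ A) then (1 : ℝ) else 0) +
        ∑ s ∈ Finset.Icc 1 R'.top, ∑ C ∈ R'.parts Finset.univ s,
          if C.card ≤ q ∧ R'.Bad A s (C ∩ A) then (1 : ℝ) else 0) ≤
        ϑ * (2 * ∑ C ∈ M, ((C ∩ A).card : ℝ) * ((C ∩ A).card - 1)) := by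
    obtain ⟨M, m1, m2⟩ := exists_fam q R R'
    refine ⟨M, m1, fun A => ?_⟩
    rcases hcom with rfl | ⟨c, c'⟩
    · rw [zero_mul, zero_mul]
    · refine mul_le_mul_of_nonneg_left ?_ hσ.2.2.1
      rw [two_mul]
      exact add_le_add
        (bad_count (fun s h C a b d => m2 C d.1 b ⟨s, h, a⟩ (c s h C a b d)) A)
        (bad_count (fun s h C a b d => m2 C d.1 b (c' s h C a b d) ⟨s, h, a⟩) A)
  refine ⟨M, m1, ?_⟩
  have q1 : (0 : ℝ) < q := by exact_mod_cast (by omega : 0 < q)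
  have N0 : (0 : ℝ) < (samples q).card := by exact_mod_cast samples_pos hq
  have h1 := add_le_add (num_one hq hσ hB) (num_one hq hσ' hB')
  have h2 := div_le_div_of_nonneg_right (Finset.sum_le_sum (s := samples q) fun A _ => m2 A) N0.le
  rw [← Finset.mul_sum, ← Finset.mul_sum, ← Finset.mul_sum, Finset.sum_comm (t := M),
    Finset.sum_add_distrib] at h2
  simp only [avg_two hq, ← Finset.mul_sum] at h2
  simp only [Finset.sum_add_distrib, ← Finset.mul_sum] at h1 ⊢
  generalize ∑ C ∈ M, (C.card : ℝ) * (C.card - 1) = X at h2 ⊢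
  have h3 : lam q * (2 * (ϑ * (8000 / q) * X)) =
      2 * (ϑ * (2 * ((samples q).card * (rho2 q * X))) / (samples q).card) := by
    rw [lam]
    field_simp
    ring
  simp only [add_div, mul_add, mul_div_assoc, mul_sub] at h1 h2 h3 ⊢
  linarith only [h1, h2, h3]

end Pool.Agent.Work.MP_677830_co.G
end
end

-- merged part: Pool.Agent.Work.MP_677830_co.G.QKer
section
-- merged part: Pool.Agent.Work.MP_677830_co.G.QDefs
section
/-!
# Definitions for the quadratic extension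
The coordinates live on the double cover r ^ 2 = h t of the parameter plane: a function on the cover
is a function of (t, r); the second coordinate family is obtained by r ↦ - r.
-/

namespace Pool.Agent.Work.MP_677830_co.G

open Filter Topology Polynomial Matrix MeasureTheory
open scoped ComplexConjugate ComplexOrder

/-- Points on the double cover. -/
noncomputable def zz {ι : Type} (A B : ι → ℂ → ℂ) (t r : ℂ) : ι → ℂ := fun i => A i t + r * B i t

/-- Their velocities with respect to `t`. -/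
noncomputable def vv {ι : Type} (h : ℂ → ℂ) (A B : ι → ℂ → ℂ) (t r : ℂ) : ι → ℂ :=
  fun i => deriv (A i) t + r * (deriv (B i) t + deriv h t / (2 * h t) * B i t)

/-- Meromorphic functions on the double cover. -/
def QM (h : ℂ → ℂ) (F : ℂ → ℂ → ℂ) : Prop :=
  ∃ U V : ℂ → ℂ, Meromorphic U ∧ Meromorphic V ∧
    ∀ᶠ t in codiscrete ℂ, ∀ r, r ^ 2 = h t → F t r = U t + r * V t

/-- A meromorphic function which is not a square. -/
def NS (h : ℂ → ℂ) : Prop :=
  Meromorphic h ∧ ¬ ∃ r : ℂ → ℂ, Meromorphic r ∧ ∀ᶠ t in codiscrete ℂ, r t ^ 2 = h t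

/-- An analytic branch of the square root at a point. -/
def Br (h r : ℂ → ℂ) (t : ℂ) : Prop := AnalyticAt ℂ r t ∧ ∀ᶠ s in 𝓝 t, r s ^ 2 = h s

/-- Some square root. -/
noncomputable def rt (a : ℂ) : ℂ := a ^ (((2 : ℕ) : ℂ)⁻¹)

theorem rt_sq (a : ℂ) : rt a ^ 2 = a := Complex.cpow_nat_inv_pow a two_ne_zero

/-- The potential on the double cover. -/
noncomputable def Ps2 (q : ℕ) (A B : Ix q → ℂ → ℂ) (Φ : Finset (Ix q) → ℂ → ℂ → ℝ) (t r : ℂ) : ℝ :=
  Psi q (zz A B t r) (zz A B t (-r)) (fun S => Φ S t r) fun S => Φ S t (-r)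

/-- The size of the cross ratios on the double cover. -/
noncomputable def L2 {q : ℕ} (A B : Ix q → ℂ → ℂ) (t r : ℂ) : ℝ :=
  LL (zz A B t r) + LL (zz A B t (-r))

/-- Good parameters for the double cover. -/
def Gd2 (q : ℕ) (h : ℂ → ℂ) (A B : Ix q → ℂ → ℂ) (Φ : Finset (Ix q) → ℂ → ℂ → ℝ) (t : ℂ) : Prop :=
  AnalyticAt ℂ h t ∧ h t ≠ 0 ∧ (∀ i, AnalyticAt ℂ (A i) t ∧ AnalyticAt ℂ (B i) t) ∧
    (∀ r, r ^ 2 = h t → Function.Injective (zz A B t r) ∧
      del q (zz A B t r) (zz A B t (-r)) ≠ 0 ∧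
      ∀ S ∈ samples q, HB (6 * q) S (zz A B t r) (vv h A B t r) (Φ S t r)) ∧
    ∀ r : ℂ → ℂ, Br h r t → ∀ S ∈ samples q,
      ContinuousAt (fun s => Φ S s (r s)) t ∧ SM (fun s => Φ S s (r s)) t

/-- Determinant of Taylor functionals of `X ^ α (X + ε Y) ^ β`. -/
noncomputable def ddet (q : ℕ) (ε : ℂ) (c e : Ix q → ℂ) (a b : Ix q → Fin (2 * q)) : ℂ :=
  (Matrix.of fun i x : Ix q => ∑ j ∈ Finset.range ((x.2 : ℕ) + 1),
    (((x.2 : ℕ).choose j : ℂ) * ε ^ j) *
      ((((x.1 : ℕ) + x.2 - j).choose (a i) : ℂ) * c i ^ ((x.1 : ℕ) + x.2 - j - a i)) *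
      ((j.choose (b i) : ℂ) * e i ^ (j - b i))).det

/-- The characteristic of `f` is dominated by those of the family `F`, for every centre. -/
def TBd {κ : Type} [Fintype κ] (F : κ → ℂ → ℂ) (f : ℂ → ℂ) : Prop :=
  Meromorphic f ∧ ∀ a : ℂ, ∃ C K : ℝ, 0 ≤ K ∧ ∀ r, 1 ≤ r →
    TT (fun t => f (t + a)) r ≤ C + K * ∑ j, TT (fun t => F j (t + a)) r

end Pool.Agent.Work.MP_677830_co.G
end

-- merged part: Pool.Agent.Work.MP_677830_co.G.ThA
section
/-!
# Pointwise decomposition of the pairing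
sum_nodal_zero: Lagrange.coeff_eq_sum (coefficient of degree |A| - 1 vanishes).
exists_interp: take the interpolation polynomial (degree < |A|); if its degree δ exceeds j1 + 1,
test with l = |A| - 1 - δ < j2: the sum is the leading coefficient of R * X ^ l.
th_decomp: for i in A put c s = ce (cl A s i), V s = u (c s) + D s * (y i - y (c s)).
V (top+1) = u i (cl_top), V 0 = u (ce A); telescope (Finset.sum_range_succ_sub_sum, or induction);
V s - V (s-1) = (D s - D (s-1)) (y i - y (c s)) + [u (c s) - u (c (s-1)) - D (s-1) (y (c s) - y (c (s-1)))].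
The constant term vanishes by sum_nodal_zero; group by sum_parts; for i in C: cl A s i = C and
cl A (s-1) i = cl A (s-1) (ce C). If A is empty both sides are 0 (not needed: 2 ≤ |A|).
res_taylor: eval x P = sum of coeff k (taylor c P) (x - c) ^ k (taylor_eval_sub, eval_eq_sum_range').
-/

namespace Pool.Agent.Work.MP_677830_co.G

open Filter Topology Polynomial Matrix MeasureTheory
open scoped ComplexConjugate ComplexOrder

variable {ι : Type} [Fintype ι] [DecidableEq ι] {A : Finset ι} {y : ι → ℂ}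

theorem ThA_coeff (hy : Set.InjOn y A) (P : ℂ[X]) (hd : P.natDegree < A.card) :
    ∑ i ∈ A, P.eval (y i) * Lagrange.nodalWeight A y i = P.coeff (A.card - 1) := by
  rw [Lagrange.coeff_eq_sum hy (degree_le_natDegree.trans_lt (Nat.cast_lt.2 hd))]
  refine Finset.sum_congr rfl fun i _ => ?_
  rw [Lagrange.nodalWeight, Finset.prod_inv_distrib, div_eq_mul_inv]

theorem ThA_tel (V : ℕ → ℂ) (n : ℕ) : ∑ s ∈ Finset.Icc 1 n, (V s - V (s - 1)) = V n - V 0 := by
  induction n with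
  | zero => simp
  | succ n ih =>
    rw [Finset.sum_Icc_succ_top (Nat.le_add_left 1 n), ih, Nat.add_sub_cancel]
    ring

theorem sum_nodal_zero (hy : Set.InjOn y A) (P : ℂ[X]) (hd : P.natDegree + 2 ≤ A.card) :
    ∑ i ∈ A, P.eval (y i) * Lagrange.nodalWeight A y i = 0 := by
  rw [ThA_coeff hy P (by omega)]
  exact coeff_eq_zero_of_natDegree_lt (by omega)

theorem exists_interp (hy : Set.InjOn y A) (g : ι → ℂ) {j₁ j₂ : ℕ} (hj : j₁ + j₂ + 2 = A.card)
    (h : ∀ l < j₂, ∑ i ∈ A, g i * y i ^ l * Lagrange.nodalWeight A y i = 0) :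
    ∃ P : ℂ[X], P.natDegree ≤ j₁ + 1 ∧ ∀ i ∈ A, P.eval (y i) = g i := by
  refine ⟨Lagrange.interpolate A y g, ?_, fun i hi => Lagrange.eval_interpolate_at_node g hy hi⟩
  have h1 := Lagrange.degree_interpolate_lt g hy
  have h2 := fun i hi => Lagrange.eval_interpolate_at_node (s := A) (i := i) g hy hi
  generalize Lagrange.interpolate A y g = P at h1 h2
  by_contra h3
  have h0 : P ≠ 0 := fun h0 => h3 (by rw [h0, natDegree_zero]; exact Nat.zero_le _)
  rw [degree_eq_natDegree h0, Nat.cast_lt] at h1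
  have h4 := ThA_coeff hy (P * X ^ (A.card - 1 - P.natDegree))
    (by rw [natDegree_mul_X_pow _ h0]; omega)
  rw [coeff_mul_X_pow', if_pos (Nat.sub_le _ _), show A.card - 1 - (A.card - 1 - P.natDegree) =
    P.natDegree by omega] at h4
  refine leadingCoeff_ne_zero.2 h0 (h4.symm.trans ?_)
  rw [← h (A.card - 1 - P.natDegree) (by omega)]
  exact Finset.sum_congr rfl fun i hi => by rw [eval_mul, eval_pow, eval_X, h2 i hi]

theorem th_decomp (R : Tree ι) (hy : Set.InjOn y A) (u : ι → ℂ) (D : ℕ → ℂ) (hD : D 0 = 0)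
    (ce : Finset ι → ι) (hce : ∀ C, C.Nonempty → ce C ∈ C) (P Q : ℂ[X])
    (hd : P.natDegree + Q.natDegree + 2 ≤ A.card) :
    th A y u P Q = ∑ s ∈ Finset.Icc 1 (R.top + 1), ∑ C ∈ R.parts A s,
      ((D s - D (s - 1)) * res A C y (y (ce C)) 1 (P * Q) +
        (u (ce C) - u (ce (R.cl A (s - 1) (ce C))) -
          D (s - 1) * (y (ce C) - y (ce (R.cl A (s - 1) (ce C))))) *
            res A C y (y (ce C)) 0 (P * Q)) := by
  have h0 := sum_nodal_zero hy (P * Q) (by have := natDegree_mul_le (p := P) (q := Q); omega)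
  have h1 : ∀ i ∈ A, u i = u (ce A) + ∑ s ∈ Finset.Icc 1 (R.top + 1),
      (u (ce (R.cl A s i)) + D s * (y i - y (ce (R.cl A s i))) - (u (ce (R.cl A (s - 1) i)) +
        D (s - 1) * (y i - y (ce (R.cl A (s - 1) i))))) := fun i hi => by
    rw [ThA_tel fun s => u (ce (R.cl A s i)) + D s * (y i - y (ce (R.cl A s i))),
      R.cl_top hi (Nat.lt_succ_self _), R.cl_zero, hD,
      Finset.mem_singleton.1 (hce {i} (Finset.singleton_nonempty i))]
    ring
  calc th A y u P Q = u (ce A) * ∑ i ∈ A, (P * Q).eval (y i) * Lagrange.nodalWeight A y i +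
        ∑ i ∈ A, ∑ s ∈ Finset.Icc 1 (R.top + 1),
          (u (ce (R.cl A s i)) + D s * (y i - y (ce (R.cl A s i))) - (u (ce (R.cl A (s - 1) i)) +
            D (s - 1) * (y i - y (ce (R.cl A (s - 1) i))))) *
              ((P * Q).eval (y i) * Lagrange.nodalWeight A y i) := by
        rw [th, Finset.mul_sum, ← Finset.sum_add_distrib]
        refine Finset.sum_congr rfl fun i hi => ?_
        rw [← Finset.sum_mul, ← add_mul, ← h1 i hi, eval_mul]
        ring
    _ = _ := by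
        rw [h0, mul_zero, zero_add, Finset.sum_comm]
        refine Finset.sum_congr rfl fun s _ => ?_
        rw [← R.sum_parts (s := s)]
        refine Finset.sum_congr rfl fun C hC => ?_
        rw [res, res, Finset.mul_sum, Finset.mul_sum, ← Finset.sum_add_distrib]
        refine Finset.sum_congr rfl fun i hi => ?_
        have h2 := R.cl_eq_of_parts hC hi
        have h3 : R.cl A (s - 1) (ce C) = R.cl A (s - 1) i :=
          R.cl_eq_of_mem (R.cl_anti (Nat.sub_le s 1) (h2.ge (hce C ⟨i, hi⟩)))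
        rw [h2, h3]
        ring

theorem res_taylor (A B : Finset ι) (y : ι → ℂ) (c : ℂ) (m : ℕ) (P Q : ℂ[X]) {K : ℕ}
    (hP : P.natDegree < K) (hQ : Q.natDegree < K) :
    res A B y c m (P * Q) = ∑ k ∈ Finset.range K, ∑ l ∈ Finset.range K,
      (taylor c P).coeff k * (taylor c Q).coeff l * res A B y c (k + l + m) 1 := by
  have h : ∀ (T : ℂ[X]), T.natDegree < K → ∀ x,
      T.eval x = ∑ k ∈ Finset.range K, (taylor c T).coeff k * (x - c) ^ k := fun T hT x => by
    rw [← taylor_eval_sub c T x, eval_eq_sum_range' (by rwa [natDegree_taylor])]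
  simp only [res, Finset.mul_sum]
  refine Eq.trans (Finset.sum_congr rfl fun i _ => ?_)
    (Finset.sum_comm.trans (Finset.sum_congr rfl fun k _ => Finset.sum_comm))
  rw [eval_mul, h P hP, h Q hQ, Finset.sum_mul_sum, Finset.mul_sum, Finset.sum_mul]
  refine Finset.sum_congr rfl fun k _ => ?_
  rw [Finset.mul_sum, Finset.sum_mul]
  refine Finset.sum_congr rfl fun l _ => ?_
  rw [eval_one]
  ring

theorem res_single (A : Finset ι) (y : ι → ℂ) (i : ι) (P : ℂ[X]) :
    res A {i} y (y i) 1 P = 0 := by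
  rw [res, Finset.sum_singleton, sub_self, pow_one, zero_mul, zero_mul]

theorem theta_apply (A : Finset ι) (y u : ι → ℂ) {j₁ j₂ : ℕ} {α β : Type}
    (c : Matrix α (Fin j₁) ℂ) (c' : Matrix β (Fin j₂) ℂ) (k : α) (l : β) :
    (c * thetaM A y u j₁ j₂ * c'ᵀ) k l =
      ∑ i ∈ A, pv (c k) (y i) * pv (c' l) (y i) * u i * Lagrange.nodalWeight A y i := by
  simp only [Matrix.mul_apply, thetaM, Matrix.of_apply, Matrix.transpose_apply, pv,
    Finset.mul_sum, Finset.sum_mul]
  refine Eq.trans (Finset.sum_congr rfl fun b _ => Finset.sum_comm) (Finset.sum_comm.trans ?_)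
  refine Finset.sum_congr rfl fun i _ => Finset.sum_congr rfl fun b _ =>
    Finset.sum_congr rfl fun a _ => ?_
  ring

theorem pv_coeff {j : ℕ} (P : ℂ[X]) (hP : P.natDegree < j) (x : ℂ) :
    pv (fun l : Fin j => P.coeff l) x = P.eval x := by
  rw [pv, eval_eq_sum_range' hP, Finset.sum_range]

end Pool.Agent.Work.MP_677830_co.G
end

-- merged part: Pool.Agent.Work.MP_677830_co.G.Fr
section
/-!
# Change of frame for the Hodge bound
integral_inv: integral_image_eq_integral_abs_det_fderiv_smul on the complement of 0 for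
x ↦ c + a / x (complex derivative - a / x^2, real determinant ‖a‖^2 / ‖x‖^4; image = complement of c).
pv_sig: pv (row l of sig) x = a^l (x - c)^(j-1-l) (pv_coeff). det_sig: rows scaled by a^l, reversed
rows give the monic triangular matrix of (X - C c)^l.
gram_frame: entry (k,l) by gram_apply; substitute x = c + a / t; x - z i = a (y i - t) / (t y i);
|t|^(2ν n) = |t|^(2j+2) cancels |t|^(-2(j-1)) |t|^(-4); if j = 0 the matrices are empty.
theta_frame: y i - y k = - y i y k (z i - z k) / a gives nodalWeight A z i =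
nodalWeight A y i * (-1/a)^(n-1) * y i^(n-2) * Z; v i = -(a / y i^2) u i + α + β z i, the affine part
drops by sum_nodal_zero; pv (row k) (z i) = a^(j-1) y i^k / y i^(j-1) (k ≤ j-1).
Result χ = (-1)^n Z / a^2 when j1, j2 ≥ 1 (else the matrices are empty; take the same χ).
HB.frame: given B, B', nb, nb' for y use B * sig, B' * sig, sqrt ω1 * nb, sqrt ω2 * nb';
sqrt ω1 * sqrt ω2 = ‖χ‖, so msum scales by sqrt ω1 ^ j1 * sqrt ω2 ^ j2. vs_frame and
cn n * (n - 1) = j1 / 4 + 3 j2 / 4, n cn n (n-1) = j1 (j1+1) + j2 (j2+1).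
-/

namespace Pool.Agent.Work.MP_677830_co.G

open Filter Topology Polynomial Matrix MeasureTheory
open scoped ComplexConjugate ComplexOrder

variable {ι : Type} [Fintype ι] [DecidableEq ι] {ν : ℝ} {A : Finset ι} {z v y u : ι → ℂ} {a c : ℂ}

/-- Matrix of the pull back of monomials. -/
noncomputable def sig (j : ℕ) (a c : ℂ) : Matrix (Fin j) (Fin j) ℂ :=
  Matrix.of fun l k => (C (a ^ (l : ℕ)) * (X - C c) ^ (j - 1 - l)).coeff k

theorem integral_inv (ha : a ≠ 0) (c : ℂ) (g : ℂ → ℂ) :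
    ∫ x : ℂ, g x = ∫ t : ℂ, ((‖a‖ ^ 2 / ‖t‖ ^ 4 : ℝ) : ℂ) * g (c + a / t) := by
  have hd : ∀ t ∈ ({0}ᶜ : Set ℂ), HasFDerivWithinAt (fun t : ℂ => c + a / t)
      ((-(a / t ^ 2)) • (1 : ℂ →L[ℝ] ℂ)) {0}ᶜ t := fun t ht => by
    have h1 : HasDerivAt (fun t : ℂ => c + a / t) (-(a / t ^ 2)) t := by
      have := ((hasDerivAt_inv (show t ≠ 0 from ht)).const_mul a).const_add c
      simpa only [div_eq_mul_inv, mul_neg] using this
    exact h1.complexToReal_fderiv.hasFDerivWithinAt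
  have hi : Set.InjOn (fun t : ℂ => c + a / t) {0}ᶜ := fun t _ t' _ e => by
    have e' : a / t = a / t' := add_left_cancel e
    rw [div_eq_mul_inv, div_eq_mul_inv] at e'
    exact inv_injective (mul_left_cancel₀ ha e')
  have him : (fun t : ℂ => c + a / t) '' {0}ᶜ = {c}ᶜ := by
    ext x
    simp only [Set.mem_image, Set.mem_compl_iff, Set.mem_singleton_iff]
    constructor
    · rintro ⟨t, ht, rfl⟩ e
      exact div_ne_zero ha ht (by linear_combination e)
    · intro hx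
      have hx' := sub_ne_zero.2 hx
      exact ⟨a / (x - c), div_ne_zero ha hx', by field_simp; ring⟩
  have h := integral_image_eq_integral_abs_det_fderiv_smul volume
    (measurableSet_singleton (0 : ℂ)).compl hd hi g
  rw [him, restrict_compl_singleton, restrict_compl_singleton] at h
  rw [h]
  refine integral_congr_ae (Eventually.of_forall fun t => ?_)
  have e : ((-(a / t ^ 2)) • (1 : ℂ →L[ℝ] ℂ)).det = ‖a‖ ^ 2 / ‖t‖ ^ 4 := by
    have e1 : (((-(a / t ^ 2)) • (1 : ℂ →L[ℝ] ℂ) : ℂ →L[ℝ] ℂ) : ℂ →ₗ[ℝ] ℂ) =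
        Algebra.lmul ℝ ℂ (-(a / t ^ 2)) := LinearMap.ext fun x => rfl
    rw [ContinuousLinearMap.det, e1, ← Algebra.norm_apply, Algebra.norm_complex_apply,
      Complex.normSq_eq_norm_sq, norm_neg, norm_div, norm_pow]
    ring
  show _ • _ = _
  rw [e, abs_of_nonneg (by positivity), Complex.real_smul]

theorem pv_sig (j : ℕ) (a c : ℂ) (l : Fin j) (x : ℂ) :
    pv (sig j a c l) x = a ^ (l : ℕ) * (x - c) ^ (j - 1 - l) := by
  have h : (C (a ^ (l : ℕ)) * (X - C c) ^ (j - 1 - l)).natDegree < j := by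
    refine (natDegree_C_mul_le _ _).trans_lt ?_
    rw [natDegree_pow, natDegree_X_sub_C]
    have := l.2
    omega
  refine (pv_coeff _ h x).trans ?_
  simp

theorem det_sig (j : ℕ) (a c : ℂ) : ‖(sig j a c).det‖ = ‖a‖ ^ (j.choose 2) := by
  let N : Matrix (Fin j) (Fin j) ℂ := Matrix.of fun l k => ((X - C c) ^ (l : ℕ)).coeff k
  have hdeg : ∀ l : ℕ, ((X - C c) ^ l).natDegree = l := fun l => by
    rw [natDegree_pow, natDegree_X_sub_C, mul_one]
  have e : sig j a c =
      Matrix.of fun l k : Fin j => a ^ (l : ℕ) * (N.submatrix Fin.revPerm id) l k := by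
    ext l k
    have : j - 1 - l = j - (l + 1) := by omega
    show (C (a ^ (l : ℕ)) * (X - C c) ^ (j - 1 - l)).coeff k =
      a ^ (l : ℕ) * ((X - C c) ^ (j - (l + 1))).coeff k
    rw [coeff_C_mul, this]
  have hN : N.det = 1 := by
    rw [det_of_isLowerTriangular N fun l k h => by
      show ((X - C c) ^ (l : ℕ)).coeff k = 0
      exact coeff_eq_zero_of_natDegree_lt (by rw [hdeg]; exact h)]
    refine Finset.prod_eq_one fun l _ => ?_
    have := ((monic_X_sub_C c).pow l).coeff_natDegree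
    rwa [hdeg] at this
  rw [e, det_mul_column, det_permute, hN, norm_mul, Finset.prod_pow_eq_pow_sum,
    Fin.sum_univ_eq_sum_range (fun l => l), Finset.sum_range_id, Nat.choose_two_right, norm_pow]
  rcases Int.units_eq_one_or (Equiv.Perm.sign (Fin.revPerm : Equiv.Perm (Fin j))) with h | h <;>
    simp [h]

theorem frame_sub (ha : a ≠ 0) {z z' : ℂ} (h : z ≠ c) (h' : z' ≠ c) :
    a / (z - c) - a / (z' - c) = -(a / (z - c) * (a / (z' - c)) * (z - z') / a) := by
  have h1 := sub_ne_zero.2 h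
  have h2 := sub_ne_zero.2 h'
  field_simp
  ring

theorem Frame.inj (hz : Function.Injective z) (hF : Frame z v y u) : Function.Injective y := by
  obtain ⟨a, c, α, β, ha, h⟩ := hF
  intro i k e
  rw [(h i).2.1, (h k).2.1, div_eq_mul_inv, div_eq_mul_inv] at e
  exact hz (sub_left_injective (inv_injective (mul_left_cancel₀ ha e)))

theorem vs_frame (hz : Function.Injective z) (ha : a ≠ 0)
    (h : ∀ i, z i ≠ c ∧ y i = a / (z i - c)) (A : Finset ι) :
    vs A y = vs A z + 2 * ((A.card : ℝ) - 1) * ∑ i ∈ A, Real.log ‖y i‖ -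
      A.card * ((A.card : ℝ) - 1) * Real.log ‖a‖ := by
  have y0 : ∀ i, y i ≠ 0 := fun i => by
    rw [(h i).2]
    exact div_ne_zero ha (sub_ne_zero.2 (h i).1)
  have e : vs A y = vs A z + ∑ x ∈ A.offDiag,
      (Real.log ‖y x.1‖ + Real.log ‖y x.2‖ - Real.log ‖a‖) := by
    unfold vs
    rw [← Finset.sum_add_distrib]
    refine Finset.sum_congr rfl fun x hx => ?_
    have h1 : z x.1 - z x.2 ≠ 0 := sub_ne_zero.2 (hz.ne (Finset.mem_offDiag.1 hx).2.2)
    have h2 := frame_sub ha (h x.1).1 (h x.2).1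
    rw [← (h x.1).2, ← (h x.2).2] at h2
    rw [h2, norm_neg, norm_div, norm_mul, norm_mul,
      Real.log_div (by simp [y0, h1]) (by simp [ha]), Real.log_mul (by simp [y0]) (by simp [h1]),
      Real.log_mul (by simp [y0]) (by simp [y0])]
    ring
  have e2 := Finset.sum_union (f := fun x : ι × ι =>
    Real.log ‖y x.1‖ + Real.log ‖y x.2‖ - Real.log ‖a‖) (Finset.disjoint_diag_offDiag A)
  rw [Finset.diag_union_offDiag, Finset.sum_product, Finset.sum_diag] at e2
  simp only [Finset.sum_sub_distrib, Finset.sum_add_distrib, Finset.sum_const, nsmul_eq_mul,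
    ← Finset.mul_sum] at e e2
  linear_combination e - e2

theorem Fr_pow {t : ℂ} (t0 : t ≠ 0) {m : ℕ} (k : Fin (m + 1)) :
    a ^ (k : ℕ) * (a / t) ^ (m + 1 - 1 - k) = (a / t) ^ m * t ^ (k : ℕ) := by
  obtain ⟨r, hr⟩ := Nat.exists_eq_add_of_le (Nat.lt_succ_iff.1 k.2)
  rw [show m + 1 - 1 - k = r by omega, show (a / t) ^ m = (a / t) ^ (k + r) by rw [← hr], pow_add,
    div_pow a t k]
  field_simp

theorem gram_frame (h0 : 0 < ν) (h1 : ν < 1) (hz : Function.Injective z) {j : ℕ}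
    (hj : ν * A.card = j + 1) (ha : a ≠ 0) (h : ∀ i, z i ≠ c ∧ y i = a / (z i - c)) :
    sig j a c * gramM ν A z j * (sig j a c)ᴴ =
      (((∏ i ∈ A, ‖y i‖) ^ (2 * ν) / ‖a‖ ^ 2 : ℝ) : ℂ) • gramM ν A y j := by
  ext k l
  obtain ⟨m, rfl⟩ : ∃ m, j = m + 1 := ⟨j - 1, by have := k.2; omega⟩
  have y0 : ∀ i, y i ≠ 0 := fun i => by
    rw [(h i).2]
    exact div_ne_zero ha (sub_ne_zero.2 (h i).1)
  rw [gram_apply h0 h1 hz.injOn hj, integral_inv ha c, Matrix.smul_apply, smul_eq_mul, gramM,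
    Matrix.of_apply, ← integral_const_mul]
  refine integral_congr_ae ?_
  filter_upwards [compl_mem_ae_iff.2 (measure_singleton (0 : ℂ))] with t ht
  have t0 : t ≠ 0 := ht
  have a0 : 0 < ‖a‖ := norm_pos_iff.2 ha
  have n0 : 0 < ‖t‖ := norm_pos_iff.2 t0
  have P0 : 0 < ∏ i ∈ A, ‖y i‖ := Finset.prod_pos fun i _ => norm_pos_iff.2 (y0 i)
  have e1 : ‖∏ i ∈ A, (c + a / t - z i)‖ =
      (‖a‖ / ‖t‖) ^ A.card * ((∏ i ∈ A, ‖y i‖)⁻¹ * ‖∏ i ∈ A, (t - y i)‖) := by
    rw [norm_prod, norm_prod, ← Finset.prod_inv_distrib, ← Finset.prod_mul_distrib,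
      ← Finset.prod_const, ← Finset.prod_mul_distrib]
    refine Finset.prod_congr rfl fun i _ => ?_
    have e : c + a / t - z i = -(a / t * ((y i)⁻¹ * (t - y i))) := by
      have := sub_ne_zero.2 (h i).1
      rw [(h i).2]
      field_simp
      ring
    rw [e, norm_neg, norm_mul, norm_mul, norm_div, norm_inv]
  have e2 : wt ν A z (c + a / t) =
      ((‖a‖ / ‖t‖) ^ (2 * m + 4))⁻¹ * ((∏ i ∈ A, ‖y i‖) ^ (2 * ν) * wt ν A y t) := by
    unfold wt
    rw [e1, Real.mul_rpow (by positivity) (by positivity),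
      Real.mul_rpow (by positivity) (by positivity), Real.inv_rpow P0.le, Real.rpow_neg P0.le,
      inv_inv, ← Real.rpow_natCast, ← Real.rpow_mul (by positivity), ← Real.rpow_natCast,
      ← Real.rpow_neg (by positivity)]
    congr 2
    push_cast at hj ⊢
    linear_combination (-2) * hj
  have e3 : (a / t) ^ m * conj ((a / t) ^ m) = (((‖a‖ / ‖t‖) ^ (2 * m) : ℝ) : ℂ) := by
    rw [Complex.mul_conj, Complex.normSq_eq_norm_sq, norm_pow, norm_div, ← pow_mul, mul_comm m]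
  have e4 : ‖a‖ ^ 2 / ‖t‖ ^ 4 * ((‖a‖ / ‖t‖) ^ (2 * m) * ((‖a‖ / ‖t‖) ^ (2 * m + 4))⁻¹) =
      (‖a‖ ^ 2)⁻¹ := by
    rw [pow_add]
    field_simp
  have e5 := congrArg (fun r : ℝ => (r : ℂ)) e4
  rw [pv_sig, pv_sig, add_sub_cancel_left, Fr_pow t0, Fr_pow t0, e2, map_mul]
  simp only [Complex.ofReal_mul, ← e3, div_eq_mul_inv _ (‖a‖ ^ 2)] at e5 ⊢
  rw [← e5]
  ring

theorem theta_frame (hz : Function.Injective z) {j₁ j₂ : ℕ} (hj : j₁ + j₂ + 2 = A.card)
    (ha : a ≠ 0) {α β : ℂ}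
    (h : ∀ i, z i ≠ c ∧ y i = a / (z i - c) ∧ u i = -(y i ^ 2 / a) * (v i - α - β * z i)) :
    ∃ χ : ℂ, ‖χ‖ = (∏ i ∈ A, ‖y i‖) / ‖a‖ ^ 2 ∧
      sig j₁ a c * thetaM A z v j₁ j₂ * (sig j₂ a c)ᵀ = χ • thetaM A y u j₁ j₂ := by
  have y0 : ∀ i, y i ≠ 0 := fun i => by
    rw [(h i).2.1]
    exact div_ne_zero ha (sub_ne_zero.2 (h i).1)
  refine ⟨(-1) ^ A.card * (∏ i ∈ A, y i) / a ^ 2, by simp, ?_⟩
  ext k l
  obtain ⟨m, rfl⟩ : ∃ m, j₁ = m + 1 := ⟨j₁ - 1, by have := k.2; omega⟩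
  obtain ⟨m', rfl⟩ : ∃ m, j₂ = m + 1 := ⟨j₂ - 1, by have := l.2; omega⟩
  have h0 := sum_nodal_zero (A := A) hz.injOn (C (a ^ (k : ℕ)) * (X - C c) ^ (m + 1 - 1 - k) *
    (C (a ^ (l : ℕ)) * (X - C c) ^ (m' + 1 - 1 - l)) * (C β * X + C α)) (by
      have d : ∀ (b : ℂ) (r : ℕ), (C b * (X - C c) ^ r).natDegree ≤ r := fun b r =>
        (natDegree_C_mul_le _ _).trans (by rw [natDegree_pow, natDegree_X_sub_C, mul_one])
      refine le_trans (Nat.add_le_add_right (natDegree_mul_le.trans (add_le_add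
        (natDegree_mul_le.trans (add_le_add (d _ _) (d _ _))) natDegree_linear_le)) 2) ?_
      omega)
  rw [theta_apply, Matrix.smul_apply, smul_eq_mul, thetaM, Matrix.of_apply, Finset.mul_sum,
    ← sub_zero (∑ i ∈ A, _), ← h0, ← Finset.sum_sub_distrib]
  refine Finset.sum_congr rfl fun i hi => ?_
  have yi := y0 i
  have e0 : z i - c = a / y i := by
    have := sub_ne_zero.2 (h i).1
    rw [(h i).2.1]
    field_simp
  have e1 : Lagrange.nodalWeight A z i =
      Lagrange.nodalWeight A y i * ((-(y i / a)) ^ (m + m' + 3) * ∏ r ∈ A.erase i, y r) := by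
    have hc : (A.erase i).card = m + m' + 3 := by
      rw [Finset.card_erase_of_mem hi]
      omega
    rw [← hc, ← Finset.prod_const, ← Finset.prod_mul_distrib, Lagrange.nodalWeight,
      Lagrange.nodalWeight, ← Finset.prod_mul_distrib]
    refine Finset.prod_congr rfl fun r hr => ?_
    have h1 : z i - z r ≠ 0 := sub_ne_zero.2 (hz.ne (Finset.ne_of_mem_erase hr).symm)
    have h2 := frame_sub ha (h i).1 (h r).1
    have yr := y0 r
    rw [← (h i).2.1, ← (h r).2.1] at h2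
    rw [h2]
    field_simp
  have e2 : (a / y i) ^ m * (a / y i) ^ m' * (-(y i / a)) ^ (m + m' + 3) =
      (-1) ^ A.card * -(y i / a) ^ 3 := by
    have e3 : a / y i * -(y i / a) = -1 := by field_simp
    rw [← hj, ← pow_add, pow_add _ _ 3, ← mul_assoc, ← mul_pow, e3]
    ring
  have e4 : v i - (β * z i + α) = -(a / y i ^ 2) * u i := by
    rw [(h i).2.2]
    field_simp
    ring
  simp only [eval_mul, eval_C, eval_pow, eval_sub, eval_add, eval_X]
  rw [pv_sig, pv_sig, ← sub_mul, ← mul_sub, e4, e0, Fr_pow yi, Fr_pow yi, e1,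
    ← Finset.mul_prod_erase A y hi]
  calc _ = (a / y i) ^ m * (a / y i) ^ m' * (-(y i / a)) ^ (m + m' + 3) * -(a / y i ^ 2) *
      ((∏ r ∈ A.erase i, y r) * (y i ^ (k : ℕ) * y i ^ (l : ℕ) * u i *
        Lagrange.nodalWeight A y i)) := by ring
    _ = _ := by
      rw [e2]
      field_simp

theorem Fr_msum {j₁ j₂ : ℕ} (M : Matrix (Fin j₁) (Fin j₂) ℂ) (nb : Fin j₁ → ℝ) (nb' : Fin j₂ → ℝ)
    {χ : ℂ} {s s' : ℝ} (hχ : ‖χ‖ = s * s') :
    msum (χ • M) (fun k => s * nb k) (fun k => s' * nb' k) =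
      s ^ j₁ * s' ^ j₂ * msum M nb nb' := by
  unfold msum
  simp only [Finset.mul_sum]
  refine Finset.sum_congr rfl fun r _ => Finset.sum_congr rfl fun f _ =>
    Finset.sum_congr rfl fun g _ => ?_
  have c1 := Finset.card_add_card_compl (Finset.univ.map f)
  have c2 := Finset.card_add_card_compl (Finset.univ.map g)
  simp only [Finset.card_map, Finset.card_univ, Fintype.card_fin] at c1 c2
  have e1 : s ^ j₁ = s ^ r * s ^ (Finset.univ.map f)ᶜ.card := by rw [← pow_add, c1]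
  have e2 : s' ^ j₂ = s' ^ r * s' ^ (Finset.univ.map g)ᶜ.card := by rw [← pow_add, c2]
  have e3 : (χ • M).submatrix f g = χ • M.submatrix f g := rfl
  rw [e1, e2, e3, det_smul, norm_mul, norm_pow, hχ, Fintype.card_fin, Finset.prod_mul_distrib,
    Finset.prod_mul_distrib, Finset.prod_const, Finset.prod_const]
  ring

theorem Fr_hbm {j₁ j₂ : ℕ} {H₁ H₁' S₁ : Matrix (Fin j₁) (Fin j₁) ℂ}
    {H₂ H₂' S₂ : Matrix (Fin j₂) (Fin j₂) ℂ} {T T' : Matrix (Fin j₁) (Fin j₂) ℂ} {Φ Φ' s s' : ℝ}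
    {χ : ℂ} (h : HBm H₁ H₂ T Φ) (hs : 0 < s) (hs' : 0 < s')
    (g1 : S₁ * H₁ * S₁ᴴ = ((s ^ 2 : ℝ) : ℂ) • H₁') (g2 : S₂ * H₂ * S₂ᴴ = ((s' ^ 2 : ℝ) : ℂ) • H₂')
    (g3 : S₁ * T * S₂ᵀ = χ • T') (hχ : ‖χ‖ = s * s') (d1 : S₁.det ≠ 0) (d2 : S₂.det ≠ 0)
    (e : Real.exp Φ' * (s ^ j₁ * s' ^ j₂) ^ 2 = Real.exp Φ * (‖S₁.det‖ * ‖S₂.det‖) ^ 2) :
    HBm H₁' H₂' T' Φ' := by
  intro B B' nb nb' b1 b2 n1 n2 m1 m2
  have key : ∀ {j : ℕ} {H H' S B : Matrix (Fin j) (Fin j) ℂ} {s : ℝ} {nb : Fin j → ℝ},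
      S * H * Sᴴ = ((s ^ 2 : ℝ) : ℂ) • H' → (∀ k l, ‖(B * H' * Bᴴ) k l‖ ≤ nb k * nb l) →
      ∀ k l, ‖(B * S * H * (B * S)ᴴ) k l‖ ≤ s * nb k * (s * nb l) := by
    intro j H H' S B s nb g m k l
    have e1 : B * S * H * (B * S)ᴴ = B * (S * H * Sᴴ) * Bᴴ := by
      simp only [conjTranspose_mul, Matrix.mul_assoc]
    rw [e1, g, Matrix.mul_smul, Matrix.smul_mul, Matrix.smul_apply, norm_smul, Complex.norm_real,
      Real.norm_of_nonneg (sq_nonneg s)]
    exact (mul_le_mul_of_nonneg_left (m k l) (sq_nonneg s)).trans (le_of_eq (by ring))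
  have h1 := h (B * S₁) (B' * S₂) (fun k => s * nb k) (fun k => s' * nb' k)
    (by rw [det_mul]; exact mul_ne_zero b1 d1) (by rw [det_mul]; exact mul_ne_zero b2 d2)
    (fun k => mul_nonneg hs.le (n1 k)) (fun k => mul_nonneg hs'.le (n2 k)) (key g1 m1) (key g2 m2)
  have e1 : B * S₁ * T * (B' * S₂)ᵀ = χ • (B * T' * B'ᵀ) := by
    rw [← Matrix.smul_mul, ← Matrix.mul_smul, ← g3]
    simp only [transpose_mul, Matrix.mul_assoc]
  rw [e1, Fr_msum _ _ _ hχ, det_mul, det_mul, norm_mul, norm_mul] at h1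
  refine le_of_mul_le_mul_right ?_ (show 0 < (s ^ j₁ * s' ^ j₂) ^ 2 by positivity)
  calc _ = Real.exp Φ' * (s ^ j₁ * s' ^ j₂) ^ 2 * (‖B.det‖ * ‖B'.det‖) ^ 2 := by ring
    _ = Real.exp Φ * (‖B.det‖ * ‖S₁.det‖ * (‖B'.det‖ * ‖S₂.det‖)) ^ 2 := by rw [e]; ring
    _ ≤ _ := h1.trans (le_of_eq (by ring))

theorem HB.frame {p : ℕ} (hp : 1 ≤ p) (hA : A.card = 4 * p) (hz : Function.Injective z)
    (hF : Frame z v y u) {Φ : ℝ} (h : HB p A z v Φ) :
    HB p A y u (Φ + cn A.card * vs A z - cn A.card * vs A y) := by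
  obtain ⟨a, c, α, β, ha, hF⟩ := hF
  obtain ⟨q, rfl⟩ : ∃ q, p = q + 1 := ⟨p - 1, by omega⟩
  have hF' : ∀ i, z i ≠ c ∧ y i = a / (z i - c) := fun i => ⟨(hF i).1, (hF i).2.1⟩
  have y0 : ∀ i, ‖y i‖ ≠ 0 := fun i => by
    rw [(hF i).2.1]
    exact norm_ne_zero_iff.2 (div_ne_zero ha (sub_ne_zero.2 (hF i).1))
  have a0 : 0 < ‖a‖ := norm_pos_iff.2 ha
  have P0 : 0 < ∏ i ∈ A, ‖y i‖ := Finset.prod_pos fun i _ => (norm_nonneg _).lt_of_ne' (y0 i)
  have j2 : 3 * (q + 1) - 1 = 3 * q + 2 := by omega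
  have hv := vs_frame hz ha hF' A
  have g1 := gram_frame (ν := 1 / 4) (A := A) (j := q) (by norm_num) (by norm_num) hz
    (by rw [hA]; push_cast; ring) ha hF'
  have g2 := gram_frame (ν := 3 / 4) (A := A) (j := 3 * q + 2) (by norm_num) (by norm_num) hz
    (by rw [hA]; push_cast; ring) ha hF'
  obtain ⟨χ, hχ, g3⟩ := theta_frame (A := A) (j₁ := q) (j₂ := 3 * q + 2) hz (by omega) ha hF
  have d1 := det_sig q a c
  have d2 := det_sig (3 * q + 2) a c
  rw [← Real.log_prod fun i _ => y0 i] at hv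
  obtain ⟨L, hL⟩ : ∃ L, ∏ i ∈ A, ‖y i‖ = Real.exp L := ⟨_, (Real.exp_log P0).symm⟩
  obtain ⟨l, hl⟩ : ∃ l, ‖a‖ = Real.exp l := ⟨_, (Real.exp_log a0).symm⟩
  rw [hL, hl] at hv g1 g2 hχ
  rw [hl, ← Real.exp_nat_mul] at d1 d2
  rw [Real.log_exp, Real.log_exp] at hv
  have e : ∀ x, Real.exp L ^ (2 * x) / Real.exp l ^ 2 = Real.exp (L * x - l) ^ 2 := fun x => by
    rw [← Real.exp_mul, ← Real.exp_nat_mul, ← Real.exp_nat_mul, ← Real.exp_sub]
    congr 1
    push_cast
    ring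
  rw [e] at g1 g2
  unfold HB at h ⊢
  rw [j2, Nat.add_sub_cancel] at h ⊢
  refine Fr_hbm h (Real.exp_pos _) (Real.exp_pos _) g1 g2 g3 ?_
    (norm_pos_iff.1 (d1 ▸ Real.exp_pos _)) (norm_pos_iff.1 (d2 ▸ Real.exp_pos _)) ?_
  · rw [hχ, ← Real.exp_nat_mul, ← Real.exp_sub, ← Real.exp_add]
    congr 1
    push_cast
    ring
  · rw [d1, d2, hv, hA]
    simp only [← Real.exp_nat_mul, ← Real.exp_add]
    congr 1
    have q0 : (4 : ℝ) * (q + 1) - 1 ≠ 0 := by
      have : (0 : ℝ) ≤ q := Nat.cast_nonneg q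
      linarith only []
    rw [Nat.cast_choose_two, Nat.cast_choose_two, cn]
    push_cast
    field_simp
    ring

end Pool.Agent.Work.MP_677830_co.G
end

-- merged part: Pool.Agent.Work.MP_677830_co.G.ThC
section
/-!
# Translation and dilation terms
Write W s' = sum over m in A of σ (mn s' i0 m), q k, q' l the Taylor coefficients at y i0, K = |A|+1.
ge_trans: i0 = ce C, cl A s i0 = C, level s' = s - 1 in ge_taylor_trop and ge_res; each term of
res_taylor has order ea + eb - σ (s-1); the bracket has order σ (s-1) by Vel (zero if the two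
centres agree; otherwise both lie in cl A (s-1) i0).
ge_dil: b = |C|, f = fr b, b / 4 = p + f, L = σ s1 - σ s0 ≥ ϑ. For s' in {s0, s1}:
W s' = b σ s' + o, o = sum over outer k of σ (μ i0 k). With x = k + 1 - b/4, y = l + 1 - 3b/4 the term
q k * q' l * res (k+l+1) has order ea + eb - x σ sa - y σ sb + (x + y) σ sc for any choice of
sa, sb, sc in {s0, s1}; best choice: ea + eb + L ((-x)₊ + (-y)₊ + (x+y)₊). x + y = k + l + 2 - b is an
integer; the bracket is ≥ 1 (so Dl times the term has order ea + eb) unless k + l + 2 = b and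
k + 1 = p (x = -f) or k = p (x = 1 - f). These two terms are the rank one pieces:
l p Sa = q k, m p Sb = Dl * res (b - 1) * q' (b - 2 - k) (both zero if k or b - 2 - k is not a
natural number, then a = b = 0). Piece x = -f: l at level s1, m at level s0:
b-potential o/4 + f σ s1, a-potential min of (-ϑ - o/4 - f σ s0) and (-(b-potential)).
Piece x = 1 - f: l at level s0, m at level s1.
-/

namespace Pool.Agent.Work.MP_677830_co.G

open Filter Topology Polynomial Matrix MeasureTheory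
open scoped ComplexConjugate ComplexOrder

variable {ι : Type} [Fintype ι] [DecidableEq ι] {T : Type} {S : Scale T} {R : Tree ι}
  {σ : ℕ → ℝ} {ϑ : ℝ} {y u : ι → T → ℂ} {D : ℕ → T → ℂ} {A C : Finset ι}

theorem ThC_deg {ν e : ℝ} {Sa : Finset ι} (h : Trop R σ ν A Sa e) (z : ι → ℂ) :
    (bp Sa z).natDegree < A.card + 1 := by
  rw [natDegree_bp]
  exact Nat.lt_succ_of_le (Finset.card_le_card h.1)

theorem ThC_W {i0 : ι} (hA : C ⊆ A) (hi : i0 ∈ C) {s : ℕ} (hin : ∀ i ∈ C, i ≠ i0 → s ≤ R.μ i0 i)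
    (hout : ∀ k ∈ A, k ∉ C → R.μ i0 k ≤ s) :
    ∑ m ∈ A, σ (R.mn s i0 m) = C.card * σ s + ∑ m ∈ A \ C, σ (R.μ i0 m) := by
  rw [← Finset.sum_sdiff hA, add_comm, ← nsmul_eq_mul, ← Finset.sum_const]
  congr 1
  · refine Finset.sum_congr rfl fun m hm => congrArg σ ?_
    unfold Tree.mn
    split_ifs with h
    · rfl
    · exact min_eq_left (hin m hm h)
  · refine Finset.sum_congr rfl fun m hm => congrArg σ ?_
    obtain ⟨h1, h2⟩ := Finset.mem_sdiff.1 hm
    rw [Tree.mn, if_neg fun h : m = i0 => h2 (h ▸ hi)]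
    exact min_eq_right (hout m h1 h2)

theorem ThC_num (k l b : ℕ) {x z : ℝ} (hx : x = k + 1 - 1 / 4 * b) (hz : z = l + 1 - 3 / 4 * b)
    (h0 : ¬(x = -fr b ∧ z = - -fr b)) (h1 : ¬(x = 1 - fr b ∧ z = -(1 - fr b))) :
    1 ≤ x + z ∨ x + z ≤ -1 ∨ (x + z = 0 ∧ x ≤ -1) ∨ (x + z = 0 ∧ z ≤ -1) := by
  obtain ⟨f0, f1⟩ := fr_mem b
  have hf : fr b = b / 4 - ⌊(b : ℝ) / 4⌋ := rfl
  generalize ⌊(b : ℝ) / 4⌋ = p at hf
  rcases lt_trichotomy ((k : ℤ) + l + 2) b with h | h | h
  · have : (k : ℝ) + l + 2 + 1 ≤ b := by exact_mod_cast h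
    exact .inr (.inl (by linarith only [hx, hz, this]))
  · have h2 : (k : ℝ) + l + 2 = b := by exact_mod_cast h
    have h3 : x + z = 0 := by linarith only [hx, hz, h2]
    have h4 : (k : ℤ) + 2 ≤ p ∨ k + 1 = p ∨ k = p ∨ p + 1 ≤ k := by omega
    rcases h4 with h4 | h4 | h4 | h4
    · have : (k : ℝ) + 2 ≤ p := by exact_mod_cast h4
      exact .inr (.inr (.inl ⟨h3, by linarith only [hx, f0, hf, this]⟩))
    · have : (k : ℝ) + 1 = p := by exact_mod_cast h4
      exact absurd ⟨by linarith only [hx, hf, this], by linarith only [hz, hf, h2, this]⟩ h0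
    · have : (k : ℝ) = p := by exact_mod_cast h4
      exact absurd ⟨by linarith only [hx, hf, this], by linarith only [hz, hf, h2, this]⟩ h1
    · have : (p : ℝ) + 1 ≤ k := by exact_mod_cast h4
      exact .inr (.inr (.inr ⟨h3, by linarith only [hz, f1, hf, h2, this]⟩))
  · have : (b : ℝ) + 1 ≤ k + l + 2 := by exact_mod_cast h
    exact .inl (by linarith only [hx, hz, this])

theorem ThC_ite {κ : ℝ} {f : T → ℂ} (P : Prop) [Decidable P] (h : P → S.Ge κ f) :
    S.Ge κ fun t => if P then f t else 0 := by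
  by_cases hP : P
  · simpa only [if_pos hP] using h hP
  · simpa only [if_neg hP] using S.ge_zero κ

theorem ge_trans (hc : Cfg S R σ y) (hσ : Lev σ ϑ) (hv : Vel S R σ ϑ y u D) {Sa Sb : Finset ι}
    {ea eb : ℝ} (ha : Trop R σ (1 / 4) A Sa ea) (hb : Trop R σ (3 / 4) A Sb eb)
    (ce : Finset ι → ι) (hce : ∀ C, C.Nonempty → ce C ∈ C) {s : ℕ} (hs : 1 ≤ s)
    (hC : C ∈ R.parts A s) :
    S.Ge (ea + eb) fun t => (u (ce C) t - u (ce (R.cl A (s - 1) (ce C))) t -
      D (s - 1) t * (y (ce C) t - y (ce (R.cl A (s - 1) (ce C))) t)) *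
        res A C (fun i => y i t) (y (ce C) t) 0
          (bp Sa (fun i => y i t) * bp Sb fun i => y i t) := by
  have hi := hce C (R.parts_nonempty hC)
  have hA := R.parts_subset hC hi
  have hj := hce _ ⟨_, R.self_mem_cl (s := s - 1) hA⟩
  generalize ce (R.cl A (s - 1) (ce C)) = j at hj
  generalize ce C = i at hi hA hj
  have h1 : S.Ge (σ (s - 1)) fun t => u i t - u j t - D (s - 1) t * (y i t - y j t) := by
    by_cases h : j = i
    · subst h
      simpa only [sub_self, mul_zero] using S.ge_zero _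
    · exact hv.2.2 i j (Ne.symm h) _ ((R.mem_cl.1 hj).2.resolve_left h)
  have e := R.cl_eq_of_parts hC hi
  have h2 := ge_res hc hσ hA s (s - 1)
    (fun k hk h => (Nat.sub_le s 1).trans ((R.mem_cl.1 hk).2.resolve_left h))
    fun k hk h => Nat.le_sub_one_of_lt (R.lt_of_parts hC hi hk (e ▸ h))
  rw [e] at h2
  simp only [fun t => res_taylor A C (fun i => y i t) (y i t) 0 _ _ (ThC_deg ha fun i => y i t)
    (ThC_deg hb fun i => y i t)]
  refine (h1.mul (κ' := ea + eb - σ (s - 1)) (Scale.ge_sum _ fun k _ => Scale.ge_sum _ fun l _ =>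
    (((ge_taylor_trop hc hσ ha hA (s - 1) k).mul (ge_taylor_trop hc hσ hb hA (s - 1) l)).mul
      (h2 (k + l + 0))).mono (le_of_eq ?_))).mono (le_of_eq (by ring))
  push_cast
  ring

theorem ge_dil (hc : Cfg S R σ y) (hσ : Lev σ ϑ) {s s0 s1 : ℕ} (hC : C ∈ R.parts A s) {i0 : ι}
    (hi : i0 ∈ C) (h0 : s0 < s) (h1 : s ≤ s1) (hin : ∀ i ∈ C, i ≠ i0 → s1 ≤ R.μ i0 i)
    (hout : ∀ k ∈ A, k ∉ C → R.μ i0 k ≤ s0) {Dl : T → ℂ} (hD : S.Ge (-ϑ) Dl) :
    ∃ (a b : Bool → ℝ) (l m : Bool → Finset ι → T → ℂ), (∀ p, a p + b p ≤ 0) ∧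
      -(∑ p, (a p + b p)) ≤ max 0 (ϑ - (σ s1 - σ s0) * fr C.card) +
        max 0 (ϑ - (σ s1 - σ s0) * (1 - fr C.card)) ∧
      (∀ p Sa ea, Trop R σ (1 / 4) A Sa ea → S.Ge (ea + b p) (l p Sa)) ∧
      (∀ p Sb eb, Trop R σ (3 / 4) A Sb eb → S.Ge (a p + eb) (m p Sb)) ∧
      ∀ Sa ea Sb eb, Trop R σ (1 / 4) A Sa ea → Trop R σ (3 / 4) A Sb eb →
        S.Ge (ea + eb) fun t => Dl t * res A C (fun i => y i t) (y i0 t) 1
          (bp Sa (fun i => y i t) * bp Sb fun i => y i t) - ∑ p, l p Sa t * m p Sb t := by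
  classical
  have hA := R.parts_subset hC
  have h01 : s0 ≤ s1 := h0.le.trans h1
  have hL : ϑ ≤ σ s1 - σ s0 := (hσ.2.2.2 s0).trans
    (sub_le_sub_right (hσ.2.1.monotone (h0.trans_le h1 : s0 + 1 ≤ s1)) _)
  have hϑ := hσ.2.2.1
  have e := R.cl_eq_of_parts hC hi
  have hW : ∀ s', s0 ≤ s' → s' ≤ s1 → _ := fun s' a b => ThC_W (σ := σ) hA hi
    (fun i h h' => b.trans (hin i h h')) fun k h h' => (hout k h h').trans a
  generalize ∑ m ∈ A \ C, σ (R.μ i0 m) = o at hW
  have hq : ∀ {ν e Sa}, Trop R σ ν A Sa e → ∀ s', s0 ≤ s' → s' ≤ s1 → ∀ k : ℕ,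
      S.Ge (e + ν * o - (k + 1 - ν * C.card) * σ s')
        fun t => (taylor (y i0 t) (bp Sa fun i => y i t)).coeff k := fun hT s' a b k =>
    (ge_taylor_trop hc hσ hT (hA hi) s' k).mono (le_of_eq (by rw [hW s' a b]; ring))
  have hr : ∀ s', s0 ≤ s' → s' ≤ s1 → ∀ m : ℕ, S.Ge ((m + 1 - C.card) * σ s' - o)
      fun t => res A C (fun i => y i t) (y i0 t) m 1 := fun s' a b m => by
    have h := ge_res hc hσ (hA hi) s s' (fun i h h' => b.trans (hin i (e ▸ h) h'))
      (fun k h h' => (hout k h (e ▸ h')).trans a) m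
    rw [e, hW s' a b] at h
    exact h.mono (le_of_eq (by ring))
  have hb : ((C.card - 1 : ℕ) : ℝ) + 1 - C.card = 0 := by
    rw [Nat.cast_pred (Finset.card_pos.2 ⟨_, hi⟩)]
    ring
  have hr0 := hr s0 le_rfl h01 (C.card - 1)
  rw [hb] at hr0
  let x : Bool → ℝ := fun p => cond p (1 - fr C.card) (-fr C.card)
  let sa : Bool → ℕ := fun p => cond p s0 s1
  let sb : Bool → ℕ := fun p => cond p s1 s0
  have hs : ∀ p, (s0 ≤ sa p ∧ sa p ≤ s1) ∧ s0 ≤ sb p ∧ sb p ≤ s1 := fun p => by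
    cases p
    · exact ⟨⟨h01, le_rfl⟩, le_rfl, h01⟩
    · exact ⟨⟨le_rfl, h01⟩, h01, le_rfl⟩
  refine ⟨fun p => min (-ϑ - o / 4 + x p * σ (sb p)) (-(o / 4 - x p * σ (sa p))),
    fun p => o / 4 - x p * σ (sa p),
    fun p Sa t => ∑ k ∈ Finset.range (A.card + 1), if (k : ℝ) + 1 - 1 / 4 * C.card = x p then
      (taylor (y i0 t) (bp Sa fun i => y i t)).coeff k else 0,
    fun p Sb t => ∑ k ∈ Finset.range (A.card + 1), if (k : ℝ) + 1 - 3 / 4 * C.card = -x p then
      Dl t * (taylor (y i0 t) (bp Sb fun i => y i t)).coeff k *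
        res A C (fun i => y i t) (y i0 t) (C.card - 1) 1 else 0,
    fun p => le_neg_iff_add_nonpos_right.1 (min_le_right _ _), ?_,
    fun p Sa ea ha => Scale.ge_sum _ fun k _ => ThC_ite _ fun h =>
      (hq ha _ (hs p).1.1 (hs p).1.2 k).mono (le_of_eq (by rw [h]; ring)),
    fun p Sb eb hb => Scale.ge_sum _ fun k _ => ThC_ite _ fun h =>
      ((hD.mul (hq hb _ (hs p).2.1 (hs p).2.2 k)).mul hr0).mono ?_, fun Sa ea Sb eb ha hb => ?_⟩
  · have key : ∀ a b c : ℝ, -(a + b) = c → -(min a (-b) + b) ≤ max 0 c := fun a b c h => by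
      rcases min_choice a (-b) with h' | h' <;> rw [h']
      · exact h.le.trans (le_max_right _ _)
      · exact (le_of_eq (by ring)).trans (le_max_left _ _)
    rw [Fintype.sum_bool, add_comm, neg_add]
    refine add_le_add (key _ _ _ ?_) (key _ _ _ ?_) <;> simp only [x, sa, sb, cond] <;> ring
  · rw [h]
    linarith only [min_le_left (-ϑ - o / 4 + x p * σ (sb p)) (-(o / 4 - x p * σ (sa p)))]
  simp only [fun t => res_taylor A C (fun i => y i t) (y i0 t) 1 _ _ (ThC_deg ha fun i => y i t)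
    (ThC_deg hb fun i => y i t), Finset.sum_mul_sum]
  simp only [Finset.mul_sum, Fintype.sum_bool, ← Finset.sum_add_distrib, ← Finset.sum_sub_distrib]
  refine Scale.ge_sum _ fun k _ => Scale.ge_sum _ fun l _ => ?_
  have hk : (k : ℝ) + 1 - 1 / 4 * C.card + (l + 1 - 3 / 4 * C.card) = 0 →
      C.card - 1 = k + l + 1 := fun h => by
    have : C.card = k + l + 2 := by exact_mod_cast (by linarith only [h] : (C.card : ℝ) = k + l + 2)
    omega
  have hne : x true ≠ x false := fun h => by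
    simp only [x, cond] at h
    linarith only [h]
  by_cases p0 : (k : ℝ) + 1 - 1 / 4 * C.card = x false ∧ (l : ℝ) + 1 - 3 / 4 * C.card = -x false
  · refine Scale.ge_of_ev_zero _ (.of_forall fun t => ?_)
    rw [if_pos p0.1, if_pos p0.2, if_neg fun h => hne (h.symm.trans p0.1),
      hk (by rw [p0.1, p0.2, add_neg_cancel])]
    ring
  by_cases p1 : (k : ℝ) + 1 - 1 / 4 * C.card = x true ∧ (l : ℝ) + 1 - 3 / 4 * C.card = -x true
  · refine Scale.ge_of_ev_zero _ (.of_forall fun t => ?_)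
    rw [if_pos p1.1, if_pos p1.2, if_neg fun h => hne (p1.1.symm.trans h),
      hk (by rw [p1.1, p1.2, add_neg_cancel])]
    ring
  have hz : ∀ (P Q : Prop) [Decidable P] [Decidable Q] (a b : ℂ), ¬(P ∧ Q) →
      (if P then a else 0) * (if Q then b else 0) = 0 := fun P Q _ _ a b h => by
    by_cases hP : P
    · rw [if_neg fun hQ : Q => h ⟨hP, hQ⟩, mul_zero]
    · rw [if_neg hP, zero_mul]
  simp only [hz _ _ _ _ p0, hz _ _ _ _ p1, add_zero, sub_zero]
  have hm := fun a b c a0 a1 b0 b1 c0 c1 =>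
    hD.mul (((hq ha a a0 a1 k).mul (hq hb b b0 b1 l)).mul (hr c c0 c1 (k + l + 1)))
  have hn := ThC_num k l C.card rfl rfl p0 p1
  have e2 : ((k + l + 1 : ℕ) : ℝ) + 1 - C.card =
      (k : ℝ) + 1 - 1 / 4 * C.card + (l + 1 - 3 / 4 * C.card) := by
    push_cast
    ring
  rw [e2] at hm
  generalize (k : ℝ) + 1 - 1 / 4 * C.card = X at hm hn
  generalize (l : ℝ) + 1 - 3 / 4 * C.card = Z at hm hn
  rcases hn with h | h | ⟨h, h'⟩ | ⟨h, h'⟩
  · exact (hm s0 s0 s1 le_rfl h01 le_rfl h01 h01 le_rfl).mono (by linarith only [hL, h, hϑ, mul_nonneg_of_nonpos_of_nonpos (Mathlib.Tactic.Linarith.sub_nonpos_of_le hL) (Mathlib.Tactic.Linarith.sub_nonpos_of_le h), mul_nonneg_of_nonpos_of_nonpos (Mathlib.Tactic.Linarith.sub_nonpos_of_le hϑ) (Mathlib.Tactic.Linarith.sub_nonpos_of_le h)])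
  · exact (hm s1 s1 s0 h01 le_rfl h01 le_rfl le_rfl h01).mono (by linarith only [hL, h, hϑ, mul_nonneg_of_nonpos_of_nonpos (Mathlib.Tactic.Linarith.sub_nonpos_of_le hL) (Mathlib.Tactic.Linarith.sub_nonpos_of_le h), mul_nonneg_of_nonpos_of_nonpos (Mathlib.Tactic.Linarith.sub_nonpos_of_le hϑ) (Mathlib.Tactic.Linarith.sub_nonpos_of_le h)])
  · exact (hm s1 s0 s0 h01 le_rfl le_rfl h01 le_rfl h01).mono (by linarith only [hL, h', hϑ, mul_nonneg_of_nonpos_of_nonpos (Mathlib.Tactic.Linarith.sub_nonpos_of_le hL) (Mathlib.Tactic.Linarith.sub_nonpos_of_le h'), mul_nonneg_of_nonpos_of_nonpos (Mathlib.Tactic.Linarith.sub_nonpos_of_le hϑ) (Mathlib.Tactic.Linarith.sub_nonpos_of_le h')])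
  · exact (hm s0 s1 s0 le_rfl h01 h01 le_rfl le_rfl h01).mono (by linarith only [hL, h', hϑ, mul_nonneg_of_nonpos_of_nonpos (Mathlib.Tactic.Linarith.sub_nonpos_of_le hL) (Mathlib.Tactic.Linarith.sub_nonpos_of_le h'), mul_nonneg_of_nonpos_of_nonpos (Mathlib.Tactic.Linarith.sub_nonpos_of_le hϑ) (Mathlib.Tactic.Linarith.sub_nonpos_of_le h')])

end Pool.Agent.Work.MP_677830_co.G
end

-- merged part: Pool.Agent.Work.MP_677830_co.G.ThD
section
/-!
# The determinant bound for the pairing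
cost_cluster: L = σ s1 - σ s0 ≥ L' = sum of the steps over the levels of C. If C has at least two
levels L' ≥ 2ϑ and (ϑ - L f)₊ + (ϑ - L (1-f))₊ ≤ L' |1 - 2f| / 2; if exactly one level s then
Bad A s C holds (a neighbouring level would be a second level; level_le_top) and the sum is ≤ ϑ.
ge_theta: r = 0: cost_nonneg. Otherwise A is nonempty; exists_center; th_decomp eventually.
Let CC be the set of clusters with at least two points appearing at a level in Icc 1 top, lev C its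
levels, Dl C = sum over s in lev C of (D s - D (s-1)) (order -ϑ). The dilation part equals the sum over
C in CC of Dl C * res A C .. 1 (singletons: res_single; level top+1 has only singletons).
For C in CC apply ge_dil with s = s1 = max lev, s0 = min lev - 1, i0 = ce C; choose; apply ge_bord
with P = CC × Bool (subtype); M = translation terms plus remainders; cost_cluster and a swap of
sums give the exponent.
-/

namespace Pool.Agent.Work.MP_677830_co.G

open Filter Topology Polynomial Matrix MeasureTheory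
open scoped ComplexConjugate ComplexOrder

variable {ι : Type} [Fintype ι] [DecidableEq ι] {T : Type} {S : Scale T} {R : Tree ι}
  {σ : ℕ → ℝ} {ϑ : ℝ} {y u : ι → T → ℂ} {D : ℕ → T → ℂ} {A C : Finset ι}

theorem ThD_tel (σ : ℕ → ℝ) {a b : ℕ} (h : a ≤ b) :
    ∑ s ∈ Finset.Ioc a b, (σ s - σ (s - 1)) = σ b - σ a := by
  induction b, h using Nat.le_induction with
  | base => simp
  | succ b h ih =>
    rw [Finset.sum_Ioc_succ_top h, ih, Nat.add_sub_cancel]
    ring

theorem ThD_swap {M : Type} [AddCommMonoid M] (I : Finset ℕ) (F : ℕ → Finset ι → M) :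
    ∑ s ∈ I, ∑ C ∈ R.parts A s, F s C =
      ∑ C : Finset ι, ∑ s ∈ I.filter fun s => C ∈ R.parts A s, F s C :=
  Finset.sum_comm' fun s C => by simp

theorem cost_cluster (hσ : Lev σ ϑ) (h2 : 2 ≤ C.card) {s0 s1 : ℕ} (h1 : C ∈ R.parts A s1)
    (hs : s0 < s1) (hl : ∀ s, 1 ≤ s → C ∈ R.parts A s → s0 < s ∧ s ≤ s1) :
    max 0 (ϑ - (σ s1 - σ s0) * fr C.card) + max 0 (ϑ - (σ s1 - σ s0) * (1 - fr C.card)) ≤
      ∑ s ∈ (Finset.Icc 1 R.top).filter fun s => C ∈ R.parts A s,
        ((σ s - σ (s - 1)) * (|1 - 2 * fr C.card| / 2) +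
          ϑ * if R.Bad A s C then (1 : ℝ) else 0) := by
  obtain ⟨f0, f1⟩ := fr_mem C.card
  have θ0 := hσ.2.2.1
  have m1 : ∀ s, 1 ≤ s → C ∈ R.parts A s →
      s ∈ (Finset.Icc 1 R.top).filter fun s => C ∈ R.parts A s := fun s a b =>
    Finset.mem_filter.2 ⟨Finset.mem_Icc.2 ⟨a, R.level_le_top b h2⟩, b⟩
  have p1 : ∀ s ∈ (Finset.Icc 1 R.top).filter fun s => C ∈ R.parts A s, 0 ≤ σ s - σ (s - 1) :=
    fun s h => (hσ.step (Finset.mem_Icc.1 (Finset.mem_filter.1 h).1).1).1.le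
  have p2 : ∀ s, 0 ≤ if R.Bad A s C then (1 : ℝ) else 0 := fun s => by split_ifs <;> norm_num
  have p3 := Finset.sum_nonneg p1
  have q1 := (hσ.step (s := s1) (by omega)).2
  rw [Finset.sum_add_distrib, ← Finset.sum_mul, ← Finset.mul_sum]
  by_cases hB : R.Bad A s1 C
  · have a1 := Finset.single_le_sum (fun s _ => p2 s) (m1 s1 (by omega) h1)
    have a2 := hσ.2.1.monotone (show s0 ≤ s1 - 1 by omega)
    have a3 : ϑ ≤ σ s1 - σ s0 := by linarith only [q1, a2]
    rw [if_pos hB] at a1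
    refine le_trans ?_ (add_le_add (mul_nonneg p3 (by positivity))
      (le_mul_of_one_le_right θ0 a1))
    have a4 : max 0 (ϑ - (σ s1 - σ s0) * fr C.card) ≤ ϑ * (1 - fr C.card) :=
      max_le (mul_nonneg θ0 (by linarith)) (by linarith only [f0, q1, a2, mul_nonneg_of_nonpos_of_nonpos (Mathlib.Tactic.Linarith.sub_nonpos_of_le f0) (Mathlib.Tactic.Linarith.sub_nonpos_of_le q1), mul_nonneg_of_nonpos_of_nonpos (Mathlib.Tactic.Linarith.sub_nonpos_of_le f0) (Mathlib.Tactic.Linarith.sub_nonpos_of_le a2)])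
    have a5 : max 0 (ϑ - (σ s1 - σ s0) * (1 - fr C.card)) ≤ ϑ * fr C.card :=
      max_le (mul_nonneg θ0 f0) (by linarith only [f1, q1, a2, mul_nonneg_of_nonpos_of_nonpos (le_of_lt (Mathlib.Tactic.Linarith.sub_neg_of_lt f1)) (Mathlib.Tactic.Linarith.sub_nonpos_of_le q1), mul_nonneg_of_nonpos_of_nonpos (le_of_lt (Mathlib.Tactic.Linarith.sub_neg_of_lt f1)) (Mathlib.Tactic.Linarith.sub_nonpos_of_le a2)])
    linarith
  · have a1 : s1 ≠ 1 ∧ C ∈ R.parts A (s1 - 1) := by
      by_contra h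
      exact hB ⟨h2, fun h' => by have := hl _ (by omega) h'; omega, by tauto⟩
    have a2 := Finset.sum_le_sum_of_subset_of_nonneg (s := {s1 - 1, s1})
      (Finset.insert_subset (m1 _ (by omega) a1.2)
        (Finset.singleton_subset_iff.2 (m1 s1 (by omega) h1))) fun s h _ => p1 s h
    have a3 := Finset.sum_le_sum_of_subset_of_nonneg (t := Finset.Ioc s0 s1)
      (s := (Finset.Icc 1 R.top).filter fun s => C ∈ R.parts A s)
      (f := fun s => σ s - σ (s - 1)) (fun s h => Finset.mem_Ioc.2 (hl s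
        (Finset.mem_Icc.1 (Finset.mem_filter.1 h).1).1 (Finset.mem_filter.1 h).2))
      fun s h _ => (hσ.step (by have := (Finset.mem_Ioc.1 h).1; omega)).1.le
    have q2 := (hσ.step (s := s1 - 1) (by omega)).2
    rw [Finset.sum_pair (by omega)] at a2
    rw [ThD_tel σ hs.le] at a3
    refine le_trans ?_ (le_add_of_nonneg_right (mul_nonneg θ0 (Finset.sum_nonneg fun s _ => p2 s)))
    generalize ∑ s ∈ (Finset.Icc 1 R.top).filter fun s => C ∈ R.parts A s, (σ s - σ (s - 1)) = L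
      at a2 a3 p3
    have a4 : 2 * ϑ ≤ L := by linarith only [q1, q2, a2]
    have a5 := mul_le_mul_of_nonneg_right a3 f0
    have a6 := mul_le_mul_of_nonneg_right a3 (sub_pos.2 f1).le
    rcases le_total (2 * fr C.card) 1 with h | h
    · have a7 := mul_nonneg p3 (sub_nonneg.2 h)
      rw [abs_of_nonneg (sub_nonneg.2 h), max_eq_left (b := ϑ - _ * (1 - _)) (by linarith only [q1, q2, a2, a6, a7]), add_zero]
      exact max_le (by linarith only [a7]) (by linarith only [q1, q2, a2, a5])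
    · have a7 := mul_nonneg p3 (sub_nonneg.2 h)
      rw [abs_of_nonpos (sub_nonpos.2 h), max_eq_left (by linarith only [q1, q2, a2, a5, a7]), zero_add]
      exact max_le (by linarith only [a7]) (by linarith only [q1, q2, a2, a6])

theorem ThD_dil (hc : Cfg S R σ y) (hσ : Lev σ ϑ) (hv : Vel S R σ ϑ y u D) (ce : Finset ι → ι)
    (hce : ∀ C, C.Nonempty → ce C ∈ C) (A C : Finset ι) :
    ∃ (a b : Bool → ℝ) (l m : Bool → Finset ι → T → ℂ), (∀ p, a p + b p ≤ 0) ∧
      -(∑ p, (a p + b p)) ≤ ∑ s ∈ (Finset.Icc 1 R.top).filter fun s => C ∈ R.parts A s,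
        ((σ s - σ (s - 1)) * (if 2 ≤ C.card then |1 - 2 * fr C.card| / 2 else 0) +
          ϑ * if R.Bad A s C then (1 : ℝ) else 0) ∧
      (∀ p Sa ea, Trop R σ (1 / 4) A Sa ea → S.Ge (ea + b p) (l p Sa)) ∧
      (∀ p Sb eb, Trop R σ (3 / 4) A Sb eb → S.Ge (a p + eb) (m p Sb)) ∧
      ∀ Sa ea Sb eb, Trop R σ (1 / 4) A Sa ea → Trop R σ (3 / 4) A Sb eb →
        S.Ge (ea + eb) fun t =>
          ∑ s ∈ (Finset.Icc 1 (R.top + 1)).filter fun s => C ∈ R.parts A s,
            (D s t - D (s - 1) t) * res A C (fun i => y i t) (y (ce C) t) 1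
              (bp Sa (fun i => y i t) * bp Sb fun i => y i t) - ∑ p, l p Sa t * m p Sb t := by
  by_cases h : 2 ≤ C.card ∧ ((Finset.Icc 1 (R.top + 1)).filter fun s => C ∈ R.parts A s).Nonempty
  · obtain ⟨s1, h1, h1'⟩ := Finset.exists_max_image _ id h.2
    obtain ⟨s0, h0, h0'⟩ := Finset.exists_min_image _ id h.2
    have a1 : s0 ≤ s1 := h0' s1 h1
    obtain ⟨a2, h0⟩ := Finset.mem_filter.1 h0
    replace a2 := (Finset.mem_Icc.1 a2).1
    replace h1 := (Finset.mem_filter.1 h1).2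
    have hi := hce C (R.parts_nonempty h1)
    obtain ⟨a, b, l, m, k1, k2, k3, k4, k5⟩ := ge_dil hc hσ (s0 := s0 - 1) h1 hi (by omega) le_rfl
      (fun i h2 h3 => R.le_of_parts h1 hi h2 h3.symm)
      (fun k h2 h3 => Nat.le_sub_one_of_lt (R.lt_of_parts h0 hi h2 h3))
      (Scale.ge_sum ((Finset.Icc 1 (R.top + 1)).filter fun s => C ∈ R.parts A s)
        fun s _ => (hv.2.1 s).sub (hv.2.1 (s - 1)))
    refine ⟨a, b, l, m, k1, ?_, k3, k4, fun Sa ea Sb eb ha hb => ?_⟩
    · simp only [if_pos h.1]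
      refine k2.trans (cost_cluster hσ h.1 h1 (by omega) fun s h2 h3 => ?_)
      have h4 : s ∈ (Finset.Icc 1 (R.top + 1)).filter fun s => C ∈ R.parts A s :=
        Finset.mem_filter.2 ⟨Finset.mem_Icc.2 ⟨h2, (R.level_le_top h3 h.1).trans (Nat.le_succ _)⟩, h3⟩
      have h5 : s0 ≤ s := h0' s h4
      exact ⟨by omega, h1' s h4⟩
    · simp only [← Finset.sum_mul]
      exact k5 Sa ea Sb eb ha hb
  · refine ⟨0, 0, 0, 0, fun p => by simp, ?_, fun _ _ _ _ => S.ge_zero _, fun _ _ _ _ => S.ge_zero _,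
      fun Sa ea Sb eb _ _ => Scale.ge_of_ev_zero _ (Eventually.of_forall fun t => ?_)⟩
    · refine le_of_eq_of_le (by simp) (Finset.sum_nonneg fun s hs => add_nonneg (mul_nonneg
        (hσ.step (Finset.mem_Icc.1 (Finset.mem_filter.1 hs).1).1).1.le ?_) (mul_nonneg hσ.2.2.1 ?_))
      all_goals split_ifs <;> positivity
    · rw [Finset.sum_eq_zero fun s hs => ?_]
      · simp
      have h1 := R.parts_nonempty (Finset.mem_filter.1 hs).2
      have h2 := h1.card_pos
      have h3 : ¬ 2 ≤ C.card := fun h' => h ⟨h', s, hs⟩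
      obtain ⟨i, rfl⟩ := Finset.card_eq_one.1 (show C.card = 1 by omega)
      rw [Finset.mem_singleton.1 (hce _ h1), res_single A fun i => y i t, mul_zero]

theorem ge_theta (hc : Cfg S R σ y) (hσ : Lev σ ϑ) (hv : Vel S R σ ϑ y u D) {r : ℕ}
    (Sa Sb : Fin r → Finset ι) (ea eb : Fin r → ℝ) (ha : ∀ a, Trop R σ (1 / 4) A (Sa a) (ea a))
    (hb : ∀ b, Trop R σ (3 / 4) A (Sb b) (eb b))
    (hd : ∀ a b, (Sa a).card + (Sb b).card + 2 ≤ A.card) :
    S.Ge (∑ a, ea a + ∑ b, eb b - cost R σ ϑ A) fun t =>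
      (Matrix.of fun a b => th A (fun i => y i t) (fun i => u i t) (bp (Sa a) fun i => y i t)
        (bp (Sb b) fun i => y i t)).det := by
  rcases isEmpty_or_nonempty (Fin r) with hr | ⟨⟨a0⟩⟩
  · simp only [Matrix.det_isEmpty, Finset.univ_eq_empty, Finset.sum_empty]
    exact (S.ge_const 1).mono (by linarith [cost_nonneg R hσ A])
  obtain ⟨i0, -⟩ : A.Nonempty := Finset.card_pos.1 (by have := hd a0 a0; omega)
  have : Nonempty ι := ⟨i0⟩
  obtain ⟨ce, hce⟩ := exists_center (ι := ι)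
  choose a b l m k1 k2 k3 k4 k5 using ThD_dil hc hσ hv ce hce A
  refine ((Scale.ge_bord (P := Finset ι × Bool) (fun t => Matrix.of fun i j => _)
    (fun p i => l p.1 p.2 (Sa i)) (fun p j => m p.1 p.2 (Sb j)) ea eb (fun p => a p.1 p.2)
    (fun p => b p.1 p.2) (fun i j => (Scale.ge_sum Finset.univ fun C _ =>
      k5 C _ _ _ _ (ha i) (hb j)).add (Scale.ge_sum (Finset.Icc 1 (R.top + 1)) fun s hs =>
        Scale.ge_sum (R.parts A s) fun C hC =>
          ge_trans hc hσ hv (ha i) (hb j) ce hce (Finset.mem_Icc.1 hs).1 hC))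
    (fun p i => k3 _ _ _ _ (ha i)) (fun p j => k4 _ _ _ _ (hb j)) fun p => k1 _ _).mono ?_).congr
    (hc.ev_inj.mono fun t ht => ?_)
  · have h1 := Finset.sum_le_sum fun C (_ : C ∈ Finset.univ) => k2 C
    rw [← ThD_swap, Finset.sum_neg_distrib] at h1
    rw [Fintype.sum_prod_type, cost, Tree.usum, Tree.nbad]
    simp only [Finset.sum_add_distrib, ← Finset.mul_sum] at h1 ⊢
    linarith only [h1]
  · refine congrArg Matrix.det (Matrix.ext fun i j => ?_)
    rw [Matrix.of_apply, Matrix.of_apply, Matrix.of_apply, th_decomp R ht.injOn (fun i => u i t)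
      (fun s => D s t) (hv.1 t) ce hce _ _ (by rw [natDegree_bp, natDegree_bp]; exact hd i j),
      Fintype.sum_prod_type, Finset.sum_sub_distrib, ← ThD_swap]
    simp only [Finset.sum_add_distrib]
    exact (show ∀ a b c : ℂ, a - c + b + c = a + b from fun a b c => by ring) _ _ _

end Pool.Agent.Work.MP_677830_co.G
end

-- merged part: Pool.Agent.Work.MP_677830_co.G.Plk
section
/-!
# Complementary minors and the matrix Hodge bound
-/

namespace Pool.Agent.Work.MP_677830_co.G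

open Filter Topology Polynomial Matrix MeasureTheory
open scoped ComplexConjugate ComplexOrder

theorem Plk_exp {α n : Type} [Fintype α] [DecidableEq α] [Fintype n] [DecidableEq n]
    (A : Matrix α n ℂ) (B : Matrix n α ℂ) :
    (A * B).det = ∑ f : α → n, (A.submatrix id f).det * ∏ i, B (f i) i := by
  simp only [det_apply', mul_apply, Finset.prod_univ_sum, Finset.mul_sum, Fintype.piFinset_univ,
    Finset.sum_mul, Finset.prod_mul_distrib, submatrix_apply, id, mul_assoc]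
  exact Finset.sum_comm

theorem cb_fun {α n : Type} [Fintype α] [DecidableEq α] [Fintype n] [DecidableEq n]
    (A : Matrix α n ℂ) (B : Matrix n α ℂ) :
    ((Fintype.card α).factorial : ℂ) * (A * B).det =
      ∑ f : α → n, (A.submatrix id f).det * (B.submatrix f id).det := by
  have e : ∀ f : α → n, (A.submatrix id f).det * (B.submatrix f id).det = ∑ σ : Equiv.Perm α,
      (Equiv.Perm.sign σ : ℤ) * ((A.submatrix id f).det * ∏ i, (B.submatrix id σ) (f i) i) :=
    fun f => by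
      rw [← det_transpose (B.submatrix f id), det_apply' (B.submatrix f id)ᵀ, Finset.mul_sum]
      exact Finset.sum_congr rfl fun σ _ => mul_left_comm _ _ _
  simp only [e]
  rw [Finset.sum_comm, ← Fintype.card_perm, ← nsmul_eq_mul, ← Finset.card_univ, ← Finset.sum_const]
  refine Finset.sum_congr rfl fun σ _ => ?_
  rw [← Finset.mul_sum, ← Plk_exp]
  rw [show A * B.submatrix id σ = (A * B).submatrix id σ from rfl, det_permute', ← mul_assoc,
    ← Int.cast_mul, ← Units.val_mul, Int.units_mul_self]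
  simp

theorem gram_le {α n : Type} [Fintype α] [DecidableEq α] [Fintype n] [DecidableEq n]
    (c : Matrix α n ℂ) (M : Matrix n n ℂ) (nb : n → ℝ) (h0 : ∀ k, 0 ≤ nb k)
    (h : ∀ k l, ‖M k l‖ ≤ nb k * nb l) :
    ‖(c * M * cᴴ).det‖ ≤ (∑ f : α → n, ‖(c.submatrix id f).det‖ * ∏ k, nb (f k)) ^ 2 := by
  have e : ∀ f : α → n, ‖((M * cᴴ).submatrix f id).det‖ ≤
      (∏ k, nb (f k)) * ∑ g : α → n, ‖(c.submatrix id g).det‖ * ∏ k, nb (g k) := fun f => by
    rw [show (M * cᴴ).submatrix f id = M.submatrix f id * cᴴ from rfl, ← det_transpose,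
      transpose_mul, Plk_exp, Finset.mul_sum]
    refine norm_sum_le_of_le _ fun g _ => ?_
    rw [norm_mul, show cᴴᵀ.submatrix id g = (c.submatrix id g)ᴴᵀ from rfl, det_transpose,
      det_conjTranspose, norm_star, mul_left_comm, ← Finset.prod_mul_distrib, norm_prod]
    exact mul_le_mul_of_nonneg_left
      (Finset.prod_le_prod (fun _ _ => norm_nonneg _) fun i _ => h _ _) (norm_nonneg _)
  have a1 : (1 : ℝ) ≤ ‖((Fintype.card α).factorial : ℂ)‖ := by
    rw [Complex.norm_natCast]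
    exact_mod_cast Nat.factorial_pos _
  refine (le_mul_of_one_le_left (norm_nonneg _) a1).trans ?_
  rw [← norm_mul, Matrix.mul_assoc, cb_fun, sq, Finset.sum_mul]
  refine norm_sum_le_of_le _ fun f _ => ?_
  rw [norm_mul, mul_assoc]
  exact mul_le_mul_of_nonneg_left (e f) (norm_nonneg _)

theorem Plk_split {α β m n o : Type} [Fintype α] [Fintype β] [Fintype n] (E : α ⊕ β ≃ n)
    (A : Matrix m n ℂ) (T : Matrix n o ℂ) :
    A * T = (A.submatrix id fun a => E (Sum.inl a)) * T.submatrix (fun a => E (Sum.inl a)) id +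
      (A.submatrix id fun a => E (Sum.inr a)) * T.submatrix (fun a => E (Sum.inr a)) id := by
  ext k l
  rw [mul_apply, ← E.sum_comp, Fintype.sum_sum_type]
  rfl

theorem compl_minor {α m : Type} [Fintype α] [DecidableEq α] {j r : ℕ} (E : α ⊕ Fin r ≃ Fin j)
    (c : Matrix α (Fin j) ℂ) (hc : ∀ k k', c k (E (Sum.inl k')) = if k = k' then 1 else 0)
    (B : Matrix (Fin j) (Fin j) ℂ) (hB : B.det ≠ 0) :
    ∃ X : Matrix (Fin j) (Fin r) ℂ,
      (∀ f : α → Fin j, Function.Injective f → ∃ f' : Fin r ↪ Fin j,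
        (Finset.univ.map f')ᶜ = Finset.univ.image f ∧
        ‖((c * B⁻¹).submatrix id f).det‖ * ‖B.det‖ = ‖(X.submatrix f' id).det‖) ∧
      ∀ T : Matrix (Fin j) m ℂ, c * T = 0 →
        B * T = X * T.submatrix (fun a => E (Sum.inr a)) id := by
  have c1 : (c.submatrix id fun a => E (Sum.inl a)) = 1 := by
    ext k k'
    rw [submatrix_apply, one_apply]
    exact hc k k'
  refine ⟨(B.submatrix id fun a => E (Sum.inr a)) - (B.submatrix id fun a => E (Sum.inl a)) *
    c.submatrix id fun a => E (Sum.inr a), fun f hf => ?_, fun T hT => ?_⟩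
  · have k0 := Fintype.card_congr E
    rw [Fintype.card_sum, Fintype.card_fin, Fintype.card_fin] at k0
    have k1 : (Finset.univ.image f)ᶜ.card = r := by
      rw [Finset.card_compl, Finset.card_image_of_injective _ hf, Finset.card_univ,
        Fintype.card_fin]
      omega
    obtain ⟨f', hf'⟩ : ∃ f' : Fin r ↪ Fin j, Finset.univ.map f' = (Finset.univ.image f)ᶜ :=
      ⟨_, Finset.map_orderEmbOfFin_univ _ k1⟩
    refine ⟨f', by rw [hf', compl_compl], ?_⟩
    have k2 : Function.Injective (Sum.elim f f') := hf.sumElim f'.injective fun a b e => by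
      have := hf' ▸ Finset.mem_map_of_mem f' (Finset.mem_univ b)
      exact Finset.mem_compl.1 this (Finset.mem_image.2 ⟨a, Finset.mem_univ _, e⟩)
    let G : α ⊕ Fin r ≃ Fin j := Equiv.ofBijective _
      ((Fintype.bijective_iff_injective_and_card _).2 ⟨k2, Fintype.card_congr E⟩)
    have k3 : ∀ {o : Type} (u : o → Fin j), (c * B⁻¹).submatrix id f * B.submatrix f u +
        (c * B⁻¹).submatrix id f' * B.submatrix f' u = c.submatrix id u := fun u => by
      refine (Plk_split G (c * B⁻¹) (B.submatrix id u)).symm.trans ?_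
      rw [show c * B⁻¹ * B.submatrix id u = (c * B⁻¹ * B).submatrix id u from rfl,
        nonsing_inv_mul_cancel_right _ _ hB.isUnit]
    have k4 : B.submatrix G E = fromBlocks (B.submatrix f fun a => E (Sum.inl a))
        (B.submatrix f fun a => E (Sum.inr a)) (B.submatrix f' fun a => E (Sum.inl a))
        (B.submatrix f' fun a => E (Sum.inr a)) := by
      ext (_ | _) (_ | _) <;> rfl
    have k5 := det_mul (fromBlocks ((c * B⁻¹).submatrix id f) ((c * B⁻¹).submatrix id f') 0 1)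
      (B.submatrix G E)
    rw [det_fromBlocks_zero₂₁, det_one, mul_one] at k5
    have k6 : ‖(B.submatrix G E).det‖ = ‖B.det‖ := by
      rw [show B.submatrix G E = B.reindex G.symm E.symm from rfl, det_reindex, norm_mul]
      rcases Int.units_eq_one_or (Equiv.Perm.sign (E.symm.trans G.symm.symm)) with h | h <;>
        rw [h] <;> simp
    rw [← k6, ← norm_mul, ← k5, k4, fromBlocks_multiply, k3, k3, c1, Matrix.zero_mul,
      Matrix.zero_mul, Matrix.one_mul, Matrix.one_mul, zero_add, zero_add, det_fromBlocks_one₁₁]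
    rfl
  · rw [Plk_split E, c1, Matrix.one_mul, add_eq_zero_iff_eq_neg] at hT
    rw [Plk_split E, hT, Matrix.sub_mul, Matrix.mul_neg, Matrix.mul_assoc, neg_add_eq_sub]

theorem Plk_term {j₁ j₂ r : ℕ} (M : Matrix (Fin j₁) (Fin j₂) ℂ) {nb : Fin j₁ → ℝ}
    {nb' : Fin j₂ → ℝ} (h : ∀ k, 0 ≤ nb k) (h' : ∀ k, 0 ≤ nb' k) (f : Fin r ↪ Fin j₁)
    (g : Fin r ↪ Fin j₂) : 0 ≤ ‖(M.submatrix f g).det‖ *
      ((∏ l ∈ (Finset.univ.map f)ᶜ, nb l) * ∏ l ∈ (Finset.univ.map g)ᶜ, nb' l) :=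
  mul_nonneg (norm_nonneg _)
    (mul_nonneg (Finset.prod_nonneg fun _ _ => h _) (Finset.prod_nonneg fun _ _ => h' _))

theorem msum_nonneg {j₁ j₂ : ℕ} (M : Matrix (Fin j₁) (Fin j₂) ℂ) {nb : Fin j₁ → ℝ}
    {nb' : Fin j₂ → ℝ} (h : ∀ k, 0 ≤ nb k) (h' : ∀ k, 0 ≤ nb' k) : 0 ≤ msum M nb nb' := by
  exact Finset.sum_nonneg fun _ _ => Finset.sum_nonneg fun _ _ => Finset.sum_nonneg fun _ _ =>
    Plk_term M h h' _ _

theorem Plk_single {j₁ j₂ r : ℕ} (M : Matrix (Fin j₁) (Fin j₂) ℂ) {nb : Fin j₁ → ℝ}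
    {nb' : Fin j₂ → ℝ} (h : ∀ k, 0 ≤ nb k) (h' : ∀ k, 0 ≤ nb' k) (hr : r ≤ j₁) (f : Fin r ↪ Fin j₁)
    (g : Fin r ↪ Fin j₂) : ‖(M.submatrix f g).det‖ *
      ((∏ l ∈ (Finset.univ.map f)ᶜ, nb l) * ∏ l ∈ (Finset.univ.map g)ᶜ, nb' l) ≤ msum M nb nb' :=
  ((Finset.single_le_sum (fun g _ => Plk_term M h h' f g) (Finset.mem_univ g)).trans
    (Finset.single_le_sum (fun f _ => Finset.sum_nonneg fun g _ => Plk_term M h h' f g)
      (Finset.mem_univ f))).trans
    (Finset.single_le_sum (f := fun r => ∑ f : Fin r ↪ Fin j₁, ∑ g : Fin r ↪ Fin j₂,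
      ‖(M.submatrix f g).det‖ *
        ((∏ l ∈ (Finset.univ.map f)ᶜ, nb l) * ∏ l ∈ (Finset.univ.map g)ᶜ, nb' l))
      (fun _ _ => Finset.sum_nonneg fun f _ => Finset.sum_nonneg fun g _ =>
        Plk_term M h h' f g) (Finset.mem_range.2 (Nat.lt_succ_of_le hr)))

theorem Plk_zero {α n : Type} [Fintype α] [DecidableEq α] (A : Matrix α n ℂ) {f : α → n}
    (hf : ¬ Function.Injective f) : (A.submatrix id f).det = 0 := by
  obtain ⟨a, b, h1, h2⟩ := Function.not_injective_iff.1 hf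
  exact det_zero_of_column_eq h2 fun k => congrArg (A k) h1

theorem Plk_nn {α n : Type} [Fintype α] [DecidableEq α] [Fintype n] (A : Matrix α n ℂ)
    {nb : n → ℝ} (h : ∀ k, 0 ≤ nb k) :
    0 ≤ ∑ f : α → n, ‖(A.submatrix id f).det‖ * ∏ k, nb (f k) :=
  Finset.sum_nonneg fun _ _ => mul_nonneg (norm_nonneg _) (Finset.prod_nonneg fun _ _ => h _)

theorem Plk_gram {α n : Type} [Fintype α] [DecidableEq α] [Fintype n] [DecidableEq n]
    (c : Matrix α n ℂ) (H : Matrix n n ℂ) {B : Matrix n n ℂ} (hB : B.det ≠ 0) {nb : n → ℝ}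
    (h0 : ∀ k, 0 ≤ nb k) (h : ∀ k l, ‖(B * H * Bᴴ) k l‖ ≤ nb k * nb l) :
    ‖(c * H * cᴴ).det‖ ≤ (∑ f : α → n, ‖((c * B⁻¹).submatrix id f).det‖ * ∏ k, nb (f k)) ^ 2 := by
  have e := gram_le (c * B⁻¹) _ nb h0 h
  rwa [← Matrix.mul_assoc, Matrix.mul_assoc _ Bᴴ, ← conjTranspose_mul, ← Matrix.mul_assoc _ B H,
    nonsing_inv_mul_cancel_right _ _ hB.isUnit] at e

theorem plk {α β : Type} [Fintype α] [DecidableEq α] [Fintype β] [DecidableEq β] {j₁ j₂ r : ℕ}
    (H₁ : Matrix (Fin j₁) (Fin j₁) ℂ) (H₂ : Matrix (Fin j₂) (Fin j₂) ℂ)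
    (T : Matrix (Fin j₁) (Fin j₂) ℂ) (E₁ : α ⊕ Fin r ≃ Fin j₁) (E₂ : β ⊕ Fin r ≃ Fin j₂)
    (c : Matrix α (Fin j₁) ℂ) (c' : Matrix β (Fin j₂) ℂ)
    (hc : ∀ k k', c k (E₁ (Sum.inl k')) = if k = k' then 1 else 0)
    (hc' : ∀ k k', c' k (E₂ (Sum.inl k')) = if k = k' then 1 else 0)
    (h₁ : c * T = 0) (h₂ : T * c'ᵀ = 0)
    (hΘ : (T.submatrix (fun a => E₁ (Sum.inr a)) fun a => E₂ (Sum.inr a)).det ≠ 0)
    (hG₁ : (c * H₁ * cᴴ).det ≠ 0) (hG₂ : (c' * H₂ * c'ᴴ).det ≠ 0) :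
    HBm H₁ H₂ T (Real.log ‖(c * H₁ * cᴴ).det‖ + Real.log ‖(c' * H₂ * c'ᴴ).det‖ +
      2 * Real.log ‖(T.submatrix (fun a => E₁ (Sum.inr a)) fun a => E₂ (Sum.inr a)).det‖) := by
  intro B B' nb nb' hB hB' n1 n2 b1 b2
  obtain ⟨X, x1, x2⟩ := compl_minor (m := Fin j₂) E₁ c hc B hB
  obtain ⟨X', y1, y2⟩ := compl_minor (m := Fin r) E₂ c' hc' B' hB'
  set Θ := T.submatrix (fun a => E₁ (Sum.inr a)) fun a => E₂ (Sum.inr a) with hΘ'
  have e : B * T * B'ᵀ = X * Θ * X'ᵀ := by
    have e1 := y2 (T.submatrix (fun a => E₁ (Sum.inr a)) id)ᵀ (by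
      rw [← transpose_transpose c', ← transpose_mul,
        show T.submatrix (fun a => E₁ (Sum.inr a)) id * c'ᵀ =
          (T * c'ᵀ).submatrix (fun a => E₁ (Sum.inr a)) id from rfl, h₂]
      rfl)
    have e2 := congrArg transpose e1
    rw [transpose_mul, transpose_mul, transpose_transpose] at e2
    rw [x2 T h₁, Matrix.mul_assoc, e2, Matrix.mul_assoc]
    rfl
  have g1 := Plk_gram c H₁ hB n1 b1
  have g2 := Plk_gram c' H₂ hB' n2 b2
  have r1 := Fintype.card_congr E₁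
  have r2 := Fintype.card_congr E₂
  rw [Fintype.card_sum, Fintype.card_fin, Fintype.card_fin] at r1 r2
  have m0 := msum_nonneg (B * T * B'ᵀ) n1 n2
  have key : ∀ (f : α → Fin j₁) (g : β → Fin j₂),
      ‖((c * B⁻¹).submatrix id f).det‖ * (∏ k, nb (f k)) *
        (‖((c' * B'⁻¹).submatrix id g).det‖ * ∏ k, nb' (g k)) * (‖Θ.det‖ * (‖B.det‖ * ‖B'.det‖))
        ≤ msum (B * T * B'ᵀ) nb nb' := fun f g => by
    by_cases hf : Function.Injective f
    swap
    · rwa [Plk_zero _ hf, norm_zero, zero_mul, zero_mul, zero_mul]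
    by_cases hg : Function.Injective g
    swap
    · rwa [Plk_zero _ hg, norm_zero, zero_mul, mul_zero, zero_mul]
    obtain ⟨f', f1, f2⟩ := x1 f hf
    obtain ⟨g', f3, f4⟩ := y1 g hg
    refine le_of_eq_of_le ?_ (Plk_single (B * T * B'ᵀ) n1 n2 (by omega) f' g')
    rw [e, show (X * Θ * X'ᵀ).submatrix f' g' = X.submatrix f' id * Θ * (X'.submatrix g' id)ᵀ from
      rfl, det_mul, det_mul, det_transpose, norm_mul, norm_mul, ← f2, ← f4, f1, f3,
      Finset.prod_image hf.injOn, Finset.prod_image hg.injOn]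
    ring
  have k1 := Finset.sum_le_sum fun f (_ : f ∈ Finset.univ) =>
    Finset.sum_le_sum fun g (_ : g ∈ Finset.univ) => key f g
  simp only [← Finset.sum_mul, ← Finset.mul_sum, Finset.sum_const, nsmul_eq_mul, Finset.card_univ,
    Fintype.card_fun, Fintype.card_fin, Nat.cast_pow] at k1
  have s1 := Plk_nn (c * B⁻¹) n1
  have s2 := Plk_nn (c' * B'⁻¹) n2
  generalize ∑ f : α → Fin j₁, ‖((c * B⁻¹).submatrix id f).det‖ * ∏ k, nb (f k) = S₁ at *
  generalize ∑ g : β → Fin j₂, ‖((c' * B'⁻¹).submatrix id g).det‖ * ∏ k, nb' (g k) = S₂ at *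
  have p1 : ∀ {a b : ℕ}, a ≤ b → (b : ℝ) ^ a ≤ ((b : ℝ) + 1) ^ b := fun {a b} h =>
    (pow_le_pow_left₀ b.cast_nonneg (by linarith only []) _).trans
      (pow_le_pow_right₀ (by linarith only [b.cast_nonneg (α := ℝ)]) h)
  have k2 : S₁ * S₂ * (‖Θ.det‖ * (‖B.det‖ * ‖B'.det‖)) ≤
      ((j₁ : ℝ) + 1) ^ j₁ * ((j₂ : ℝ) + 1) ^ j₂ * msum (B * T * B'ᵀ) nb nb' := by
    refine k1.trans ?_
    exact mul_le_mul_of_nonneg_right
      (mul_le_mul (p1 (by omega)) (p1 (by omega)) (by positivity) (by positivity)) m0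
  refine le_trans ?_ (pow_le_pow_left₀ (by positivity) k2 2)
  rw [Real.exp_add, Real.exp_add, two_mul, Real.exp_add, Real.exp_log (norm_pos_iff.2 hG₁),
    Real.exp_log (norm_pos_iff.2 hG₂), Real.exp_log (norm_pos_iff.2 hΘ), mul_pow (S₁ * S₂),
    mul_pow S₁, mul_pow ‖Θ.det‖, ← sq, mul_assoc]
  exact mul_le_mul_of_nonneg_right (mul_le_mul g1 g2 (norm_nonneg _) (by positivity))
    (by positivity)

theorem HB.scale {ι : Type} [DecidableEq ι] {p : ℕ} {A : Finset ι} {z v : ι → ℂ} {Φ P : ℝ}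
    (h : HB p A z v Φ) (hP : 1 ≤ P) :
    HB p A z (fun i => v i / P) (Φ - 2 * p * Real.log P) := by
  intro B B' nb nb' hB hB' n1 n2 b1 b2
  have P0 : 0 < P := by linarith
  have e : thetaM A z (fun i => v i / P) (p - 1) (3 * p - 1) =
      (P : ℂ)⁻¹ • thetaM A z v (p - 1) (3 * p - 1) := by
    ext k l
    simp only [thetaM, of_apply, Matrix.smul_apply, smul_eq_mul, Finset.mul_sum]
    exact Finset.sum_congr rfl fun i _ => by ring
  have h1 := h B B' nb nb' hB hB' n1 n2 b1 b2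
  rw [e, Matrix.mul_smul, Matrix.smul_mul]
  generalize B * thetaM A z v (p - 1) (3 * p - 1) * B'ᵀ = M at h1 ⊢
  have h2 : msum M nb nb' ≤ P ^ p * msum ((P : ℂ)⁻¹ • M) nb nb' := by
    simp only [msum, Finset.mul_sum]
    refine Finset.sum_le_sum fun r hr => Finset.sum_le_sum fun f _ =>
      Finset.sum_le_sum fun g _ => ?_
    have hr' : r ≤ p := by
      have := Finset.mem_range.1 hr
      omega
    rw [show ((P : ℂ)⁻¹ • M).submatrix f g = (P : ℂ)⁻¹ • M.submatrix f g from rfl, det_smul,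
      norm_mul, norm_pow, norm_inv, Complex.norm_real, Real.norm_of_nonneg P0.le, Fintype.card_fin,
      mul_assoc, ← mul_assoc (P ^ p)]
    refine le_mul_of_one_le_left (Plk_term M n1 n2 f g) ?_
    rw [inv_pow, ← div_eq_mul_inv, one_le_div (by positivity)]
    exact pow_le_pow_right₀ hP hr'
  have e2 : Real.exp (2 * p * Real.log P) = (P ^ p) ^ 2 := by
    rw [← pow_mul', ← Real.exp_log (pow_pos P0 _), Real.log_pow]
    push_cast
    rfl
  rw [Real.exp_sub, e2, div_mul_eq_mul_div, div_le_iff₀ (by positivity), ← mul_pow, mul_assoc,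
    mul_comm _ (P ^ p)]
  exact h1.trans (pow_le_pow_left₀ (mul_nonneg (by positivity) (msum_nonneg M n1 n2))
    (mul_le_mul_of_nonneg_left h2 (by positivity)) 2)

end Pool.Agent.Work.MP_677830_co.G
end

-- merged part: Pool.Agent.Work.MP_677830_co.G.Mer
section
/-!
# Meromorphic functions: codiscrete sets and orders
Use mem_codiscrete, mem_codiscrete', mem_codiscreteWithin_iff_forall_mem_nhdsNE,
IsCompact.finite_sdiff_of_mem_codiscreteWithin, MeromorphicOn.exists_meromorphicOrderAt_ne_top_iff_forall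
(connected univ), meromorphicOrderAt_ne_top_iff_eventually_ne_zero, meromorphicOrderAt_eq_int_iff
(f = (t - v) ^ n • g near v, g analytic, g v ≠ 0), meromorphicOrderAt_mul, _inv, _add.
ge_deriv: f' - s/(t-v) f = (t-v)^(n-1) ((n - s) g + (t - v) g') on a punctured neighbourhood.
-/

namespace Pool.Agent.Work.MP_677830_co.G

open Filter Topology Polynomial Matrix MeasureTheory
open scoped ComplexConjugate ComplexOrder

variable {f g : ℂ → ℂ} {p : ℂ → Prop} {v : ℂ}

theorem codis_iff : (∀ᶠ t in codiscrete ℂ, p t) ↔ ∀ v : ℂ, ∀ᶠ t in 𝓝[≠] v, p t := by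
  rw [Filter.Eventually, codiscrete, mem_codiscreteWithin_iff_forall_mem_nhdsNE]
  simp only [Set.mem_univ, Set.compl_univ, Set.union_empty, forall_const]
  rfl

theorem codis_open (h : ∀ᶠ t in codiscrete ℂ, p t) : ∀ᶠ t in codiscrete ℂ, ∀ᶠ s in 𝓝 t, p s := by
  exact h.mono fun t ht => (mem_codiscrete'.1 h).1.mem_nhds ht

theorem codis_finite (h : ∀ᶠ t in codiscrete ℂ, p t) (r : ℝ) : {t | ‖t‖ ≤ r ∧ ¬ p t}.Finite := by
  refine ((isCompact_closedBall (0 : ℂ) r).finite_sdiff_of_mem_codiscreteWithin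
    (codiscreteWithin_mono (Set.subset_univ _) h)).subset fun t ht => ⟨?_, ht.2⟩
  exact mem_closedBall_zero_iff.2 ht.1

theorem codis_countable (h : ∀ᶠ t in codiscrete ℂ, p t) : {t | ¬ p t}.Countable := by
  refine (Set.countable_iUnion fun n : ℕ => (codis_finite h n).countable).mono fun t ht => ?_
  obtain ⟨n, hn⟩ := exists_nat_ge ‖t‖
  exact Set.mem_iUnion.2 ⟨n, hn, ht⟩

theorem codis_neBot : (codiscrete ℂ).NeBot := by
  exact neBot_of_le (f := 𝓝[≠] (0 : ℂ)) fun s hs => codis_iff.1 hs 0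

theorem codis_shift (h : ∀ᶠ t in codiscrete ℂ, p t) (a : ℂ) : ∀ᶠ t in codiscrete ℂ, p (t + a) := by
  refine codis_iff.2 fun v => Tendsto.eventually ?_ (codis_iff.1 h (v + a))
  exact ((Homeomorph.addRight a).map_punctured_nhds_eq v).le

theorem codis_deriv (h : f =ᶠ[codiscrete ℂ] g) : deriv f =ᶠ[codiscrete ℂ] deriv g := by
  exact (codis_open h).mono fun t ht => EventuallyEq.deriv_eq ht

theorem mer_an (hf : Meromorphic f) : ∀ᶠ t in codiscrete ℂ, AnalyticAt ℂ f t := by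
  exact codis_iff.2 fun v => (hf v).eventually_analyticAt

theorem mer_dich (hf : Meromorphic f) :
    (∀ᶠ t in codiscrete ℂ, f t ≠ 0) ∨ ∀ᶠ t in codiscrete ℂ, f t = 0 := by
  by_cases h : ∃ u ∈ Set.univ, meromorphicOrderAt f u ≠ ⊤
  · exact Or.inl (codis_iff.2 fun v =>
      (meromorphicOrderAt_ne_top_iff_eventually_ne_zero (hf v)).1
        ((hf.meromorphicOn.exists_meromorphicOrderAt_ne_top_iff_forall_mem isConnected_univ).1 h v
          trivial))
  · exact Or.inr (codis_iff.2 fun v => meromorphicOrderAt_eq_top_iff.1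
      (not_not.1 fun k => h ⟨v, trivial, k⟩))

theorem mer_ne_of_at (hf : Meromorphic f) (ha : AnalyticAt ℂ f v) (h : f v ≠ 0) :
    ∀ᶠ t in codiscrete ℂ, f t ≠ 0 := by
  refine (mer_dich hf).resolve_right fun k => ?_
  obtain ⟨t, h1, h2⟩ := ((codis_iff.1 k v).and
    ((ha.continuousAt.eventually_ne h).filter_mono nhdsWithin_le_nhds)).exists
  exact h2 h1

theorem mer_shift (hf : Meromorphic f) (a : ℂ) : Meromorphic fun t => f (t + a) := by
  exact Meromorphic.meromorphic_fun_comp_add_const_iff_meromorphic.2 hf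

theorem mer_det {n : Type} [Fintype n] [DecidableEq n] {M : ℂ → Matrix n n ℂ}
    (h : ∀ i j, MeromorphicAt (fun t => M t i j) v) : MeromorphicAt (fun t => (M t).det) v := by
  simp only [Matrix.det_apply']
  exact MeromorphicAt.fun_sum fun σ _ =>
    (MeromorphicAt.const _ v).mul (MeromorphicAt.fun_prod fun i _ => h _ _)

theorem an_det {n : Type} [Fintype n] [DecidableEq n] {M : ℂ → Matrix n n ℂ}
    (h : ∀ i j, AnalyticAt ℂ (fun t => M t i j) v) : AnalyticAt ℂ (fun t => (M t).det) v := by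
  simp only [Matrix.det_apply']
  exact Finset.analyticAt_fun_sum _ fun σ _ =>
    analyticAt_const.mul (Finset.analyticAt_fun_prod _ fun i _ => h _ _)

theorem Mer_coe (hf : MeromorphicAt f v) (nf : ∀ᶠ t in 𝓝[≠] v, f t ≠ 0) :
    meromorphicOrderAt f v = ord f v :=
  (WithTop.coe_untop₀_of_ne_top
    ((meromorphicOrderAt_ne_top_iff_eventually_ne_zero hf).2 nf)).symm

theorem Mer_form (hf : MeromorphicAt f v) (nf : ∀ᶠ t in 𝓝[≠] v, f t ≠ 0) :
    ∃ u : ℂ → ℂ, AnalyticAt ℂ u v ∧ u v ≠ 0 ∧ ∀ᶠ t in 𝓝[≠] v, f t = (t - v) ^ ord f v * u t :=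
  (meromorphicOrderAt_eq_int_iff hf).1 (Mer_coe hf nf)

theorem Mer_ge {n : ℤ} (hg : ContinuousAt g v) (h : ∀ᶠ t in 𝓝[≠] v, f t = (t - v) ^ n * g t) :
    (plS v).Ge n f := by
  refine Scale.ge_of_bound fun κ hκ => ⟨‖g v‖ + 1, ?_⟩
  filter_upwards [h, (plS v).ev_lt one_pos,
    (hg.norm.eventually_lt_const (lt_add_one _)).filter_mono nhdsWithin_le_nhds] with t e1 e2 e3
  rw [e1, norm_mul, norm_zpow, mul_comm, ← Real.rpow_intCast]
  exact mul_le_mul e3.le (Real.rpow_le_rpow_of_exponent_ge e2.1 e2.2.le hκ.le) (by positivity)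
    (by positivity)

theorem ord_shift (f : ℂ → ℂ) (a v : ℂ) : ord (fun t => f (t + a)) v = ord f (v + a) := by
  rw [ord, ord, meromorphicOrderAt_fun_comp_add_const_eq_meromorphicOrderAt]

theorem ord_congr (h : f =ᶠ[𝓝[≠] v] g) : ord f v = ord g v := by
  rw [ord, ord, meromorphicOrderAt_congr h]

theorem ord_mul (hf : MeromorphicAt f v) (hg : MeromorphicAt g v) (nf : ∀ᶠ t in 𝓝[≠] v, f t ≠ 0)
    (ng : ∀ᶠ t in 𝓝[≠] v, g t ≠ 0) : ord (fun t => f t * g t) v = ord f v + ord g v := by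
  rw [ord, fun_meromorphicOrderAt_mul hf hg, Mer_coe hf nf, Mer_coe hg ng, ← WithTop.coe_add,
    WithTop.untop₀_coe]

theorem ord_inv (f : ℂ → ℂ) (v : ℂ) : ord (fun t => (f t)⁻¹) v = -ord f v := by
  rw [ord, ord, fun_meromorphicOrderAt_inv, WithTop.untop₀_neg]

theorem ord_div (hf : MeromorphicAt f v) (hg : MeromorphicAt g v) (nf : ∀ᶠ t in 𝓝[≠] v, f t ≠ 0)
    (ng : ∀ᶠ t in 𝓝[≠] v, g t ≠ 0) : ord (fun t => f t / g t) v = ord f v - ord g v := by
  simp only [div_eq_mul_inv]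
  rw [ord_mul hf hg.inv (g := fun t => (g t)⁻¹) nf (ng.mono fun t => inv_ne_zero), ord_inv,
    sub_eq_add_neg]

theorem ord_const (c v : ℂ) : ord (fun _ => c) v = 0 := by
  classical
  rw [ord, meromorphicOrderAt_const]
  split_ifs <;> rfl

theorem ord_neg (f : ℂ → ℂ) (v : ℂ) : ord (fun t => -f t) v = ord f v := by
  rw [ord, ord, ← meromorphicOrderAt_fun_neg]

theorem ord_zpow (v : ℂ) (n : ℤ) : ord (fun t => (t - v) ^ n) v = n := by
  rw [ord, fun_meromorphicOrderAt_zpow_id_sub_const, WithTop.untop₀_coe]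

theorem ord_add (hf : MeromorphicAt f v) (hg : MeromorphicAt g v) (nf : ∀ᶠ t in 𝓝[≠] v, f t ≠ 0)
    (ng : ∀ᶠ t in 𝓝[≠] v, g t ≠ 0) (ns : ∀ᶠ t in 𝓝[≠] v, f t + g t ≠ 0) :
    min (ord f v) (ord g v) ≤ ord (fun t => f t + g t) v := by
  have h := meromorphicOrderAt_add hf hg
  rw [Mer_coe hf nf, Mer_coe hg ng, Mer_coe (hf.add hg) ns, ← WithTop.coe_min] at h
  exact WithTop.coe_le_coe.1 h

theorem ord_add_of_lt (hf : MeromorphicAt f v) (hg : MeromorphicAt g v)
    (nf : ∀ᶠ t in 𝓝[≠] v, f t ≠ 0) (ng : ∀ᶠ t in 𝓝[≠] v, g t ≠ 0) (h : ord f v < ord g v) :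
    (∀ᶠ t in 𝓝[≠] v, f t + g t ≠ 0) ∧ ord (fun t => f t + g t) v = ord f v := by
  have h1 := meromorphicOrderAt_add_eq_left_of_lt (f₁ := f) hg (by
    rw [Mer_coe hf nf, Mer_coe hg ng]
    exact WithTop.coe_lt_coe.2 h)
  refine ⟨(meromorphicOrderAt_ne_top_iff_eventually_ne_zero (hf.add hg)).1 ?_,
    congrArg WithTop.untop₀ h1⟩
  rw [h1, Mer_coe hf nf]
  exact WithTop.coe_ne_top

theorem mer_dich_at (hf : MeromorphicAt f v) :
    (∀ᶠ t in 𝓝[≠] v, f t ≠ 0) ∨ ∀ᶠ t in 𝓝[≠] v, f t = 0 := by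
  exact hf.eventually_eq_zero_or_eventually_ne_zero.symm

theorem ge_ord (hf : MeromorphicAt f v) (nf : ∀ᶠ t in 𝓝[≠] v, f t ≠ 0) :
    (plS v).Ge (ord f v) f ∧ (plS v).Ge (-(ord f v : ℝ)) fun t => (f t)⁻¹ := by
  obtain ⟨u, h1, h2, h3⟩ := Mer_form hf nf
  refine ⟨Mer_ge h1.continuousAt h3, ?_⟩
  rw [← Int.cast_neg]
  refine Mer_ge (h1.continuousAt.inv₀ h2) (h3.mono fun t ht => ?_)
  rw [ht, mul_inv, _root_.zpow_neg, Pi.inv_apply]

theorem ge_deriv (hf : MeromorphicAt f v) (nf : ∀ᶠ t in 𝓝[≠] v, f t ≠ 0) {s : ℤ}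
    (hs : s ≤ ord f v) : (plS v).Ge s fun t => deriv f t - s / (t - v) * f t := by
  obtain ⟨u, h1, -, h3⟩ := Mer_form hf nf
  generalize ord f v = n at hs h3
  have h4 : ∀ᶠ t in 𝓝[≠] v, deriv f t - s / (t - v) * f t =
      (t - v) ^ (n - 1) * ((n - s) * u t) + (t - v) ^ n * deriv u t := by
    filter_upwards [h3, EventuallyEq.nhdsNE_deriv h3, self_mem_nhdsWithin,
      h1.eventually_analyticAt.filter_mono nhdsWithin_le_nhds] with t e1 e2 e3 e4
    have e5 : t - v ≠ 0 := sub_ne_zero.2 e3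
    have e6 := (((hasDerivAt_zpow n (t - v) (Or.inl e5)).comp_sub_const t v).mul
      e4.differentiableAt.hasDerivAt).deriv
    rw [e2, e1, show deriv (fun t => (t - v) ^ n * u t) t = _ from e6, zpow_sub_one₀ e5]
    field_simp
    ring
  have h5 : (plS v).Ge s fun t => (t - v) ^ n * deriv u t :=
    (Mer_ge h1.deriv.continuousAt (Eventually.of_forall fun _ => rfl)).mono (by exact_mod_cast hs)
  refine Scale.Ge.congr (Scale.Ge.add ?_ h5) (h4.mono fun t ht => ht.symm)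
  rcases hs.eq_or_lt with e | e
  · exact Scale.ge_of_ev_zero _ (Eventually.of_forall fun t => by rw [e, sub_self, zero_mul, mul_zero])
  · exact (Mer_ge (continuousAt_const.mul h1.continuousAt)
      (Eventually.of_forall fun _ => rfl)).mono (by exact_mod_cast Int.le_sub_one_of_lt e)

theorem po_le (hf : MeromorphicAt f v) {κ : ℝ} (hκ : κ < po f v) :
    ∀ᶠ t in 𝓝[≠] v, κ * -Real.log ‖t - v‖ ≤ Real.posLog ‖f t‖ := by
  rcases le_or_gt κ 0 with h | h
  · filter_upwards [(plS v).ev_lt one_pos] with t ht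
    exact (mul_nonpos_of_nonpos_of_nonneg h
      (neg_nonneg.2 (Real.log_nonpos ht.1.le ht.2.le))).trans Real.posLog_nonneg
  have h1 : κ < -(ord f v : ℝ) := by
    rw [po, Int.cast_max, Int.cast_neg, Int.cast_zero] at hκ
    exact (lt_max_iff.1 hκ).resolve_right h.not_gt
  have nf : ∀ᶠ t in 𝓝[≠] v, f t ≠ 0 := (mer_dich_at hf).resolve_right fun k => by
    rw [ord, meromorphicOrderAt_eq_top_iff.2 k] at h1
    simp only [WithTop.untop₀_top, Int.cast_zero, neg_zero] at h1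
    linarith
  filter_upwards [(ge_ord hf nf).2.logLe_neg nf κ h1] with t ht
  have h2 : -Real.log ‖f t‖ ≤ κ * Real.log ‖t - v‖ := ht
  exact le_trans (by linarith) (le_max_right 0 _)

theorem po_nonneg (f : ℂ → ℂ) (v : ℂ) : 0 ≤ po f v := by
  exact Int.cast_nonneg (le_max_right _ _)

end Pool.Agent.Work.MP_677830_co.G
end

-- merged part: Pool.Agent.Work.MP_677830_co.G.PFr
section
/-!
# The balanced frame at a point of the parameter plane
centroid: the set of integers s such that some cluster at level s has more than N/2 points is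
nonempty (s very negative) and bounded above (singletons); take the largest.
place_frame: m i k = ord (z i - z k), ultrametric (ord_add). a t = (t - v) ^ s, c = z i0 + γ a with γ
chosen so that for every i: z i - c is eventually nonzero with ord ≤ s (for each i at most one γ is bad,
since two bad ones give ord ((γ - γ') a) > s; γ ≠ 0 for i = i0). y i = a / (z i - c), u i = deriv (y i),
D s' t = s' / (t - v), n i = s - ord (z i - c) ≥ 0, y i - y k = - y i y k (z i - z k) / a has order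
n i + n k + m i k - s ≥ 0 =: μ i k (put μ i i = 0), g = n, g0 = -s. For i in the big cluster C of i0 at level s:
n i = 0; outside: ord (z i - c) = m i0 i < s, n i > 0. Level one clusters: inside C they are the level
s+1 clusters of m; a point of C and an outer point k have μ = 0 (m i k = m i0 k); so the others lie in
the complement of C. Frame: β = a'/a = s/(t-v), α = c' - β c, at points where everything is analytic.
Vel: ge_deriv for y i - y k.
-/

namespace Pool.Agent.Work.MP_677830_co.G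

open Filter Topology Polynomial Matrix MeasureTheory
open scoped ComplexConjugate ComplexOrder

variable {ι : Type} [Fintype ι] [DecidableEq ι]

theorem centroid (hN : 2 ≤ Fintype.card ι) (m : ι → ι → ℤ) : ∃ (i0 : ι) (s : ℤ),
    Fintype.card ι < 2 * (Finset.univ.filter fun k => k = i0 ∨ s ≤ m i0 k).card ∧
      ∀ i, 2 * (Finset.univ.filter fun k => k = i ∨ s + 1 ≤ m i k).card ≤ Fintype.card ι := by
  obtain ⟨b, hb⟩ := (Set.finite_range fun x : ι × ι => m x.1 x.2).bddAbove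
  obtain ⟨a, ha⟩ := (Set.finite_range fun x : ι × ι => m x.1 x.2).bddBelow
  obtain ⟨i0⟩ : Nonempty ι := Fintype.card_pos_iff.1 (by omega)
  obtain ⟨s, ⟨i, hi⟩, hs⟩ := Int.exists_greatest_of_bdd (P := fun s => ∃ i0, Fintype.card ι <
      2 * (Finset.univ.filter fun k => k = i0 ∨ s ≤ m i0 k).card)
    ⟨b, fun s ⟨i, hi⟩ => by_contra fun hs => by
      have h1 : (Finset.univ.filter fun k => k = i ∨ s ≤ m i k).card ≤ 1 :=
        Finset.card_le_one.2 fun k hk k' hk' => by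
          have h2 : m i k ≤ b := hb ⟨(i, k), rfl⟩
          have h3 : m i k' ≤ b := hb ⟨(i, k'), rfl⟩
          rw [Finset.mem_filter] at hk hk'
          exact (hk.2.resolve_right (by omega)).trans (hk'.2.resolve_right (by omega)).symm
      omega⟩
    ⟨a, i0, by
      rw [Finset.filter_true_of_mem fun k _ => Or.inr (ha ⟨(i0, k), rfl⟩), Finset.card_univ]
      omega⟩
  refine ⟨i, s, hi, fun k => not_lt.1 fun hk => ?_⟩
  have := hs (s + 1) ⟨k, hk⟩
  omega

theorem PFr_mer (c v : ℂ) (s : ℤ) : MeromorphicAt (fun t => c * (t - v) ^ s) v := by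
  fun_prop

theorem PFr_ca {c : ℂ} (hc : c ≠ 0) (v : ℂ) (s : ℤ) :
    (∀ᶠ t in 𝓝[≠] v, c * (t - v) ^ s ≠ 0) ∧ ord (fun t => c * (t - v) ^ s) v = s := by
  have h1 : ∀ᶠ t in 𝓝[≠] v, (t - v) ^ s ≠ 0 := by
    filter_upwards [self_mem_nhdsWithin] with t ht using zpow_ne_zero s (sub_ne_zero.2 ht)
  refine ⟨h1.mono fun t ht => mul_ne_zero hc ht, ?_⟩
  rw [ord_mul (f := fun _ => c) (g := fun t => (t - v) ^ s) (by fun_prop) (by fun_prop)
    (Eventually.of_forall fun _ => hc) h1, ord_const, ord_zpow, zero_add]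

theorem PFr_bad {f : ℂ → ℂ} {v : ℂ} (hf : MeromorphicAt f v) (s : ℤ) :
    {γ : ℂ | ¬((∀ᶠ t in 𝓝[≠] v, f t - γ * (t - v) ^ s ≠ 0) ∧
      ord (fun t => f t - γ * (t - v) ^ s) v ≤ s)}.Subsingleton := fun γ h γ' h' => by
  refine by_contra fun hne => h' ?_
  obtain ⟨h1, h2⟩ := PFr_ca (sub_ne_zero.2 hne) v s
  have e : ∀ t, f t - γ' * (t - v) ^ s = (γ - γ') * (t - v) ^ s + (f t - γ * (t - v) ^ s) :=
    fun t => by ring
  simp only [e]
  have hm := hf.fun_sub (PFr_mer γ v s)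
  rcases mer_dich_at hm with h3 | h3
  · have h4 := ord_add_of_lt (PFr_mer _ v s) hm h1 h3 (by
      rw [h2]
      exact not_le.1 fun h4 => h ⟨h3, h4⟩)
    exact ⟨h4.1, (h4.2.trans h2).le⟩
  · refine ⟨?_, ((ord_congr ?_).trans h2).le⟩
    · filter_upwards [h1, h3] with t h4 h5
      rwa [h5, add_zero]
    · filter_upwards [h3] with t h5
      rw [h5, add_zero]

theorem PFr_sub {f g : ℂ → ℂ} {v : ℂ} (hf : MeromorphicAt f v) (hg : MeromorphicAt g v)
    (nf : ∀ᶠ t in 𝓝[≠] v, f t ≠ 0) (ng : ∀ᶠ t in 𝓝[≠] v, g t ≠ 0)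
    (ns : ∀ᶠ t in 𝓝[≠] v, f t - g t ≠ 0) :
    min (ord f v) (ord g v) ≤ ord (fun t => f t - g t) v := by
  simp only [sub_eq_add_neg] at ns ⊢
  have h1 := ord_add hf hg.fun_neg nf (ng.mono fun t ht => neg_ne_zero.2 ht) ns
  rwa [ord_neg] at h1

omit [Fintype ι] [DecidableEq ι] in
theorem PFr_tree {y : ι → ℂ → ℂ} {v : ℂ} (ym : ∀ i, MeromorphicAt (y i) v)
    (yn : ∀ i, ∀ᶠ t in 𝓝[≠] v, y i t ≠ 0) (yo : ∀ i, 0 ≤ ord (y i) v)
    (yd : ∀ i k, i ≠ k → ∀ᶠ t in 𝓝[≠] v, y i t - y k t ≠ 0) : ∃ R : Tree ι,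
      (∀ i k, i ≠ k → (R.μ i k : ℤ) = ord (fun t => y i t - y k t) v) ∧
      Cfg (plS v) R (fun s => s) y ∧
      Vel (plS v) R (fun s => s) 1 y (fun i => deriv (y i)) fun s t => s / (t - v) := by
  have dm : ∀ i k, MeromorphicAt (fun t => y i t - y k t) v := fun i k => (ym i).fun_sub (ym k)
  have hR : ∀ i k, i ≠ k → (((ord (fun t => y i t - y k t) v).toNat : ℕ) : ℤ) =
      ord (fun t => y i t - y k t) v := fun i k h => Int.toNat_of_nonneg
    ((le_min (yo i) (yo k)).trans (PFr_sub (ym i) (ym k) (yn i) (yn k) (yd i k h)))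
  refine ⟨⟨fun i k => (ord (fun t => y i t - y k t) v).toNat, fun i k => ?_,
    fun i j k h1 h2 h3 => ?_⟩, hR, ⟨fun i => ?_, fun i k h => ?_⟩, fun t => by simp, fun s => ?_,
    fun i k h s hs => ?_⟩
  · rw [← ord_neg]
    simp only [neg_sub]
  · have h4 := ord_add (dm i j) (dm j k) (yd i j h1) (yd j k h2)
      ((yd i k h3).mono fun t ht => by rwa [sub_add_sub_cancel])
    simp only [sub_add_sub_cancel] at h4
    omega
  · exact (ge_ord (ym i) (yn i)).1.mono (by exact_mod_cast yo i)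
  · have h1 := ge_ord (dm i k) (yd i k h)
    rw [← hR i k h, Int.cast_natCast] at h1
    exact ⟨h1.1, h1.2, (yd i k h).mono fun t ht => sub_ne_zero.1 ht⟩
  · obtain ⟨h1, h2⟩ := PFr_ca one_ne_zero v (-1)
    have h3 := (ge_ord (PFr_mer 1 v (-1)) h1).1.const_mul s
    rw [h2, Int.cast_neg, Int.cast_one] at h3
    refine h3.congr (Eventually.of_forall fun t => ?_)
    rw [one_mul, _root_.zpow_neg_one, ← div_eq_mul_inv]
  · have h1 := ge_deriv (dm i k) (yd i k h) (s := s) (by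
      rw [← hR i k h]
      exact_mod_cast hs)
    rw [Int.cast_natCast, Int.cast_natCast] at h1
    refine h1.congr ?_
    filter_upwards [(ym i).eventually_analyticAt, (ym k).eventually_analyticAt] with t h2 h3
    rw [deriv_fun_sub h2.differentiableAt h3.differentiableAt]

theorem place_frame2 (hN : 2 ≤ Fintype.card ι) (z : ι → ℂ → ℂ) (v : ℂ)
    (hz : ∀ i, MeromorphicAt (z i) v) (hne : ∀ i k, i ≠ k → ∀ᶠ t in 𝓝[≠] v, z i t ≠ z k t) :
    ∃ (R : Tree ι) (y u : ι → ℂ → ℂ) (D : ℕ → ℂ → ℂ) (g : ι → ℤ) (g0 : ℤ), R.Bal ∧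
      Cfg (plS v) R (fun s => s) y ∧ Vel (plS v) R (fun s => s) 1 y u D ∧
      (∀ᶠ t in 𝓝[≠] v, Frame (fun i => z i t) (fun i => deriv (z i) t) (fun i => y i t)
        fun i => u i t) ∧
      (∀ i k, i ≠ k → (R.μ i k : ℤ) = ord (fun t => z i t - z k t) v + g i + g k + g0) ∧
      (∀ i, MeromorphicAt (y i) v ∧ (∀ᶠ t in 𝓝[≠] v, y i t ≠ 0) ∧ 0 ≤ ord (y i) v) ∧
      ∀ i k, i ≠ k → (R.μ i k : ℤ) = ord (fun t => y i t - y k t) v := by
  obtain ⟨i0, s, hC, hC'⟩ := centroid hN fun i k => ord (fun t => z i t - z k t) v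
  obtain ⟨γ, hγ⟩ := ((Set.finite_iUnion fun i =>
    (PFr_bad ((hz i).fun_sub (hz i0)) s).finite).insert 0).exists_notMem
  rw [Set.mem_insert_iff, not_or, Set.mem_iUnion, not_exists] at hγ
  set w : ι → ℂ → ℂ := fun i t => z i t - z i0 t - γ * (t - v) ^ s with hw
  have wm : ∀ i, MeromorphicAt (w i) v := fun i =>
    ((hz i).fun_sub (hz i0)).fun_sub (PFr_mer γ v s)
  have wn : ∀ i, ∀ᶠ t in 𝓝[≠] v, w i t ≠ 0 := fun i => (not_not.1 (hγ.2 i)).1
  have wo : ∀ i, ord (w i) v ≤ s := fun i => (not_not.1 (hγ.2 i)).2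
  have w0 : ord (w i0) v = s := by
    rw [← (PFr_ca (neg_ne_zero.2 hγ.1) v s).2]
    exact ord_congr (Eventually.of_forall fun t => by simp only [hw]; ring)
  have zm : ∀ i k, MeromorphicAt (fun t => z i t - z k t) v := fun i k => (hz i).fun_sub (hz k)
  have zn : ∀ i k, i ≠ k → ∀ᶠ t in 𝓝[≠] v, z i t - z k t ≠ 0 := fun i k h =>
    (hne i k h).mono fun t ht => sub_ne_zero.2 ht
  have zw : ∀ i k t, z i t - z k t = w i t - w k t := fun i k t => by simp only [hw]; ring
  have u2 : ∀ i k, i ≠ k → min (ord (fun t => z i t - z k t) v) (ord (w i) v) ≤ ord (w k) v :=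
    fun i k h => by
      have e : ∀ t, w i t - (z i t - z k t) = w k t := fun t => by rw [zw, sub_sub_cancel]
      have h1 := PFr_sub (wm i) (zm i k) (wn i) (zn i k h) ((wn k).mono fun t ht => by rwa [e])
      simp only [e] at h1
      rwa [min_comm]
  have am := PFr_mer 1 v s
  obtain ⟨an, ao⟩ := PFr_ca one_ne_zero v s
  simp only [one_mul] at am an ao
  set y : ι → ℂ → ℂ := fun i t => (t - v) ^ s / w i t with hy
  have ym : ∀ i, MeromorphicAt (y i) v := fun i => am.fun_div (wm i)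
  have yn : ∀ i, ∀ᶠ t in 𝓝[≠] v, y i t ≠ 0 := fun i => by
    filter_upwards [an, wn i] with t h1 h2 using div_ne_zero h1 h2
  have yo : ∀ i, ord (y i) v = s - ord (w i) v := fun i => by
    rw [← ao]
    exact (ord_div am (wm i) an (wn i)).trans (by rw [ao])
  have ye : ∀ i k, ∀ᶠ t in 𝓝[≠] v,
      y i t - y k t = -(y i t * ((z i t - z k t) / w k t)) := fun i k => by
    filter_upwards [wn i, wn k] with t h1 h2
    simp only [hy, zw]
    field_simp
    ring
  have qn : ∀ i k, i ≠ k → ∀ᶠ t in 𝓝[≠] v, (z i t - z k t) / w k t ≠ 0 := fun i k h => by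
    filter_upwards [zn i k h, wn k] with t h1 h2 using div_ne_zero h1 h2
  have yd : ∀ i k, i ≠ k → ∀ᶠ t in 𝓝[≠] v, y i t - y k t ≠ 0 := fun i k h => by
    filter_upwards [ye i k, yn i, qn i k h] with t h1 h2 h3
    rw [h1]
    exact neg_ne_zero.2 (mul_ne_zero h2 h3)
  obtain ⟨R, hR, h1, h2⟩ := PFr_tree ym yn (fun i => by rw [yo]; exact sub_nonneg.2 (wo i)) yd
  have hμ : ∀ i k, i ≠ k → (R.μ i k : ℤ) = ord (fun t => z i t - z k t) v +
      (s - ord (w i) v) + (s - ord (w k) v) + -s := fun i k h => by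
    rw [hR i k h, ord_congr (ye i k), ord_neg, ord_mul (ym i) ((zm i k).fun_div (wm k)) (yn i)
      (qn i k h), ord_div (zm i k) (wm k) (zn i k h) (wn k), yo]
    ring
  refine ⟨R, y, fun i => deriv (y i), fun s' t => s' / (t - v), fun i => s - ord (w i) v, -s,
    fun i => ?_, h1, h2, ?_, hμ, fun i => ⟨ym i, yn i, by rw [yo]; exact sub_nonneg.2 (wo i)⟩, hR⟩
  · have h3 : ∀ i k, ord (w i) v = s → ord (w k) v ≠ s → R.μ i k = 0 := fun i k hi hk => by
      have h : i ≠ k := fun h => hk (h ▸ hi)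
      have := hμ i k h
      have := u2 i k h
      have := wo k
      omega
    by_cases hi : ord (w i) v = s
    · refine le_trans (Nat.mul_le_mul_left 2 (Finset.card_le_card fun k hk => ?_)) (hC' i)
      rw [R.mem_cl] at hk
      refine Finset.mem_filter.2 ⟨hk.1, or_iff_not_imp_left.2 fun h => ?_⟩
      have h4 := hk.2.resolve_left h
      have h5 : ord (w k) v = s := by_contra fun h5 => by
        have := h3 i k hi h5
        omega
      have := hμ i k (Ne.symm h)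
      omega
    · have h4 : Disjoint (R.cl Finset.univ 1 i)
          (Finset.univ.filter fun k => k = i0 ∨ s ≤ ord (fun t => z i0 t - z k t) v) := by
        refine Finset.disjoint_left.2 fun k hk hk' => ?_
        have h5 : ord (w k) v = s := by
          by_cases h : k = i0
          · rw [h, w0]
          have := (Finset.mem_filter.1 hk').2.resolve_left h
          have := u2 i0 k (Ne.symm h)
          have := wo k
          omega
        rcases (R.mem_cl.1 hk).2 with h | h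
        · exact hi (h ▸ h5)
        · have := h3 k i h5 hi
          rw [R.symm] at h
          omega
      have h5 := Finset.card_le_univ (R.cl Finset.univ 1 i ∪
        Finset.univ.filter fun k => k = i0 ∨ s ≤ ord (fun t => z i0 t - z k t) v)
      rw [Finset.card_union_of_disjoint h4] at h5
      omega
  · filter_upwards [self_mem_nhdsWithin, eventually_all.2 wn,
      eventually_all.2 fun i => (hz i).eventually_analyticAt] with t ht h3 h4
    have ht' : t - v ≠ 0 := sub_ne_zero.2 ht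
    have ha : HasDerivAt (fun t : ℂ => (t - v) ^ s) (s / (t - v) * (t - v) ^ s) t := by
      refine ((hasDerivAt_zpow s (t - v) (Or.inl ht')).comp_sub_const t v).congr_deriv ?_
      rw [zpow_sub_one₀ ht']
      ring
    have hd : ∀ i, HasDerivAt (z i) (deriv (z i) t) t := fun i => (h4 i).differentiableAt.hasDerivAt
    refine ⟨(t - v) ^ s, z i0 t + γ * (t - v) ^ s, deriv (z i0) t + γ * (s / (t - v) * (t - v) ^ s) -
      s / (t - v) * (z i0 t + γ * (t - v) ^ s), s / (t - v), zpow_ne_zero s ht', fun i => ?_⟩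
    have e : z i t - (z i0 t + γ * (t - v) ^ s) = w i t := by rw [← sub_sub]
    refine ⟨sub_ne_zero.1 (e ▸ h3 i), by rw [e], ?_⟩
    have h5 : HasDerivAt (w i) _ t := ((hd i).fun_sub (hd i0)).fun_sub (ha.const_mul γ)
    have h6 : HasDerivAt (y i) _ t := ha.fun_div h5 (h3 i)
    have h7 := h3 i
    have h8 := zpow_ne_zero s ht'
    have e' : z i t = w i t + (z i0 t + γ * (t - v) ^ s) := by rw [← e, sub_add_cancel]
    change deriv (y i) t = -(((t - v) ^ s / w i t) ^ 2 / (t - v) ^ s) * _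
    beta_reduce
    rw [h6.deriv, e']
    field_simp
    ring

theorem place_frame (hN : 2 ≤ Fintype.card ι) (z : ι → ℂ → ℂ) (v : ℂ)
    (hz : ∀ i, MeromorphicAt (z i) v) (hne : ∀ i k, i ≠ k → ∀ᶠ t in 𝓝[≠] v, z i t ≠ z k t) :
    ∃ (R : Tree ι) (y u : ι → ℂ → ℂ) (D : ℕ → ℂ → ℂ) (g : ι → ℤ) (g0 : ℤ), R.Bal ∧
      Cfg (plS v) R (fun s => s) y ∧ Vel (plS v) R (fun s => s) 1 y u D ∧
      (∀ᶠ t in 𝓝[≠] v, Frame (fun i => z i t) (fun i => deriv (z i) t) (fun i => y i t)
        fun i => u i t) ∧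
      ∀ i k, i ≠ k → (R.μ i k : ℤ) = ord (fun t => z i t - z k t) v + g i + g k + g0 := by
  obtain ⟨R, y, u, D, g, g0, h1, h2, h3, h4, h5, -⟩ := place_frame2 hN z v hz hne
  exact ⟨R, y, u, D, g, g0, h1, h2, h3, h4, h5⟩

end Pool.Agent.Work.MP_677830_co.G
end

-- merged part: Pool.Agent.Work.MP_677830_co.G.Nev
section
/-!
# Nevanlinna characteristic: small tools
iter: fix r ≥ 1; choose r k outside Z in (r (2 - 2^(-k)), r (2 - 2^(-k) + 2^(-k-2))) so that
r (k+1) - r k ≥ r 2^(-k-2), r (k+1) ≤ 2 r; φ (r k) ≤ C + K (k+3) log 2 + θ φ (r (k+1)); iterate, θ^n φ (2r) → 0,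
the series of θ^k (|C| + K (k+3)) converges; φ r ≤ φ (r 0).
bdd_const: take t0 ≠ 0 where f is analytic, a = f t0; if f - a is not eventually zero, the counting
function of its zeros is bounded by TT + O(1) (first main theorem) and unbounded
(zero_iff_logCounting_bounded, or directly log (r / ‖t0‖)).
tt_mob: shift, inverse, constant multiple, shift (abs_characteristic_sub_characteristic_shift_le,
characteristic_sub_characteristic_inv_le, characteristic_mul_top_le, characteristic_congr_codiscrete).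
tt_eq: unfold characteristic, proximity_top, logCounting_top; the finsum is supported in V.
-/

namespace Pool.Agent.Work.MP_677830_co.G

open Filter Topology Polynomial Matrix MeasureTheory
open scoped ComplexConjugate ComplexOrder

variable {f g : ℂ → ℂ}

theorem iter {φ : ℝ → ℝ} (hm : MonotoneOn φ (Set.Ici 1)) {Z : Set ℝ} (hZ : Z.Countable)
    {C K θ : ℝ} (hK : 0 ≤ K) (h0 : 0 ≤ θ) (h1 : θ < 1)
    (h : ∀ r R, r ∉ Z → 1 ≤ r → r < R → R ≤ 2 * r →
      φ r ≤ C + K * Real.log (R / (R - r)) + θ * φ R) : ∃ B, ∀ r, 1 ≤ r → φ r ≤ B := by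
  have h2 : 0 < 1 - θ := sub_pos.2 h1
  set β := K / (1 - θ) with hβ
  set α := (C + 3 * K + θ * β) / (1 - θ) with hα
  have b0 : 0 ≤ β := div_nonneg hK h2.le
  have b1 : β * (1 - θ) = K := div_mul_cancel₀ _ h2.ne'
  have b2 : α * (1 - θ) = C + 3 * K + θ * β := div_mul_cancel₀ _ h2.ne'
  refine ⟨α, fun r hr => ?_⟩
  set a : ℕ → ℝ := fun k => r * (2 - (1 / 2) ^ k) with ha
  have e0 : ∀ k : ℕ, (0 : ℝ) < (1 / 2) ^ k := fun k => by positivity
  have e1 : ∀ k : ℕ, ((1 : ℝ) / 2) ^ k ≤ 1 := fun k => pow_le_one₀ (by norm_num) (by norm_num)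
  have a1 : ∀ k, r ≤ a k := fun k => by rw [ha]; linarith only [e1, hr, e1 k, mul_nonneg_of_nonpos_of_nonpos (Mathlib.Tactic.Linarith.sub_nonpos_of_le hr) (Mathlib.Tactic.Linarith.sub_nonpos_of_le (e1 k))]
  have a2 : ∀ k, a k ≤ 2 * r := fun k => by rw [ha]; linarith only [e0, hr, e0 k, mul_nonneg_of_nonpos_of_nonpos (Mathlib.Tactic.Linarith.sub_nonpos_of_le hr) (le_of_lt (Mathlib.Tactic.Linarith.sub_neg_of_lt (e0 k)))]
  have step : ∀ k : ℕ, φ (a k) ≤ C + K * (k + 3) + θ * φ (a (k + 1)) := fun k => by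
    have p0 : 0 < r * (1 / 2) ^ k := mul_pos (by linarith only [hr]) (e0 k)
    have p1 : a (k + 1) = a k + r * (1 / 2) ^ k / 2 := by simp only [ha]; ring
    obtain ⟨ρ, hρ, l1, l2⟩ := (hZ.dense_compl ℝ).exists_between
      (show a k < a k + r * (1 / 2) ^ k / 4 by linarith only [p0])
    have l3 : 1 ≤ a k := hr.trans (a1 k)
    have l4 := h ρ (a (k + 1)) hρ (by linarith only [l1, l3]) (by linarith only [p1, l1, l2]) (by linarith only [p1, l1, l3, a1, a1 k, a2 (k + 1)])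
    have l5 : Real.log (a (k + 1) / (a (k + 1) - ρ)) ≤ k + 3 := by
      have l6 : a (k + 1) / (a (k + 1) - ρ) ≤ 2 ^ (k + 3) := by
        rw [div_le_iff₀ (by linarith only [p1, l1, l2])]
        have : (2 : ℝ) ^ (k + 3) * (r * (1 / 2) ^ k / 4) = 2 * r := by
          rw [one_div, inv_pow, pow_add]
          field_simp
          norm_num
        have l7 : (2 : ℝ) ^ (k + 3) * (r * (1 / 2) ^ k / 4) ≤ 2 ^ (k + 3) * (a (k + 1) - ρ) :=
          mul_le_mul_of_nonneg_left (by linarith only [p1, l2]) (by positivity)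
        linarith only [p1, l1, l2, this, l7, a2 (k + 1)]
      have l8 := Real.log_le_log (div_pos (by linarith only [p1, l1, l2, l3]) (by linarith only [p1, l1, l2])) l6
      rw [Real.log_pow] at l8
      push_cast at l8
      linarith only [l8, Real.log_two_lt_d9, Nat.cast_nonneg (α := ℝ) k, mul_nonneg_of_nonpos_of_nonpos (Mathlib.Tactic.Linarith.sub_nonpos_of_le (Mathlib.Tactic.Linarith.natCast_nonneg ℝ k)) (le_of_lt (Mathlib.Tactic.Linarith.sub_neg_of_lt Real.log_two_lt_d9))]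
    linarith only [l4, hm, l3, l1, l5, hK, hm l3 (show ρ ∈ Set.Ici 1 from l3.trans l1.le) l1.le,
      mul_le_mul_of_nonneg_left l5 hK]
  have key : ∀ n : ℕ, φ (a 0) - α ≤ θ ^ n * (φ (a n) - α - β * n) := fun n => by
    induction n with
    | zero => simp
    | succ n ih =>
      refine ih.trans ?_
      rw [pow_succ, mul_assoc]
      refine mul_le_mul_of_nonneg_left ?_ (pow_nonneg h0 n)
      push_cast
      have := step n
      rw [← b1] at this b2
      linarith only [b2, this, this, b2]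
  have lim := (tendsto_pow_atTop_nhds_zero_of_lt_one h0 h1).mul_const (φ (2 * r) - α)
  have fin := ge_of_tendsto' lim fun n => (key n).trans (mul_le_mul_of_nonneg_left (by
    linarith only [hm, hr, a1, a2, b0, hm (hr.trans (a1 n)) (show 2 * r ∈ Set.Ici 1 from (hr.trans (a1 n)).trans (a2 n))
      (a2 n), mul_nonneg b0 (Nat.cast_nonneg n)]) (pow_nonneg h0 n))
  have : a 0 = r := by simp only [ha]; ring
  rw [this] at fin
  linarith only [fin]

theorem tt_mono (hf : Meromorphic f) : MonotoneOn (TT f) (Set.Ici 1) := by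
  exact (ValueDistribution.characteristic_monotoneOn hf).mono fun x hx =>
    Set.mem_Ioi.2 (one_pos.trans_le hx)

theorem tt_nonneg (f : ℂ → ℂ) {r : ℝ} (hr : 1 ≤ r) : 0 ≤ TT f r := by
  exact ValueDistribution.characteristic_nonneg hr

theorem tt_const (c : ℂ) (r : ℝ) : TT (fun _ => c) r = Real.posLog ‖c‖ := by
  simp [TT, ValueDistribution.characteristic]

lemma Nev_cmul (hf : Meromorphic f) {c : ℂ} (hc : c ≠ 0) (r : ℝ) :
    TT (fun t => c * f t) r ≤ Real.posLog ‖c‖ + TT f r := by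
  have h1 := ValueDistribution.proximity_mul_top_le (Meromorphic.const c) hf r
  have h2 : MeromorphicOn.divisor (fun t => c * f t) Set.univ =
      MeromorphicOn.divisor f Set.univ := by
    ext z
    rw [MeromorphicOn.divisor_apply hf.meromorphicOn (Set.mem_univ z), MeromorphicOn.divisor_apply
      (f := fun t => c * f t) ((Meromorphic.const c).mul hf).meromorphicOn (Set.mem_univ z)]
    exact congrArg _ (meromorphicOrderAt_mul_of_ne_zero (g := fun _ => c) analyticAt_const hc)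
  simp only [TT, ValueDistribution.characteristic, Pi.add_apply, ValueDistribution.logCounting_top,
    ValueDistribution.proximity_const, h2] at h1 ⊢
  exact (add_le_add h1 le_rfl).trans_eq (add_assoc _ _ _)

theorem tt_sub (hf : Meromorphic f) (hg : Meromorphic g) {r : ℝ} (hr : 1 ≤ r) :
    TT (fun t => f t - g t) r ≤ TT f r + TT g r + Real.log 2 := by
  have h1 := ValueDistribution.characteristic_add_top_le hf ((Meromorphic.const (-1)).mul hg) hr
  have h2 := Nev_cmul hg (c := -1) (by norm_num) r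
  have e : (fun t => f t - g t) = f + (fun _ => -1) * g := by
    funext t
    simp [sub_eq_add_neg]
  rw [norm_neg, norm_one, Real.posLog_one, zero_add] at h2
  rw [e]
  exact h1.trans (add_le_add (add_le_add le_rfl h2) le_rfl)

theorem bdd_const (hf : Meromorphic f) {B : ℝ} (h : ∀ r, 1 ≤ r → TT f r ≤ B) :
    ∃ a : ℂ, ∀ᶠ t in codiscrete ℂ, f t = a := by
  have := codis_neBot
  obtain ⟨v, hv⟩ := (mer_an hf).exists
  have hh : Meromorphic fun t => f t - f v := hf.sub (Meromorphic.const _)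
  rcases mer_dich hh with hd | hd
  swap
  · exact ⟨f v, hd.mono fun t ht => sub_eq_zero.1 ht⟩
  exfalso
  have hb : (MeromorphicOn.divisor (fun t => f t - f v) Set.univ)⁺ = 0 := by
    rw [Function.locallyFinsuppWithin.zero_iff_logCounting_bounded (posPart_nonneg _),
      ← ValueDistribution.logCounting_zero]
    refine Asymptotics.IsBigO.of_bound (B + (Real.posLog ‖f v‖ + Real.log 2) +
      max |Real.log ‖f 0 - f v‖| |Real.log ‖meromorphicTrailingCoeffAt (fun t => f t - f v) 0‖|) ?_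
    filter_upwards [eventually_ge_atTop 1] with r hr
    have h1 := abs_le.1
      (ValueDistribution.abs_characteristic_sub_characteristic_shift_le (a₀ := f v) (r := r) hf)
    have h2 := abs_le.1 (ValueDistribution.characteristic_sub_characteristic_inv_le (R := r) hh)
    have h3 : ValueDistribution.logCounting (fun t => f t - f v) 0 r ≤
        ValueDistribution.characteristic (fun t => f t - f v)⁻¹ ⊤ r := by
      rw [ValueDistribution.characteristic, ValueDistribution.logCounting_inv]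
      exact le_add_of_nonneg_left (ValueDistribution.proximity_nonneg r)
    rw [Real.norm_of_nonneg (ValueDistribution.logCounting_nonneg hr), Pi.one_apply, norm_one,
      mul_one]
    linarith only [h1, h2, h3, h, hr, h r hr, h1.1, h2.1]
  have h1 : 0 < meromorphicOrderAt (fun t => f t - f v) v := by
    rw [← tendsto_zero_iff_meromorphicOrderAt_pos (hh v), ← sub_self (f v)]
    exact (hv.continuousAt.tendsto.sub_const _).mono_left nhdsWithin_le_nhds
  have h2 := (meromorphicOrderAt_ne_top_iff_eventually_ne_zero (hh v)).2 (codis_iff.1 hd v)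
  have h3 := DFunLike.congr_fun hb v
  rw [Function.locallyFinsuppWithin.posPart_apply,
    MeromorphicOn.divisor_apply hh.meromorphicOn (Set.mem_univ v)] at h3
  obtain ⟨n, hn⟩ := WithTop.ne_top_iff_exists.1 h2
  rw [← hn] at h1 h3
  have h4 : 0 < n := by exact_mod_cast h1
  have h5 : n⁺ = 0 := by simpa using h3
  exact absurd (posPart_eq_zero.1 h5) h4.not_ge

theorem tt_mob (hf : Meromorphic f) {a b κ : ℂ} (hab : a ≠ b) (hκ : κ ≠ 0)
    (hne : ∀ᶠ t in codiscrete ℂ, f t ≠ b)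
    (e : ∀ᶠ t in codiscrete ℂ, g t = κ * ((f t - a) / (f t - b))) :
    ∃ C : ℝ, ∀ r, 1 ≤ r → TT f r ≤ TT g r + C := by
  have hb : Meromorphic fun t => f t - b := hf.sub (Meromorphic.const _)
  have hg : Meromorphic fun t => κ * ((f t - a) / (f t - b)) :=
    (Meromorphic.const κ).mul ((hf.sub (Meromorphic.const _)).div hb)
  have hba : b - a ≠ 0 := sub_ne_zero.2 hab.symm
  have hc : (κ * (b - a))⁻¹ ≠ 0 := inv_ne_zero (mul_ne_zero hκ hba)
  refine ⟨Real.posLog ‖b‖ + Real.log 2 + max |Real.log ‖f 0 - b‖|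
    |Real.log ‖meromorphicTrailingCoeffAt (fun t => f t - b) 0‖| +
    (Real.posLog ‖(b - a)⁻¹‖ + Real.log 2) + Real.posLog ‖(κ * (b - a))⁻¹‖, fun r hr => ?_⟩
  have r0 : r ≠ 0 := (one_pos.trans_le hr).ne'
  have h1 := abs_le.1
    (ValueDistribution.abs_characteristic_sub_characteristic_shift_le (a₀ := b) (r := r) hf)
  have h2 := abs_le.1 (ValueDistribution.characteristic_sub_characteristic_inv_le (R := r) hb)
  have h3 := abs_le.1 (ValueDistribution.abs_characteristic_sub_characteristic_shift_le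
    (a₀ := (b - a)⁻¹) (r := r) (f := fun t => (κ * (b - a))⁻¹ * (κ * ((f t - a) / (f t - b))))
    ((Meromorphic.const _).mul hg))
  have h4 := Nev_cmul hg hc r
  have h5 : TT g r = TT (fun t => κ * ((f t - a) / (f t - b))) r :=
    ValueDistribution.characteristic_congr_codiscrete e r0
  have h6 : TT (fun t => f t - b)⁻¹ r =
      TT (fun t => (κ * (b - a))⁻¹ * (κ * ((f t - a) / (f t - b))) - (b - a)⁻¹) r := by
    refine ValueDistribution.characteristic_congr_codiscrete (hne.mono fun t ht => ?_) r0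
    have := sub_ne_zero.2 ht
    simp only [Pi.inv_apply]
    field_simp
    ring
  simp only [TT] at h4 h5 h6 ⊢
  linarith only [h1, h2, h3, h4, h5, h6, h1.2, h2.2, h3.1]

theorem tt_eq (hf : Meromorphic f) {r : ℝ} (hr : 0 < r) (V : Finset ℂ)
    (hV : ∀ v ∈ V, v ≠ 0 ∧ ‖v‖ < r) (ha : ∀ t, ‖t‖ ≤ r → t ∉ V → AnalyticAt ℂ f t) :
    TT f r = Real.circleAverage (fun t => Real.posLog ‖f t‖) 0 r +
      ∑ v ∈ V, po f v * Real.log (r / ‖v‖) := by
  have d : ∀ z, ((((MeromorphicOn.divisor f Set.univ)⁻ z : ℤ)) : ℝ) = po f z := fun z => by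
    rw [Function.locallyFinsuppWithin.negPart_apply,
      MeromorphicOn.divisor_apply hf.meromorphicOn (Set.mem_univ z)]
    rfl
  have d0 : ∀ z, ‖z‖ ≤ r → z ∉ V → po f z = 0 := fun z h1 h2 => by
    have := WithTop.untop₀_nonneg.2 (ha z h1 h2).meromorphicOrderAt_nonneg
    rw [po, ord, max_eq_right (neg_nonpos.2 this), Int.cast_zero]
  have m : ∀ z : ℂ, z ∈ Metric.closedBall (0 : ℂ) |r| ↔ ‖z‖ ≤ r := fun z => by
    rw [mem_closedBall_zero_iff, abs_of_pos hr]
  rw [TT, ValueDistribution.characteristic, Pi.add_apply, ValueDistribution.proximity_top,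
    ValueDistribution.logCounting_top]
  congr 1
  change ∑ᶠ z, ((MeromorphicOn.divisor f Set.univ)⁻.toClosedBall r z : ℝ) * Real.log (r * ‖z‖⁻¹) +
    ((MeromorphicOn.divisor f Set.univ)⁻ 0 : ℝ) * Real.log r = _
  rw [d, d0 0 (by simpa using hr.le) fun h => (hV 0 h).1 rfl, zero_mul, add_zero,
    finsum_eq_sum_of_support_subset (s := V)]
  · refine Finset.sum_congr rfl fun v hv => ?_
    rw [Function.locallyFinsuppWithin.toClosedBall_eval_within _ ((m v).2 (hV v hv).2.le), d,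
      div_eq_mul_inv]
  · intro z hz
    by_contra hzV
    have h1 : z ∈ Metric.closedBall (0 : ℂ) |r| :=
      Function.locallyFinsuppWithin.toClosedBall_support_subset_closedBall
        (MeromorphicOn.divisor f Set.univ)⁻ (fun h => hz (by simp only [h, Int.cast_zero, zero_mul]))
    refine hz ?_
    simp only [Function.locallyFinsuppWithin.toClosedBall_eval_within _ h1, d,
      d0 z ((m z).1 h1) hzV, zero_mul]

end Pool.Agent.Work.MP_677830_co.G
end

-- merged part: Pool.Agent.Work.MP_677830_co.G.TBd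
section
/-!
# Functions with dominated characteristic
Apply to the shifted functions (mer_shift, codis_shift): tt_const, characteristic_add_top_le,
characteristic_mul_top_le (if a factor vanishes eventually the product is eventually the constant 0;
otherwise all orders are finite), characteristic_sub_characteristic_inv_le,
characteristic_pow_top, characteristic_congr_codiscrete, tt_nonneg.
-/

namespace Pool.Agent.Work.MP_677830_co.G

open Filter Topology Polynomial Matrix MeasureTheory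
open scoped ComplexConjugate ComplexOrder

variable {κ : Type} [Fintype κ] {F : κ → ℂ → ℂ} {f g : ℂ → ℂ}

lemma TBd_two {u : ℂ → ℂ} (hf : TBd F f) (hg : TBd F g) (hu : Meromorphic u)
    (h : ∀ a : ℂ, ∃ D : ℝ, ∀ r, 1 ≤ r → TT (fun t => u (t + a)) r ≤
      TT (fun t => f (t + a)) r + TT (fun t => g (t + a)) r + D) : TBd F u := by
  refine ⟨hu, fun a => ?_⟩
  obtain ⟨C, K, h0, h1⟩ := hf.2 a
  obtain ⟨C', K', h2, h3⟩ := hg.2 a
  obtain ⟨D, h4⟩ := h a
  exact ⟨C + C' + D, K + K', add_nonneg h0 h2, fun r hr => by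
    linarith [h1 r hr, h3 r hr, h4 r hr]⟩

lemma TBd_one {u : ℂ → ℂ} (hf : TBd F f) (hu : Meromorphic u)
    (h : ∀ a : ℂ, ∃ D : ℝ, ∀ r, 1 ≤ r → TT (fun t => u (t + a)) r ≤
      TT (fun t => f (t + a)) r + D) : TBd F u :=
  TBd_two hf hf hu fun a => (h a).imp fun _ k r hr => by
    linarith [k r hr, tt_nonneg (fun t => f (t + a)) hr]

lemma TBd_tt_mul (hf : Meromorphic f) (hg : Meromorphic g) {r : ℝ} (hr : 1 ≤ r) :
    TT (fun t => f t * g t) r ≤ TT f r + TT g r := by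
  have z : (∀ᶠ t in codiscrete ℂ, f t * g t = 0) → TT (fun t => f t * g t) r ≤ TT f r + TT g r :=
    fun e => by
      have h1 : TT (fun t => f t * g t) r = TT (fun _ => 0) r :=
        ValueDistribution.characteristic_congr_codiscrete e (one_pos.trans_le hr).ne'
      rw [h1, tt_const, norm_zero, Real.posLog_zero]
      exact add_nonneg (tt_nonneg f hr) (tt_nonneg g hr)
  rcases mer_dich hf with h1 | h1
  · rcases mer_dich hg with h2 | h2
    · exact ValueDistribution.characteristic_mul_top_le hr hf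
        (fun v => (meromorphicOrderAt_ne_top_iff_eventually_ne_zero (hf v)).2 (codis_iff.1 h1 v)) hg
        fun v => (meromorphicOrderAt_ne_top_iff_eventually_ne_zero (hg v)).2 (codis_iff.1 h2 v)
    · exact z (h2.mono fun t ht => by rw [ht, mul_zero])
  · exact z (h1.mono fun t ht => by rw [ht, zero_mul])

theorem tbd_mem (hF : ∀ j, Meromorphic (F j)) (j : κ) : TBd F (F j) := by
  refine ⟨hF j, fun a => ⟨0, 1, zero_le_one, fun r hr => ?_⟩⟩
  rw [zero_add, one_mul]
  exact Finset.single_le_sum (f := fun j => TT (fun t => F j (t + a)) r)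
    (fun i _ => tt_nonneg _ hr) (Finset.mem_univ j)

theorem tbd_const (c : ℂ) : TBd F fun _ => c := by
  exact ⟨Meromorphic.const c, fun a => ⟨Real.posLog ‖c‖, 0, le_rfl, fun r _ => by
    rw [zero_mul, add_zero]
    exact (tt_const c r).le⟩⟩

theorem TBd.congr (hf : TBd F f) (hg : Meromorphic g) (e : ∀ᶠ t in codiscrete ℂ, g t = f t) :
    TBd F g := by
  refine TBd_one hf hg fun a => ⟨0, fun r hr => ?_⟩
  rw [add_zero]
  exact le_of_eq (ValueDistribution.characteristic_congr_codiscrete (codis_shift e a)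
    (one_pos.trans_le hr).ne')

theorem TBd.add (hf : TBd F f) (hg : TBd F g) : TBd F fun t => f t + g t := by
  exact TBd_two hf hg (hf.1.add hg.1) fun a => ⟨Real.log 2, fun r hr =>
    ValueDistribution.characteristic_add_top_le (mer_shift hf.1 a) (mer_shift hg.1 a) hr⟩

theorem TBd.mul (hf : TBd F f) (hg : TBd F g) : TBd F fun t => f t * g t := by
  exact TBd_two hf hg (hf.1.mul hg.1) fun a => ⟨0, fun r hr =>
    (TBd_tt_mul (mer_shift hf.1 a) (mer_shift hg.1 a) hr).trans_eq (add_zero _).symm⟩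

theorem TBd.sub (hf : TBd F f) (hg : TBd F g) : TBd F fun t => f t - g t := by
  exact TBd_two hf hg (hf.1.sub hg.1) fun a => ⟨Real.log 2, fun r hr =>
    tt_sub (mer_shift hf.1 a) (mer_shift hg.1 a) hr⟩

theorem TBd.inv (hf : TBd F f) : TBd F fun t => (f t)⁻¹ := by
  exact TBd_one hf hf.1.inv fun a => ⟨_, fun r _ => neg_le_sub_iff_le_add.1 (abs_le.1
    (ValueDistribution.characteristic_sub_characteristic_inv_le (R := r) (mer_shift hf.1 a))).1⟩

theorem TBd.sqrt (hf : TBd F f) (hg : Meromorphic g) (e : ∀ᶠ t in codiscrete ℂ, g t ^ 2 = f t) :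
    TBd F g := by
  refine TBd_one hf hg fun a => ⟨0, fun r hr => ?_⟩
  have h1 : TT ((fun t => g (t + a)) ^ 2) r = TT (fun t => f (t + a)) r :=
    ValueDistribution.characteristic_congr_codiscrete (codis_shift e a) (one_pos.trans_le hr).ne'
  have h2 : TT ((fun t => g (t + a)) ^ 2) r = 2 * TT (fun t => g (t + a)) r := by
    rw [TT, ValueDistribution.characteristic_pow_top (mer_shift hg a), Pi.smul_apply, nsmul_eq_mul,
      Nat.cast_ofNat, TT]
  linarith [tt_nonneg (fun t => g (t + a)) hr]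

end Pool.Agent.Work.MP_677830_co.G
end

-- merged part: Pool.Agent.Work.MP_677830_co.G.QM
section
/-!
# Meromorphic functions on the double cover
QM.inv: if U^2 - h V^2 is eventually nonzero, (U + r V)⁻¹ = (U - r V) / (U^2 - h V^2); otherwise it
vanishes eventually (mer_dich), then V vanishes eventually (else h = (U / V)^2) and so does U, and F
and its inverse vanish. QM.dich likewise. QM.an: codis_open and mer_an. QM.ne_of_br: if F vanishes
for all roots off a discrete set then s ↦ F s (r s) vanishes on a punctured neighbourhood of t,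
hence at t by continuity. exists_br: r s = r0 * exp (log (h s / h t) / 2) near t.
br_deriv: 2 r r' = h' at t, r ≠ 0.
-/

namespace Pool.Agent.Work.MP_677830_co.G

open Filter Topology Polynomial Matrix MeasureTheory
open scoped ComplexConjugate ComplexOrder

variable {h : ℂ → ℂ} {F G : ℂ → ℂ → ℂ} {r : ℂ → ℂ} {t : ℂ}

theorem NS.ne (hn : NS h) : ∀ᶠ t in codiscrete ℂ, h t ≠ 0 := by
  exact (mer_dich hn.1).resolve_right fun k =>
    hn.2 ⟨fun _ => 0, .const 0, k.mono fun t ht => by rw [ht, zero_pow two_ne_zero]⟩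

theorem qm_mer {U : ℂ → ℂ} (hU : Meromorphic U) : QM h fun t _ => U t := by
  exact ⟨U, fun _ => 0, hU, .const 0, .of_forall fun _ _ _ => by rw [mul_zero, add_zero]⟩

theorem qm_const (c : ℂ) : QM h fun _ _ => c := by
  exact qm_mer (.const c)

theorem qm_root : QM h fun _ r => r := by
  exact ⟨fun _ => 0, fun _ => 1, .const 0, .const 1, .of_forall fun _ _ _ => by
    rw [mul_one, zero_add]⟩

theorem QM.congr (hF : QM h F) (e : ∀ᶠ t in codiscrete ℂ, ∀ r, r ^ 2 = h t → G t r = F t r) :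
    QM h G := by
  obtain ⟨U, V, hU, hV, k⟩ := hF
  exact ⟨U, V, hU, hV, (e.and k).mono fun t ht r hr => (ht.1 r hr).trans (ht.2 r hr)⟩

theorem QM.add (hF : QM h F) (hG : QM h G) : QM h fun t r => F t r + G t r := by
  obtain ⟨U, V, hU, hV, k⟩ := hF
  obtain ⟨U', V', hU', hV', k'⟩ := hG
  refine ⟨U + U', V + V', hU.add hU', hV.add hV', (k.and k').mono fun t ht r hr => ?_⟩
  simp only [ht.1 r hr, ht.2 r hr, Pi.add_apply]
  ring

theorem QM.neg (hF : QM h F) : QM h fun t r => -F t r := by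
  obtain ⟨U, V, hU, hV, k⟩ := hF
  refine ⟨-U, -V, hU.neg, hV.neg, k.mono fun t ht r hr => ?_⟩
  simp only [ht r hr, Pi.neg_apply]
  ring

theorem QM.sub (hF : QM h F) (hG : QM h G) : QM h fun t r => F t r - G t r := by
  simpa only [sub_eq_add_neg] using hF.add hG.neg

theorem QM.mul (hh : Meromorphic h) (hF : QM h F) (hG : QM h G) :
    QM h fun t r => F t r * G t r := by
  obtain ⟨U, V, hU, hV, k⟩ := hF
  obtain ⟨U', V', hU', hV', k'⟩ := hG
  refine ⟨U * U' + h * (V * V'), U * V' + V * U', (hU.mul hU').add (hh.mul (hV.mul hV')),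
    (hU.mul hV').add (hV.mul hU'), (k.and k').mono fun t ht r hr => ?_⟩
  simp only [ht.1 r hr, ht.2 r hr, Pi.add_apply, Pi.mul_apply, ← hr]
  ring

theorem QM.pow (hh : Meromorphic h) (hF : QM h F) (n : ℕ) : QM h fun t r => F t r ^ n := by
  induction n with
  | zero => simpa only [pow_zero] using qm_const 1
  | succ n ih => simpa only [pow_succ] using ih.mul hh hF

theorem QM.conj (hF : QM h F) : QM h fun t r => F t (-r) := by
  obtain ⟨U, V, hU, hV, k⟩ := hF
  refine ⟨U, -V, hU, hV.neg, k.mono fun t ht r hr => ?_⟩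
  simp only [ht (-r) ((neg_sq r).trans hr), Pi.neg_apply]
  ring

theorem qm_sum {κ : Type} (s : Finset κ) {F : κ → ℂ → ℂ → ℂ} (hF : ∀ j ∈ s, QM h (F j)) :
    QM h fun t r => ∑ j ∈ s, F j t r := by
  induction s using Finset.cons_induction with
  | empty => exact qm_const 0
  | cons a s ha ih =>
    simp only [Finset.sum_cons]
    exact (hF a (Finset.mem_cons_self a s)).add (ih fun j hj => hF j (Finset.mem_cons_of_mem hj))

theorem qm_prod (hh : Meromorphic h) {κ : Type} (s : Finset κ) {F : κ → ℂ → ℂ → ℂ}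
    (hF : ∀ j ∈ s, QM h (F j)) : QM h fun t r => ∏ j ∈ s, F j t r := by
  induction s using Finset.cons_induction with
  | empty => exact qm_const 1
  | cons a s ha ih =>
    simp only [Finset.prod_cons]
    exact (hF a (Finset.mem_cons_self a s)).mul hh (ih fun j hj => hF j (Finset.mem_cons_of_mem hj))

theorem qm_det (hh : Meromorphic h) {n : Type} [Fintype n] [DecidableEq n]
    {M : ℂ → ℂ → Matrix n n ℂ} (hM : ∀ i j, QM h fun t r => M t r i j) :
    QM h fun t r => (M t r).det := by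
  simp only [Matrix.det_apply']
  exact qm_sum _ fun σ _ => (qm_const _).mul hh (qm_prod hh _ fun i _ => hM _ _)

theorem QM_dich (hn : NS h) {U V : ℂ → ℂ} (hU : Meromorphic U) (hV : Meromorphic V) :
    (∀ᶠ t in codiscrete ℂ, U t ^ 2 - h t * V t ^ 2 ≠ 0) ∨
      ∀ᶠ t in codiscrete ℂ, U t = 0 ∧ V t = 0 := by
  refine (mer_dich ((hU.pow (n := 2)).sub (hn.1.mul (hV.pow (n := 2))))).imp_right fun e => ?_
  rcases mer_dich hV with k | k
  · exact (hn.2 ⟨U / V, hU.div hV, (e.and k).mono fun t ht => by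
      rw [Pi.div_apply, div_pow, div_eq_iff (pow_ne_zero 2 ht.2)]
      exact sub_eq_zero.1 ht.1⟩).elim
  · exact (e.and k).mono fun t ht => ⟨by simpa [ht.2] using ht.1, ht.2⟩

theorem QM.inv (hn : NS h) (hF : QM h F) : QM h fun t r => (F t r)⁻¹ := by
  obtain ⟨U, V, hU, hV, k⟩ := hF
  have hN := (hU.pow (n := 2)).sub (hn.1.mul (hV.pow (n := 2)))
  rcases QM_dich hn hU hV with e | e
  · refine ⟨_, _, hU.div hN, hV.neg.div hN, (k.and e).mono fun t ht r hr => ?_⟩
    have := ht.2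
    simp only [ht.1 r hr, Pi.div_apply, Pi.sub_apply, Pi.mul_apply, Pi.pow_apply, Pi.neg_apply]
    refine inv_eq_of_mul_eq_one_right ?_
    rw [← mul_div_assoc, ← add_div, ← mul_div_assoc, div_eq_one_iff_eq this, ← hr]
    ring
  · exact (qm_const 0).congr ((k.and e).mono fun t ht r hr => by simp [ht.1 r hr, ht.2.1, ht.2.2])

theorem QM.dich (hn : NS h) (hF : QM h F) :
    (∀ᶠ t in codiscrete ℂ, ∀ r, r ^ 2 = h t → F t r ≠ 0) ∨
      ∀ᶠ t in codiscrete ℂ, ∀ r, r ^ 2 = h t → F t r = 0 := by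
  obtain ⟨U, V, hU, hV, k⟩ := hF
  refine (QM_dich hn hU hV).imp (fun e => (k.and e).mono fun t ht r hr h0 => absurd ?_ ht.2)
    fun e => (k.and e).mono fun t ht r hr => by simp [ht.1 r hr, ht.2.1, ht.2.2]
  rw [ht.1 r hr] at h0
  linear_combination (U t - r * V t) * h0 + V t ^ 2 * hr

theorem QM.an (hF : QM h F) :
    ∀ᶠ t in codiscrete ℂ, ∀ r, Br h r t → AnalyticAt ℂ (fun s => F s (r s)) t := by
  obtain ⟨U, V, hU, hV, k⟩ := hF
  filter_upwards [codis_open k, mer_an hU, mer_an hV] with t e1 e2 e3 r hr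
  exact (e2.add (hr.1.mul e3)).congr ((e1.and hr.2).mono fun s hs => (hs.1 _ hs.2).symm)

theorem QM.ne_of_br (hn : NS h) (hF : QM h F) (hr : Br h r t)
    (hc : ContinuousAt (fun s => F s (r s)) t) (h0 : F t (r t) ≠ 0) :
    ∀ᶠ t in codiscrete ℂ, ∀ r, r ^ 2 = h t → F t r ≠ 0 := by
  refine (hF.dich hn).resolve_right fun k => ?_
  obtain ⟨s, h1, h2, h3⟩ := ((codis_iff.1 k t).and
    (((hc.eventually_ne h0).and hr.2).filter_mono nhdsWithin_le_nhds)).exists
  exact h2 (h1 _ h3)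

theorem qm_zz {ι : Type} {A B : ι → ℂ → ℂ} (hA : ∀ i, Meromorphic (A i))
    (hB : ∀ i, Meromorphic (B i)) (i : ι) : QM h fun t r => zz A B t r i := by
  exact ⟨A i, B i, hA i, hB i, .of_forall fun _ _ _ => rfl⟩

theorem qm_vv (hh : Meromorphic h) {ι : Type} {A B : ι → ℂ → ℂ} (hA : ∀ i, Meromorphic (A i))
    (hB : ∀ i, Meromorphic (B i)) (i : ι) : QM h fun t r => vv h A B t r i := by
  exact ⟨_, _, (hA i).deriv, (hB i).deriv.add ((hh.deriv.div ((Meromorphic.const 2).mul hh)).mul (hB i)),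
    .of_forall fun _ _ _ => rfl⟩

theorem Br.sq (hr : Br h r t) : r t ^ 2 = h t := by
  exact hr.2.self_of_nhds

theorem Br.neg (hr : Br h r t) : Br h (fun s => -r s) t := by
  exact ⟨hr.1.neg, hr.2.mono fun s hs => (neg_sq _).trans hs⟩

theorem Br.ev (hr : Br h r t) : ∀ᶠ s in 𝓝 t, Br h r s := by
  exact hr.1.eventually_analyticAt.and hr.2.eventually_nhds

theorem exists_br (ha : AnalyticAt ℂ h t) (h0 : h t ≠ 0) {r0 : ℂ} (e : r0 ^ 2 = h t) :
    ∃ r, Br h r t ∧ r t = r0 := by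
  refine ⟨fun s => r0 * Complex.exp (Complex.log (h s / h t) / 2), ⟨analyticAt_const.mul
    (((ha.div_const (c := h t)).clog ?_).div_const (c := 2)).cexp, ?_⟩, by simp [h0]⟩
  · simp [h0]
  · filter_upwards [ha.continuousAt.eventually_ne h0] with s hs
    rw [mul_pow, e, ← Complex.exp_nat_mul, Nat.cast_two, mul_div_cancel₀ _ two_ne_zero,
      Complex.exp_log (div_ne_zero hs h0), mul_div_cancel₀ _ h0]

theorem br_an {ι : Type} {A B : ι → ℂ → ℂ} (hr : Br h r t) {i : ι} (hA : AnalyticAt ℂ (A i) t)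
    (hB : AnalyticAt ℂ (B i) t) : AnalyticAt ℂ (fun s => zz A B s (r s) i) t := by
  exact hA.add (hr.1.mul hB)

theorem br_deriv {ι : Type} {A B : ι → ℂ → ℂ} (hr : Br h r t) (h0 : h t ≠ 0) {i : ι}
    (hA : AnalyticAt ℂ (A i) t) (hB : AnalyticAt ℂ (B i) t) :
    deriv (fun s => zz A B s (r s) i) t = vv h A B t (r t) i := by
  have d := hr.1.differentiableAt.hasDerivAt
  have e : deriv h t = r t * deriv r t + r t * deriv r t := by
    rw [← EventuallyEq.deriv_eq hr.2]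
    simpa only [sq, mul_comm] using (d.fun_mul d).deriv
  refine (hA.differentiableAt.hasDerivAt.fun_add
    (d.fun_mul hB.differentiableAt.hasDerivAt)).deriv.trans ?_
  have h1 : r t ≠ 0 := fun k => h0 (by rw [← hr.sq, k, zero_pow two_ne_zero])
  rw [vv, e, ← hr.sq]
  field_simp
  ring

end Pool.Agent.Work.MP_677830_co.G
end

-- merged part: Pool.Agent.Work.MP_677830_co.G.Ker
section
/-!
# Kernel frames and the global potential of one sample
exists_ker: take r maximal (Nat.findGreatest or a finite set) such that for some embeddings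
I : Fin r ↪ Fin j1, J : Fin r ↪ Fin j2 the minor is eventually nonzero (r = 0 works); then all
(r+1)-minors vanish eventually (mer_dich, mer_det). Extend I, J to E1, E2 (a1 = j1 - r; an equivalence
of the complement with Fin a1). T0 = minor matrix, c k (E1 (inl k')) = [k = k'],
c k (E1 (inr a)) = -(T[E1 inl k, J] * T0⁻¹) a; entries of T0⁻¹ = det⁻¹ * adjugate are analytic where
det ≠ 0. (c T) k l = T (k, l) - T[k, J] T0⁻¹ T[I, l] is 0 for l in J and otherwise equals the bordered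
(r+1)-minor divided by det T0 (det_fromBlocks₁₁). Same for c'.
gh: T t = thetaM, entries meromorphic (deriv, nodalWeight is a product of inverses).
Φ = log ‖G1‖ + log ‖G2‖ + 2 log ‖Θ‖; an1 twice (ν = 1/4, j = p-1; ν = 3/4, j = 3p-1); independence from
the identity block; hR from exists_interp and c T = 0 (theta_apply or direct); sm_log; plk.
-/

namespace Pool.Agent.Work.MP_677830_co.G

open Filter Topology Polynomial Matrix MeasureTheory
open scoped ComplexConjugate ComplexOrder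

theorem Ker_ext {j r : ℕ} (I : Fin r ↪ Fin j) :
    ∃ (a : ℕ) (E : Fin a ⊕ Fin r ≃ Fin j), ∀ x, E (Sum.inr x) = I x := by
  classical
  refine ⟨Fintype.card ((Set.range I)ᶜ : Set (Fin j)),
    (Equiv.sumCongr (Fintype.equivFin ((Set.range I)ᶜ : Set (Fin j))).symm
      (Equiv.ofInjective I I.injective)).trans
      ((Equiv.sumComm _ _).trans (Equiv.Set.sumCompl (Set.range I))), fun x => ?_⟩
  simp

theorem Ker_schur {α β ρ : Type} [Fintype ρ] [DecidableEq ρ] (S : Matrix (α ⊕ ρ) (β ⊕ ρ) ℂ)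
    (h0 : S.toBlocks₂₂.det ≠ 0)
    (h : ∀ k l, (S.submatrix (Sum.map (fun _ : Unit => k) id)
      (Sum.map (fun _ : Unit => l) id)).det = 0) :
    S.toBlocks₁₁ = S.toBlocks₁₂ * S.toBlocks₂₂⁻¹ * S.toBlocks₂₁ := by
  ext k l
  have hu : IsUnit S.toBlocks₂₂.det := isUnit_iff_ne_zero.2 h0
  let _ : Invertible S.toBlocks₂₂ := Matrix.invertibleOfIsUnitDet _ hu
  have e : S.submatrix (Sum.map (fun _ : Unit => k) id) (Sum.map (fun _ : Unit => l) id) =
      Matrix.fromBlocks (S.toBlocks₁₁.submatrix (fun _ : Unit => k) fun _ : Unit => l)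
        (S.toBlocks₁₂.submatrix (fun _ : Unit => k) id)
        (S.toBlocks₂₁.submatrix id fun _ : Unit => l) S.toBlocks₂₂ := by
    ext x y
    rcases x with x | x <;> rcases y with y | y <;> rfl
  have h1 := h k l
  rw [e, Matrix.det_fromBlocks₂₂, Matrix.invOf_eq_nonsing_inv] at h1
  have h2 := (mul_eq_zero.1 h1).resolve_left h0
  rw [Matrix.det_unique, Matrix.sub_apply, sub_eq_zero] at h2
  exact h2

theorem Ker_inv_mer {ρ : Type} [Fintype ρ] [DecidableEq ρ] {M : ℂ → Matrix ρ ρ ℂ}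
    (h : ∀ i j, Meromorphic fun t => M t i j) (i j : ρ) : Meromorphic fun t => (M t)⁻¹ i j := by
  intro v
  have h1 : MeromorphicAt (fun t => (M t).det) v := mer_det fun i j => h i j v
  have h2 : MeromorphicAt (fun t => ((M t).updateRow j (Pi.single i 1)).det) v := by
    refine mer_det fun a b => ?_
    by_cases hab : a = j
    · simp only [Matrix.updateRow_apply, hab, if_true]
      exact MeromorphicAt.const _ _
    · simp only [Matrix.updateRow_apply, hab, if_false]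
      exact h a b v
  have e : (fun t => (M t)⁻¹ i j) =
      fun t => ((M t).det)⁻¹ * ((M t).updateRow j (Pi.single i 1)).det := by
    funext t
    rw [Matrix.inv_def, Ring.inverse_eq_inv', Matrix.smul_apply, Matrix.adjugate_apply,
      smul_eq_mul]
  rw [e]
  exact h1.fun_inv.fun_mul h2

theorem Ker_mul_mer {α β ρ : Type} [Fintype ρ] {M : ℂ → Matrix α ρ ℂ} {N : ℂ → Matrix ρ β ℂ}
    (h : ∀ i j, Meromorphic fun t => M t i j) (h' : ∀ i j, Meromorphic fun t => N t i j)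
    (i : α) (j : β) : Meromorphic fun t => (M t * N t) i j := by
  intro v
  simp only [Matrix.mul_apply]
  exact MeromorphicAt.fun_sum fun a _ => (h i a v).fun_mul (h' a j v)

theorem Ker_left {α β ρ : Type} [Fintype ρ] [DecidableEq ρ] [Fintype α] [DecidableEq α]
    (S : Matrix (α ⊕ ρ) (β ⊕ ρ) ℂ) (h0 : S.toBlocks₂₂.det ≠ 0)
    (h : S.toBlocks₁₁ = S.toBlocks₁₂ * S.toBlocks₂₂⁻¹ * S.toBlocks₂₁) :
    Matrix.fromCols (1 : Matrix α α ℂ) (-(S.toBlocks₁₂ * S.toBlocks₂₂⁻¹)) * S = 0 := by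
  have hu : IsUnit S.toBlocks₂₂.det := isUnit_iff_ne_zero.2 h0
  have e : Matrix.fromCols (1 : Matrix α α ℂ) (-(S.toBlocks₁₂ * S.toBlocks₂₂⁻¹)) * S =
      Matrix.fromCols (1 : Matrix α α ℂ) (-(S.toBlocks₁₂ * S.toBlocks₂₂⁻¹)) *
        Matrix.fromBlocks S.toBlocks₁₁ S.toBlocks₁₂ S.toBlocks₂₁ S.toBlocks₂₂ := by
    rw [Matrix.fromBlocks_toBlocks]
  rw [e, Matrix.fromCols_mul_fromBlocks, Matrix.one_mul, Matrix.one_mul, Matrix.neg_mul,
    Matrix.neg_mul, ← h, Matrix.nonsing_inv_mul_cancel_right _ _ hu, add_neg_cancel,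
    add_neg_cancel, Matrix.fromCols_zero]

theorem Ker_right {α β ρ : Type} [Fintype ρ] [DecidableEq ρ] [Fintype β] [DecidableEq β]
    (S : Matrix (α ⊕ ρ) (β ⊕ ρ) ℂ) (h0 : S.toBlocks₂₂.det ≠ 0)
    (h : S.toBlocks₁₁ = S.toBlocks₁₂ * S.toBlocks₂₂⁻¹ * S.toBlocks₂₁) :
    S * Matrix.fromRows (1 : Matrix β β ℂ) (-(S.toBlocks₂₂⁻¹ * S.toBlocks₂₁)) = 0 := by
  have hu : IsUnit S.toBlocks₂₂.det := isUnit_iff_ne_zero.2 h0
  have e : S * Matrix.fromRows (1 : Matrix β β ℂ) (-(S.toBlocks₂₂⁻¹ * S.toBlocks₂₁)) =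
      Matrix.fromBlocks S.toBlocks₁₁ S.toBlocks₁₂ S.toBlocks₂₁ S.toBlocks₂₂ *
        Matrix.fromRows (1 : Matrix β β ℂ) (-(S.toBlocks₂₂⁻¹ * S.toBlocks₂₁)) := by
    rw [Matrix.fromBlocks_toBlocks]
  rw [e, Matrix.fromBlocks_mul_fromRows, Matrix.mul_one, Matrix.mul_one, Matrix.mul_neg,
    Matrix.mul_neg, ← Matrix.mul_assoc, ← h, Matrix.mul_nonsing_inv_cancel_left _ _ hu,
    add_neg_cancel, add_neg_cancel, Matrix.fromRows_zero]

theorem Ker_max {j₁ j₂ : ℕ} (T : ℂ → Matrix (Fin j₁) (Fin j₂) ℂ)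
    (hT : ∀ k l, Meromorphic fun t => T t k l) :
    ∃ (r : ℕ) (I : Fin r ↪ Fin j₁) (J : Fin r ↪ Fin j₂),
      (∀ᶠ t in codiscrete ℂ, ((T t).submatrix I J).det ≠ 0) ∧
      ∀ (I' : Unit ⊕ Fin r → Fin j₁) (J' : Unit ⊕ Fin r → Fin j₂), Function.Injective I' →
        Function.Injective J' → ∀ᶠ t in codiscrete ℂ, ((T t).submatrix I' J').det = 0 := by
  classical
  let P : ℕ → Prop := fun r => ∃ (I : Fin r ↪ Fin j₁) (J : Fin r ↪ Fin j₂),
    ∀ᶠ t in codiscrete ℂ, ((T t).submatrix I J).det ≠ 0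
  have P0 : P 0 := ⟨Function.Embedding.ofIsEmpty, Function.Embedding.ofIsEmpty,
    Filter.Eventually.of_forall fun t => by simp⟩
  have hP : P (Nat.findGreatest P j₁) := Nat.findGreatest_spec (Nat.zero_le _) P0
  obtain ⟨I, J, hIJ⟩ := hP
  refine ⟨_, I, J, hIJ, fun I' J' hI hJ => ?_⟩
  have hm : Meromorphic fun t => ((T t).submatrix I' J').det := fun v =>
    mer_det fun a b => hT (I' a) (J' b) v
  refine (mer_dich hm).resolve_left fun hne => ?_
  have hc : Fintype.card (Unit ⊕ Fin (Nat.findGreatest P j₁)) = Nat.findGreatest P j₁ + 1 := by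
    simp [add_comm]
  let e := (Fintype.equivFinOfCardEq hc).symm
  have h1 : P (Nat.findGreatest P j₁ + 1) := by
    refine ⟨⟨I' ∘ e, hI.comp e.injective⟩, ⟨J' ∘ e, hJ.comp e.injective⟩, ?_⟩
    filter_upwards [hne] with t ht
    have : ((T t).submatrix (I' ∘ e) (J' ∘ e)).det = ((T t).submatrix I' J').det := by
      rw [← Matrix.det_submatrix_equiv_self e ((T t).submatrix I' J'),
        Matrix.submatrix_submatrix]
    intro h0
    exact ht (this.symm.trans h0)
  have h2 : Nat.findGreatest P j₁ + 1 ≤ j₁ := by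
    have := Fintype.card_le_of_injective I' hI
    rw [hc, Fintype.card_fin] at this
    exact this
  exact Nat.findGreatest_is_greatest (Nat.lt_succ_self _) h2 h1

theorem Ker_inj {α ρ : Type} (k : α) :
    Function.Injective (Sum.map (fun _ : Unit => k) (id : ρ → ρ)) :=
  Function.Injective.sumMap (fun _ _ _ => rfl) Function.injective_id

theorem exists_ker {j₁ j₂ : ℕ} (T : ℂ → Matrix (Fin j₁) (Fin j₂) ℂ)
    (hT : ∀ k l, Meromorphic fun t => T t k l) :
    ∃ (r a₁ a₂ : ℕ) (E₁ : Fin a₁ ⊕ Fin r ≃ Fin j₁) (E₂ : Fin a₂ ⊕ Fin r ≃ Fin j₂)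
      (c : ℂ → Matrix (Fin a₁) (Fin j₁) ℂ) (c' : ℂ → Matrix (Fin a₂) (Fin j₂) ℂ),
      ∀ᶠ t in codiscrete ℂ, (∀ k l, AnalyticAt ℂ (fun s => c s k l) t) ∧
        (∀ k l, AnalyticAt ℂ (fun s => c' s k l) t) ∧
        AnalyticAt ℂ (fun s => ((T s).submatrix (fun a => E₁ (Sum.inr a))
          fun a => E₂ (Sum.inr a)).det) t ∧
        ((T t).submatrix (fun a => E₁ (Sum.inr a)) fun a => E₂ (Sum.inr a)).det ≠ 0 ∧
        (∀ k k', c t k (E₁ (Sum.inl k')) = if k = k' then 1 else 0) ∧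
        (∀ k k', c' t k (E₂ (Sum.inl k')) = if k = k' then 1 else 0) ∧
        c t * T t = 0 ∧ T t * (c' t)ᵀ = 0 := by
  obtain ⟨r, I, J, hIJ, hmax⟩ := Ker_max T hT
  obtain ⟨a₁, E₁, hE₁⟩ := Ker_ext I
  obtain ⟨a₂, E₂, hE₂⟩ := Ker_ext J
  let S : ℂ → Matrix (Fin a₁ ⊕ Fin r) (Fin a₂ ⊕ Fin r) ℂ := fun t => (T t).submatrix E₁ E₂
  have hS : ∀ t, T t = (S t).submatrix E₁.symm E₂.symm := fun t => by
    ext a b
    simp [S]
  have m12 : ∀ i j, Meromorphic fun t => (S t).toBlocks₁₂ i j := fun i j => hT _ _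
  have m21 : ∀ i j, Meromorphic fun t => (S t).toBlocks₂₁ i j := fun i j => hT _ _
  have m22 : ∀ i j, Meromorphic fun t => (S t).toBlocks₂₂ i j := fun i j => hT _ _
  have mi := Ker_inv_mer m22
  let c : ℂ → Matrix (Fin a₁) (Fin j₁) ℂ := fun t =>
    (Matrix.fromCols (1 : Matrix (Fin a₁) (Fin a₁) ℂ)
      (-((S t).toBlocks₁₂ * (S t).toBlocks₂₂⁻¹))).submatrix id E₁.symm
  let d : ℂ → Matrix (Fin j₂) (Fin a₂) ℂ := fun t =>
    (Matrix.fromRows (1 : Matrix (Fin a₂) (Fin a₂) ℂ)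
      (-((S t).toBlocks₂₂⁻¹ * (S t).toBlocks₂₁))).submatrix E₂.symm id
  have mc : ∀ k l, Meromorphic fun t => c t k l := by
    intro k l v
    obtain ⟨x, rfl⟩ := E₁.surjective l
    rcases x with x | x
    · simp only [c, Matrix.submatrix_apply, Equiv.symm_apply_apply, id, Matrix.fromCols_apply_inl]
      exact MeromorphicAt.const _ _
    · simp only [c, Matrix.submatrix_apply, Equiv.symm_apply_apply, id, Matrix.fromCols_apply_inr,
        Matrix.neg_apply]
      exact (Ker_mul_mer m12 mi k x v).fun_neg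
  have md : ∀ k l, Meromorphic fun t => (d t)ᵀ k l := by
    intro k l v
    obtain ⟨x, rfl⟩ := E₂.surjective l
    rcases x with x | x
    · simp only [d, Matrix.transpose_apply, Matrix.submatrix_apply, Equiv.symm_apply_apply, id,
        Matrix.fromRows_apply_inl]
      exact MeromorphicAt.const _ _
    · simp only [d, Matrix.transpose_apply, Matrix.submatrix_apply, Equiv.symm_apply_apply, id,
        Matrix.fromRows_apply_inr, Matrix.neg_apply]
      exact (Ker_mul_mer mi m21 x k v).fun_neg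
  have mdet : Meromorphic fun s => ((T s).submatrix (fun a => E₁ (Sum.inr a))
      fun a => E₂ (Sum.inr a)).det := fun v => mer_det fun a b => hT _ _ v
  have hdet : ∀ᶠ t in codiscrete ℂ, ((T t).submatrix (fun a => E₁ (Sum.inr a))
      fun a => E₂ (Sum.inr a)).det ≠ 0 := by
    simp only [hE₁, hE₂]
    exact hIJ
  have hb : ∀ᶠ t in codiscrete ℂ, ∀ k l, ((S t).submatrix (Sum.map (fun _ : Unit => k) id)
      (Sum.map (fun _ : Unit => l) id)).det = 0 := by
    refine Filter.eventually_all.2 fun k => Filter.eventually_all.2 fun l => ?_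
    exact hmax (E₁ ∘ Sum.map (fun _ : Unit => k) id) (E₂ ∘ Sum.map (fun _ : Unit => l) id)
      (E₁.injective.comp (Ker_inj k)) (E₂.injective.comp (Ker_inj l))
  refine ⟨r, a₁, a₂, E₁, E₂, c, fun t => (d t)ᵀ, ?_⟩
  filter_upwards [Filter.eventually_all.2 fun k => Filter.eventually_all.2 fun l =>
      mer_an (mc k l),
    Filter.eventually_all.2 fun k => Filter.eventually_all.2 fun l => mer_an (md k l),
    mer_an mdet, hdet, hb] with t h1 h2 h3 h4 h5
  have h6 := Ker_schur (S t) h4 h5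
  refine ⟨h1, h2, h3, h4, fun k k' => ?_, fun k k' => ?_, ?_, ?_⟩
  · simp only [c, Matrix.submatrix_apply, Equiv.symm_apply_apply, id, Matrix.fromCols_apply_inl,
      Matrix.one_apply]
  · simp only [d, Matrix.transpose_apply, Matrix.submatrix_apply, Equiv.symm_apply_apply, id,
      Matrix.fromRows_apply_inl, Matrix.one_apply, eq_comm]
  · rw [hS t]
    simp only [c]
    rw [Matrix.submatrix_mul_equiv, Ker_left (S t) h4 h6]
    rfl
  · rw [hS t, Matrix.transpose_transpose]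
    simp only [d]
    rw [Matrix.submatrix_mul_equiv, Ker_right (S t) h4 h6]
    rfl

theorem Ker_li {α β : Type} [Fintype α] [DecidableEq α] {j : ℕ} (E : α ⊕ β ≃ Fin j)
    (c : Matrix α (Fin j) ℂ) (hc : ∀ k k', c k (E (Sum.inl k')) = if k = k' then 1 else 0) :
    LinearIndependent ℂ fun k => c k := by
  rw [Fintype.linearIndependent_iff]
  intro g hg k
  have h := congrFun hg (E (Sum.inl k))
  simp only [Finset.sum_apply, Pi.smul_apply, hc, smul_eq_mul, mul_ite, mul_one, mul_zero,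
    Finset.sum_ite_eq', Finset.mem_univ, if_true, Pi.zero_apply] at h
  exact h

theorem Ker_theta_mer {ι : Type} [DecidableEq ι] (A : Finset ι) (z : ι → ℂ → ℂ)
    (hz : ∀ i, Meromorphic (z i)) (j₁ j₂ : ℕ) (k : Fin j₁) (l : Fin j₂) :
    Meromorphic fun t => thetaM A (fun i => z i t) (fun i => deriv (z i) t) j₁ j₂ k l := by
  intro v
  simp only [thetaM, Matrix.of_apply, Lagrange.nodalWeight]
  refine MeromorphicAt.fun_sum fun i _ => ?_
  refine ((((hz i v).fun_pow _).fun_mul ((hz i v).fun_pow _)).fun_mul (hz i v).deriv).fun_mul ?_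
  exact MeromorphicAt.fun_prod fun m _ => ((hz i v).fun_sub (hz m v)).fun_inv

theorem Ker_row {ι α : Type} [DecidableEq ι] (A : Finset ι) (y u : ι → ℂ) {j₁ j₂ : ℕ}
    (c : Matrix α (Fin j₁) ℂ) (k : α) (l : Fin j₂) :
    (c * thetaM A y u j₁ j₂) k l =
      ∑ i ∈ A, pv (c k) (y i) * u i * y i ^ (l : ℕ) * Lagrange.nodalWeight A y i := by
  simp only [Matrix.mul_apply, thetaM, Matrix.of_apply, pv, Finset.mul_sum, Finset.sum_mul]
  rw [Finset.sum_comm]
  refine Finset.sum_congr rfl fun i _ => Finset.sum_congr rfl fun m _ => by ring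

theorem Ker_col {ι α : Type} [DecidableEq ι] (A : Finset ι) (y u : ι → ℂ) {j₁ j₂ : ℕ}
    (c : Matrix α (Fin j₂) ℂ) (k : α) (l : Fin j₁) :
    (thetaM A y u j₁ j₂ * cᵀ) l k =
      ∑ i ∈ A, pv (c k) (y i) * u i * y i ^ (l : ℕ) * Lagrange.nodalWeight A y i := by
  simp only [Matrix.mul_apply, thetaM, Matrix.of_apply, pv, Finset.sum_mul,
    Matrix.transpose_apply]
  rw [Finset.sum_comm]
  refine Finset.sum_congr rfl fun i _ => Finset.sum_congr rfl fun m _ => by ring

theorem gh {ι : Type} [Fintype ι] [DecidableEq ι] {p : ℕ} (hp : 1 ≤ p) {A : Finset ι}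
    (hA : A.card = 4 * p) (z : ι → ℂ → ℂ) (hz : ∀ i, Meromorphic (z i))
    (hne : ∀ i k, i ≠ k → ∀ᶠ t in codiscrete ℂ, z i t ≠ z k t) :
    ∃ Φ : ℂ → ℝ, ∀ᶠ t in codiscrete ℂ, ContinuousAt Φ t ∧ SM Φ t ∧
      HB p A (fun i => z i t) (fun i => deriv (z i) t) (Φ t) := by
  obtain ⟨r, a₁, a₂, E₁, E₂, c, c', h⟩ := exists_ker
    (fun t => thetaM A (fun i => z i t) (fun i => deriv (z i) t) (p - 1) (3 * p - 1))
    (Ker_theta_mer A z hz _ _)
  have hp' : 1 ≤ 3 * p := by omega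
  have hj₁ : (1 / 4 : ℝ) * A.card = ((p - 1 : ℕ) : ℝ) + 1 := by
    rw [hA, Nat.cast_sub hp]
    push_cast
    ring
  have hj₂ : (3 / 4 : ℝ) * A.card = ((3 * p - 1 : ℕ) : ℝ) + 1 := by
    rw [hA, Nat.cast_sub hp']
    push_cast
    ring
  have hne' : ∀ᶠ t in codiscrete ℂ, ∀ i k, i ≠ k → z i t ≠ z k t := by
    refine Filter.eventually_all.2 fun i => Filter.eventually_all.2 fun k => ?_
    by_cases hik : i = k
    · exact Filter.Eventually.of_forall fun t h => absurd hik h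
    · filter_upwards [hne i k hik] with t ht _ using ht
  refine ⟨fun t => Real.log ‖(c t * gramM (1 / 4) A (fun i => z i t) (p - 1) * (c t)ᴴ).det‖ +
    Real.log ‖(c' t * gramM (3 / 4) A (fun i => z i t) (3 * p - 1) * (c' t)ᴴ).det‖ +
    2 * Real.log ‖((thetaM A (fun i => z i t) (fun i => deriv (z i) t) (p - 1)
      (3 * p - 1)).submatrix (fun a => E₁ (Sum.inr a)) fun a => E₂ (Sum.inr a)).det‖, ?_⟩
  filter_upwards [h, hne', Filter.eventually_all.2 fun i => mer_an (hz i)] with t ht hn ha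
  obtain ⟨h1, h2, h3, h4, h5, h6, h7, h8⟩ := ht
  have hy : Set.InjOn (fun i => z i t) A := fun i _ k _ hik => by
    by_contra hc
    exact hn i k hc hik
  have g1 := an1 (ν := 1 / 4) (by norm_num) (by norm_num) hj₁ z t (fun i _ => ha i) hy c h1
    (Ker_li E₁ (c t) h5) fun k => by
      refine exists_interp hy (fun i => pv (c t k) (z i t) * deriv (z i) t) (j₁ := p - 1)
        (j₂ := 3 * p - 1) (by omega) fun l hl => ?_
      have e := Ker_row A (fun i => z i t) (fun i => deriv (z i) t) (j₂ := 3 * p - 1) (c t) k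
        ⟨l, hl⟩
      rw [h7] at e
      exact e.symm
  have g2 := an1 (ν := 3 / 4) (by norm_num) (by norm_num) hj₂ z t (fun i _ => ha i) hy c' h2
    (Ker_li E₂ (c' t) h6) fun k => by
      refine exists_interp hy (fun i => pv (c' t k) (z i t) * deriv (z i) t) (j₁ := 3 * p - 1)
        (j₂ := p - 1) (by omega) fun l hl => ?_
      have e := Ker_col A (fun i => z i t) (fun i => deriv (z i) t) (j₁ := p - 1) (c' t) k
        ⟨l, hl⟩
      rw [h8] at e
      exact e.symm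
  refine ⟨(g1.2.1.add g2.2.1).add (continuousAt_const.mul
    (h3.continuousAt.norm.log (norm_ne_zero_iff.2 h4))),
    (g1.2.2.add g2.2.2).add (sm_log h3 h4 2), ?_⟩
  exact plk _ _ _ E₁ E₂ (c t) (c' t) h5 h6 h7 h8 h4 g1.1 g2.1

end Pool.Agent.Work.MP_677830_co.G
end

-- merged part: Pool.Agent.Work.MP_677830_co.G.QKer
section
/-!
# Kernel frames on the double cover
exists_ker2: copy the proofs of Ker_max, Ker_inv_mer, Ker_mul_mer and exists_ker in G/Ker with QM in
place of Meromorphic (QM.dich, qm_det, QM.inv, qm_sum); Ker_ext, Ker_schur, Ker_left, Ker_right,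
Ker_inj are reused as they are. gh2: as gh. T t r = thetaM S (zz A B t r) (vv h A B t r); Φ t r is the
same formula with c t r, c' t r. Along a branch r at a good t apply an1 to z i s = zz A B s (r s) i and
c s (r s) (QM.an, br_an, br_deriv); the minor along the branch is analytic (QM.an) and nonzero.
For HB at a root r0 take a branch through it (exists_br; h analytic and nonzero) and apply plk.
-/

namespace Pool.Agent.Work.MP_677830_co.G

open Filter Topology Polynomial Matrix MeasureTheory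
open scoped ComplexConjugate ComplexOrder

variable {h : ℂ → ℂ}

theorem QKer_inv (hn : NS h) {ρ : Type} [Fintype ρ] [DecidableEq ρ]
    {M : ℂ → ℂ → Matrix ρ ρ ℂ} (hM : ∀ i j, QM h fun t r => M t r i j) (i j : ρ) :
    QM h fun t r => (M t r)⁻¹ i j := by
  have h1 : QM h fun t r => (M t r).det := qm_det hn.1 hM
  have h2 : QM h fun t r => ((M t r).updateRow j (Pi.single i 1)).det := by
    refine qm_det hn.1 fun a b => ?_
    by_cases hab : a = j
    · simp only [Matrix.updateRow_apply, hab, if_true]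
      exact qm_const _
    · simp only [Matrix.updateRow_apply, hab, if_false]
      exact hM a b
  have e : (fun t r => (M t r)⁻¹ i j) =
      fun t r => ((M t r).det)⁻¹ * ((M t r).updateRow j (Pi.single i 1)).det := by
    funext t r
    rw [Matrix.inv_def, Ring.inverse_eq_inv', Matrix.smul_apply, Matrix.adjugate_apply,
      smul_eq_mul]
  rw [e]
  exact (h1.inv hn).mul hn.1 h2

theorem QKer_mul (hh : Meromorphic h) {α β ρ : Type} [Fintype ρ] {M : ℂ → ℂ → Matrix α ρ ℂ}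
    {N : ℂ → ℂ → Matrix ρ β ℂ} (hM : ∀ i j, QM h fun t r => M t r i j)
    (hN : ∀ i j, QM h fun t r => N t r i j) (i : α) (j : β) :
    QM h fun t r => (M t r * N t r) i j := by
  simp only [Matrix.mul_apply]
  exact qm_sum (F := fun a t r => M t r i a * N t r a j) _ fun a _ => (hM i a).mul hh (hN a j)

theorem QKer_max (hn : NS h) {j₁ j₂ : ℕ} (T : ℂ → ℂ → Matrix (Fin j₁) (Fin j₂) ℂ)
    (hT : ∀ k l, QM h fun t r => T t r k l) :
    ∃ (n : ℕ) (I : Fin n ↪ Fin j₁) (J : Fin n ↪ Fin j₂),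
      (∀ᶠ t in codiscrete ℂ, ∀ r, r ^ 2 = h t → ((T t r).submatrix I J).det ≠ 0) ∧
      ∀ (I' : Unit ⊕ Fin n → Fin j₁) (J' : Unit ⊕ Fin n → Fin j₂), Function.Injective I' →
        Function.Injective J' →
        ∀ᶠ t in codiscrete ℂ, ∀ r, r ^ 2 = h t → ((T t r).submatrix I' J').det = 0 := by
  classical
  let P : ℕ → Prop := fun n => ∃ (I : Fin n ↪ Fin j₁) (J : Fin n ↪ Fin j₂),
    ∀ᶠ t in codiscrete ℂ, ∀ r, r ^ 2 = h t → ((T t r).submatrix I J).det ≠ 0
  have P0 : P 0 := ⟨Function.Embedding.ofIsEmpty, Function.Embedding.ofIsEmpty,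
    Filter.Eventually.of_forall fun t r _ => by simp⟩
  have hP : P (Nat.findGreatest P j₁) := Nat.findGreatest_spec (Nat.zero_le _) P0
  obtain ⟨I, J, hIJ⟩ := hP
  refine ⟨_, I, J, hIJ, fun I' J' hI hJ => ?_⟩
  have hm : QM h fun t r => ((T t r).submatrix I' J').det :=
    qm_det hn.1 fun a b => hT (I' a) (J' b)
  refine (hm.dich hn).resolve_left fun hne => ?_
  have hc : Fintype.card (Unit ⊕ Fin (Nat.findGreatest P j₁)) = Nat.findGreatest P j₁ + 1 := by
    simp [add_comm]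
  let e := (Fintype.equivFinOfCardEq hc).symm
  have h1 : P (Nat.findGreatest P j₁ + 1) := by
    refine ⟨⟨I' ∘ e, hI.comp e.injective⟩, ⟨J' ∘ e, hJ.comp e.injective⟩, ?_⟩
    filter_upwards [hne] with t ht r hr
    have : ((T t r).submatrix (I' ∘ e) (J' ∘ e)).det = ((T t r).submatrix I' J').det := by
      rw [← Matrix.det_submatrix_equiv_self e ((T t r).submatrix I' J'),
        Matrix.submatrix_submatrix]
    intro h0
    exact ht r hr (this.symm.trans h0)
  have h2 : Nat.findGreatest P j₁ + 1 ≤ j₁ := by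
    have := Fintype.card_le_of_injective I' hI
    rw [hc, Fintype.card_fin] at this
    exact this
  exact Nat.findGreatest_is_greatest (Nat.lt_succ_self _) h2 h1

theorem exists_ker2 (hn : NS h) {j₁ j₂ : ℕ} (T : ℂ → ℂ → Matrix (Fin j₁) (Fin j₂) ℂ)
    (hT : ∀ k l, QM h fun t r => T t r k l) :
    ∃ (n a₁ a₂ : ℕ) (E₁ : Fin a₁ ⊕ Fin n ≃ Fin j₁) (E₂ : Fin a₂ ⊕ Fin n ≃ Fin j₂)
      (c : ℂ → ℂ → Matrix (Fin a₁) (Fin j₁) ℂ) (c' : ℂ → ℂ → Matrix (Fin a₂) (Fin j₂) ℂ),
      (∀ k l, QM h fun t r => c t r k l) ∧ (∀ k l, QM h fun t r => c' t r k l) ∧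
      ∀ᶠ t in codiscrete ℂ, ∀ r, r ^ 2 = h t →
        ((T t r).submatrix (fun a => E₁ (Sum.inr a)) fun a => E₂ (Sum.inr a)).det ≠ 0 ∧
        (∀ k k', c t r k (E₁ (Sum.inl k')) = if k = k' then 1 else 0) ∧
        (∀ k k', c' t r k (E₂ (Sum.inl k')) = if k = k' then 1 else 0) ∧
        c t r * T t r = 0 ∧ T t r * (c' t r)ᵀ = 0 := by
  obtain ⟨n, I, J, hIJ, hmax⟩ := QKer_max hn T hT
  obtain ⟨a₁, E₁, hE₁⟩ := Ker_ext I
  obtain ⟨a₂, E₂, hE₂⟩ := Ker_ext J
  let S : ℂ → ℂ → Matrix (Fin a₁ ⊕ Fin n) (Fin a₂ ⊕ Fin n) ℂ := fun t r => (T t r).submatrix E₁ E₂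
  have hS : ∀ t r, T t r = (S t r).submatrix E₁.symm E₂.symm := fun t r => by
    ext a b
    simp [S]
  have m12 : ∀ i j, QM h fun t r => (S t r).toBlocks₁₂ i j := fun i j => hT _ _
  have m21 : ∀ i j, QM h fun t r => (S t r).toBlocks₂₁ i j := fun i j => hT _ _
  have m22 : ∀ i j, QM h fun t r => (S t r).toBlocks₂₂ i j := fun i j => hT _ _
  have mi := QKer_inv hn m22
  let c : ℂ → ℂ → Matrix (Fin a₁) (Fin j₁) ℂ := fun t r =>
    (Matrix.fromCols (1 : Matrix (Fin a₁) (Fin a₁) ℂ)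
      (-((S t r).toBlocks₁₂ * (S t r).toBlocks₂₂⁻¹))).submatrix id E₁.symm
  let d : ℂ → ℂ → Matrix (Fin j₂) (Fin a₂) ℂ := fun t r =>
    (Matrix.fromRows (1 : Matrix (Fin a₂) (Fin a₂) ℂ)
      (-((S t r).toBlocks₂₂⁻¹ * (S t r).toBlocks₂₁))).submatrix E₂.symm id
  have mc : ∀ k l, QM h fun t r => c t r k l := by
    intro k l
    obtain ⟨x, rfl⟩ := E₁.surjective l
    rcases x with x | x
    · simp only [c, Matrix.submatrix_apply, Equiv.symm_apply_apply, id, Matrix.fromCols_apply_inl]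
      exact qm_const _
    · simp only [c, Matrix.submatrix_apply, Equiv.symm_apply_apply, id, Matrix.fromCols_apply_inr,
        Matrix.neg_apply]
      exact (QKer_mul hn.1 m12 mi k x).neg
  have md : ∀ k l, QM h fun t r => (d t r)ᵀ k l := by
    intro k l
    obtain ⟨x, rfl⟩ := E₂.surjective l
    rcases x with x | x
    · simp only [d, Matrix.transpose_apply, Matrix.submatrix_apply, Equiv.symm_apply_apply, id,
        Matrix.fromRows_apply_inl]
      exact qm_const _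
    · simp only [d, Matrix.transpose_apply, Matrix.submatrix_apply, Equiv.symm_apply_apply, id,
        Matrix.fromRows_apply_inr, Matrix.neg_apply]
      exact (QKer_mul hn.1 mi m21 x k).neg
  have hdet : ∀ᶠ t in codiscrete ℂ, ∀ r, r ^ 2 = h t →
      ((T t r).submatrix (fun a => E₁ (Sum.inr a)) fun a => E₂ (Sum.inr a)).det ≠ 0 := by
    simp only [hE₁, hE₂]
    exact hIJ
  have hb : ∀ᶠ t in codiscrete ℂ, ∀ k l, ∀ r, r ^ 2 = h t →
      ((S t r).submatrix (Sum.map (fun _ : Unit => k) id)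
        (Sum.map (fun _ : Unit => l) id)).det = 0 := by
    refine Filter.eventually_all.2 fun k => Filter.eventually_all.2 fun l => ?_
    exact hmax (E₁ ∘ Sum.map (fun _ : Unit => k) id) (E₂ ∘ Sum.map (fun _ : Unit => l) id)
      (E₁.injective.comp (Ker_inj k)) (E₂.injective.comp (Ker_inj l))
  refine ⟨n, a₁, a₂, E₁, E₂, c, fun t r => (d t r)ᵀ, mc, md, ?_⟩
  filter_upwards [hdet, hb] with t h3 h5 r hr
  have h4 := h3 r hr
  have h6 := Ker_schur (S t r) h4 fun k l => h5 k l r hr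
  refine ⟨h4, fun k k' => ?_, fun k k' => ?_, ?_, ?_⟩
  · simp only [c, Matrix.submatrix_apply, Equiv.symm_apply_apply, id, Matrix.fromCols_apply_inl,
      Matrix.one_apply]
  · simp only [d, Matrix.transpose_apply, Matrix.submatrix_apply, Equiv.symm_apply_apply, id,
      Matrix.fromRows_apply_inl, Matrix.one_apply, eq_comm]
  · rw [hS t r]
    simp only [c]
    rw [Matrix.submatrix_mul_equiv, Ker_left (S t r) h4 h6]
    rfl
  · rw [hS t r, Matrix.transpose_transpose]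
    simp only [d]
    rw [Matrix.submatrix_mul_equiv, Ker_right (S t r) h4 h6]
    rfl

theorem QKer_theta (hn : NS h) {ι : Type} [DecidableEq ι] (S : Finset ι) {A B : ι → ℂ → ℂ}
    (hA : ∀ i, Meromorphic (A i)) (hB : ∀ i, Meromorphic (B i)) (j₁ j₂ : ℕ) (k : Fin j₁)
    (l : Fin j₂) : QM h fun t r => thetaM S (zz A B t r) (vv h A B t r) j₁ j₂ k l := by
  simp only [thetaM, Matrix.of_apply, Lagrange.nodalWeight]
  refine qm_sum (F := fun i t r => zz A B t r i ^ (k : ℕ) * zz A B t r i ^ (l : ℕ) *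
    vv h A B t r i * ∏ m ∈ S.erase i, (zz A B t r i - zz A B t r m)⁻¹) _ fun i _ => ?_
  have z := qm_zz (h := h) hA hB
  refine ((((z i).pow hn.1 _).mul hn.1 ((z i).pow hn.1 _)).mul hn.1
    (qm_vv hn.1 hA hB i)).mul hn.1 ?_
  exact qm_prod hn.1 (F := fun m t r => (zz A B t r i - zz A B t r m)⁻¹) _
    fun m _ => ((z i).sub (z m)).inv hn

theorem gh2 (hn : NS h) {ι : Type} [Fintype ι] [DecidableEq ι] {p : ℕ} (hp : 1 ≤ p)
    {S : Finset ι} (hS : S.card = 4 * p) (A B : ι → ℂ → ℂ) (hA : ∀ i, Meromorphic (A i))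
    (hB : ∀ i, Meromorphic (B i))
    (hne : ∀ᶠ t in codiscrete ℂ, ∀ r, r ^ 2 = h t → Function.Injective (zz A B t r)) :
    ∃ Φ : ℂ → ℂ → ℝ, ∀ᶠ t in codiscrete ℂ,
      (∀ r, r ^ 2 = h t → HB p S (zz A B t r) (vv h A B t r) (Φ t r)) ∧
      ∀ r : ℂ → ℂ, Br h r t →
        ContinuousAt (fun s => Φ s (r s)) t ∧ SM (fun s => Φ s (r s)) t := by
  have hT := QKer_theta hn S hA hB (p - 1) (3 * p - 1)
  obtain ⟨n, a₁, a₂, E₁, E₂, c, c', mc, mc', hk⟩ := exists_ker2 hn
    (fun t r => thetaM S (zz A B t r) (vv h A B t r) (p - 1) (3 * p - 1)) hT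
  have mdet : QM h fun t r => ((thetaM S (zz A B t r) (vv h A B t r) (p - 1)
      (3 * p - 1)).submatrix (fun a => E₁ (Sum.inr a)) fun a => E₂ (Sum.inr a)).det :=
    qm_det hn.1 fun a b => hT _ _
  have hp' : 1 ≤ 3 * p := by omega
  have hj₁ : (1 / 4 : ℝ) * S.card = ((p - 1 : ℕ) : ℝ) + 1 := by
    rw [hS, Nat.cast_sub hp]
    push_cast
    ring
  have hj₂ : (3 / 4 : ℝ) * S.card = ((3 * p - 1 : ℕ) : ℝ) + 1 := by
    rw [hS, Nat.cast_sub hp']
    push_cast
    ring
  refine ⟨fun t r => Real.log ‖(c t r * gramM (1 / 4) S (zz A B t r) (p - 1) * (c t r)ᴴ).det‖ +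
    Real.log ‖(c' t r * gramM (3 / 4) S (zz A B t r) (3 * p - 1) * (c' t r)ᴴ).det‖ +
    2 * Real.log ‖((thetaM S (zz A B t r) (vv h A B t r) (p - 1)
      (3 * p - 1)).submatrix (fun a => E₁ (Sum.inr a)) fun a => E₂ (Sum.inr a)).det‖, ?_⟩
  filter_upwards [hk, hne, Filter.eventually_all.2 fun i => mer_an (hA i),
    Filter.eventually_all.2 fun i => mer_an (hB i), mer_an hn.1, hn.ne,
    Filter.eventually_all.2 fun k => Filter.eventually_all.2 fun l => (mc k l).an,
    Filter.eventually_all.2 fun k => Filter.eventually_all.2 fun l => (mc' k l).an,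
    mdet.an] with t ht hi aA aB ah h0 ac ac' ad
  have key : ∀ r : ℂ → ℂ, Br h r t →
      ((c t (r t) * gramM (1 / 4) S (zz A B t (r t)) (p - 1) * (c t (r t))ᴴ).det ≠ 0 ∧
        ContinuousAt (fun s => Real.log ‖(c s (r s) * gramM (1 / 4) S (zz A B s (r s)) (p - 1) *
          (c s (r s))ᴴ).det‖) t ∧
        SM (fun s => Real.log ‖(c s (r s) * gramM (1 / 4) S (zz A B s (r s)) (p - 1) *
          (c s (r s))ᴴ).det‖) t) ∧
      ((c' t (r t) * gramM (3 / 4) S (zz A B t (r t)) (3 * p - 1) * (c' t (r t))ᴴ).det ≠ 0 ∧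
        ContinuousAt (fun s => Real.log ‖(c' s (r s) * gramM (3 / 4) S (zz A B s (r s))
          (3 * p - 1) * (c' s (r s))ᴴ).det‖) t ∧
        SM (fun s => Real.log ‖(c' s (r s) * gramM (3 / 4) S (zz A B s (r s)) (3 * p - 1) *
          (c' s (r s))ᴴ).det‖) t) := by
    intro r hr
    obtain ⟨h4, h5, h6, h7, h8⟩ := ht (r t) hr.sq
    have hy : Set.InjOn (zz A B t (r t)) S := (hi (r t) hr.sq).injOn
    have hd : ∀ i, deriv (fun s => zz A B s (r s) i) t = vv h A B t (r t) i := fun i =>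
      br_deriv hr h0 (aA i) (aB i)
    refine ⟨an1 (ν := 1 / 4) (by norm_num) (by norm_num) hj₁ (fun i s => zz A B s (r s) i) t
      (fun i _ => br_an hr (aA i) (aB i)) hy (fun s => c s (r s)) (fun k l => ac k l r hr)
      (Ker_li E₁ (c t (r t)) h5) fun k => ?_,
      an1 (ν := 3 / 4) (by norm_num) (by norm_num) hj₂ (fun i s => zz A B s (r s) i) t
      (fun i _ => br_an hr (aA i) (aB i)) hy (fun s => c' s (r s)) (fun k l => ac' k l r hr)
      (Ker_li E₂ (c' t (r t)) h6) fun k => ?_⟩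
    · simp only [hd]
      refine exists_interp hy (fun i => pv (c t (r t) k) (zz A B t (r t) i) * vv h A B t (r t) i)
        (j₁ := p - 1) (j₂ := 3 * p - 1) (by omega) fun l hl => ?_
      have e := Ker_row S (zz A B t (r t)) (vv h A B t (r t)) (j₂ := 3 * p - 1) (c t (r t)) k
        ⟨l, hl⟩
      rw [h7] at e
      exact e.symm
    · simp only [hd]
      refine exists_interp hy (fun i => pv (c' t (r t) k) (zz A B t (r t) i) * vv h A B t (r t) i)
        (j₁ := 3 * p - 1) (j₂ := p - 1) (by omega) fun l hl => ?_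
      have e := Ker_col S (zz A B t (r t)) (vv h A B t (r t)) (j₁ := p - 1) (c' t (r t)) k
        ⟨l, hl⟩
      rw [h8] at e
      exact e.symm
  refine ⟨fun r0 e => ?_, fun r hr => ?_⟩
  · obtain ⟨r, hr, rfl⟩ := exists_br ah h0 e
    obtain ⟨g1, g2⟩ := key r hr
    obtain ⟨h4, h5, h6, h7, h8⟩ := ht (r t) e
    exact plk _ _ _ E₁ E₂ (c t (r t)) (c' t (r t)) h5 h6 h7 h8 h4 g1.1 g2.1
  · obtain ⟨g1, g2⟩ := key r hr
    have h4 := (ht (r t) hr.sq).1
    have h3 := ad r hr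
    exact ⟨(g1.2.1.add g2.2.1).add (continuousAt_const.mul
      (h3.continuousAt.norm.log (norm_ne_zero_iff.2 h4))),
      (g1.2.2.add g2.2.2).add (sm_log h3 h4 2)⟩

end Pool.Agent.Work.MP_677830_co.G
end
end
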