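import Pool.Agent.Work.MP_677830_co.G.Core
import Pool.Agent.Work.MP_677830_co.G.QKer
import Pool.Agent.Work.MP_677830_co.G.Geo
import Pool.Agent.Work.MP_677830_co.G.An

-- merged part: Pool.Agent.Work.MP_677830_co.G.Place2
section
/-!
# The potential on the base of the double cover
del_swap: permute the columns by Prod.swap. ps2_eq: r = rt (h t) or r = - rt (h t)
(sq_eq_sq_iff_eq_or_eq_neg). gd2_gd: br_an, br_deriv, Br.neg, Br.sq. gd2_psi: exists_br, gd_psi,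
ps2_eq near t, SM.congr.
place2, ord h v even: br_even, place_log for z i t = zz A B t (r t) i, w i t = zz A B t (-r t) i;
(z i - z k)(w i - w k) = D^2 G i G k, so g i = ord (G i) v (ord_mul; D, G are eventually nonzero since
the product is); ps2_eq. Odd: br_odd, z i s = zz A B (v + s^2) (r s) i, z i (-s) = zz A B (v + s^2) (-r s) i;
2 ord (z i - z k) = ord of (D^2 G i G k) (v + s^2) = 2 (2 ord D + ord G i + ord G k) (ord_cneg, ord_sq);
Φ~ s S = Φ S (v + s^2) (r s) + 2 (6q) log ‖2 s‖ (ram_deriv, HB.smul with χ = 2 s); Psi gains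
24 q log ‖2 s‖ (samples_pos); place_ram; back to t by ev_sq' (v + rt (t - v) ^ 2 = t,
log ‖t - v‖ = 2 log ‖s‖; the constant 24 q log 2 ≥ 0 can be dropped).
-/

namespace Pool.Agent.Work.MP_677830_co.G

open Filter Topology Polynomial Matrix MeasureTheory
open scoped ComplexConjugate ComplexOrder

variable {q : ℕ} {h : ℂ → ℂ} {A B : Ix q → ℂ → ℂ} {Φ : Finset (Ix q) → ℂ → ℂ → ℝ} {t : ℂ}

theorem del_swap (z w : Ix q → ℂ) : ‖del q w z‖ = ‖del q z w‖ := by
  have e : del q w z = ((Matrix.of fun i ab : Ix q => z i ^ (ab.1 : ℕ) * w i ^ (ab.2 : ℕ)).submatrix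
      id (Equiv.prodComm (Fin q) (Fin q))).det := by
    unfold del
    congr 1
    ext i ab
    exact mul_comm _ _
  rw [e, Matrix.det_permute', norm_mul]
  rcases Int.units_eq_one_or (Equiv.Perm.sign (Equiv.prodComm (Fin q) (Fin q))) with h | h <;>
    simp [h, del]

theorem Psi_swap (z w : Ix q → ℂ) (Φ Φ' : Finset (Ix q) → ℝ) :
    Psi q w z Φ' Φ = Psi q z w Φ Φ' := by
  unfold Psi
  rw [del_swap, add_comm (vs _ w), Finset.sum_congr rfl fun S _ => add_comm (Φ' S + _) _]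

theorem ps2_eq {r : ℂ} (e : r ^ 2 = h t) :
    Ps2 q A B Φ t r = Ps2 q A B Φ t (rt (h t)) ∧ L2 A B t r = L2 A B t (rt (h t)) := by
  rcases sq_eq_sq_iff_eq_or_eq_neg.1 (e.trans (rt_sq _).symm) with h1 | h1
  · rw [h1]
    exact ⟨rfl, rfl⟩
  · rw [h1, Ps2, Ps2, L2, L2, neg_neg, Psi_swap, add_comm]
    exact ⟨rfl, rfl⟩

theorem gd2_gd (hG : Gd2 q h A B Φ t) {r : ℂ → ℂ} (hr : Br h r t) :
    Gd q (fun i s => zz A B s (r s) i) (fun i s => zz A B s (-r s) i) (fun S s => Φ S s (r s))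
      (fun S s => Φ S s (-r s)) t := by
  obtain ⟨-, h0, h1, h2, h3⟩ := hG
  refine ⟨fun i => ⟨br_an hr (h1 i).1 (h1 i).2, br_an hr.neg (h1 i).1 (h1 i).2⟩,
    (h2 _ hr.sq).1, (h2 _ hr.neg.sq).1, (h2 _ hr.sq).2.1, fun S hS =>
      ⟨⟨(h3 r hr S hS).1, (h3 r hr S hS).2, ?_⟩, (h3 _ hr.neg S hS).1, (h3 _ hr.neg S hS).2, ?_⟩⟩
  · rw [funext fun i => br_deriv hr h0 (h1 i).1 (h1 i).2]
    exact (h2 _ hr.sq).2.2 S hS
  · rw [funext fun i => br_deriv hr.neg h0 (h1 i).1 (h1 i).2]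
    exact (h2 _ hr.neg.sq).2.2 S hS

theorem gd2_psi (hG : Gd2 q h A B Φ t) :
    ContinuousAt (fun s => Ps2 q A B Φ s (rt (h s))) t ∧
      SM (fun s => Ps2 q A B Φ s (rt (h s))) t := by
  obtain ⟨r, hr, -⟩ := exists_br hG.1 hG.2.1 (rt_sq _)
  have e : (fun s => Ps2 q A B Φ s (r s)) =ᶠ[𝓝 t] fun s => Ps2 q A B Φ s (rt (h s)) :=
    hr.2.mono fun s hs => (ps2_eq hs).1
  exact ⟨(gd_psi (gd2_gd hG hr)).1.congr e, (gd_psi (gd2_gd hG hr)).2.congr e⟩

theorem Place2_ord {D F G : ℂ → ℂ} {v : ℂ} (hD : MeromorphicAt D v) (hF : MeromorphicAt F v)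
    (hG : MeromorphicAt G v) (h0 : ∀ᶠ t in 𝓝[≠] v, D t ^ 2 * F t * G t ≠ 0) :
    ord (fun t => D t ^ 2 * F t * G t) v = 2 * ord D v + ord F v + ord G v := by
  have h1 := h0.mono fun t ht => left_ne_zero_of_mul ht
  have h2 : ∀ᶠ t in 𝓝[≠] v, D t ≠ 0 := h1.mono fun t ht e => by simp [e] at ht
  rw [ord_mul ((hD.fun_pow 2).fun_mul hF) hG h1 (h0.mono fun t ht => right_ne_zero_of_mul ht),
    ord_mul (hD.fun_pow 2) hF (h1.mono fun t ht => left_ne_zero_of_mul ht)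
      (h1.mono fun t ht => right_ne_zero_of_mul ht)]
  simp only [sq]
  rw [ord_mul hD hD h2 h2, two_mul]

theorem Place2_shift (hq : 24 ≤ q) (z w : Ix q → ℂ) (Φ Φ' : Finset (Ix q) → ℝ) (c : ℝ) :
    Psi q z w (fun S => Φ S + c) (fun S => Φ' S + c) = Psi q z w Φ Φ' + 2 * c := by
  have h0 : ((samples q).card : ℝ) ≠ 0 := by exact_mod_cast (samples_pos hq).ne'
  unfold Psi
  rw [Finset.sum_congr rfl (g := fun S => (Φ S + cn (24 * q) * vs S z +
    (Φ' S + cn (24 * q) * vs S w)) + 2 * c) fun S _ => by ring, Finset.sum_add_distrib,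
    Finset.sum_const, nsmul_eq_mul, add_div, mul_div_cancel_left₀ _ h0]
  ring

theorem place2 (hq : 10 ^ 13 ≤ q) (ho : Odd q) (v : ℂ) (hh : MeromorphicAt h v)
    (hA : ∀ i, MeromorphicAt (A i) v) (hB : ∀ i, MeromorphicAt (B i) v)
    (D : Ix q → Ix q → ℂ → ℂ) (G : Ix q → ℂ → ℂ) (hD : ∀ i k, MeromorphicAt (D i k) v)
    (hG' : ∀ i, MeromorphicAt (G i) v)
    (hpar : ∀ i k, i ≠ k → ∀ᶠ t in 𝓝[≠] v,
      (A i t - A k t) ^ 2 - h t * (B i t - B k t) ^ 2 = D i k t ^ 2 * G i t * G k t)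
    (hG : ∀ᶠ t in 𝓝[≠] v, Gd2 q h A B Φ t) :
    (plS v).LogLe 0 fun t => Ps2 q A B Φ t (rt (h t)) + c1 q * L2 A B t (rt (h t)) := by
  have h0 : ∀ᶠ t in 𝓝[≠] v, h t ≠ 0 := hG.mono fun t ht => ht.2.1
  have ne : ∀ {t r : ℂ} {i k : Ix q}, Gd2 q h A B Φ t → r ^ 2 = h t → i ≠ k →
      zz A B t r i - zz A B t r k ≠ 0 := fun ht hr hik =>
    sub_ne_zero.2 fun e => hik ((ht.2.2.2.1 _ hr).1 e)
  have pr : ∀ i k, i ≠ k → ∀ᶠ t in 𝓝[≠] v, ∀ r, r ^ 2 = h t →
      (zz A B t r i - zz A B t r k) * (zz A B t (-r) i - zz A B t (-r) k) =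
        D i k t ^ 2 * G i t * G k t := fun i k hik => (hpar i k hik).mono fun t ht r hr => by
    rw [← ht, ← hr]
    unfold zz
    ring
  have pn : ∀ i k, i ≠ k → ∀ᶠ t in 𝓝[≠] v, D i k t ^ 2 * G i t * G k t ≠ 0 := fun i k hik => by
    filter_upwards [pr i k hik, hG] with t h1 h2
    rw [← h1 _ (rt_sq _)]
    exact mul_ne_zero (ne h2 (rt_sq _) hik) (ne h2 ((neg_sq _).trans (rt_sq _)) hik)
  rcases Int.even_or_odd (ord h v) with he | he
  · obtain ⟨r, r1, r2⟩ := br_even hh h0 he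
    have hz : ∀ i, MeromorphicAt (fun t => zz A B t (r t) i) v := fun i =>
      (hA i).add (r1.mul (hB i))
    have hw : ∀ i, MeromorphicAt (fun t => zz A B t (-r t) i) v := fun i =>
      (hA i).add (r1.neg.mul (hB i))
    refine (place_log hq _ _ v hz hw (fun i => ord (G i) v) (fun i k hik => ?_) _ _
      ((hG.and r2).mono fun t ht => gd2_gd ht.1 ht.2)).of_le (r2.mono fun t ht => ?_)
    · rw [← ord_mul ((hz i).fun_sub (hz k)) ((hw i).fun_sub (hw k))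
        ((hG.and r2).mono fun t ht => ne ht.1 ht.2.sq hik)
        ((hG.and r2).mono fun t ht => ne ht.1 ht.2.neg.sq hik),
        ord_congr (((pr i k hik).and r2).mono fun t ht => ht.1 _ ht.2.sq),
        Place2_ord (hD i k) (hG' i) (hG' k) (pn i k hik)]
      exact ⟨ord (D i k) v + ord (G i) v + ord (G k) v, by ring⟩
    · have e := ps2_eq (q := q) (A := A) (B := B) (Φ := Φ) ht.sq
      rw [← e.1, ← e.2]
      exact le_rfl
  obtain ⟨r, r1, r2, r3⟩ := br_odd hh h0 he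
  have hz : ∀ i, MeromorphicAt (fun s => zz A B (v + s ^ 2) (r s) i) 0 := fun i =>
    (mer_sq (hA i)).add (r1.mul (mer_sq (hB i)))
  have g2 := (ev_sq hG).and r3
  have sm : ∀ᶠ s in 𝓝[≠] (0 : ℂ), 0 < ‖s‖ ∧ ‖s‖ < 1 / 2 := by
    simpa [plS] using (plS 0).ev_lt one_half_pos
  have hL := place_ram hq ho _ hz (fun i => ord (G i) v) (fun i k hik => ?_)
    (fun s S => Φ S (v + s ^ 2) (r s) + 2 * (6 * q : ℕ) * Real.log ‖2 * s‖) ?_
  · intro κ hκ
    filter_upwards [ev_sq' (v := v) ((hL (24 * q + 2 * κ) (by linarith)).and (r3.and sm))]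
      with t ⟨h1, h2, h3, _⟩
    have e1 : v + rt (t - v) ^ 2 = t := by rw [rt_sq, add_sub_cancel]
    have e2 : Real.log ‖t - v‖ = 2 * Real.log ‖rt (t - v)‖ := by
      conv_lhs => rw [← rt_sq (t - v), norm_pow, Real.log_pow, Nat.cast_ofNat]
    have e3 := ps2_eq (q := q) (A := A) (B := B) (Φ := Φ) (h2.sq.trans (congrArg h e1))
    have e4 : (0 : ℝ) ≤ q * Real.log 2 := by positivity
    simp only [neg_sq, r2, e1, norm_mul, norm_neg, plS, sub_zero, Complex.norm_ofNat] at h1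
    rw [Place2_shift (by omega), Real.log_mul two_ne_zero h3.ne'] at h1
    change _ ≤ κ * Real.log ‖t - v‖
    rw [← e3.1, ← e3.2, e2]
    change Ps2 q A B Φ t (r (rt (t - v))) + _ + c1 q * L2 A B t (r (rt (t - v))) ≤ _ at h1
    push_cast at h1
    linarith
  · have a0 := (hz i).fun_sub (hz k)
    have a1 := g2.mono fun s hs => ne hs.1 hs.2.sq hik
    have a2 := ord_mul a0 (mer_cneg a0) a1 (ev_neg a1)
    simp only [neg_sq, r2] at a2
    rw [ord_congr (((ev_sq (pr i k hik)).and r3).mono fun s hs => hs.1 _ hs.2.sq),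
      ord_sq ((((hD i k).fun_pow 2).fun_mul (hG' i)).fun_mul (hG' k)) (pn i k hik),
      Place2_ord (hD i k) (hG' i) (hG' k) (pn i k hik)] at a2
    have a3 := ord_cneg a0 a1
    simp only [neg_sq, r2] at a3
    exact ⟨ord (D i k) v + ord (G i) v + ord (G k) v, by omega⟩
  · filter_upwards [g2, sm] with s ⟨h1, h2⟩ ⟨h3, h4⟩
    obtain ⟨b1, b2, b3⟩ := h1.2.2.2.1 _ h2.sq
    refine ⟨b1, by simpa only [neg_sq, r2] using b2, fun S hS => ?_⟩
    rw [funext fun i => ram_deriv h2 h1.1 h1.2.1 (h1.2.2.1 i).1 (h1.2.2.1 i).2]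
    refine (b3 S hS).smul (mul_ne_zero two_ne_zero (norm_pos_iff.1 h3)) ?_
    rw [norm_mul, Complex.norm_ofNat]
    linarith

end Pool.Agent.Work.MP_677830_co.G
end

-- merged part: Pool.Agent.Work.MP_677830_co.G.Core2
section
/-!
# The core theorem on a connected double cover
tbd_hF: for i ≠ J 1, p = fF (i, false) is eventually nonzero (hne), A i - a = fF (i, true) / (2 p),
h B i^2 = (A i - a)^2 - p⁻¹; for i = J 1, A i = a, B i = 0. (h B i B k)^2 = (h B i^2)(h B k^2): TBd.sqrt.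
core2: gh2 for every sample (choose, as in core of G/Core), Gd2 codiscrete (injectivity: the product
of the differences for r and -r is the left side of hne). abs_core with Ψ t = Ps2 at rt (h t),
F = fF h A B (a 1), H = hF h A B, c = c1 / (4 q^2) (fam_le, arch2, gd2_psi; place2 and
LogLe.add with a constant, LL ≥ 0). So all fF are eventually constant; for i ≠ J 1, h B i^2 is a
constant, which is 0 since h is not a square; so B i = 0 eventually for all i, zz t r = zz t (-r),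
and del has two equal columns (1,0), (0,1).
-/

namespace Pool.Agent.Work.MP_677830_co.G

open Filter Topology Polynomial Matrix MeasureTheory
open scoped ComplexConjugate ComplexOrder

variable {q : ℕ} {h : ℂ → ℂ} {A B : Ix q → ℂ → ℂ}

theorem Core2_mer (hh : Meromorphic h) (hA : ∀ i, Meromorphic (A i))
    (hB : ∀ i, Meromorphic (B i)) (a : ℂ) (x : Ix q × Bool) : Meromorphic (fF h A B a x) := by
  intro t
  have m1 : MeromorphicAt (fun t => A x.1 t - a) t := (hA _ t).sub (MeromorphicAt.const a t)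
  have m2 : MeromorphicAt (fun t => ((A x.1 t - a) ^ 2 - h t * B x.1 t ^ 2)⁻¹) t :=
    ((m1.pow 2).sub ((hh t).mul ((hB _ t).pow 2))).inv
  unfold fF
  cases x.2
  · exact (MeromorphicAt.const 1 t).mul m2
  · exact ((MeromorphicAt.const 2 t).mul m1).mul m2

theorem Core2_A {a t : ℂ} {i : Ix q} (hn : (A i t - a) ^ 2 - h t * B i t ^ 2 ≠ 0) :
    A i t = a + 2⁻¹ * (fF h A B a (i, true) t * (fF h A B a (i, false) t)⁻¹) := by
  simp only [fF, if_true, Bool.false_eq_true, if_false, one_mul, inv_inv]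
  rw [mul_assoc (2 * (A i t - a)), inv_mul_cancel₀ hn]
  ring

theorem Core2_B (a t : ℂ) (i : Ix q) :
    h t * B i t ^ 2 = (A i t - a) * (A i t - a) - (fF h A B a (i, false) t)⁻¹ := by
  simp only [fF, Bool.false_eq_true, if_false, one_mul, inv_inv]
  ring

theorem Core2_ne {i j : Ix q} {a : ℂ} (hj : ∀ t, A j t = a ∧ B j t = 0)
    (hne : ∀ᶠ t in codiscrete ℂ, (A i t - A j t) ^ 2 - h t * (B i t - B j t) ^ 2 ≠ 0) :
    ∀ᶠ t in codiscrete ℂ,
      A i t = a + 2⁻¹ * (fF h A B a (i, true) t * (fF h A B a (i, false) t)⁻¹) := by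
  filter_upwards [hne] with t ht
  rw [(hj t).1, (hj t).2, sub_zero] at ht
  exact Core2_A ht

theorem tbd_hF (hh : Meromorphic h) (hA : ∀ i, Meromorphic (A i)) (hB : ∀ i, Meromorphic (B i))
    (hne : ∀ i k, i ≠ k → ∀ᶠ t in codiscrete ℂ,
      (A i t - A k t) ^ 2 - h t * (B i t - B k t) ^ 2 ≠ 0)
    {j : Ix q} {a : ℂ} (hj : ∀ t, A j t = a ∧ B j t = 0) (x : (Ix q × Ix q) × Fin 3) :
    TBd (fF h A B a) (hF h A B x) := by
  have hF := Core2_mer hh hA hB a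
  have tA : ∀ i, TBd (fF h A B a) (A i) := by
    intro i
    by_cases e : i = j
    · exact (tbd_const a).congr (hA i) (Eventually.of_forall fun t => e ▸ (hj t).1)
    · exact ((tbd_const a).add ((tbd_const 2⁻¹).mul ((tbd_mem hF (i, true)).mul
        (tbd_mem hF (i, false)).inv))).congr (hA i) (Core2_ne hj (hne i j e))
  have tB : ∀ i, TBd (fF h A B a) fun t => h t * B i t ^ 2 := fun i =>
    ((((tA i).sub (tbd_const a)).mul ((tA i).sub (tbd_const a))).sub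
      (tbd_mem hF (i, false)).inv).congr (fun t => (hh t).mul ((hB i t).pow 2))
      (Eventually.of_forall fun t => Core2_B a t i)
  have tC : ∀ i k, TBd (fF h A B a) fun t => h t * B i t * B k t := fun i k =>
    ((tB i).mul (tB k)).sqrt (fun t => ((hh t).mul (hB i t)).mul (hB k t))
      (Eventually.of_forall fun t => by ring)
  obtain ⟨⟨i, k⟩, m⟩ := x
  have t0 : TBd (fF h A B a) fun t => A i t - A k t := (tA i).sub (tA k)
  have m1 : Meromorphic fun t => h t * (B i t - B k t) ^ 2 :=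
    fun t => (hh t).mul (((hB i t).sub (hB k t)).pow 2)
  have t1 : TBd (fF h A B a) fun t => h t * (B i t - B k t) ^ 2 :=
    ((((tB i).add (tB k)).sub (tC i k)).sub (tC i k)).congr m1
      (Eventually.of_forall fun t => by ring)
  have t2 : TBd (fF h A B a) fun t => (A i t - A k t) ^ 2 - h t * (B i t - B k t) ^ 2 :=
    ((t0.mul t0).sub t1).congr (fun t => (((hA i t).sub (hA k t)).pow 2).sub (m1 t))
      (Eventually.of_forall fun t => by ring)
  fin_cases m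
  · exact t0
  · exact t1
  · exact t2

theorem del_self (hq : 2 ≤ q) (z : Ix q → ℂ) : del q z z = 0 := by
  unfold del
  refine det_zero_of_column_eq (i := ((⟨1, by omega⟩ : Fin q), (⟨0, by omega⟩ : Fin q)))
    (j := ((⟨0, by omega⟩ : Fin q), (⟨1, by omega⟩ : Fin q))) (by simp) fun k => ?_
  simp

theorem Core2_dich {u : Ix q → ℂ → ℂ} (hu : ∀ i, Meromorphic (u i)) :
    ∀ᶠ t in codiscrete ℂ, ∀ i k, u i t - u k t ≠ 0 ∨ ∀ᶠ s in 𝓝 t, u i s - u k s = 0 := by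
  refine eventually_all.2 fun i => eventually_all.2 fun k => ?_
  rcases mer_dich (f := fun t => u i t - u k t) (fun t => (hu i t).sub (hu k t)) with e | e
  · exact e.mono fun t ht => Or.inl ht
  · exact (codis_open e).mono fun t ht => Or.inr ht

theorem Core2_inj (hne : ∀ i k, i ≠ k → ∀ᶠ t in codiscrete ℂ,
      (A i t - A k t) ^ 2 - h t * (B i t - B k t) ^ 2 ≠ 0) :
    ∀ᶠ t in codiscrete ℂ, ∀ r, r ^ 2 = h t → Function.Injective (zz A B t r) := by
  have : ∀ᶠ t in codiscrete ℂ, ∀ i k, i ≠ k →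
      (A i t - A k t) ^ 2 - h t * (B i t - B k t) ^ 2 ≠ 0 := by
    refine eventually_all.2 fun i => eventually_all.2 fun k => ?_
    by_cases e : i = k
    · exact Eventually.of_forall fun t h' => absurd e h'
    · exact (hne i k e).mono fun t ht _ => ht
  filter_upwards [this] with t ht r hr i k e
  by_contra hc
  refine ht i k hc ?_
  simp only [zz] at e
  rw [← hr]
  linear_combination (A i t - A k t - r * (B i t - B k t)) * e

theorem Core2_zero (hn : NS h) {b : ℂ → ℂ} (hb : Meromorphic b) {κ : ℂ}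
    (e : ∀ᶠ t in codiscrete ℂ, h t * b t ^ 2 = κ) : ∀ᶠ t in codiscrete ℂ, b t = 0 := by
  rcases mer_dich hb with e' | e'
  · refine absurd ⟨fun t => rt κ * (b t)⁻¹,
      fun t => (MeromorphicAt.const _ t).mul (hb t).inv, ?_⟩ hn.2
    filter_upwards [e, e'] with t h1 h2
    rw [mul_pow, rt_sq, ← h1]
    field_simp
  · exact e'

theorem Core2_L (A B : Ix q → ℂ → ℂ) (t r : ℂ) : 0 ≤ L2 A B t r :=
  add_nonneg (Finset.sum_nonneg fun _ _ => Real.posLog_nonneg)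
    (Finset.sum_nonneg fun _ _ => Real.posLog_nonneg)

theorem core2 (hq : 10 ^ 13 ≤ q) (ho : Odd q) (hn : NS h) (hA : ∀ i, Meromorphic (A i))
    (hB : ∀ i, Meromorphic (B i)) (D : Ix q → Ix q → ℂ → ℂ) (G : Ix q → ℂ → ℂ)
    (hD : ∀ i k, Meromorphic (D i k)) (hG : ∀ i, Meromorphic (G i))
    (hne : ∀ i k, i ≠ k → ∀ᶠ t in codiscrete ℂ,
      (A i t - A k t) ^ 2 - h t * (B i t - B k t) ^ 2 ≠ 0)
    (hpar : ∀ i k, i ≠ k → ∀ᶠ t in codiscrete ℂ,
      (A i t - A k t) ^ 2 - h t * (B i t - B k t) ^ 2 = D i k t ^ 2 * G i t * G k t)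
    (hd : ∀ᶠ t in codiscrete ℂ, ∀ r, r ^ 2 = h t → del q (zz A B t r) (zz A B t (-r)) ≠ 0)
    (J : Fin 3 ↪ Ix q) (a : Fin 3 → ℂ) (hJ : ∀ m t, A (J m) t = a m ∧ B (J m) t = 0) : False := by
  have := codis_neBot
  have hh := hn.1
  have hinj := Core2_inj hne
  have key : ∀ S : Finset (Ix q), ∃ Φ : ℂ → ℂ → ℝ, S ∈ samples q → ∀ᶠ t in codiscrete ℂ,
      (∀ r, r ^ 2 = h t → HB (6 * q) S (zz A B t r) (vv h A B t r) (Φ t r)) ∧
      ∀ r : ℂ → ℂ, Br h r t →
        ContinuousAt (fun s => Φ s (r s)) t ∧ SM (fun s => Φ s (r s)) t := by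
    intro S
    by_cases hS : S ∈ samples q
    · have hc : S.card = 4 * (6 * q) := by
        rw [(Finset.mem_powersetCard.1 hS).2]; ring
      obtain ⟨Φ, hΦ⟩ := gh2 hn (p := 6 * q) (by omega) hc A B hA hB hinj
      exact ⟨Φ, fun _ => hΦ⟩
    · exact ⟨0, fun e => absurd e hS⟩
  choose Φ hΦ using key
  have han : ∀ᶠ t in codiscrete ℂ, ∀ i, AnalyticAt ℂ (A i) t ∧ AnalyticAt ℂ (B i) t :=
    eventually_all.2 fun i => (mer_an (hA i)).and (mer_an (hB i))
  have hG2 : ∀ᶠ t in codiscrete ℂ, Gd2 q h A B Φ t := by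
    filter_upwards [mer_an hh, hn.ne, han, hinj, hd, (eventually_all_finset _).2 hΦ] with t h1 h2
      h3 h4 h5 h6
    exact ⟨h1, h2, h3, fun r hr => ⟨h4 r hr, h5 r hr, fun S hS => (h6 S hS).1 r hr⟩,
      fun r hr S hS => (h6 S hS).2 r hr⟩
  obtain ⟨C1, hC1⟩ := fam_le J a
  obtain ⟨C2, hC2⟩ := arch2 hq
  have hq0 : 0 < q := by omega
  have hq1 : (0 : ℝ) < q := by exact_mod_cast hq0
  have hc1 := c1_pos hq0
  have hc : 0 < c1 q / (4 * (q : ℝ) ^ 2) := by positivity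
  have hfam : ∀ t, Gd2 q h A B Φ t →
      c1 q / (4 * (q : ℝ) ^ 2) * ∑ x, Real.posLog ‖fF h A B (a 1) x t‖ ≤
        c1 q / (4 * (q : ℝ) ^ 2) * C1 + c1 q / 2 * L2 A B t (rt (h t)) := by
    intro t ht
    have e1 := hC1 h A B t (rt (h t)) (rt_sq _) (ht.2.2.2.1 _ (rt_sq _)).1
      (ht.2.2.2.1 _ (by rw [neg_sq, rt_sq])).1 fun m => hJ m t
    refine (mul_le_mul_of_nonneg_left e1 hc.le).trans (le_of_eq ?_)
    field_simp
    ring
  have hcon := abs_core (fun t => Ps2 q A B Φ t (rt (h t))) (fF h A B (a 1)) (hF h A B)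
    (Core2_mer hh hA hB (a 1)) (tbd_hF hh hA hB hne (hJ 1)) (c := c1 q / (4 * (q : ℝ) ^ 2))
    (C := c1 q / (4 * (q : ℝ) ^ 2) * C1 + C2) (K := 24 * q) hc (by positivity) (by
      filter_upwards [hG2, Core2_dich hA, Core2_dich hB] with t h1 h2 h3
      refine ⟨(gd2_psi h1).1, (gd2_psi h1).2, ?_⟩
      have e1 := hfam t h1
      have e2 := hC2 h A B Φ t (rt (h t)) h1 (rt_sq _) h2 h3
      linarith) (by
      intro v
      have hv := codis_iff.1 hG2 v
      have e1 := ((plS v).logLe_const (c1 q / (4 * (q : ℝ) ^ 2) * C1)).add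
        (place2 hq ho v (hh v) (fun i => hA i v) (fun i => hB i v) D G (fun i k => hD i k v)
          (fun i => hG i v) (fun i k e => codis_iff.1 (hpar i k e) v) hv)
      rw [add_zero] at e1
      refine e1.of_le (hv.mono fun t ht => ?_)
      have e2 := hfam t ht
      have e3 := mul_nonneg hc1.le (Core2_L A B t (rt (h t)))
      linarith)
  have hB0 : ∀ᶠ t in codiscrete ℂ, ∀ i, B i t = 0 := by
    refine eventually_all.2 fun i => ?_
    by_cases e : i = J 1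
    · exact Eventually.of_forall fun t => e ▸ (hJ 1 t).2
    · obtain ⟨p, hp⟩ := hcon (i, false)
      obtain ⟨s, hs⟩ := hcon (i, true)
      refine Core2_zero hn (hB i) (κ := 2⁻¹ * (s * p⁻¹) * (2⁻¹ * (s * p⁻¹)) - p⁻¹) ?_
      filter_upwards [hp, hs, Core2_ne (hJ 1) (hne i (J 1) e)] with t h1 h2 h3
      rw [Core2_B (A := A) (a 1) t i, h3, h1, h2]
      ring
  obtain ⟨t, h1, h2⟩ := (hB0.and hd).exists
  refine h2 (rt (h t)) (rt_sq _) ?_
  have e : zz A B t (-rt (h t)) = zz A B t (rt (h t)) := by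
    funext i
    simp only [zz, h1 i, mul_zero]
  rw [e]
  exact del_self (by omega) _

end Pool.Agent.Work.MP_677830_co.G
end

-- merged part: Pool.Agent.Work.MP_677830_co.G.Geo2A
section
/-!
# The normalised problem
geo2_ns: M a = (X a - c0)^2 - h ρ a^2 (nonzero at t0: it is the product of the two differences).
Index set Option (Fin m): A none = B none = 0, A (some a) = (X a - c0) / M a, B (some a) = - ρ a / M a,
so zz t r (some a) = (X a + r ρ a - c0)⁻¹ when r^2 = h t and M a ≠ 0; for c and e the functions are the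
constants (0 - c0)⁻¹, (1 - c0)⁻¹ and B = 0. G none = 1, G (some a) = (M a)⁻¹, D with none = 1.
sel with J = {none, some c, some e} as in Geo_main; hne by mer_ne_of_at; hd by QM.ne_of_br with a
branch through r0 (exists_br, qm_det, qm_zz, QM.conj); core2.
geo2_main: if h is not a square, geo2_ns. Otherwise h = r^2, remov makes r analytic at t0,
r t0 = ± r0, replace r by - r if necessary; Geo_main with Z = X + r ρ, W = X - r ρ.
-/

namespace Pool.Agent.Work.MP_677830_co.G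

open Filter Topology Polynomial Matrix MeasureTheory
open scoped ComplexConjugate ComplexOrder

variable {q m : ℕ} {X ρ : Fin m → ℂ → ℂ} {h : ℂ → ℂ} {D : Fin m → Fin m → ℂ → ℂ} {t0 r0 c0 : ℂ}
  {c e : Fin m}

theorem Geo2A_fac {x u r h : ℂ} (e : r ^ 2 = h) : x ^ 2 - h * u ^ 2 = (x + r * u) * (x - r * u) := by
  rw [← e]
  ring

theorem Geo2A_inv {x u r h : ℂ} (e : r ^ 2 = h) (h1 : x + r * u ≠ 0) (h2 : x - r * u ≠ 0) :
    x / (x ^ 2 - h * u ^ 2) + r * (-u / (x ^ 2 - h * u ^ 2)) = (x + r * u)⁻¹ ∧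
      x / (x ^ 2 - h * u ^ 2) + -r * (-u / (x ^ 2 - h * u ^ 2)) = (x - r * u)⁻¹ := by
  rw [Geo2A_fac e]
  constructor
  · field_simp
    ring
  · field_simp

theorem Geo2A_par {x y u v h M N : ℂ} (hM : M = x ^ 2 - h * u ^ 2) (hN : N = y ^ 2 - h * v ^ 2)
    (M0 : M ≠ 0) (N0 : N ≠ 0) : (x / M - y / N) ^ 2 - h * (-u / M - -v / N) ^ 2 =
      ((x - y) ^ 2 - h * (u - v) ^ 2) * M⁻¹ * N⁻¹ := by
  field_simp
  subst hM hN
  ring

theorem Geo2A_one {x u h M : ℂ} (hM : M = x ^ 2 - h * u ^ 2) (M0 : M ≠ 0) :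
    (x / M) ^ 2 - h * (u / M) ^ 2 = M⁻¹ := by
  field_simp
  exact hM.symm

theorem Geo2A_inj {ζ : Option (Fin m) → ℂ} {Y : Fin m → ℂ} (h0 : ζ none = 0)
    (h1 : ∀ a, ζ (some a) = (Y a - c0)⁻¹) (iY : ∀ a b, a ≠ b → Y a ≠ Y b) (cY : ∀ a, Y a ≠ c0) :
    Function.Injective ζ := by
  rintro (_ | b) (_ | b') h
  · rfl
  · rw [h0, h1] at h
    exact absurd h.symm (inv_ne_zero (sub_ne_zero.2 (cY b')))
  · rw [h0, h1] at h
    exact absurd h (inv_ne_zero (sub_ne_zero.2 (cY b)))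
  · rw [h1, h1] at h
    by_contra hne
    exact iY b b' (fun h' => hne (by rw [h'])) (sub_left_injective (inv_injective h))

theorem Geo2A_three {α : Type} {a b c : α} (h1 : a ≠ b) (h2 : a ≠ c) (h3 : b ≠ c) :
    Function.Injective ![a, b, c] := by
  intro u v h
  fin_cases u <;> fin_cases v <;> simp_all

theorem geo2_ns (hq : 10 ^ 13 ≤ q) (ho : Odd q) (hn : NS h) (hce : c ≠ e)
    (hX : ∀ a, Meromorphic (X a)) (hρ : ∀ a, Meromorphic (ρ a)) (hD : ∀ a b, Meromorphic (D a b))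
    (ah : AnalyticAt ℂ h t0) (aX : ∀ a, AnalyticAt ℂ (X a) t0) (aρ : ∀ a, AnalyticAt ℂ (ρ a) t0)
    (hr : r0 ^ 2 = h t0) (hr0 : r0 ≠ 0) (hc : ∀ t, X c t = 0 ∧ ρ c t = 0)
    (he : ∀ t, X e t = 1 ∧ ρ e t = 0)
    (hDe : ∀ a b, ∀ᶠ t in codiscrete ℂ,
      (X a t - X b t) ^ 2 - h t * (ρ a t - ρ b t) ^ 2 = D a b t ^ 2)
    (hinj : ∀ a b, a ≠ b → X a t0 + r0 * ρ a t0 ≠ X b t0 + r0 * ρ b t0 ∧
      X a t0 - r0 * ρ a t0 ≠ X b t0 - r0 * ρ b t0)
    (hc0 : ∀ a, X a t0 + r0 * ρ a t0 ≠ c0 ∧ X a t0 - r0 * ρ a t0 ≠ c0)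
    (hs : ∀ f : Ix q → ℂ, (∀ a, ∑ x, f x * ((X a t0 + r0 * ρ a t0 - c0)⁻¹ ^ (x.1 : ℕ) *
      (X a t0 - r0 * ρ a t0 - c0)⁻¹ ^ (x.2 : ℕ)) = 0) → f = 0) : False := by
  classical
  have hh := hn.1
  obtain ⟨M, hM⟩ : ∃ M : Fin m → ℂ → ℂ, ∀ a t, M a t = (X a t - c0) ^ 2 - h t * ρ a t ^ 2 :=
    ⟨_, fun _ _ => rfl⟩
  have hM' : ∀ a, M a = fun t => (X a t - c0) ^ 2 - h t * ρ a t ^ 2 := fun a => funext (hM a)
  have p1 : ∀ a, X a t0 - c0 + r0 * ρ a t0 ≠ 0 := fun a e => (hc0 a).1 (by linear_combination e)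
  have p2 : ∀ a, X a t0 - c0 - r0 * ρ a t0 ≠ 0 := fun a e => (hc0 a).2 (by linear_combination e)
  have M0 : ∀ a, M a t0 ≠ 0 := fun a => by
    rw [hM, Geo2A_fac hr]
    exact mul_ne_zero (p1 a) (p2 a)
  have mM : ∀ a, Meromorphic (M a) := fun a t => by
    rw [hM']
    exact (((hX a t).sub (MeromorphicAt.const c0 t)).pow 2).sub ((hh t).mul ((hρ a t).pow 2))
  have aM : ∀ a, AnalyticAt ℂ (M a) t0 := fun a => by
    rw [hM']
    exact (((aX a).sub analyticAt_const).pow 2).sub (ah.mul ((aρ a).pow 2))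
  have nM : ∀ a, ∀ᶠ t in codiscrete ℂ, M a t ≠ 0 := fun a => mer_ne_of_at (mM a) (aM a) (M0 a)
  let A : Option (Fin m) → ℂ → ℂ := fun o t => o.elim 0 fun a => (X a t - c0) / M a t
  let B : Option (Fin m) → ℂ → ℂ := fun o t => o.elim 0 fun a => -ρ a t / M a t
  let G : Option (Fin m) → ℂ → ℂ := fun o t => o.elim 1 fun a => (M a t)⁻¹
  let D' : Option (Fin m) → Option (Fin m) → ℂ → ℂ := fun o o' t =>
    o.elim 1 fun a => o'.elim 1 fun b => D a b t
  have mA : ∀ o, Meromorphic (A o) ∧ AnalyticAt ℂ (A o) t0 := by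
    rintro (_ | a)
    · exact ⟨fun t => MeromorphicAt.const 0 t, analyticAt_const⟩
    · exact ⟨fun t => ((hX a t).sub (MeromorphicAt.const c0 t)).div (mM a t),
        ((aX a).sub analyticAt_const).div (aM a) (M0 a)⟩
  have mB : ∀ o, Meromorphic (B o) ∧ AnalyticAt ℂ (B o) t0 := by
    rintro (_ | a)
    · exact ⟨fun t => MeromorphicAt.const 0 t, analyticAt_const⟩
    · exact ⟨fun t => (hρ a t).neg.div (mM a t), (aρ a).neg.div (aM a) (M0 a)⟩
  have mG : ∀ o, Meromorphic (G o) := by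
    rintro (_ | a)
    · exact fun t => MeromorphicAt.const 1 t
    · exact fun t => (mM a t).inv
  have mD : ∀ o o', Meromorphic (D' o o') := by
    rintro (_ | a) (_ | b)
    exacts [fun t => MeromorphicAt.const 1 t, fun t => MeromorphicAt.const 1 t,
      fun t => MeromorphicAt.const 1 t, hD a b]
  have z1 : ∀ a, zz A B t0 r0 (some a) = (X a t0 + r0 * ρ a t0 - c0)⁻¹ := fun a => by
    change (X a t0 - c0) / M a t0 + r0 * (-ρ a t0 / M a t0) = _
    rw [hM, (Geo2A_inv hr (p1 a) (p2 a)).1, add_sub_right_comm]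
  have z2 : ∀ a, zz A B t0 (-r0) (some a) = (X a t0 - r0 * ρ a t0 - c0)⁻¹ := fun a => by
    change (X a t0 - c0) / M a t0 + -r0 * (-ρ a t0 / M a t0) = _
    rw [hM, (Geo2A_inv hr (p1 a) (p2 a)).2, sub_right_comm]
  have z0 : ∀ r, zz A B t0 r none = 0 := fun r => by simp [zz, A, B]
  have iζ := Geo2A_inj (z0 r0) z1 (fun a b h => (hinj a b h).1) fun a => (hc0 a).1
  have iω := Geo2A_inj (z0 (-r0)) z2 (fun a b h => (hinj a b h).2) fun a => (hc0 a).2
  have hcard : ({none, some c, some e} : Finset (Option (Fin m))).card ≤ q :=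
    Finset.card_le_three.trans (le_trans (by norm_num) hq)
  obtain ⟨E, hE, hdel⟩ := sel (q := q) (zz A B t0 r0) (zz A B t0 (-r0))
    (fun f hf => hs f fun b => by rw [← z1, ← z2]; exact hf (some b)) {none, some c, some e} hcard
    iζ.injOn
  obtain ⟨i0, hi0⟩ := hE none (by simp)
  obtain ⟨i1, hi1⟩ := hE (some c) (by simp)
  obtain ⟨i2, hi2⟩ := hE (some e) (by simp)
  have n01 : i0 ≠ i1 := fun h => by rw [h, hi1] at hi0; exact absurd hi0 (by simp)
  have n02 : i0 ≠ i2 := fun h => by rw [h, hi2] at hi0; exact absurd hi0 (by simp)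
  have n12 : i1 ≠ i2 := fun h => by rw [h, hi2] at hi1; exact hce (Option.some_injective _ hi1).symm
  let J : Fin 3 ↪ Ix q := ⟨![i0, i1, i2], Geo2A_three n01 n02 n12⟩
  refine core2 (A := fun i => A (E i)) (B := fun i => B (E i)) hq ho hn (fun i => (mA _).1)
    (fun i => (mB _).1) (fun i k => D' (E i) (E k)) (fun i => G (E i)) (fun i k => mD _ _)
    (fun i => mG _) (fun i k hik => ?_) (fun i k hik => ?_) ?_ J
    ![0, (0 - c0)⁻¹, (1 - c0)⁻¹] fun u t => ?_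
  · have hne : E i ≠ E k := fun h => hik (E.injective h)
    refine mer_ne_of_at (f := fun t => (A (E i) t - A (E k) t) ^ 2 - h t * (B (E i) t - B (E k) t) ^ 2)
      (fun t => ((((mA _).1 t).sub ((mA _).1 t)).pow 2).sub
        ((hh t).mul ((((mB _).1 t).sub ((mB _).1 t)).pow 2)))
      ((((mA _).2.sub (mA _).2).pow 2).sub (ah.mul (((mB _).2.sub (mB _).2).pow 2))) ?_
    rw [Geo2A_fac hr]
    refine mul_ne_zero (fun e => hne (iζ ?_)) fun e => hne (iω ?_) <;> simp only [zz] <;>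
      linear_combination e
  · have hne : E i ≠ E k := fun h => hik (E.injective h)
    generalize E i = o at hne ⊢
    generalize E k = o' at hne ⊢
    rcases o with _ | b <;> rcases o' with _ | b'
    · exact absurd rfl hne
    · filter_upwards [nM b'] with t ht
      simp only [A, B, G, D', Option.elim]
      linear_combination Geo2A_one (hM b' t) ht
    · filter_upwards [nM b] with t ht
      simp only [A, B, G, D', Option.elim]
      linear_combination Geo2A_one (hM b t) ht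
    · filter_upwards [nM b, nM b', hDe b b'] with t h1 h2 h3
      simp only [A, B, G, D', Option.elim]
      rw [Geo2A_par (hM b t) (hM b' t) h1 h2, ← h3, sub_sub_sub_cancel_right]
  · obtain ⟨r, br, e0⟩ := exists_br ah (by rw [← hr]; exact pow_ne_zero 2 hr0) hr
    have qz := qm_zz (h := h) (A := fun i => A (E i)) (B := fun i => B (E i)) (fun i => (mA _).1)
      fun i => (mB _).1
    refine QM.ne_of_br (F := fun t r => del q (zz (fun i => A (E i)) (fun i => B (E i)) t r)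
      (zz (fun i => A (E i)) (fun i => B (E i)) t (-r))) hn
      (qm_det hh fun i ab => ((qz i).pow hh _).mul hh ((qz i).conj.pow hh _)) br
      (AnalyticAt.continuousAt (an_det fun i ab => ?_)) (by rw [e0]; exact hdel)
    exact ((br_an (A := fun i => A (E i)) (B := fun i => B (E i)) br (mA _).2 (mB _).2).pow _).mul
      ((br_an (A := fun i => A (E i)) (B := fun i => B (E i)) br.neg (mA _).2 (mB _).2).pow _)
  · have k : ∀ x : ℂ, x / x ^ 2 = x⁻¹ := fun x => by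
      rw [sq, div_self_mul_self']
    fin_cases u
    · simp [J, hi0, A, B]
    · simp [J, hi1, A, B, hM, hc t, ← k]
    · simp [J, hi2, A, B, hM, he t, k]

theorem geo2_main (hq : 10 ^ 13 ≤ q) (ho : Odd q) (hh : Meromorphic h) (hce : c ≠ e)
    (hX : ∀ a, Meromorphic (X a)) (hρ : ∀ a, Meromorphic (ρ a)) (hD : ∀ a b, Meromorphic (D a b))
    (ah : AnalyticAt ℂ h t0) (aX : ∀ a, AnalyticAt ℂ (X a) t0) (aρ : ∀ a, AnalyticAt ℂ (ρ a) t0)
    (hr : r0 ^ 2 = h t0) (hr0 : r0 ≠ 0) (hc : ∀ t, X c t = 0 ∧ ρ c t = 0)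
    (he : ∀ t, X e t = 1 ∧ ρ e t = 0)
    (hDe : ∀ a b, ∀ᶠ t in codiscrete ℂ,
      (X a t - X b t) ^ 2 - h t * (ρ a t - ρ b t) ^ 2 = D a b t ^ 2)
    (hinj : ∀ a b, a ≠ b → X a t0 + r0 * ρ a t0 ≠ X b t0 + r0 * ρ b t0 ∧
      X a t0 - r0 * ρ a t0 ≠ X b t0 - r0 * ρ b t0)
    (hc0 : ∀ a, X a t0 + r0 * ρ a t0 ≠ c0 ∧ X a t0 - r0 * ρ a t0 ≠ c0)
    (hs : ∀ f : Ix q → ℂ, (∀ a, ∑ x, f x * ((X a t0 + r0 * ρ a t0 - c0)⁻¹ ^ (x.1 : ℕ) *
      (X a t0 - r0 * ρ a t0 - c0)⁻¹ ^ (x.2 : ℕ)) = 0) → f = 0) (a b : Fin m) :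
    ∃ k : ℂ, ∀ᶠ t in codiscrete ℂ, D a b t ^ 2 = k := by
  by_cases hsq : ∃ r : ℂ → ℂ, Meromorphic r ∧ ∀ᶠ t in codiscrete ℂ, r t ^ 2 = h t
  swap
  · exact (geo2_ns hq ho ⟨hh, hsq⟩ hce hX hρ hD ah aX aρ hr hr0 hc he hDe hinj hc0 hs).elim
  obtain ⟨g, mg, ag, g0, eg⟩ : ∃ g : ℂ → ℂ, Meromorphic g ∧ AnalyticAt ℂ g t0 ∧ g t0 = r0 ∧
      ∀ᶠ t in codiscrete ℂ, g t ^ 2 = h t := by
    obtain ⟨r, mr, er⟩ := hsq
    obtain ⟨g, mg, ag, g0, eg⟩ := remov mr (t0 := t0) (L := h t0)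
      ((ah.continuousAt.tendsto.mono_left nhdsWithin_le_nhds).congr'
        ((codis_iff.1 er t0).mono fun t ht => ht.symm))
    have e2 : ∀ᶠ t in codiscrete ℂ, g t ^ 2 = h t := by
      filter_upwards [eg, er] with t h1 h2
      rw [h1, h2]
    rcases sq_eq_sq_iff_eq_or_eq_neg.1 (g0.trans hr.symm) with h1 | h1
    · exact ⟨g, mg, ag, h1, e2⟩
    · exact ⟨fun t => -g t, fun t => (mg t).neg, ag.neg, neg_eq_iff_eq_neg.2 h1,
        e2.mono fun t ht => by rw [neg_sq, ht]⟩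
  have hDe' : ∀ a b, ∀ᶠ t in codiscrete ℂ, (X a t + g t * ρ a t - (X b t + g t * ρ b t)) *
      (X a t - g t * ρ a t - (X b t - g t * ρ b t)) = D a b t ^ 2 := fun a b => by
    filter_upwards [eg, hDe a b] with t h1 h2
    rw [← h2, ← h1]
    ring
  have main := Geo_main hq (fun a t => X a t + g t * ρ a t) (fun a t => X a t - g t * ρ a t) D t0 hce
    (fun a t => (hX a t).add ((mg t).mul (hρ a t))) (fun a t => (hX a t).sub ((mg t).mul (hρ a t)))
    hD (fun a => (aX a).add (ag.mul (aρ a))) (fun a => (aX a).sub (ag.mul (aρ a)))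
    (fun t => by simp [hc t]) (fun t => by simp [he t]) hDe' (by rw [g0]; exact hinj) c0
    (by rw [g0]; exact hc0) (by rw [g0]; exact hs)
  obtain ⟨⟨k1, e1⟩, ⟨k2, e2⟩⟩ := main a
  obtain ⟨⟨k3, e3⟩, ⟨k4, e4⟩⟩ := main b
  refine ⟨(k1 - k3) * (k2 - k4), ?_⟩
  filter_upwards [e1, e2, e3, e4, hDe' a b] with t g1 g2 g3 g4 g5
  rw [← g5, g1, g2, g3, g4]

end Pool.Agent.Work.MP_677830_co.G
end

-- merged part: Pool.Agent.Work.MP_677830_co.G.OT1
section
/-!
# A curve of low degree meets few cells of a grid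
ev F x = eval ![x.1, x.2] F. H i = ori (l i) (r i), V j = ori (up j) (dn j), affine functions.
line_zeros: τ ↦ ev F (p + τ (p' - p)) is a polynomial of degree ≤ d.
lines_in: if d + 1 of the lines H i lie in the zero set, then for every o off finitely many lines the
line through o with direction up 0 - dn 0 meets them in d + 1 distinct points (parameters τ i o are
affine in o; τ i - τ i' is nonzero at l i), so F o = 0; F times a product of nonzero affine
polynomials vanishes identically (MvPolynomial.funext), so F = 0. Stated for a family of lines and a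
transversal direction; use it for H and for V.
cell_touch: a point x of the closed cell (a, b) with H i x = 0 lies on the segment l i, r i (because
V 0 x ≥ 0 ≥ V last x), so H i' x ≠ 0 for i' ≠ i; hence i = a or a + 1, and a point lies in at most
four closed cells.
box_sides: if F (M, ·) vanished for arbitrarily large M then F would vanish identically
(for fixed t a polynomial in M with infinitely many roots; use d + 1 lines and lines_in, or funext).
crit_point: O = open cell (open, convex, bounded, nonempty), K = closure O ⊆ closed cell, compact.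
If the max or the min of ev F over K is attained in O it is a local extremum, so both derivatives
vanish (IsLocalExtr.hasFDerivAt_eq_zero or along coordinate lines; derivative of ev F is given by
pderiv). Otherwise both lie in frontier O, where ev F ≠ 0 by hb, so max > 0 > min; frontier O is
preconnected (exists_homeomorph_image_interior_closure_frontier_eq_unitBall, isPreconnected_sphere),
IVT gives a zero on frontier O, contradiction.
-/

namespace Pool.Agent.Work.MP_677830_co.G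

open Filter Topology Polynomial Matrix MeasureTheory
open scoped ComplexConjugate ComplexOrder

/-- Evaluation at a point of the plane. -/
noncomputable def ev (F : MvPolynomial (Fin 2) ℝ) (x : ℝ × ℝ) : ℝ := MvPolynomial.eval ![x.1, x.2] F

/-- Open cell. -/
def OC {k : ℕ} (l r dn up : Fin (k + 1) → ℝ × ℝ) (M : ℝ) (a b : Fin k) (x : ℝ × ℝ) : Prop :=
  (∀ i : Fin (k + 1), ((i : ℕ) ≤ (a : ℕ) → 0 < ori (l i) (r i) x) ∧
    ((a : ℕ) < (i : ℕ) → ori (l i) (r i) x < 0)) ∧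
  (∀ j : Fin (k + 1), ((j : ℕ) ≤ (b : ℕ) → 0 < ori (up j) (dn j) x) ∧
    ((b : ℕ) < (j : ℕ) → ori (up j) (dn j) x < 0)) ∧ |x.1| < M ∧ |x.2| < M

/-- Closed cell. -/
def CC {k : ℕ} (l r dn up : Fin (k + 1) → ℝ × ℝ) (M : ℝ) (a b : Fin k) (x : ℝ × ℝ) : Prop :=
  (∀ i : Fin (k + 1), ((i : ℕ) ≤ (a : ℕ) → 0 ≤ ori (l i) (r i) x) ∧
    ((a : ℕ) < (i : ℕ) → ori (l i) (r i) x ≤ 0)) ∧
  (∀ j : Fin (k + 1), ((j : ℕ) ≤ (b : ℕ) → 0 ≤ ori (up j) (dn j) x) ∧
    ((b : ℕ) < (j : ℕ) → ori (up j) (dn j) x ≤ 0)) ∧ |x.1| ≤ M ∧ |x.2| ≤ M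

variable {F : MvPolynomial (Fin 2) ℝ} {d k : ℕ} {l r dn up : Fin (k + 1) → ℝ × ℝ}
  {p : Fin k → Fin k → ℝ × ℝ}

theorem OT1_line (hd : F.totalDegree ≤ d) (a v : ℝ × ℝ) :
    ∃ P : ℝ[X], P.natDegree ≤ d ∧ ∀ τ, P.eval τ = ev F (a + τ • v) := by
  refine ⟨MvPolynomial.aeval ![C v.1 * X + C a.1, C v.2 * X + C a.2] F, ?_, fun τ => ?_⟩
  · refine (MvPolynomial.aeval_natDegree_le F hd _ fun i => ?_).trans (mul_one d).le
    fin_cases i <;> exact natDegree_linear_le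
  · clear hd
    induction F using MvPolynomial.induction_on with
    | C c => simp [ev]
    | add f g hf hg => simp only [ev, map_add, eval_add] at hf hg ⊢; rw [hf, hg]
    | mul_X f i hf =>
      simp only [ev, map_mul, eval_mul, MvPolynomial.aeval_X, MvPolynomial.eval_X] at hf ⊢
      rw [hf]
      refine congrArg _ ?_
      fin_cases i <;> simp <;> ring

theorem OT1_par {a b x : ℝ × ℝ} (hab : a ≠ b) (h : ori a b x = 0) :
    ∃ τ : ℝ, x = a + τ • (b - a) := by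
  unfold ori at h
  by_cases e : b.1 - a.1 = 0
  · have e' : b.2 - a.2 ≠ 0 := fun e' => hab (Prod.ext (by linarith) (by linarith))
    rw [e, zero_mul, zero_sub, neg_eq_zero, mul_eq_zero, or_iff_right e'] at h
    exact ⟨(x.2 - a.2) / (b.2 - a.2), Prod.ext (by simp [e]; linarith) (by simp [e'])⟩
  · refine ⟨(x.1 - a.1) / (b.1 - a.1), Prod.ext (by simp [e]) ?_⟩
    simp only [Prod.snd_add, Prod.smul_snd, Prod.snd_sub, smul_eq_mul]
    field_simp
    linarith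

theorem OT1_aff (c e a v : ℝ × ℝ) (τ : ℝ) :
    ori c e (a + τ • v) = ori c e a + τ * (ori c e (a + v) - ori c e a) := by
  simp [ori]
  ring

theorem OT1_zero (h : ∀ x, ev F x = 0) : F = 0 :=
  MvPolynomial.funext fun x => by
    have e : ![x 0, x 1] = x := funext fun i => by fin_cases i <;> rfl
    simpa only [ev, e, map_zero] using h (x 0, x 1)

/-- The orientation determinant as a polynomial. -/
noncomputable def OT1_H (a b : ℝ × ℝ) : MvPolynomial (Fin 2) ℝ :=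
  MvPolynomial.C (b.1 - a.1) * (MvPolynomial.X 1 - MvPolynomial.C a.2) -
    MvPolynomial.C (b.2 - a.2) * (MvPolynomial.X 0 - MvPolynomial.C a.1)

theorem OT1_Hev (a b x : ℝ × ℝ) : MvPolynomial.eval ![x.1, x.2] (OT1_H a b) = ori a b x := by
  simp [OT1_H, ori]

theorem line_zeros (hd : F.totalDegree ≤ d) {a b : ℝ × ℝ} (hab : a ≠ b) :
    (∀ x, ori a b x = 0 → ev F x = 0) ∨
      ∃ Z : Finset (ℝ × ℝ), Z.card ≤ d ∧ ∀ x, ori a b x = 0 → ev F x = 0 → x ∈ Z := by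
  classical
  obtain ⟨P, hP, e⟩ := OT1_line hd a (b - a)
  by_cases h : P = 0
  · refine .inl fun x hx => ?_
    obtain ⟨τ, rfl⟩ := OT1_par hab hx
    rw [← e, h, eval_zero]
  · refine .inr ⟨P.roots.toFinset.image fun τ => a + τ • (b - a), Finset.card_image_le.trans
      ((Multiset.toFinset_card_le _).trans (P.card_roots'.trans hP)), fun x hx h0 => ?_⟩
    obtain ⟨τ, rfl⟩ := OT1_par hab hx
    exact Finset.mem_image_of_mem _ (Multiset.mem_toFinset.2 ((mem_roots h).2 ((e τ).trans h0)))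

theorem lines_in (hF : F ≠ 0) (hd : F.totalDegree ≤ d) {ι : Type} [DecidableEq ι] (s : Finset ι)
    (a b : ι → ℝ × ℝ) (u u' : ℝ × ℝ) (ht : ∀ i ∈ s, ori (a i) (b i) u ≠ ori (a i) (b i) u')
    (hne : ∀ i ∈ s, ∀ i' ∈ s, i ≠ i' → ori (a i') (b i') (a i) ≠ 0)
    (hz : ∀ i ∈ s, ∀ x, ori (a i) (b i) x = 0 → ev F x = 0) : s.card ≤ d := by
  by_contra hc
  obtain ⟨c, hc'⟩ : ∃ c : ι → ℝ, ∀ i, c i = ori (a i) (b i) u' - ori (a i) (b i) u := ⟨_, fun _ => rfl⟩
  have c0 : ∀ i ∈ s, c i ≠ 0 := fun i hi => hc' i ▸ sub_ne_zero.2 (ht i hi).symm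
  have key : F * ∏ p ∈ s.offDiag, (MvPolynomial.C (c p.2) * OT1_H (a p.1) (b p.1) -
      MvPolynomial.C (c p.1) * OT1_H (a p.2) (b p.2)) = 0 := OT1_zero fun o => by
    rw [ev, map_mul, map_prod, mul_eq_zero, Finset.prod_eq_zero_iff, or_iff_not_imp_right]
    intro hn
    obtain ⟨P, hP, e⟩ := OT1_line hd o (u' - u)
    have h := P.eq_zero_of_natDegree_lt_card_of_eval_eq_zero
      (f := fun i : s => -ori (a i) (b i) o / c i) (fun i j h => by
        by_contra hij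
        refine hn ⟨(i, j), Finset.mem_offDiag.2 ⟨i.2, j.2, fun e => hij (Subtype.ext e)⟩, ?_⟩
        simp only [div_eq_div_iff (c0 _ i.2) (c0 _ j.2)] at h
        simp only [map_sub, map_mul, MvPolynomial.eval_C, OT1_Hev]
        linarith) (fun i => by
        rw [e]
        refine hz i i.2 _ ?_
        have : ori (a i) (b i) (o + (u' - u)) - ori (a i) (b i) o = c i := by
          simp [hc', ori]
          ring
        rw [OT1_aff, this, div_mul_cancel₀ _ (c0 _ i.2), add_neg_cancel])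
      (by rw [Fintype.card_coe]; omega)
    simpa only [h, eval_zero, zero_smul, add_zero, ev, eq_comm] using e 0
  obtain ⟨⟨i, j⟩, h1, h2⟩ := Finset.prod_eq_zero_iff.1 ((mul_eq_zero.1 key).resolve_left hF)
  obtain ⟨hi, hj, hij⟩ := Finset.mem_offDiag.1 h1
  have h3 := congrArg (MvPolynomial.eval ![(a i).1, (a i).2]) h2
  have h4 : ori (a i) (b i) (a i) = 0 := by simp [ori]
  simp only [map_sub, map_mul, MvPolynomial.eval_C, OT1_Hev, h4, mul_zero, zero_sub, map_zero,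
    neg_eq_zero, mul_eq_zero] at h3
  exact h3.elim (c0 i hi) (hne i hi j hj hij)

theorem OT1_ev (a v : ℝ × ℝ) (τ : ℝ) (h : ev F (a + τ • v) ≠ 0) :
    ∀ᶠ τ : ℝ in atTop, ev F (a + τ • v) ≠ 0 := by
  obtain ⟨P, -, e⟩ := OT1_line (le_refl F.totalDegree) a v
  filter_upwards [P.eventually_atTop_not_isRoot fun h0 => h (by rw [← e, h0, eval_zero])] with t ht
  rwa [← e]

theorem box_sides (hF : F ≠ 0) : ∀ᶠ M : ℝ in atTop, (∃ t, ev F (M, t) ≠ 0) ∧
    (∃ t, ev F (-M, t) ≠ 0) ∧ (∃ t, ev F (t, M) ≠ 0) ∧ ∃ t, ev F (t, -M) ≠ 0 := by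
  obtain ⟨⟨x, y⟩, ho⟩ := not_forall.1 fun h => hF (OT1_zero h)
  filter_upwards [OT1_ev (F := F) (0, y) (1, 0) x (by simpa using ho),
    OT1_ev (F := F) (0, y) (-1, 0) (-x) (by simpa using ho),
    OT1_ev (F := F) (x, 0) (0, 1) y (by simpa using ho),
    OT1_ev (F := F) (x, 0) (0, -1) (-y) (by simpa using ho)] with M h1 h2 h3 h4
  exact ⟨⟨y, by simpa using h1⟩, ⟨y, by simpa using h2⟩, ⟨x, by simpa using h3⟩,
    x, by simpa using h4⟩

theorem OT1_seg {P Q x c e c' e' : ℝ × ℝ} (h : ori P Q x = 0) (h1 : ori c e P < 0)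
    (h2 : 0 < ori c e Q) (h3 : 0 ≤ ori c e x) (h4 : ori c' e' P < 0) (h5 : 0 < ori c' e' Q)
    (h6 : ori c' e' x ≤ 0) (f g : ℝ × ℝ) : (0 < ori f g P → 0 < ori f g Q → 0 < ori f g x) ∧
      (ori f g P < 0 → ori f g Q < 0 → ori f g x < 0) := by
  obtain ⟨τ, rfl⟩ := OT1_par (fun e : P = Q => h1.not_gt (e ▸ h2)) h
  simp only [OT1_aff, add_sub_cancel] at h3 h6 ⊢
  have t0 : 0 < τ := by nlinarith
  have t1 : τ < 1 := by nlinarith
  exact ⟨fun _ _ => by nlinarith, fun _ _ => by nlinarith⟩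

theorem OT1_row {s : Fin (k + 1) → ℝ}
    (h : ∀ i, s i = 0 → ∀ j, (j < i → 0 < s j) ∧ (i < j → s j < 0)) {a : Fin k}
    (ha : ∀ i : Fin (k + 1), ((i : ℕ) ≤ a → 0 ≤ s i) ∧ ((a : ℕ) < i → s i ≤ 0)) (i : Fin (k + 1))
    (hi : s i = 0) : (i : ℕ) = a ∨ (i : ℕ) = a + 1 := by
  have h1 : ¬(i : ℕ) < a := fun e => ((h i hi a.castSucc).2 e).not_ge ((ha _).1 le_rfl)
  have h2 : ¬(a : ℕ) + 1 < i := fun e => ((h i hi a.succ).1 e).not_ge ((ha _).2 (lt_add_one _))
  omega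

theorem OT1_two {s : Fin (k + 1) → ℝ}
    (h : ∀ i, s i = 0 → ∀ j, (j < i → 0 < s j) ∧ (i < j → s j < 0)) {a b : Fin k}
    (ha : ∀ i : Fin (k + 1), ((i : ℕ) ≤ a → 0 ≤ s i) ∧ ((a : ℕ) < i → s i ≤ 0))
    (hb : ∀ i : Fin (k + 1), ((i : ℕ) ≤ b → 0 ≤ s i) ∧ ((b : ℕ) < i → s i ≤ 0)) :
    (b : ℕ) ≤ a + 1 := by
  by_contra e
  have := OT1_row h hb a.succ (((ha _).2 (lt_add_one _)).antisymm ((hb _).1 (not_le.1 e).le))
  simp only [Fin.val_succ] at this
  omega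

theorem cell_touch (hG : Grid k l r dn up p) {M : ℝ} {a b : Fin k} {x : ℝ × ℝ}
    (hx : CC l r dn up M a b x) :
    (∀ i : Fin (k + 1), ori (l i) (r i) x = 0 → (i : ℕ) = a ∨ (i : ℕ) = a + 1) ∧
    (∀ j : Fin (k + 1), ori (up j) (dn j) x = 0 → (j : ℕ) = b ∨ (j : ℕ) = b + 1) ∧
    ∀ a' b', CC l r dn up M a' b' x →
      ((a' : ℕ) ≤ a + 1 ∧ (a : ℕ) ≤ a' + 1) ∧ (b' : ℕ) ≤ b + 1 ∧ (b : ℕ) ≤ b' + 1 := by
  obtain ⟨-, -, g1, g2, g3⟩ := hG
  have H : ∀ i, ori (l i) (r i) x = 0 → ∀ j, (j < i → 0 < ori (l j) (r j) x) ∧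
      (i < j → ori (l j) (r j) x < 0) := fun i hi j => by
    have := OT1_seg hi (g3 i 0).1 (g3 i 0).2.1 ((hx.2.1 0).1 (Nat.zero_le _)) (g3 i (.last k)).1
      (g3 i (.last k)).2.1 ((hx.2.1 (.last k)).2 b.2) (l j) (r j)
    exact ⟨fun e => this.1 (g1 j i e).1 (g1 j i e).2.1,
      fun e => this.2 (g1 i j e).2.2.1 (g1 i j e).2.2.2⟩
  have V : ∀ i, ori (up i) (dn i) x = 0 → ∀ j, (j < i → 0 < ori (up j) (dn j) x) ∧
      (i < j → ori (up j) (dn j) x < 0) := fun i hi j => by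
    have := OT1_seg (P := dn i) (Q := up i) (by unfold ori at hi ⊢; linarith) (g3 0 i).2.2.1
      (g3 0 i).2.2.2 ((hx.1 0).1 (Nat.zero_le _)) (g3 (.last k) i).2.2.1 (g3 (.last k) i).2.2.2
      ((hx.1 (.last k)).2 a.2) (up j) (dn j)
    exact ⟨fun e => this.1 (g2 j i e).2.1 (g2 j i e).1,
      fun e => this.2 (g2 i j e).2.2.2 (g2 i j e).2.2.1⟩
  exact ⟨OT1_row H hx.1, OT1_row V hx.2.1, fun a' b' h => ⟨⟨OT1_two H hx.1 h.1, OT1_two H h.1 hx.1⟩,
    OT1_two V hx.2.1 h.2.1, OT1_two V h.2.1 hx.2.1⟩⟩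

theorem OT1_der (F : MvPolynomial (Fin 2) ℝ) (y v : ℝ × ℝ) :
    HasDerivAt (fun τ : ℝ => ev F (y + τ • v))
      (v.1 * ev (MvPolynomial.pderiv 0 F) y + v.2 * ev (MvPolynomial.pderiv 1 F) y) 0 := by
  induction F using MvPolynomial.induction_on with
  | C c => simpa [ev] using hasDerivAt_const (0 : ℝ) c
  | add f g hf hg =>
    simp only [ev, map_add] at hf hg ⊢
    exact (hf.fun_add hg).congr_deriv (by ring)
  | mul_X f i hf =>
    have k : ∀ a b : ℝ, HasDerivAt (fun τ : ℝ => a + τ * b) b 0 := fun a b =>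
      (hasDerivAt_mul_const b).const_add a
    simp only [ev, map_mul, MvPolynomial.eval_X] at hf ⊢
    fin_cases i
    · exact (hf.fun_mul (k y.1 v.1)).congr_deriv (by simp; ring)
    · exact (hf.fun_mul (k y.2 v.2)).congr_deriv (by simp; ring)

theorem OT1_ext {y : ℝ × ℝ} (h : IsLocalExtr (ev F) y) (i : Fin 2) :
    ev (MvPolynomial.pderiv i F) y = 0 := by
  have k := fun v : ℝ × ℝ => IsLocalExtr.hasDerivAt_eq_zero (IsLocalExtr.comp_continuous
    (f := ev F) (g := fun τ : ℝ => y + τ • v) (b := 0) (by simpa using h) (by fun_prop))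
    (OT1_der F y v)
  fin_cases i
  · simpa using k (1, 0)
  · simpa using k (0, 1)

theorem OT1_comb (c e x y : ℝ × ℝ) {a b : ℝ} (h : a + b = 1) :
    ori c e (a • x + b • y) = a • ori c e x + b • ori c e y := by
  obtain rfl : b = 1 - a := by linarith
  simp [ori]
  ring

theorem crit_point {M : ℝ} {a b : Fin k} {x : ℝ × ℝ} (hx : OC l r dn up M a b x)
    (h0 : ev F x = 0) (hb : ∀ y, CC l r dn up M a b y → ev F y = 0 → OC l r dn up M a b y) :
    ∃ y, OC l r dn up M a b y ∧ ∀ i, ev (MvPolynomial.pderiv i F) y = 0 := by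
  obtain ⟨O, hO⟩ : ∃ O, O = {y | OC l r dn up M a b y} := ⟨_, rfl⟩
  have co : ∀ c e, Continuous (ori c e) := fun c e => by unfold ori; fun_prop
  have cF : Continuous (ev F) := (MvPolynomial.continuous_eval F).comp (by fun_prop)
  have cv : Convex ℝ O := hO ▸ fun x hx y hy s t hs ht h => by
    refine ⟨fun i => ?_, fun i => ?_,
      abs_lt.2 (convex_Ioo _ _ (abs_lt.1 hx.2.2.1) (abs_lt.1 hy.2.2.1) hs ht h),
      abs_lt.2 (convex_Ioo _ _ (abs_lt.1 hx.2.2.2) (abs_lt.1 hy.2.2.2) hs ht h)⟩ <;>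
      rw [OT1_comb _ _ _ _ h]
    · exact ⟨fun e => convex_Ioi (0 : ℝ) ((hx.1 i).1 e) ((hy.1 i).1 e) hs ht h,
        fun e => convex_Iio (0 : ℝ) ((hx.1 i).2 e) ((hy.1 i).2 e) hs ht h⟩
    · exact ⟨fun e => convex_Ioi (0 : ℝ) ((hx.2.1 i).1 e) ((hy.2.1 i).1 e) hs ht h,
        fun e => convex_Iio (0 : ℝ) ((hx.2.1 i).2 e) ((hy.2.1 i).2 e) hs ht h⟩
  have op : IsOpen O := by
    simp only [hO, OC, Set.ofPred_and, Set.ofPred_forall]
    refine (isOpen_iInter_of_finite fun i => (isOpen_iInter_of_finite fun _ => ?_).inter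
      (isOpen_iInter_of_finite fun _ => ?_)).inter ((isOpen_iInter_of_finite fun i =>
      (isOpen_iInter_of_finite fun _ => ?_).inter (isOpen_iInter_of_finite fun _ => ?_)).inter
      (.inter ?_ ?_)) <;> exact isOpen_lt (by fun_prop) (by fun_prop)
  have cl : IsClosed {y | CC l r dn up M a b y} := by
    simp only [CC, Set.ofPred_and, Set.ofPred_forall]
    refine (isClosed_iInter fun i => (isClosed_iInter fun _ => ?_).inter
      (isClosed_iInter fun _ => ?_)).inter ((isClosed_iInter fun i =>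
      (isClosed_iInter fun _ => ?_).inter (isClosed_iInter fun _ => ?_)).inter
      (.inter ?_ ?_)) <;> exact isClosed_le (by fun_prop) (by fun_prop)
  have sub : closure O ⊆ {y | CC l r dn up M a b y} := closure_minimal (hO ▸ fun y hy =>
    ⟨fun i => ⟨fun e => ((hy.1 i).1 e).le, fun e => ((hy.1 i).2 e).le⟩,
      fun i => ⟨fun e => ((hy.2.1 i).1 e).le, fun e => ((hy.2.1 i).2 e).le⟩,
      hy.2.2.1.le, hy.2.2.2.le⟩) cl
  have bd : Bornology.IsBounded O := (Metric.isBounded_ball (x := 0) (r := M)).subset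
    (hO ▸ fun y hy => mem_ball_zero_iff.2 (max_lt hy.2.2.1 hy.2.2.2))
  have xO : x ∈ O := hO ▸ hx
  have xK := subset_closure xO
  obtain ⟨h, -, -, hh⟩ := exists_homeomorph_image_interior_closure_frontier_eq_unitBall cv
    ⟨x, op.interior_eq.symm ▸ xO⟩ bd
  have pc : IsPreconnected (frontier O) := h.isPreconnected_image.1 (hh ▸ isPreconnected_sphere
    (by rw [← Module.finrank_eq_rank]; simp) _ _)
  obtain ⟨y, yK, hy⟩ := bd.isCompact_closure.exists_isMaxOn ⟨x, xK⟩ cF.continuousOn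
  obtain ⟨z, zK, hz⟩ := bd.isCompact_closure.exists_isMinOn ⟨x, xK⟩ cF.continuousOn
  have nb : ∀ w ∈ O, closure O ∈ 𝓝 w := fun w hw => mem_of_superset (op.mem_nhds hw) subset_closure
  by_cases yO : y ∈ O
  · exact ⟨y, (hO ▸ yO :), OT1_ext (.inr (hy.isLocalMax (nb y yO)))⟩
  by_cases zO : z ∈ O
  · exact ⟨z, (hO ▸ zO :), OT1_ext (.inl (hz.isLocalMin (nb z zO)))⟩
  rw [op.frontier_eq] at pc
  obtain ⟨w, hw, w0⟩ := pc.intermediate_value ⟨zK, zO⟩ ⟨yK, yO⟩ cF.continuousOn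
    ⟨hz xK, hy xK⟩
  exact (hw.2 (hO ▸ hb w (sub hw.1) (w0.trans h0))).elim

end Pool.Agent.Work.MP_677830_co.G
end

-- merged part: Pool.Agent.Work.MP_677830_co.G.OT2
section
/-!
# The grid count and the order type
bdry_count: a boundary zero y of cell (a,b) lies on a grid line or a box side; lines_in bounds the
contained lines (transversal points dn 0, up 0 for H; l 0, r 0 for V), each touches at most 2k cells
(cell_touch); on the other lines at most d zeros each (line_zeros, box_sides; a side is ori (M,0) (M,1)),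
and a point lies in at most 9 closed cells (cell_touch; in fact 4).
grid_count: induction on d with crit_point. exists_type: k = 22 d^2 + 3; standard positions
l i = (-1, i), r i = (k+1, i), dn j = (j, -1), up j = (j, k+1), p a b = (b + 1/2, a + 1/2); index type
κ = Fin (k+1) × Fin 4 ⊕ Fin k × Fin k, m = card κ, perturb point number n by ε (n, n^2): ori is a polynomial
in ε with leading coefficient a Vandermonde product, so nonzero for ε small, ε ≠ 0; the strict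
inequalities of Grid persist for small ε. Grid only depends on signs of ori. Injectivity of P: m ≥ 3.
-/

namespace Pool.Agent.Work.MP_677830_co.G

open Filter Topology Polynomial Matrix MeasureTheory
open scoped ComplexConjugate ComplexOrder

variable {F : MvPolynomial (Fin 2) ℝ} {d k : ℕ} {l r dn up : Fin (k + 1) → ℝ × ℝ}
  {p : Fin k → Fin k → ℝ × ℝ}

theorem OT2_zs (hd : F.totalDegree ≤ d) {a b : ℝ × ℝ} (hab : a ≠ b) :
    ∃ Z : Finset (ℝ × ℝ), Z.card ≤ d ∧ ((¬ ∀ x, ori a b x = 0 → ev F x = 0) →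
      ∀ x, ori a b x = 0 → ev F x = 0 → x ∈ Z) := by
  rcases line_zeros hd hab with h | ⟨Z, h1, h2⟩
  · exact ⟨∅, Nat.zero_le _, fun h' => (h' h).elim⟩
  · exact ⟨Z, h1, fun _ => h2⟩

theorem OT2_v (hd : F.totalDegree ≤ d) {c : ℝ} (h : ∃ t, ev F (c, t) ≠ 0) :
    ∃ Z : Finset (ℝ × ℝ), Z.card ≤ d ∧ ∀ x : ℝ × ℝ, x.1 = c → ev F x = 0 → x ∈ Z := by
  obtain ⟨Z, h1, h2⟩ := OT2_zs hd (a := (c, 0)) (b := (c, 1)) (by simp)
  obtain ⟨t, ht⟩ := h
  exact ⟨Z, h1, fun x hx => h2 (fun h' => ht (h' _ (by simp [ori]))) x (by simp [ori, hx])⟩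

theorem OT2_h (hd : F.totalDegree ≤ d) {c : ℝ} (h : ∃ t, ev F (t, c) ≠ 0) :
    ∃ Z : Finset (ℝ × ℝ), Z.card ≤ d ∧ ∀ x : ℝ × ℝ, x.2 = c → ev F x = 0 → x ∈ Z := by
  obtain ⟨Z, h1, h2⟩ := OT2_zs hd (a := (0, c)) (b := (1, c)) (by simp)
  obtain ⟨t, ht⟩ := h
  exact ⟨Z, h1, fun x hx => h2 (fun h' => ht (h' _ (by simp [ori]))) x (by simp [ori, hx])⟩

theorem OT2_card (k lo hi : ℕ) (P : Fin k → Prop) [DecidablePred P]
    (h : ∀ a, P a → lo ≤ a ∧ (a : ℕ) ≤ hi) : (Finset.univ.filter P).card ≤ hi + 1 - lo := by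
  rw [← Nat.card_Icc]
  exact Finset.card_le_card_of_injOn Fin.val
    (fun a ha => Finset.mem_coe.2 (Finset.mem_Icc.2 (h a (Finset.mem_filter.1 ha).2)))
    Fin.val_injective.injOn

theorem OT2_two (k i : ℕ) :
    (Finset.univ.filter fun a : Fin k => i = a ∨ i = a + 1).card ≤ 2 :=
  (OT2_card k (i - 1) i _ fun a h => by omega).trans (by omega)

theorem OT2_ne {a b c : ℝ × ℝ} (h : ori a b c ≠ 0) : a ≠ b := by
  rintro rfl
  exact h (by simp [ori])

open Classical in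
theorem OT2_nine (hG : Grid k l r dn up p) (M : ℝ) (y : ℝ × ℝ) :
    (Finset.univ.filter fun ab : Fin k × Fin k => CC l r dn up M ab.1 ab.2 y).card ≤ 9 := by
  rcases (Finset.univ.filter fun ab : Fin k × Fin k =>
    CC l r dn up M ab.1 ab.2 y).eq_empty_or_nonempty with h | ⟨⟨a, b⟩, h⟩
  · simp [h]
  have h1 := (cell_touch hG (Finset.mem_filter.1 h).2).2.2
  have h2 : ∀ a : Fin k, (Finset.univ.filter fun a' : Fin k =>
      (a' : ℕ) ≤ a + 1 ∧ (a : ℕ) ≤ a' + 1).card ≤ 3 := fun a =>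
    (OT2_card k (a - 1) (a + 1) _ fun a h => by omega).trans (by omega)
  refine (Finset.card_le_card fun x hx => ?_).trans
    ((Finset.card_product _ _).trans_le (Nat.mul_le_mul (h2 a) (h2 b)))
  have := h1 _ _ (Finset.mem_filter.1 hx).2
  simp only [Finset.mem_product, Finset.mem_filter, Finset.mem_univ, true_and]
  exact this

theorem OT2_bd {M : ℝ} {a b : Fin k} {y : ℝ × ℝ} (h : CC l r dn up M a b y)
    (h' : ¬ OC l r dn up M a b y) : (∃ i, ori (l i) (r i) y = 0) ∨ (∃ j, ori (up j) (dn j) y = 0) ∨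
      y.1 = M ∨ y.1 = -M ∨ y.2 = M ∨ y.2 = -M := by
  by_contra hc
  simp only [not_or, not_exists] at hc
  obtain ⟨h1, h2, h3, h4, h5, h6⟩ := hc
  obtain ⟨g1, g2, g3, g4⟩ := h
  rw [abs_le] at g3 g4
  exact h' ⟨fun i => ⟨fun e => ((g1 i).1 e).lt_of_ne' (h1 i), fun e => ((g1 i).2 e).lt_of_ne (h1 i)⟩,
    fun i => ⟨fun e => ((g2 i).1 e).lt_of_ne' (h2 i), fun e => ((g2 i).2 e).lt_of_ne (h2 i)⟩,
    abs_lt.2 ⟨g3.1.lt_of_ne' h4, g3.2.lt_of_ne h3⟩, abs_lt.2 ⟨g4.1.lt_of_ne' h6, g4.2.lt_of_ne h5⟩⟩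

open Classical in
theorem bdry_count (hG : Grid k l r dn up p) (hF : F ≠ 0) (hd : F.totalDegree ≤ d) :
    ∀ᶠ M : ℝ in atTop, (Finset.univ.filter fun ab : Fin k × Fin k => ∃ y,
      CC l r dn up M ab.1 ab.2 y ∧ ev F y = 0 ∧ ¬ OC l r dn up M ab.1 ab.2 y).card ≤
        d * (22 * k + 54) := by
  filter_upwards [box_sides hF] with M ⟨b1, b2, b3, b4⟩
  obtain ⟨-, -, g3, g4, g5⟩ := id hG
  choose ZH hH hH' using fun i => OT2_zs hd (OT2_ne (g5 i 0).2.2.1.ne)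
  choose ZV hV hV' using fun j => OT2_zs hd (OT2_ne (g5 0 j).1.ne)
  obtain ⟨Z1, c1, z1⟩ := OT2_v hd b1
  obtain ⟨Z2, c2, z2⟩ := OT2_v hd b2
  obtain ⟨Z3, c3, z3⟩ := OT2_h hd b3
  obtain ⟨Z4, c4, z4⟩ := OT2_h hd b4
  have sH := lines_in hF hd (Finset.univ.filter fun i => ∀ x, ori (l i) (r i) x = 0 → ev F x = 0)
    l r (dn 0) (up 0) (fun i _ => ((g5 i 0).2.2.1.trans (g5 i 0).2.2.2).ne)
    (fun i _ i' _ h => h.lt_or_gt.elim (fun e => (g3 _ _ e).2.2.1.ne) fun e => (g3 _ _ e).1.ne')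
    fun i hi => (Finset.mem_filter.1 hi).2
  have sV := lines_in hF hd (Finset.univ.filter fun j => ∀ x, ori (up j) (dn j) x = 0 → ev F x = 0)
    up dn (l 0) (r 0) (fun j _ => ((g5 0 j).1.trans (g5 0 j).2.1).ne)
    (fun i _ i' _ h => h.lt_or_gt.elim (fun e => (g4 _ _ e).2.2.1.ne) fun e => (g4 _ _ e).1.ne')
    fun i hi => (Finset.mem_filter.1 hi).2
  have cH := Finset.card_biUnion_le_card_mul Finset.univ ZH d fun i _ => hH i
  have cV := Finset.card_biUnion_le_card_mul Finset.univ ZV d fun i _ => hV i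
  rw [Finset.card_univ, Fintype.card_fin] at cH cV
  have cZ : (Finset.univ.biUnion ZH ∪ Finset.univ.biUnion ZV ∪ (Z1 ∪ Z2 ∪ (Z3 ∪ Z4))).card ≤
      (k + 1) * d + (k + 1) * d + (d + d + (d + d)) :=
    (Finset.card_union_le _ _).trans (add_le_add ((Finset.card_union_le _ _).trans
      (add_le_add cH cV)) ((Finset.card_union_le _ _).trans (add_le_add
        ((Finset.card_union_le _ _).trans (add_le_add c1 c2))
        ((Finset.card_union_le _ _).trans (add_le_add c3 c4)))))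
  have A1 := (Finset.card_biUnion_le_card_mul _ (fun i : Fin (k + 1) => (Finset.univ.filter
    fun a : Fin k => (i : ℕ) = a ∨ (i : ℕ) = a + 1) ×ˢ (Finset.univ : Finset (Fin k))) (2 * k)
    fun i _ => by
      rw [Finset.card_product, Finset.card_univ, Fintype.card_fin]
      exact Nat.mul_le_mul_right _ (OT2_two k i)).trans (Nat.mul_le_mul_right _ sH)
  have A2 := (Finset.card_biUnion_le_card_mul _ (fun i : Fin (k + 1) =>
    (Finset.univ : Finset (Fin k)) ×ˢ (Finset.univ.filter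
    fun a : Fin k => (i : ℕ) = a ∨ (i : ℕ) = a + 1)) (2 * k)
    fun i _ => by
      rw [Finset.card_product, Finset.card_univ, Fintype.card_fin, mul_comm]
      exact Nat.mul_le_mul_right _ (OT2_two k i)).trans (Nat.mul_le_mul_right _ sV)
  have A3 := (Finset.card_biUnion_le_card_mul _ (fun y => Finset.univ.filter
    fun ab : Fin k × Fin k => CC l r dn up M ab.1 ab.2 y) 9 fun y _ => OT2_nine hG M y).trans
    (Nat.mul_le_mul_right _ cZ)
  refine (Finset.card_le_card fun ab hab => ?_).trans (((Finset.card_union_le _ _).trans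
    (add_le_add ((Finset.card_union_le _ _).trans (add_le_add A1 A2)) A3)).trans_eq (by ring))
  obtain ⟨y, h1, h2, h3⟩ := (Finset.mem_filter.1 hab).2
  have ht := cell_touch hG h1
  simp only [Finset.mem_union, Finset.mem_biUnion, Finset.mem_filter, Finset.mem_univ, true_and,
    Finset.mem_product, and_true]
  rcases OT2_bd h1 h3 with ⟨i, h⟩ | ⟨i, h⟩ | h | h | h | h
  · by_cases e : ∀ x, ori (l i) (r i) x = 0 → ev F x = 0
    · exact .inl (.inl ⟨i, e, ht.1 i h⟩)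
    · exact .inr ⟨y, .inl (.inl ⟨i, hH' i e y h h2⟩), h1⟩
  · by_cases e : ∀ x, ori (up i) (dn i) x = 0 → ev F x = 0
    · exact .inl (.inr ⟨i, e, ht.2.1 i h⟩)
    · exact .inr ⟨y, .inl (.inr ⟨i, hV' i e y h h2⟩), h1⟩
  · exact .inr ⟨y, .inr (.inl (.inl (z1 y h h2))), h1⟩
  · exact .inr ⟨y, .inr (.inl (.inr (z2 y h h2))), h1⟩
  · exact .inr ⟨y, .inr (.inr (.inl (z3 y h h2))), h1⟩
  · exact .inr ⟨y, .inr (.inr (.inr (z4 y h h2))), h1⟩

theorem OT2_deg (hd : F.totalDegree ≤ d + 1) (i : Fin 2) :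
    (MvPolynomial.pderiv i F).totalDegree ≤ d := by
  refine Finset.sup_le fun s hs => ?_
  rw [MvPolynomial.mem_support_iff, MvPolynomial.coeff_pderiv] at hs
  have := (MvPolynomial.le_totalDegree
    (MvPolynomial.mem_support_iff.2 (left_ne_zero_of_mul hs))).trans hd
  rw [Finsupp.sum_add_index' (fun _ => rfl) (fun _ _ _ => rfl), Finsupp.sum_single_index rfl] at this
  omega

theorem OT2_const (h : ∀ i, MvPolynomial.pderiv i F = 0) : F.totalDegree ≤ 0 := by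
  rw [Nat.le_zero, MvPolynomial.totalDegree_eq_zero_iff]
  intro s hs i
  by_contra h0
  have := MvPolynomial.coeff_pderiv (i := i) F (s - Finsupp.single i 1)
  rw [h, tsub_add_cancel_of_le (Finsupp.single_le_iff.2 (Nat.one_le_iff_ne_zero.2 h0))] at this
  exact mul_ne_zero (MvPolynomial.mem_support_iff.1 hs) (by positivity) this.symm

theorem OT2_zero (hF : F ≠ 0) (hd : F.totalDegree ≤ 0) (y : ℝ × ℝ) : ev F y ≠ 0 := by
  rw [Nat.le_zero, MvPolynomial.totalDegree_eq_zero_iff_eq_C] at hd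
  rw [hd] at hF ⊢
  simpa [ev] using hF

open Classical in
theorem grid_count (hG : Grid k l r dn up p) (hF : F ≠ 0) (hd : F.totalDegree ≤ d) :
    ∀ᶠ M : ℝ in atTop, (Finset.univ.filter fun ab : Fin k × Fin k => ∃ y,
      OC l r dn up M ab.1 ab.2 y ∧ ev F y = 0).card ≤ d * d * (22 * k + 54) := by
  induction d generalizing F with
  | zero => exact .of_forall fun M => by simp [OT2_zero hF hd]
  | succ d ih =>
    by_cases h : ∀ i, MvPolynomial.pderiv i F = 0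
    · exact .of_forall fun M => by simp [OT2_zero hF (OT2_const h)]
    obtain ⟨i, hi⟩ := not_forall.1 h
    filter_upwards [ih hi (OT2_deg hd i), bdry_count hG hF hd] with M h1 h2
    refine (Finset.card_le_card fun ab hab => ?_).trans (((Finset.card_union_le _ _).trans
      (add_le_add h1 h2)).trans (by nlinarith))
    obtain ⟨y, e1, e2⟩ := (Finset.mem_filter.1 hab).2
    simp only [Finset.mem_union, Finset.mem_filter, Finset.mem_univ, true_and]
    by_cases e : ∀ y, CC l r dn up M ab.1 ab.2 y → ev F y = 0 → OC l r dn up M ab.1 ab.2 y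
    · exact .inl ((crit_point e1 e2 e).imp fun z hz => ⟨hz.1, hz.2 i⟩)
    · refine .inr ?_
      by_contra hc
      exact e fun y y1 y2 => not_not.1 fun y3 => hc ⟨y, y1, y2, y3⟩

theorem grid_main (hG : Grid k l r dn up p) (hk : k = 22 * d ^ 2 + 3) (hF : F ≠ 0)
    (hd : F.totalDegree ≤ d) : ∃ a b, ev F (p a b) ≠ 0 := by
  classical
  by_contra hc
  simp only [not_exists, not_not] at hc
  have h1 : ∀ᶠ M : ℝ in atTop, ∀ ab : Fin k × Fin k,
      |(p ab.1 ab.2).1| < M ∧ |(p ab.1 ab.2).2| < M :=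
    eventually_all.2 fun ab => (eventually_gt_atTop _).and (eventually_gt_atTop _)
  obtain ⟨M, h2, h3⟩ := ((grid_count hG hF hd).and h1).exists
  rw [Finset.filter_true_of_mem fun ab _ => ⟨p ab.1 ab.2,
    ⟨fun i => hG.1 i _ _, fun j => hG.2.1 j _ _, h3 ab⟩, hc _ _⟩, Finset.card_univ,
    Fintype.card_prod, Fintype.card_fin] at h2
  nlinarith

theorem OT2_tr {κ : Type} {Q P : κ → ℝ × ℝ}
    (h : ∀ {a b c}, 0 < ori (Q a) (Q b) (Q c) → 0 < ori (P a) (P b) (P c))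
    (h' : ∀ {a b c}, ori (Q a) (Q b) (Q c) < 0 → ori (P a) (P b) (P c) < 0)
    (l r dn up : Fin (k + 1) → κ) (p : Fin k → Fin k → κ)
    (hG : Grid k (fun i => Q (l i)) (fun i => Q (r i)) (fun i => Q (dn i)) (fun i => Q (up i))
      fun a b => Q (p a b)) :
    Grid k (fun i => P (l i)) (fun i => P (r i)) (fun i => P (dn i)) (fun i => P (up i))
      fun a b => P (p a b) := by
  obtain ⟨g1, g2, g3, g4, g5⟩ := hG
  exact ⟨fun i a b => ⟨fun e => h ((g1 i a b).1 e), fun e => h' ((g1 i a b).2 e)⟩,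
    fun i a b => ⟨fun e => h ((g2 i a b).1 e), fun e => h' ((g2 i a b).2 e)⟩,
    fun i j e => ⟨h (g3 i j e).1, h (g3 i j e).2.1, h' (g3 i j e).2.2.1, h' (g3 i j e).2.2.2⟩,
    fun i j e => ⟨h (g4 i j e).1, h (g4 i j e).2.1, h' (g4 i j e).2.2.1, h' (g4 i j e).2.2.2⟩,
    fun i j => ⟨h' (g5 i j).1, h (g5 i j).2.1, h' (g5 i j).2.2.1, h (g5 i j).2.2.2⟩⟩

theorem OT2_std (k : ℕ) : Grid k (fun i => (-1, (i : ℕ))) (fun i => (k + 1, (i : ℕ)))
    (fun i => ((i : ℕ), -1)) (fun i => ((i : ℕ), k + 1))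
    fun a b => ((b : ℕ) + 1 / 2, (a : ℕ) + 1 / 2) := by
  have hk : (0 : ℝ) < k + 2 := by positivity
  have eH : ∀ (t : ℝ) (x : ℝ × ℝ), ori (-1, t) (k + 1, t) x = (k + 2) * (x.2 - t) := fun t x => by
    simp only [ori]
    ring
  have eV : ∀ (t : ℝ) (x : ℝ × ℝ), ori (t, k + 1) (t, -1) x = (k + 2) * (x.1 - t) := fun t x => by
    simp only [ori]
    ring
  have a1 : ∀ {i a : ℕ}, i ≤ a → 0 < (k + 2 : ℝ) * (a + 1 / 2 - i) := fun {i a} e => by
    have : (i : ℝ) ≤ a := Nat.cast_le.2 e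
    exact mul_pos hk (by linarith)
  have a2 : ∀ {i a : ℕ}, a < i → (k + 2 : ℝ) * (a + 1 / 2 - i) < 0 := fun {i a} e => by
    have : (a : ℝ) + 1 ≤ i := by exact_mod_cast e
    exact mul_neg_of_pos_of_neg hk (by linarith)
  have a3 : ∀ {i j : Fin (k + 1)}, i < j → 0 < (k + 2 : ℝ) * (((j : ℕ) : ℝ) - (i : ℕ)) :=
    fun e => mul_pos hk (sub_pos.2 (Nat.cast_lt.2 e))
  have a4 : ∀ {i j : Fin (k + 1)}, i < j → (k + 2 : ℝ) * (((i : ℕ) : ℝ) - (j : ℕ)) < 0 :=
    fun e => mul_neg_of_pos_of_neg hk (sub_neg.2 (Nat.cast_lt.2 e))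
  have a5 : ∀ i : ℕ, (k + 2 : ℝ) * (-1 - i) < 0 := fun i =>
    mul_neg_of_pos_of_neg hk (by linarith [Nat.cast_nonneg (α := ℝ) i])
  have a6 : ∀ i : Fin (k + 1), 0 < (k + 2 : ℝ) * (k + 1 - (i : ℕ)) := fun i =>
    mul_pos hk (sub_pos.2 (by exact_mod_cast i.2))
  simp only [Grid, eH, eV]
  exact ⟨fun i a b => ⟨a1, a2⟩, fun i a b => ⟨a1, a2⟩, fun i j e => ⟨a3 e, a3 e, a4 e, a4 e⟩,
    fun i j e => ⟨a3 e, a3 e, a4 e, a4 e⟩, fun i j => ⟨a5 _, a6 _, a5 _, a6 _⟩⟩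

theorem OT2_quad (α β : ℝ) {γ : ℝ} (h : γ ≠ 0) :
    ∀ᶠ ε : ℝ in 𝓝[≠] 0, γ * ε ^ 2 + β * ε + α ≠ 0 := by
  have h1 : (C γ * X ^ 2 + C β * X + C α : ℝ[X]) ≠ 0 := fun e => h (by
    simpa using congrArg (fun P : ℝ[X] => P.coeff 2) e)
  refine nhdsNE_le_cofinite _ (mem_cofinite.2 ((Polynomial.finite_setOfPred_isRoot h1).subset ?_))
  intro x hx
  simpa using hx

/-- A perturbation into general position. -/
theorem OT2_pert {m : ℕ} (Q : Fin m → ℝ × ℝ) : ∃ S : Fin m → ℝ × ℝ,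
    (∀ a b c, a ≠ b → b ≠ c → a ≠ c → ori (S a) (S b) (S c) ≠ 0) ∧
    ∀ a b c, (0 < ori (Q a) (Q b) (Q c) → 0 < ori (S a) (S b) (S c)) ∧
      (ori (Q a) (Q b) (Q c) < 0 → ori (S a) (S b) (S c) < 0) := by
  let S : ℝ → Fin m → ℝ × ℝ := fun ε n => ((Q n).1 + ε * (n : ℕ), (Q n).2 + ε * (n : ℕ) ^ 2)
  have h1 : ∀ᶠ ε : ℝ in 𝓝[≠] 0, ∀ a b c, a ≠ b → b ≠ c → a ≠ c →
      ori (S ε a) (S ε b) (S ε c) ≠ 0 := by
    simp only [eventually_all]
    intro a b c hab hbc hac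
    have n : ∀ {x y : Fin m}, x ≠ y → ((y : ℕ) : ℝ) - (x : ℕ) ≠ 0 := fun e =>
      sub_ne_zero.2 fun e' => e (Fin.ext (Nat.cast_injective e').symm)
    filter_upwards [OT2_quad (ori (Q a) (Q b) (Q c))
      (((Q b).1 - (Q a).1) * ((c : ℕ) ^ 2 - (a : ℕ) ^ 2) + ((b : ℕ) - (a : ℕ)) * ((Q c).2 - (Q a).2) -
        (((Q b).2 - (Q a).2) * ((c : ℕ) - (a : ℕ)) +
          ((b : ℕ) ^ 2 - (a : ℕ) ^ 2) * ((Q c).1 - (Q a).1)))
      (mul_ne_zero (mul_ne_zero (n hab) (n hbc)) (n hac))] with ε h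
    refine fun e => h (Eq.trans ?_ e)
    simp only [ori, S]
    ring
  have h2 : ∀ᶠ ε : ℝ in 𝓝 0, ∀ a b c,
      (0 < ori (Q a) (Q b) (Q c) → 0 < ori (S ε a) (S ε b) (S ε c)) ∧
      (ori (Q a) (Q b) (Q c) < 0 → ori (S ε a) (S ε b) (S ε c) < 0) := by
    simp only [eventually_all, eventually_and]
    intro a b c
    have : Tendsto (fun ε => ori (S ε a) (S ε b) (S ε c)) (𝓝 0) (𝓝 (ori (Q a) (Q b) (Q c))) :=
      Continuous.tendsto' (by simp only [ori, S]; fun_prop) _ _ (by simp [S])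
    exact ⟨fun e => this.eventually_const_lt e, fun e => this.eventually_lt_const e⟩
  obtain ⟨ε, h3, h4⟩ := (h1.and (h2.filter_mono nhdsWithin_le_nhds)).exists
  exact ⟨S ε, h3, h4⟩

theorem OT2_inj {m : ℕ} (hm : 2 < m) {S : Fin m → ℝ × ℝ}
    (h : ∀ a b c, a ≠ b → b ≠ c → a ≠ c → ori (S a) (S b) (S c) ≠ 0) : Function.Injective S := by
  intro a b e
  by_contra hab
  obtain ⟨c, h1, h2⟩ := Fin.exists_ne_and_ne_of_two_lt a b hm
  exact OT2_ne (h a b c hab h2.symm h1.symm) e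

theorem exists_type (d : ℕ) : ∃ (m : ℕ) (S : Fin m → ℝ × ℝ), 3 ≤ m ∧ Function.Injective S ∧
    (∀ a b c, a ≠ b → b ≠ c → a ≠ c → ori (S a) (S b) (S c) ≠ 0) ∧
    ∀ P : Fin m → ℝ × ℝ,
      (∀ a b c, SignType.sign (ori (P a) (P b) (P c)) = SignType.sign (ori (S a) (S b) (S c))) →
      Function.Injective P ∧ ∀ F : MvPolynomial (Fin 2) ℝ, F ≠ 0 → F.totalDegree ≤ d →
        ∃ a, ev F (P a) ≠ 0 := by
  obtain ⟨k, hk⟩ : ∃ k, k = 22 * d ^ 2 + 3 := ⟨_, rfl⟩
  obtain ⟨m, hm⟩ : ∃ m, Fintype.card (Fin 4 × Fin (k + 1) ⊕ Fin k × Fin k) = m := ⟨_, rfl⟩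
  let e := Fintype.equivFinOfCardEq hm
  have h3 : 2 < m := by
    rw [← hm]
    simp only [Fintype.card_sum, Fintype.card_prod, Fintype.card_fin]
    omega
  let Q : Fin 4 × Fin (k + 1) ⊕ Fin k × Fin k → ℝ × ℝ := Sum.elim
    (fun x => (![(-1, (x.2 : ℕ)), (k + 1, (x.2 : ℕ)), ((x.2 : ℕ), -1), ((x.2 : ℕ), k + 1)] :
      Fin 4 → ℝ × ℝ) x.1)
    fun x => ((x.2 : ℕ) + 1 / 2, (x.1 : ℕ) + 1 / 2)
  obtain ⟨S, h1, h2⟩ := OT2_pert fun n => Q (e.symm n)
  refine ⟨m, S, h3, OT2_inj h3 h1, h1, fun P hP => ⟨OT2_inj h3 fun a b c x y z h0 =>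
    h1 a b c x y z (sign_eq_zero_iff.1 ((hP a b c).symm.trans (sign_eq_zero_iff.2 h0))),
    fun F hF hd => ?_⟩⟩
  obtain ⟨a, b, h⟩ := grid_main (OT2_tr (Q := Q) (P := fun x => P (e x))
    (fun {a b c} h => sign_eq_one_iff.1 ((hP _ _ _).trans (sign_eq_one_iff.2
      ((h2 _ _ _).1 (by simpa only [Equiv.symm_apply_apply] using h)))))
    (fun {a b c} h => sign_eq_neg_one_iff.1 ((hP _ _ _).trans (sign_eq_neg_one_iff.2
      ((h2 _ _ _).2 (by simpa only [Equiv.symm_apply_apply] using h)))))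
    (fun i => .inl (0, i)) (fun i => .inl (1, i)) (fun i => .inl (2, i)) (fun i => .inl (3, i))
    (fun a b => .inr (a, b)) (OT2_std k)) hk hF hd
  exact ⟨_, h⟩

end Pool.Agent.Work.MP_677830_co.G
end

-- merged part: Pool.Agent.Work.MP_677830_co.G.Geo2
section
/-!
# Families with meromorphic distances and arbitrary coordinates
Normalise c, e to 0, 1 in both isotropic coordinates Z, W. Then X a = (Z a + W a) / 2 and the products
of the η a = (Z a - W a) / 2 are polynomials in the ratios of the squared distances.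
-/

namespace Pool.Agent.Work.MP_677830_co.G

open Filter Topology Polynomial Matrix MeasureTheory
open scoped ComplexConjugate ComplexOrder

theorem Geo2_norm {m : ℕ} (x y : Fin m → ℂ) (dd : Fin m → Fin m → ℂ) {c e : Fin m}
    (h : ∀ a b, dd a b = (x a - x b) ^ 2 + (y a - y b) ^ 2) (h0 : dd c e ≠ 0) :
    (x e + Complex.I * y e - (x c + Complex.I * y c) ≠ 0 ∧
      x e - Complex.I * y e - (x c - Complex.I * y c) ≠ 0) ∧
    ∃ Z W : Fin m → ℂ, (∀ a, Z a = (x a + Complex.I * y a - (x c + Complex.I * y c)) /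
        (x e + Complex.I * y e - (x c + Complex.I * y c)) ∧
      W a = (x a - Complex.I * y a - (x c - Complex.I * y c)) /
        (x e - Complex.I * y e - (x c - Complex.I * y c))) ∧
      (∀ a b, (Z a - Z b) * (W a - W b) = dd a b / dd c e) ∧ Z c = 0 ∧ W c = 0 ∧ Z e = 1 ∧
        W e = 1 := by
  have prod : ∀ a b, dd a b = (x a + Complex.I * y a - (x b + Complex.I * y b)) *
      (x a - Complex.I * y a - (x b - Complex.I * y b)) := by
    intro a b
    rw [h]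
    linear_combination ((y a - y b) ^ 2) * Complex.I_mul_I
  have h1 : dd c e = (x e + Complex.I * y e - (x c + Complex.I * y c)) *
      (x e - Complex.I * y e - (x c - Complex.I * y c)) := by rw [prod]; ring
  obtain ⟨h2, h3⟩ := mul_ne_zero_iff.1 (h1 ▸ h0)
  refine ⟨⟨h2, h3⟩, _, _, fun a => ⟨rfl, rfl⟩, fun a b => ?_, by simp, by simp, div_self h2,
    div_self h3⟩
  rw [h1, prod a b, ← sub_div, ← sub_div, div_mul_div_comm]
  congr 1
  ring

/-- The first coordinate in terms of the distance ratios. -/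
noncomputable def Geo2_X {m : ℕ} (δ : Fin m → Fin m → ℂ) (c e a : Fin m) : ℂ :=
  (1 + δ a c - δ a e) / 2

/-- Products of second coordinates in terms of the distance ratios. -/
noncomputable def Geo2_G {m : ℕ} (δ : Fin m → Fin m → ℂ) (c e a b : Fin m) : ℂ :=
  Geo2_X δ c e a * Geo2_X δ c e b - (δ a c + δ b c - δ a b) / 2

theorem Geo2_pt {m : ℕ} {δ : Fin m → Fin m → ℂ} {c e : Fin m} {Z W : Fin m → ℂ}
    (h : ∀ a b, (Z a - Z b) * (W a - W b) = δ a b) (h1 : Z c = 0) (h2 : W c = 0) (h3 : Z e = 1)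
    (h4 : W e = 1) : (∀ a, Geo2_X δ c e a = (Z a + W a) / 2) ∧
      ∀ a b, Geo2_G δ c e a b = (Z a - W a) / 2 * ((Z b - W b) / 2) := by
  have k : ∀ a, Geo2_X δ c e a = (Z a + W a) / 2 := by
    intro a
    rw [Geo2_X, ← h, ← h, h1, h2, h3, h4]
    ring
  refine ⟨k, fun a b => ?_⟩
  rw [Geo2_G, k, k, ← h, ← h, ← h, h1, h2]
  ring

theorem Geo2_val {m : ℕ} {δ : Fin m → Fin m → ℂ} {c e a0 : Fin m} {Z W : Fin m → ℂ}
    (h : ∀ a b, (Z a - Z b) * (W a - W b) = δ a b) (h1 : Z c = 0) (h2 : W c = 0) (h3 : Z e = 1)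
    (h4 : W e = 1) (h5 : Geo2_G δ c e a0 a0 ≠ 0) (a : Fin m) :
    (if a = c then 0 else if a = e then 1 else Geo2_X δ c e a) +
      (Z a0 - W a0) / 2 * (if a = c ∨ a = e then 0 else Geo2_G δ c e a a0 / Geo2_G δ c e a0 a0) =
        Z a ∧
    (if a = c then 0 else if a = e then 1 else Geo2_X δ c e a) -
      (Z a0 - W a0) / 2 * (if a = c ∨ a = e then 0 else Geo2_G δ c e a a0 / Geo2_G δ c e a0 a0) =
        W a := by
  obtain ⟨k1, k2⟩ := Geo2_pt h h1 h2 h3 h4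
  by_cases hc : a = c
  · simp [hc, h1, h2]
  by_cases he : a = e
  · have : e ≠ c := he ▸ hc
    simp [he, h3, h4, this]
  rw [k2] at h5
  have h6 : Z a0 - W a0 ≠ 0 := fun h => h5 (by rw [h]; ring)
  simp only [hc, he, if_false, or_self, k1, k2]
  constructor <;> field_simp <;> ring

theorem Geo2_alg {X X' ρ ρ' r h Z W Z' W' : ℂ} (h1 : X + r * ρ = Z) (h2 : X - r * ρ = W)
    (h3 : X' + r * ρ' = Z') (h4 : X' - r * ρ' = W') (h5 : h = r * r) :
    (X - X') ^ 2 - h * (ρ - ρ') ^ 2 = (Z - Z') * (W - W') := by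
  rw [← h1, ← h2, ← h3, ← h4, h5]
  ring

theorem geo2_an {q : ℕ} (hq : 10 ^ 13 ≤ q) (ho : Odd q) (m : ℕ) (x y : Fin m → ℂ → ℂ)
    (d : Fin m → Fin m → ℂ → ℂ) (t0 : ℂ) (x0 y0 : Fin m → ℂ) (hd : ∀ a b, Meromorphic (d a b))
    (he : ∀ a b, ∀ᶠ t in codiscrete ℂ, (x a t - x b t) ^ 2 + (y a t - y b t) ^ 2 = d a b t ^ 2)
    (h0 : ∀ a b, AnalyticAt ℂ (d a b) t0 ∧
      d a b t0 ^ 2 = (x0 a - x0 b) ^ 2 + (y0 a - y0 b) ^ 2)
    (hne : ∀ a b, a ≠ b → (x0 a - x0 b) ^ 2 + (y0 a - y0 b) ^ 2 ≠ 0)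
    (hF : ∀ F : MvPolynomial (Fin 2) ℂ, F ≠ 0 → F.totalDegree ≤ 2 * q →
      ∃ a, MvPolynomial.eval ![x0 a, y0 a] F ≠ 0) (a b c e : Fin m) (hce : c ≠ e) :
    ∃ κ : ℂ, ∀ᶠ t in codiscrete ℂ, d a b t = κ * d c e t := by
  classical
  have hce0 : d c e t0 ^ 2 ≠ 0 := by rw [(h0 c e).2]; exact hne c e hce
  have hce1 : d c e t0 ≠ 0 := fun h => hce0 (by rw [h]; ring)
  have nce : ∀ᶠ t in codiscrete ℂ, d c e t ≠ 0 := mer_ne_of_at (hd c e) (h0 c e).1 hce1
  obtain ⟨⟨s1, s2⟩, Z0, W0, hZW, k0, k1, k2, k3, k4⟩ := Geo2_norm x0 y0 (fun a b => d a b t0 ^ 2)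
    (fun a b => (h0 a b).2) hce0
  obtain ⟨c0, hc0⟩ := Infinite.exists_notMem_finset
    ((Finset.univ.image Z0) ∪ Finset.univ.image W0)
  have hc0' : ∀ a, Z0 a ≠ c0 ∧ W0 a ≠ c0 := by
    intro a
    constructor <;> intro h <;> apply hc0 <;> simp only [Finset.mem_union, Finset.mem_image]
    · exact Or.inl ⟨a, Finset.mem_univ _, h⟩
    · exact Or.inr ⟨a, Finset.mem_univ _, h⟩
  have hs : ∀ f : Ix q → ℂ, (∀ a, ∑ x, f x * ((Z0 a - c0)⁻¹ ^ (x.1 : ℕ) *
      (W0 a - c0)⁻¹ ^ (x.2 : ℕ)) = 0) → f = 0 := by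
    intro f hf
    by_contra hf0
    obtain ⟨F, F0, Fd, hFe⟩ := curve f hf0 _ _ c0 s1 s2
    obtain ⟨a', ha'⟩ := hF F F0 Fd
    apply ha'
    refine hFe _ _ ?_ ?_ ?_
    · rw [← (hZW a').1]; exact (hc0' a').1
    · rw [← (hZW a').2]; exact (hc0' a').2
    · rw [← (hZW a').1, ← (hZW a').2]; exact hf a'
  obtain ⟨a0, ha0⟩ : ∃ a0, Z0 a0 - W0 a0 ≠ 0 := by
    by_contra hcon
    push Not at hcon
    have q2 : 1 < q := lt_of_lt_of_le (by norm_num) hq
    have hne' : ((⟨1, q2⟩, ⟨0, by omega⟩) : Ix q) ≠ (⟨0, by omega⟩, ⟨1, q2⟩) := by simp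
    have := hs (Pi.single (⟨1, q2⟩, ⟨0, by omega⟩) 1 - Pi.single (⟨0, by omega⟩, ⟨1, q2⟩) 1) (by
      intro a
      simp only [Pi.sub_apply, sub_mul, Finset.sum_sub_distrib, Pi.single_apply, ite_mul, one_mul,
        zero_mul, Finset.sum_ite_eq', Finset.mem_univ, if_true, pow_one, pow_zero, mul_one]
      rw [sub_eq_zero.1 (hcon a), sub_self])
    have h2 := congrFun this (⟨1, q2⟩, ⟨0, by omega⟩)
    simp [hne'] at h2
  set δ : ℂ → Fin m → Fin m → ℂ := fun t a b => d a b t ^ 2 / d c e t ^ 2 with hδ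
  have mδ : ∀ a b, Meromorphic fun t => δ t a b := fun a b t =>
    ((hd a b t).pow 2).div ((hd c e t).pow 2)
  have aδ : ∀ a b, AnalyticAt ℂ (fun t => δ t a b) t0 := fun a b =>
    ((h0 a b).1.pow 2).div ((h0 c e).1.pow 2) hce0
  have mX : ∀ a, Meromorphic fun t => Geo2_X (δ t) c e a := fun a t =>
    (((MeromorphicAt.const 1 t).add (mδ a c t)).sub (mδ a e t)).div (MeromorphicAt.const 2 t)
  have aX : ∀ a, AnalyticAt ℂ (fun t => Geo2_X (δ t) c e a) t0 := fun a =>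
    ((analyticAt_const.add (aδ a c)).sub (aδ a e)).div analyticAt_const two_ne_zero
  have mG : ∀ a b, Meromorphic fun t => Geo2_G (δ t) c e a b := fun a b t =>
    ((mX a t).mul (mX b t)).sub
      ((((mδ a c t).add (mδ b c t)).sub (mδ a b t)).div (MeromorphicAt.const 2 t))
  have aG : ∀ a b, AnalyticAt ℂ (fun t => Geo2_G (δ t) c e a b) t0 := fun a b =>
    ((aX a).mul (aX b)).sub
      ((((aδ a c).add (aδ b c)).sub (aδ a b)).div analyticAt_const two_ne_zero)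
  have g0 := (Geo2_pt (δ := δ t0) k0 k1 k2 k3 k4).2 a0 a0
  have r0 : (Z0 a0 - W0 a0) / 2 ≠ 0 := div_ne_zero ha0 two_ne_zero
  have g1 : Geo2_G (δ t0) c e a0 a0 ≠ 0 := by rw [g0]; exact mul_ne_zero r0 r0
  have v0 := Geo2_val (δ := δ t0) k0 k1 k2 k3 k4 g1
  obtain ⟨k, hk⟩ := geo2_main (q := q)
    (X := fun a t => if a = c then 0 else if a = e then 1 else Geo2_X (δ t) c e a)
    (ρ := fun a t => if a = c ∨ a = e then 0 else
      Geo2_G (δ t) c e a a0 / Geo2_G (δ t) c e a0 a0)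
    (h := fun t => Geo2_G (δ t) c e a0 a0) (D := fun a b t => d a b t / d c e t) (t0 := t0)
    (r0 := (Z0 a0 - W0 a0) / 2) (c0 := c0) hq ho (mG a0 a0) hce
    (fun a t => by
      split_ifs
      exacts [MeromorphicAt.const _ t, MeromorphicAt.const _ t, mX a t])
    (fun a t => by
      split_ifs
      exacts [MeromorphicAt.const _ t, (mG a a0 t).div (mG a0 a0 t)])
    (fun a b t => (hd a b t).div (hd c e t)) (aG a0 a0)
    (fun a => by
      split_ifs
      exacts [analyticAt_const, analyticAt_const, aX a])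
    (fun a => by
      split_ifs
      exacts [analyticAt_const, (aG a a0).div (aG a0 a0) g1])
    (by rw [g0, sq]) r0 (fun t => by simp) (fun t => by simp [hce.symm])
    (fun a b => by
      filter_upwards [eventually_all.2 fun a => eventually_all.2 fun b => he a b, nce,
        mer_ne_of_at (mG a0 a0) (aG a0 a0) g1] with t e1 e2 e3
      obtain ⟨-, Z, W, -, l0, l1, l2, l3, l4⟩ := Geo2_norm (fun a => x a t) (fun a => y a t)
        (fun a b => d a b t ^ 2) (fun a b => (e1 a b).symm) (pow_ne_zero 2 e2)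
      have v1 := Geo2_val (δ := δ t) l0 l1 l2 l3 l4 e3
      rw [div_pow, ← l0 a b]
      exact Geo2_alg (v1 a).1 (v1 a).2 (v1 b).1 (v1 b).2
        ((Geo2_pt (δ := δ t) l0 l1 l2 l3 l4).2 a0 a0))
    (fun a b hab => by
      rw [(v0 a).1, (v0 b).1, (v0 a).2, (v0 b).2]
      have h1 : (Z0 a - Z0 b) * (W0 a - W0 b) ≠ 0 := by
        rw [k0, (h0 a b).2]
        exact div_ne_zero (hne a b hab) hce0
      exact ⟨sub_ne_zero.1 (mul_ne_zero_iff.1 h1).1, sub_ne_zero.1 (mul_ne_zero_iff.1 h1).2⟩)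
    (fun a => by rw [(v0 a).1, (v0 a).2]; exact hc0' a)
    (fun f hf => hs f fun a => by rw [← (v0 a).1, ← (v0 a).2]; exact hf a) a b
  refine sq_ratio (hd a b) (hd c e) (k := k) ?_
  filter_upwards [hk, nce] with t h1 h2
  rw [← h1]
  field_simp

theorem geo2_q {q : ℕ} (hq : 10 ^ 13 ≤ q) (ho : Odd q) (m : ℕ) (x y : Fin m → ℂ → ℂ)
    (d : Fin m → Fin m → ℂ → ℂ) (t0 : ℂ) (x0 y0 : Fin m → ℂ) (hd : ∀ a b, Meromorphic (d a b))
    (he : ∀ a b, ∀ᶠ t in codiscrete ℂ, (x a t - x b t) ^ 2 + (y a t - y b t) ^ 2 = d a b t ^ 2)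
    (h0 : ∀ a b, Tendsto (fun t => d a b t ^ 2) (𝓝[≠] t0)
      (𝓝 ((x0 a - x0 b) ^ 2 + (y0 a - y0 b) ^ 2)))
    (hne : ∀ a b, a ≠ b → (x0 a - x0 b) ^ 2 + (y0 a - y0 b) ^ 2 ≠ 0)
    (hF : ∀ F : MvPolynomial (Fin 2) ℂ, F ≠ 0 → F.totalDegree ≤ 2 * q →
      ∃ a, MvPolynomial.eval ![x0 a, y0 a] F ≠ 0) (a b c e : Fin m) (hce : c ≠ e) :
    ∃ κ : ℂ, ∀ᶠ t in codiscrete ℂ, d a b t = κ * d c e t := by
  choose g mg ag vg eg using fun a b => remov (hd a b) (h0 a b)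
  obtain ⟨κ, hκ⟩ := geo2_an hq ho m x y g t0 x0 y0 mg
    (fun a b => by filter_upwards [he a b, eg a b] with t h1 h2; rw [h1, h2])
    (fun a b => ⟨ag a b, vg a b⟩) hne hF a b c e hce
  refine ⟨κ, ?_⟩
  filter_upwards [hκ, eg a b, eg c e] with t h1 h2 h3
  rw [← h2, ← h3, h1]

theorem Geo2_odd : Odd (10 ^ 13 + 1) := Even.add_one (Nat.even_pow.2 ⟨by decide, by decide⟩)

theorem geoA2 (m : ℕ) (x y : Fin m → ℂ → ℂ) (d : Fin m → Fin m → ℂ → ℂ)
    (hd : ∀ a b, Meromorphic (d a b))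
    (he : ∀ a b, ∀ᶠ t in codiscrete ℂ, (x a t - x b t) ^ 2 + (y a t - y b t) ^ 2 = d a b t ^ 2)
    (hne : ∀ a b, a ≠ b → ∃ᶠ t in codiscrete ℂ, d a b t ≠ 0) :
    (∀ a b c e, c ≠ e → ∃ κ : ℂ, ∀ᶠ t in codiscrete ℂ, d a b t = κ * d c e t) ∨
      ∀ᶠ t in codiscrete ℂ, ∃ F : MvPolynomial (Fin 2) ℂ, F ≠ 0 ∧
        F.totalDegree ≤ 2 * (10 ^ 13 + 1) ∧ ∀ a, MvPolynomial.eval ![x a t, y a t] F = 0 := by
  rw [or_iff_not_imp_right]
  intro hB
  have h1 : ∀ᶠ t in codiscrete ℂ, ∀ a b, AnalyticAt ℂ (d a b) t ∧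
      d a b t ^ 2 = (x a t - x b t) ^ 2 + (y a t - y b t) ^ 2 :=
    eventually_all.2 fun a => eventually_all.2 fun b =>
      (mer_an (hd a b)).and ((he a b).mono fun t h => h.symm)
  have h2 : ∀ᶠ t in codiscrete ℂ, ∀ a b, a ≠ b →
      (x a t - x b t) ^ 2 + (y a t - y b t) ^ 2 ≠ 0 := by
    refine eventually_all.2 fun a => eventually_all.2 fun b => ?_
    by_cases hab : a = b
    · exact Eventually.of_forall fun t h => absurd hab h
    · rcases mer_dich (hd a b) with h | h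
      · filter_upwards [h, he a b] with t g1 g2 _
        rw [g2]
        exact pow_ne_zero 2 g1
      · obtain ⟨t, g1, g2⟩ := ((hne a b hab).and_eventually h).exists
        exact absurd g2 g1
  obtain ⟨t0, g0, g1, g2⟩ := ((not_eventually.1 hB).and_eventually (h1.and h2)).exists
  refine geo2_an (q := 10 ^ 13 + 1) (Nat.le_succ _) Geo2_odd m x y d t0 (fun a => x a t0)
    (fun a => y a t0) hd he g1 g2 fun F F0 Fd => ?_
  by_contra hc
  push Not at hc
  exact g0 ⟨F, F0, Fd, hc⟩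

theorem geoB2 : ∃ (m : ℕ) (S : Fin m → ℝ × ℝ), 3 ≤ m ∧ Function.Injective S ∧
    (∀ a b c, a ≠ b → b ≠ c → a ≠ c → ori (S a) (S b) (S c) ≠ 0) ∧
    ∀ (x y : Fin m → ℂ → ℂ) (d : Fin m → Fin m → ℂ → ℂ) (t0 : ℂ) (P : Fin m → ℝ × ℝ),
      (∀ a b, Meromorphic (d a b)) →
      (∀ a b, ∀ᶠ t in codiscrete ℂ, (x a t - x b t) ^ 2 + (y a t - y b t) ^ 2 = d a b t ^ 2) →
      (∀ a b, Tendsto (fun t => d a b t ^ 2) (𝓝[≠] t0)
        (𝓝 ((((P a).1 - (P b).1) ^ 2 + ((P a).2 - (P b).2) ^ 2 : ℝ) : ℂ))) →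
      (∀ a b c, SignType.sign (ori (P a) (P b) (P c)) = SignType.sign (ori (S a) (S b) (S c))) →
      ∀ a b c e, c ≠ e → ∃ κ : ℂ, ∀ᶠ t in codiscrete ℂ, d a b t = κ * d c e t := by
  obtain ⟨q, hq, ho⟩ : ∃ q : ℕ, 10 ^ 13 ≤ q ∧ Odd q := ⟨_, Nat.le_succ _, Geo2_odd⟩
  obtain ⟨m, S, h3, hS, hgp, hT⟩ := exists_type (2 * q)
  refine ⟨m, S, h3, hS, hgp, ?_⟩
  intro x y d t0 P hd he h0 hsg
  obtain ⟨hP, hF⟩ := hT P hsg
  refine geo2_q hq ho m x y d t0 (fun a => (P a).1) (fun a => (P a).2) hd he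
    (fun a b => by
      simpa only [Complex.ofReal_add, Complex.ofReal_pow, Complex.ofReal_sub] using h0 a b) ?_ ?_
  · intro a b hab h
    have h' : ((P a).1 - (P b).1) ^ 2 + ((P a).2 - (P b).2) ^ 2 = (0 : ℝ) := by exact_mod_cast h
    apply hab
    apply hP
    have h1 : (P a).1 - (P b).1 = 0 := by
      nlinarith [sq_nonneg ((P a).1 - (P b).1), sq_nonneg ((P a).2 - (P b).2)]
    have h2 : (P a).2 - (P b).2 = 0 := by
      nlinarith [sq_nonneg ((P a).1 - (P b).1), sq_nonneg ((P a).2 - (P b).2)]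
    exact Prod.ext (by linarith) (by linarith)
  · intro F hF0 hFd
    obtain ⟨G, hG0, hGd, hG⟩ := real_curve F hF0
    obtain ⟨a, ha⟩ := hF G hG0 (hGd.trans hFd)
    exact ⟨a, fun h => ha (hG _ _ h)⟩

end Pool.Agent.Work.MP_677830_co.G
end
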